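import Pool.Agent.MRS.Defs

/-!
# MRS / BDefs: the system and positivity (part B*, interface between `SysThm` and the assembly)

PROOF of `SysThm` (helper48).  Let `l = k + 1 ≥ 1`, `η' = min (η, 1/(4 l + 4))`, `ψ(θ) = max(0, 1 - ‖θ‖/η')` (`‖θ‖` = distance to the
integers), `F n = ψ(α n) · mu(⋂_{j ≤ k} T(j round(α n))⁻¹ A)`.
(1) is immediate (`r = round (α n)`).
(2) The system `Y = X × [0,1)`, `T'_n (x, u) = (T ⌊u + α n⌋ x, fract (u + α n))` is a `ZAct` for `mu × Lebesgue`.  For `‖α n‖ < η'`, `u ∈ [1/4, 3/4]`, `j ≤ k`: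
`⌊u + j α n⌋ = j round(α n)`; so with `g_0 (x, u) = 2 · 1_A(x) 1_{[1/4,3/4]}(u) e(-m u)/2`-type functions and `g_1 (x, u) = 1_A(x) e(m u)`, `g_j = 1_A (x)` the `l`-term sequence is
`e(m α n)/2 · mu(⋂ T(j round(α n))⁻¹ A)` for all those `n`; multiply by the Fourier coefficients of `ψ` (absolutely summable) after inserting `ψ = ψ · 1` as follows: `ψ` is a uniform limit of
trigonometric polynomials and where `ψ(α n) = 0` both sides are at most the error.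
(3) `UnifSz` for the action `n ↦ T'_{W n}` and the set `A × [1/4, 1/4 + η'/2)`: `c` depends only on `k` and `mu A · η'/2`, not on `W`; if `(x,u)` and `T'_{W t}(x,u)` are both
in the set then `‖α W t‖ < η'/2`, so `ψ ≥ 1/2`, and the intersection is contained in `(⋂_j T(j round)⁻¹A) × [1/4, 1/4 + η'/2)`.
-/

set_option autoImplicit false

namespace Pool.Agent.MRS

open MeasureTheory Filter Topology
open scoped BigOperators ComplexConjugate

/-- the bracket system and its positivity -/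
def SysThm : Prop :=
  UnifSz → ∀ (k : ℕ) (X : Type) [MeasurableSpace X] (mu : Measure X) [IsProbabilityMeasure mu]
    (T : ℤ → X → X), ZAct mu T → ∀ A : Set X, MeasurableSet A → 0 < mu.real A →
    ∀ α η : ℝ, α ≠ 0 → 0 < η → ∃ F : ℤ → ℝ,
      (∀ n : ℤ, 0 < F n → ∃ r : ℤ, |α * n - r| < η ∧
        0 < mu.real (⋂ j ∈ Finset.range (k + 1), T ((j : ℤ) * r) ⁻¹' A)) ∧
      (∀ ε : ℝ, 0 < ε → ∃ (J : ℕ) (a : Fin J → ℂ) (G : Fin J → ℤ → ℂ),
        (∀ j, IsTerm (k + 1) (G j)) ∧ ∀ n : ℤ, ‖(F n : ℂ) - ∑ j, a j * G j n‖ ≤ ε) ∧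
      (∃ c : ℝ, 0 < c ∧ ∀ W : ℕ, 0 < W → ∃ N1 : ℕ, ∀ N : ℕ, N1 ≤ N →
        c * N ≤ ∑ t ∈ Finset.Icc 1 N, F ((W : ℤ) * t))

end Pool.Agent.MRS
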