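import Pool.Agent.MRS.BDefs

/-!
# MRS / BaAct: the integer action generated by an invertible measure preserving map
-/

set_option autoImplicit false

namespace Pool.Agent.MRS

open MeasureTheory

variable {X : Type} [MeasurableSpace X]

/-- the action of the integers generated by `T` -/
noncomputable def zact (T : X ≃ᵐ X) (n : ℤ) : X → X := ⇑((T.toEquiv : Equiv.Perm X) ^ n)

theorem zact_nat (T : X ≃ᵐ X) (n : ℕ) : zact T (n : ℤ) = (⇑T)^[n] := by
  unfold zact
  rw [zpow_natCast, Equiv.Perm.coe_pow]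
  rfl

theorem zact_neg (T : X ≃ᵐ X) (n : ℕ) : zact T (-(n : ℤ)) = (⇑T.symm)^[n] := by
  unfold zact
  rw [zpow_neg, ← inv_zpow, zpow_natCast, Equiv.Perm.coe_pow]
  rfl

theorem zact_add (T : X ≃ᵐ X) (a b : ℤ) (x : X) : zact T (a + b) x = zact T a (zact T b x) := by
  unfold zact
  rw [zpow_add, Equiv.Perm.mul_apply]

theorem zact_ZAct {μ : Measure X} (T : X ≃ᵐ X) (hT : MeasurePreserving T μ μ) :
    ZAct μ (zact T) := by
  refine ⟨fun x => ?_, zact_add T, fun n => ?_⟩
  · unfold zact
    rw [zpow_zero, Equiv.Perm.one_apply]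
  · rcases Int.eq_nat_or_neg n with ⟨m, h | h⟩
    · rw [h, zact_nat]
      exact hT.iterate m
    · rw [h, zact_neg]
      exact (MeasurePreserving.symm T hT).iterate m

theorem meas_natAbs {μ : Measure X} (T : X ≃ᵐ X) (hT : MeasurePreserving T μ μ) (A : Set X)
    (hA : MeasurableSet A) (k : ℕ) (r : ℤ) :
    μ (⋂ i ∈ Finset.range (k + 1), (⇑T)^[i * r.natAbs] ⁻¹' A) =
      μ (⋂ j ∈ Finset.range (k + 1), zact T ((j : ℤ) * r) ⁻¹' A) := by
  have hZ := zact_ZAct T hT
  rcases le_total 0 r with h | h
  · congr 1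
    refine Set.iInter₂_congr fun i _ => ?_
    rw [← zact_nat]
    congr 2
    push_cast
    rw [abs_of_nonneg h]
  · have h1 : (⋂ j ∈ Finset.range (k + 1), zact T ((j : ℤ) * r) ⁻¹' A) =
        zact T ((k : ℤ) * r) ⁻¹' (⋂ i ∈ Finset.range (k + 1), (⇑T)^[i * r.natAbs] ⁻¹' A) := by
      ext x
      simp only [Set.mem_iInter, Set.mem_preimage, Finset.mem_range]
      have h2 : ∀ i : ℕ, (⇑T)^[i * r.natAbs] (zact T ((k : ℤ) * r) x) =
          zact T (((k : ℤ) - i) * r) x := by
        intro i
        rw [← zact_nat, ← zact_add]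
        congr 1
        push_cast
        rw [abs_of_nonpos h]
        ring
      constructor
      · intro h3 i hi
        rw [h2 i]
        have h4 := h3 (k - i) (by omega)
        rwa [Nat.cast_sub (by omega)] at h4
      · intro h3 i hi
        have h4 := h3 (k - i) (by omega)
        rw [h2 (k - i), Nat.cast_sub (by omega)] at h4
        rwa [sub_sub_cancel] at h4
    rw [h1]
    refine ((hZ.mp _).measure_preimage ?_).symm
    refine MeasurableSet.nullMeasurableSet ?_
    refine Finset.measurableSet_biInter _ fun i _ => ?_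
    exact (hT.iterate _).measurable hA

end Pool.Agent.MRS
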