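import Pool.Agent.MRS.BDefs
import Pool.Agent.RHN.EWin

/-!
# MRS / BaCnt: many primes in a window
-/

set_option autoImplicit false

namespace Pool.Agent.MRS

open Filter Topology

theorem wprimes_card (L : ℝ) (hL : 1 < L) (W b : ℕ) (hW : 0 < W) (hb : b.Coprime W) :
    ∃ N0 : ℕ, ∀ N : ℕ, N0 ≤ N →
      (L - 1) / 2 * (N / (W.totient * Real.log N)) ≤ ((wprimes N L W b).card : ℝ) := by
  have hW' : (0 : ℝ) < (W.totient : ℝ) := by exact_mod_cast Nat.totient_pos.2 hW
  have h1 := Pool.Agent.RHN.pwin (V := W) (b := b) hW hb hL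
  have h2 : (L - 1) / 2 / (W.totient : ℝ) < (L - 1) / (W.totient : ℝ) := by
    apply div_lt_div_of_pos_right _ hW'
    linarith
  have h3 := (h1.eventually_const_lt h2).and (eventually_gt_atTop (1 : ℝ))
  obtain ⟨t₀, ht₀⟩ := eventually_atTop.1 h3
  refine ⟨⌈t₀⌉₊, fun N hN => ?_⟩
  have hN' : t₀ ≤ (N : ℝ) := Nat.ceil_le.1 hN
  obtain ⟨h4, h5⟩ := ht₀ N hN'
  have h6 : Pool.Agent.RHN.WP W b L (N : ℝ) = wprimes N L W b := by
    unfold Pool.Agent.RHN.WP wprimes
    rw [Nat.floor_natCast]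
  rw [h6] at h4
  have h7 : 0 < Real.log N := Real.log_pos h5
  have h8 : (0 : ℝ) < N := by linarith
  have h9 : (L - 1) / 2 * (N / (W.totient * Real.log N)) =
      (L - 1) / 2 / (W.totient : ℝ) * (N / Real.log N) := by
    field_simp
  rw [h9]
  have h10 : ((wprimes N L W b).card : ℝ) =
      ((wprimes N L W b).card : ℝ) * (Real.log N / N) * (N / Real.log N) := by
    field_simp
  rw [h10]
  exact mul_le_mul_of_nonneg_right h4.le (by positivity)

end Pool.Agent.MRS
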