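import Pool.Agent.MRS.BaCnt

/-!
# MRS / BaSum: a positive value of `F` along the shifted primes
-/

set_option autoImplicit false

namespace Pool.Agent.MRS

open MeasureTheory Filter Topology
open scoped BigOperators ComplexConjugate

theorem approx_sum {ι : Type} (P : Finset ι) (φ : ι → ℤ) {F : ℤ → ℝ} {ε : ℝ} {J : ℕ}
    {a : Fin J → ℂ} {G : Fin J → ℤ → ℂ} (h : ∀ n : ℤ, ‖(F n : ℂ) - ∑ j, a j * G j n‖ ≤ ε)
    (c : Fin J → ℂ) :
    ‖∑ i ∈ P, ((F (φ i) : ℂ) - ∑ j, a j * c j)‖ ≤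
      ε * P.card + ∑ j, ‖a j‖ * ‖∑ i ∈ P, (G j (φ i) - c j)‖ := by
  have h1 : ∑ i ∈ P, ((F (φ i) : ℂ) - ∑ j, a j * c j) =
      ∑ i ∈ P, ((F (φ i) : ℂ) - ∑ j, a j * G j (φ i)) +
        ∑ j, a j * ∑ i ∈ P, (G j (φ i) - c j) := by
    have h2 : ∑ j, a j * ∑ i ∈ P, (G j (φ i) - c j) =
        ∑ i ∈ P, (∑ j, a j * G j (φ i) - ∑ j, a j * c j) := by
      simp_rw [Finset.mul_sum]
      rw [Finset.sum_comm]
      refine Finset.sum_congr rfl fun i _ => ?_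
      rw [← Finset.sum_sub_distrib]
      refine Finset.sum_congr rfl fun j _ => ?_
      ring
    rw [h2, ← Finset.sum_add_distrib]
    refine Finset.sum_congr rfl fun i _ => ?_
    ring
  rw [h1]
  refine (norm_add_le _ _).trans (add_le_add ?_ ?_)
  · refine (norm_sum_le _ _).trans ?_
    refine (Finset.sum_le_sum fun i _ => h (φ i)).trans ?_
    rw [Finset.sum_const, nsmul_eq_mul, mul_comm]
  · refine (norm_sum_le _ _).trans (Finset.sum_le_sum fun j _ => ?_)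
    rw [norm_mul]

theorem F_sum (hT : TPrime) {l : ℕ} {F : ℤ → ℝ}
    (hF : ∀ ε : ℝ, 0 < ε → ∃ (J : ℕ) (a : Fin J → ℂ) (G : Fin J → ℤ → ℂ),
        (∀ j, IsTerm l (G j)) ∧ ∀ n : ℤ, ‖(F n : ℂ) - ∑ j, a j * G j n‖ ≤ ε)
    {c : ℝ} (hc : 0 < c) (hpos : ∀ W : ℕ, 0 < W → ∃ N1 : ℕ, ∀ N : ℕ, N1 ≤ N →
        c * N ≤ ∑ t ∈ Finset.Icc 1 N, F ((W : ℤ) * t)) {L : ℝ} (hL : 1 < L) :
    ∃ W : ℕ, 0 < W ∧ ∃ N0 : ℕ, ∀ N : ℕ, N0 ≤ N → ∀ x : ℤ, (W : ℤ) ∣ 1 + x →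
      ∃ p ∈ wprimes N L W 1, 0 < F ((p : ℤ) + x) := by
  obtain ⟨ε, hε⟩ : ∃ ε : ℝ, ε = min (c / 6) (c * (L - 1) / 16) := ⟨_, rfl⟩
  have hcL : 0 < c * (L - 1) := mul_pos hc (by linarith)
  have hε0 : 0 < ε := by
    rw [hε]
    exact lt_min (by positivity) (by positivity)
  have hε1 : ε ≤ c / 6 := by rw [hε]; exact min_le_left _ _
  have hε2 : ε ≤ c * (L - 1) / 16 := by rw [hε]; exact min_le_right _ _
  obtain ⟨J, a, G, hG, hFG⟩ := hF ε hε0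
  obtain ⟨A, hA⟩ : ∃ A : ℝ, A = ∑ j, ‖a j‖ := ⟨_, rfl⟩
  have hA0 : 0 ≤ A := by
    rw [hA]
    exact Finset.sum_nonneg fun j _ => norm_nonneg _
  have hδ : 0 < ε / (A + 1) := by positivity
  have hAδ : ∀ y : ℝ, 0 ≤ y → ∑ j, ‖a j‖ * (ε / (A + 1) * y) ≤ ε * y := by
    intro y hy
    rw [← Finset.sum_mul, ← hA]
    have h1 : A * (ε / (A + 1) * y) = (A / (A + 1)) * (ε * y) := by ring
    rw [h1]
    have h2 : A / (A + 1) ≤ 1 := by
      rw [div_le_one (by linarith)]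
      linarith
    have h3 : 0 ≤ ε * y := by positivity
    nlinarith
  have hTj : ∀ j, ∃ (cj : ℂ) (W0 : ℕ), 0 < W0 ∧ ∀ W : ℕ, 0 < W → W0 ∣ W → ∃ N0 : ℕ,
      (∀ N : ℕ, N0 ≤ N → ∀ b : ℕ, b.Coprime W → ∀ x : ℤ, (W : ℤ) ∣ (b : ℤ) + x →
        ‖∑ p ∈ wprimes N L W b, (G j ((p : ℤ) + x) - cj)‖ ≤
          ε / (A + 1) * N / (W.totient * Real.log N)) ∧
      (∀ (t0 : ℤ) (M : ℕ), N0 ≤ M →
        ‖∑ t ∈ Finset.Ico t0 (t0 + M), (G j (W * t) - cj)‖ ≤ ε / (A + 1) * M) :=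
    fun j => hT l (G j) (hG j) (ε / (A + 1)) L hδ hL
  choose cj W0 hW0 hTj using hTj
  obtain ⟨W, hW⟩ : ∃ W : ℕ, W = ∏ j, W0 j := ⟨_, rfl⟩
  have hWpos : 0 < W := by
    rw [hW]
    exact Finset.prod_pos fun j _ => hW0 j
  have hTW := fun j => hTj j W hWpos (by rw [hW]; exact Finset.dvd_prod_of_mem _ (Finset.mem_univ j))
  choose N0 hN1 hN2 using hTW
  obtain ⟨Nm, hNm⟩ : ∃ Nm : ℕ, Nm = ∑ j, N0 j := ⟨_, rfl⟩
  have hNj : ∀ j, N0 j ≤ Nm := by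
    intro j
    rw [hNm]
    exact Finset.single_le_sum (fun i _ => Nat.zero_le _) (Finset.mem_univ j)
  obtain ⟨N1, hN1'⟩ := hpos W hWpos
  obtain ⟨N2, hN2'⟩ := wprimes_card L hL W 1 hWpos (Nat.coprime_one_left W)
  obtain ⟨C, hC⟩ : ∃ C : ℂ, C = ∑ j, a j * cj j := ⟨_, rfl⟩
  -- the constant is large
  have hCre : c - 2 * ε ≤ C.re := by
    obtain ⟨M, hM⟩ : ∃ M : ℕ, M = Nm + N1 + 1 := ⟨_, rfl⟩
    have h1 := approx_sum (Finset.Icc 1 M) (fun t : ℕ => (W : ℤ) * t) hFG cj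
    rw [← hC] at h1
    have h2 : ∑ j, ‖a j‖ * ‖∑ t ∈ Finset.Icc 1 M, (G j ((W : ℤ) * (t : ℤ)) - cj j)‖ ≤ ε * M := by
      refine le_trans (Finset.sum_le_sum fun j _ => ?_) (hAδ M (Nat.cast_nonneg M))
      refine mul_le_mul_of_nonneg_left ?_ (norm_nonneg _)
      have h3 := hN2 j 1 M ((hNj j).trans (by omega))
      have h4 : ∑ t ∈ Finset.Ico (1 : ℤ) (1 + M), (G j ((W : ℤ) * t) - cj j) =
          ∑ t ∈ Finset.Icc 1 M, (G j ((W : ℤ) * (t : ℤ)) - cj j) := by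
        refine Finset.sum_bij' (i := fun t _ => t.toNat) (j := fun t _ => (t : ℤ)) ?_ ?_ ?_ ?_ ?_
        · intro t ht
          rw [Finset.mem_Ico] at ht
          rw [Finset.mem_Icc]
          omega
        · intro t ht
          rw [Finset.mem_Icc] at ht
          rw [Finset.mem_Ico]
          omega
        · intro t ht
          rw [Finset.mem_Ico] at ht
          omega
        · intro t ht
          omega
        · intro t ht
          rw [Finset.mem_Ico] at ht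
          rw [Int.toNat_of_nonneg (by omega)]
      rw [← h4]
      exact h3
    have h5 : ‖∑ t ∈ Finset.Icc 1 M, ((F ((W : ℤ) * (t : ℤ)) : ℂ) - C)‖ ≤ 2 * ε * M := by
      refine h1.trans ?_
      rw [Nat.card_Icc, Nat.add_sub_cancel]
      linarith
    have h6 := (Complex.abs_re_le_norm _).trans h5
    rw [Complex.re_sum] at h6
    simp only [Complex.sub_re, Complex.ofReal_re] at h6
    rw [Finset.sum_sub_distrib, Finset.sum_const, Nat.card_Icc, Nat.add_sub_cancel,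
      nsmul_eq_mul] at h6
    have h7 := hN1' M (by omega)
    have h8 := (abs_le.1 h6).2
    have h9 : (0 : ℝ) < M := by
      rw [hM]
      positivity
    have h10 : (c - 2 * ε) * M ≤ C.re * M := by nlinarith
    exact le_of_mul_le_mul_right h10 h9
  refine ⟨W, hWpos, Nm + N2 + 3, fun N hN x hx => ?_⟩
  by_contra hcon
  push Not at hcon
  have h1 := approx_sum (wprimes N L W 1) (fun p : ℕ => (p : ℤ) + x) hFG cj
  rw [← hC] at h1
  obtain ⟨Q, hQ⟩ : ∃ Q : ℝ, Q = (N : ℝ) / (W.totient * Real.log N) := ⟨_, rfl⟩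
  have hN3 : (3 : ℝ) ≤ N := by exact_mod_cast (by omega : 3 ≤ N)
  have hlog : 0 < Real.log N := Real.log_pos (by linarith)
  have hW' : (0 : ℝ) < (W.totient : ℝ) := by exact_mod_cast Nat.totient_pos.2 hWpos
  have hQ0 : 0 < Q := by
    rw [hQ]
    positivity
  have h2 : ∑ j, ‖a j‖ * ‖∑ p ∈ wprimes N L W 1, (G j ((p : ℤ) + x) - cj j)‖ ≤ ε * Q := by
    refine le_trans (Finset.sum_le_sum fun j _ => ?_) (hAδ Q hQ0.le)
    refine mul_le_mul_of_nonneg_left ?_ (norm_nonneg _)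
    have h3 := hN1 j N ((hNj j).trans (by omega)) 1 (Nat.coprime_one_left W) x
      (by exact_mod_cast hx)
    rw [hQ, ← mul_div_assoc]
    exact h3
  have h4 := (Complex.abs_re_le_norm _).trans (h1.trans (add_le_add le_rfl h2))
  rw [Complex.re_sum] at h4
  simp only [Complex.sub_re, Complex.ofReal_re] at h4
  rw [Finset.sum_sub_distrib, Finset.sum_const, nsmul_eq_mul] at h4
  have h5 : ∑ p ∈ wprimes N L W 1, F ((p : ℤ) + x) ≤ 0 := Finset.sum_nonpos fun p hp => hcon p hp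
  have h6 := (abs_le.1 h4).1
  have h7 := hN2' N (by omega)
  rw [← hQ] at h7
  obtain ⟨K, hK⟩ : ∃ K : ℝ, K = ((wprimes N L W 1).card : ℝ) := ⟨_, rfl⟩
  rw [← hK] at h6 h7
  have hK0 : 0 ≤ K := by
    rw [hK]
    positivity
  -- `K C.re ≤ ε K + ε Q`
  have h8 : K * (c - 3 * ε) ≤ ε * Q := by nlinarith
  have h9 : K * (c / 2) ≤ ε * Q := by nlinarith
  have h10 : (L - 1) / 2 * Q * (c / 2) ≤ ε * Q := by nlinarith
  have h11 : c * (L - 1) / 4 ≤ ε := by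
    by_contra h12
    push Not at h12
    nlinarith
  linarith

end Pool.Agent.MRS
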