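import Pool.Agent.MRS.BaAct
import Pool.Agent.MRS.BaSum
import Pool.Agent.RHN.HSlow

/-!
# MRS / BaFin: the final assembly `UnifSz + TPrime + SysThm -> FinalStmt`
-/

set_option autoImplicit false

namespace Pool.Agent.MRS

open MeasureTheory Filter Topology Polynomial
open scoped BigOperators ComplexConjugate

/-- many return times (from the uniform Szemeredi theorem) -/
theorem many_returns (hZ : UnifSz) (k : ℕ) {X : Type} [MeasurableSpace X] (μ : Measure X)
    [IsProbabilityMeasure μ] (T : ℤ → X → X) (hT : ZAct μ T) (A : Set X) (hA : MeasurableSet A)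
    (hpos : 0 < μ.real A) (R : ℕ) :
    ∃ t : ℕ, R < t ∧ 0 < μ.real (⋂ j ∈ Finset.range (k + 1), T ((j : ℤ) * (t : ℤ)) ⁻¹' A) := by
  obtain ⟨c, N1, hc, h⟩ := hZ k (μ.real A) hpos
  by_contra hcon
  push Not at hcon
  obtain ⟨M, hM⟩ := exists_nat_gt ((R : ℝ) / c)
  have h1 := h X μ T hT A hA le_rfl (N1 + M + R) (by omega)
  have h2 : ∑ t ∈ Finset.Icc 1 (N1 + M + R),
      μ.real (⋂ j ∈ Finset.range (k + 1), T ((j : ℤ) * (t : ℤ)) ⁻¹' A) ≤ R := by
    have h3 : ∀ t ∈ Finset.Icc 1 (N1 + M + R),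
        μ.real (⋂ j ∈ Finset.range (k + 1), T ((j : ℤ) * (t : ℤ)) ⁻¹' A) ≤
          if t ∈ Finset.Icc 1 R then 1 else 0 := by
      intro t ht
      rw [Finset.mem_Icc] at ht
      split_ifs with h4
      · exact measureReal_le_one
      · rw [Finset.mem_Icc] at h4
        exact hcon t (by omega)
    refine (Finset.sum_le_sum h3).trans ?_
    rw [Finset.sum_ite_mem, Finset.sum_const, nsmul_eq_mul, mul_one]
    have h5 : (Finset.Icc 1 (N1 + M + R) ∩ Finset.Icc 1 R).card ≤ R := by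
      refine (Finset.card_le_card Finset.inter_subset_right).trans ?_
      rw [Nat.card_Icc]
      omega
    exact_mod_cast h5
  have h6 : (R : ℝ) < c * (N1 + M + R : ℕ) := by
    rw [div_lt_iff₀ hc] at hM
    push_cast
    have h7 : (0 : ℝ) ≤ N1 := Nat.cast_nonneg _
    have h8 : (0 : ℝ) ≤ R := Nat.cast_nonneg _
    nlinarith
  linarith

/-- a good shift -/
theorem good_shift (β : ℝ) (hβ : β ≠ 0) (W : ℕ) (hW : 0 < W) (R : ℝ) :
    ∃ x : ℤ, (W : ℤ) ∣ 1 + x ∧ R ≤ β * x := by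
  have hW' : (0 : ℝ) < W := by exact_mod_cast hW
  obtain ⟨m, hm⟩ := exists_nat_gt ((|R| + |β|) / (|β| * W))
  have hb : 0 < |β| := abs_pos.2 hβ
  rw [div_lt_iff₀ (by positivity)] at hm
  rcases lt_or_gt_of_ne hβ with h | h
  · refine ⟨-(W * m) - 1, ⟨-m, by ring⟩, ?_⟩
    push_cast
    rw [abs_of_neg h] at hm
    have := le_abs_self R
    nlinarith
  · refine ⟨W * m - 1, ⟨m, by ring⟩, ?_⟩
    push_cast
    rw [abs_of_pos h] at hm
    have := le_abs_self R
    nlinarith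

theorem final (hZ : UnifSz) (hT : TPrime) (hS : SysThm) : FinalStmt := by
  intro a ha hinf hslow k X _ μ _ T hTmp A hA hApos N
  obtain ⟨S, haS, hinv, hder⟩ := ha
  obtain ⟨α, hα⟩ := hslow
  have hHf : Pool.Agent.RHN.Hf S := ⟨hinv, hder⟩
  have hslow' : ¬ Tendsto (fun t : ℝ => |(a t - α * aeval t (Polynomial.X : ℤ[X])) / Real.log t|)
      atTop atTop := by
    simpa using hα
  have h1 : Pool.Agent.RHN.Slow (fun t : ℝ => a t - α * aeval t (Polynomial.X : ℤ[X])) :=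
    Pool.Agent.RHN.slow_of (Pool.Agent.RHN.e_sg hHf haS α Polynomial.X 0).2
      (Pool.Agent.RHN.te_lim hHf haS α Polynomial.X hslow') (hinf α Polynomial.X)
  simp only [aeval_X] at h1
  have hZA := zact_ZAct T hTmp
  have hreal : 0 < μ.real A := by
    rw [measureReal_def]
    exact ENNReal.toReal_pos hApos.ne' (measure_ne_top μ A)
  have hfin : ∀ r : ℤ, 0 < μ.real (⋂ j ∈ Finset.range (k + 1), zact T ((j : ℤ) * r) ⁻¹' A) →
      0 < μ (⋂ i ∈ Finset.range (k + 1), (⇑T)^[i * r.natAbs] ⁻¹' A) := by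
    intro r hr
    rw [meas_natAbs T hTmp A hA k r]
    rw [measureReal_def] at hr
    exact (ENNReal.toReal_pos_iff.1 hr).1
  obtain ⟨sg, hsg, h2⟩ := h1
  have hss : sg * sg = 1 := by rcases hsg with rfl | rfl <;> norm_num
  have hs1 : |sg| = 1 := by rcases hsg with rfl | rfl <;> norm_num
  have hsle : sg ≤ 1 ∧ -1 ≤ sg := by rcases hsg with rfl | rfl <;> norm_num
  by_cases hα0 : α = 0
  · obtain ⟨Λ, hΛ, h3⟩ := h2 (1 / 4) (by norm_num)
    obtain ⟨L, hL⟩ : ∃ L : ℝ, L = (1 + Λ) / 2 := ⟨_, rfl⟩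
    have hL1 : 1 < L := by rw [hL]; linarith
    have hL2 : L < Λ := by rw [hL]; linarith
    obtain ⟨N0, hN0⟩ := wprimes_card L hL1 1 1 one_pos (Nat.coprime_one_left 1)
    obtain ⟨R₀, h4⟩ := h3 (max (N0 + N + 3) (L / (Λ - L)))
    obtain ⟨t, ht, htp⟩ := many_returns hZ k μ (zact T) hZA A hA hreal ⌈|R₀| + 1⌉₊
    have ht' : |R₀| + 1 < t := Nat.lt_of_ceil_lt ht
    obtain ⟨s, hs, h5⟩ := h4 (t + sg / 2) (by
      have := le_abs_self R₀
      linarith [hsle.2])
    have hs1' : (N0 : ℝ) + N + 3 ≤ s := (le_max_left _ _).trans hs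
    have hs2' : L / (Λ - L) ≤ s := (le_max_right _ _).trans hs
    have hcard := hN0 ⌈s⌉₊ (by
      have : (N0 : ℝ) ≤ (⌈s⌉₊ : ℝ) := by
        refine le_trans ?_ (Nat.le_ceil s)
        have : (0 : ℝ) ≤ N := Nat.cast_nonneg _
        linarith
      exact_mod_cast this)
    have hne : (wprimes ⌈s⌉₊ L 1 1).Nonempty := by
      rw [← Finset.card_pos]
      have h6 : (0 : ℝ) < ((wprimes ⌈s⌉₊ L 1 1).card : ℝ) := by
        refine lt_of_lt_of_le ?_ hcard
        have h7 : (1 : ℝ) < (⌈s⌉₊ : ℝ) := by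
          refine lt_of_lt_of_le ?_ (Nat.le_ceil s)
          have : (0 : ℝ) ≤ N := Nat.cast_nonneg _
          have : (0 : ℝ) ≤ N0 := Nat.cast_nonneg _
          linarith
        have h8 := Real.log_pos h7
        have h9 : (0 : ℝ) < L - 1 := by linarith
        rw [Nat.totient_one]
        positivity
      exact_mod_cast h6
    obtain ⟨p, hp⟩ := hne
    rw [wprimes, Finset.mem_filter, Finset.mem_Ioc] at hp
    obtain ⟨⟨hp1, hp2⟩, hp3, -⟩ := hp
    have hsp : s ≤ p := (Nat.le_ceil s).trans (by exact_mod_cast hp1.le)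
    have hs0 : 0 ≤ s := by
      have : (0 : ℝ) ≤ N := Nat.cast_nonneg _
      have : (0 : ℝ) ≤ N0 := Nat.cast_nonneg _
      linarith
    have hpΛ : (p : ℝ) ≤ Λ * s := by
      have h6 : (p : ℝ) ≤ L * (⌈s⌉₊ : ℝ) := (Nat.le_floor_iff (by positivity)).1 hp2
      have h7 : (⌈s⌉₊ : ℝ) < s + 1 := Nat.ceil_lt_add_one hs0
      rw [div_le_iff₀ (by linarith)] at hs2'
      nlinarith
    have h6 : |a (p : ℝ) - α * (p : ℝ) - sg * (t + sg / 2)| ≤ 1 / 4 := h5 p hsp hpΛ
    rw [hα0, zero_mul, sub_zero] at h6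
    have h7 : sg * (t + sg / 2) = sg * t + 1 / 2 := by
      rw [mul_add, ← mul_div_assoc, hss]
    rw [h7, abs_le] at h6
    refine ⟨p, hp3, ?_, ?_⟩
    · have : (N : ℝ) ≤ p := by
        refine le_trans ?_ hsp
        have : (0 : ℝ) ≤ N0 := Nat.cast_nonneg _
        linarith
      exact_mod_cast this
    · have h8 : (⌊a (p : ℝ)⌋).natAbs = t := by
        rcases hsg with h9 | h9
        · rw [h9] at h6
          have h10 : ⌊a (p : ℝ)⌋ = (t : ℤ) := by
            rw [Int.floor_eq_iff]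
            push_cast
            constructor <;> linarith
          rw [h10]
          exact Int.natAbs_natCast t
        · rw [h9] at h6
          have h10 : ⌊a (p : ℝ)⌋ = -(t : ℤ) := by
            rw [Int.floor_eq_iff]
            push_cast
            constructor <;> linarith
          rw [h10, Int.natAbs_neg]
          exact Int.natAbs_natCast t
      rw [h8]
      have h11 := hfin (t : ℤ) htp
      rwa [Int.natAbs_natCast] at h11
  · obtain ⟨F, hF1, hF2, c, hc, hF3⟩ := hS hZ k X μ (zact T) hZA A hA hreal α (1 / 8) hα0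
      (by norm_num)
    obtain ⟨Λ, hΛ, h3⟩ := h2 (1 / 8) (by norm_num)
    obtain ⟨L, hL⟩ : ∃ L : ℝ, L = (1 + Λ) / 2 := ⟨_, rfl⟩
    have hL1 : 1 < L := by rw [hL]; linarith
    have hL2 : L < Λ := by rw [hL]; linarith
    obtain ⟨W, hW, N0, hN0⟩ := F_sum hT hF2 hc hF3 hL1
    obtain ⟨R₀, h4⟩ := h3 (max (N0 + N + 3) (L / (Λ - L)))
    have hβ : sg * α ≠ 0 := by
      intro h
      rcases mul_eq_zero.1 h with h | h
      · rw [h] at hss
        norm_num at hss
      · exact hα0 h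
    obtain ⟨x, hx1, hx2⟩ := good_shift (sg * α) hβ W hW (R₀ + 1)
    obtain ⟨s, hs, h5⟩ := h4 (sg * (α * x + 1 / 2)) (by
      have : sg * (α * x + 1 / 2) = sg * α * x + sg / 2 := by ring
      rw [this]
      linarith [hsle.2])
    have hs1' : (N0 : ℝ) + N + 3 ≤ s := (le_max_left _ _).trans hs
    have hs2' : L / (Λ - L) ≤ s := (le_max_right _ _).trans hs
    have hs0 : 0 ≤ s := by
      have : (0 : ℝ) ≤ N := Nat.cast_nonneg _
      have : (0 : ℝ) ≤ N0 := Nat.cast_nonneg _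
      linarith
    obtain ⟨p, hp, hpF⟩ := hN0 ⌈s⌉₊ (by
      have : (N0 : ℝ) ≤ (⌈s⌉₊ : ℝ) := by
        refine le_trans ?_ (Nat.le_ceil s)
        have : (0 : ℝ) ≤ N := Nat.cast_nonneg _
        linarith
      exact_mod_cast this) x hx1
    rw [wprimes, Finset.mem_filter, Finset.mem_Ioc] at hp
    obtain ⟨⟨hp1, hp2⟩, hp3, -⟩ := hp
    have hsp : s ≤ p := (Nat.le_ceil s).trans (by exact_mod_cast hp1.le)
    have hpΛ : (p : ℝ) ≤ Λ * s := by
      have h6 : (p : ℝ) ≤ L * (⌈s⌉₊ : ℝ) := (Nat.le_floor_iff (by positivity)).1 hp2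
      have h7 : (⌈s⌉₊ : ℝ) < s + 1 := Nat.ceil_lt_add_one hs0
      rw [div_le_iff₀ (by linarith)] at hs2'
      nlinarith
    have h6 : |a (p : ℝ) - α * (p : ℝ) - sg * (sg * (α * x + 1 / 2))| ≤ 1 / 8 := h5 p hsp hpΛ
    have h7 : sg * (sg * (α * x + 1 / 2)) = α * x + 1 / 2 := by
      rw [← mul_assoc, hss, one_mul]
    rw [h7, abs_le] at h6
    obtain ⟨r, hr1, hr2⟩ := hF1 _ hpF
    push_cast at hr1
    rw [abs_lt] at hr1
    have h8 : ⌊a (p : ℝ)⌋ = r := by
      rw [Int.floor_eq_iff]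
      constructor <;> nlinarith [h6.1, h6.2, hr1.1, hr1.2]
    refine ⟨p, hp3, ?_, ?_⟩
    · have : (N : ℝ) ≤ p := by
        refine le_trans ?_ hsp
        have : (0 : ℝ) ≤ N0 := Nat.cast_nonneg _
        linarith
      exact_mod_cast this
    · rw [h8]
      exact hfin r hr2

end Pool.Agent.MRS
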