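import Pool.Agent.MRS.BDefs

/-!
# MRS / BsSys: the bracket system

`rp u` is the representative of `u` in `[0, 1)`; `ST T α n (u, x) = (u + α n, T ⌊rp u + α n⌋ x)` is an
action of the integers on `UnitAddCircle × X` which preserves the product measure.
-/

set_option autoImplicit false

namespace Pool.Agent.MRS.Bs

open MeasureTheory Filter Topology
open scoped BigOperators ComplexConjugate

/-- the representative in `[0, 1)` -/
noncomputable def rp (u : UnitAddCircle) : ℝ := (AddCircle.equivIco (1 : ℝ) 0 u : ℝ)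

theorem rp_coe (u : UnitAddCircle) : ((rp u : ℝ) : UnitAddCircle) = u :=
  AddCircle.coe_equivIco (p := (1 : ℝ)) (a := 0)

theorem rp_nn (u : UnitAddCircle) : 0 ≤ rp u := (AddCircle.equivIco (1 : ℝ) 0 u).2.1

theorem rp_lt (u : UnitAddCircle) : rp u < 1 := by
  have := (AddCircle.equivIco (1 : ℝ) 0 u).2.2
  simpa [rp] using this

theorem rp_meas : Measurable rp :=
  measurable_subtype_coe.comp (AddCircle.measurableEquivIco (1 : ℝ) 0).measurable

theorem rp_mk (x : ℝ) : rp (x : UnitAddCircle) = Int.fract x := by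
  have := AddCircle.coe_equivIco_mk_apply (p := (1 : ℝ)) x
  simpa [rp] using this

theorem rp_add (u : UnitAddCircle) (x : ℝ) : rp (u + (x : UnitAddCircle)) = Int.fract (rp u + x) := by
  rw [← rp_mk]
  congr 1
  rw [AddCircle.coe_add, rp_coe]

/-- the bracket system -/
noncomputable def ST {X : Type} (T : ℤ → X → X) (α : ℝ) (n : ℤ) (y : UnitAddCircle × X) :
    UnitAddCircle × X :=
  (y.1 + ((α * n : ℝ) : UnitAddCircle), T ⌊rp y.1 + α * n⌋ y.2)

theorem ST_meas_aux {X : Type} [MeasurableSpace X] {T : ℤ → X → X} (hT : ∀ n, Measurable (T n))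
    {φ : UnitAddCircle → ℤ} (hφ : Measurable φ) :
    Measurable (fun y : UnitAddCircle × X => T (φ y.1) y.2) := by
  have h1 : Measurable (fun z : ℤ × X => T z.1 z.2) := by
    apply measurable_from_prod_countable_right
    intro n
    exact hT n
  exact h1.comp ((hφ.comp measurable_fst).prodMk measurable_snd)

theorem ST_act {X : Type} [MeasurableSpace X] {mu : Measure X} [IsProbabilityMeasure mu]
    {T : ℤ → X → X} (hT : ZAct mu T) (α : ℝ) :
    ZAct ((volume : Measure UnitAddCircle).prod mu) (ST T α) := by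
  refine ⟨?_, ?_, ?_⟩
  · rintro ⟨u, x⟩
    have h0 : ⌊rp u + α * ((0 : ℤ) : ℝ)⌋ = 0 := by
      rw [Int.cast_zero, mul_zero, add_zero, Int.floor_eq_zero_iff]
      exact ⟨rp_nn u, rp_lt u⟩
    simp only [ST, h0, hT.zero]
    simp
  · rintro a b ⟨u, x⟩
    have h1 : ⌊rp (u + ((α * b : ℝ) : UnitAddCircle)) + α * a⌋ + ⌊rp u + α * b⌋ =
        ⌊rp u + α * ((a + b : ℤ) : ℝ)⌋ := by
      rw [rp_add, ← Int.floor_add_intCast]
      congr 1
      have := Int.fract_add_floor (rp u + α * b)
      push_cast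
      linarith
    simp only [ST]
    refine Prod.ext ?_ ?_
    · simp only
      rw [add_assoc, ← AddCircle.coe_add]
      congr 2
      push_cast
      ring
    · simp only
      rw [← h1, hT.add]
  · intro n
    have hφ : Measurable (fun u : UnitAddCircle => ⌊rp u + α * n⌋) :=
      Int.measurable_floor.comp (rp_meas.add_const _)
    have h1 : MeasurePreserving (fun u : UnitAddCircle => u + ((α * n : ℝ) : UnitAddCircle))
        volume volume := measurePreserving_add_right volume _
    exact h1.skew_product (g := fun u x => T ⌊rp u + α * n⌋ x)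
      (ST_meas_aux (fun n => (hT.mp n).measurable) hφ)
      (Filter.Eventually.of_forall fun u => (hT.mp _).map_eq)

/-- the floors: `rp u` in the middle and `x` close to the integer `r` -/
theorem floor_mid {u : UnitAddCircle} {ρ : ℝ} (hρ : ρ ≤ 1 / 4)
    (hu : u ∈ Metric.closedBall (((1 / 2 : ℝ) : UnitAddCircle)) ρ) {x : ℝ} {r : ℤ} (j : ℕ)
    (hx : (j : ℝ) * |x - r| < 1 / 4) : ⌊rp u + x * j⌋ = j * r := by
  rw [Metric.mem_closedBall, dist_eq_norm] at hu
  have h1 : ‖((rp u - 1 / 2 : ℝ) : UnitAddCircle)‖ = |rp u - 1 / 2| := by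
    rw [AddCircle.norm_coe_eq_abs_iff 1 one_ne_zero]
    have h2 := rp_nn u
    have h3 := rp_lt u
    rw [abs_one, abs_le]
    constructor <;> linarith
  rw [AddCircle.coe_sub, rp_coe] at h1
  rw [h1] at hu
  have h4 := abs_le.1 (hu.trans hρ)
  have h5 : |(j : ℝ) * (x - r)| < 1 / 4 := by
    rw [abs_mul, Nat.abs_cast]
    exact hx
  have h6 := abs_lt.1 h5
  rw [Int.floor_eq_iff]
  push_cast
  constructor <;> nlinarith [h4.1, h4.2, h6.1, h6.2]

end Pool.Agent.MRS.Bs
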