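import Pool.Agent.MRS.BsSys

/-!
# MRS / BsThm: the bracket system and positivity

See the header of `BDefs`.
-/

set_option autoImplicit false

namespace Pool.Agent.MRS.Bs

open MeasureTheory Filter Topology
open scoped BigOperators ComplexConjugate

/-- the tent function on the circle -/
noncomputable def tent (e : ℝ) (u : UnitAddCircle) : ℝ := max 0 (1 - ‖u‖ / e)

theorem tent_nn (e : ℝ) (u : UnitAddCircle) : 0 ≤ tent e u := le_max_left _ _

theorem tent_cont (e : ℝ) : Continuous (tent e) :=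
  continuous_const.max (continuous_const.sub (continuous_norm.div_const e))

theorem tent_pos {e : ℝ} (he : 0 < e) {x : ℝ} (h : tent e (x : UnitAddCircle) ≠ 0) :
    |x - round x| < e := by
  by_contra hcon
  apply h
  unfold tent
  rw [UnitAddCircle.norm_eq, max_eq_left]
  rw [not_lt] at hcon
  rw [sub_nonpos, le_div_iff₀ he]
  linarith

/-- the middle of the circle -/
def Bm (ρ : ℝ) : Set UnitAddCircle := Metric.closedBall (((1 / 2 : ℝ) : UnitAddCircle)) ρ

theorem Bm_meas (ρ : ℝ) : MeasurableSet (Bm ρ) := measurableSet_closedBall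

theorem Bm_vol {ρ : ℝ} (h0 : 0 ≤ ρ) (h1 : ρ ≤ 1 / 4) :
    (volume : Measure UnitAddCircle).real (Bm ρ) = 2 * ρ := by
  have h2 : (volume : Measure UnitAddCircle) (Bm ρ) = ENNReal.ofReal (min 1 (2 * ρ)) :=
    AddCircle.volume_closedBall 1 ρ
  rw [Measure.real, h2, ENNReal.toReal_ofReal, min_eq_right (by linarith)]
  exact le_min zero_le_one (by linarith)

section

variable {X : Type} [MeasurableSpace X]

/-- the event -/
def EE (T : ℤ → X → X) (A : Set X) (α : ℝ) (k : ℕ) (n : ℤ) : Set (UnitAddCircle × X) :=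
  {y | y.1 ∈ Bm (1 / 4) ∧ ∀ j ∈ Finset.range (k + 1),
    T ⌊rp y.1 + α * (((j : ℤ) * n : ℤ) : ℝ)⌋ y.2 ∈ A}

/-- the recurrence set -/
def RR (T : ℤ → X → X) (A : Set X) (k : ℕ) (r : ℤ) : Set X :=
  ⋂ j ∈ Finset.range (k + 1), T ((j : ℤ) * r) ⁻¹' A

theorem EE_meas {mu : Measure X} {T : ℤ → X → X} (hT : ZAct mu T) {A : Set X}
    (hA : MeasurableSet A) (α : ℝ) (k : ℕ) (n : ℤ) : MeasurableSet (EE T A α k n) := by
  have h1 : MeasurableSet {y : UnitAddCircle × X | y.1 ∈ Bm (1 / 4)} :=
    measurable_fst (Bm_meas _)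
  have h2 : MeasurableSet {y : UnitAddCircle × X | ∀ j ∈ Finset.range (k + 1),
      T ⌊rp y.1 + α * (((j : ℤ) * n : ℤ) : ℝ)⌋ y.2 ∈ A} := by
    have h3 : {y : UnitAddCircle × X | ∀ j ∈ Finset.range (k + 1),
        T ⌊rp y.1 + α * (((j : ℤ) * n : ℤ) : ℝ)⌋ y.2 ∈ A} =
        ⋂ j ∈ Finset.range (k + 1), {y : UnitAddCircle × X |
          T ⌊rp y.1 + α * (((j : ℤ) * n : ℤ) : ℝ)⌋ y.2 ∈ A} := by
      ext y
      simp
    rw [h3]
    refine Finset.measurableSet_biInter _ fun j _ => ?_
    exact ST_meas_aux (fun n => (hT.mp n).measurable)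
      (φ := fun u => ⌊rp u + α * (((j : ℤ) * n : ℤ) : ℝ)⌋)
      (Int.measurable_floor.comp (rp_meas.add_const _)) hA
  exact h1.inter h2

/-- the functions of the term sequence -/
noncomputable def gg (A : Set X) (k : ℕ) (m : ℤ) (j : ℕ) (y : UnitAddCircle × X) : ℂ :=
  (if j ≤ k then A.indicator (fun _ => (1 : ℂ)) y.2 else 1) *
    (if j = 0 then (Bm (1 / 4)).indicator (fun _ => (1 : ℂ)) y.1 * conj (fourier m y.1)
      else if j = 1 then fourier m y.1 else 1)

theorem four_norm (m : ℤ) (u : UnitAddCircle) : ‖(fourier m u : ℂ)‖ = 1 := by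
  rw [fourier_apply]
  exact Circle.norm_coe _

theorem ind_norm {Z : Type} (A : Set Z) (x : Z) :
    ‖A.indicator (fun _ => (1 : ℂ)) x‖ ≤ 1 := by
  by_cases h : x ∈ A
  · simp [h]
  · simp [h]

theorem gg_b1 {A : Set X} (hA : MeasurableSet A) (k : ℕ) (m : ℤ) (j : ℕ) : B1 (gg A k m j) := by
  have hf : Measurable (fun u : UnitAddCircle => (fourier m u : ℂ)) :=
    (fourier m).continuous.measurable
  have hc : Measurable (fun u : UnitAddCircle => (conj (fourier m u : ℂ) : ℂ)) :=
    (Complex.continuous_conj.comp (fourier m).continuous).measurable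
  constructor
  · unfold gg
    refine Measurable.mul ?_ ?_
    · split_ifs
      · exact (measurable_const.indicator hA).comp measurable_snd
      · exact measurable_const
    · split_ifs
      · exact ((measurable_const.indicator (Bm_meas _)).comp measurable_fst).mul
          (hc.comp measurable_fst)
      · exact hf.comp measurable_fst
      · exact measurable_const
  · intro y
    unfold gg
    rw [norm_mul]
    refine mul_le_one₀ ?_ (norm_nonneg _) ?_
    · split_ifs
      · exact ind_norm _ _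
      · simp
    · split_ifs
      · rw [norm_mul, RCLike.norm_conj, four_norm, mul_one]
        exact ind_norm _ _
      · rw [four_norm]
      · simp

theorem gg_prod (T : ℤ → X → X) (A : Set X) (α : ℝ) (k : ℕ) (m n : ℤ) (y : UnitAddCircle × X) :
    ∏ j ∈ Finset.range (k + 1 + 1), gg A k m j (ST T α ((j : ℤ) * n) y) =
      (EE T A α k n).indicator (fun _ => (fourier m (((α * n : ℝ) : UnitAddCircle)) : ℂ)) y := by
  classical
  obtain ⟨u, x⟩ := y
  unfold gg
  rw [Finset.prod_mul_distrib]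
  have h1 : ∏ j ∈ Finset.range (k + 1 + 1), (if j ≤ k then
      A.indicator (fun _ => (1 : ℂ)) (ST T α ((j : ℤ) * n) (u, x)).2 else 1) =
      if ∀ j ∈ Finset.range (k + 1), T ⌊rp u + α * (((j : ℤ) * n : ℤ) : ℝ)⌋ x ∈ A
        then 1 else 0 := by
    rw [Finset.prod_range_succ, if_neg (by omega), mul_one]
    have h2 : ∀ j ∈ Finset.range (k + 1), (if j ≤ k then
        A.indicator (fun _ => (1 : ℂ)) (ST T α ((j : ℤ) * n) (u, x)).2 else 1) =
        if T ⌊rp u + α * (((j : ℤ) * n : ℤ) : ℝ)⌋ x ∈ A then 1 else 0 := by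
      intro j hj
      rw [Finset.mem_range] at hj
      rw [if_pos (by omega), Set.indicator_apply]
      rfl
    rw [Finset.prod_congr rfl h2, Finset.prod_ite_zero, Finset.prod_const_one]
  have h3 : ∏ j ∈ Finset.range (k + 1 + 1), (if j = 0 then
      (Bm (1 / 4)).indicator (fun _ => (1 : ℂ)) (ST T α ((j : ℤ) * n) (u, x)).1 *
        conj (fourier m (ST T α ((j : ℤ) * n) (u, x)).1 : ℂ)
      else if j = 1 then (fourier m (ST T α ((j : ℤ) * n) (u, x)).1 : ℂ) else 1) =
      (if u ∈ Bm (1 / 4) then 1 else 0) * (fourier m (((α * n : ℝ) : UnitAddCircle)) : ℂ) := by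
    rw [Finset.prod_range_succ', Finset.prod_range_succ']
    have h4 : ∏ j ∈ Finset.range k, (if j + 1 + 1 = 0 then
        (Bm (1 / 4)).indicator (fun _ => (1 : ℂ)) (ST T α (((j + 1 + 1 : ℕ) : ℤ) * n) (u, x)).1 *
          conj (fourier m (ST T α (((j + 1 + 1 : ℕ) : ℤ) * n) (u, x)).1 : ℂ)
        else if j + 1 + 1 = 1 then (fourier m (ST T α (((j + 1 + 1 : ℕ) : ℤ) * n) (u, x)).1 : ℂ)
          else 1) = 1 := by
      refine Finset.prod_eq_one fun j _ => ?_
      rw [if_neg (by omega), if_neg (by omega)]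
    rw [h4]
    have h5 : (ST T α (((0 : ℕ) : ℤ) * n) (u, x)).1 = u := by
      simp [ST]
    have h6 : (ST T α (((0 + 1 : ℕ) : ℤ) * n) (u, x)).1 = u + ((α * n : ℝ) : UnitAddCircle) := by
      simp [ST]
    rw [if_neg (by omega : ¬ (0 + 1 = 0)), if_pos rfl, if_pos rfl, h5, h6, one_mul,
      Set.indicator_apply]
    have h7 : (fourier m (u + ((α * n : ℝ) : UnitAddCircle)) : ℂ) =
        (fourier m u : ℂ) * (fourier m (((α * n : ℝ) : UnitAddCircle)) : ℂ) := by
      rw [fourier_apply, fourier_apply, fourier_apply, smul_add, AddCircle.toCircle_add,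
        Circle.coe_mul]
    have h8 : (fourier m u : ℂ) * conj (fourier m u : ℂ) = 1 := by
      rw [Complex.mul_conj, Complex.normSq_eq_norm_sq, four_norm]
      simp
    rw [h7]
    split_ifs
    · linear_combination (fourier m (((α * n : ℝ) : UnitAddCircle)) : ℂ) * h8
    · ring
  rw [h1, h3, Set.indicator_apply]
  have h9 : ((u, x) ∈ EE T A α k n) ↔ (u ∈ Bm (1 / 4) ∧ ∀ j ∈ Finset.range (k + 1),
      T ⌊rp u + α * (((j : ℤ) * n : ℤ) : ℝ)⌋ x ∈ A) := Iff.rfl
  by_cases hu : u ∈ Bm (1 / 4)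
  · by_cases hx : ∀ j ∈ Finset.range (k + 1), T ⌊rp u + α * (((j : ℤ) * n : ℤ) : ℝ)⌋ x ∈ A
    · rw [if_pos hx, if_pos hu, if_pos (h9.2 ⟨hu, hx⟩)]
      ring
    · rw [if_neg hx, if_neg (fun h => hx (h9.1 h).2)]
      ring
  · rw [if_neg hu, if_neg (fun h => hu (h9.1 h).1)]
    ring

theorem term_gg {mu : Measure X} [IsProbabilityMeasure mu] {T : ℤ → X → X} (hT : ZAct mu T)
    {A : Set X} (hA : MeasurableSet A) (α : ℝ) (k : ℕ) (m : ℤ) :
    IsTerm (k + 1) (fun n => (((volume : Measure UnitAddCircle).prod mu).real (EE T A α k n) : ℂ) *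
      (fourier m (((α * n : ℝ) : UnitAddCircle)) : ℂ)) := by
  have hv : IsProbabilityMeasure (volume : Measure UnitAddCircle) := ⟨UnitAddCircle.measure_univ⟩
  refine ⟨UnitAddCircle × X, inferInstance, (volume : Measure UnitAddCircle).prod mu,
    inferInstance, ST T α, gg A k m, ST_act hT α, gg_b1 hA k m, ?_⟩
  intro n
  have h1 : (fun y : UnitAddCircle × X =>
      ∏ j ∈ Finset.range (k + 1 + 1), gg A k m j (ST T α ((j : ℤ) * n) y)) =
      (EE T A α k n).indicator (fun _ => (fourier m (((α * n : ℝ) : UnitAddCircle)) : ℂ)) :=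
    funext fun y => gg_prod T A α k m n y
  rw [h1, integral_indicator_const _ (EE_meas hT hA α k n)]
  rw [Complex.real_smul]

/-- the event is a product when `α n` is close to an integer -/
theorem EE_prod (T : ℤ → X → X) (A : Set X) (α : ℝ) (k : ℕ) (n : ℤ)
    (h : ((k : ℝ) + 1) * |α * n - round (α * n)| < 1 / 4) :
    EE T A α k n = Bm (1 / 4) ×ˢ RR T A k (round (α * n)) := by
  ext ⟨u, x⟩
  have key : u ∈ Bm (1 / 4) → ∀ j ∈ Finset.range (k + 1),
      ⌊rp u + α * (((j : ℤ) * n : ℤ) : ℝ)⌋ = j * round (α * n) := by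
    intro hu j hj
    rw [Finset.mem_range] at hj
    have h1 := floor_mid (le_refl _) hu (x := α * n) (r := round (α * n)) j (by
      refine lt_of_le_of_lt ?_ h
      refine mul_le_mul_of_nonneg_right ?_ (abs_nonneg _)
      have : ((j : ℕ) : ℝ) ≤ ((k : ℕ) : ℝ) + 1 := by
        exact_mod_cast hj.le
      exact this)
    rw [← h1]
    congr 1
    push_cast
    ring
  simp only [EE, RR, Set.mem_setOf_eq, Set.mem_prod, Set.mem_iInter, Set.mem_preimage]
  constructor
  · rintro ⟨hu, hx⟩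
    refine ⟨hu, fun j hj => ?_⟩
    rw [← key hu j hj]
    exact hx j hj
  · rintro ⟨hu, hx⟩
    refine ⟨hu, fun j hj => ?_⟩
    rw [key hu j hj]
    exact hx j hj

/-- the function of the theorem -/
noncomputable def FB (mu : Measure X) (T : ℤ → X → X) (A : Set X) (α e : ℝ) (k : ℕ) (n : ℤ) : ℝ :=
  tent e ((α * n : ℝ) : UnitAddCircle) * mu.real (RR T A k (round (α * n)))

theorem FB_eq {mu : Measure X} [IsProbabilityMeasure mu] (T : ℤ → X → X) (A : Set X) (α : ℝ)
    {e : ℝ} (he : 0 < e) (k : ℕ) (hk : ((k : ℝ) + 1) * e ≤ 1 / 4) (n : ℤ) :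
    FB mu T A α e k n = 2 * (((volume : Measure UnitAddCircle).prod mu).real (EE T A α k n)) *
      tent e ((α * n : ℝ) : UnitAddCircle) := by
  by_cases h0 : tent e ((α * n : ℝ) : UnitAddCircle) = 0
  · rw [FB, h0, zero_mul, mul_zero]
  · have h1 := tent_pos he h0
    have h2 : ((k : ℝ) + 1) * |α * n - round (α * n)| < 1 / 4 :=
      lt_of_lt_of_le (mul_lt_mul_of_pos_left h1 (by positivity)) hk
    rw [FB, EE_prod T A α k n h2, measureReal_prod_prod, Bm_vol (by norm_num) (le_refl _)]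
    ring

/-- uniform approximation by term sequences -/
theorem FB_approx {mu : Measure X} [IsProbabilityMeasure mu] {T : ℤ → X → X} (hT : ZAct mu T)
    {A : Set X} (hA : MeasurableSet A) (α : ℝ) {e : ℝ} (he : 0 < e) (k : ℕ)
    (hk : ((k : ℝ) + 1) * e ≤ 1 / 4) (ε : ℝ) (hε : 0 < ε) :
    ∃ (J : ℕ) (a : Fin J → ℂ) (G : Fin J → ℤ → ℂ),
      (∀ j, IsTerm (k + 1) (G j)) ∧
        ∀ n : ℤ, ‖((FB mu T A α e k n : ℝ) : ℂ) - ∑ j, a j * G j n‖ ≤ ε := by
  classical
  have hv : IsProbabilityMeasure (volume : Measure UnitAddCircle) := ⟨UnitAddCircle.measure_univ⟩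
  let ψ : C(UnitAddCircle, ℂ) := ⟨fun u => ((tent e u : ℝ) : ℂ),
    Complex.continuous_ofReal.comp (tent_cont e)⟩
  have h1 : ψ ∈ (Submodule.span ℂ (Set.range (fourier (T := (1 : ℝ))))).topologicalClosure := by
    rw [span_fourier_closure_eq_top]
    trivial
  have h2 : ψ ∈ closure ((Submodule.span ℂ (Set.range (fourier (T := (1 : ℝ)))) :
      Set C(UnitAddCircle, ℂ))) := h1
  obtain ⟨P, hP, hPd⟩ := Metric.mem_closure_iff.1 h2 (ε / 2) (half_pos hε)
  obtain ⟨c, hc⟩ := Finsupp.mem_span_range_iff_exists_finsupp.1 hP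
  have hPe : ∀ u : UnitAddCircle, P u = ∑ m ∈ c.support, c m * (fourier m u : ℂ) := by
    intro u
    rw [← hc, Finsupp.sum]
    simp [ContinuousMap.sum_apply]
  refine ⟨c.support.card, fun j => 2 * c (c.support.equivFin.symm j : ℤ), fun j n =>
    (((volume : Measure UnitAddCircle).prod mu).real (EE T A α k n) : ℂ) *
      (fourier (c.support.equivFin.symm j : ℤ) (((α * n : ℝ) : UnitAddCircle)) : ℂ),
    fun j => term_gg hT hA α k _, ?_⟩
  intro n
  have h3 : ∑ j, (2 * c (c.support.equivFin.symm j : ℤ)) *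
      ((((volume : Measure UnitAddCircle).prod mu).real (EE T A α k n) : ℂ) *
      (fourier (c.support.equivFin.symm j : ℤ) (((α * n : ℝ) : UnitAddCircle)) : ℂ)) =
      2 * (((volume : Measure UnitAddCircle).prod mu).real (EE T A α k n) : ℂ) *
        P (((α * n : ℝ) : UnitAddCircle)) := by
    rw [hPe, Finset.mul_sum, ← Finset.sum_coe_sort c.support]
    rw [← Equiv.sum_comp c.support.equivFin.symm]
    refine Finset.sum_congr rfl fun j _ => ?_
    ring
  rw [h3, FB_eq T A α he k hk n]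
  have h4 : dist (ψ (((α * n : ℝ) : UnitAddCircle))) (P (((α * n : ℝ) : UnitAddCircle))) ≤ ε / 2 :=
    (ContinuousMap.dist_apply_le_dist _).trans hPd.le
  rw [dist_eq_norm] at h4
  have h5 : ψ (((α * n : ℝ) : UnitAddCircle)) = ((tent e (((α * n : ℝ) : UnitAddCircle)) : ℝ) : ℂ) :=
    rfl
  rw [h5] at h4
  set r := ((volume : Measure UnitAddCircle).prod mu).real (EE T A α k n) with hr
  have hr0 : 0 ≤ r := measureReal_nonneg
  have hr1 : r ≤ 1 := by
    rw [hr]
    exact measureReal_le_one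
  have h6 : ((2 * r * tent e ((α * n : ℝ) : UnitAddCircle) : ℝ) : ℂ) -
      2 * (r : ℂ) * P (((α * n : ℝ) : UnitAddCircle)) = (2 * r : ℂ) *
      (((tent e (((α * n : ℝ) : UnitAddCircle)) : ℝ) : ℂ) - P (((α * n : ℝ) : UnitAddCircle))) := by
    push_cast
    ring
  rw [h6, norm_mul]
  have h7 : ‖(2 * r : ℂ)‖ = 2 * r := by
    rw [norm_mul, Complex.norm_real, Real.norm_of_nonneg hr0]
    simp
  rw [h7]
  nlinarith [norm_nonneg (((tent e (((α * n : ℝ) : UnitAddCircle)) : ℝ) : ℂ) -
    P (((α * n : ℝ) : UnitAddCircle)))]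

/-- positivity -/
theorem FB_pos (hZ : UnifSz) {mu : Measure X} [IsProbabilityMeasure mu] {T : ℤ → X → X}
    (hT : ZAct mu T) {A : Set X} (hA : MeasurableSet A) (hAp : 0 < mu.real A) (α : ℝ) {e : ℝ}
    (he : 0 < e) (k : ℕ) (hk : ((k : ℝ) + 1) * e ≤ 1 / 4) :
    ∃ c : ℝ, 0 < c ∧ ∀ W : ℕ, 0 < W → ∃ N1 : ℕ, ∀ N : ℕ, N1 ≤ N →
        c * N ≤ ∑ t ∈ Finset.Icc 1 N, FB mu T A α e k ((W : ℤ) * t) := by
  classical
  have hv : IsProbabilityMeasure (volume : Measure UnitAddCircle) := ⟨UnitAddCircle.measure_univ⟩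
  have he4 : e ≤ 1 / 4 := by
    have : (0 : ℝ) ≤ k := Nat.cast_nonneg k
    nlinarith
  have hvol : (volume : Measure UnitAddCircle).real (Bm (e / 4)) = 2 * (e / 4) :=
    Bm_vol (by linarith) (by linarith)
  obtain ⟨c, N1, hc, hcN⟩ := hZ (k + 1) (2 * (e / 4) * mu.real A)
    (mul_pos (by linarith) hAp)
  refine ⟨c / 2, half_pos hc, fun W hW => ⟨N1, fun N hN => ?_⟩⟩
  have hS := ST_act hT α
  have hact : ZAct ((volume : Measure UnitAddCircle).prod mu) (fun n => ST T α ((W : ℤ) * n)) := by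
    refine ⟨fun y => ?_, fun a b y => ?_, fun a => hS.mp _⟩
    · change ST T α ((W : ℤ) * 0) y = y
      rw [mul_zero]
      exact hS.zero y
    · change ST T α ((W : ℤ) * (a + b)) y = ST T α ((W : ℤ) * a) (ST T α ((W : ℤ) * b) y)
      rw [mul_add]
      exact hS.add _ _ y
  have hM : MeasurableSet (Bm (e / 4) ×ˢ A) := (Bm_meas _).prod hA
  have h1 := hcN (UnitAddCircle × X) ((volume : Measure UnitAddCircle).prod mu) _ hact
    (Bm (e / 4) ×ˢ A) hM (by rw [measureReal_prod_prod, hvol]) N hN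
  have h2 : ∀ t ∈ Finset.Icc 1 N, ((volume : Measure UnitAddCircle).prod mu).real
      (⋂ j ∈ Finset.range (k + 1 + 1), ST T α ((W : ℤ) * ((j : ℤ) * (t : ℤ))) ⁻¹'
        (Bm (e / 4) ×ˢ A)) ≤ 2 * FB mu T A α e k ((W : ℤ) * t) := by
    intro t _
    set x : ℝ := α * (((W : ℤ) * t : ℤ) : ℝ) with hx
    have hRR0 : 0 ≤ mu.real (RR T A k (round x)) := measureReal_nonneg
    have hFB : FB mu T A α e k ((W : ℤ) * t) = tent e ((x : ℝ) : UnitAddCircle) *
      mu.real (RR T A k (round x)) := rfl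
    rw [hFB]
    by_cases hsm : |x - round x| ≤ e / 2
    · have hten : 1 / 2 ≤ tent e ((x : ℝ) : UnitAddCircle) := by
        unfold tent
        rw [UnitAddCircle.norm_eq]
        refine le_trans ?_ (le_max_right _ _)
        have : |x - round x| / e ≤ 1 / 2 := by
          rw [div_le_iff₀ he]
          linarith
        linarith
      have hsub : (⋂ j ∈ Finset.range (k + 1 + 1), ST T α ((W : ℤ) * ((j : ℤ) * (t : ℤ))) ⁻¹'
          (Bm (e / 4) ×ˢ A)) ⊆ Set.univ ×ˢ RR T A k (round x) := by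
        rintro ⟨u, z⟩ hz
        simp only [Set.mem_iInter, Set.mem_preimage] at hz
        refine ⟨trivial, ?_⟩
        have hu : u ∈ Bm (e / 4) := by
          have h3 := (hz 0 (by simp)).1
          simpa [ST] using h3
        simp only [RR, Set.mem_iInter, Set.mem_preimage]
        intro j hj
        have hj' := Finset.mem_range.1 hj
        have h4 := (hz j (by rw [Finset.mem_range]; omega)).2
        have h5 : ⌊rp u + α * (((W : ℤ) * ((j : ℤ) * (t : ℤ)) : ℤ) : ℝ)⌋ = j * round x := by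
          have h6 := floor_mid (by linarith : e / 4 ≤ 1 / 4) hu (x := x) (r := round x) j (by
            have h7 : ((j : ℕ) : ℝ) ≤ ((k : ℕ) : ℝ) + 1 := by exact_mod_cast hj'.le
            have h8 : (j : ℝ) * |x - round x| ≤ ((k : ℝ) + 1) * (e / 2) := by
              refine mul_le_mul h7 hsm (abs_nonneg _) (by positivity)
            linarith)
          rw [← h6]
          congr 1
          rw [hx]
          push_cast
          ring
        simp only [ST] at h4
        rw [h5] at h4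
        exact h4
      have h9 : ((volume : Measure UnitAddCircle).prod mu).real
          (Set.univ ×ˢ RR T A k (round x)) = mu.real (RR T A k (round x)) := by
        rw [measureReal_prod_prod]
        simp
      have h10 := measureReal_mono hsub (μ := (volume : Measure UnitAddCircle).prod mu)
        (measure_ne_top _ _)
      rw [h9] at h10
      nlinarith
    · have hem : (⋂ j ∈ Finset.range (k + 1 + 1), ST T α ((W : ℤ) * ((j : ℤ) * (t : ℤ))) ⁻¹'
          (Bm (e / 4) ×ˢ A)) = ∅ := by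
        rw [Set.eq_empty_iff_forall_notMem]
        rintro ⟨u, z⟩ hz
        simp only [Set.mem_iInter, Set.mem_preimage] at hz
        have hu : u ∈ Bm (e / 4) := by
          have h3 := (hz 0 (by simp)).1
          simpa [ST] using h3
        have hu1 : u + ((x : ℝ) : UnitAddCircle) ∈ Bm (e / 4) := by
          have h3 := (hz 1 (by simp)).1
          simpa [ST, hx] using h3
        apply hsm
        rw [← UnitAddCircle.norm_eq]
        unfold Bm at hu hu1
        rw [Metric.mem_closedBall] at hu hu1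
        have h4 := dist_triangle_right (u + ((x : ℝ) : UnitAddCircle)) u
          (((1 / 2 : ℝ) : UnitAddCircle))
        rw [dist_eq_norm, add_sub_cancel_left] at h4
        linarith
      rw [hem, measureReal_empty]
      exact mul_nonneg (by norm_num) (mul_nonneg (tent_nn _ _) hRR0)
  have h3 := Finset.sum_le_sum h2
  rw [← Finset.mul_sum] at h3
  linarith

end

end Pool.Agent.MRS.Bs

namespace Pool.Agent.MRS

open MeasureTheory Bs

/-- the bracket system and its positivity -/
theorem sys_thm : SysThm := by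
  intro hZ k X _ mu _ T hT A hA hAp α η hα hη
  set e : ℝ := min η (1 / (4 * ((k : ℝ) + 1))) with hedef
  have hk1 : (0 : ℝ) < (k : ℝ) + 1 := by positivity
  have he : 0 < e := lt_min hη (by positivity)
  have hk : ((k : ℝ) + 1) * e ≤ 1 / 4 := by
    have h1 : e ≤ 1 / (4 * ((k : ℝ) + 1)) := min_le_right _ _
    have h2 : ((k : ℝ) + 1) * e ≤ ((k : ℝ) + 1) * (1 / (4 * ((k : ℝ) + 1))) :=
      mul_le_mul_of_nonneg_left h1 hk1.le
    refine h2.trans (le_of_eq ?_)
    field_simp
  refine ⟨FB mu T A α e k, ?_, ?_, ?_⟩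
  · intro n hn
    have h1 : tent e ((α * n : ℝ) : UnitAddCircle) ≠ 0 := by
      intro h
      rw [FB, h, zero_mul] at hn
      exact lt_irrefl _ hn
    have h2 := tent_pos he h1
    refine ⟨round (α * n), lt_of_lt_of_le h2 (min_le_left _ _), ?_⟩
    by_contra hcon
    have h3 : mu.real (RR T A k (round (α * n))) ≤ 0 := not_lt.1 hcon
    have h4 : FB mu T A α e k n ≤ 0 := mul_nonpos_of_nonneg_of_nonpos (tent_nn _ _) h3
    linarith
  · intro ε hε
    exact FB_approx hT hA α he k hk ε hε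
  · exact FB_pos hZ hT hA hAp α he k hk

end Pool.Agent.MRS
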