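import Mathlib

/-!
# MRS: multiple recurrence along the primes for `a(t) = alpha t + slow` (MP_43aa00_an): definitions

Paper text: team-store `mrs_paper.md`.  The big inputs are stated here as propositions
(`WalshBox`, `UnifSz`, `PrimeThm`, `DecompThm`, `LemmaS`, `TPrime`), each part proves its own and may
assume the others as hypotheses.
-/

set_option autoImplicit false

namespace Pool.Agent.MRS

open MeasureTheory Filter Topology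
open scoped BigOperators ComplexConjugate

/-- A measure preserving action of the integers. -/
structure ZAct {X : Type} [MeasurableSpace X] (mu : Measure X) (T : ℤ → X → X) : Prop where
  zero : ∀ x, T 0 x = x
  add : ∀ (a b : ℤ) (x : X), T (a + b) x = T a (T b x)
  mp : ∀ a, MeasurePreserving (T a) mu mu

/-- Measurable and bounded by one everywhere. -/
structure B1 {X : Type} [MeasurableSpace X] (f : X → ℂ) : Prop where
  meas : Measurable f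
  le : ∀ x, ‖f x‖ ≤ 1

/-- The box `∏ [a i, a i + N i)` in `ℤ^ι`. -/
noncomputable def box {ι : Type} [Fintype ι] [DecidableEq ι] (a : ι → ℤ) (N : ι → ℕ) : Finset (ι → ℤ) :=
  Fintype.piFinset (fun i => Finset.Ico (a i) (a i + (N i : ℤ)))

/-- Average over the box (zero if the box is empty). -/
noncomputable def bavg {ι : Type} [Fintype ι] [DecidableEq ι] (a : ι → ℤ) (N : ι → ℕ)
    (F : (ι → ℤ) → ℂ) : ℂ :=
  (∏ i, (N i : ℂ))⁻¹ * ∑ z ∈ box a N, F z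

/-- Integer polynomials in the variables `ι`. -/
def IsPoly {ι : Type} (p : (ι → ℤ) → ℤ) : Prop :=
  ∃ P : MvPolynomial ι ℤ, ∀ z, p z = MvPolynomial.eval z P

/-- **(W)** Norm convergence, uniformly over all boxes with long sides (any location). -/
def WalshBox : Prop :=
  ∀ (X : Type) [MeasurableSpace X] (mu : Measure X) [IsProbabilityMeasure mu] (T : ℤ → X → X),
    ZAct mu T →
    ∀ (ι κ : Type) [Fintype ι] [DecidableEq ι] [Fintype κ] (p : κ → (ι → ℤ) → ℤ) (f : κ → X → ℂ),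
      (∀ j, IsPoly (p j)) → (∀ j, B1 (f j)) →
      ∀ ε : ℝ, 0 < ε → ∃ N0 : ℕ, ∀ (a a' : ι → ℤ) (N N' : ι → ℕ),
        (∀ i, N0 ≤ N i) → (∀ i, N0 ≤ N' i) →
        ∫ x, ‖bavg a N (fun z => ∏ j, f j (T (p j z) x))
            - bavg a' N' (fun z => ∏ j, f j (T (p j z) x))‖ ^ 2 ∂mu ≤ ε

/-- `z` or its conjugate, according to the parity of `n`. -/
noncomputable def cj (n : ℕ) (z : ℂ) : ℂ := if Even n then z else conj z

/-- Iterated multiplicative derivative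
`Del T h g x = ∏_{ω ⊆ Fin s} C^{|ω|} g (T (∑_{i ∈ ω} h i) x)`. -/
noncomputable def Del {X : Type} (T : ℤ → X → X) {s : ℕ} (h : Fin s → ℤ) (g : X → ℂ) (x : X) : ℂ :=
  ∏ ω : Finset (Fin s), cj ω.card (g (T (∑ i ∈ ω, h i) x))

/-- `g` is null of order `s`: for all positive `c`, the box averages of
`∫ Del T (c h) g` tend to zero (all sides to infinity, any location). -/
def Null {X : Type} [MeasurableSpace X] (mu : Measure X) (T : ℤ → X → X) (s : ℕ) (g : X → ℂ) :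
    Prop :=
  ∀ c : Fin s → ℕ, (∀ i, 0 < c i) → ∀ ε : ℝ, 0 < ε → ∃ H0 : ℕ, ∀ (a : Fin s → ℤ) (N : Fin s → ℕ),
    (∀ i, H0 ≤ N i) →
    ‖bavg a N (fun h => ∫ x, Del T (fun i => (c i : ℤ) * h i) g x ∂mu)‖ ≤ ε

/-- `l`-term sequence: `F n = ∫ g_0 ∏_{1 ≤ j ≤ l} g_j (T^{j n} x)`. -/
def IsTerm (l : ℕ) (F : ℤ → ℂ) : Prop :=
  ∃ (X : Type) (_ : MeasurableSpace X) (mu : Measure X) (_ : IsProbabilityMeasure mu)
    (T : ℤ → X → X) (g : ℕ → X → ℂ), ZAct mu T ∧ (∀ j, B1 (g j)) ∧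
      ∀ n : ℤ, F n = ∫ x, ∏ j ∈ Finset.range (l + 1), g j (T ((j : ℤ) * n) x) ∂mu

/-- Null `l`-term sequence: the last function is null of order `l`. -/
def IsNullTerm (l : ℕ) (F : ℤ → ℂ) : Prop :=
  ∃ (X : Type) (_ : MeasurableSpace X) (mu : Measure X) (_ : IsProbabilityMeasure mu)
    (T : ℤ → X → X) (g : ℕ → X → ℂ), ZAct mu T ∧ (∀ j, B1 (g j)) ∧ Null mu T l (g l) ∧
      ∀ n : ℤ, F n = ∫ x, ∏ j ∈ Finset.range (l + 1), g j (T ((j : ℤ) * n) x) ∂mu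

/-- Section 2.7: decomposition of a term sequence along `n ≡ 0 mod W0`. -/
def DecompThm : Prop :=
  ∀ (l : ℕ) (F : ℤ → ℂ), IsTerm l F → ∀ ε : ℝ, 0 < ε →
    ∃ (W0 : ℕ) (c : ℂ) (J : ℕ) (a : Fin J → ℂ) (l' : Fin J → ℕ) (G : Fin J → ℤ → ℂ),
      0 < W0 ∧ (∀ j, 1 ≤ l' j ∧ l' j ≤ l ∧ IsNullTerm (l' j) (G j)) ∧
      ∀ n : ℤ, (W0 : ℤ) ∣ n → ‖F n - c - ∑ j, a j * G j n‖ ≤ ε

/-- Section 3, Lemma S: for `g` null of order `s`, `W ≥ 1` and any residue `κ`. -/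
def LemmaS : Prop :=
  ∀ (X : Type) [MeasurableSpace X] (mu : Measure X) [IsProbabilityMeasure mu] (T : ℤ → X → X),
    ZAct mu T → ∀ (s : ℕ) (g : X → ℂ), 1 ≤ s → B1 g → Null mu T s g →
    ∀ (W : ℕ) (κ : ℤ), 0 < W → ∀ ε : ℝ, 0 < ε → ∃ N0 : ℕ,
      ∀ (a a' : Fin s → ℤ) (N N' : Fin s → ℕ) (b : ℤ) (K : ℕ),
        (∀ i, N0 ≤ N i) → (∀ i, N0 ≤ N' i) → N0 ≤ K →
        ‖bavg a N (fun i => bavg a' N' (fun j =>
          (‖(K : ℂ)⁻¹ * ∑ k ∈ Finset.Ico b (b + K),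
            ∫ x, Del T (fun t => (κ + W * k) * (i t - j t)) g x ∂mu‖ ^ 2 : ℝ)))‖ ≤ ε

/-- `Anti r v`: `v` is a constant after `r` van der Corput steps. -/
def Anti : ℕ → (ℤ → ℂ) → Prop
  | 0, v => ∃ c : ℂ, ‖c‖ ≤ 1 ∧ ∀ n, v n = c
  | r + 1, v => ∃ (E : Type) (_ : NormedAddCommGroup E) (_ : InnerProductSpace ℂ E)
      (u : ℤ → E) (g : E), (∀ n, ‖u n‖ ≤ 1) ∧ ‖g‖ ≤ 1 ∧ (∀ n, v n = inner ℂ g (u n)) ∧
        ∀ h : ℤ, Anti r (fun n => inner ℂ (u n) (u (n + h)))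

/-- Type I information, uniform in the index and in the location. -/
def H2 {I : Type} (v : I → ℤ → ℂ) : Prop :=
  ∀ W : ℕ, 0 < W → ∀ ε : ℝ, 0 < ε → ∃ N0 : ℕ, ∀ (x : I) (b t0 : ℤ) (M : ℕ), N0 ≤ M →
    ‖∑ t ∈ Finset.Ico t0 (t0 + M), v x (b + W * t)‖ ≤ ε * M

/-- Type II information, uniform in the index, in the location and in the residues. -/
def H3 {I : Type} (v : I → ℤ → ℂ) : Prop :=
  ∀ W : ℕ, 0 < W → ∀ ε : ℝ, 0 < ε → ∃ N0 : ℕ, ∀ (x : I) (κ m0 k0 t0 : ℤ) (K M : ℕ),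
    N0 ≤ K → N0 ≤ M →
    ∑ k ∈ Finset.Ico k0 (k0 + K), ∑ k' ∈ Finset.Ico k0 (k0 + K),
      ‖∑ t ∈ Finset.Ico t0 (t0 + M), v x ((κ + W * k) * (m0 + W * t)) *
        conj (v x ((κ + W * k') * (m0 + W * t)))‖ ≤ ε * K ^ 2 * M

/-- The primes `p` in `(N, L N]` with `p ≡ b mod W`. -/
noncomputable def wprimes (N : ℕ) (L : ℝ) (W b : ℕ) : Finset ℕ :=
  (Finset.Ioc N ⌊L * N⌋₊).filter (fun p => p.Prime ∧ p ≡ b [MOD W])

/-- **Theorem P** (section 5). -/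
def PrimeThm : Prop :=
  ∀ (r : ℕ) (I : Type) (v : I → ℤ → ℂ), (∀ x n, ‖v x n‖ ≤ 1) →
    (∀ (x : I) (a b : ℤ), Anti r (fun n => v x (a * n + b))) →
    (∀ (x : I) (a b a' b' : ℤ), Anti r (fun n => v x (a * n + b) * conj (v x (a' * n + b')))) →
    H2 v → H3 v → ∀ (ε L : ℝ), 0 < ε → 1 < L → ∃ W0 : ℕ, 0 < W0 ∧
      ∀ W : ℕ, 0 < W → W0 ∣ W → ∃ N0 : ℕ, ∀ N : ℕ, N0 ≤ N → ∀ b : ℕ, b.Coprime W → ∀ x : I,
        ‖∑ p ∈ wprimes N L W b, v x p‖ ≤ ε * N / (W.totient * Real.log N)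

/-- **Theorem T'** (section 6). -/
def TPrime : Prop :=
  ∀ (l : ℕ) (F : ℤ → ℂ), IsTerm l F → ∀ (ε L : ℝ), 0 < ε → 1 < L →
    ∃ (c : ℂ) (W0 : ℕ), 0 < W0 ∧ ∀ W : ℕ, 0 < W → W0 ∣ W → ∃ N0 : ℕ,
      (∀ N : ℕ, N0 ≤ N → ∀ b : ℕ, b.Coprime W → ∀ x : ℤ, (W : ℤ) ∣ (b : ℤ) + x →
        ‖∑ p ∈ wprimes N L W b, (F ((p : ℤ) + x) - c)‖ ≤ ε * N / (W.totient * Real.log N)) ∧
      (∀ (t0 : ℤ) (M : ℕ), N0 ≤ M →
        ‖∑ t ∈ Finset.Ico t0 (t0 + M), (F (W * t) - c)‖ ≤ ε * M)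

/-- **(Z)** Uniform Szemeredi theorem (ergodic form, uniform over all systems). -/
def UnifSz : Prop :=
  ∀ (k : ℕ) (δ : ℝ), 0 < δ → ∃ (c : ℝ) (N1 : ℕ), 0 < c ∧
    ∀ (X : Type) [MeasurableSpace X] (mu : Measure X) [IsProbabilityMeasure mu] (T : ℤ → X → X),
      ZAct mu T → ∀ A : Set X, MeasurableSet A → δ ≤ mu.real A → ∀ N : ℕ, N1 ≤ N →
        c * N ≤ ∑ t ∈ Finset.Icc 1 N,
          mu.real (⋂ j ∈ Finset.range (k + 1), T ((j : ℤ) * (t : ℤ)) ⁻¹' A)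

/-- The final theorem (own statement for MP_43aa00_an): all `k`, `a = alpha t + slow`. -/
def FinalStmt : Prop :=
  ∀ a : ℝ → ℝ,
    (∃ S : Subring (Filter.Germ (Filter.atTop : Filter ℝ) ℝ),
        (a : Filter.Germ (Filter.atTop : Filter ℝ) ℝ) ∈ S ∧
        (∀ g ∈ S, g ≠ 0 → ∃ h ∈ S, g * h = 1) ∧
        (∀ g ∈ S, ∃ f : ℝ → ℝ, (f : Filter.Germ (Filter.atTop : Filter ℝ) ℝ) = g ∧
            (∀ᶠ t in Filter.atTop, DifferentiableAt ℝ f t) ∧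
            ((deriv f : ℝ → ℝ) : Filter.Germ (Filter.atTop : Filter ℝ) ℝ) ∈ S)) →
    (∀ c : ℝ, ∀ p : Polynomial ℤ,
        Filter.Tendsto (fun t : ℝ => |a t - c * Polynomial.aeval t p|)
          Filter.atTop Filter.atTop) →
    (∃ α : ℝ, ¬ Filter.Tendsto (fun t : ℝ => |(a t - α * t) / Real.log t|)
          Filter.atTop Filter.atTop) →
    ∀ k : ℕ, ∀ (X : Type) [MeasurableSpace X] (μ : MeasureTheory.Measure X)
      [MeasureTheory.IsProbabilityMeasure μ] (T : X ≃ᵐ X),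
      MeasureTheory.MeasurePreserving T μ μ →
      ∀ A : Set X, MeasurableSet A → 0 < μ A → ∀ N : ℕ,
        ∃ p : ℕ, p.Prime ∧ N ≤ p ∧
          0 < μ (⋂ i ∈ Finset.range (k + 1),
            ((⇑T)^[i * (⌊a (p : ℝ)⌋).natAbs] ⁻¹' A))

end Pool.Agent.MRS
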