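import Mathlib

/-! # MRS / Dh0: density Hales-Jewett, definitions and basic facts

`dn A` the density of a subset of a finite type.  `ι → α` are the words.  A subspace is given by `v : ι → α ⊕ η` with `Pr v` (every variable occurs); `ev v s` is its point with parameters `s`.
A line is given by `w : ι → Option α` with a wildcard (`none`); `ln w a` is its point.  `LF A`: `A` contains no line.

PROOFS.  Everything is elementary counting.  `dn_fib_le`: the density of a subset of `X × Y` is the mean of the densities of its fibres.  `dn_many`: otherwise the mean of the densities of the fibres is less than `δ / 2 * 1 + 1 * δ / 2`.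
`dn_min`: the mean over `X` is at least `Δ - η`, all fibres are at most `Δ + η`.  `dn_pigeon`: `dn A ≤ ∑ dn (B c)`.
`LF.pull`: the line `w` of the parameters gives the line `fun i => Sum.elim some w (v i)`.  `exists_split`: cardinalities.
-/

set_option autoImplicit false
set_option linter.unusedVariables false

namespace MRS

noncomputable section

/-- the density of a subset of a finite type -/
def dn {X : Type} (A : Set X) : ℝ := (A.ncard : ℝ) / (Nat.card X : ℝ)

section

variable {X Y : Type} [Finite X] [Finite Y]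

theorem ncard_ind {Z : Type} [Fintype Z] (A : Set Z) : (A.ncard : ℝ) = ∑ x, Set.indicator A (fun _ => (1 : ℝ)) x := by
  classical
  rw [Set.ncard_eq_toFinset_card']
  simp only [Set.indicator_apply]
  rw [Finset.sum_boole]
  congr 2
  ext x
  simp

theorem dn_nonneg (A : Set X) : 0 ≤ dn A := by
  unfold dn; positivity

theorem dn_le_one (A : Set X) : dn A ≤ 1 := by
  unfold dn
  apply div_le_one_of_le₀ _ (Nat.cast_nonneg _)
  have h := Set.ncard_le_ncard (Set.subset_univ A)
  rw [Set.ncard_univ] at h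
  exact_mod_cast h

theorem dn_mono {A B : Set X} (h : A ⊆ B) : dn A ≤ dn B := by
  unfold dn
  have h1 := Set.ncard_le_ncard h
  have h2 : (A.ncard : ℝ) ≤ B.ncard := by exact_mod_cast h1
  exact div_le_div_of_nonneg_right h2 (Nat.cast_nonneg _)

theorem dn_empty : dn (∅ : Set X) = 0 := by
  simp [dn]

theorem dn_univ [Nonempty X] : dn (Set.univ : Set X) = 1 := by
  have h : (0 : ℝ) < Nat.card X := by exact_mod_cast Nat.card_pos
  rw [dn, Set.ncard_univ, div_self h.ne']

theorem dn_union {A B : Set X} (h : Disjoint A B) : dn (A ∪ B) = dn A + dn B := by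
  rw [dn, Set.ncard_union_eq h, dn, dn]
  push_cast
  ring

theorem dn_union_le (A B : Set X) : dn (A ∪ B) ≤ dn A + dn B := by
  have h1 := Set.ncard_union_le A B
  have h2 : ((A ∪ B).ncard : ℝ) ≤ A.ncard + B.ncard := by exact_mod_cast h1
  unfold dn
  rw [← add_div]
  exact div_le_div_of_nonneg_right h2 (Nat.cast_nonneg _)

theorem dn_diff {A B : Set X} (h : B ⊆ A) : dn (A \ B) = dn A - dn B := by
  have h1 : dn ((A \ B) ∪ B) = dn (A \ B) + dn B := dn_union Set.disjoint_sdiff_left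
  rw [Set.diff_union_of_subset h] at h1
  linarith

theorem dn_compl [Nonempty X] (A : Set X) : dn Aᶜ = 1 - dn A := by
  have h1 : dn (Set.univ \ A) = dn (Set.univ : Set X) - dn A := dn_diff (Set.subset_univ A)
  rw [dn_univ, ← Set.compl_eq_univ_diff] at h1
  exact h1

theorem dn_equiv (e : X ≃ Y) (A : Set Y) : dn (e ⁻¹' A) = dn A := by
  have h1 : (e ⁻¹' A).ncard = A.ncard := by
    rw [← Equiv.image_symm_eq_preimage]
    exact Set.ncard_image_of_injective _ e.symm.injective
  rw [dn, dn, h1, Nat.card_congr e]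

theorem dn_pos {A : Set X} (h : 0 < dn A) : A.Nonempty := by
  by_contra h1
  rw [Set.not_nonempty_iff_eq_empty] at h1
  rw [h1, dn_empty] at h
  exact lt_irrefl _ h

theorem dn_biUnion_le {C : Type} (s : Finset C) (B : C → Set X) : dn (⋃ c ∈ s, B c) ≤ ∑ c ∈ s, dn (B c) := by
  classical
  induction s using Finset.induction_on with
  | empty => simp [dn_empty]
  | insert a s ha ih =>
    rw [Finset.set_biUnion_insert, Finset.sum_insert ha]
    exact (dn_union_le _ _).trans (by linarith)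

theorem dn_biUnion {C : Type} (s : Finset C) (B : C → Set X) (hd : ∀ c c', c ≠ c' → Disjoint (B c) (B c')) :
    dn (⋃ c ∈ s, B c) = ∑ c ∈ s, dn (B c) := by
  classical
  induction s using Finset.induction_on with
  | empty => simp [dn_empty]
  | insert a s ha ih =>
    rw [Finset.set_biUnion_insert, Finset.sum_insert ha, dn_union, ih]
    rw [Set.disjoint_iUnion₂_right]
    intro c hc
    exact hd a c (fun h => ha (h ▸ hc))

theorem dn_pigeon {C : Type} [Finite C] [Nonempty C] (A : Set X) (B : C → Set X) (h : ∀ x ∈ A, ∃ c, x ∈ B c) :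
    ∃ c, dn A / (Nat.card C : ℝ) ≤ dn (B c) := by
  classical
  haveI := Fintype.ofFinite C
  have hC : (0 : ℝ) < Nat.card C := by exact_mod_cast Nat.card_pos
  by_contra hcon
  push Not at hcon
  have h1 : dn A ≤ ∑ c, dn (B c) := by
    have h2 : A ⊆ ⋃ c ∈ (Finset.univ : Finset C), B c := by
      intro x hx
      obtain ⟨c, hc⟩ := h x hx
      simp only [Finset.mem_univ, Set.iUnion_true, Set.mem_iUnion]
      exact ⟨c, hc⟩
    exact (dn_mono h2).trans (dn_biUnion_le Finset.univ B)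
  have h2 : ∑ c, dn (B c) < ∑ c : C, dn A / (Nat.card C : ℝ) :=
    Finset.sum_lt_sum_of_nonempty Finset.univ_nonempty (fun c _ => hcon c)
  rw [Finset.sum_const, Finset.card_univ, nsmul_eq_mul, ← Nat.card_eq_fintype_card, mul_div_cancel₀ _ hC.ne'] at h2
  linarith

/-- additivity over a finite partition -/
theorem dn_sum {C : Type} [Fintype C] (A : Set X) (B : C → Set X) (hd : ∀ c c', c ≠ c' → Disjoint (B c) (B c')) (h : ∀ x ∈ A, ∃ c, x ∈ B c) :
    dn A = ∑ c, dn (A ∩ B c) := by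
  have h2 : A = ⋃ c ∈ (Finset.univ : Finset C), (A ∩ B c) := by
    ext x
    simp only [Finset.mem_univ, Set.iUnion_true, Set.mem_iUnion]
    constructor
    · intro hx
      obtain ⟨c, hc⟩ := h x hx
      exact ⟨c, hx, hc⟩
    · rintro ⟨c, hc⟩
      exact hc.1
  conv_lhs => rw [h2]
  exact dn_biUnion Finset.univ (fun c => A ∩ B c) (fun c c' hcc => (hd c c' hcc).mono Set.inter_subset_right Set.inter_subset_right)

/-- Fubini, exact form -/
theorem dn_fib [Nonempty X] (A : Set (X × Y)) : (Nat.card X : ℝ) * dn A = ∑ᶠ x, dn {y | (x, y) ∈ A} := by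
  classical
  haveI := Fintype.ofFinite X
  haveI := Fintype.ofFinite Y
  have hX : (0 : ℝ) < Nat.card X := by exact_mod_cast Nat.card_pos
  rw [finsum_eq_sum_of_fintype]
  have h1 : (A.ncard : ℝ) = ∑ x, (({y | (x, y) ∈ A} : Set Y).ncard : ℝ) := by
    rw [ncard_ind, Fintype.sum_prod_type]
    refine Finset.sum_congr rfl fun x _ => ?_
    rw [ncard_ind]
    refine Finset.sum_congr rfl fun y _ => ?_
    by_cases hxy : (x, y) ∈ A
    · rw [Set.indicator_of_mem hxy, Set.indicator_of_mem (by exact hxy)]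
    · rw [Set.indicator_of_notMem hxy, Set.indicator_of_notMem (by exact hxy)]
  unfold dn
  rw [← Finset.sum_div, ← h1, Nat.card_prod]
  push_cast
  rw [mul_div_assoc', mul_div_mul_left _ _ hX.ne']

theorem dn_swap (A : Set (X × Y)) : dn {q : Y × X | (q.2, q.1) ∈ A} = dn A := by
  exact dn_equiv (Equiv.prodComm Y X) A

/-- Fubini, inequality -/
theorem dn_fib_le [Nonempty X] (A B : Set (X × Y)) (e c : ℝ) (h : ∀ x, dn {y | (x, y) ∈ A} ≤ e + c * dn {y | (x, y) ∈ B}) :
    dn A ≤ e + c * dn B := by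
  classical
  haveI := Fintype.ofFinite X
  have hX : (0 : ℝ) < Nat.card X := by exact_mod_cast Nat.card_pos
  have h1 := dn_fib A
  have h2 := dn_fib B
  rw [finsum_eq_sum_of_fintype] at h1 h2
  have h3 : ∑ x, dn {y | (x, y) ∈ A} ≤ ∑ x : X, (e + c * dn {y | (x, y) ∈ B}) :=
    Finset.sum_le_sum fun x _ => h x
  rw [Finset.sum_add_distrib, ← Finset.mul_sum, Finset.sum_const, Finset.card_univ, nsmul_eq_mul, ← Nat.card_eq_fintype_card, ← h1, ← h2] at h3
  have h4 : (Nat.card X : ℝ) * dn A ≤ (Nat.card X : ℝ) * (e + c * dn B) := by linarith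
  exact le_of_mul_le_mul_left h4 hX

theorem dn_fib_ge [Nonempty X] (A : Set (X × Y)) (e : ℝ) (h : ∀ x, e ≤ dn {y | (x, y) ∈ A}) : e ≤ dn A := by
  classical
  haveI := Fintype.ofFinite X
  have hX : (0 : ℝ) < Nat.card X := by exact_mod_cast Nat.card_pos
  have h1 := dn_fib A
  rw [finsum_eq_sum_of_fintype] at h1
  have h3 : ∑ x : X, e ≤ ∑ x, dn {y | (x, y) ∈ A} := Finset.sum_le_sum fun x _ => h x
  rw [Finset.sum_const, Finset.card_univ, nsmul_eq_mul, ← Nat.card_eq_fintype_card, ← h1] at h3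
  exact le_of_mul_le_mul_left h3 hX

theorem dn_many [Nonempty X] (A : Set (X × Y)) {δ : ℝ} (hδ : 0 ≤ δ) (h : δ ≤ dn A) : δ / 2 ≤ dn {x | δ / 2 ≤ dn {y | (x, y) ∈ A}} := by
  classical
  haveI := Fintype.ofFinite X
  have hX : (0 : ℝ) < Nat.card X := by exact_mod_cast Nat.card_pos
  have h1 := dn_fib A
  rw [finsum_eq_sum_of_fintype] at h1
  set G : Set X := {x | δ / 2 ≤ dn {y | (x, y) ∈ A}} with hG
  have h2 : ∀ x, dn {y | (x, y) ∈ A} ≤ δ / 2 + Set.indicator G (fun _ => (1 : ℝ)) x := by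
    intro x
    by_cases hx : x ∈ G
    · rw [Set.indicator_of_mem hx]
      have := dn_le_one {y | (x, y) ∈ A}
      linarith
    · rw [Set.indicator_of_notMem hx]
      have : ¬ (δ / 2 ≤ dn {y | (x, y) ∈ A}) := hx
      push Not at this
      linarith
  have h3 : ∑ x, dn {y | (x, y) ∈ A} ≤ ∑ x : X, (δ / 2 + Set.indicator G (fun _ => (1 : ℝ)) x) :=
    Finset.sum_le_sum fun x _ => h2 x
  rw [Finset.sum_add_distrib, ← ncard_ind, Finset.sum_const, Finset.card_univ, nsmul_eq_mul, ← Nat.card_eq_fintype_card, ← h1] at h3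
  have h4 : (G.ncard : ℝ) = (Nat.card X : ℝ) * dn G := by
    unfold dn
    rw [mul_div_cancel₀ _ hX.ne']
  rw [h4] at h3
  have h5 : (Nat.card X : ℝ) * dn A ≤ (Nat.card X : ℝ) * (δ / 2 + dn G) := by linarith
  have h6 := le_of_mul_le_mul_left h5 hX
  linarith

theorem dn_min [Nonempty X] (A : Set (X × Y)) {Δ η : ℝ} (hη : 0 ≤ η) (h : Δ - η ≤ dn A) (h2 : ∀ x, dn {y | (x, y) ∈ A} ≤ Δ + η) (x : X) :
    Δ - 2 * (Nat.card X : ℝ) * η ≤ dn {y | (x, y) ∈ A} := by
  classical
  haveI := Fintype.ofFinite X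
  have hX : (0 : ℝ) < Nat.card X := by exact_mod_cast Nat.card_pos
  have h1 := dn_fib A
  rw [finsum_eq_sum_of_fintype] at h1
  have h3 : ∑ x' ∈ Finset.univ.erase x, dn {y | (x', y) ∈ A} ≤ ∑ x' ∈ (Finset.univ.erase x : Finset X), (Δ + η) :=
    Finset.sum_le_sum fun x _ => h2 x
  have h4 := Finset.add_sum_erase Finset.univ (fun x' => dn {y | (x', y) ∈ A}) (Finset.mem_univ x)
  rw [Finset.sum_const, nsmul_eq_mul, Finset.card_erase_of_mem (Finset.mem_univ x), Finset.card_univ, ← Nat.card_eq_fintype_card,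
    Nat.cast_sub (Nat.card_pos)] at h3
  have h5 : (Nat.card X : ℝ) * (Δ - η) ≤ (Nat.card X : ℝ) * dn A := mul_le_mul_of_nonneg_left h hX.le
  push_cast at h3
  nlinarith

end

section

variable {ι κ η θ α : Type}

/-- the point of a subspace -/
def ev (v : ι → α ⊕ η) (s : η → α) : ι → α := fun i => Sum.elim id s (v i)

/-- every variable occurs -/
def Pr (v : ι → α ⊕ η) : Prop := ∀ e, ∃ i, v i = Sum.inr e

theorem ev_inj {v : ι → α ⊕ η} (hv : Pr v) : Function.Injective (ev v) := by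
  intro s s' h
  funext e
  obtain ⟨i, hi⟩ := hv e
  have := congrFun h i
  simpa [ev, hi] using this

/-- composition of subspaces -/
def cmp (v : ι → α ⊕ η) (u : η → α ⊕ θ) : ι → α ⊕ θ := fun i => Sum.elim Sum.inl u (v i)

theorem ev_cmp (v : ι → α ⊕ η) (u : η → α ⊕ θ) (s : θ → α) : ev (cmp v u) s = ev v (ev u s) := by
  funext i
  rcases hvi : v i with a | e <;> simp [ev, cmp, hvi]

theorem Pr_cmp {v : ι → α ⊕ η} {u : η → α ⊕ θ} (hv : Pr v) (hu : Pr u) : Pr (cmp v u) := by
  intro e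
  obtain ⟨j, hj⟩ := hu e
  obtain ⟨i, hi⟩ := hv j
  exact ⟨i, by simp [cmp, hi, hj]⟩

/-- the point of a line -/
def ln (w : ι → Option α) (a : α) : ι → α := fun i => (w i).getD a

/-- a subspace over `α` as a subspace over `Option α` -/
def evo (v : ι → α ⊕ η) (s : η → Option α) : ι → Option α := fun i => Sum.elim some s (v i)

theorem ln_evo (v : ι → α ⊕ η) (s : η → Option α) (a : α) : ln (evo v s) a = ev v (ln s a) := by
  funext i
  rcases hvi : v i with b | e <;> simp [ev, evo, ln, hvi]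

theorem evo_some (v : ι → α ⊕ η) (s : η → α) : evo v (fun e => some (s e)) = fun i => some (ev v s i) := by
  funext i
  rcases hvi : v i with b | e <;> simp [ev, evo, hvi]

theorem ev_map_some (v : ι → α ⊕ η) (s : η → Option α) : ev (fun i => Sum.map some id (v i)) s = evo v s := by
  funext i
  rcases hvi : v i with b | e <;> simp [ev, evo, hvi]

/-- no line is contained in `A` -/
def LF (A : Set (ι → α)) : Prop := ∀ w : ι → Option α, (∃ i, w i = none) → ∃ a, ln w a ∉ A

theorem LF.pull {A : Set (ι → α)} (h : LF A) {v : ι → α ⊕ η} (hv : Pr v) : LF {s | ev v s ∈ A} := by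
  rintro w ⟨e, he⟩
  obtain ⟨i, hi⟩ := hv e
  obtain ⟨a, ha⟩ := h (evo v w) ⟨i, by simp [evo, hi, he]⟩
  refine ⟨a, ?_⟩
  rw [ln_evo] at ha
  exact ha

theorem LF.sec {A : Set (ι ⊕ κ → α)} (h : LF A) (t : ι → α) : LF {y : κ → α | Sum.elim t y ∈ A} := by
  rintro w ⟨e, he⟩
  obtain ⟨a, ha⟩ := h (Sum.elim (fun i => some (t i)) w) ⟨Sum.inr e, by simpa using he⟩
  refine ⟨a, fun hm => ha ?_⟩
  have : ln (Sum.elim (fun i => some (t i)) w) a = Sum.elim t (ln w a) := by
    funext i
    rcases i with i | i <;> simp [ln]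
  rw [this]
  exact hm

theorem LF.sec' {A : Set (ι ⊕ κ → α)} (h : LF A) (y : κ → α) : LF {t : ι → α | Sum.elim t y ∈ A} := by
  rintro w ⟨e, he⟩
  obtain ⟨a, ha⟩ := h (Sum.elim w (fun i => some (y i))) ⟨Sum.inl e, by simpa using he⟩
  refine ⟨a, fun hm => ha ?_⟩
  have : ln (Sum.elim w (fun i => some (y i))) a = Sum.elim (ln w a) y := by
    funext i
    rcases i with i | i <;> simp [ln]
  rw [this]
  exact hm

theorem LF.equiv {A : Set (ι → α)} (h : LF A) (e : κ ≃ ι) : LF {s : κ → α | (fun i => s (e.symm i)) ∈ A} := by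
  rintro w ⟨k, hk⟩
  obtain ⟨a, ha⟩ := h (fun i => w (e.symm i)) ⟨e k, by simpa using hk⟩
  exact ⟨a, fun hm => ha hm⟩

theorem dn_reindex [Finite ι] [Finite κ] [Finite α] (A : Set (ι → α)) (e : κ ≃ ι) : dn {s : κ → α | (fun i => s (e.symm i)) ∈ A} = dn A := by
  exact dn_equiv (Equiv.arrowCongr e (Equiv.refl α)) A

theorem dn_words [Finite ι] [Finite κ] [Finite α] (A : Set (ι ⊕ κ → α)) :
    dn {q : (ι → α) × (κ → α) | Sum.elim q.1 q.2 ∈ A} = dn A := by
  rw [← dn_equiv (Equiv.sumArrowEquivProdArrow ι κ α).symm A]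
  rfl

theorem exists_split [Finite ι] (N : ℕ) (h : N ≤ Nat.card ι) :
    ∃ κ : Type, Finite κ ∧ Nat.card κ + N = Nat.card ι ∧ Nonempty (Fin N ⊕ κ ≃ ι) := by
  refine ⟨Fin (Nat.card ι - N), inferInstance, ?_, ?_⟩
  · rw [Nat.card_eq_fintype_card, Fintype.card_fin]
    omega
  · refine ⟨finSumFinEquiv.trans ((finCongr ?_).trans (Finite.equivFin ι).symm)⟩
    omega

/-- a subspace of given dimension exists -/
theorem exists_Pr [Finite ι] [Nonempty α] (m : ℕ) (h : m ≤ Nat.card ι) : ∃ v : ι → α ⊕ Fin m, Pr v := by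
  obtain ⟨κ, _, _, ⟨e⟩⟩ := exists_split m h
  refine ⟨fun i => Sum.elim Sum.inr (fun _ => Sum.inl (Classical.arbitrary α)) (e.symm i), fun j => ⟨e (Sum.inl j), ?_⟩⟩
  simp

end

/-- sets of density `δ` in large dimension contain a line -/
def PN (α : Type) (δ : ℝ) : Prop :=
  ∃ N : ℕ, ∀ (ι : Type) [Finite ι], N ≤ Nat.card ι → ∀ A : Set (ι → α), δ ≤ dn A → ¬ LF A

/-- the density Hales-Jewett theorem for the alphabet `α` -/
def DHJ (α : Type) : Prop := ∀ δ : ℝ, 0 < δ → PN α δ

/-- the multidimensional form -/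
def MDHJ (α : Type) : Prop :=
  ∀ (m : ℕ) (δ : ℝ), 0 < δ → ∃ N : ℕ, ∀ (ι : Type) [Finite ι], N ≤ Nat.card ι → ∀ A : Set (ι → α), δ ≤ dn A →
    ∃ v : ι → α ⊕ Fin m, Pr v ∧ ∀ s, ev v s ∈ A

/-- `B` does not distinguish the letters `a` and `none` -/
def Ins {ι α : Type} (a : α) (B : Set (ι → Option α)) : Prop :=
  ∀ x y : ι → Option α, (∀ i, x i = y i ∨ ((x i = none ∨ x i = some a) ∧ (y i = none ∨ y i = some a))) → (x ∈ B ↔ y ∈ B)

/-- `B` is a disjoint union of `m`-dimensional subspaces and a set of density at most `ε` -/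
def Cov {ι β : Type} (m : ℕ) (B : Set (ι → β)) (ε : ℝ) : Prop :=
  ∃ J : Set (ι → β ⊕ Fin m), (∀ v ∈ J, Pr v ∧ ∀ s, ev v s ∈ B) ∧
    (∀ v ∈ J, ∀ v' ∈ J, v ≠ v' → ∀ s s', ev v s ≠ ev v' s') ∧ dn {x ∈ B | ∀ v ∈ J, ∀ s, ev v s ≠ x} ≤ ε

end

end MRS
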