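import Pool.Agent.MRS.Dh0

/-! # MRS / Dh1: from lines to subspaces

PROOF of `mdhj_of`: induction on `m`.  `m = 0`: `N = 0`; `dn A > 0`, so `A` has a point `x`; `v = Sum.inl ∘ x`.
`m → m + 1`: `N₂ = N(m, δ/2)`, `K = Nat.card (Fin N₂ → α ⊕ Fin m)`, `δ' = (δ/2)/K`, `N₁` from `h δ'`, `N = N₁ + N₂`.  For `ι` use `exists_split N₂`, so `ι = Fin N₂ ⊕ κ`, `N₁ ≤ card κ` (transport by `dn_reindex`; a subspace `v` of `Fin N₂ ⊕ κ → α` gives the subspace `fun i => v (e.symm i)`).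
For proper `v : Fin N₂ → α ⊕ Fin m` let `T v = {y : κ → α | ∀ s, Sum.elim (ev v s) y ∈ A}` (`T v = ∅` if `v` is not proper).  `dn_words`, `dn_swap`, `dn_many`: the set of the `y` with `δ/2 ≤ dn {t | Sum.elim t y ∈ A}` has density at least `δ/2`; it is contained in `⋃ T v` (induction hypothesis for `ι = Fin N₂`).
`dn_pigeon`: some `T v` has density at least `δ'`; it contains a line `w : κ → Option α`.  The subspace is `Sum.elim (fun i => Sum.map id Fin.castSucc (v i)) (fun j => match w j with | none => Sum.inr (Fin.last m) | some a => Sum.inl a)`.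
-/

set_option autoImplicit false
set_option linter.unusedVariables false

namespace MRS

private theorem ev_aux {α κ : Type} {m n : ℕ} (v : Fin n → α ⊕ Fin m) (w : κ → Option α) (s : Fin (m + 1) → α) :
    ev (Sum.elim (fun i => Sum.map id Fin.castSucc (v i))
      (fun j => (w j).elim (Sum.inr (Fin.last m)) Sum.inl) : Fin n ⊕ κ → α ⊕ Fin (m + 1)) s =
      Sum.elim (ev v (fun j => s (Fin.castSucc j))) (ln w (s (Fin.last m))) := by
  funext i
  rcases i with i | j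
  · simp only [ev, Sum.elim_inl]
    rcases v i with a | e
    · rfl
    · rfl
  · simp only [ev, ln, Sum.elim_inr]
    rcases w j with _ | a
    · rfl
    · rfl

private theorem Pr_aux {α κ : Type} {m n : ℕ} {v : Fin n → α ⊕ Fin m} (hv : Pr v) {w : κ → Option α}
    (hw : ∃ i, w i = none) :
    Pr (Sum.elim (fun i => Sum.map id Fin.castSucc (v i))
      (fun j => (w j).elim (Sum.inr (Fin.last m)) Sum.inl) : Fin n ⊕ κ → α ⊕ Fin (m + 1)) := by
  intro e
  refine Fin.lastCases ?_ (fun e => ?_) e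
  · obtain ⟨i, hi⟩ := hw
    refine ⟨Sum.inr i, ?_⟩
    simp only [Sum.elim_inr, hi]
    rfl
  · obtain ⟨i, hi⟩ := hv e
    refine ⟨Sum.inl i, ?_⟩
    simp only [Sum.elim_inl, hi]
    rfl

theorem mdhj_of {α : Type} [Finite α] [Nonempty α] (h : DHJ α) : MDHJ α := by
  intro m
  induction m with
  | zero =>
    intro δ hδ
    refine ⟨0, ?_⟩
    intro ι _ _ A hA
    obtain ⟨x, hx⟩ := dn_pos (lt_of_lt_of_le hδ hA)
    refine ⟨fun i => Sum.inl (x i), fun e => e.elim0, fun s => ?_⟩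
    exact hx
  | succ m ih =>
    intro δ hδ
    obtain ⟨N₂, hN₂⟩ := ih (δ / 2) (by positivity)
    have hK : 0 < (Nat.card (Fin N₂ → α ⊕ Fin m) : ℝ) := by
      have : 0 < Nat.card (Fin N₂ → α ⊕ Fin m) := Nat.card_pos
      exact_mod_cast this
    obtain ⟨N₁, hN₁⟩ := h (δ / 2 / (Nat.card (Fin N₂ → α ⊕ Fin m) : ℝ)) (by positivity)
    refine ⟨N₁ + N₂, ?_⟩
    intro ι _ hι A hA
    obtain ⟨κ, hκ, hcard, ⟨e⟩⟩ := exists_split (ι := ι) N₂ (by omega)
    set A' : Set (Fin N₂ ⊕ κ → α) := {s | (fun i => s (e.symm i)) ∈ A} with hA'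
    have h1 : dn A' = dn A := dn_reindex A e
    have h2 := dn_words A'
    have h3 := dn_swap {q : (Fin N₂ → α) × (κ → α) | Sum.elim q.1 q.2 ∈ A'}
    have h4 : δ ≤ dn {q : (κ → α) × (Fin N₂ → α) | (q.2, q.1) ∈ {q : (Fin N₂ → α) × (κ → α) | Sum.elim q.1 q.2 ∈ A'}} := by
      rw [h3, h2, h1]
      exact hA
    have h5 := dn_many _ hδ.le h4
    obtain ⟨v, hv⟩ := dn_pigeon
      {y : κ → α | δ / 2 ≤ dn {t : Fin N₂ → α | (y, t) ∈ {q : (κ → α) × (Fin N₂ → α) | (q.2, q.1) ∈ {q : (Fin N₂ → α) × (κ → α) | Sum.elim q.1 q.2 ∈ A'}}}}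
      (fun v : Fin N₂ → α ⊕ Fin m => {y : κ → α | Pr v ∧ ∀ s, Sum.elim (ev v s) y ∈ A'}) (by
        intro y hy
        obtain ⟨v, hv1, hv2⟩ := hN₂ (Fin N₂) (by simp) _ hy
        exact ⟨v, hv1, fun s => hv2 s⟩)
    have h6 : δ / 2 / (Nat.card (Fin N₂ → α ⊕ Fin m) : ℝ) ≤ dn {y : κ → α | Pr v ∧ ∀ s, Sum.elim (ev v s) y ∈ A'} :=
      le_trans (div_le_div_of_nonneg_right h5 hK.le) hv
    have h7 := hN₁ κ (by omega) _ h6
    unfold LF at h7
    push Not at h7
    obtain ⟨w, hw, hw2⟩ := h7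
    obtain ⟨a₀⟩ := ‹Nonempty α›
    have hPv : Pr v := (hw2 a₀).1
    refine ⟨fun i => (Sum.elim (fun i => Sum.map id Fin.castSucc (v i))
      (fun j => (w j).elim (Sum.inr (Fin.last m)) Sum.inl) : Fin N₂ ⊕ κ → α ⊕ Fin (m + 1)) (e.symm i), ?_, ?_⟩
    · intro x
      obtain ⟨i, hi⟩ := Pr_aux hPv hw x
      refine ⟨e i, ?_⟩
      simp only [Equiv.symm_apply_apply]
      exact hi
    · intro s
      have h8 := (hw2 (s (Fin.last m))).2 (fun j => s (Fin.castSucc j))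
      rw [← ev_aux] at h8
      exact h8

end MRS
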