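import Pool.Agent.MRS.Dh9

/-! # MRS / Dh10: uniform multiple recurrence

PROOF of `recur_comm`.  `α = Fin (k+1)`, `N` from `dhj α (δ/2)`; `D = N + 1`.  Let `n = N + 1`, words `Fin n → Fin (k+1)`, `c = (δ/2) / Nat.card (Fin n → Option (Fin (k+1)))`.  For a word `w` let `S w = T (w 0) ∘ .. ∘ T (w (n-1))` (all `T j` commute; define it as `∏`/composition over the list, or as `∏_j (T j)^[number of i with w i = j]`); it is measure preserving.
For `x : X` let `E x = {w | S w x ∈ A}`.  `∫ dn (E x) dμ = mean over w of μ (S w ⁻¹' A) = μ A ≥ δ`; so `μ {x | δ/2 ≤ dn (E x)} ≥ δ/2`.  Such an `E x` contains a line `w : Fin n → Option (Fin (k+1))`; by the pigeonhole principle there is a line `w` with `μ {x | ∀ a, ln w a ∈ E x} ≥ c`.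
`S (ln w a) = (T a)^[d] ∘ R`, `d` the number of wildcards, `1 ≤ d ≤ n`, `R` the composition over the other letters, measure preserving.  So `{x | ∀ a, ln w a ∈ E x} = R ⁻¹' (⋂ a, (T a)^[d] ⁻¹' A)`, and `μ (⋂ a, (T a)^[d] ⁻¹' A) ≥ c`.
`recur`: `T a = T^[a]` (`T^[0] = id`).  `recur_mean`: for `1 ≤ r ≤ N / D` apply `recur` to `T^[W * r]`: `d_r ≤ D` with `μ (⋂_j T^[j * (W * (r * d_r))] ⁻¹' A) ≥ c`; `r * d_r ≤ N`; every `n` is `r * d_r` for at most `D` values of `r`.  So the sum over `n ∈ [1, N]` is at least `c * (N / D) / D`, `c' = c / (2 D^2)`, `N₀ = D`... (`⌊N/D⌋ ≥ N/(2D)` for `N ≥ D`).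
-/

set_option autoImplicit false
set_option linter.unusedVariables false

namespace MRS

open MeasureTheory

universe u

private theorem dhten_pow {X : Type u} (f : Function.End X) (n : ℕ) (x : X) :
    (f ^ n : Function.End X) x = (f : X → X)^[n] x := by
  induction n with
  | zero => rfl
  | succ n ih =>
    rw [pow_succ', Function.iterate_succ_apply']
    show f ((f ^ n : Function.End X) x) = _
    rw [ih]

private theorem dhten_act {X : Type u} [MeasurableSpace X] (μ : Measure X) {k n : ℕ} (T : Fin (k + 1) → X → X)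
    (hT : ∀ a, MeasurePreserving (T a) μ μ) (hc : ∀ a b, T a ∘ T b = T b ∘ T a) :
    ∃ S : (Fin n → Fin (k + 1)) → X → X, (∀ w, MeasurePreserving (S w) μ μ) ∧
      ∀ w : Fin n → Option (Fin (k + 1)), ∃ R : X → X, MeasurePreserving R μ μ ∧
        ∀ a x, S (ln w a) x = (T a)^[(Finset.univ.filter fun i => w i = none).card] (R x) := by
  classical
  let t : Fin (k + 1) → Function.End X := fun a => T a
  have hcm : Pairwise fun i j : Fin (k + 1) => ∀ x y : Multiplicative ℕ, Commute (powersHom (Function.End X) (t i) x) (powersHom (Function.End X) (t j) y) := by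
    intro i j _ x y
    have h1 : Commute (t i) (t j) := hc i j
    rw [powersHom_apply, powersHom_apply]
    exact h1.pow_pow _ _
  let φ : ((a : Fin (k + 1)) → Multiplicative ℕ) →* Function.End X :=
    MonoidHom.noncommPiCoprod (fun a => powersHom (Function.End X) (t a)) hcm
  let g : Fin (k + 1) → ((a : Fin (k + 1)) → Multiplicative ℕ) := fun a => Pi.mulSingle a (Multiplicative.ofAdd 1)
  have hg : ∀ a, φ (g a) = t a := by
    intro a
    show MonoidHom.noncommPiCoprod (fun a => powersHom (Function.End X) (t a)) hcm (Pi.mulSingle a (Multiplicative.ofAdd 1)) = t a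
    rw [MonoidHom.noncommPiCoprod_mulSingle, powersHom_apply]
    simp
  let P : ((a : Fin (k + 1)) → Multiplicative ℕ) → Prop := fun e => MeasurePreserving (φ e : X → X) μ μ
  have hP1 : P 1 := by
    show MeasurePreserving (φ 1 : X → X) μ μ
    rw [map_one]
    exact MeasurePreserving.id μ
  have hPm : ∀ a b, P a → P b → P (a * b) := by
    intro a b ha hb
    show MeasurePreserving (φ (a * b) : X → X) μ μ
    rw [map_mul]
    exact MeasurePreserving.comp ha hb
  have hPg : ∀ a, P (g a) := by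
    intro a
    show MeasurePreserving (φ (g a) : X → X) μ μ
    rw [hg a]
    exact hT a
  refine ⟨fun w => φ (∏ i, g (w i)), fun w => ?_, fun w => ?_⟩
  · exact Finset.prod_induction (fun i => g (w i)) P hPm hP1 (fun i _ => hPg (w i))
  · refine ⟨φ (∏ i, (w i).elim 1 g), ?_, ?_⟩
    · refine Finset.prod_induction (fun i => (w i).elim 1 g) P hPm hP1 (fun i _ => ?_)
      cases h : w i with
      | none => exact hP1
      | some b => exact hPg b
    · intro a x
      have h1 : ∏ i, g (ln w a i) = (g a) ^ (Finset.univ.filter fun i => w i = none).card * ∏ i, (w i).elim 1 g := by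
        have h2 : ∀ i, g (ln w a i) = (if w i = none then g a else 1) * (w i).elim 1 g := by
          intro i
          show g ((w i).getD a) = _
          cases h : w i with
          | none => simp
          | some b => simp
        rw [Finset.prod_congr rfl (fun i _ => h2 i), Finset.prod_mul_distrib, Finset.prod_ite, Finset.prod_const, Finset.prod_const_one, mul_one]
      show (φ (∏ i, g (ln w a i)) : X → X) x = _
      rw [h1, map_mul, map_pow, hg a]
      show ((t a ^ (Finset.univ.filter fun i => w i = none).card : Function.End X)) ((φ (∏ i, (w i).elim 1 g)) x) = _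
      rw [dhten_pow]

private theorem dhten_mean {X : Type u} [MeasurableSpace X] (μ : Measure X) [IsProbabilityMeasure μ] {W : Type} [Fintype W] [Nonempty W]
    (S : W → X → X) (hS : ∀ w, MeasurePreserving (S w) μ μ) (A : Set X) (hA : MeasurableSet A) {δ : ℝ} (hδ : δ ≤ μ.real A) :
    δ / 2 ≤ μ.real {x | δ / 2 ≤ dn {w | S w x ∈ A}} := by
  classical
  have hK : (0 : ℝ) < (Nat.card W : ℝ) := by
    exact_mod_cast Nat.card_pos
  have hdn : ∀ x, dn {w | S w x ∈ A} = (∑ w, (S w ⁻¹' A).indicator (fun _ => (1 : ℝ)) x) / (Nat.card W : ℝ) := by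
    intro x
    show (({w | S w x ∈ A} : Set W).ncard : ℝ) / (Nat.card W : ℝ) = _
    congr 1
    rw [Set.ncard_eq_toFinset_card']
    simp only [Set.indicator_apply, Set.mem_preimage]
    rw [Finset.sum_boole]
    congr 2
    ext w
    simp
  have hms : ∀ w, MeasurableSet (S w ⁻¹' A) := fun w => (hS w).measurable hA
  have hmeas : Measurable fun x => dn {w | S w x ∈ A} := by
    have h1 : (fun x => dn {w | S w x ∈ A}) = fun x => (∑ w, (S w ⁻¹' A).indicator (fun _ => (1 : ℝ)) x) / (Nat.card W : ℝ) := funext hdn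
    rw [h1]
    exact (Finset.measurable_sum _ fun w _ => measurable_const.indicator (hms w)).div_const _
  have hG : MeasurableSet {x | δ / 2 ≤ dn {w | S w x ∈ A}} := measurableSet_le measurable_const hmeas
  have hint : ∫ x, dn {w | S w x ∈ A} ∂μ = μ.real A := by
    have h1 : (fun x => dn {w | S w x ∈ A}) = fun x => (∑ w, (S w ⁻¹' A).indicator (fun _ => (1 : ℝ)) x) / (Nat.card W : ℝ) := funext hdn
    rw [h1, integral_div, integral_finsetSum]
    · have h2 : ∀ w ∈ (Finset.univ : Finset W), ∫ x, (S w ⁻¹' A).indicator (fun _ => (1 : ℝ)) x ∂μ = μ.real A := by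
        intro w _
        rw [integral_indicator_const _ (hms w), smul_eq_mul, mul_one]
        rw [measureReal_def, measureReal_def, (hS w).measure_preimage hA.nullMeasurableSet]
      rw [Finset.sum_congr rfl h2, Finset.sum_const, Finset.card_univ, nsmul_eq_mul, Nat.card_eq_fintype_card]
      have hK' : ((Fintype.card W : ℕ) : ℝ) ≠ 0 := by
        rw [← Nat.card_eq_fintype_card]
        exact hK.ne'
      field_simp
    · intro w _
      exact (integrable_const _).indicator (hms w)
  have hle : ∀ x, dn {w | S w x ∈ A} ≤ ({x | δ / 2 ≤ dn {w | S w x ∈ A}} : Set X).indicator (fun _ => (1 : ℝ)) x + δ / 2 ∨ δ < 0 := by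
    intro x
    by_cases hd : δ < 0
    · exact Or.inr hd
    · left
      push Not at hd
      by_cases hx : δ / 2 ≤ dn {w | S w x ∈ A}
      · rw [Set.indicator_of_mem (show x ∈ {x | δ / 2 ≤ dn {w | S w x ∈ A}} from hx)]
        have := dn_le_one {w | S w x ∈ A}
        linarith
      · rw [Set.indicator_of_notMem (show x ∉ {x | δ / 2 ≤ dn {w | S w x ∈ A}} from hx)]
        push Not at hx
        linarith
  by_cases hd : δ < 0
  · have : 0 ≤ μ.real {x | δ / 2 ≤ dn {w | S w x ∈ A}} := measureReal_nonneg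
    linarith
  · have hle' : ∀ x, dn {w | S w x ∈ A} ≤ ({x | δ / 2 ≤ dn {w | S w x ∈ A}} : Set X).indicator (fun _ => (1 : ℝ)) x + δ / 2 :=
      fun x => (hle x).resolve_right hd
    have hi1 : Integrable (fun x => dn {w | S w x ∈ A}) μ := by
      refine Integrable.of_bound hmeas.aestronglyMeasurable 1 (Filter.Eventually.of_forall fun x => ?_)
      rw [Real.norm_eq_abs, abs_of_nonneg (dn_nonneg _)]
      exact dn_le_one _
    have hi2 : Integrable (fun x => ({x | δ / 2 ≤ dn {w | S w x ∈ A}} : Set X).indicator (fun _ => (1 : ℝ)) x + δ / 2) μ :=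
      ((integrable_const _).indicator hG).add (integrable_const _)
    have h3 := integral_mono hi1 hi2 hle'
    rw [hint, integral_add ((integrable_const _).indicator hG) (integrable_const _), integral_indicator_const _ hG,
      integral_const, probReal_univ, smul_eq_mul, smul_eq_mul, mul_one, one_mul] at h3
    linarith

/-- uniform multiple recurrence for commuting transformations -/
theorem recur_comm (k : ℕ) {δ : ℝ} (hδ : 0 < δ) : ∃ (D : ℕ) (c : ℝ), 0 < c ∧ ∀ (X : Type u) [MeasurableSpace X] (μ : Measure X) [IsProbabilityMeasure μ]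
    (T : Fin (k + 1) → X → X), (∀ a, MeasurePreserving (T a) μ μ) → (∀ a b, T a ∘ T b = T b ∘ T a) → ∀ A : Set X, MeasurableSet A → δ ≤ μ.real A →
      ∃ d : ℕ, 1 ≤ d ∧ d ≤ D ∧ c ≤ μ.real (⋂ a, (T a)^[d] ⁻¹' A) := by
  classical
  obtain ⟨N, hN⟩ := dhj (Fin (k + 1)) (δ / 2) (by positivity)
  have hKpos : (0 : ℝ) < (Fintype.card (Fin N → Option (Fin (k + 1))) : ℝ) := by
    exact_mod_cast Fintype.card_pos
  refine ⟨N, (δ / 2) / (Fintype.card (Fin N → Option (Fin (k + 1))) : ℝ), by positivity, ?_⟩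
  intro X _ μ _ T hT hc A hA hδA
  obtain ⟨S, hS, hline⟩ := dhten_act μ (n := N) T hT hc
  have hG := dhten_mean μ S hS A hA hδA
  set G : Set X := {x | δ / 2 ≤ dn {w | S w x ∈ A}} with hGdef
  set L : (Fin N → Option (Fin (k + 1))) → Set X := fun w => {x | ∀ a, S (ln w a) x ∈ A} with hL
  set J : Finset (Fin N → Option (Fin (k + 1))) := Finset.univ.filter fun w => ∃ i, w i = none with hJ
  have hsub : G ⊆ ⋃ w ∈ J, L w := by
    intro x hx
    have h1 := hN (Fin N) (by simp) {w | S w x ∈ A} hx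
    unfold LF at h1
    push Not at h1
    obtain ⟨w, hw, hw2⟩ := h1
    simp only [Set.mem_iUnion]
    refine ⟨w, ?_, ?_⟩
    · rw [hJ, Finset.mem_filter]
      exact ⟨Finset.mem_univ _, hw⟩
    · exact hw2
  by_contra hcon
  push Not at hcon
  have hLlt : ∀ w ∈ J, μ.real (L w) < (δ / 2) / (Fintype.card (Fin N → Option (Fin (k + 1))) : ℝ) := by
    intro w hw
    rw [hJ, Finset.mem_filter] at hw
    obtain ⟨-, i, hi⟩ := hw
    obtain ⟨R, hR, hR2⟩ := hline w
    have hd1 : 1 ≤ (Finset.univ.filter fun i => w i = none).card := by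
      rw [Nat.one_le_iff_ne_zero, Finset.card_ne_zero]
      exact ⟨i, Finset.mem_filter.2 ⟨Finset.mem_univ _, hi⟩⟩
    have hd2 : (Finset.univ.filter fun i => w i = none).card ≤ N := by
      refine (Finset.card_le_univ _).trans ?_
      simp
    have h2 := hcon _ hd1 hd2
    have h3 : L w = R ⁻¹' (⋂ a, (T a)^[(Finset.univ.filter fun i => w i = none).card] ⁻¹' A) := by
      ext x
      simp only [hL, Set.mem_ofPred_eq, Set.mem_preimage, Set.mem_iInter]
      exact forall_congr' fun a => by rw [hR2 a x]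
    have h4 : MeasurableSet (⋂ a, (T a)^[(Finset.univ.filter fun i => w i = none).card] ⁻¹' A) :=
      MeasurableSet.iInter fun a => ((hT a).iterate _).measurable hA
    rw [h3, measureReal_def, hR.measure_preimage h4.nullMeasurableSet, ← measureReal_def]
    exact h2
  have hsum : μ.real G ≤ ∑ w ∈ J, μ.real (L w) :=
    (measureReal_mono hsub (measure_ne_top _ _)).trans (measureReal_biUnion_finset_le J L)
  by_cases hJe : J.Nonempty
  · have h5 : ∑ w ∈ J, μ.real (L w) < ∑ w ∈ J, (δ / 2) / (Fintype.card (Fin N → Option (Fin (k + 1))) : ℝ) :=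
      Finset.sum_lt_sum_of_nonempty hJe hLlt
    rw [Finset.sum_const, nsmul_eq_mul] at h5
    have h6 : (J.card : ℝ) ≤ (Fintype.card (Fin N → Option (Fin (k + 1))) : ℝ) := by
      exact_mod_cast Finset.card_le_univ J
    have h7 : (J.card : ℝ) * ((δ / 2) / (Fintype.card (Fin N → Option (Fin (k + 1))) : ℝ)) ≤ δ / 2 := by
      calc (J.card : ℝ) * ((δ / 2) / (Fintype.card (Fin N → Option (Fin (k + 1))) : ℝ))
          ≤ (Fintype.card (Fin N → Option (Fin (k + 1))) : ℝ) * ((δ / 2) / (Fintype.card (Fin N → Option (Fin (k + 1))) : ℝ)) :=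
            mul_le_mul_of_nonneg_right h6 (by positivity)
        _ = δ / 2 := by field_simp
    linarith
  · rw [Finset.not_nonempty_iff_eq_empty] at hJe
    rw [hJe, Finset.sum_empty] at hsum
    linarith

/-- uniform multiple recurrence -/
theorem recur (k : ℕ) {δ : ℝ} (hδ : 0 < δ) : ∃ (D : ℕ) (c : ℝ), 0 < c ∧ ∀ (X : Type u) [MeasurableSpace X] (μ : Measure X) [IsProbabilityMeasure μ]
    (T : X → X), MeasurePreserving T μ μ → ∀ A : Set X, MeasurableSet A → δ ≤ μ.real A →
      ∃ d : ℕ, 1 ≤ d ∧ d ≤ D ∧ c ≤ μ.real (⋂ j ∈ Finset.range (k + 1), T^[j * d] ⁻¹' A) := by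
  obtain ⟨D, c, hc, h⟩ := recur_comm.{u} k hδ
  refine ⟨D, c, hc, ?_⟩
  intro X _ μ _ T hT A hA hδA
  obtain ⟨d, hd1, hd2, hd3⟩ := h X μ (fun a => T^[(a : ℕ)]) (fun a => hT.iterate _) (fun a b => by
    rw [← Function.iterate_add, ← Function.iterate_add, add_comm]) A hA hδA
  refine ⟨d, hd1, hd2, ?_⟩
  have h1 : (⋂ a : Fin (k + 1), (T^[(a : ℕ)])^[d] ⁻¹' A) = ⋂ j ∈ Finset.range (k + 1), T^[j * d] ⁻¹' A := by
    ext x
    simp only [Set.mem_iInter, Set.mem_preimage, Finset.mem_range, Function.iterate_mul]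
    constructor
    · intro hx j hj
      exact hx ⟨j, hj⟩
    · intro hx a
      exact hx a a.2
  rw [← h1]
  exact hd3

/-- the averaged form, uniform in the system and in the modulus `W` -/
theorem recur_mean (k : ℕ) {δ : ℝ} (hδ : 0 < δ) : ∃ (N₀ : ℕ) (c : ℝ), 0 < c ∧ ∀ (X : Type u) [MeasurableSpace X] (μ : Measure X) [IsProbabilityMeasure μ]
    (T : X → X), MeasurePreserving T μ μ → ∀ A : Set X, MeasurableSet A → δ ≤ μ.real A → ∀ W N : ℕ, N₀ ≤ N →
      c * N ≤ ∑ n ∈ Finset.Icc 1 N, μ.real (⋂ j ∈ Finset.range (k + 1), T^[j * (W * n)] ⁻¹' A) := by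
  classical
  obtain ⟨D, c, hc, h⟩ := recur.{u} k hδ
  refine ⟨D + 1, c / (2 * ((D : ℝ) + 1) ^ 2), by positivity, ?_⟩
  intro X _ μ _ T hT A hA hδA W N hN
  set M : ℕ := N / (D + 1) with hM
  have hM1 : 1 ≤ M := by
    rw [hM, Nat.one_le_div_iff (by omega)]
    exact hN
  have hM2 : M * (D + 1) ≤ N := Nat.div_mul_le_self N (D + 1)
  have hM3 : N ≤ 2 * M * (D + 1) := by
    have h1 : N < (D + 1) * (M + 1) := by
      have := Nat.lt_mul_div_succ N (show 0 < D + 1 by omega)
      exact this
    nlinarith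
  have hex : ∀ r : ℕ, ∃ d : ℕ, 1 ≤ d ∧ d ≤ D ∧ c ≤ μ.real (⋂ j ∈ Finset.range (k + 1), T^[j * (W * (r * d))] ⁻¹' A) := by
    intro r
    obtain ⟨d, hd1, hd2, hd3⟩ := h X μ (T^[W * r]) (hT.iterate _) A hA hδA
    refine ⟨d, hd1, hd2, ?_⟩
    have h1 : (⋂ j ∈ Finset.range (k + 1), (T^[W * r])^[j * d] ⁻¹' A) = ⋂ j ∈ Finset.range (k + 1), T^[j * (W * (r * d))] ⁻¹' A := by
      refine Set.iInter_congr fun j => Set.iInter_congr fun _ => ?_
      rw [← Function.iterate_mul]
      congr 2
      ring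
    rw [← h1]
    exact hd3
  choose d hd1 hd2 hd3 using hex
  set s : Finset ℕ := Finset.Icc 1 M with hs
  have hcard : s.card ≤ (D + 1) * (s.image fun r => r * d r).card := by
    refine Finset.card_le_mul_card_image s (D + 1) ?_
    intro n _
    have h1 : (s.filter fun r => r * d r = n).card ≤ (Finset.range (D + 1)).card := by
      refine Finset.card_le_card_of_injOn d ?_ ?_
      · intro r _
        have := hd2 r
        simp only [Finset.coe_range, Set.mem_Iio]
        omega
      · intro r hr r' hr' hrr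
        simp only [Finset.coe_filter, Set.mem_ofPred_eq] at hr hr'
        have h2 : r * d r = r' * d r := by
          rw [hr.2, hrr, hr'.2]
        exact Nat.eq_of_mul_eq_mul_right (hd1 r) h2
    rwa [Finset.card_range] at h1
  have hsubs : (s.image fun r => r * d r) ⊆ Finset.Icc 1 N := by
    intro n hn
    rw [Finset.mem_image] at hn
    obtain ⟨r, hr, rfl⟩ := hn
    rw [hs, Finset.mem_Icc] at hr
    rw [Finset.mem_Icc]
    refine ⟨Nat.mul_pos hr.1 (hd1 r), ?_⟩
    calc r * d r ≤ M * (D + 1) := Nat.mul_le_mul hr.2 ((hd2 r).trans (Nat.le_succ D))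
      _ ≤ N := hM2
  have hsum : ∑ n ∈ (s.image fun r => r * d r), c ≤ ∑ n ∈ Finset.Icc 1 N, μ.real (⋂ j ∈ Finset.range (k + 1), T^[j * (W * n)] ⁻¹' A) := by
    refine (Finset.sum_le_sum (f := fun _ => c) (g := fun n => μ.real (⋂ j ∈ Finset.range (k + 1), T^[j * (W * n)] ⁻¹' A)) ?_).trans
      (Finset.sum_le_sum_of_subset_of_nonneg hsubs fun n _ _ => measureReal_nonneg)
    intro n hn
    rw [Finset.mem_image] at hn
    obtain ⟨r, hr, rfl⟩ := hn
    exact hd3 r
  refine le_trans ?_ hsum
  rw [Finset.sum_const, nsmul_eq_mul]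
  have hscard : s.card = M := by
    rw [hs, Nat.card_Icc]
    omega
  rw [hscard] at hcard
  have h1 : (M : ℝ) ≤ ((D : ℝ) + 1) * ((s.image fun r => r * d r).card : ℝ) := by
    exact_mod_cast hcard
  have h2 : (N : ℝ) ≤ 2 * (M : ℝ) * ((D : ℝ) + 1) := by
    exact_mod_cast hM3
  have hD : (0 : ℝ) < (D : ℝ) + 1 := by positivity
  have h3 : (N : ℝ) ≤ 2 * ((D : ℝ) + 1) ^ 2 * ((s.image fun r => r * d r).card : ℝ) := by
    nlinarith
  calc c / (2 * ((D : ℝ) + 1) ^ 2) * (N : ℝ) ≤ c / (2 * ((D : ℝ) + 1) ^ 2) * (2 * ((D : ℝ) + 1) ^ 2 * ((s.image fun r => r * d r).card : ℝ)) :=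
        mul_le_mul_of_nonneg_left h3 (by positivity)
    _ = ((s.image fun r => r * d r).card : ℝ) * c := by
        field_simp

end MRS
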