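import Pool.Agent.MRS.Dh0

/-! # MRS / Dh2: subspaces in insensitive sets

`few`: words with less than `M` letters of `α` are rare.  PROOF: choose `t` with `M * (1/(k+1))^t ≤ ε` (`k = card α ≥ 1`), `N = M * t`; split `ι = Fin (M * t) ⊕ κ`, `Fin (M * t) ≃ Fin M × Fin t`; if every one of the `M` blocks of `t` coordinates contains a letter of `α` then there are at least `M` of them; the words which are `none` on a given block have density `(1/(k+1))^t`.
(Or any other proof, for instance with `choose`.)  `nonone`: the words without `none` have density `(k/(k+1))^n`.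

PROOF of `ins_sub`: `M = N(m, ε/2)` from `MDHJ`; `N` from `few M (ε/4)`.  For `S : Set ι` let `B_S = {z : {i // i ∉ S} → α | (word with letters none on S and z outside) ∈ B}`.  The words `x` correspond to the pairs (`S = {i | x i = none}`, `z`).  If `dn B_S < ε/2` for all `S` with at least `M` elements in the complement then
`card B ≤ card few + ∑_S (ε/2) k^(card Sᶜ) ≤ (ε/4 + ε/2) (k+1)^n`, contradiction.  So there is `S` with `card Sᶜ ≥ M` and `dn B_S ≥ ε/2`; `MDHJ` gives `v₀ : {i // i ∉ S} → α ⊕ Fin m`, all its points in `B_S`.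
`v i = Sum.inl none` for `i ∈ S`, `v i = Sum.map some id (v₀ i)` otherwise.  For `s : Fin m → Option α` the point `ev v s` is obtained from the point with parameters `fun j => some ((s j).getD a)` by changing letters `a` to `none`, so it is in `B`.
-/

set_option autoImplicit false
set_option linter.unusedVariables false

namespace MRS

theorem nonone (α : Type) [Finite α] {ε : ℝ} (hε : 0 < ε) :
    ∃ N : ℕ, ∀ (ι : Type) [Finite ι], N ≤ Nat.card ι → dn {x : ι → Option α | ∀ i, x i ≠ none} ≤ ε := by
  set k : ℕ := Nat.card α with hk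
  have hr0 : (0 : ℝ) ≤ (k : ℝ) / ((k : ℝ) + 1) := by positivity
  have hr1 : (k : ℝ) / ((k : ℝ) + 1) < 1 := by
    rw [div_lt_one (by positivity)]
    linarith
  obtain ⟨N, hN⟩ := exists_pow_lt_of_lt_one hε hr1
  refine ⟨N, fun ι _ hι => ?_⟩
  have hset : {x : ι → Option α | ∀ i, x i ≠ none} =
      Set.range (fun (y : ι → α) (i : ι) => some (y i)) := by
    ext x
    constructor
    · intro hx
      have hx' : ∀ i, ∃ a, some a = x i := by
        intro i
        obtain ⟨a, ha⟩ := Option.ne_none_iff_exists.1 (hx i)
        exact ⟨a, ha⟩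
      choose y hy using hx'
      exact ⟨y, funext hy⟩
    · rintro ⟨y, rfl⟩ i
      exact Option.some_ne_none _
  have hinj : Function.Injective (fun (y : ι → α) (i : ι) => some (y i)) := by
    intro y y' h
    funext i
    exact Option.some_injective _ (congrFun h i)
  have hcard : {x : ι → Option α | ∀ i, x i ≠ none}.ncard = k ^ Nat.card ι := by
    rw [hset, ← Set.image_univ, Set.ncard_image_of_injective _ hinj, Set.ncard_univ, Nat.card_fun]
  have hcard2 : Nat.card (ι → Option α) = (k + 1) ^ Nat.card ι := by
    rw [Nat.card_fun, Finite.card_option]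
  unfold dn
  rw [hcard, hcard2]
  push_cast
  rw [← div_pow]
  exact (pow_le_pow_of_le_one hr0 hr1.le hι).trans hN.le

open Classical in
/-- the word coded by a list of letters -/
private noncomputable def few_word {ι α : Type} {M : ℕ} (c : Fin M → Option (ι × α)) : ι → Option α :=
  fun i => if h : ∃ a, ∃ j, c j = some (i, a) then some h.choose else none

private theorem few_range {ι α : Type} [Finite ι] (M : ℕ) (x : ι → Option α)
    (hx : Nat.card {i // x i ≠ none} < M) : ∃ c : Fin M → Option (ι × α), few_word c = x := by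
  classical
  let e : {i // x i ≠ none} → Fin M := fun s => Fin.castLE hx.le (Finite.equivFin _ s)
  have he : Function.Injective e := by
    intro s s' h
    exact (Finite.equivFin _).injective (Fin.castLE_injective hx.le h)
  let c : Fin M → Option (ι × α) := fun j => if h : ∃ s : {i // x i ≠ none}, e s = j then
    (x h.choose.1).map fun a => (h.choose.1, a) else none
  have hc : ∀ j i a, c j = some (i, a) → x i = some a := by
    intro j i a h
    by_cases hj : ∃ s : {i // x i ≠ none}, e s = j
    · have h1 : c j = (x hj.choose.1).map fun a => (hj.choose.1, a) := dif_pos hj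
      rw [h1] at h
      obtain ⟨b, hb, hb2⟩ := Option.map_eq_some_iff.1 h
      have h2 : hj.choose.1 = i := congrArg Prod.fst hb2
      have h3 : b = a := congrArg Prod.snd hb2
      rw [← h2, hb, h3]
    · have h1 : c j = none := dif_neg hj
      rw [h1] at h
      exact absurd h (by simp)
  refine ⟨c, ?_⟩
  funext i
  unfold few_word
  by_cases hi : x i = none
  · rw [dif_neg, hi]
    rintro ⟨a, j, h⟩
    rw [hc j i a h] at hi
    exact absurd hi (by simp)
  · obtain ⟨a, ha⟩ := Option.ne_none_iff_exists'.1 hi
    have hex : ∃ a, ∃ j, c j = some (i, a) := by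
      refine ⟨a, e ⟨i, hi⟩, ?_⟩
      have hj : ∃ s : {i // x i ≠ none}, e s = e ⟨i, hi⟩ := ⟨⟨i, hi⟩, rfl⟩
      have h1 : c (e ⟨i, hi⟩) = (x hj.choose.1).map fun a => (hj.choose.1, a) := dif_pos hj
      have h2 : hj.choose = ⟨i, hi⟩ := he hj.choose_spec
      rw [h1, h2]
      show (x i).map _ = _
      rw [ha]
      rfl
    rw [dif_pos hex]
    obtain ⟨j, hj⟩ := hex.choose_spec
    exact (hc j i _ hj).symm

theorem few (α : Type) [Finite α] [Nonempty α] (M : ℕ) {ε : ℝ} (hε : 0 < ε) :
    ∃ N : ℕ, ∀ (ι : Type) [Finite ι], N ≤ Nat.card ι → dn {x : ι → Option α | Nat.card {i // x i ≠ none} < M} ≤ ε := by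
  set k : ℕ := Nat.card α with hk
  have hk1 : 1 ≤ k := Nat.card_pos
  have hr : (1 : ℝ) < (k : ℝ) + 1 := by
    have : (1 : ℝ) ≤ (k : ℝ) := by exact_mod_cast hk1
    linarith
  have hlim := tendsto_pow_const_div_const_pow_of_one_lt M hr
  have hlim2 := hlim.const_mul (((k : ℝ) + 1) ^ M)
  rw [mul_zero] at hlim2
  have hev := (hlim2.eventually_lt_const hε).and (Filter.eventually_ge_atTop 1)
  obtain ⟨N, hN⟩ := Filter.eventually_atTop.1 hev
  refine ⟨N, fun ι _ hι => ?_⟩
  obtain ⟨h1, h2⟩ := hN (Nat.card ι) hι
  set n : ℕ := Nat.card ι with hn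
  have hcard : {x : ι → Option α | Nat.card {i // x i ≠ none} < M}.ncard ≤ (n * k + 1) ^ M := by
    have hsub : {x : ι → Option α | Nat.card {i // x i ≠ none} < M} ⊆
        Set.range (few_word : (Fin M → Option (ι × α)) → ι → Option α) := by
      intro x hx
      obtain ⟨c, hc⟩ := few_range M x hx
      exact ⟨c, hc⟩
    have h3 : (Set.range (few_word : (Fin M → Option (ι × α)) → ι → Option α)).ncard ≤
        Nat.card (Fin M → Option (ι × α)) := by
      rw [← Set.image_univ, ← Set.ncard_univ]
      exact Set.ncard_image_le (Set.toFinite _)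
    have h4 : Nat.card (Fin M → Option (ι × α)) = (n * k + 1) ^ M := by
      rw [Nat.card_fun, Finite.card_option, Nat.card_prod, Nat.card_eq_fintype_card (α := Fin M),
        Fintype.card_fin]
    rw [← h4]
    exact (Set.ncard_le_ncard hsub (Set.toFinite _)).trans h3
  have hcard2 : Nat.card (ι → Option α) = (k + 1) ^ n := by
    rw [Nat.card_fun, Finite.card_option]
  unfold dn
  rw [hcard2]
  have h5 : ((({x : ι → Option α | Nat.card {i // x i ≠ none} < M}).ncard : ℕ) : ℝ) ≤
      ((k : ℝ) + 1) ^ M * (n : ℝ) ^ M := by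
    calc ((({x : ι → Option α | Nat.card {i // x i ≠ none} < M}).ncard : ℕ) : ℝ)
        ≤ (((n * k + 1) ^ M : ℕ) : ℝ) := by exact_mod_cast hcard
      _ = ((n : ℝ) * k + 1) ^ M := by push_cast; ring
      _ ≤ (((k : ℝ) + 1) * n) ^ M := by
          apply pow_le_pow_left₀ (by positivity)
          have : (1 : ℝ) ≤ (n : ℝ) := by exact_mod_cast h2
          nlinarith
      _ = ((k : ℝ) + 1) ^ M * (n : ℝ) ^ M := mul_pow _ _ _
  have h6 : (0 : ℝ) < ((k : ℝ) + 1) ^ n := by positivity
  push_cast
  rw [div_le_iff₀ h6]
  have h7 : ((k : ℝ) + 1) ^ M * ((n : ℝ) ^ M / ((k : ℝ) + 1) ^ n) < ε := h1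
  rw [← mul_div_assoc, div_lt_iff₀ h6] at h7
  linarith

/-- the word with letters `none` on `S` and `z` outside -/
private noncomputable def fillw {ι α : Type} (S : Set ι) (z : {i // i ∉ S} → α) : ι → Option α :=
  open Classical in fun i => if h : i ∈ S then none else some (z ⟨i, h⟩)

private theorem fillw_inj {ι α : Type} (S : Set ι) :
    Function.Injective (fillw S : ({i // i ∉ S} → α) → ι → Option α) := by
  classical
  intro z z' h
  funext i
  have h1 := congrFun h i.1
  unfold fillw at h1
  rw [dif_neg i.2, dif_neg i.2] at h1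
  exact Option.some_injective _ h1

private theorem fillw_range {ι α : Type} (S : Set ι) :
    Set.range (fillw S : ({i // i ∉ S} → α) → ι → Option α) = {x | {i | x i = none} = S} := by
  classical
  ext x
  constructor
  · rintro ⟨z, rfl⟩
    show {i | fillw S z i = none} = S
    ext i
    unfold fillw
    by_cases h : i ∈ S
    · simp [h]
    · simp [h]
  · intro hx
    have hx' : {i | x i = none} = S := hx
    have h1 : ∀ i : {i // i ∉ S}, ∃ a, x i.1 = some a := by
      intro i
      apply Option.ne_none_iff_exists'.1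
      intro h
      have h' : i.1 ∈ {i | x i = none} := h
      exact i.2 (hx'.subset h')
    choose z hz using h1
    refine ⟨z, ?_⟩
    funext i
    unfold fillw
    by_cases h : i ∈ S
    · rw [dif_pos h]
      rw [← hx'] at h
      exact h.symm
    · rw [dif_neg h]
      exact (hz ⟨i, h⟩).symm

private theorem cell_card {ι α : Type} [Finite ι] [Finite α] (S : Set ι) (B : Set (ι → Option α)) :
    (B ∩ {x | {i | x i = none} = S}).ncard = {z : {i // i ∉ S} → α | fillw S z ∈ B}.ncard := by
  rw [← fillw_range S, ← Set.image_preimage_eq_inter_range,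
    Set.ncard_image_of_injective _ (fillw_inj S)]
  rfl

theorem ins_sub {α : Type} [Finite α] [Nonempty α] (h : MDHJ α) (m : ℕ) {ε : ℝ} (hε : 0 < ε) :
    ∃ N : ℕ, ∀ (ι : Type) [Finite ι], N ≤ Nat.card ι → ∀ (a : α) (B : Set (ι → Option α)), Ins a B → ε ≤ dn B →
      ∃ v : ι → Option α ⊕ Fin m, Pr v ∧ ∀ s, ev v s ∈ B := by
  classical
  obtain ⟨M, hM⟩ := h m (ε / 2) (by linarith)
  obtain ⟨N, hN⟩ := few α M (show 0 < ε / 4 by linarith)
  refine ⟨N, fun ι _ hι a B hB hdn => ?_⟩
  have hfew := hN ι hι
  -- there is a good S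
  have hS : ∃ S : Set ι, M ≤ Nat.card {i // i ∉ S} ∧ ε / 2 ≤ dn {z : {i // i ∉ S} → α | fillw S z ∈ B} := by
    by_contra hcon
    push Not at hcon
    let _ : Fintype (Set ι) := Fintype.ofFinite _
    set F : Set (ι → Option α) := {x : ι → Option α | Nat.card {i // x i ≠ none} < M} with hF
    have hcell : ∀ S : Set ι, dn ((B \ F) ∩ {x | {i | x i = none} = S}) ≤
        ε / 2 * dn (Set.univ ∩ {x : ι → Option α | {i | x i = none} = S}) := by
      intro S
      by_cases hMS : M ≤ Nat.card {i // i ∉ S}
      · have h1 := hcon S hMS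
        have h2 : dn ((B \ F) ∩ {x | {i | x i = none} = S}) ≤ dn (B ∩ {x | {i | x i = none} = S}) :=
          dn_mono (Set.inter_subset_inter_left _ Set.sdiff_subset)
        refine h2.trans ?_
        unfold dn at h1 ⊢
        rw [cell_card S B, cell_card S Set.univ]
        have h3 : {z : {i // i ∉ S} → α | fillw S z ∈ (Set.univ : Set (ι → Option α))}.ncard =
            Nat.card ({i // i ∉ S} → α) := by
          rw [← Set.ncard_univ]
          congr 1
        rw [h3, ← mul_div_assoc]
        apply div_le_div_of_nonneg_right _ (Nat.cast_nonneg _)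
        have h4 : (0 : ℝ) < (Nat.card ({i // i ∉ S} → α) : ℝ) := by
          have : 0 < Nat.card ({i // i ∉ S} → α) := Nat.card_pos
          exact_mod_cast this
        rw [div_lt_iff₀ h4] at h1
        exact h1.le
      · have h1 : (B \ F) ∩ {x | {i | x i = none} = S} = ∅ := by
          ext x
          constructor
          · rintro ⟨⟨_, hxF⟩, hxS⟩
            exfalso
            apply hxF
            show Nat.card {i // x i ≠ none} < M
            have h2 : Nat.card {i // x i ≠ none} = Nat.card {i // i ∉ S} := by
              apply Nat.card_congr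
              apply Equiv.subtypeEquivRight
              intro i
              have h3 : {i | x i = none} = S := hxS
              rw [← h3]
              rfl
            rw [h2]
            omega
          · intro hx
            exact absurd hx (Set.notMem_empty _)
        rw [h1, dn_empty]
        exact mul_nonneg (by linarith) (dn_nonneg _)
    have hdisj : ∀ S S' : Set ι, S ≠ S' →
        Disjoint {x : ι → Option α | {i | x i = none} = S} {x : ι → Option α | {i | x i = none} = S'} := by
      intro S S' hne
      rw [Set.disjoint_left]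
      intro x h1 h2
      exact hne (h1.symm.trans h2)
    have h1 := dn_sum (B \ F) (fun S : Set ι => {x : ι → Option α | {i | x i = none} = S}) hdisj
      (fun x _ => ⟨_, rfl⟩)
    have h2 := dn_sum (Set.univ : Set (ι → Option α))
      (fun S : Set ι => {x : ι → Option α | {i | x i = none} = S}) hdisj (fun x _ => ⟨_, rfl⟩)
    rw [dn_univ] at h2
    have h3 : dn (B \ F) ≤ ε / 2 := by
      rw [h1]
      calc ∑ c, dn ((B \ F) ∩ {x : ι → Option α | {i | x i = none} = c})
          ≤ ∑ c, ε / 2 * dn (Set.univ ∩ {x : ι → Option α | {i | x i = none} = c}) :=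
            Finset.sum_le_sum fun c _ => hcell c
        _ = ε / 2 := by rw [← Finset.mul_sum, ← h2, mul_one]
    have h4 : dn B ≤ dn (F ∪ (B \ F)) := dn_mono (by
      intro x hx
      by_cases hxF : x ∈ F
      · exact Or.inl hxF
      · exact Or.inr ⟨hx, hxF⟩)
    have h5 := dn_union_le F (B \ F)
    linarith
  obtain ⟨S, hS1, hS2⟩ := hS
  obtain ⟨v₀, hv₀, hv₀'⟩ := hM {i // i ∉ S} hS1 _ hS2
  refine ⟨fun i => if h : i ∈ S then Sum.inl none else Sum.map some id (v₀ ⟨i, h⟩), ?_, ?_⟩
  · intro e
    obtain ⟨i, hi⟩ := hv₀ e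
    refine ⟨i.1, ?_⟩
    show (if h : i.1 ∈ S then Sum.inl none else Sum.map some id (v₀ ⟨i.1, h⟩)) = Sum.inr e
    rw [dif_neg i.2]
    show Sum.map some id (v₀ i) = Sum.inr e
    rw [hi]
    rfl
  · intro s
    have h1 : fillw S (ev v₀ fun j => (s j).getD a) ∈ B := hv₀' fun j => (s j).getD a
    refine (hB _ _ ?_).2 h1
    intro i
    unfold ev fillw
    by_cases hi : i ∈ S
    · left
      simp [hi]
    · simp only [hi, dif_neg, not_false_eq_true]
      rcases hv : v₀ ⟨i, hi⟩ with b | j
      · left
        rfl
      · show (s j = some ((s j).getD a)) ∨ ((s j = none ∨ s j = some a) ∧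
          (some ((s j).getD a) = none ∨ some ((s j).getD a) = some a))
        rcases hs : s j with _ | b
        · right
          exact ⟨Or.inl rfl, Or.inr rfl⟩
        · left
          rfl

end MRS
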