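import Pool.Agent.MRS.Dh2

/-! # MRS / Dh3: almost partition of an insensitive set into subspaces

PROOF of `cov_ins`.  `M` from `ins_sub` for `m`, `ε/2`; `θ = (ε/2) / Nat.card (Fin M → Option α ⊕ Fin m)`, `0 < θ ≤ 1`.  CLAIM: for every `R` there is `N` such that for `N ≤ card ι` every `B` with `Ins a B` has `Cov m B (ε + (1-θ)^R * dn B)`.  (Then take `R` with `(1-θ)^R ≤ ε`, and `ε/2` for `ε`.)
`R = 0`: `J = ∅`.  `R → R + 1`: `N = max (N_R + M)`.  If `dn B ≤ ε` take `J = ∅`.  Otherwise split `ι = Fin M ⊕ κ`.  For `y : κ → Option α` the set `B^y = {t | Sum.elim t y ∈ B}` is insensitive; `dn_many` and `ins_sub` for the `y` with `dn B^y ≥ ε/2`, `dn_pigeon`: there is a proper `V : Fin M → Option α ⊕ Fin m` such that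
`T = {y | ∀ s, Sum.elim (ev V s) y ∈ B}` has density at least `θ`.  For `t : Fin M → Option α` let `B_t = {y | Sum.elim t y ∈ B ∧ ¬ (t ∈ range (ev V) ∧ y ∈ T)}`: it is insensitive (`T` is).  Induction: `J_t` for `B_t`.
`J = {Sum.elim V (Sum.inl ∘ y) | y ∈ T} ∪ ⋃_t {Sum.elim (Sum.inl ∘ t) v | v ∈ J_t}`.  Disjointness is clear.  What is left of `B` is the union over `t` of what is left of `B_t`: by `dn_fib_le` its density is at most `ε + (1-θ)^R * dn B'`, `B' = {(t, y) | y ∈ B_t}`, `dn B' ≤ dn B - dn (range (ev V) × T)`.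
ATTENTION: `dn (range (ev V) × T)` is only `(k+1)^(m-M) * dn T`, so use `θ = (ε/2) / (Nat.card (Fin M → Option α ⊕ Fin m) * Nat.card (Fin M → Option α))`; then `dn B' ≤ dn B - θ ≤ (1-θ) * dn B`.
-/

set_option autoImplicit false
set_option linter.unusedVariables false

namespace MRS

private theorem dh3_mono {ι β : Type} {m : ℕ} {B : Set (ι → β)} {ε ε' : ℝ} (h : Cov m B ε)
    (he : ε ≤ ε') : Cov m B ε' := by
  obtain ⟨J, h1, h2, h3⟩ := h
  exact ⟨J, h1, h2, h3.trans he⟩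

private theorem dh3_empty {ι β : Type} [Finite ι] [Finite β] {m : ℕ} {B : Set (ι → β)} {ε : ℝ}
    (h : dn B ≤ ε) : Cov m B ε := by
  refine ⟨∅, fun v hv => absurd hv (Set.notMem_empty v), fun v hv => absurd hv (Set.notMem_empty v),
    ?_⟩
  exact (dn_mono (fun x hx => hx.1)).trans h

private theorem dh3_reindex {ι κ β : Type} [Finite ι] [Finite κ] [Finite β] {m : ℕ}
    (B : Set (ι → β)) (e : κ ≃ ι) {ε : ℝ}
    (h : Cov m {s : κ → β | (fun i => s (e.symm i)) ∈ B} ε) : Cov m B ε := by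
  obtain ⟨J, h1, h2, h3⟩ := h
  have hev : ∀ (v : ι → β ⊕ Fin m) (s : Fin m → β) (i : ι),
      ev (fun k => v (e k)) s (e.symm i) = ev v s i := by
    intro v s i
    show Sum.elim id s (v (e (e.symm i))) = Sum.elim id s (v i)
    rw [e.apply_symm_apply]
  refine ⟨{v | (fun k => v (e k)) ∈ J}, ?_, ?_, ?_⟩
  · intro v hv
    obtain ⟨ha, hb⟩ := h1 _ hv
    refine ⟨?_, ?_⟩
    · intro j
      obtain ⟨k, hk⟩ := ha j
      exact ⟨e k, hk⟩
    · intro s
      have h4 : (fun i => ev (fun k => v (e k)) s (e.symm i)) ∈ B := hb s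
      have h5 : (fun i => ev (fun k => v (e k)) s (e.symm i)) = ev v s := funext fun i => hev v s i
      rwa [h5] at h4
  · intro v hv v' hv' hne s s' heq
    refine h2 _ hv _ hv' ?_ s s' ?_
    · intro h4
      apply hne
      funext i
      have h5 := congrFun h4 (e.symm i)
      simpa only [e.apply_symm_apply] using h5
    · funext k
      exact congrFun heq (e k)
  · rw [← dn_reindex _ e]
    refine le_trans (dn_mono ?_) h3
    rintro y ⟨hy1, hy2⟩
    refine ⟨hy1, ?_⟩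
    intro u hu s heq
    have hmem : (fun i => u (e.symm i)) ∈ {v : ι → β ⊕ Fin m | (fun k => v (e k)) ∈ J} := by
      have h4 : (fun k => u (e.symm (e k))) = u := funext fun k => by rw [e.symm_apply_apply]
      show (fun k => u (e.symm (e k))) ∈ J
      rw [h4]
      exact hu
    apply hy2 _ hmem s
    funext i
    rw [← heq]
    rfl

private theorem dh3_point {X Y : Type} [Finite X] [Finite Y] [Nonempty X] [Nonempty Y] (t : X)
    (T : Set Y) : dn (({t} : Set X) ×ˢ T) = dn T / (Nat.card X : ℝ) := by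
  unfold dn
  rw [Set.ncard_prod, Set.ncard_singleton, one_mul, Nat.card_prod, Nat.cast_mul, div_div,
    mul_comm (Nat.card X : ℝ)]

/-- one step of the construction, on a product -/
private theorem dh3_step {α κ : Type} [Finite α] [Nonempty α] [Finite κ] {m M : ℕ}
    {δ θ r : ℝ} (hδ : 0 < δ) (hr : 0 ≤ r)
    (hM : ∀ (a : α) (B : Set (Fin M → Option α)), Ins a B → δ / 2 ≤ dn B →
      ∃ v : Fin M → Option α ⊕ Fin m, Pr v ∧ ∀ s, ev v s ∈ B)
    (hθ : θ = δ / 2 / (Nat.card (Fin M → Option α ⊕ Fin m) : ℝ) /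
      (Nat.card (Fin M → Option α) : ℝ)) (a : α)
    (hI : ∀ B : Set (κ → Option α), Ins a B → Cov m B (δ + r * dn B))
    (B : Set (Fin M ⊕ κ → Option α)) (hB : Ins a B) (hd : δ ≤ dn B) :
    Cov m B (δ + r * ((1 - θ) * dn B)) := by
  classical
  -- the good fibres
  have hA : dn {q : (Fin M → Option α) × (κ → Option α) | Sum.elim q.1 q.2 ∈ B} = dn B := dn_words B
  have hA' : dn {q : (κ → Option α) × (Fin M → Option α) | Sum.elim q.2 q.1 ∈ B} = dn B := by
    rw [← hA]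
    exact dn_swap {q : (Fin M → Option α) × (κ → Option α) | Sum.elim q.1 q.2 ∈ B}
  have hG := dn_many {q : (κ → Option α) × (Fin M → Option α) | Sum.elim q.2 q.1 ∈ B} hδ.le
    (by rw [hA']; exact hd)
  have hfib : ∀ y : κ → Option α, Ins a {t : Fin M → Option α | Sum.elim t y ∈ B} := by
    intro y t t' htt
    refine hB _ _ ?_
    rintro (i | j)
    · exact htt i
    · exact Or.inl rfl
  obtain ⟨V, hV⟩ := dn_pigeon (C := Fin M → Option α ⊕ Fin m)
    {y : κ → Option α | δ / 2 ≤ dn {t : Fin M → Option α | (y, t) ∈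
      {q : (κ → Option α) × (Fin M → Option α) | Sum.elim q.2 q.1 ∈ B}}}
    (fun c => {y | Pr c ∧ ∀ s, Sum.elim (ev c s) y ∈ B}) (by
      intro y hy
      obtain ⟨v, hv1, hv2⟩ := hM a _ (hfib y) hy
      exact ⟨v, hv1, hv2⟩)
  set c1 : ℝ := (Nat.card (Fin M → Option α ⊕ Fin m) : ℝ) with hc1
  set c2 : ℝ := (Nat.card (Fin M → Option α) : ℝ) with hc2
  have hc1pos : 0 < c1 := by
    rw [hc1]
    exact_mod_cast Nat.card_pos
  have hc2pos : 0 < c2 := by
    rw [hc2]
    exact_mod_cast Nat.card_pos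
  have hT0 : δ / 2 / c1 ≤ dn {y : κ → Option α | Pr V ∧ ∀ s, Sum.elim (ev V s) y ∈ B} :=
    (div_le_div_of_nonneg_right hG hc1pos.le).trans hV
  have hPr : Pr V := by
    have hpos : 0 < dn {y : κ → Option α | Pr V ∧ ∀ s, Sum.elim (ev V s) y ∈ B} :=
      lt_of_lt_of_le (by positivity) hT0
    obtain ⟨y, hy, -⟩ := dn_pos hpos
    exact hy
  set T : Set (κ → Option α) := {y | ∀ s, Sum.elim (ev V s) y ∈ B} with hT
  have hT1 : δ / 2 / c1 ≤ dn T := hT0.trans (dn_mono fun y hy => hy.2)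
  have hTins : Ins a T := by
    intro y y' hyy
    have key : ∀ s, Sum.elim (ev V s) y ∈ B ↔ Sum.elim (ev V s) y' ∈ B := by
      intro s
      refine hB _ _ ?_
      rintro (i | j)
      · exact Or.inl rfl
      · exact hyy j
    exact ⟨fun h s => (key s).1 (h s), fun h s => (key s).2 (h s)⟩
  -- the rest
  have hBt : ∀ t : Fin M → Option α, Ins a
      {y : κ → Option α | Sum.elim t y ∈ B ∧ ¬ (t ∈ Set.range (ev V) ∧ y ∈ T)} := by
    intro t y y' hyy
    have h1 : Sum.elim t y ∈ B ↔ Sum.elim t y' ∈ B := by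
      refine hB _ _ ?_
      rintro (i | j)
      · exact Or.inl rfl
      · exact hyy j
    have h2 := hTins y y' hyy
    show (Sum.elim t y ∈ B ∧ ¬ (t ∈ Set.range (ev V) ∧ y ∈ T)) ↔
      (Sum.elim t y' ∈ B ∧ ¬ (t ∈ Set.range (ev V) ∧ y' ∈ T))
    rw [h1, h2]
  have hJ := fun t => hI _ (hBt t)
  choose J hJ1 hJ2 hJ3 using hJ
  have hev1 : ∀ (y : κ → Option α) (s : Fin m → Option α),
      ev (Sum.elim V (fun k => Sum.inl (y k))) s = Sum.elim (ev V s) y := by
    intro y s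
    funext i
    rcases i with i | j
    · rfl
    · rfl
  have hev2 : ∀ (t : Fin M → Option α) (v : κ → Option α ⊕ Fin m) (s : Fin m → Option α),
      ev (Sum.elim (fun k => Sum.inl (t k)) v) s = Sum.elim t (ev v s) := by
    intro t v s
    funext i
    rcases i with i | j
    · rfl
    · rfl
  have hinjl : ∀ {t t' : Fin M → Option α} {y y' : κ → Option α},
      Sum.elim t y = Sum.elim t' y' → t = t' ∧ y = y' := by
    intro t t' y y' h
    exact ⟨funext fun i => congrFun h (Sum.inl i), funext fun j => congrFun h (Sum.inr j)⟩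
  refine ⟨{u | (∃ y ∈ T, u = Sum.elim V (fun k => Sum.inl (y k))) ∨
    ∃ t, ∃ v ∈ J t, u = Sum.elim (fun k => Sum.inl (t k)) v}, ?_, ?_, ?_⟩
  · rintro u (⟨y, hy, rfl⟩ | ⟨t, v, hv, rfl⟩)
    · refine ⟨?_, ?_⟩
      · intro j
        obtain ⟨i, hi⟩ := hPr j
        exact ⟨Sum.inl i, hi⟩
      · intro s
        rw [hev1]
        exact hy s
    · obtain ⟨h1, h2⟩ := hJ1 t v hv
      refine ⟨?_, ?_⟩
      · intro j
        obtain ⟨i, hi⟩ := h1 j
        exact ⟨Sum.inr i, hi⟩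
      · intro s
        rw [hev2]
        exact (h2 s).1
  · rintro u (⟨y, hy, rfl⟩ | ⟨t, v, hv, rfl⟩) u' (⟨y', hy', rfl⟩ | ⟨t', v', hv', rfl⟩) hne s s' heq
    · rw [hev1, hev1] at heq
      exact hne (by rw [(hinjl heq).2])
    · rw [hev1, hev2] at heq
      obtain ⟨h1, h2⟩ := hinjl heq
      refine ((hJ1 t' v' hv').2 s').2 ⟨⟨s, h1⟩, ?_⟩
      rw [← h2]
      exact hy
    · rw [hev1, hev2] at heq
      obtain ⟨h1, h2⟩ := hinjl heq
      refine ((hJ1 t v hv).2 s).2 ⟨⟨s', h1.symm⟩, ?_⟩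
      rw [h2]
      exact hy'
    · rw [hev2, hev2] at heq
      obtain ⟨h1, h2⟩ := hinjl heq
      subst h1
      refine hJ2 t v hv v' hv' ?_ s s' h2
      intro h3
      exact hne (by rw [h3])
  · rw [← dn_words]
    have h1 : dn {q : (Fin M → Option α) × (κ → Option α) | Sum.elim q.1 q.2 ∈
        {x : Fin M ⊕ κ → Option α | x ∈ B ∧ ∀ v ∈ {u | (∃ y ∈ T, u = Sum.elim V (fun k =>
          Sum.inl (y k))) ∨ ∃ t, ∃ v ∈ J t, u = Sum.elim (fun k => Sum.inl (t k)) v},
          ∀ s, ev v s ≠ x}} ≤ δ + r * dn {q : (Fin M → Option α) × (κ → Option α) |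
            Sum.elim q.1 q.2 ∈ B ∧ ¬ (q.1 ∈ Set.range (ev V) ∧ q.2 ∈ T)} := by
      refine dn_fib_le _ _ _ _ fun t => ?_
      refine le_trans (dn_mono ?_) (hJ3 t)
      rintro y ⟨hy1, hy2⟩
      refine ⟨⟨hy1, ?_⟩, ?_⟩
      · rintro ⟨⟨s, hs⟩, hyT⟩
        refine hy2 _ (Or.inl ⟨y, hyT, rfl⟩) s ?_
        rw [hev1, hs]
      · intro v hv s hs
        refine hy2 _ (Or.inr ⟨t, v, hv, rfl⟩) s ?_
        rw [hev2, hs]
    refine h1.trans ?_
    have hsub : (Set.range (ev V)) ×ˢ T ⊆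
        {q : (Fin M → Option α) × (κ → Option α) | Sum.elim q.1 q.2 ∈ B} := by
      rintro ⟨t, y⟩ ⟨⟨s, hs⟩, hy⟩
      show Sum.elim t y ∈ B
      have hs' : ev V s = t := hs
      rw [← hs']
      exact hy s
    have hdiff : {q : (Fin M → Option α) × (κ → Option α) |
        Sum.elim q.1 q.2 ∈ B ∧ ¬ (q.1 ∈ Set.range (ev V) ∧ q.2 ∈ T)} =
        {q : (Fin M → Option α) × (κ → Option α) | Sum.elim q.1 q.2 ∈ B} \
          ((Set.range (ev V)) ×ˢ T) := by
      ext q
      exact Iff.rfl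
    have hone : δ / 2 / c1 / c2 ≤ dn ((Set.range (ev V)) ×ˢ T) := by
      have h2 : dn (({ev V (fun _ => none)} : Set (Fin M → Option α)) ×ˢ T) ≤
          dn ((Set.range (ev V)) ×ˢ T) := by
        refine dn_mono ?_
        rintro ⟨t, y⟩ ⟨ht, hy⟩
        exact ⟨⟨fun _ => none, (Set.mem_singleton_iff.1 ht).symm⟩, hy⟩
      rw [dh3_point] at h2
      exact (div_le_div_of_nonneg_right hT1 hc2pos.le).trans h2
    rw [hdiff, dn_diff hsub, hA]
    have hB1 := dn_le_one B
    have hθ0 : 0 ≤ θ := by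
      rw [hθ]
      positivity
    have h3 : dn B - dn ((Set.range (ev V)) ×ˢ T) ≤ (1 - θ) * dn B := by
      rw [← hθ] at hone
      nlinarith
    have h4 := mul_le_mul_of_nonneg_left h3 hr
    linarith

theorem cov_ins {α : Type} [Finite α] [Nonempty α] (h : MDHJ α) (m : ℕ) {ε : ℝ} (hε : 0 < ε) :
    ∃ N : ℕ, ∀ (ι : Type) [Finite ι], N ≤ Nat.card ι → ∀ (a : α) (B : Set (ι → Option α)), Ins a B → Cov m B ε := by
  classical
  set δ : ℝ := min (ε / 2) 1 with hδ
  have hδ0 : 0 < δ := lt_min (by linarith) one_pos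
  have hδ1 : δ ≤ 1 := min_le_right _ _
  have hδε : δ ≤ ε / 2 := min_le_left _ _
  obtain ⟨M, hM⟩ := ins_sub h m (half_pos hδ0)
  set θ : ℝ := δ / 2 / (Nat.card (Fin M → Option α ⊕ Fin m) : ℝ) /
      (Nat.card (Fin M → Option α) : ℝ) with hθ
  have hc1 : (1 : ℝ) ≤ (Nat.card (Fin M → Option α ⊕ Fin m) : ℝ) := by
    exact_mod_cast Nat.card_pos
  have hc2 : (1 : ℝ) ≤ (Nat.card (Fin M → Option α) : ℝ) := by
    exact_mod_cast Nat.card_pos
  have hθ0 : 0 < θ := by
    rw [hθ]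
    positivity
  have hθ1 : θ ≤ 1 := by
    rw [hθ, div_div, div_le_one (by positivity)]
    nlinarith
  have hfin : Nat.card (Fin M) = M := by
    rw [Nat.card_eq_fintype_card, Fintype.card_fin]
  have key : ∀ R : ℕ, ∃ N : ℕ, ∀ (ι : Type) [Finite ι], N ≤ Nat.card ι →
      ∀ (a : α) (B : Set (ι → Option α)), Ins a B → Cov m B (δ + (1 - θ) ^ R * dn B) := by
    intro R
    induction R with
    | zero =>
      refine ⟨0, fun ι _ _ a B _ => dh3_empty ?_⟩
      rw [pow_zero, one_mul]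
      linarith
    | succ R ih =>
      obtain ⟨N, hN⟩ := ih
      refine ⟨N + M, fun ι _ hι a B hB => ?_⟩
      have hpow : 0 ≤ (1 - θ) ^ R := pow_nonneg (by linarith) R
      by_cases hd : δ ≤ dn B
      · obtain ⟨κ, hκ, hcard, ⟨e⟩⟩ := exists_split (ι := ι) M (by omega)
        have hstep := dh3_step (m := m) (M := M) (κ := κ) (θ := θ) (r := (1 - θ) ^ R) hδ0 hpow
          (fun a' B' hB' hd' => hM (Fin M) (by rw [hfin]) a' B' hB' hd') hθ a
          (fun B' hB' => hN κ (by omega) a B' hB')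
          {s : Fin M ⊕ κ → Option α | (fun i => s (e.symm i)) ∈ B} (by
            intro x y hxy
            exact hB _ _ fun i => hxy (e.symm i)) (by
            rw [dn_reindex]
            exact hd)
        rw [dn_reindex] at hstep
        have := dh3_reindex B e hstep
        rw [pow_succ, mul_assoc]
        exact this
      · refine dh3_empty ?_
        have h1 := dn_nonneg B
        have h2 : 0 ≤ (1 - θ) ^ (R + 1) * dn B := mul_nonneg (pow_nonneg (by linarith) _) h1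
        linarith [not_le.1 hd]
  obtain ⟨R, hR⟩ := exists_pow_lt_of_lt_one (half_pos hε) (show 1 - θ < 1 by linarith)
  obtain ⟨N, hN⟩ := key R
  refine ⟨N, fun ι _ hι a B hB => dh3_mono (hN ι hι a B hB) ?_⟩
  have h1 := dn_nonneg B
  have h2 := dn_le_one B
  have h3 : 0 ≤ (1 - θ) ^ R := pow_nonneg (by linarith) R
  have h4 : (1 - θ) ^ R * dn B ≤ (1 - θ) ^ R * 1 := mul_le_mul_of_nonneg_left h2 h3
  linarith

end MRS
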