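import Pool.Agent.MRS.Dh3

/-! # MRS / Dh4: almost partition of an intersection of insensitive sets

PROOFS.
* `cov_univ`: `ι = Fin m ⊕ κ`; `J` = all `Sum.elim Sum.inr (Sum.inl ∘ c)`, `c : κ → β`.
* `Cov.trans`: `J₁` for `B`; for `v ∈ J₁` let `J_v` be a family for `{s | ev v s ∈ D}`; `J = {cmp v u | v ∈ J₁, u ∈ J_v}` (`ev_cmp`, `Pr_cmp`).  Disjointness: different `v`: disjoint; the same `v`: `ev_inj`.  What is left of `B ∩ D` is contained in what is left of `B` by `J₁` together with the images under `ev v` of what is left of `{s | ev v s ∈ D}` by `J_v`;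
  the image under `ev v` of a set of density at most `ε₂` has density at most `ε₂ * dn (range (ev v))`, and the ranges are disjoint, so the sum is at most `ε₂`.
* `Ins.pull`: clear from the definitions.
* `cov_inter`: induction on `S`.  `S = ∅`: `cov_univ`.  `insert b S`: `N'` from the induction for `m`, `ε/2`; `cov_ins` for `N'`, `ε/2` and `B b`, then `Cov.trans` with `D = {x | ∀ a ∈ S, x ∈ B a}`; the sets `{s | ev v s ∈ B a}` are insensitive (`Ins.pull`).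
* `Cov.incr`: if all `v ∈ J` had `dn {s | ev v s ∈ B} ≤ lam` then `dn (B ∩ D) ≤ ∑_v dn (B ∩ range (ev v)) + ε ≤ lam * ∑_v dn (range (ev v)) + ε ≤ lam * dn D + ε`.
-/

set_option autoImplicit false
set_option linter.unusedVariables false

namespace MRS

/-- the density of the image of a subset of a subspace -/
theorem dn_image {ι β : Type} [Finite ι] [Finite β] [Nonempty β] {m : ℕ} {v : ι → β ⊕ Fin m} (hv : Pr v) (A : Set (Fin m → β)) :
    dn (ev v '' A) = dn (Set.range (ev v)) * dn A := by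
  unfold dn
  rw [Set.ncard_image_of_injective A (ev_inj hv), ← Set.image_univ,
    Set.ncard_image_of_injective _ (ev_inj hv), Set.ncard_univ]
  have h1 : (0 : ℝ) < Nat.card (Fin m → β) := by exact_mod_cast Nat.card_pos
  field_simp

private theorem sum_ge42 {X C : Type} [Finite X] [DecidableEq C] (f : C → Set X) : ∀ F : Finset C,
    dn {x | ∃ v ∈ F, x ∈ f v} ≤ ∑ v ∈ F, dn (f v) := by
  intro F
  induction F using Finset.induction_on with
  | empty =>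
    have : {x : X | ∃ v ∈ (∅ : Finset C), x ∈ f v} = ∅ := by
      ext x
      simp
    rw [this, dn_empty, Finset.sum_empty]
  | insert a F ha ih =>
    rw [Finset.sum_insert ha]
    have : {x : X | ∃ v ∈ insert a F, x ∈ f v} ⊆ f a ∪ {x | ∃ v ∈ F, x ∈ f v} := by
      rintro x ⟨v, hv, hx⟩
      rcases Finset.mem_insert.1 hv with rfl | hv
      · exact Or.inl hx
      · exact Or.inr ⟨v, hv, hx⟩
    exact (dn_mono this).trans ((dn_union_le _ _).trans (by linarith))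

private theorem sum_le42 {X C : Type} [Finite X] [DecidableEq C] (f : C → Set X) : ∀ F : Finset C,
    (∀ v ∈ F, ∀ v' ∈ F, v ≠ v' → Disjoint (f v) (f v')) →
    ∑ v ∈ F, dn (f v) ≤ dn {x | ∃ v ∈ F, x ∈ f v} := by
  intro F
  induction F using Finset.induction_on with
  | empty =>
    intro _
    rw [Finset.sum_empty]
    exact dn_nonneg _
  | insert a F ha ih =>
    intro h
    rw [Finset.sum_insert ha]
    have h1 : Disjoint (f a) {x | ∃ v ∈ F, x ∈ f v} := by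
      rw [Set.disjoint_left]
      rintro x hx ⟨v, hv, hx'⟩
      refine Set.disjoint_left.1 (h a (Finset.mem_insert_self _ _) v (Finset.mem_insert_of_mem hv)
        ?_) hx hx'
      rintro rfl
      exact ha hv
    have h2 : f a ∪ {x | ∃ v ∈ F, x ∈ f v} ⊆ {x : X | ∃ v ∈ insert a F, x ∈ f v} := by
      rintro x (hx | ⟨v, hv, hx⟩)
      · exact ⟨a, Finset.mem_insert_self _ _, hx⟩
      · exact ⟨v, Finset.mem_insert_of_mem hv, hx⟩
    refine le_trans ?_ (dn_mono h2)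
    rw [dn_union h1]
    have := ih fun v hv v' hv' => h v (Finset.mem_insert_of_mem hv) v' (Finset.mem_insert_of_mem hv')
    linarith

private theorem key42 {ι β : Type} [Finite ι] [Finite β] [Nonempty β] {m : ℕ}
    {J : Set (ι → β ⊕ Fin m)} {D : Set (ι → β)} (hJ : ∀ v ∈ J, Pr v ∧ ∀ s, ev v s ∈ D)
    (hd : ∀ v ∈ J, ∀ v' ∈ J, v ≠ v' → ∀ s s', ev v s ≠ ev v' s')
    (R : (ι → β ⊕ Fin m) → Set (Fin m → β)) {lam : ℝ} (hlam : 0 ≤ lam)
    (hR : ∀ v ∈ J, dn (R v) ≤ lam) : dn {x | ∃ v ∈ J, ∃ s ∈ R v, ev v s = x} ≤ lam * dn D := by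
  classical
  obtain ⟨F, hF⟩ : ∃ F : Finset (ι → β ⊕ Fin m), ∀ v, v ∈ F ↔ v ∈ J :=
    ⟨(Set.toFinite J).toFinset, fun v => Set.Finite.mem_toFinset _⟩
  have h1 : {x | ∃ v ∈ J, ∃ s ∈ R v, ev v s = x} ⊆ {x | ∃ v ∈ F, x ∈ ev v '' R v} := by
    rintro x ⟨v, hv, s, hs, rfl⟩
    exact ⟨v, (hF v).2 hv, s, hs, rfl⟩
  have h2 := sum_le42 (fun v : ι → β ⊕ Fin m => Set.range (ev v)) F (by
    intro v hv v' hv' hne
    rw [Set.disjoint_left]
    rintro x ⟨s, rfl⟩ ⟨s', hs'⟩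
    exact hd v ((hF v).1 hv) v' ((hF v').1 hv') hne s s' hs'.symm)
  have h3 : dn {x | ∃ v ∈ F, x ∈ Set.range (ev v)} ≤ dn D := by
    refine dn_mono ?_
    rintro x ⟨v, hv, s, rfl⟩
    exact (hJ v ((hF v).1 hv)).2 s
  calc dn {x | ∃ v ∈ J, ∃ s ∈ R v, ev v s = x} ≤ dn {x | ∃ v ∈ F, x ∈ ev v '' R v} := dn_mono h1
    _ ≤ ∑ v ∈ F, dn (ev v '' R v) := sum_ge42 _ F
    _ ≤ ∑ v ∈ F, lam * dn (Set.range (ev v)) := by
        refine Finset.sum_le_sum fun v hv => ?_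
        rw [dn_image (hJ v ((hF v).1 hv)).1, mul_comm]
        exact mul_le_mul_of_nonneg_right (hR v ((hF v).1 hv)) (dn_nonneg _)
    _ = lam * ∑ v ∈ F, dn (Set.range (ev v)) := by rw [Finset.mul_sum]
    _ ≤ lam * dn D := mul_le_mul_of_nonneg_left (h2.trans h3) hlam

theorem cov_univ {ι β : Type} [Finite ι] [Finite β] [Nonempty β] (m : ℕ) (h : m ≤ Nat.card ι) : Cov m (Set.univ : Set (ι → β)) 0 := by
  obtain ⟨κ, _, -, ⟨e⟩⟩ := exists_split (ι := ι) m h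
  have hev : ∀ (c : κ → β) (s : Fin m → β) (i : ι),
      ev (fun i => Sum.elim Sum.inr (fun k => Sum.inl (c k)) (e.symm i) : ι → β ⊕ Fin m) s i =
        Sum.elim s c (e.symm i) := by
    intro c s i
    show Sum.elim id s (Sum.elim Sum.inr (fun k => Sum.inl (c k)) (e.symm i)) = _
    generalize e.symm i = y
    rcases y with j | k
    · rfl
    · rfl
  refine ⟨{v | ∃ c : κ → β, v = fun i => Sum.elim Sum.inr (fun k => Sum.inl (c k)) (e.symm i)},
    ?_, ?_, ?_⟩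
  · rintro v ⟨c, rfl⟩
    refine ⟨fun j => ⟨e (Sum.inl j), ?_⟩, fun s => Set.mem_univ _⟩
    simp only [Equiv.symm_apply_apply, Sum.elim_inl]
  · rintro v ⟨c, rfl⟩ v' ⟨c', rfl⟩ hne s s' heq
    apply hne
    have : c = c' := by
      funext k
      have h1 := congrFun heq (e (Sum.inr k))
      rw [hev, hev, Equiv.symm_apply_apply, Sum.elim_inr, Sum.elim_inr] at h1
      exact h1
    rw [this]
  · have : {x : ι → β | x ∈ Set.univ ∧ ∀ v ∈ {v | ∃ c : κ → β, v = fun i =>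
        (Sum.elim Sum.inr (fun k => Sum.inl (c k)) (e.symm i) : β ⊕ Fin m)}, ∀ s, ev v s ≠ x} = ∅ := by
      rw [Set.eq_empty_iff_forall_notMem]
      rintro x ⟨-, hx⟩
      refine hx _ ⟨fun k => x (e (Sum.inr k)), rfl⟩ (fun j => x (e (Sum.inl j))) ?_
      funext i
      rw [hev]
      obtain ⟨y, rfl⟩ := e.surjective i
      rw [Equiv.symm_apply_apply]
      rcases y with j | k
      · rfl
      · rfl
    rw [this, dn_empty]

theorem Cov.trans {ι β : Type} [Finite ι] [Finite β] [Nonempty β] {m₁ m : ℕ} {B D : Set (ι → β)} {ε₁ ε₂ : ℝ} (hε : 0 ≤ ε₂) (h1 : Cov m₁ B ε₁)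
    (h2 : ∀ v : ι → β ⊕ Fin m₁, Pr v → (∀ s, ev v s ∈ B) → Cov m {s | ev v s ∈ D} ε₂) : Cov m (B ∩ D) (ε₁ + ε₂) := by
  obtain ⟨J₁, a1, a2, a3⟩ := h1
  have h3 : ∀ v : ι → β ⊕ Fin m₁, ∃ J : Set (Fin m₁ → β ⊕ Fin m), v ∈ J₁ →
      (∀ u ∈ J, Pr u ∧ ∀ s, ev u s ∈ {s | ev v s ∈ D}) ∧
      (∀ u ∈ J, ∀ u' ∈ J, u ≠ u' → ∀ s s', ev u s ≠ ev u' s') ∧
      dn {x ∈ {s | ev v s ∈ D} | ∀ u ∈ J, ∀ s, ev u s ≠ x} ≤ ε₂ := by
    intro v
    by_cases hv : v ∈ J₁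
    · obtain ⟨J, hJ⟩ := h2 v (a1 v hv).1 (a1 v hv).2
      exact ⟨J, fun _ => hJ⟩
    · exact ⟨∅, fun h => absurd h hv⟩
  choose J hJ using h3
  refine ⟨{w | ∃ v ∈ J₁, ∃ u ∈ J v, w = cmp v u}, ?_, ?_, ?_⟩
  · rintro w ⟨v, hv, u, hu, rfl⟩
    obtain ⟨b1, b2⟩ := (hJ v hv).1 u hu
    refine ⟨Pr_cmp (a1 v hv).1 b1, fun s => ?_⟩
    rw [ev_cmp]
    exact ⟨(a1 v hv).2 _, b2 s⟩
  · rintro w ⟨v, hv, u, hu, rfl⟩ w' ⟨v', hv', u', hu', rfl⟩ hne s s'
    rw [ev_cmp, ev_cmp]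
    by_cases hvv : v = v'
    · subst hvv
      have huu : u ≠ u' := by
        rintro rfl
        exact hne rfl
      exact fun h => (hJ v hv).2.1 u hu u' hu' huu s s' (ev_inj (a1 v hv).1 h)
    · exact a2 v hv v' hv' hvv _ _
  · have h4 := key42 a1 a2 (fun v => {x ∈ {s | ev v s ∈ D} | ∀ u ∈ J v, ∀ s, ev u s ≠ x}) hε
      fun v hv => (hJ v hv).2.2
    have h5 : ε₂ * dn B ≤ ε₂ * 1 := mul_le_mul_of_nonneg_left (dn_le_one B) hε
    have h6 : {x ∈ B ∩ D | ∀ w ∈ {w | ∃ v ∈ J₁, ∃ u ∈ J v, w = cmp v u}, ∀ s, ev w s ≠ x} ⊆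
        {x ∈ B | ∀ v ∈ J₁, ∀ s, ev v s ≠ x} ∪
        {x | ∃ v ∈ J₁, ∃ s ∈ {x ∈ {s | ev v s ∈ D} | ∀ u ∈ J v, ∀ s, ev u s ≠ x}, ev v s = x} := by
      rintro x ⟨⟨hxB, hxD⟩, hx⟩
      by_cases h7 : ∀ v ∈ J₁, ∀ s, ev v s ≠ x
      · exact Or.inl ⟨hxB, h7⟩
      · push Not at h7
        obtain ⟨v, hv, s, rfl⟩ := h7
        refine Or.inr ⟨v, hv, s, ⟨hxD, fun u hu t ht => ?_⟩, rfl⟩
        refine hx (cmp v u) ⟨v, hv, u, hu, rfl⟩ t ?_
        rw [ev_cmp, ht]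
    refine (dn_mono h6).trans ((dn_union_le _ _).trans ?_)
    linarith

theorem Ins.pull {ι η α : Type} {a : α} {B : Set (ι → Option α)} (h : Ins a B) (v : ι → Option α ⊕ η) : Ins a {s | ev v s ∈ B} := by
  intro x y hxy
  refine h (ev v x) (ev v y) fun i => ?_
  unfold ev
  rcases v i with c | j
  · exact Or.inl rfl
  · exact hxy j

theorem cov_inter {α : Type} [Finite α] [Nonempty α] (h : MDHJ α) (S : Finset α) : ∀ (m : ℕ) (ε : ℝ), 0 < ε →
    ∃ N : ℕ, ∀ (ι : Type) [Finite ι], N ≤ Nat.card ι → ∀ B : α → Set (ι → Option α), (∀ a ∈ S, Ins a (B a)) → Cov m {x | ∀ a ∈ S, x ∈ B a} ε := by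
  classical
  induction S using Finset.induction_on with
  | empty =>
    intro m ε hε
    refine ⟨m, fun ι _ hι B _ => ?_⟩
    have h1 : {x : ι → Option α | ∀ a ∈ (∅ : Finset α), x ∈ B a} = Set.univ := by
      ext x
      simp
    rw [h1]
    obtain ⟨J, a1, a2, a3⟩ := cov_univ (ι := ι) (β := Option α) m hι
    exact ⟨J, a1, a2, a3.trans hε.le⟩
  | insert b S hb ih =>
    intro m ε hε
    obtain ⟨N', hN'⟩ := ih m (ε / 2) (half_pos hε)
    obtain ⟨N, hN⟩ := cov_ins h N' (half_pos hε)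
    refine ⟨N, fun ι _ hι B hB => ?_⟩
    have h1 : {x : ι → Option α | ∀ a ∈ insert b S, x ∈ B a} = B b ∩ {x | ∀ a ∈ S, x ∈ B a} := by
      ext x
      simp only [Finset.mem_insert, forall_eq_or_imp, Set.mem_ofPred_eq, Set.mem_inter_iff]
    rw [h1, ← add_halves ε]
    refine Cov.trans (half_pos hε).le (hN ι hι b (B b) (hB b (Finset.mem_insert_self _ _))) ?_
    intro v _ _
    exact hN' (Fin N') (by rw [Nat.card_eq_fintype_card, Fintype.card_fin])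
      (fun a => {s | ev v s ∈ B a}) fun a ha => (hB a (Finset.mem_insert_of_mem ha)).pull v

theorem Cov.incr {ι β : Type} [Finite ι] [Finite β] [Nonempty β] {m : ℕ} {D : Set (ι → β)} {ε lam : ℝ} (h : Cov m D ε) (hlam : 0 ≤ lam)
    (B : Set (ι → β)) (h2 : lam * dn D + ε < dn (B ∩ D)) : ∃ v : ι → β ⊕ Fin m, Pr v ∧ lam < dn {s | ev v s ∈ B} := by
  by_contra hcon
  push Not at hcon
  obtain ⟨J, a1, a2, a3⟩ := h
  have h3 := key42 a1 a2 (fun v => {s | ev v s ∈ B}) hlam fun v hv => hcon v (a1 v hv).1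
  have h4 : B ∩ D ⊆ {x ∈ D | ∀ v ∈ J, ∀ s, ev v s ≠ x} ∪
      {x | ∃ v ∈ J, ∃ s ∈ {s | ev v s ∈ B}, ev v s = x} := by
    rintro x ⟨hxB, hxD⟩
    by_cases h7 : ∀ v ∈ J, ∀ s, ev v s ≠ x
    · exact Or.inl ⟨hxD, h7⟩
    · push Not at h7
      obtain ⟨v, hv, s, rfl⟩ := h7
      exact Or.inr ⟨v, hv, s, hxB, rfl⟩
  have h5 := (dn_mono h4).trans (dn_union_le _ _)
  linarith

end MRS
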