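import Pool.Agent.MRS.Dh0

/-! # MRS / Dh5: colourings of variable words I

PROOFS.
* `hj`: `Combinatorics.Line.exists_mono_in_high_dimension α C` gives a finite type `ι₀`; `N = card ι₀`.  For `ι` with `N ≤ card ι` choose an injection `ι₀ → ι`, colour the words on `ι₀` by extension with a constant letter outside (`α` nonempty), and take the line which is constant outside.
* `supp_col`: induction on `M`, for all `C`.  `M = 0`: `W i = Sum.inl a₀` (there is only one `s`).  `M → M + 1`: `N₁` from the induction for `M` and the colours `Option α → C`; `N₂` from `hj` for the colours `(Fin N₁ → Option α) → C`; `N = N₁ + N₂`.  Split `ι = Fin N₁ ⊕ κ`.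
  Colour `x : κ → α` by `c ↦ f (Sum.elim c (some ∘ x))`; `hj`: a line `u : κ → Option α`, so `f (Sum.elim c (some ∘ ln u a))` does not depend on `a`.  `g c = fun t : Option α => f (Sum.elim c (fun j => match u j with | none => t | some a => some a))`.
  Induction for `g`: `W₁ : Fin N₁ → α ⊕ Fin M`.  `W = Sum.elim (fun i => Sum.map id Fin.castSucc (W₁ i)) (fun j => match u j with | none => Sum.inr (Fin.last M) | some a => Sum.inl a)`.  For `s, s'` with the same support first replace `s` by `s'` on the first `M` variables (`g (evo W₁ ..)` as a function), then the last variable (`hj`, or equal if `none`).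
-/

set_option autoImplicit false
set_option linter.unusedVariables false

namespace MRS

theorem hj (α : Type) [Finite α] [Nonempty α] (C : Type) [Finite C] :
    ∃ N : ℕ, ∀ (ι : Type) [Finite ι], N ≤ Nat.card ι → ∀ f : (ι → α) → C,
      ∃ w : ι → Option α, (∃ i, w i = none) ∧ ∀ a a', f (ln w a) = f (ln w a') := by
  classical
  obtain ⟨ι₀, hι₀, hmono⟩ := Combinatorics.Line.exists_mono_in_high_dimension α C
  refine ⟨Fintype.card ι₀, fun ι _ hN f => ?_⟩
  have : Fintype ι := Fintype.ofFinite ι
  rw [Nat.card_eq_fintype_card] at hN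
  obtain ⟨e⟩ := Function.Embedding.nonempty_of_card_le hN
  obtain ⟨a₀⟩ := (inferInstance : Nonempty α)
  obtain ⟨l, c, hl⟩ := hmono (fun x => f (fun i => if h : ∃ j, e j = i then x h.choose else a₀))
  refine ⟨fun i => if h : ∃ j, e j = i then l.idxFun h.choose else some a₀, ?_, ?_⟩
  · obtain ⟨j, hj⟩ := l.proper
    refine ⟨e j, ?_⟩
    have h : ∃ j', e j' = e j := ⟨j, rfl⟩
    beta_reduce
    rw [dif_pos h, e.injective h.choose_spec]
    exact hj
  · have key : ∀ a, ln (fun i => if h : ∃ j, e j = i then l.idxFun h.choose else some a₀) a =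
        fun i => if h : ∃ j, e j = i then l a h.choose else a₀ := by
      intro a
      funext i
      unfold ln
      beta_reduce
      by_cases h : ∃ j, e j = i
      · rw [dif_pos h, dif_pos h]
        rfl
      · rw [dif_neg h, dif_neg h]
        rfl
    intro a a'
    rw [key, key]
    exact (hl a).trans (hl a').symm

theorem supp_col (α : Type) [Finite α] [Nonempty α] (M : ℕ) : ∀ (C : Type) [Finite C],
    ∃ N : ℕ, ∀ (ι : Type) [Finite ι], N ≤ Nat.card ι → ∀ f : (ι → Option α) → C,
      ∃ W : ι → α ⊕ Fin M, Pr W ∧ ∀ s s' : Fin M → Option α, (∀ j, s j = none ↔ s' j = none) → f (evo W s) = f (evo W s') := by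
  classical
  obtain ⟨a₀⟩ := (inferInstance : Nonempty α)
  induction M with
  | zero =>
    intro C _
    refine ⟨0, fun ι _ _ f => ⟨fun _ => Sum.inl a₀, fun e => Fin.elim0 e, fun s s' _ => ?_⟩⟩
    rw [Subsingleton.elim s s']
  | succ M ih =>
    intro C _
    obtain ⟨N₁, hN₁⟩ := ih (Option α → C)
    obtain ⟨N₂, hN₂⟩ := hj α ((Fin N₁ → Option α) → C)
    refine ⟨N₁ + N₂, fun ι _ hN f => ?_⟩
    obtain ⟨κ, hκ, hcard, ⟨e⟩⟩ := exists_split (ι := ι) N₁ (by omega)
    obtain ⟨u, ⟨j₀, hj₀⟩, hu⟩ := hN₂ κ (by omega)
      (fun x c => f (fun i => Sum.elim c (fun j => some (x j)) (e.symm i)))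
    have hu' : ∀ (a a' : α) (c : Fin N₁ → Option α),
        f (fun i => Sum.elim c (fun j => some (ln u a j)) (e.symm i)) =
          f (fun i => Sum.elim c (fun j => some (ln u a' j)) (e.symm i)) :=
      fun a a' c => congrFun (hu a a') c
    obtain ⟨W₁, hW₁, h₁⟩ := hN₁ (Fin N₁) (by rw [Nat.card_eq_fintype_card, Fintype.card_fin])
      (fun c t => f (fun i => Sum.elim c (fun j => (u j).elim t some) (e.symm i)))
    have h₁' : ∀ s s' : Fin M → Option α, (∀ j, s j = none ↔ s' j = none) → ∀ t,
        f (fun i => Sum.elim (evo W₁ s) (fun j => (u j).elim t some) (e.symm i)) =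
          f (fun i => Sum.elim (evo W₁ s') (fun j => (u j).elim t some) (e.symm i)) :=
      fun s s' h t => congrFun (h₁ s s' h) t
    refine ⟨fun i => Sum.elim (fun i => Sum.map id Fin.castSucc (W₁ i))
      (fun j => (u j).elim (Sum.inr (Fin.last M)) Sum.inl) (e.symm i), ?_, ?_⟩
    · intro m
      refine Fin.lastCases ?_ (fun m => ?_) m
      · refine ⟨e (Sum.inr j₀), ?_⟩
        beta_reduce
        rw [Equiv.symm_apply_apply, Sum.elim_inr, hj₀]
        rfl
      · obtain ⟨i, hi⟩ := hW₁ m
        refine ⟨e (Sum.inl i), ?_⟩
        beta_reduce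
        rw [Equiv.symm_apply_apply, Sum.elim_inl, hi]
        rfl
    · have key : ∀ s : Fin (M + 1) → Option α,
          evo (fun i => Sum.elim (fun i => Sum.map id Fin.castSucc (W₁ i))
            (fun j => (u j).elim (Sum.inr (Fin.last M)) Sum.inl) (e.symm i)) s =
          fun i => Sum.elim (evo W₁ (fun m => s (Fin.castSucc m)))
            (fun j => (u j).elim (s (Fin.last M)) some) (e.symm i) := by
        intro s
        funext i
        unfold evo
        beta_reduce
        rcases e.symm i with i' | j
        · rw [Sum.elim_inl, Sum.elim_inl]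
          rcases W₁ i' with a | m
          · rfl
          · rfl
        · rw [Sum.elim_inr, Sum.elim_inr]
          rcases u j with _ | a
          · rfl
          · rfl
      intro s s' hs
      rw [key, key, h₁' (fun m => s (Fin.castSucc m)) (fun m => s' (Fin.castSucc m))
        (fun m => hs (Fin.castSucc m))]
      have hlast := hs (Fin.last M)
      rcases hsl : s (Fin.last M) with _ | a
      · rw [hlast.1 hsl]
      · rcases hsl' : s' (Fin.last M) with _ | a'
        · rw [hlast.2 hsl'] at hsl
          exact absurd hsl (by simp)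
        · have hln : ∀ b : α, (fun j => (u j).elim (some b) some) = fun j => some (ln u b j) := by
            intro b
            funext j
            unfold ln
            rcases u j with _ | x
            · rfl
            · rfl
          rw [hln, hln]
          exact hu' a a' _

end MRS
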