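import Pool.Agent.MRS.Dh0

/-! # MRS / Dh6: finite unions

`fu`: for every colouring of the subsets of `Fin M` there are `m` disjoint nonempty sets all of whose nonempty unions have the same colour.

PROOF.  (a) CLAIM (`fu_max`): for all `M` (and all finite `C`) there is `N` such that for every `F : Set (Fin N) → C` there are disjoint nonempty `S_0, .., S_{M-1}` such that the colour of `⋃_{i ∈ I} S_i` (`I` nonempty) depends only on `max I`.
Induction on `M`.  `M + 1`: let `M'` be the number for `M`.  By the multidimensional Hales-Jewett theorem for the alphabet `Bool` (`Combinatorics.Subspace.exists_mono_in_high_dimension_fin`, `η = Fin M'`) there is `n` such that every colouring of the subsets of `Fin n` (`(Fin n → Bool)`) has `T₀` and disjoint nonempty `T_1, .., T_M'` (disjoint from `T₀`) with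
`T₀ ∪ ⋃_{i ∈ I} T_i` monochromatic for all `I` (also empty).  `N = n + 1`, the last point `pt`; apply it to `T ↦ F (T ∪ {pt})`.  Put `S_last = T₀ ∪ {pt}`: `F (⋃_{i∈I} T_i ∪ S_last)` does not depend on `I`.  Then apply the induction hypothesis to `I ↦ F (⋃_{i∈I} T_i)`, `I ⊆ Fin M'`.
(b) From `fu_max` with `M = m * card C` (or `M` with `m * card C < M + 1`): the colour of `max I = i` is a function `c : Fin M → C`; by the pigeonhole principle `m` of the `i` have the same colour; take these `S_i`.
-/

set_option autoImplicit false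
set_option linter.unusedVariables false

namespace MRS

private theorem fu_max (C : Type) [Finite C] (M : ℕ) : ∃ N : ℕ, ∀ F : Set (Fin N) → C,
    ∃ (S : Fin M → Set (Fin N)) (c : Fin M → C), (∀ i, (S i).Nonempty) ∧
      (∀ i j, i ≠ j → Disjoint (S i) (S j)) ∧
      ∀ (I : Set (Fin M)) (i : Fin M), i ∈ I → (∀ j ∈ I, j ≤ i) → F (⋃ i ∈ I, S i) = c i := by
  classical
  induction M with
  | zero =>
    exact ⟨0, fun F => ⟨fun i => i.elim0, fun i => i.elim0, fun i => i.elim0, fun i => i.elim0,
      fun I i => i.elim0⟩⟩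
  | succ M ih =>
    obtain ⟨M', hM'⟩ := ih
    obtain ⟨n, hn⟩ := Combinatorics.Subspace.exists_mono_in_high_dimension_fin Bool C (Fin M')
    refine ⟨n + 1, fun F => ?_⟩
    obtain ⟨l, c0, hl⟩ := hn (fun x => F ({Fin.last n} ∪ {a | ∃ i : Fin n, x i = true ∧ i.castSucc = a}))
    -- the sets
    set T : Fin M' → Set (Fin (n + 1)) := fun e => {a | ∃ i : Fin n, l.idxFun i = Sum.inr e ∧
      i.castSucc = a} with hT
    set T0 : Set (Fin (n + 1)) := {a | ∃ i : Fin n, l.idxFun i = Sum.inl true ∧ i.castSucc = a}
      with hT0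
    have hmono : ∀ J : Set (Fin M'), F (({Fin.last n} ∪ T0) ∪ ⋃ e ∈ J, T e) = c0 := by
      intro J
      rw [← hl (fun e => decide (e ∈ J))]
      show _ = F ({Fin.last n} ∪ {a | ∃ i : Fin n, l (fun e => decide (e ∈ J)) i = true ∧
        i.castSucc = a})
      congr 1
      ext a
      simp only [Set.mem_union, Set.mem_singleton_iff, Set.mem_iUnion, Set.mem_setOf_eq, hT, hT0,
        exists_prop]
      constructor
      · rintro ((h | ⟨i, hi, rfl⟩) | ⟨e, he, i, hi, rfl⟩)
        · exact Or.inl h
        · exact Or.inr ⟨i, l.apply_inl hi, rfl⟩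
        · exact Or.inr ⟨i, by rw [l.apply_inr hi]; simpa using he, rfl⟩
      · rintro (h | ⟨i, hi, rfl⟩)
        · exact Or.inl (Or.inl h)
        · cases hidx : l.idxFun i with
          | inl b =>
            rw [l.apply_inl hidx] at hi
            rw [hi] at hidx
            exact Or.inl (Or.inr ⟨i, hidx, rfl⟩)
          | inr e =>
            rw [l.apply_inr hidx] at hi
            exact Or.inr ⟨e, by simpa using hi, i, hidx, rfl⟩
    obtain ⟨S', c', h1, h2, h3⟩ := hM' (fun J => F (⋃ e ∈ J, T e))
    have hTne : ∀ e, (T e).Nonempty := by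
      intro e
      obtain ⟨i, hi⟩ := l.proper e
      exact ⟨i.castSucc, i, hi, rfl⟩
    have hTd : ∀ e e' a, a ∈ T e → a ∈ T e' → e = e' := by
      rintro e e' a ⟨i, hi, rfl⟩ ⟨i', hi', h⟩
      have h4 := Fin.castSucc_injective n h
      subst h4
      rw [hi] at hi'
      exact Sum.inr.inj hi'
    have hTl : ∀ e, Fin.last n ∉ T e := by
      rintro e ⟨i, _, hi⟩
      exact (Fin.castSucc_lt_last i).ne hi
    have hT0l : ∀ e a, a ∈ T0 → a ∉ T e := by
      rintro e a ⟨i, hi, rfl⟩ ⟨i', hi', h⟩
      have h4 := Fin.castSucc_injective n h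
      subst h4
      rw [hi] at hi'
      cases hi'
    set S : Fin (M + 1) → Set (Fin (n + 1)) :=
      fun i => if h : i.val < M then ⋃ e ∈ S' ⟨i.val, h⟩, T e else {Fin.last n} ∪ T0 with hS
    have hSlt : ∀ (i : Fin (M + 1)) (h : i.val < M), S i = ⋃ e ∈ S' ⟨i.val, h⟩, T e :=
      fun i h => dif_pos h
    have hSge : ∀ i : Fin (M + 1), ¬ i.val < M → S i = {Fin.last n} ∪ T0 := fun i h => dif_neg h
    have hdis : ∀ i j : Fin (M + 1), ∀ (hi : i.val < M), ¬ j.val < M → Disjoint (S i) (S j) := by
      intro i j hi hj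
      rw [hSlt i hi, hSge j hj, Set.disjoint_left]
      intro a ha hb
      simp only [Set.mem_iUnion, exists_prop] at ha
      obtain ⟨e, _, he⟩ := ha
      rcases hb with hb | hb
      · rw [Set.mem_singleton_iff] at hb
        rw [hb] at he
        exact hTl e he
      · exact hT0l e a hb he
    refine ⟨S, fun i => if h : i.val < M then c' ⟨i.val, h⟩ else c0, ?_, ?_, ?_⟩
    · intro i
      by_cases h : i.val < M
      · rw [hSlt i h]
        obtain ⟨e, he⟩ := h1 ⟨i.val, h⟩
        obtain ⟨a, ha⟩ := hTne e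
        exact ⟨a, by simp only [Set.mem_iUnion, exists_prop]; exact ⟨e, he, ha⟩⟩
      · rw [hSge i h]
        exact ⟨Fin.last n, Or.inl rfl⟩
    · intro i j hij
      by_cases hi : i.val < M
      · by_cases hj : j.val < M
        · rw [hSlt i hi, hSlt j hj, Set.disjoint_left]
          intro a ha hb
          simp only [Set.mem_iUnion, exists_prop] at ha hb
          obtain ⟨e, he, hae⟩ := ha
          obtain ⟨e', he', hae'⟩ := hb
          have h4 := hTd e e' a hae hae'
          subst h4
          have h5 := h2 ⟨i.val, hi⟩ ⟨j.val, hj⟩ (fun h => hij (Fin.ext (Fin.mk.inj_iff.1 h)))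
          exact Set.disjoint_left.1 h5 he he'
        · exact hdis i j hi hj
      · by_cases hj : j.val < M
        · exact (hdis j i hj hi).symm
        · exfalso
          apply hij
          apply Fin.ext
          have := i.2
          have := j.2
          omega
    · intro I i hi hmax
      -- the index set below
      set I' : Set (Fin M) := {j | (⟨j.val, by omega⟩ : Fin (M + 1)) ∈ I} with hI'
      have hJ : ∀ a, (∃ e ∈ (⋃ j ∈ I', S' j), a ∈ T e) ↔
          ∃ j ∈ I, ∃ h : j.val < M, a ∈ S j := by
        intro a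
        constructor
        · rintro ⟨e, he, ha⟩
          simp only [Set.mem_iUnion, exists_prop] at he
          obtain ⟨j, hj, hej⟩ := he
          refine ⟨⟨j.val, by omega⟩, hj, j.2, ?_⟩
          rw [hSlt _ j.2]
          simp only [Set.mem_iUnion, exists_prop]
          exact ⟨e, hej, ha⟩
        · rintro ⟨j, hj, hjM, ha⟩
          rw [hSlt j hjM] at ha
          simp only [Set.mem_iUnion, exists_prop] at ha
          obtain ⟨e, he, ha⟩ := ha
          refine ⟨e, ?_, ha⟩
          simp only [Set.mem_iUnion, exists_prop]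
          exact ⟨⟨j.val, hjM⟩, hj, he⟩
      by_cases hiM : i.val < M
      · show F (⋃ i ∈ I, S i) = if h : i.val < M then c' ⟨i.val, h⟩ else c0
        rw [dif_pos hiM]
        have h4 := h3 I' ⟨i.val, hiM⟩ hi (by
          intro j hj
          have := hmax _ hj
          exact this)
        rw [← h4]
        show F (⋃ i ∈ I, S i) = F (⋃ e ∈ (⋃ j ∈ I', S' j), T e)
        congr 1
        ext a
        have h5 := hJ a
        simp only [Set.mem_iUnion, exists_prop] at h5 ⊢
        rw [h5]
        constructor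
        · rintro ⟨j, hj, ha⟩
          have h6 : j.val < M := lt_of_le_of_lt (hmax j hj) hiM
          exact ⟨j, hj, h6, ha⟩
        · rintro ⟨j, hj, _, ha⟩
          exact ⟨j, hj, ha⟩
      · show F (⋃ i ∈ I, S i) = if h : i.val < M then c' ⟨i.val, h⟩ else c0
        rw [dif_neg hiM, ← hmono (⋃ j ∈ I', S' j)]
        congr 1
        ext a
        have h5 := hJ a
        simp only [Set.mem_union, Set.mem_iUnion, exists_prop] at h5 ⊢
        rw [h5]
        constructor
        · rintro ⟨j, hj, ha⟩
          by_cases hjM : j.val < M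
          · exact Or.inr ⟨j, hj, hjM, ha⟩
          · left
            rw [hSge j hjM] at ha
            exact ha
        · rintro (ha | ⟨j, hj, _, ha⟩)
          · refine ⟨i, hi, ?_⟩
            rw [hSge i hiM]
            exact ha
          · exact ⟨j, hj, ha⟩

theorem fu (m : ℕ) (C : Type) [Finite C] : ∃ M : ℕ, ∀ F : Set (Fin M) → C, ∃ S : Fin m → Set (Fin M),
    (∀ i, (S i).Nonempty) ∧ (∀ i j, i ≠ j → Disjoint (S i) (S j)) ∧
      ∀ I I' : Set (Fin m), I.Nonempty → I'.Nonempty → F (⋃ i ∈ I, S i) = F (⋃ i ∈ I', S i) := by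
  classical
  haveI := Fintype.ofFinite C
  obtain ⟨N, hN⟩ := fu_max C (Fintype.card C * m + 1)
  refine ⟨N, fun F => ?_⟩
  obtain ⟨S, c, h1, h2, h3⟩ := hN F
  obtain ⟨y, hy⟩ := Fintype.exists_lt_card_fiber_of_mul_lt_card c (n := m) (by
    rw [Fintype.card_fin]
    exact Nat.lt_succ_self _)
  obtain ⟨t, ht, htc⟩ := Finset.exists_subset_card_eq hy.le
  have key : ∀ I : Set (Fin m), I.Nonempty →
      F (⋃ i ∈ I, S (t.orderEmbOfFin htc i)) = y := by
    intro I hI
    have h4 : (⋃ i ∈ I, S (t.orderEmbOfFin htc i)) = ⋃ j ∈ (t.orderEmbOfFin htc) '' I, S j := by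
      rw [Set.biUnion_image]
    rw [h4]
    obtain ⟨j, hj, hmax⟩ := Set.exists_max_image ((t.orderEmbOfFin htc) '' I) id
      (Set.toFinite _) (hI.image _)
    rw [h3 _ j hj hmax]
    obtain ⟨i, _, rfl⟩ := hj
    have h5 := ht (Finset.orderEmbOfFin_mem t htc i)
    exact (Finset.mem_filter.1 h5).2
  refine ⟨fun i => S (t.orderEmbOfFin htc i), fun i => h1 _, ?_, ?_⟩
  · intro i j hij
    exact h2 _ _ (fun h => hij ((t.orderEmbOfFin htc).injective h))
  · intro I I' hI hI'
    exact (key I hI).trans (key I' hI').symm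

end MRS
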