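import Pool.Agent.MRS.Dh5
import Pool.Agent.MRS.Dh6

/-! # MRS / Dh7: the Graham-Rothschild theorem for lines

PROOF of `gr`: `M` from `fu m C`, `N` from `supp_col M C`.  `W` from `supp_col`.  `F S = f (evo W (fun j => if j ∈ S then none else some a₀))`; `S_i` from `fu`.  `u : Fin M → α ⊕ Fin m`, `u j = Sum.inr i` if `j ∈ S i`, `Sum.inl a₀` if `j` is in no `S i`.  `V = cmp W u`; `evo (cmp W u) s = evo W (evo u s)`, and the support of `evo u s` is `⋃ S i` over the support of `s`.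
-/

set_option autoImplicit false
set_option linter.unusedVariables false

namespace MRS

theorem evo_cmp {ι η θ α : Type} (v : ι → α ⊕ η) (u : η → α ⊕ θ) (s : θ → Option α) : evo (cmp v u) s = evo v (evo u s) := by
  funext i
  show Sum.elim some s (Sum.elim Sum.inl u (v i)) = Sum.elim some (evo u s) (v i)
  cases v i with
  | inl a => rfl
  | inr e => rfl

theorem gr (α : Type) [Finite α] [Nonempty α] (m : ℕ) (C : Type) [Finite C] :
    ∃ N : ℕ, ∀ (ι : Type) [Finite ι], N ≤ Nat.card ι → ∀ f : (ι → Option α) → C,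
      ∃ V : ι → α ⊕ Fin m, Pr V ∧ ∀ s s' : Fin m → Option α, (∃ j, s j = none) → (∃ j, s' j = none) → f (evo V s) = f (evo V s') := by
  classical
  obtain ⟨a₀⟩ := ‹Nonempty α›
  have : Nonempty α := ⟨a₀⟩
  obtain ⟨M, hM⟩ := fu m C
  obtain ⟨N, hN⟩ := supp_col α M C
  refine ⟨N, fun ι _ hι f => ?_⟩
  obtain ⟨W, hW, hW2⟩ := hN ι hι f
  obtain ⟨S, hS1, hS2, hS3⟩ :=
    hM fun S => f (evo W (fun j => if j ∈ S then none else some a₀))
  have hu : ∃ u : Fin M → α ⊕ Fin m, (∀ j i, j ∈ S i → u j = Sum.inr i) ∧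
      ∀ j, (∀ i, j ∉ S i) → u j = Sum.inl a₀ := by
    refine ⟨fun j => if h : ∃ i, j ∈ S i then Sum.inr h.choose else Sum.inl a₀, ?_, ?_⟩
    · intro j i hj
      have h : ∃ i, j ∈ S i := ⟨i, hj⟩
      show (if h : ∃ i, j ∈ S i then Sum.inr h.choose else Sum.inl a₀) = (Sum.inr i : α ⊕ Fin m)
      rw [dif_pos h]
      congr 1
      by_contra hne
      exact Set.disjoint_left.1 (hS2 _ _ hne) h.choose_spec hj
    · intro j hj
      show (if h : ∃ i, j ∈ S i then Sum.inr h.choose else Sum.inl a₀) = (Sum.inl a₀ : α ⊕ Fin m)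
      rw [dif_neg]
      rintro ⟨i, hi⟩
      exact hj i hi
  obtain ⟨u, hu1, hu2⟩ := hu
  have hPu : Pr u := fun i => by
    obtain ⟨j, hj⟩ := hS1 i
    exact ⟨j, hu1 j i hj⟩
  refine ⟨cmp W u, Pr_cmp hW hPu, ?_⟩
  have key : ∀ s : Fin m → Option α, f (evo (cmp W u) s) =
      f (evo W (fun j => if j ∈ ⋃ i ∈ {i | s i = none}, S i then none else some a₀)) := by
    intro s
    rw [evo_cmp]
    refine hW2 _ _ fun j => ?_
    show Sum.elim some s (u j) = none ↔
      (if j ∈ ⋃ i ∈ {i | s i = none}, S i then none else some a₀) = none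
    by_cases hj : ∃ i, j ∈ S i
    · obtain ⟨i, hi⟩ := hj
      rw [hu1 j i hi, Sum.elim_inr]
      by_cases hs : s i = none
      · rw [if_pos]
        · simp [hs]
        · exact Set.mem_biUnion (x := i) hs hi
      · rw [if_neg]
        · simp [hs]
        · intro h
          obtain ⟨i', h1, h2⟩ := Set.mem_iUnion₂.1 h
          by_cases hii : i = i'
          · rw [← hii] at h1
            exact hs h1
          · exact Set.disjoint_left.1 (hS2 _ _ hii) hi h2
    · have hj' : ∀ i, j ∉ S i := fun i hi => hj ⟨i, hi⟩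
      rw [hu2 j hj', Sum.elim_inl, if_neg]
      intro h
      obtain ⟨i', h1, h2⟩ := Set.mem_iUnion₂.1 h
      exact hj' i' h2
  rintro s s' ⟨j, hj⟩ ⟨j', hj'⟩
  rw [key s, key s']
  exact hS3 {i | s i = none} {i | s' i = none} ⟨j, hj⟩ ⟨j', hj'⟩

end MRS
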