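import Pool.Agent.MRS.Dh0

/-! # MRS / Dh8: good lines, choice of the fibre

PROOFS.
* `good_line`: `m₀ = N` from `h (Δ/2)`, `θ = (Δ/2) / Nat.card (Fin m₀ → Option α)`.  `u : ι → α ⊕ Fin m₀` from `exists_Pr`.  `E = {(y, t) : Y × (Fin m₀ → α) | y ∈ A (ev u t)}`, `Δ ≤ dn E` (`dn_fib_ge`, `dn_swap`); `dn_many`: the `y` with `Δ/2 ≤ dn {t | y ∈ A (ev u t)}` have density at least `Δ/2`; for such `y` there is a line `w` with `y ∈ A (ev u (ln w a))` for all `a`;
  `dn_pigeon` over `w : Fin m₀ → Option α` (with wildcard).  The line is `evo u w`, `ln_evo`.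
* `choose_y`: `P` in `X × Y`.  Let `b` be the density of the `y` with `dn {x | (x, y) ∈ P} < Δ - τ`.  `Δ - η ≤ dn P ≤ b (Δ - τ) + (1 - b) (Δ + η)`, so `b (τ + η) ≤ 2 η`, `b < θ/4`.  `dn Q ≥ θ/2` (`Q` over the `x` outside `Z`), so by `dn_many` (with `θ/2`) the `y` with `θ/4 ≤ dn {x | (x, y) ∈ Q}` have density at least `θ/4 > b`.
* `cut_incr`: `C a = {x | (fun i => some (ln x a i)) ∈ B}`, `C = ⋂ C a`; `Ins a (C a)`.  A word `x ∈ B ∩ C` has no letter `none`: otherwise `x` is a line (as `w : ι → Option (Option α)`, `w i = none` if `x i = none`, `some (x i)` otherwise) with all points in `B` (the point for `none` is `x`, for `some a` it is `fun i => some (ln x a i)`).  So `dn (B ∩ C) ≤ η`.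
  Number the letters by `Fin k`, `k = card α`.  For `j < k` let `D_j = C_0 ∩ .. ∩ C_{j-1} ∩ C_jᶜ`: an intersection of `k` sets `D a` with `Ins a (D a)` (`C a`, its complement or everything).  The `D_j` are disjoint with union `Cᶜ`.  `∑ (dn (B ∩ D_j) - (Δ + γ) dn D_j) = dn (B \ C) - (Δ + γ) dn Cᶜ ≥ Δ - 2 η - (Δ + γ) (1 - θ) ≥ Δ θ - γ - 2 η > k γ'`.
-/

set_option autoImplicit false
set_option linter.unusedVariables false

namespace MRS

theorem good_line {α : Type} [Finite α] [Nonempty α] (h : DHJ α) {Δ : ℝ} (hΔ : 0 < Δ) :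
    ∃ (m₀ : ℕ) (θ : ℝ), 0 < θ ∧ ∀ (ι : Type) [Finite ι], m₀ ≤ Nat.card ι → ∀ (Y : Type) [Finite Y] [Nonempty Y] (A : (ι → α) → Set Y),
      (∀ t, Δ ≤ dn (A t)) → ∃ w : ι → Option α, (∃ i, w i = none) ∧ θ ≤ dn {y | ∀ a, y ∈ A (ln w a)} := by
  obtain ⟨m₀, hm₀⟩ := h (Δ / 2) (by linarith)
  have hcard : (0 : ℝ) < (Nat.card (Fin m₀ → Option α) : ℝ) := by
    exact_mod_cast Nat.card_pos
  refine ⟨m₀, (Δ / 2) / (Nat.card (Fin m₀ → Option α) : ℝ), by positivity, ?_⟩
  intro ι _ hι Y _ _ A hA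
  obtain ⟨u, hu⟩ := exists_Pr (α := α) m₀ hι
  have hE0 : Δ ≤ dn {q : (Fin m₀ → α) × Y | q.2 ∈ A (ev u q.1)} :=
    dn_fib_ge _ Δ fun x => hA (ev u x)
  have hE : Δ ≤ dn {q : Y × (Fin m₀ → α) | q.1 ∈ A (ev u q.2)} := by
    rw [← dn_swap] at hE0
    exact hE0
  have hmany := dn_many {q : Y × (Fin m₀ → α) | q.1 ∈ A (ev u q.2)} hΔ.le hE
  obtain ⟨c, hc⟩ := dn_pigeon (C := Fin m₀ → Option α)
    {y : Y | Δ / 2 ≤ dn {t : Fin m₀ → α | (y, t) ∈ {q : Y × (Fin m₀ → α) | q.1 ∈ A (ev u q.2)}}}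
    (fun c => {y | (∃ i, c i = none) ∧ ∀ a, y ∈ A (ev u (ln c a))})
    (by
      intro y hy
      have hy' : Δ / 2 ≤ dn {t : Fin m₀ → α | y ∈ A (ev u t)} := hy
      have h1 := hm₀ (Fin m₀) (by rw [Nat.card_eq_fintype_card, Fintype.card_fin]) _ hy'
      unfold LF at h1
      push Not at h1
      obtain ⟨w, hw1, hw2⟩ := h1
      exact ⟨w, hw1, hw2⟩)
  have hc' : (Δ / 2) / (Nat.card (Fin m₀ → Option α) : ℝ) ≤
      dn {y | (∃ i, c i = none) ∧ ∀ a, y ∈ A (ev u (ln c a))} :=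
    (div_le_div_of_nonneg_right hmany hcard.le).trans hc
  have hpos : 0 < dn {y | (∃ i, c i = none) ∧ ∀ a, y ∈ A (ev u (ln c a))} :=
    lt_of_lt_of_le (by positivity) hc'
  obtain ⟨y, ⟨j, hj⟩, -⟩ := dn_pos hpos
  refine ⟨evo u c, ?_, hc'.trans (dn_mono ?_)⟩
  · obtain ⟨i, hi⟩ := hu j
    refine ⟨i, ?_⟩
    unfold evo
    rw [hi]
    exact hj
  · rintro z ⟨-, hz⟩ a
    rw [ln_evo]
    exact hz a

theorem choose_y {X Y : Type} [Finite X] [Finite Y] [Nonempty X] [Nonempty Y] (P Q : Set (X × Y)) (Z : Set X) {Δ η τ θ : ℝ} (hη : 0 < η) (hτ : 0 < τ)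
    (hθ : 0 < θ) (h0 : 2 * η < τ * (θ / 4)) (h1 : ∀ x, Δ - η ≤ dn {y | (x, y) ∈ P}) (h2 : ∀ y, dn {x | (x, y) ∈ P} ≤ Δ + η)
    (h3 : dn Z ≤ 1 / 2) (h4 : ∀ x ∉ Z, θ ≤ dn {y | (x, y) ∈ Q}) :
    ∃ y, Δ - τ ≤ dn {x | (x, y) ∈ P} ∧ θ / 4 ≤ dn {x | (x, y) ∈ Q} := by
  -- densities of cylinders
  have hcyl : ∀ Bd : Set Y, dn Bd ≤ dn {q : Y × X | q.1 ∈ Bd} := by
    intro Bd
    have h5 : dn Bd ≤ dn {q : X × Y | q.2 ∈ Bd} := dn_fib_ge _ _ fun x => le_rfl
    rw [← dn_swap] at h5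
    exact h5
  have hcyl' : dn Zᶜ ≤ dn {q : X × Y | q.1 ∈ Zᶜ} := by
    have h5 : dn Zᶜ ≤ dn {q : Y × X | q.2 ∈ Zᶜ} := dn_fib_ge _ _ fun x => le_rfl
    rw [← dn_swap] at h5
    exact h5
  -- the bad set
  have hP1 : Δ - η ≤ dn {q : Y × X | (q.2, q.1) ∈ P} := by
    rw [dn_swap]
    exact dn_fib_ge P _ h1
  have hP2 := dn_fib_le {q : Y × X | (q.2, q.1) ∈ P}
    {q : Y × X | q.1 ∈ {y : Y | dn {x | (x, y) ∈ P} < Δ - τ}} (Δ + η) (-(τ + η)) (by
      intro y
      show dn {x | (x, y) ∈ P} ≤ Δ + η + -(τ + η) *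
        dn {x : X | dn {x | (x, y) ∈ P} < Δ - τ}
      by_cases hy : dn {x | (x, y) ∈ P} < Δ - τ
      · have e1 : {x : X | dn {x | (x, y) ∈ P} < Δ - τ} = Set.univ := by
          ext x
          simp only [Set.mem_ofPred_eq, Set.mem_univ, iff_true]
          exact hy
        rw [e1, dn_univ]
        linarith
      · have e1 : {x : X | dn {x | (x, y) ∈ P} < Δ - τ} = ∅ := by
          ext x
          simp only [Set.mem_ofPred_eq, Set.mem_empty_iff_false, iff_false]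
          exact hy
        rw [e1, dn_empty, mul_zero, add_zero]
        exact h2 y)
  have hb := hcyl {y : Y | dn {x | (x, y) ∈ P} < Δ - τ}
  have hb2 : dn {y : Y | dn {x | (x, y) ∈ P} < Δ - τ} < θ / 4 := by
    refine lt_of_le_of_lt hb ?_
    by_contra hcon
    push Not at hcon
    have h6 : (τ + η) * (θ / 4) ≤
        (τ + η) * dn {q : Y × X | q.1 ∈ {y : Y | dn {x | (x, y) ∈ P} < Δ - τ}} :=
      mul_le_mul_of_nonneg_left hcon (by linarith)
    have h7 : 0 < η * (θ / 4) := by positivity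
    nlinarith
  -- the good set
  have hZ : 1 / 2 ≤ dn Zᶜ := by
    rw [dn_compl]
    linarith
  have hQ1 := dn_fib_le {q : X × Y | q.1 ∈ Zᶜ} Q 0 (1 / θ) (by
      intro x
      show dn {y : Y | x ∈ Zᶜ} ≤ 0 + 1 / θ * dn {y | (x, y) ∈ Q}
      by_cases hx : x ∈ Z
      · have e1 : {y : Y | x ∈ Zᶜ} = ∅ := by
          ext y
          simp only [Set.mem_ofPred_eq, Set.mem_empty_iff_false, iff_false, Set.mem_compl_iff,
            not_not]
          exact hx
        rw [e1, dn_empty, zero_add]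
        exact mul_nonneg (by positivity) (dn_nonneg _)
      · have e1 : {y : Y | x ∈ Zᶜ} = Set.univ := by
          ext y
          simp only [Set.mem_ofPred_eq, Set.mem_univ, iff_true, Set.mem_compl_iff]
          exact hx
        rw [e1, dn_univ, zero_add, one_div, inv_mul_eq_div, le_div_iff₀ hθ, one_mul]
        exact h4 x hx)
  have hQ2 : θ / 2 ≤ dn {q : Y × X | (q.2, q.1) ∈ Q} := by
    rw [dn_swap]
    have h8 : 1 / 2 ≤ 1 / θ * dn Q := by
      rw [zero_add] at hQ1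
      exact (hZ.trans hcyl').trans hQ1
    rw [one_div_mul_eq_div, le_div_iff₀ hθ] at h8
    linarith
  have hQ3 := dn_many {q : Y × X | (q.2, q.1) ∈ Q} (by positivity) hQ2
  have hex : ∃ y, y ∈ {y : Y | θ / 2 / 2 ≤ dn {x | (y, x) ∈ {q : Y × X | (q.2, q.1) ∈ Q}}} ∧
      y ∉ {y : Y | dn {x | (x, y) ∈ P} < Δ - τ} := by
    by_contra hcon
    push Not at hcon
    have h9 := dn_mono (X := Y) hcon
    have h10 : θ / 2 / 2 = θ / 4 := by ring
    rw [h10] at hQ3 h9
    linarith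
  obtain ⟨y, hy1, hy2⟩ := hex
  refine ⟨y, not_lt.1 hy2, ?_⟩
  have h10 : θ / 2 / 2 = θ / 4 := by ring
  rw [← h10]
  exact hy1

theorem cut_incr {α ι : Type} [Finite α] [Nonempty α] [Finite ι] {B : Set (ι → Option α)} (hB : LF B) {Δ γ γ' η θ : ℝ} (hΔ : 0 ≤ Δ) (hγ : 0 ≤ γ)
    (h1 : Δ - η ≤ dn B) (h2 : θ ≤ dn {x : ι → Option α | ∀ a, (fun i => some (ln x a i)) ∈ B}) (h3 : dn {x : ι → Option α | ∀ i, x i ≠ none} ≤ η)
    (h4 : (Nat.card α : ℝ) * γ' < Δ * θ - γ - 2 * η) :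
    ∃ D : α → Set (ι → Option α), (∀ a, Ins a (D a)) ∧ (Δ + γ) * dn {x | ∀ a, x ∈ D a} + γ' < dn (B ∩ {x | ∀ a, x ∈ D a}) := by
  classical
  have : Fintype α := Fintype.ofFinite α
  obtain ⟨e⟩ : Nonempty (α ≃ Fin (Nat.card α)) := ⟨Finite.equivFin α⟩
  obtain ⟨C, hC⟩ : ∃ C : α → Set (ι → Option α),
      C = fun a => {x : ι → Option α | (fun i => some (ln x a i)) ∈ B} := ⟨_, rfl⟩
  have hCm : ∀ a x, x ∈ C a ↔ (fun i => some (ln x a i)) ∈ B := by
    intro a x
    rw [hC]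
    exact Iff.rfl
  have hIns : ∀ a, Ins a (C a) := by
    intro a x y hxy
    rw [hCm, hCm]
    have e1 : ln x a = ln y a := by
      funext i
      unfold ln
      rcases hxy i with h | ⟨h, h'⟩
      · rw [h]
      · rcases h with h | h <;> rcases h' with h' | h' <;> rw [h, h'] <;> rfl
    rw [e1]
  have hθ' : θ ≤ dn {x | ∀ a, x ∈ C a} := by
    rw [hC]
    exact h2
  have hBC : dn (B ∩ {x | ∀ a, x ∈ C a}) ≤ η := by
    refine (dn_mono ?_).trans h3
    rintro x ⟨hxB, hxC⟩ i hi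
    obtain ⟨b, hb⟩ := hB (fun i => if x i = none then none else some (x i))
      ⟨i, by
        show (if x i = none then none else some (x i)) = none
        rw [if_pos hi]⟩
    cases b with
    | none =>
      apply hb
      have e1 : ln (fun i => if x i = none then none else some (x i)) none = x := by
        funext j
        show (if x j = none then none else some (x j)).getD none = x j
        by_cases hj : x j = none
        · rw [if_pos hj, hj]
          rfl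
        · rw [if_neg hj]
          rfl
      rw [e1]
      exact hxB
    | some a =>
      apply hb
      have e1 : ln (fun i => if x i = none then none else some (x i)) (some a) =
          fun i => some (ln x a i) := by
        funext j
        show (if x j = none then none else some (x j)).getD (some a) = some ((x j).getD a)
        by_cases hj : x j = none
        · rw [if_pos hj, hj]
          rfl
        · rw [if_neg hj]
          obtain ⟨c, hc⟩ := Option.ne_none_iff_exists'.1 hj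
          rw [hc]
          rfl
      rw [e1]
      exact (hCm a x).1 (hxC a)
  by_contra hcon
  push Not at hcon
  have hS : ∀ j : α, dn (B ∩ {x | (∀ a, e a < e j → x ∈ C a) ∧ x ∉ C j}) ≤
      (Δ + γ) * dn {x | (∀ a, e a < e j → x ∈ C a) ∧ x ∉ C j} + γ' := by
    intro j
    have h5 := hcon (fun a => if e a < e j then C a else if a = j then (C a)ᶜ else Set.univ) (by
      intro a
      show Ins a (if e a < e j then C a else if a = j then (C a)ᶜ else Set.univ)
      split_ifs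
      · exact hIns a
      · intro x y hxy
        rw [Set.mem_compl_iff, Set.mem_compl_iff, hIns a x y hxy]
      · intro x y _
        exact iff_of_true (Set.mem_univ _) (Set.mem_univ _))
    have e1 : {x | ∀ a, x ∈ (if e a < e j then C a else if a = j then (C a)ᶜ else Set.univ :
        Set (ι → Option α))} = {x | (∀ a, e a < e j → x ∈ C a) ∧ x ∉ C j} := by
      ext x
      simp only [Set.mem_ofPred_eq]
      constructor
      · intro h
        refine ⟨fun a ha => ?_, ?_⟩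
        · have := h a
          rw [if_pos ha] at this
          exact this
        · have := h j
          rw [if_neg (lt_irrefl _), if_pos rfl] at this
          exact this
      · rintro ⟨h, h'⟩ a
        split_ifs with ha ha'
        · exact h a ha
        · rw [ha']
          exact h'
        · exact Set.mem_univ _
    rw [e1] at h5
    exact h5
  have hdisj : ∀ c c' : α, c ≠ c' →
      Disjoint {x | (∀ a, e a < e c → x ∈ C a) ∧ x ∉ C c}
        {x | (∀ a, e a < e c' → x ∈ C a) ∧ x ∉ C c'} := by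
    intro c c' hcc
    rw [Set.disjoint_left]
    rintro x ⟨hx1, hx2⟩ ⟨hx1', hx2'⟩
    rcases lt_trichotomy (e c) (e c') with h | h | h
    · exact hx2 (hx1' c h)
    · exact hcc (e.injective h)
    · exact hx2' (hx1 c' h)
  have hcov : ∀ x, ¬ (∀ a, x ∈ C a) → ∃ c : α, (∀ a, e a < e c → x ∈ C a) ∧ x ∉ C c := by
    intro x hx
    have hex : ∃ n : ℕ, ∃ c : α, (e c : ℕ) = n ∧ x ∉ C c := by
      push Not at hx
      obtain ⟨c, hc⟩ := hx
      exact ⟨_, c, rfl, hc⟩
    obtain ⟨c, hc1, hc2⟩ := Nat.find_spec hex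
    refine ⟨c, fun a ha => ?_, hc2⟩
    by_contra hxa
    refine Nat.find_min hex (m := (e a : ℕ)) ?_ ⟨a, rfl, hxa⟩
    rw [← hc1]
    exact ha
  have hsum1 := dn_sum (B \ {x | ∀ a, x ∈ C a})
    (fun c : α => {x | (∀ a, e a < e c → x ∈ C a) ∧ x ∉ C c}) hdisj
    (fun x hx => hcov x hx.2)
  have hsum2 := dn_sum ({x : ι → Option α | ∀ a, x ∈ C a}ᶜ)
    (fun c : α => {x | (∀ a, e a < e c → x ∈ C a) ∧ x ∉ C c}) hdisj
    (fun x hx => hcov x hx)
  have e1 : ∀ c : α, (B \ {x | ∀ a, x ∈ C a}) ∩ {x | (∀ a, e a < e c → x ∈ C a) ∧ x ∉ C c} =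
      B ∩ {x | (∀ a, e a < e c → x ∈ C a) ∧ x ∉ C c} := by
    intro c
    ext x
    constructor
    · rintro ⟨hx1, hx2⟩
      exact ⟨hx1.1, hx2⟩
    · rintro ⟨hx1, hx2⟩
      exact ⟨⟨hx1, fun h => hx2.2 (h c)⟩, hx2⟩
  have e2 : ∀ c : α, ({x : ι → Option α | ∀ a, x ∈ C a}ᶜ) ∩
      {x | (∀ a, e a < e c → x ∈ C a) ∧ x ∉ C c} =
      {x | (∀ a, e a < e c → x ∈ C a) ∧ x ∉ C c} := by
    intro c
    ext x
    constructor
    · rintro ⟨hx1, hx2⟩
      exact hx2
    · intro hx2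
      exact ⟨fun h => hx2.2 (h c), hx2⟩
  simp only [e1] at hsum1
  simp only [e2] at hsum2
  have hle : dn (B \ {x | ∀ a, x ∈ C a}) ≤
      (Δ + γ) * dn ({x : ι → Option α | ∀ a, x ∈ C a}ᶜ) + (Nat.card α : ℝ) * γ' := by
    rw [hsum1, hsum2, Finset.mul_sum]
    have h6 : (Nat.card α : ℝ) * γ' = ∑ _c : α, γ' := by
      rw [Finset.sum_const, Finset.card_univ, nsmul_eq_mul, Nat.card_eq_fintype_card]
    rw [h6, ← Finset.sum_add_distrib]
    exact Finset.sum_le_sum fun c _ => hS c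
  rw [dn_compl] at hle
  have hsplit : dn B = dn (B \ {x | ∀ a, x ∈ C a}) + dn (B ∩ {x | ∀ a, x ∈ C a}) := by
    rw [← dn_union (Set.disjoint_left.2 fun x hx hx' => hx.2 hx'.2), Set.sdiff_union_inter]
  have h7 := dn_nonneg {x : ι → Option α | ∀ a, x ∈ C a}
  have h8 : Δ * θ ≤ Δ * dn {x : ι → Option α | ∀ a, x ∈ C a} := mul_le_mul_of_nonneg_left hθ' hΔ
  have h9 : 0 ≤ γ * dn {x : ι → Option α | ∀ a, x ∈ C a} := mul_nonneg hγ h7
  nlinarith

end MRS
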