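import Pool.Agent.MRS.Dh1
import Pool.Agent.MRS.Dh4
import Pool.Agent.MRS.Dh7
import Pool.Agent.MRS.Dh8

/-! # MRS / Dh9: the density Hales-Jewett theorem

PROOF of `core` (by contradiction: `¬ PN (Option α) δ` for all `0 < δ < Δ`).  `k = card α`.
1. `m₀, θ` from `good_line h` for `Δ/2`.  `θ₁ = θ/4`, `τ = Δ θ₁ / 16`, `γ = Δ θ₁ / 4`, `γ' = Δ θ₁ / (2 (k+1))`, `η = min (τ θ₁ / 4) (Δ/2)`  (so `2 η < τ (θ/4)`, `k γ' < Δ θ₁ - γ - 2 τ`; `θ ≤ 1`).
2. `N₂` from `hup γ`; `m` at least: `m₀`; the number from `hup η`; the number of `cov_inter (mdhj_of h) Finset.univ N₂ (γ'/2)` (or any `ε` with `0 < ε ≤ γ'`); the numbers of `nonone` for `τ` and for `1/2`.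
3. `n₁` from `gr α m Prop`.  `K = Nat.card (Fin n₁ → Option α)`, `η' = η / (2 K)`, `η' < Δ`.  `n₃` from `hup η'`.  `¬ PN (Option α) (Δ - η')` for `n₁ + n₃`: `ι`, `A` with `LF A`, `Δ - η' ≤ dn A`.  Split `ι = Fin n₁ ⊕ κ` (`LF.equiv`, `dn_reindex`), `n₃ ≤ card κ`.
4. For `t : Fin n₁ → Option α`: `A_t = {y | Sum.elim t y ∈ A}`; `LF A_t`, so `dn A_t < Δ + η'`, so `Δ - η ≤ dn A_t` (`dn_min`, `dn_words`).
5. `f z = (θ ≤ dn {y | ∀ a, Sum.elim (fun i => some (ln z a i)) y ∈ A})`, `z : Fin n₁ → Option α`.  `gr`: `V : Fin n₁ → α ⊕ Fin m`.  `good_line` for `Fin m`, `Y = (κ → Option α)`, `t ↦ A_(some ∘ ev V t)` gives `w` with wildcard, `f (evo V w)` (`ln_evo`).  So `f (evo V x)` for all `x` with a wildcard.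
6. `P = {(x, y) | Sum.elim (evo V x) y ∈ A}`, `Q = {(x, y) | ∀ a, Sum.elim (evo V (fun i => some (ln x a i))) y ∈ A}` in `(Fin m → Option α) × (κ → Option α)`, `Z` the words without `none`.  `{x | (x, y) ∈ P}` is line free (`LF.sec'`, `LF.pull` with `ev_map_some`), so its density is `< Δ + η`.
   `evo V (some ∘ ln x a) = some ∘ ev V (ln x a) = some ∘ ln (evo V x) a` (`evo_some`, `ln_evo`).  `choose_y`: `y`; `B = {x | (x, y) ∈ P}`, `Δ - τ ≤ dn B`, `θ₁ ≤ dn {x | (x, y) ∈ Q}`.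
7. `cut_incr` (with `τ` for `η`, `θ₁` for `θ`): `D`.  `cov_inter` for `D`, then `Cov.incr` with `lam = Δ + γ`: `v : Fin m → Option α ⊕ Fin N₂` with `Δ + γ < dn {s | ev v s ∈ B}`; this set is line free (`LF.pull`): contradiction to the choice of `N₂`.
`dhj_option`: let `Δ = sInf {δ | 0 < δ ∧ PN (Option α) δ}`; `PN` is monotone, `PN _ 2` holds (`dn_le_one`).  If `Δ > 0`: `hup` holds, `core` gives `δ < Δ` in the set, contradiction.  So `Δ = 0` and `PN (Option α) δ` for all `δ > 0`.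
`dhj`: `PN` depends only on the cardinality (`DHJ_equiv`: a bijection of the alphabets); induction on `card α`; `card α = 1`: `DHJ Unit`: `N = 1`: `A` nonempty is everything and `w = none` is a line.
-/

set_option autoImplicit false
set_option linter.unusedVariables false

namespace MRS

private theorem dh9_Pr_map {ι η α : Type} {V : ι → α ⊕ η} (hV : Pr V) :
    Pr (fun i => Sum.map (some : α → Option α) id (V i)) := by
  intro e
  obtain ⟨i, hi⟩ := hV e
  refine ⟨i, ?_⟩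
  show Sum.map (some : α → Option α) id (V i) = Sum.inr e
  rw [hi]
  rfl

private theorem dh9_num {Δ θ k : ℝ} (hΔ : 0 < Δ) (hθ : 0 < θ) (hk : 0 ≤ k) :
    k * (Δ * (θ / 4) / (2 * (k + 1))) < Δ * (θ / 4) - Δ * (θ / 4) / 4 - 2 * (Δ * (θ / 4) / 16) := by
  have h1 : 0 < Δ * (θ / 4) := by positivity
  have h2 : k * (Δ * (θ / 4) / (2 * (k + 1))) = Δ * (θ / 4) * (k / (2 * (k + 1))) := by ring
  have h3 : k / (2 * (k + 1)) ≤ 1 / 2 := by
    rw [div_le_div_iff₀ (by positivity) (by norm_num)]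
    linarith
  rw [h2]
  have h4 : Δ * (θ / 4) * (k / (2 * (k + 1))) ≤ Δ * (θ / 4) * (1 / 2) := mul_le_mul_of_nonneg_left h3 h1.le
  linarith

theorem core {α : Type} [Finite α] [Nonempty α] (h : DHJ α) {Δ : ℝ} (hΔ : 0 < Δ) (hup : ∀ η, 0 < η → PN (Option α) (Δ + η)) :
    ∃ δ, 0 < δ ∧ δ < Δ ∧ PN (Option α) δ := by
  classical
  by_contra hno
  have hno' : ∀ δ, 0 < δ → δ < Δ → ¬ PN (Option α) δ := fun δ h1 h2 h3 => hno ⟨δ, h1, h2, h3⟩
  have : Fintype α := Fintype.ofFinite α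
  obtain ⟨m₀, θ, hθ, hgood⟩ := good_line h (Δ := Δ / 2) (by positivity)
  obtain ⟨τ, hτdef⟩ : ∃ τ, τ = Δ * (θ / 4) / 16 := ⟨_, rfl⟩
  obtain ⟨γ, hγdef⟩ : ∃ γ, γ = Δ * (θ / 4) / 4 := ⟨_, rfl⟩
  obtain ⟨γ', hγ'def⟩ : ∃ γ', γ' = Δ * (θ / 4) / (2 * ((Nat.card α : ℝ) + 1)) := ⟨_, rfl⟩
  obtain ⟨η, hηdef⟩ : ∃ η, η = min (τ * (θ / 4) / 4) (Δ / 2) := ⟨_, rfl⟩
  have hτ : 0 < τ := by rw [hτdef]; positivity
  have hγ : 0 < γ := by rw [hγdef]; positivity
  have hγ' : 0 < γ' := by rw [hγ'def]; positivity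
  have hη : 0 < η := by rw [hηdef]; exact lt_min (by positivity) (by positivity)
  have hη1 : η ≤ τ * (θ / 4) / 4 := by rw [hηdef]; exact min_le_left _ _
  have hη2 : η ≤ Δ / 2 := by rw [hηdef]; exact min_le_right _ _
  have h0 : 2 * η < τ * (θ / 4) := by
    have : 0 < τ * (θ / 4) := by positivity
    linarith
  have hnum : (Nat.card α : ℝ) * γ' < Δ * (θ / 4) - γ - 2 * τ := by
    rw [hτdef, hγdef, hγ'def]
    exact dh9_num hΔ hθ (Nat.cast_nonneg _)
  obtain ⟨N₂, hN₂⟩ := hup γ hγ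
  obtain ⟨Nη, hNη⟩ := hup η hη
  obtain ⟨Nc, hNc⟩ := cov_inter (mdhj_of h) (Finset.univ : Finset α) N₂ γ' hγ'
  obtain ⟨Nt, hNt⟩ := nonone α hτ
  obtain ⟨Nh, hNh⟩ := nonone α (ε := 1 / 2) (by norm_num)
  obtain ⟨m, hm⟩ : ∃ m, m = m₀ + Nη + Nc + Nt + Nh := ⟨_, rfl⟩
  have hcm : Nat.card (Fin m) = m := by simp
  obtain ⟨n₁, hgr⟩ := gr α m Prop
  obtain ⟨K, hKdef⟩ : ∃ K : ℝ, K = (Nat.card (Fin n₁ → Option α) : ℝ) := ⟨_, rfl⟩
  have hK1 : 1 ≤ K := by
    rw [hKdef]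
    have : 0 < Nat.card (Fin n₁ → Option α) := Nat.card_pos
    exact_mod_cast this
  obtain ⟨η', hη'def⟩ : ∃ η', η' = η / (2 * K) := ⟨_, rfl⟩
  have hη' : 0 < η' := by rw [hη'def]; positivity
  have hη'K : 2 * K * η' = η := by
    rw [hη'def]
    field_simp
  have hη'Δ : η' < Δ := by
    have : η' * 1 ≤ η' * K := mul_le_mul_of_nonneg_left hK1 hη'.le
    nlinarith
  obtain ⟨n₃, hn₃⟩ := hup η' hη'
  have hnPN := hno' (Δ - η') (by linarith) (by linarith)
  have hex : ∃ (ι : Type) (_ : Finite ι), n₁ + n₃ ≤ Nat.card ι ∧ ∃ A : Set (ι → Option α), Δ - η' ≤ dn A ∧ LF A := by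
    by_contra hcon
    apply hnPN
    refine ⟨n₁ + n₃, fun ι hι hc A hA hLF => hcon ⟨ι, hι, hc, A, hA, hLF⟩⟩
  obtain ⟨ι, hιf, hcard, A, hA, hLF⟩ := hex
  obtain ⟨κ, hκ, hcκ, ⟨e⟩⟩ := exists_split (ι := ι) n₁ (by omega)
  have hLF1 := hLF.equiv e
  have hdn1 := dn_reindex A e
  obtain ⟨A', hA'def⟩ : ∃ A' : Set (Fin n₁ ⊕ κ → Option α), A' = {s | (fun i => s (e.symm i)) ∈ A} := ⟨_, rfl⟩
  rw [← hA'def] at hLF1 hdn1
  have hsec : ∀ t : Fin n₁ → Option α, dn {y : κ → Option α | Sum.elim t y ∈ A'} ≤ Δ + η' := by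
    intro t
    by_contra hlt
    push Not at hlt
    exact hn₃ κ (by omega) _ hlt.le (hLF1.sec t)
  have hlow : ∀ t : Fin n₁ → Option α, Δ - η ≤ dn {y : κ → Option α | Sum.elim t y ∈ A'} := by
    intro t
    have h1 : Δ - η' ≤ dn {q : (Fin n₁ → Option α) × (κ → Option α) | Sum.elim q.1 q.2 ∈ A'} := by
      rw [dn_words, hdn1]
      exact hA
    have h2 := dn_min {q : (Fin n₁ → Option α) × (κ → Option α) | Sum.elim q.1 q.2 ∈ A'} hη'.le h1 (fun x => hsec x) t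
    rw [← hKdef, hη'K] at h2
    exact h2
  obtain ⟨V, hV, hVf⟩ := hgr (Fin n₁) (by simp) (fun z => θ ≤ dn {y : κ → Option α | ∀ a : α, Sum.elim (fun i => some (ln z a i)) y ∈ A'})
  obtain ⟨w, hw, hwθ⟩ := hgood (Fin m) (by rw [hcm]; omega) (κ → Option α)
    (fun t => {y : κ → Option α | Sum.elim (fun i => some (ev V t i)) y ∈ A'}) (fun t => by
      have := hlow (fun i => some (ev V t i))
      linarith)
  have hfw : θ ≤ dn {y : κ → Option α | ∀ a : α, Sum.elim (fun i => some (ln (evo V w) a i)) y ∈ A'} := by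
    have hset : {y : κ → Option α | ∀ a : α, Sum.elim (fun i => some (ln (evo V w) a i)) y ∈ A'} =
        {y : κ → Option α | ∀ a : α, y ∈ {y : κ → Option α | Sum.elim (fun i => some (ev V (ln w a) i)) y ∈ A'}} := by
      ext y
      simp only [Set.mem_setOf_eq, ln_evo]
    rw [hset]
    exact hwθ
  have hf : ∀ x : Fin m → Option α, (∃ j, x j = none) →
      θ ≤ dn {y : κ → Option α | ∀ a : α, Sum.elim (fun i => some (ln (evo V x) a i)) y ∈ A'} := by
    intro x hx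
    have := hVf w x hw hx
    exact this.mp hfw
  have hPLF : ∀ y : κ → Option α, LF {x : Fin m → Option α | Sum.elim (evo V x) y ∈ A'} := by
    intro y
    have h1 := (hLF1.sec' y).pull (dh9_Pr_map hV)
    have hset : {s : Fin m → Option α | ev (fun i => Sum.map (some : α → Option α) id (V i)) s ∈ {t : Fin n₁ → Option α | Sum.elim t y ∈ A'}} =
        {x : Fin m → Option α | Sum.elim (evo V x) y ∈ A'} := by
      ext s
      simp only [Set.mem_setOf_eq, ev_map_some]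
    rw [hset] at h1
    exact h1
  obtain ⟨y, hy1, hy2⟩ := choose_y
    {q : (Fin m → Option α) × (κ → Option α) | Sum.elim (evo V q.1) q.2 ∈ A'}
    {q : (Fin m → Option α) × (κ → Option α) | ∀ a : α, Sum.elim (evo V (fun i => some (ln q.1 a i))) q.2 ∈ A'}
    {x : Fin m → Option α | ∀ i, x i ≠ none} hη hτ hθ h0
    (fun x => hlow (evo V x))
    (fun y => by
      by_contra hlt
      push Not at hlt
      exact hNη (Fin m) (by rw [hcm]; omega) _ hlt.le (hPLF y))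
    (hNh (Fin m) (by rw [hcm]; omega))
    (fun x hx => by
      have hx' : ∃ j, x j = none := by
        by_contra hcon
        push Not at hcon
        exact hx hcon
      have h1 := hf x hx'
      have hset : {y : κ → Option α | (x, y) ∈ {q : (Fin m → Option α) × (κ → Option α) | ∀ a : α, Sum.elim (evo V (fun i => some (ln q.1 a i))) q.2 ∈ A'}} =
          {y : κ → Option α | ∀ a : α, Sum.elim (fun i => some (ln (evo V x) a i)) y ∈ A'} := by
        ext y
        simp only [Set.mem_setOf_eq, evo_some, ln_evo]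
      rw [hset]
      exact h1)
  obtain ⟨B, hBdef⟩ : ∃ B : Set (Fin m → Option α), B = {x : Fin m → Option α | Sum.elim (evo V x) y ∈ A'} := ⟨_, rfl⟩
  have hBLF : LF B := by rw [hBdef]; exact hPLF y
  have hB1 : Δ - τ ≤ dn B := by rw [hBdef]; exact hy1
  have hB2 : θ / 4 ≤ dn {x : Fin m → Option α | ∀ a : α, (fun i => some (ln x a i)) ∈ B} := by
    rw [hBdef]; exact hy2
  obtain ⟨D, hD1, hD2⟩ := cut_incr hBLF hΔ.le hγ.le hB1 hB2 (hNt (Fin m) (by rw [hcm]; omega)) hnum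
  have hcov := hNc (Fin m) (by rw [hcm]; omega) D (fun a _ => hD1 a)
  have hset : {x : Fin m → Option α | ∀ a ∈ (Finset.univ : Finset α), x ∈ D a} = {x | ∀ a, x ∈ D a} := by
    ext x
    simp
  rw [hset] at hcov
  obtain ⟨v, hv1, hv2⟩ := hcov.incr (lam := Δ + γ) (by positivity) B hD2
  exact hN₂ (Fin N₂) (by simp) _ hv2.le (hBLF.pull hv1)

private theorem dh9_mono {α : Type} {δ δ' : ℝ} (hδ : δ ≤ δ') (h : PN α δ) : PN α δ' := by
  obtain ⟨N, hN⟩ := h
  exact ⟨N, fun ι _ hι A hA => hN ι hι A (le_trans hδ hA)⟩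

private theorem dh9_two (α : Type) [Finite α] : PN α 2 := by
  refine ⟨0, fun ι _ _ A hA => ?_⟩
  have := dn_le_one A
  linarith

theorem dhj_option {α : Type} [Finite α] [Nonempty α] (h : DHJ α) : DHJ (Option α) := by
  intro δ₀ hδ₀
  by_contra hn
  have hbdd : BddBelow {δ : ℝ | 0 < δ ∧ PN (Option α) δ} := ⟨0, fun δ hδ => hδ.1.le⟩
  have hne : ({δ : ℝ | 0 < δ ∧ PN (Option α) δ}).Nonempty := ⟨2, by norm_num, dh9_two _⟩
  have hge : δ₀ ≤ sInf {δ : ℝ | 0 < δ ∧ PN (Option α) δ} := by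
    refine le_csInf hne fun δ hδ => ?_
    by_contra hlt
    push Not at hlt
    exact hn (dh9_mono hlt.le hδ.2)
  obtain ⟨δ, h1, h2, h3⟩ := core h (Δ := sInf {δ : ℝ | 0 < δ ∧ PN (Option α) δ}) (lt_of_lt_of_le hδ₀ hge) (by
    intro η hη
    obtain ⟨s, hs, hs2⟩ := exists_lt_of_csInf_lt hne (b := sInf {δ : ℝ | 0 < δ ∧ PN (Option α) δ} + η) (by linarith)
    exact dh9_mono hs2.le hs.2)
  exact absurd (csInf_le hbdd ⟨h1, h3⟩) (not_le.2 h2)

theorem DHJ_equiv {α β : Type} [Finite α] [Finite β] (e : α ≃ β) (h : DHJ α) : DHJ β := by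
  intro δ hδ
  obtain ⟨N, hN⟩ := h δ hδ
  refine ⟨N, fun ι _ hι A hA hLF => ?_⟩
  have hd : dn ((Equiv.arrowCongr (Equiv.refl ι) e : (ι → α) ≃ (ι → β)) ⁻¹' A) = dn A := dn_equiv _ A
  refine hN ι hι _ (by rw [hd]; exact hA) ?_
  intro w hw
  obtain ⟨i, hi⟩ := hw
  obtain ⟨b, hb⟩ := hLF (fun i => (w i).map e) ⟨i, by simp [hi]⟩
  refine ⟨e.symm b, fun hmem => hb ?_⟩
  have heq : (Equiv.arrowCongr (Equiv.refl ι) e : (ι → α) ≃ (ι → β)) (ln w (e.symm b)) = ln (fun i => (w i).map e) b := by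
    funext j
    show e ((w j).getD (e.symm b)) = ((w j).map e).getD b
    cases w j with
    | none => simp
    | some a => simp
  have h2 : (Equiv.arrowCongr (Equiv.refl ι) e : (ι → α) ≃ (ι → β)) (ln w (e.symm b)) ∈ A := hmem
  rw [heq] at h2
  exact h2

private theorem dh9_sub (α : Type) [Finite α] [Subsingleton α] : DHJ α := by
  intro δ hδ
  refine ⟨1, fun ι _ hι A hA hLF => ?_⟩
  obtain ⟨x, hx⟩ := dn_pos (lt_of_lt_of_le hδ hA)
  have hι' : 0 < Nat.card ι := by omega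
  obtain ⟨⟨i⟩, _⟩ := Nat.card_pos_iff.1 hι'
  obtain ⟨a, ha⟩ := hLF (fun _ => none) ⟨i, rfl⟩
  exact ha (by rw [Subsingleton.elim (ln (fun _ => none) a) x]; exact hx)

private theorem dh9_all : ∀ (α : Type) [Finite α], Nonempty α → DHJ α := by
  intro α hα
  refine (Finite.induction_empty_option (P := fun α : Type => ∀ [Finite α], Nonempty α → DHJ α) ?_ ?_ ?_ α)
  · intro α β e hP _ hβ
    have : Finite α := Finite.of_equiv β e.symm
    exact DHJ_equiv e (hP (hβ.map e.symm))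
  · intro _ hne
    exact (hne.elim fun x => x.elim)
  · intro α _ hP _ _
    by_cases hne : Nonempty α
    · exact dhj_option (hP hne)
    · have : IsEmpty α := not_nonempty_iff.1 hne
      have : Subsingleton (Option α) := by
        constructor
        intro a b
        cases a with
        | none => cases b with
          | none => rfl
          | some b => exact this.elim b
        | some a => exact this.elim a
      exact dh9_sub (Option α)

theorem dhj (α : Type) [Finite α] [Nonempty α] : DHJ α := dh9_all α inferInstance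

end MRS
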