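import Pool.Agent.MRS.DuX

/-!
# MRS / DuM: (2.2) the product of two dual functions (same `c`)

PROOF.  Let `δ = ε / 4`.  Take `H1 ≥ 1` such that all boxes with sides `≥ H1` are `δ`-good for `D` and for `D'`.  Let `R = box 0 (fun _ => H1)`, `N' = fun _ => H1`.
For `r ∈ R` put `G r ω x = g ω x * g' ω (T (∑_{i ∈ ω} c i * r i) x)` (`b1_mul`, `b1_comp`) and let `E r` be its dual function (`exists_dual`).
Write `P h x = PD T g (c h) x`, `P' h x = PD T g' (c h) x`.  Then `P h x * P' (h + r) x = PD T (G r) (c h) x`: `T (∑_{i ∈ ω} c i (h i + r i)) x = T (∑ c i r i) (T (∑ c i h i) x)`.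
Let `H2 ≥ H1` such that all boxes with sides `≥ H2` are `δ`-good for all `E r`, `r ∈ R`, and `N = fun _ => H2`.  Then (`bavg_comm`, `bavg_shift`, `bavg_mul`)
`bavg 0 N' (r ↦ bavg 0 N (h ↦ P h x * P' (h + r) x)) = bavg 0 N (h ↦ P h x * bavg 0 N' (r ↦ P' (h + r) x)) = bavg 0 N (h ↦ P h x * bavg h N' (r' ↦ P' r' x))`.
The left side is within `δ` of `bavg 0 N' (r ↦ E r x) = (card R)⁻¹ ∑_{r ∈ R} E r x`.  On the right, `bavg h N' (P')` is within `δ` of `D'` for EVERY `h` (the location of the box is free)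
and `|P h| ≤ 1`, so the right side is within `δ` of `bavg 0 N (P h x) * D' x`, which is within `δ` of `D x * D' x` because `|D'| ≤ 1`.  Total `3 δ ≤ ε`.
-/

set_option autoImplicit false

namespace Pool.Agent.MRS.Du

open MeasureTheory Filter Topology
open scoped BigOperators ComplexConjugate

variable {X : Type} [MeasurableSpace X] {mu : Measure X} [IsProbabilityMeasure mu] {T : ℤ → X → X}
  {s : ℕ} {c : Fin s → ℕ} {g g' : Finset (Fin s) → X → ℂ} {D D' : X → ℂ}

/-- the product of two shifted products over the nonempty subsets -/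
private theorem pd_mul (hT : ZAct mu T) (c : Fin s → ℕ) (g g' : Finset (Fin s) → X → ℂ)
    (h r : Fin s → ℤ) (x : X) :
    PD T (fun ω y => g ω y * g' ω (T (∑ i ∈ ω, (c i : ℤ) * r i) y)) (fun i => (c i : ℤ) * h i) x =
      PD T g (fun i => (c i : ℤ) * h i) x * PD T g' (fun i => (c i : ℤ) * (r i + h i)) x := by
  unfold PD
  rw [← Finset.prod_mul_distrib]
  refine Finset.prod_congr rfl fun ω _ => ?_
  show g ω (T (∑ i ∈ ω, (c i : ℤ) * h i) x) *
      g' ω (T (∑ i ∈ ω, (c i : ℤ) * r i) (T (∑ i ∈ ω, (c i : ℤ) * h i) x)) = _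
  rw [← hT.add, ← Finset.sum_add_distrib]
  simp only [mul_add]

private theorem card_bx (N : Fin s → ℕ) :
    ((box (fun _ => 0) N).card : ℂ) = ∏ i, (N i : ℂ) := by
  unfold box
  rw [Fintype.card_piFinset]
  simp

theorem dual_mul (hW : WalshBox) (hT : ZAct mu T) (hg : ∀ ω, B1 (g ω)) (hg' : ∀ ω, B1 (g' ω))
    (hD : IsDual mu T c g D) (hD' : IsDual mu T c g' D') {ε : ℝ} (hε : 0 < ε) :
    ∃ (R : Finset (Fin s → ℤ)) (G : (Fin s → ℤ) → Finset (Fin s) → X → ℂ)
      (E : (Fin s → ℤ) → X → ℂ), R.Nonempty ∧ (∀ r ω, B1 (G r ω)) ∧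
      (∀ r, IsDual mu T c (G r) (E r)) ∧
      n2 mu (fun x => D x * D' x - (R.card : ℂ)⁻¹ * ∑ r ∈ R, E r x) ≤ ε := by
  have hδ : (0 : ℝ) < ε / 4 := by linarith
  obtain ⟨HD, hHD⟩ := hD.lim (ε / 4) hδ
  obtain ⟨HD', hHD'⟩ := hD'.lim (ε / 4) hδ
  obtain ⟨H1, hH1⟩ : ∃ H1 : ℕ, H1 = max HD HD' + 1 := ⟨_, rfl⟩
  obtain ⟨N', hN'⟩ : ∃ N' : Fin s → ℕ, N' = fun _ => H1 := ⟨_, rfl⟩
  obtain ⟨G, hG⟩ : ∃ G : (Fin s → ℤ) → Finset (Fin s) → X → ℂ,
    G = fun r ω y => g ω y * g' ω (T (∑ i ∈ ω, (c i : ℤ) * r i) y) := ⟨_, rfl⟩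
  have hGB : ∀ r ω, B1 (G r ω) := by
    intro r ω
    rw [hG]
    exact b1_mul (hg ω) (b1_comp hT (hg' ω) _)
  choose E hE using fun r => exists_dual hW hT c (hGB r)
  choose HE hHE using fun r => (hE r).lim (ε / 4) hδ
  obtain ⟨R, hR⟩ : ∃ R : Finset (Fin s → ℤ), R = box (fun _ => 0) N' := ⟨_, rfl⟩
  obtain ⟨H2, hH2⟩ : ∃ H2 : ℕ, H2 = max H1 (R.sup HE) := ⟨_, rfl⟩
  obtain ⟨N, hN⟩ : ∃ N : Fin s → ℕ, N = fun _ => H2 := ⟨_, rfl⟩
  have hRne : R.Nonempty := by
    refine ⟨fun _ => 0, ?_⟩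
    rw [hR]
    unfold box
    rw [Fintype.mem_piFinset]
    intro i
    rw [Finset.mem_Ico, hN', hH1]
    constructor
    · exact le_refl _
    · push_cast
      positivity
  refine ⟨R, G, E, hRne, hGB, hE, ?_⟩
  -- the four functions
  obtain ⟨P, hP⟩ : ∃ P : (Fin s → ℤ) → X → ℂ, P = fun h x => PD T g (fun i => (c i : ℤ) * h i) x :=
    ⟨_, rfl⟩
  obtain ⟨P', hP'⟩ : ∃ P' : (Fin s → ℤ) → X → ℂ,
    P' = fun h x => PD T g' (fun i => (c i : ℤ) * h i) x := ⟨_, rfl⟩
  obtain ⟨Q, hQ⟩ : ∃ Q : (Fin s → ℤ) → (Fin s → ℤ) → X → ℂ,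
    Q = fun r h x => PD T (G r) (fun i => (c i : ℤ) * h i) x := ⟨_, rfl⟩
  have hPB : ∀ h, B1 (P h) := by
    intro h; rw [hP]; exact b1_PD hT hg _
  have hPB' : ∀ h, B1 (P' h) := by
    intro h; rw [hP']; exact b1_PD hT hg' _
  have hQB : ∀ r h, B1 (Q r h) := by
    intro r h; rw [hQ]; exact b1_PD hT (hGB r) _
  have hQP : ∀ r h x, Q r h x = P h x * P' (fun i => r i + h i) x := by
    intro r h x
    rw [hQ, hP, hP', hG]
    exact pd_mul hT c g g' h r x
  obtain ⟨L, hL⟩ : ∃ L : X → ℂ,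
    L = fun x => bavg (fun _ => 0) N' (fun r => bavg (fun _ => 0) N (fun h => Q r h x)) := ⟨_, rfl⟩
  obtain ⟨B, hB⟩ : ∃ B : X → ℂ,
    B = fun x => D' x * bavg (fun _ => 0) N (fun h => P h x) := ⟨_, rfl⟩
  obtain ⟨A, hA⟩ : ∃ A : X → ℂ,
    A = fun x => bavg (fun _ => 0) N' (fun r => E r x) := ⟨_, rfl⟩
  have hLB : B1 L := by
    rw [hL]
    exact b1_bavg _ _ (F := fun r x => bavg (fun _ => 0) N (fun h => Q r h x))
      (fun r => b1_bavg _ _ (hQB r))
  have hBB : B1 B := by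
    rw [hB]
    exact b1_mul hD'.b1 (b1_bavg _ _ hPB)
  have hAB : B1 A := by
    rw [hA]
    exact b1_bavg _ _ (fun r => (hE r).b1)
  have hDB : B1 (fun x => D x * D' x) := b1_mul hD.b1 hD'.b1
  -- the averages on the box `R`
  have hAeq : ∀ x, (R.card : ℂ)⁻¹ * ∑ r ∈ R, E r x = A x := by
    intro x
    rw [hA, hR, card_bx]
    rfl
  have h1 : n2 mu (fun x => L x - A x) ≤ ε / 4 := by
    have h : (fun x => L x - A x) = fun x => bavg (fun _ => 0) N'
        (fun r => bavg (fun _ => 0) N (fun h => Q r h x) - E r x) := by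
      funext x
      rw [hL, hA, bavg_sub]
    rw [h]
    refine n2_bavg _ _ (F := fun r x => bavg (fun _ => 0) N (fun h => Q r h x) - E r x)
      (fun r => bm_sub (b1_bm (b1_bavg _ _ (hQB r))) (b1_bm (hE r).b1)) hδ.le ?_
    intro r hr
    have := hHE r (fun _ => 0) N (fun i => by
      rw [hN, hH2]
      have h2 : HE r ≤ R.sup HE := Finset.le_sup (f := HE) (by rw [hR]; exact hr)
      exact le_trans h2 (le_max_right _ _))
    rw [hQ]
    exact this
  have hLeq : ∀ x, L x = bavg (fun _ => 0) N (fun h => P h x * bavg h N' (fun r => P' r x)) := by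
    intro x
    rw [hL]
    simp only [hQP]
    rw [bavg_comm]
    congr 1
    funext h
    rw [bavg_mul]
    congr 1
    have := bavg_shift (fun _ => 0) h N' (fun r => P' r x)
    rw [this]
    congr 1
    funext i
    simp
  have h2 : n2 mu (fun x => L x - B x) ≤ ε / 4 := by
    have h : (fun x => L x - B x) = fun x => bavg (fun _ => 0) N
        (fun h => P h x * (bavg h N' (fun r => P' r x) - D' x)) := by
      funext x
      rw [hLeq, hB]
      simp only
      rw [← bavg_mul, ← bavg_sub]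
      congr 1
      funext h
      ring
    rw [h]
    refine n2_bavg _ _ (F := fun h x => P h x * (bavg h N' (fun r => P' r x) - D' x))
      (fun h => bm_mul (b1_bm (hPB h)) (bm_sub (b1_bm (b1_bavg _ _ hPB')) (b1_bm hD'.b1)))
      hδ.le ?_
    intro h _
    refine le_trans (n2_mul_le (f := fun x => bavg h N' (fun r => P' r x) - D' x) (g := P h)
      (bm_sub (b1_bm (b1_bavg _ _ hPB')) (b1_bm hD'.b1)) (b1_bm (hPB h)) (hPB h).le) ?_
    rw [one_mul]
    have := hHD' h N' (fun i => by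
      rw [hN', hH1]
      exact le_trans (le_max_right _ _) (Nat.le_succ _))
    rw [hP']
    exact this
  have h3 : n2 mu (fun x => B x - D x * D' x) ≤ ε / 4 := by
    have h : (fun x => B x - D x * D' x) = fun x =>
        D' x * (bavg (fun _ => 0) N (fun h => P h x) - D x) := by
      funext x
      rw [hB]
      ring
    rw [h]
    refine le_trans (n2_mul_le (f := fun x => bavg (fun _ => 0) N (fun h => P h x) - D x) (g := D')
      (bm_sub (b1_bm (b1_bavg _ _ hPB)) (b1_bm hD.b1)) (b1_bm hD'.b1) hD'.b1.le) ?_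
    rw [one_mul]
    have := hHD (fun _ => 0) N (fun i => by
      rw [hN, hH2, hH1]
      exact le_trans (le_trans (le_max_left _ _) (Nat.le_succ _)) (le_max_left _ _))
    rw [hP]
    exact this
  simp only [hAeq]
  have t1 := n2_tri (mu := mu) (b1_bm hDB) (b1_bm hBB) (b1_bm hAB)
  have t2 := n2_tri (mu := mu) (b1_bm hBB) (b1_bm hLB) (b1_bm hAB)
  have t3 : n2 mu (fun x => D x * D' x - B x) ≤ ε / 4 := by
    rw [n2_comm (fun x => D x * D' x) B]
    exact h3
  have t4 : n2 mu (fun x => B x - L x) ≤ ε / 4 := by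
    rw [n2_comm B L]
    exact h2
  linarith

end Pool.Agent.MRS.Du
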