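import Pool.Agent.MRS.DuR
import Pool.Agent.MRS.DuM

/-!
# MRS / DuA: the span `DA` of the dual functions: closed under conjugation, products in the closure

`cl_of_mem`: error zero.  `cl_add`, `cl_smul`, `cl_sum`: add (multiply) the approximating elements; `cl_near`: `n2_tri` (elements of `A` are `BM`).
`DA_bm`, `DA_conj`: `Submodule.span_induction` (the conjugate of a dual function is a dual function: `dual_conj`, `b1_conj`).
`DA_mul`.  By a double `Submodule.span_induction` and `cl_add`, `cl_smul` it is enough to treat two dual functions `D` (for `c`, `g`) and `D'` (for `c'`, `g'`).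
`refine_dual` with `e = c'` for `D` and with `e = c` for `D'` (`c' * c = c * c'`): `D = (card R)⁻¹ ∑_r D_r` and `D' = (card R')⁻¹ ∑_r' D'_r'` up to `n2`-distance zero, with all `D_r`, `D'_r'` dual
for `d = c * c'`.  So `D D'` is at `n2`-distance zero from `(card R)⁻¹ (card R')⁻¹ ∑_r ∑_r' D_r D'_r'` (all are bounded by one, `n2_mul_le`), and every `D_r D'_r'` is in the closure by `dual_mul`
(whose approximation is in `DA`).
-/

set_option autoImplicit false

namespace Pool.Agent.MRS.Du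

open MeasureTheory Filter Topology
open scoped BigOperators ComplexConjugate

variable {X : Type} [MeasurableSpace X] {mu : Measure X} [IsProbabilityMeasure mu] {T : ℤ → X → X}

section

variable {A : Submodule ℂ (X → ℂ)}

theorem cl_of_mem {f : X → ℂ} (h : f ∈ A) : Cl mu A f := by
  intro ε hε
  refine ⟨f, h, ?_⟩
  have h1 : n2 mu (fun x => f x - f x) = 0 := by
    unfold n2
    simp
  rw [h1]
  exact hε.le

theorem cl_near (hb : ∀ a ∈ A, BM a) {f : X → ℂ} (hf : BM f)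
    (h : ∀ ε : ℝ, 0 < ε → ∃ f' : X → ℂ, BM f' ∧ Cl mu A f' ∧ n2 mu (fun x => f x - f' x) ≤ ε) :
    Cl mu A f := by
  intro ε hε
  have h2 : 0 < ε / 2 := by positivity
  obtain ⟨f', hf', hcl, hd⟩ := h (ε / 2) h2
  obtain ⟨a, ha, hd'⟩ := hcl (ε / 2) h2
  refine ⟨a, ha, ?_⟩
  have h3 := n2_tri (mu := mu) hf hf' (hb a ha)
  linarith

theorem cl_add (hb : ∀ a ∈ A, BM a) {f g : X → ℂ} (hf : BM f) (hg : BM g) (h : Cl mu A f)
    (h' : Cl mu A g) : Cl mu A (fun x => f x + g x) := by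
  intro ε hε
  have h2 : 0 < ε / 2 := by positivity
  obtain ⟨a, ha, hd⟩ := h (ε / 2) h2
  obtain ⟨a', ha', hd'⟩ := h' (ε / 2) h2
  refine ⟨a + a', A.add_mem ha ha', ?_⟩
  have h3 : (fun x => f x + g x - (a + a') x) = fun x => (f x - a x) + (g x - a' x) := by
    funext x
    rw [Pi.add_apply]
    ring
  rw [h3]
  have h4 := n2_add (mu := mu) (bm_sub hf (hb a ha)) (bm_sub hg (hb a' ha'))
  linarith

theorem cl_smul (hb : ∀ a ∈ A, BM a) (c : ℂ) {f : X → ℂ} (hf : BM f) (h : Cl mu A f) :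
    Cl mu A (fun x => c * f x) := by
  intro ε hε
  have h1 : 0 < ‖c‖ + 1 := by positivity
  have h2 : 0 < ε / (‖c‖ + 1) := by positivity
  obtain ⟨a, ha, hd⟩ := h (ε / (‖c‖ + 1)) h2
  refine ⟨c • a, A.smul_mem c ha, ?_⟩
  have h3 : (fun x => c * f x - (c • a) x) = fun x => c * (f x - a x) := by
    funext x
    rw [Pi.smul_apply, smul_eq_mul]
    ring
  rw [h3, n2_smul]
  have h4 : ‖c‖ * n2 mu (fun x => f x - a x) ≤ (‖c‖ + 1) * (ε / (‖c‖ + 1)) := by
    refine mul_le_mul (by linarith) hd (n2_nonneg _) h1.le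
  have h5 : (‖c‖ + 1) * (ε / (‖c‖ + 1)) = ε := by
    field_simp
  linarith

theorem cl_sum (hb : ∀ a ∈ A, BM a) {κ : Type} (S : Finset κ) {f : κ → X → ℂ}
    (hf : ∀ j ∈ S, BM (f j)) (h : ∀ j ∈ S, Cl mu A (f j)) : Cl mu A (fun x => ∑ j ∈ S, f j x) := by
  classical
  induction S using Finset.induction_on with
  | empty =>
    have h1 : (fun x => ∑ j ∈ (∅ : Finset κ), f j x) = (0 : X → ℂ) := by
      funext x
      simp
    rw [h1]
    exact cl_of_mem A.zero_mem
  | insert a S ha ih =>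
    have h1 : (fun x => ∑ j ∈ insert a S, f j x) = fun x => f a x + ∑ j ∈ S, f j x := by
      funext x
      rw [Finset.sum_insert ha]
    rw [h1]
    have h2 : ∀ j ∈ S, BM (f j) := fun j hj => hf j (Finset.mem_insert_of_mem hj)
    refine cl_add hb (hf a (Finset.mem_insert_self a S)) (bm_sum S h2)
      (h a (Finset.mem_insert_self a S)) (ih h2 (fun j hj => h j (Finset.mem_insert_of_mem hj)))

end

variable {s : ℕ}

theorem DA_bm {a : X → ℂ} (ha : a ∈ DA mu T s) : BM a := by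
  unfold DA at ha
  induction ha using Submodule.span_induction with
  | mem x h =>
    obtain ⟨c, g, _, _, hD⟩ := h
    exact b1_bm hD.b1
  | zero => exact bm_const 0
  | add x y _ _ hx hy => exact bm_add hx hy
  | smul c x _ hx => exact bm_mul (bm_const c) hx

theorem DA_conj {a : X → ℂ} (ha : a ∈ DA mu T s) : (fun x => conj (a x)) ∈ DA mu T s := by
  unfold DA at ha ⊢
  induction ha using Submodule.span_induction with
  | mem x h =>
    obtain ⟨c, g, hc, hg, hD⟩ := h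
    exact Submodule.subset_span ⟨c, fun ω x => conj (g ω x), hc, fun ω => b1_conj (hg ω),
      dual_conj hD⟩
  | zero =>
    have h1 : (fun x : X => conj ((0 : X → ℂ) x)) = 0 := by
      funext x
      simp
    rw [h1]
    exact Submodule.zero_mem _
  | add x y _ _ hx hy =>
    have h1 : (fun z : X => conj ((x + y) z)) = (fun z => conj (x z)) + fun z => conj (y z) := by
      funext z
      simp
    rw [h1]
    exact Submodule.add_mem _ hx hy
  | smul c x _ hx =>
    have h1 : (fun z : X => conj ((c • x) z)) = (conj c) • fun z => conj (x z) := by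
      funext z
      simp
    rw [h1]
    exact Submodule.smul_mem _ _ hx

private theorem avg_mem {R : Finset (Fin s → ℤ)} {c : Fin s → ℕ} (hc : ∀ i, 0 < c i)
    {G : (Fin s → ℤ) → Finset (Fin s) → X → ℂ} {E : (Fin s → ℤ) → X → ℂ}
    (hG : ∀ r ω, B1 (G r ω)) (hE : ∀ r, IsDual mu T c (G r) (E r)) :
    (fun x => (R.card : ℂ)⁻¹ * ∑ r ∈ R, E r x) ∈ DA mu T s := by
  have h1 : (fun x => (R.card : ℂ)⁻¹ * ∑ r ∈ R, E r x) = (R.card : ℂ)⁻¹ • ∑ r ∈ R, E r := by
    funext x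
    rw [Pi.smul_apply, smul_eq_mul, Finset.sum_apply]
  rw [h1]
  refine Submodule.smul_mem _ _ (Submodule.sum_mem _ fun r _ => ?_)
  exact Submodule.subset_span ⟨c, G r, hc, hG r, hE r⟩

private theorem mul_same (hW : WalshBox) (hT : ZAct mu T) {c : Fin s → ℕ} (hc : ∀ i, 0 < c i)
    {g g' : Finset (Fin s) → X → ℂ} {D D' : X → ℂ} (hg : ∀ ω, B1 (g ω)) (hg' : ∀ ω, B1 (g' ω))
    (hD : IsDual mu T c g D) (hD' : IsDual mu T c g' D') :
    Cl mu (DA mu T s) (fun x => D x * D' x) := by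
  intro ε hε
  obtain ⟨R, G, E, _, hG, hE, h⟩ := dual_mul hW hT hg hg' hD hD' hε
  exact ⟨_, avg_mem hc hG hE, h⟩

private theorem mul_dual (hW : WalshBox) (hT : ZAct mu T) {c c' : Fin s → ℕ}
    (hc : ∀ i, 0 < c i) (hc' : ∀ i, 0 < c' i)
    {g g' : Finset (Fin s) → X → ℂ} {D D' : X → ℂ} (hg : ∀ ω, B1 (g ω)) (hg' : ∀ ω, B1 (g' ω))
    (hD : IsDual mu T c g D) (hD' : IsDual mu T c' g' D') :
    Cl mu (DA mu T s) (fun x => D x * D' x) := by
  obtain ⟨R, G, E, _, hG, hE, h0⟩ := refine_dual hW hT hc' hg hD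
  obtain ⟨R', G', E', _, hG', hE', h0'⟩ := refine_dual hW hT hc hg' hD'
  have hcc : (fun i => c' i * c i) = fun i => c i * c' i := by
    funext i
    exact Nat.mul_comm _ _
  rw [hcc] at hE'
  have hpos : ∀ i, 0 < c i * c' i := fun i => Nat.mul_pos (hc i) (hc' i)
  have hb : ∀ a ∈ DA mu T s, BM a := fun a ha => DA_bm ha
  have hmE : ∀ r r', BM (fun x => E r x * E' r' x) := fun r r' =>
    bm_mul (b1_bm (hE r).b1) (b1_bm (hE' r').b1)
  have hcl : ∀ r r', Cl mu (DA mu T s) (fun x => E r x * E' r' x) := fun r r' =>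
    mul_same hW hT hpos (hG r) (hG' r') (hE r) (hE' r')
  have hP : BM (fun x => (R.card : ℂ)⁻¹ * ∑ r ∈ R, E r x) :=
    bm_mul (bm_const _) (bm_sum R fun r _ => b1_bm (hE r).b1)
  have hP' : BM (fun x => (R'.card : ℂ)⁻¹ * ∑ r ∈ R', E' r x) :=
    bm_mul (bm_const _) (bm_sum R' fun r _ => b1_bm (hE' r).b1)
  refine cl_near hb (bm_mul (b1_bm hD.b1) (b1_bm hD'.b1)) fun ε hε => ?_
  refine ⟨fun x => ((R.card : ℂ)⁻¹ * ∑ r ∈ R, E r x) * ((R'.card : ℂ)⁻¹ * ∑ r ∈ R', E' r x),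
    bm_mul hP hP', ?_, ?_⟩
  · have h1 : (fun x => ((R.card : ℂ)⁻¹ * ∑ r ∈ R, E r x) *
        ((R'.card : ℂ)⁻¹ * ∑ r ∈ R', E' r x)) =
        fun x => ((R.card : ℂ)⁻¹ * (R'.card : ℂ)⁻¹) * ∑ r ∈ R, ∑ r' ∈ R', E r x * E' r' x := by
      funext x
      rw [← Finset.sum_mul_sum]
      ring
    rw [h1]
    refine cl_smul hb _ (bm_sum R fun r _ => bm_sum R' fun r' _ => hmE r r') ?_
    exact cl_sum hb R (fun r _ => bm_sum R' fun r' _ => hmE r r')
      (fun r _ => cl_sum hb R' (fun r' _ => hmE r r') (fun r' _ => hcl r r'))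
  · have h2 := n2_tri (mu := mu) (f := fun x => D x * D' x)
      (g := fun x => D x * ((R'.card : ℂ)⁻¹ * ∑ r ∈ R', E' r x))
      (h := fun x => ((R.card : ℂ)⁻¹ * ∑ r ∈ R, E r x) * ((R'.card : ℂ)⁻¹ * ∑ r ∈ R', E' r x))
      (bm_mul (b1_bm hD.b1) (b1_bm hD'.b1)) (bm_mul (b1_bm hD.b1) hP') (bm_mul hP hP')
    refine h2.trans ?_
    have h3 : n2 mu (fun x => D x * D' x - D x * ((R'.card : ℂ)⁻¹ * ∑ r ∈ R', E' r x)) ≤ 0 := by
      have h4 : (fun x => D x * D' x - D x * ((R'.card : ℂ)⁻¹ * ∑ r ∈ R', E' r x)) =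
          fun x => D x * (D' x - (R'.card : ℂ)⁻¹ * ∑ r ∈ R', E' r x) := by
        funext x
        ring
      rw [h4]
      have h5 := n2_mul_le (mu := mu) (bm_sub (b1_bm hD'.b1) hP') (b1_bm hD.b1) hD.b1.le
      have h6 : n2 mu (fun x => D' x - (R'.card : ℂ)⁻¹ * ∑ r ∈ R', E' r x) = 0 := h0'
      rw [h6] at h5
      simpa using h5
    have h7 : n2 mu (fun x => D x * ((R'.card : ℂ)⁻¹ * ∑ r ∈ R', E' r x) -
        ((R.card : ℂ)⁻¹ * ∑ r ∈ R, E r x) * ((R'.card : ℂ)⁻¹ * ∑ r ∈ R', E' r x)) ≤ 0 := by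
      have h4 : (fun x => D x * ((R'.card : ℂ)⁻¹ * ∑ r ∈ R', E' r x) -
          ((R.card : ℂ)⁻¹ * ∑ r ∈ R, E r x) * ((R'.card : ℂ)⁻¹ * ∑ r ∈ R', E' r x)) =
          fun x => ((R'.card : ℂ)⁻¹ * ∑ r ∈ R', E' r x) *
            (D x - (R.card : ℂ)⁻¹ * ∑ r ∈ R, E r x) := by
        funext x
        ring
      rw [h4]
      obtain ⟨C, hC⟩ := hP'.2
      have h5 := n2_mul_le (mu := mu) (bm_sub (b1_bm hD.b1) hP) hP' hC
      have h6 : n2 mu (fun x => D x - (R.card : ℂ)⁻¹ * ∑ r ∈ R, E r x) = 0 := h0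
      rw [h6] at h5
      simpa using h5
    have h8 := hε.le
    linarith

private theorem mul_one_dual (hW : WalshBox) (hT : ZAct mu T) {c' : Fin s → ℕ}
    (hc' : ∀ i, 0 < c' i) {g' : Finset (Fin s) → X → ℂ} {D' : X → ℂ}
    (hg' : ∀ ω, B1 (g' ω)) (hD' : IsDual mu T c' g' D') {a : X → ℂ} (ha : a ∈ DA mu T s) :
    Cl mu (DA mu T s) (fun x => a x * D' x) := by
  have hb : ∀ a ∈ DA mu T s, BM a := fun a ha => DA_bm ha
  have ha' : a ∈ Submodule.span ℂ {D | ∃ (c : Fin s → ℕ) (g : Finset (Fin s) → X → ℂ),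
      (∀ i, 0 < c i) ∧ (∀ ω, B1 (g ω)) ∧ IsDual mu T c g D} := ha
  induction ha' using Submodule.span_induction with
  | mem x h =>
    obtain ⟨c, g, hc, hg, hD⟩ := h
    exact mul_dual hW hT hc hc' hg hg' hD hD'
  | zero =>
    have h1 : (fun x : X => (0 : X → ℂ) x * D' x) = 0 := by
      funext x
      simp
    rw [h1]
    exact cl_of_mem (Submodule.zero_mem _)
  | add x y hx hy ihx ihy =>
    have h1 : (fun z : X => (x + y) z * D' z) = fun z => x z * D' z + y z * D' z := by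
      funext z
      rw [Pi.add_apply]
      ring
    rw [h1]
    exact cl_add hb (bm_mul (DA_bm hx) (b1_bm hD'.b1)) (bm_mul (DA_bm hy) (b1_bm hD'.b1))
      (ihx hx) (ihy hy)
  | smul c x hx ihx =>
    have h1 : (fun z : X => (c • x) z * D' z) = fun z => c * (x z * D' z) := by
      funext z
      rw [Pi.smul_apply, smul_eq_mul]
      ring
    rw [h1]
    exact cl_smul hb c (bm_mul (DA_bm hx) (b1_bm hD'.b1)) (ihx hx)

theorem DA_mul (hW : WalshBox) (hT : ZAct mu T) {a b : X → ℂ} (ha : a ∈ DA mu T s)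
    (hb : b ∈ DA mu T s) : Cl mu (DA mu T s) (fun x => a x * b x) := by
  have hbm : ∀ a ∈ DA mu T s, BM a := fun a ha => DA_bm ha
  have hb' : b ∈ Submodule.span ℂ {D | ∃ (c : Fin s → ℕ) (g : Finset (Fin s) → X → ℂ),
      (∀ i, 0 < c i) ∧ (∀ ω, B1 (g ω)) ∧ IsDual mu T c g D} := hb
  induction hb' using Submodule.span_induction with
  | mem x h =>
    obtain ⟨c, g, hc, hg, hD⟩ := h
    exact mul_one_dual hW hT hc hg hD ha
  | zero =>
    have h1 : (fun x : X => a x * (0 : X → ℂ) x) = 0 := by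
      funext x
      simp
    rw [h1]
    exact cl_of_mem (Submodule.zero_mem _)
  | add x y hx hy ihx ihy =>
    have h1 : (fun z : X => a z * (x + y) z) = fun z => a z * x z + a z * y z := by
      funext z
      rw [Pi.add_apply]
      ring
    rw [h1]
    exact cl_add hbm (bm_mul (DA_bm ha) (DA_bm hx)) (bm_mul (DA_bm ha) (DA_bm hy))
      (ihx hx) (ihy hy)
  | smul c x hx ihx =>
    have h1 : (fun z : X => a z * (c • x) z) = fun z => c * (a z * x z) := by
      funext z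
      rw [Pi.smul_apply, smul_eq_mul]
      ring
    rw [h1]
    exact cl_smul hbm c (bm_mul (DA_bm ha) (DA_bm hx)) (ihx hx)

end Pool.Agent.MRS.Du
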