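import Pool.Agent.MRS.DuP

/-!
# MRS / DuB: the projection of a function bounded by one is bounded by one

Setting: `A` a space of bounded measurable functions, closed under conjugation, products of elements of `A` lie in the closure; `g` is bounded by one; `u ∈ L²` is the projection: in the `L²` closure `Z`
of `A`, `g - u` orthogonal to `A`.  Write `Z' = ` the set of all `z` in `L²` (measurable) which are `L²` limits of elements of `A`.

(1) `a z ∈ Z'` for `a ∈ A`, `z ∈ Z'`: take `b ∈ A` with `‖z - b‖₂ ≤ ε / C`, `‖a‖ ≤ C`; then `a z` is within `ε` of `a b`, which is in the closure.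
(2) `g - u` is orthogonal to `Z'` (continuity of the inner product).
(3) For `a ∈ A`: `∫ |a|² |u|² ≤ ∫ |a|²`.  Proof: `a u ∈ Z'`, so `conj a * (a u) ∈ Z'` (`conj a ∈ A`), hence `0 = ∫ (g - u) conj (conj a * a u) = ∫ a (g - u) conj (a u)`, that is `∫ |a u|² = ∫ a g conj (a u) ≤ ‖a g‖₂ ‖a u‖₂`,
so `‖a u‖₂ ≤ ‖a g‖₂ ≤ ‖a‖₂`.
(4) The same for all `z ∈ Z'`: `∫⁻ |z|² |u|² ≤ ∫⁻ |z|²`: choose `a_n ∈ A` with `a_n → z` in `L²` and (subsequence) almost everywhere; Fatou: `∫⁻ |z|² |u|² ≤ liminf ∫⁻ |a_n|² |u|² ≤ liminf ∫⁻ |a_n|² = ∫⁻ |z|²`.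
(5) For `z ∈ Z'`: `z u ∈ Z'`.  `z u` is in `L²` by (4).  For `a ∈ A` near `z`: `∫ |z - a|² |u|² ≤ ∫ |z - a|²` by (4) (`z - a ∈ Z'`), so `z u` is near `a u ∈ Z'`.
(6) By induction `u ^ (k + 1) ∈ Z'` and `∫⁻ |u|^(2 (k + 1)) ≤ ∫⁻ |u|² =: M < ∞`.  For `δ > 0` the set `{1 + δ ≤ |u|}` has measure at most `M / (1 + δ) ^ (2 (k + 1))` for every `k`, so it is a null set.

`proj_b1`: change `u` on a null set (`u x` if `‖u x‖ ≤ 1`, else `0`); then `n2` is the real number of `eLpNorm`.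
-/

set_option autoImplicit false

namespace Pool.Agent.MRS.Du

open MeasureTheory Filter Topology
open scoped BigOperators ComplexConjugate ENNReal

variable {X : Type} [MeasurableSpace X] {mu : Measure X} [IsProbabilityMeasure mu]

omit [IsProbabilityMeasure mu] in
private theorem n2e {f : X → ℂ} (hf : MemLp f 2 mu) : n2 mu f = (eLpNorm f 2 mu).toReal := by
  rw [hf.eLpNorm_eq_integral_rpow_norm (by norm_num) (by norm_num)]
  rw [ENNReal.toReal_ofReal (by positivity)]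
  unfold n2
  rw [Real.sqrt_eq_rpow]
  norm_num

omit [IsProbabilityMeasure mu] in
private theorem n2o {f : X → ℂ} (hf : MemLp f 2 mu) :
    eLpNorm f 2 mu = ENNReal.ofReal (n2 mu f) := by
  rw [n2e hf, ENNReal.ofReal_toReal hf.2.ne]

omit [IsProbabilityMeasure mu] in
private theorem m_add {f g : X → ℂ} (h1 : MemLp f 2 mu) (h2 : MemLp g 2 mu) :
    n2 mu (fun x => f x + g x) ≤ n2 mu f + n2 mu g := by
  have h3 : MemLp (fun x => f x + g x) 2 mu := h1.add h2
  rw [n2e h1, n2e h2, n2e h3, ← ENNReal.toReal_add h1.2.ne h2.2.ne]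
  refine ENNReal.toReal_mono (ENNReal.add_ne_top.2 ⟨h1.2.ne, h2.2.ne⟩) ?_
  exact eLpNorm_add_le h1.1 h2.1 (by norm_num)

omit [IsProbabilityMeasure mu] in
private theorem m_le {f g : X → ℂ} (hg : MemLp g 2 mu) (h : ∀ x, ‖f x‖ ≤ ‖g x‖) :
    n2 mu f ≤ n2 mu g := by
  refine Real.sqrt_le_sqrt ?_
  refine integral_mono_of_nonneg (Filter.Eventually.of_forall fun x => sq_nonneg _)
    ((memLp_two_iff_integrable_sq_norm hg.1).1 hg) (Filter.Eventually.of_forall fun x => ?_)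
  exact pow_le_pow_left₀ (norm_nonneg _) (h x) 2

omit [IsProbabilityMeasure mu] in
private theorem m_mem {f g : X → ℂ} {C : ℝ} (hf : MemLp f 2 mu) (hg : Measurable g)
    (hC : ∀ x, ‖g x‖ ≤ C) : MemLp (fun x => g x * f x) 2 mu := by
  refine MemLp.of_le_mul (c := C) hf (hg.aestronglyMeasurable.mul hf.1)
    (Filter.Eventually.of_forall fun x => ?_)
  rw [norm_mul]
  exact mul_le_mul_of_nonneg_right (hC x) (norm_nonneg _)

omit [IsProbabilityMeasure mu] in
private theorem m_bd {f g : X → ℂ} {C : ℝ} (hC0 : 0 ≤ C) (hf : MemLp f 2 mu)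
    (hC : ∀ x, ‖g x‖ ≤ C) : n2 mu (fun x => g x * f x) ≤ C * n2 mu f := by
  have h1 : n2 mu (fun x => g x * f x) ≤ n2 mu (fun x => (C : ℂ) * f x) := by
    refine m_le (hf.const_mul (C : ℂ)) fun x => ?_
    rw [norm_mul, norm_mul, Complex.norm_real, Real.norm_of_nonneg hC0]
    exact mul_le_mul_of_nonneg_right (hC x) (norm_nonneg _)
  have h2 : n2 mu (fun x => (C : ℂ) * f x) = C * n2 mu f := by
    unfold n2
    simp only [norm_mul, mul_pow]
    rw [integral_const_mul, Real.sqrt_mul (sq_nonneg _), Real.sqrt_sq (norm_nonneg _),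
      Complex.norm_real, Real.norm_of_nonneg hC0]
  rw [h2] at h1
  exact h1

omit [IsProbabilityMeasure mu] in
private theorem m_cs {f g : X → ℂ} (hf : MemLp f 2 mu) (hg : MemLp g 2 mu) :
    ‖∫ x, f x * g x ∂mu‖ ≤ n2 mu f * n2 mu g := by
  have h1 := integral_mul_le_Lp_mul_Lq_of_nonneg (μ := mu) (p := 2) (q := 2)
    (f := fun x => ‖f x‖) (g := fun x => ‖g x‖) ((Real.holderConjugate_iff).2 (by norm_num))
    (Filter.Eventually.of_forall fun x => norm_nonneg _)
    (Filter.Eventually.of_forall fun x => norm_nonneg _)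
    (by
      have h2 := hf.norm
      have h3 : ENNReal.ofReal 2 = 2 := by norm_num
      rw [h3]
      exact h2)
    (by
      have h2 := hg.norm
      have h3 : ENNReal.ofReal 2 = 2 := by norm_num
      rw [h3]
      exact h2)
  refine (norm_integral_le_integral_norm _).trans ?_
  simp only [norm_mul]
  refine h1.trans (le_of_eq ?_)
  unfold n2
  rw [Real.sqrt_eq_rpow, Real.sqrt_eq_rpow]
  norm_num

omit [IsProbabilityMeasure mu] in
private theorem m_int {f g : X → ℂ} (hf : MemLp f 2 mu) (hg : MemLp g 2 mu) :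
    Integrable (fun x => f x * g x) mu :=
  hf.integrable_mul hg

omit [IsProbabilityMeasure mu] in
private theorem m_conj {f : X → ℂ} (hf : MemLp f 2 mu) :
    MemLp (fun x => conj (f x)) 2 mu := by
  refine MemLp.of_le hf (Complex.continuous_conj.comp_aestronglyMeasurable hf.1)
    (Filter.Eventually.of_forall fun x => ?_)
  rw [Complex.norm_conj]

omit [IsProbabilityMeasure mu] in
private theorem n2c (f : X → ℂ) : n2 mu (fun x => conj (f x)) = n2 mu f := by
  unfold n2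
  simp only [Complex.norm_conj]

omit [IsProbabilityMeasure mu] in
private theorem n2p (f : X → ℂ) : 0 ≤ n2 mu f := Real.sqrt_nonneg _

omit [IsProbabilityMeasure mu] in
private theorem n2q (f : X → ℂ) : n2 mu f ^ 2 = ∫ x, ‖f x‖ ^ 2 ∂mu :=
  Real.sq_sqrt (integral_nonneg fun x => sq_nonneg _)

/-- a measurable `L²` limit of elements of `A` -/
private def Zp (mu : Measure X) (A : Submodule ℂ (X → ℂ)) (z : X → ℂ) : Prop :=
  Measurable z ∧ MemLp z 2 mu ∧ Cl mu A z

private theorem zp_mem {A : Submodule ℂ (X → ℂ)} (hb : ∀ a ∈ A, BM a) {a : X → ℂ} (ha : a ∈ A) :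
    MemLp a 2 mu := bm_memLp (hb a ha)

/-- (1) -/
private theorem zmul {A : Submodule ℂ (X → ℂ)} (hb : ∀ a ∈ A, BM a)
    (hm : ∀ a ∈ A, ∀ b ∈ A, Cl mu A (fun x => a x * b x)) {a z : X → ℂ} (ha : a ∈ A)
    (hz : Zp mu A z) : Zp mu A (fun x => a x * z x) := by
  obtain ⟨ham, C, hC⟩ := hb a ha
  obtain ⟨z1, z2, z3⟩ := hz
  have hC' : ∀ x, ‖a x‖ ≤ |C| + 1 := fun x => (hC x).trans (by linarith [le_abs_self C])
  have hp : 0 < |C| + 1 := by linarith [abs_nonneg C]
  refine ⟨ham.mul z1, m_mem z2 ham hC', fun ε hε => ?_⟩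
  obtain ⟨b, hbA, h1⟩ := z3 (ε / 2 / (|C| + 1)) (by positivity)
  obtain ⟨a', ha', h2⟩ := hm a ha b hbA (ε / 2) (by positivity)
  refine ⟨a', ha', ?_⟩
  have m1 : MemLp (fun x => z x - b x) 2 mu := z2.sub (zp_mem hb hbA)
  have m2 : MemLp (fun x => a x * b x - a' x) 2 mu :=
    (m_mem (zp_mem hb hbA) ham hC').sub (zp_mem hb ha')
  have h3 := m_add (m_mem m1 ham hC') m2
  have e : (fun x => a x * (z x - b x) + (a x * b x - a' x)) = fun x => a x * z x - a' x := by
    funext x; ring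
  rw [e] at h3
  have h4 := m_bd hp.le m1 hC'
  have h5 : (|C| + 1) * n2 mu (fun x => z x - b x) ≤ ε / 2 := by
    calc _ ≤ (|C| + 1) * (ε / 2 / (|C| + 1)) := mul_le_mul_of_nonneg_left h1 hp.le
      _ = ε / 2 := by field_simp
  linarith

/-- (2) -/
private theorem zorth {A : Submodule ℂ (X → ℂ)} (hb : ∀ a ∈ A, BM a) {f z : X → ℂ}
    (hf : MemLp f 2 mu) (ho : ∀ a ∈ A, ∫ x, f x * conj (a x) ∂mu = 0) (hz : Zp mu A z) :
    ∫ x, f x * conj (z x) ∂mu = 0 := by
  by_contra hne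
  have ht : 0 < ‖∫ x, f x * conj (z x) ∂mu‖ := norm_pos_iff.2 hne
  set t := ‖∫ x, f x * conj (z x) ∂mu‖ with htd
  have hK := n2p (mu := mu) f
  obtain ⟨a, ha, h1⟩ := hz.2.2 (t / (2 * (n2 mu f + 1))) (by positivity)
  have m1 : MemLp (fun x => z x - a x) 2 mu := hz.2.1.sub (zp_mem hb ha)
  have h2 : ∫ x, f x * conj (z x) ∂mu = ∫ x, f x * conj (z x - a x) ∂mu := by
    have e : (fun x => f x * conj (z x)) = fun x => f x * conj (z x - a x) + f x * conj (a x) := by
      funext x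
      rw [map_sub]
      ring
    rw [e, integral_add (m_int hf (m_conj m1)) (m_int hf (m_conj (zp_mem hb ha))), ho a ha,
      add_zero]
  have h3 := m_cs hf (m_conj m1)
  rw [n2c, ← h2, ← htd] at h3
  have h4 : n2 mu f * n2 mu (fun x => z x - a x) ≤ n2 mu f * (t / (2 * (n2 mu f + 1))) :=
    mul_le_mul_of_nonneg_left h1 hK
  have h5 : n2 mu f * (t / (2 * (n2 mu f + 1))) < t := by
    rw [mul_div_assoc', div_lt_iff₀ (by positivity)]
    nlinarith
  linarith

/-- (3) -/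
private theorem zkey {A : Submodule ℂ (X → ℂ)} (hb : ∀ a ∈ A, BM a)
    (hc : ∀ a ∈ A, (fun x => conj (a x)) ∈ A)
    (hm : ∀ a ∈ A, ∀ b ∈ A, Cl mu A (fun x => a x * b x)) {g : X → ℂ} (hg : B1 g) {u : X → ℂ}
    (hu : Zp mu A u) (ho : ∀ a ∈ A, ∫ x, (g x - u x) * conj (a x) ∂mu = 0) {a : X → ℂ}
    (ha : a ∈ A) : n2 mu (fun x => a x * u x) ≤ n2 mu a := by
  have hw := zmul hb hm ha hu
  have hw2 := zmul hb hm (hc a ha) hw
  have hgm : MemLp g 2 mu := bm_memLp (b1_bm hg)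
  have h1 := zorth hb (hgm.sub hu.2.1) ho hw2
  have ham := zp_mem (mu := mu) hb ha
  have hga : MemLp (fun x => g x * a x) 2 mu := m_mem ham hg.meas hg.le
  have e : ∀ x, (g - u) x * conj (conj (a x) * (a x * u x)) =
      (g x * a x) * conj (a x * u x) - ((‖a x * u x‖ ^ 2 : ℝ) : ℂ) := by
    intro x
    rw [← Complex.normSq_eq_norm_sq, ← Complex.mul_conj, Pi.sub_apply]
    simp only [map_mul, Complex.conj_conj]
    ring
  simp only [e] at h1
  have i2 : Integrable (fun x => ((‖a x * u x‖ ^ 2 : ℝ) : ℂ)) mu :=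
    ((memLp_two_iff_integrable_sq_norm hw.2.1.1).1 hw.2.1).ofReal
  rw [integral_sub (m_int hga (m_conj hw.2.1)) i2, integral_complex_ofReal, ← n2q, sub_eq_zero]
    at h1
  have h2 := m_cs hga (m_conj hw.2.1)
  rw [h1, n2c, Complex.norm_real, Real.norm_of_nonneg (sq_nonneg _)] at h2
  have h3 := m_bd zero_le_one ham hg.le
  rw [one_mul] at h3
  have h4 := n2p (mu := mu) (fun x => a x * u x)
  rcases h4.eq_or_lt with h5 | h5
  · rw [← h5]
    exact n2p a
  · have h6 : n2 mu (fun x => a x * u x) * n2 mu (fun x => a x * u x) ≤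
        n2 mu (fun x => g x * a x) * n2 mu (fun x => a x * u x) := by
      rw [← sq]
      exact h2
    exact (le_of_mul_le_mul_right h6 h5).trans h3

/-- (4) -/
private theorem zfat {A : Submodule ℂ (X → ℂ)} (hb : ∀ a ∈ A, BM a)
    {u : X → ℂ} (hu : Measurable u) (hu2 : MemLp u 2 mu)
    (hk : ∀ a ∈ A, n2 mu (fun x => a x * u x) ≤ n2 mu a) {z : X → ℂ} (hz : Zp mu A z) :
    MemLp (fun x => z x * u x) 2 mu ∧ n2 mu (fun x => z x * u x) ≤ n2 mu z := by
  classical
  obtain ⟨z1, z2, z3⟩ := hz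
  set v : ℕ → X → ℂ := fun M x => if ‖u x‖ ≤ M then u x else 0 with hv
  have vm : ∀ M, Measurable (v M) := fun M =>
    Measurable.ite (measurableSet_le hu.norm measurable_const) hu measurable_const
  have vM : ∀ M x, ‖v M x‖ ≤ M := by
    intro M x
    rw [hv]
    dsimp only
    split_ifs with h
    · exact h
    · rw [norm_zero]
      exact Nat.cast_nonneg M
  have vu : ∀ M x, ‖v M x‖ ≤ ‖u x‖ := by
    intro M x
    rw [hv]
    dsimp only
    split_ifs with h
    · exact le_rfl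
    · rw [norm_zero]
      exact norm_nonneg _
  have m0 : ∀ M, MemLp (fun x => z x * v M x) 2 mu := by
    intro M
    have := m_mem z2 (vm M) (vM M)
    have e : (fun x => z x * v M x) = fun x => v M x * z x := by funext x; ring
    rw [e]
    exact this
  have step : ∀ M, n2 mu (fun x => z x * v M x) ≤ n2 mu z := by
    intro M
    refine le_of_forall_pos_le_add fun δ hδ => ?_
    have hM : (0 : ℝ) < (M : ℝ) + 1 := by positivity
    obtain ⟨a, ha, h1⟩ := z3 (δ / (M + 1)) (by positivity)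
    have ham := zp_mem (mu := mu) hb ha
    have m1 : MemLp (fun x => z x - a x) 2 mu := z2.sub ham
    have m2 : MemLp (fun x => v M x * (z x - a x)) 2 mu := m_mem m1 (vm M) (vM M)
    have m3 : MemLp (fun x => v M x * a x) 2 mu := m_mem ham (vm M) (vM M)
    have h2 := m_add m2 m3
    have e : (fun x => v M x * (z x - a x) + v M x * a x) = fun x => z x * v M x := by
      funext x; ring
    rw [e] at h2
    have h3 := m_bd (Nat.cast_nonneg M) m1 (vM M)
    obtain ⟨am, C, hC⟩ := hb a ha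
    have h4 : n2 mu (fun x => v M x * a x) ≤ n2 mu (fun x => a x * u x) := by
      refine m_le (m_mem hu2 am hC) fun x => ?_
      rw [norm_mul, norm_mul, mul_comm]
      exact mul_le_mul_of_nonneg_left (vu M x) (norm_nonneg _)
    have h5 := hk a ha
    have h6 : n2 mu a ≤ n2 mu z + n2 mu (fun x => z x - a x) := by
      have m4 : MemLp (fun x => a x - z x) 2 mu := ham.sub z2
      have h7 := m_add z2 m4
      have e2 : (fun x => z x + (a x - z x)) = a := by funext x; ring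
      rw [e2] at h7
      have e3 : n2 mu (fun x => a x - z x) = n2 mu (fun x => z x - a x) := by
        unfold n2
        simp only [norm_sub_rev]
      rw [e3] at h7
      exact h7
    have h8 : ((M : ℝ) + 1) * n2 mu (fun x => z x - a x) ≤ δ := by
      calc _ ≤ ((M : ℝ) + 1) * (δ / (M + 1)) := mul_le_mul_of_nonneg_left h1 hM.le
        _ = δ := by field_simp
    linarith
  have hlim : ∀ x, Tendsto (fun M => z x * v M x) atTop (𝓝 (z x * u x)) := by
    intro x
    obtain ⟨M0, hM0⟩ := exists_nat_ge ‖u x‖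
    refine tendsto_const_nhds.congr' ?_
    filter_upwards [Filter.eventually_ge_atTop M0] with M hM
    rw [hv]
    dsimp only
    rw [if_pos (hM0.trans (Nat.cast_le.2 hM))]
  have hfat := Lp.eLpNorm_lim_le_liminf_eLpNorm (p := 2) (μ := mu)
    (f := fun M x => z x * v M x) (fun M => (m0 M).1) (fun x => z x * u x)
    (Filter.Eventually.of_forall hlim)
  have hle : eLpNorm (fun x => z x * u x) 2 mu ≤ ENNReal.ofReal (n2 mu z) := by
    refine hfat.trans ?_
    refine (Filter.liminf_le_liminf (v := fun _ : ℕ => ENNReal.ofReal (n2 mu z))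
      (Filter.Eventually.of_forall fun M => ?_)).trans (Filter.liminf_const _).le
    rw [n2o (m0 M)]
    exact ENNReal.ofReal_le_ofReal (step M)
  have hmem : MemLp (fun x => z x * u x) 2 mu :=
    ⟨(z1.mul hu).aestronglyMeasurable, lt_of_le_of_lt hle ENNReal.ofReal_lt_top⟩
  refine ⟨hmem, ?_⟩
  rw [n2e hmem]
  exact ENNReal.toReal_le_of_le_ofReal (n2p z) hle

/-- (5) -/
private theorem zpow {A : Submodule ℂ (X → ℂ)} (hb : ∀ a ∈ A, BM a)
    (hm : ∀ a ∈ A, ∀ b ∈ A, Cl mu A (fun x => a x * b x))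
    {u : X → ℂ} (hu : Zp mu A u)
    (hk : ∀ a ∈ A, n2 mu (fun x => a x * u x) ≤ n2 mu a) {z : X → ℂ} (hz : Zp mu A z) :
    Zp mu A (fun x => z x * u x) := by
  refine ⟨hz.1.mul hu.1, (zfat hb hu.1 hu.2.1 hk hz).1, fun ε hε => ?_⟩
  obtain ⟨a, ha, h1⟩ := hz.2.2 (ε / 2) (by positivity)
  obtain ⟨a', ha', h2⟩ := (zmul hb hm ha hu).2.2 (ε / 2) (by positivity)
  have hza : Zp mu A (fun x => z x - a x) := by
    refine ⟨hz.1.sub (hb a ha).1, hz.2.1.sub (zp_mem hb ha), fun δ hδ => ?_⟩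
    obtain ⟨b, hbA, h3⟩ := hz.2.2 δ hδ
    refine ⟨b - a, A.sub_mem hbA ha, ?_⟩
    have e : (fun x => z x - a x - (b - a) x) = fun x => z x - b x := by
      funext x
      rw [Pi.sub_apply]
      ring
    rw [e]
    exact h3
  obtain ⟨f1, f2⟩ := zfat hb hu.1 hu.2.1 hk hza
  refine ⟨a', ha', ?_⟩
  have m2 : MemLp (fun x => a x * u x - a' x) 2 mu :=
    (zmul hb hm ha hu).2.1.sub (zp_mem hb ha')
  have h3 := m_add f1 m2
  have e : (fun x => (z x - a x) * u x + (a x * u x - a' x)) = fun x => z x * u x - a' x := by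
    funext x; ring
  rw [e] at h3
  linarith

theorem proj_bound (A : Submodule ℂ (X → ℂ)) (hb : ∀ a ∈ A, BM a)
    (hc : ∀ a ∈ A, (fun x => conj (a x)) ∈ A)
    (hm : ∀ a ∈ A, ∀ b ∈ A, Cl mu A (fun x => a x * b x)) {g : X → ℂ} (hg : B1 g) {u : X → ℂ}
    (hu : Measurable u) (hu2 : MemLp u 2 mu)
    (hcl : ∀ ε : ℝ, 0 < ε → ∃ a ∈ A, eLpNorm (fun x => u x - a x) 2 mu ≤ ENNReal.ofReal ε)
    (ho : ∀ a ∈ A, ∫ x, (g x - u x) * conj (a x) ∂mu = 0) : ∀ᵐ x ∂mu, ‖u x‖ ≤ 1 := by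
  have hZ : Zp mu A u := by
    refine ⟨hu, hu2, fun ε hε => ?_⟩
    obtain ⟨a, ha, h⟩ := hcl ε hε
    refine ⟨a, ha, ?_⟩
    have hmem : MemLp (fun x => u x - a x) 2 mu := hu2.sub (zp_mem hb ha)
    rw [n2e hmem]
    exact ENNReal.toReal_le_of_le_ofReal hε.le h
  have hk : ∀ a ∈ A, n2 mu (fun x => a x * u x) ≤ n2 mu a :=
    fun a ha => zkey hb hc hm hg hZ ho ha
  have hpow : ∀ k : ℕ, Zp mu A (fun x => u x ^ (k + 1)) ∧
      n2 mu (fun x => u x ^ (k + 1)) ≤ n2 mu u := by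
    intro k
    induction k with
    | zero =>
      simp only [zero_add, pow_one]
      exact ⟨hZ, le_rfl⟩
    | succ k ih =>
      have h1 := zpow hb hm hZ hk ih.1
      have h2 := (zfat hb hu hu2 hk ih.1).2
      have e : (fun x => u x ^ (k + 1) * u x) = fun x => u x ^ (k + 1 + 1) := by
        funext x
        rw [pow_succ (u x) (k + 1)]
      rw [e] at h1 h2
      exact ⟨h1, h2.trans ih.2⟩
  have hnull : ∀ δ : ℝ, 0 < δ → mu {x | 1 + δ ≤ ‖u x‖} = 0 := by
    intro δ hδ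
    have hb1 : ∀ k : ℕ, (1 + δ) ^ k * mu.real {x | 1 + δ ≤ ‖u x‖} ≤ n2 mu u ^ 2 := by
      intro k
      have hi := (memLp_two_iff_integrable_sq_norm (hpow k).1.2.1.1).1 (hpow k).1.2.1
      have h1 := mul_meas_ge_le_integral_of_nonneg (μ := mu)
        (f := fun x => ‖u x ^ (k + 1)‖ ^ 2) (Filter.Eventually.of_forall fun x => sq_nonneg _)
        hi ((1 + δ) ^ k)
      rw [← n2q] at h1
      have h2 : n2 mu (fun x => u x ^ (k + 1)) ^ 2 ≤ n2 mu u ^ 2 :=
        pow_le_pow_left₀ (n2p _) (hpow k).2 2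
      refine le_trans (mul_le_mul_of_nonneg_left ?_ (by positivity)) (h1.trans h2)
      refine measureReal_mono ?_ (measure_ne_top _ _)
      intro x hx
      have hx' : 1 + δ ≤ ‖u x‖ := hx
      show (1 + δ) ^ k ≤ ‖u x ^ (k + 1)‖ ^ 2
      rw [norm_pow, ← pow_mul]
      calc (1 + δ) ^ k ≤ (1 + δ) ^ ((k + 1) * 2) :=
            pow_le_pow_right₀ (by linarith) (by omega)
        _ ≤ ‖u x‖ ^ ((k + 1) * 2) := pow_le_pow_left₀ (by linarith) hx' _
    by_contra hne
    have hpos : 0 < mu.real {x | 1 + δ ≤ ‖u x‖} :=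
      ENNReal.toReal_pos hne (measure_ne_top _ _)
    obtain ⟨k, hk'⟩ := pow_unbounded_of_one_lt
      (n2 mu u ^ 2 / mu.real {x | 1 + δ ≤ ‖u x‖}) (show (1 : ℝ) < 1 + δ by linarith)
    rw [div_lt_iff₀ hpos] at hk'
    linarith [hb1 k]
  have hall : ∀ᵐ x ∂mu, ∀ n : ℕ, ¬ (1 + 1 / ((n : ℝ) + 1) ≤ ‖u x‖) := by
    rw [ae_all_iff]
    intro n
    have := hnull (1 / ((n : ℝ) + 1)) (by positivity)
    rw [ae_iff]
    simpa using this
  filter_upwards [hall] with x hx
  by_contra hcon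
  push Not at hcon
  obtain ⟨n, hn⟩ := exists_nat_one_div_lt (show (0 : ℝ) < ‖u x‖ - 1 by linarith)
  exact hx n (by linarith)

theorem proj_b1 (A : Submodule ℂ (X → ℂ)) (hb : ∀ a ∈ A, BM a)
    (hc : ∀ a ∈ A, (fun x => conj (a x)) ∈ A)
    (hm : ∀ a ∈ A, ∀ b ∈ A, Cl mu A (fun x => a x * b x)) {g : X → ℂ} (hg : B1 g) :
    ∃ u : X → ℂ, B1 u ∧ Cl mu A u ∧ ∀ a ∈ A, ∫ x, (g x - u x) * conj (a x) ∂mu = 0 := by
  classical
  obtain ⟨u, hu, hu2, hcl, ho⟩ := proj_L2 (mu := mu) A hb (b1_bm hg)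
  have hbd := proj_bound A hb hc hm hg hu hu2 hcl ho
  have hae : (fun x => if ‖u x‖ ≤ 1 then u x else 0) =ᵐ[mu] u := by
    filter_upwards [hbd] with x hx
    rw [if_pos hx]
  refine ⟨fun x => if ‖u x‖ ≤ 1 then u x else 0, ⟨?_, ?_⟩, ?_, ?_⟩
  · exact Measurable.ite (measurableSet_le hu.norm measurable_const) hu measurable_const
  · intro x
    split_ifs with h
    · exact h
    · rw [norm_zero]
      exact zero_le_one
  · intro ε hε
    obtain ⟨a, ha, h⟩ := hcl ε hε
    refine ⟨a, ha, ?_⟩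
    have hmem : MemLp (fun x => u x - a x) 2 mu := hu2.sub (zp_mem hb ha)
    have h2 : n2 mu (fun x => (if ‖u x‖ ≤ 1 then u x else 0) - a x) =
        n2 mu (fun x => u x - a x) := by
      unfold n2
      congr 1
      refine integral_congr_ae ?_
      filter_upwards [hae] with x hx
      rw [hx]
    rw [h2, n2e hmem]
    exact ENNReal.toReal_le_of_le_ofReal hε.le h
  · intro a ha
    refine Eq.trans (integral_congr_ae ?_) (ho a ha)
    filter_upwards [hae] with x hx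
    rw [hx]

end Pool.Agent.MRS.Du
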