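import Pool.Agent.MRS.DuD

/-!
# MRS / DuC: closure properties of `Dec`

All are bookkeeping: concatenate the finite families (`Fin.append`, or index by `Fin (J + J')` with `Fin.addCases`), multiply the moduli `W0`.
`dec_near`: take `F'` for `ε / 2`, its decomposition for `ε / 2`, modulus `W * W0`.
`dec_smul`: for `b = 0` trivial (constant zero), otherwise use `ε / ‖b‖`.
`dec_const`, `dec_null`: `J = 0` and `J = 1`.
-/

set_option autoImplicit false

namespace Pool.Agent.MRS.Du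

open MeasureTheory Filter Topology
open scoped BigOperators ComplexConjugate

variable {l : ℕ} {F G : ℤ → ℂ}

theorem dec_const (l : ℕ) (c : ℂ) : Dec l (fun _ => c) := by
  intro ε hε
  refine ⟨1, c, 0, fun _ => 0, fun _ => 0, fun _ _ => 0, one_pos, fun j => j.elim0, fun n _ => ?_⟩
  simp [hε.le]

theorem dec_null {l' : ℕ} (h1 : 1 ≤ l') (h2 : l' ≤ l) (h : IsNullTerm l' F) : Dec l F := by
  intro ε hε
  refine ⟨1, 0, 1, fun _ => 1, fun _ => l', fun _ => F, one_pos, fun _ => ⟨h1, h2, h⟩,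
    fun n _ => ?_⟩
  simp [hε.le]

theorem dec_mono {l' : ℕ} (h : l ≤ l') (hF : Dec l F) : Dec l' F := by
  intro ε hε
  obtain ⟨W0, c, J, a, l1, G, hW, hG, hF⟩ := hF ε hε
  exact ⟨W0, c, J, a, l1, G, hW, fun j => ⟨(hG j).1, (hG j).2.1.trans h, (hG j).2.2⟩, hF⟩

theorem dec_add (hF : Dec l F) (hG : Dec l G) : Dec l (fun n => F n + G n) := by
  intro ε hε
  obtain ⟨W1, c1, J1, a1, l1, G1, hW1, hG1, hF1⟩ := hF (ε / 2) (half_pos hε)
  obtain ⟨W2, c2, J2, a2, l2, G2, hW2, hG2, hF2⟩ := hG (ε / 2) (half_pos hε)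
  refine ⟨W1 * W2, c1 + c2, J1 + J2, Fin.append a1 a2, Fin.append l1 l2, Fin.append G1 G2,
    Nat.mul_pos hW1 hW2, ?_, ?_⟩
  · intro j
    refine Fin.addCases (fun i => ?_) (fun i => ?_) j
    · rw [Fin.append_left, Fin.append_left]
      exact hG1 i
    · rw [Fin.append_right, Fin.append_right]
      exact hG2 i
  · intro n hn
    have h1 := hF1 n (dvd_trans ⟨(W2 : ℤ), by push_cast; ring⟩ hn)
    have h2 := hF2 n (dvd_trans ⟨(W1 : ℤ), by push_cast; ring⟩ hn)
    rw [Fin.sum_univ_add]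
    simp only [Fin.append_left, Fin.append_right]
    have h3 : F n + G n - (c1 + c2) - (∑ i, a1 i * G1 i n + ∑ i, a2 i * G2 i n) =
        (F n - c1 - ∑ i, a1 i * G1 i n) + (G n - c2 - ∑ i, a2 i * G2 i n) := by ring
    rw [h3]
    calc _ ≤ _ := norm_add_le _ _
      _ ≤ ε / 2 + ε / 2 := add_le_add h1 h2
      _ = ε := by ring

theorem dec_smul (b : ℂ) (hF : Dec l F) : Dec l (fun n => b * F n) := by
  intro ε hε
  by_cases hb : b = 0
  · obtain ⟨W0, c, J, a, l1, G, hW, hG, h⟩ := dec_const l 0 ε hε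
    refine ⟨W0, c, J, a, l1, G, hW, hG, fun n hn => ?_⟩
    have h1 := h n hn
    simpa [hb] using h1
  · have hb' : 0 < ‖b‖ := norm_pos_iff.2 hb
    obtain ⟨W0, c, J, a, l1, G, hW, hG, h⟩ := hF (ε / ‖b‖) (div_pos hε hb')
    refine ⟨W0, b * c, J, fun j => b * a j, l1, G, hW, hG, fun n hn => ?_⟩
    have h1 := h n hn
    have h2 : b * F n - b * c - ∑ j, b * a j * G j n = b * (F n - c - ∑ j, a j * G j n) := by
      rw [mul_sub, mul_sub, Finset.mul_sum]
      simp only [mul_assoc]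
    rw [h2, norm_mul]
    calc ‖b‖ * ‖F n - c - ∑ j, a j * G j n‖ ≤ ‖b‖ * (ε / ‖b‖) :=
          mul_le_mul_of_nonneg_left h1 (norm_nonneg _)
      _ = ε := by field_simp

theorem dec_sum {κ : Type} (S : Finset κ) {f : κ → ℤ → ℂ} (hf : ∀ j ∈ S, Dec l (f j)) :
    Dec l (fun n => ∑ j ∈ S, f j n) := by
  classical
  induction S using Finset.induction_on with
  | empty =>
    have h := dec_const l 0
    simpa using h
  | insert a S ha ih =>
    have h1 := ih fun j hj => hf j (Finset.mem_insert_of_mem hj)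
    have h2 := dec_add (hf a (Finset.mem_insert_self a S)) h1
    have h3 : (fun n => ∑ j ∈ insert a S, f j n) = fun n => f a n + ∑ j ∈ S, f j n := by
      funext n
      rw [Finset.sum_insert ha]
    rw [h3]
    exact h2

theorem dec_near (h : ∀ ε : ℝ, 0 < ε → ∃ (W : ℕ) (F' : ℤ → ℂ), 0 < W ∧ Dec l F' ∧
    ∀ n : ℤ, (W : ℤ) ∣ n → ‖F n - F' n‖ ≤ ε) : Dec l F := by
  intro ε hε
  obtain ⟨W, F', hW, hF', hn⟩ := h (ε / 2) (half_pos hε)
  obtain ⟨W0, c, J, a, l1, G, hW0, hG, h1⟩ := hF' (ε / 2) (half_pos hε)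
  refine ⟨W * W0, c, J, a, l1, G, Nat.mul_pos hW hW0, hG, fun n hnd => ?_⟩
  have h2 := hn n (dvd_trans ⟨(W0 : ℤ), by push_cast; ring⟩ hnd)
  have h3 := h1 n (dvd_trans ⟨(W : ℤ), by push_cast; ring⟩ hnd)
  have h4 : F n - c - ∑ j, a j * G j n = (F n - F' n) + (F' n - c - ∑ j, a j * G j n) := by ring
  rw [h4]
  calc _ ≤ _ := norm_add_le _ _
    _ ≤ ε / 2 + ε / 2 := add_le_add h2 h3
    _ = ε := by ring

theorem dec_congr (h : ∀ n, F n = G n) (hF : Dec l F) : Dec l G := by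
  have h1 : F = G := funext h
  rw [← h1]
  exact hF

end Pool.Agent.MRS.Du
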