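import Pool.Agent.MRS.Defs

/-!
# MRS / DuD: dual functions (part D*, section 2 of the paper text), definitions

`n2 mu f` is the `L²` seminorm, used only for bounded measurable functions (`BM`).
`PD T g e x = ∏_{ω ≠ ∅} g_ω (T (∑_{i ∈ ω} e i) x)`.
`IsDual mu T c g D`: `D` is the limit of the box averages of `PD T g (c h)` (all sides to infinity, any location).
`DA mu T s`: the span of the dual functions of order `s`.  `Cl mu A f`: `f` is in the `L²` closure of `A`.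
`Dec l F`: the conclusion of `DecompThm` for the single sequence `F`.
-/

set_option autoImplicit false

namespace Pool.Agent.MRS.Du

open MeasureTheory Filter Topology
open scoped BigOperators ComplexConjugate

/-- bounded and measurable -/
def BM {X : Type} [MeasurableSpace X] (f : X → ℂ) : Prop :=
  Measurable f ∧ ∃ C : ℝ, ∀ x, ‖f x‖ ≤ C

/-- the `L²` seminorm -/
noncomputable def n2 {X : Type} [MeasurableSpace X] (mu : Measure X) (f : X → ℂ) : ℝ :=
  Real.sqrt (∫ x, ‖f x‖ ^ 2 ∂mu)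

/-- the product over the nonempty subsets -/
noncomputable def PD {X : Type} (T : ℤ → X → X) {s : ℕ} (g : Finset (Fin s) → X → ℂ) (e : Fin s → ℤ)
    (x : X) : ℂ :=
  ∏ ω ∈ (Finset.univ : Finset (Finset (Fin s))).erase ∅, g ω (T (∑ i ∈ ω, e i) x)

/-- `D` is the dual function `D^c(g)` -/
structure IsDual {X : Type} [MeasurableSpace X] (mu : Measure X) (T : ℤ → X → X) {s : ℕ}
    (c : Fin s → ℕ) (g : Finset (Fin s) → X → ℂ) (D : X → ℂ) : Prop where
  b1 : B1 D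
  lim : ∀ ε : ℝ, 0 < ε → ∃ H0 : ℕ, ∀ (a : Fin s → ℤ) (N : Fin s → ℕ), (∀ i, H0 ≤ N i) →
    n2 mu (fun x => bavg a N (fun h => PD T g (fun i => (c i : ℤ) * h i) x) - D x) ≤ ε

/-- the span of the dual functions of order `s` -/
def DA {X : Type} [MeasurableSpace X] (mu : Measure X) (T : ℤ → X → X) (s : ℕ) :
    Submodule ℂ (X → ℂ) :=
  Submodule.span ℂ {D | ∃ (c : Fin s → ℕ) (g : Finset (Fin s) → X → ℂ), (∀ i, 0 < c i) ∧
    (∀ ω, B1 (g ω)) ∧ IsDual mu T c g D}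

/-- in the `L²` closure of `A` -/
def Cl {X : Type} [MeasurableSpace X] (mu : Measure X) (A : Submodule ℂ (X → ℂ)) (f : X → ℂ) :
    Prop :=
  ∀ ε : ℝ, 0 < ε → ∃ a ∈ A, n2 mu (fun x => f x - a x) ≤ ε

/-- the conclusion of `DecompThm` -/
def Dec (l : ℕ) (F : ℤ → ℂ) : Prop :=
  ∀ ε : ℝ, 0 < ε →
    ∃ (W0 : ℕ) (c : ℂ) (J : ℕ) (a : Fin J → ℂ) (l' : Fin J → ℕ) (G : Fin J → ℤ → ℂ),
      0 < W0 ∧ (∀ j, 1 ≤ l' j ∧ l' j ≤ l ∧ IsNullTerm (l' j) (G j)) ∧
      ∀ n : ℤ, (W0 : ℤ) ∣ n → ‖F n - c - ∑ j, a j * G j n‖ ≤ ε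

end Pool.Agent.MRS.Du
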