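import Pool.Agent.MRS.DuD

/-!
# MRS / DuL: the toolbox for the seminorm `n2` on bounded measurable functions

All functions are bounded and measurable (`BM`), `mu` is a probability measure, so every integral exists.
* `BM` is closed under all operations (a finite product of `B1` functions is `B1`, a box average of `B1` functions is `B1`).
* `n2_add`: Minkowski.  Either from `MemLp` and `eLpNorm` with exponent 2, or from the real discriminant argument;
  `n2_cs`: Cauchy-Schwarz, `‖∫ f g‖ ≤ n2 f · n2 g`.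
* `n2_comp`: `T a` preserves the measure.
* `n2_bavg`: for a nonempty box the average has seminorm at most the largest seminorm (`n2_sum`), for an empty one it is zero.
* `complete`: `L²` is complete; the limit function has `‖D‖ ≤ 1` almost everywhere (a subsequence converges almost everywhere), change it on a null set
  (take a measurable representative `D₀` and put `D x = if ‖D₀ x‖ ≤ 1 then D₀ x else 0`).
-/

set_option autoImplicit false

namespace Pool.Agent.MRS.Du

open MeasureTheory Filter Topology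
open scoped BigOperators ComplexConjugate

private theorem meas_sum {X : Type} [MeasurableSpace X] {κ : Type} (S : Finset κ)
    {f : κ → X → ℂ} (hf : ∀ j ∈ S, Measurable (f j)) : Measurable (fun x => ∑ j ∈ S, f j x) := by
  classical
  induction S using Finset.induction_on with
  | empty => simp only [Finset.sum_empty]; exact measurable_const
  | insert a S ha ih =>
    simp only [Finset.sum_insert ha]
    exact (hf a (Finset.mem_insert_self a S)).add
      (ih fun j hj => hf j (Finset.mem_insert_of_mem hj))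

private theorem card_box {ι : Type} [Fintype ι] [DecidableEq ι] (a : ι → ℤ) (N : ι → ℕ) :
    (box a N).card = ∏ i, N i := by
  unfold box
  rw [Fintype.card_piFinset]
  refine Finset.prod_congr rfl fun i _ => ?_
  rw [Int.card_Ico]
  simp

private theorem box_aux {ι : Type} [Fintype ι] (N : ι → ℕ) {s : ℝ} {ε : ℝ} (hε : 0 ≤ ε)
    (h : s ≤ (∏ i, (N i : ℝ)) * ε) : (∏ i, (N i : ℝ))⁻¹ * s ≤ ε := by
  have h3 : 0 ≤ ∏ i, (N i : ℝ) := Finset.prod_nonneg fun i _ => Nat.cast_nonneg _
  refine (mul_le_mul_of_nonneg_left h (inv_nonneg.2 h3)).trans ?_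
  rcases h3.eq_or_lt with h4 | h4
  · rw [← h4, zero_mul, mul_zero]
    exact hε
  · rw [← mul_assoc, inv_mul_cancel₀ h4.ne', one_mul]

private theorem norm_prod_inv {ι : Type} [Fintype ι] (N : ι → ℕ) :
    ‖(∏ i, (N i : ℂ))⁻¹‖ = (∏ i, (N i : ℝ))⁻¹ := by
  rw [norm_inv, norm_prod]
  congr 1
  refine Finset.prod_congr rfl fun i _ => ?_
  rw [Complex.norm_natCast]

private theorem bavg_le0 {ι : Type} [Fintype ι] [DecidableEq ι] (a : ι → ℤ) (N : ι → ℕ)
    {F : (ι → ℤ) → ℂ} {ε : ℝ} (hε : 0 ≤ ε)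
    (h : ∀ z ∈ box a N, ‖F z‖ ≤ ε) : ‖bavg a N F‖ ≤ ε := by
  unfold bavg
  rw [norm_mul, norm_prod_inv]
  refine box_aux N hε ?_
  refine (norm_sum_le _ _).trans ((Finset.sum_le_sum h).trans ?_)
  rw [Finset.sum_const, card_box, nsmul_eq_mul]
  push_cast
  exact le_rfl

section

variable {X : Type} [MeasurableSpace X] {mu : Measure X} [IsProbabilityMeasure mu] {T : ℤ → X → X}

theorem b1_bm {f : X → ℂ} (h : B1 f) : BM f := ⟨h.meas, 1, h.le⟩

theorem b1_one : B1 (fun _ : X => (1 : ℂ)) := ⟨measurable_const, fun _ => by simp⟩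

theorem b1_mul {f g : X → ℂ} (hf : B1 f) (hg : B1 g) : B1 (fun x => f x * g x) := by
  exact ⟨hf.meas.mul hg.meas, fun x => by
    rw [norm_mul]
    exact mul_le_one₀ (hf.le x) (norm_nonneg _) (hg.le x)⟩

theorem b1_conj {f : X → ℂ} (hf : B1 f) : B1 (fun x => conj (f x)) := by
  exact ⟨Complex.continuous_conj.measurable.comp hf.meas, fun x => by
    rw [Complex.norm_conj]
    exact hf.le x⟩

theorem b1_cj {f : X → ℂ} (hf : B1 f) (n : ℕ) : B1 (fun x => cj n (f x)) := by
  by_cases h : Even n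
  · simp only [cj, if_pos h]
    exact hf
  · simp only [cj, if_neg h]
    exact b1_conj hf

theorem b1_comp (hT : ZAct mu T) {f : X → ℂ} (hf : B1 f) (a : ℤ) : B1 (fun x => f (T a x)) := by
  exact ⟨hf.meas.comp (hT.mp a).measurable, fun x => hf.le _⟩

theorem b1_prod {κ : Type} (S : Finset κ) {f : κ → X → ℂ} (hf : ∀ j ∈ S, B1 (f j)) :
    B1 (fun x => ∏ j ∈ S, f j x) := by
  classical
  induction S using Finset.induction_on with
  | empty => simp only [Finset.prod_empty]; exact b1_one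
  | insert a S ha ih =>
    simp only [Finset.prod_insert ha]
    exact b1_mul (hf a (Finset.mem_insert_self a S))
      (ih fun j hj => hf j (Finset.mem_insert_of_mem hj))

theorem b1_bavg {ι : Type} [Fintype ι] [DecidableEq ι] (a : ι → ℤ) (N : ι → ℕ)
    {F : (ι → ℤ) → X → ℂ} (hF : ∀ z, B1 (F z)) : B1 (fun x => bavg a N (fun z => F z x)) := by
  refine ⟨?_, fun x => bavg_le0 a N zero_le_one fun z _ => (hF z).le x⟩
  unfold bavg
  exact (meas_sum _ fun z _ => (hF z).meas).const_mul _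

theorem b1_PD (hT : ZAct mu T) {s : ℕ} {g : Finset (Fin s) → X → ℂ} (hg : ∀ ω, B1 (g ω))
    (e : Fin s → ℤ) : B1 (fun x => PD T g e x) := by
  unfold PD
  exact b1_prod _ fun ω _ => b1_comp hT (hg ω) _

theorem bm_add {f g : X → ℂ} (hf : BM f) (hg : BM g) : BM (fun x => f x + g x) := by
  obtain ⟨h1, C, hC⟩ := hf
  obtain ⟨h2, D, hD⟩ := hg
  exact ⟨h1.add h2, C + D, fun x => (norm_add_le _ _).trans (add_le_add (hC x) (hD x))⟩

theorem bm_sub {f g : X → ℂ} (hf : BM f) (hg : BM g) : BM (fun x => f x - g x) := by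
  obtain ⟨h1, C, hC⟩ := hf
  obtain ⟨h2, D, hD⟩ := hg
  exact ⟨h1.sub h2, C + D, fun x => (norm_sub_le _ _).trans (add_le_add (hC x) (hD x))⟩

theorem bm_mul {f g : X → ℂ} (hf : BM f) (hg : BM g) : BM (fun x => f x * g x) := by
  obtain ⟨h1, C, hC⟩ := hf
  obtain ⟨h2, D, hD⟩ := hg
  refine ⟨h1.mul h2, C * D, fun x => ?_⟩
  rw [norm_mul]
  exact mul_le_mul (hC x) (hD x) (norm_nonneg _) ((norm_nonneg _).trans (hC x))

theorem bm_const (c : ℂ) : BM (fun _ : X => c) := by
  exact ⟨measurable_const, ‖c‖, fun _ => le_rfl⟩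

theorem bm_conj {f : X → ℂ} (hf : BM f) : BM (fun x => conj (f x)) := by
  obtain ⟨h1, C, hC⟩ := hf
  exact ⟨Complex.continuous_conj.measurable.comp h1, C, fun x => by
    rw [Complex.norm_conj]
    exact hC x⟩

theorem bm_comp (hT : ZAct mu T) {f : X → ℂ} (hf : BM f) (a : ℤ) : BM (fun x => f (T a x)) := by
  obtain ⟨h1, C, hC⟩ := hf
  exact ⟨h1.comp (hT.mp a).measurable, C, fun x => hC _⟩

theorem bm_sum {κ : Type} (S : Finset κ) {f : κ → X → ℂ} (hf : ∀ j ∈ S, BM (f j)) :
    BM (fun x => ∑ j ∈ S, f j x) := by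
  classical
  induction S using Finset.induction_on with
  | empty => simp only [Finset.sum_empty]; exact bm_const 0
  | insert a S ha ih =>
    simp only [Finset.sum_insert ha]
    exact bm_add (hf a (Finset.mem_insert_self a S))
      (ih fun j hj => hf j (Finset.mem_insert_of_mem hj))

theorem bm_int {f : X → ℂ} (hf : BM f) : Integrable f mu := by
  obtain ⟨h1, C, hC⟩ := hf
  exact Integrable.of_bound h1.aestronglyMeasurable C (Filter.Eventually.of_forall hC)

theorem bm_int2 {f : X → ℂ} (hf : BM f) : Integrable (fun x => ‖f x‖ ^ 2) mu := by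
  obtain ⟨h1, C, hC⟩ := hf
  refine Integrable.of_bound (h1.norm.pow_const 2).aestronglyMeasurable (C ^ 2)
    (Filter.Eventually.of_forall fun x => ?_)
  rw [Real.norm_of_nonneg (sq_nonneg _)]
  exact pow_le_pow_left₀ (norm_nonneg _) (hC x) 2

theorem bm_memLp {f : X → ℂ} (hf : BM f) : MemLp f 2 mu := by
  obtain ⟨h1, C, hC⟩ := hf
  exact MemLp.of_bound h1.aestronglyMeasurable C (Filter.Eventually.of_forall hC)

theorem n2_nonneg (f : X → ℂ) : 0 ≤ n2 mu f := Real.sqrt_nonneg _

theorem n2_sq (f : X → ℂ) : n2 mu f ^ 2 = ∫ x, ‖f x‖ ^ 2 ∂mu := by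
  exact Real.sq_sqrt (integral_nonneg fun x => sq_nonneg _)

omit [IsProbabilityMeasure mu] in
private theorem n2_eq {f : X → ℂ} (hf : MemLp f 2 mu) : n2 mu f = (eLpNorm f 2 mu).toReal := by
  rw [hf.eLpNorm_eq_integral_rpow_norm (by norm_num) (by norm_num)]
  rw [ENNReal.toReal_ofReal (by positivity)]
  unfold n2
  rw [Real.sqrt_eq_rpow]
  norm_num

private theorem n2_zero : n2 mu (fun _ : X => (0 : ℂ)) = 0 := by
  unfold n2
  simp

private theorem n2_le_of {f g : X → ℂ} (hg : Integrable (fun x => ‖g x‖ ^ 2) mu)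
    (h : ∀ x, ‖f x‖ ≤ ‖g x‖) : n2 mu f ≤ n2 mu g := by
  refine Real.sqrt_le_sqrt ?_
  refine integral_mono_of_nonneg (Filter.Eventually.of_forall fun x => sq_nonneg _) hg
    (Filter.Eventually.of_forall fun x => ?_)
  exact pow_le_pow_left₀ (norm_nonneg _) (h x) 2

theorem n2_add {f g : X → ℂ} (hf : BM f) (hg : BM g) :
    n2 mu (fun x => f x + g x) ≤ n2 mu f + n2 mu g := by
  have h1 := bm_memLp (mu := mu) hf
  have h2 := bm_memLp (mu := mu) hg
  have h3 : MemLp (fun x => f x + g x) 2 mu := h1.add h2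
  rw [n2_eq h1, n2_eq h2, n2_eq h3, ← ENNReal.toReal_add h1.2.ne h2.2.ne]
  refine ENNReal.toReal_mono (ENNReal.add_ne_top.2 ⟨h1.2.ne, h2.2.ne⟩) ?_
  exact eLpNorm_add_le h1.1 h2.1 (by norm_num)

theorem n2_tri {f g h : X → ℂ} (hf : BM f) (hg : BM g) (hh : BM h) :
    n2 mu (fun x => f x - h x) ≤ n2 mu (fun x => f x - g x) + n2 mu (fun x => g x - h x) := by
  have h1 := n2_add (mu := mu) (bm_sub hf hg) (bm_sub hg hh)
  have h2 : (fun x => f x - g x + (g x - h x)) = fun x => f x - h x := by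
    funext x
    ring
  rw [h2] at h1
  exact h1

theorem n2_comm (f g : X → ℂ) : n2 mu (fun x => f x - g x) = n2 mu (fun x => g x - f x) := by
  unfold n2
  simp only [norm_sub_rev]

theorem n2_smul (c : ℂ) (f : X → ℂ) : n2 mu (fun x => c * f x) = ‖c‖ * n2 mu f := by
  unfold n2
  simp only [norm_mul, mul_pow]
  rw [integral_const_mul, Real.sqrt_mul (sq_nonneg _), Real.sqrt_sq (norm_nonneg _)]

theorem n2_sum {κ : Type} (S : Finset κ) {f : κ → X → ℂ} (hf : ∀ j ∈ S, BM (f j)) :
    n2 mu (fun x => ∑ j ∈ S, f j x) ≤ ∑ j ∈ S, n2 mu (f j) := by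
  classical
  induction S using Finset.induction_on with
  | empty =>
    simp only [Finset.sum_empty]
    rw [n2_zero]
  | insert a S ha ih =>
    simp only [Finset.sum_insert ha]
    exact (n2_add (hf a (Finset.mem_insert_self a S))
      (bm_sum S fun j hj => hf j (Finset.mem_insert_of_mem hj))).trans
      (add_le_add le_rfl (ih fun j hj => hf j (Finset.mem_insert_of_mem hj)))

theorem n2_mul_le {f g : X → ℂ} (hf : BM f) (hg : BM g) {C : ℝ} (hC : ∀ x, ‖g x‖ ≤ C) :
    n2 mu (fun x => g x * f x) ≤ C * n2 mu f := by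
  obtain ⟨x0⟩ := nonempty_of_isProbabilityMeasure mu
  have hC0 : 0 ≤ C := (norm_nonneg _).trans (hC x0)
  have h1 : n2 mu (fun x => g x * f x) ≤ n2 mu (fun x => (C : ℂ) * f x) := by
    refine n2_le_of (bm_int2 (bm_mul (bm_const _) hf)) fun x => ?_
    rw [norm_mul, norm_mul, Complex.norm_real, Real.norm_of_nonneg hC0]
    exact mul_le_mul_of_nonneg_right (hC x) (norm_nonneg _)
  rw [n2_smul, Complex.norm_real, Real.norm_of_nonneg hC0] at h1
  exact h1

theorem n2_conj (f : X → ℂ) : n2 mu (fun x => conj (f x)) = n2 mu f := by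
  unfold n2
  simp only [Complex.norm_conj]

theorem n2_comp (hT : ZAct mu T) {f : X → ℂ} (hf : BM f) (a : ℤ) :
    n2 mu (fun x => f (T a x)) = n2 mu f := by
  unfold n2
  congr 1
  have h1 := integral_map (μ := mu) (φ := T a) (f := fun x => ‖f x‖ ^ 2)
    (hT.mp a).measurable.aemeasurable (hf.1.norm.pow_const 2).aestronglyMeasurable
  rw [(hT.mp a).map_eq] at h1
  exact h1.symm

theorem n2_cs {f g : X → ℂ} (hf : BM f) (hg : BM g) :
    ‖∫ x, f x * g x ∂mu‖ ≤ n2 mu f * n2 mu g := by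
  have h1 := integral_mul_le_Lp_mul_Lq_of_nonneg (μ := mu) (p := 2) (q := 2)
    (f := fun x => ‖f x‖) (g := fun x => ‖g x‖) ((Real.holderConjugate_iff).2 (by norm_num))
    (Filter.Eventually.of_forall fun x => norm_nonneg _)
    (Filter.Eventually.of_forall fun x => norm_nonneg _)
    (by
      have h2 := (bm_memLp (mu := mu) hf).norm
      have h3 : ENNReal.ofReal 2 = 2 := by norm_num
      rw [h3]
      exact h2)
    (by
      have h2 := (bm_memLp (mu := mu) hg).norm
      have h3 : ENNReal.ofReal 2 = 2 := by norm_num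
      rw [h3]
      exact h2)
  refine (norm_integral_le_integral_norm _).trans ?_
  simp only [norm_mul]
  refine h1.trans (le_of_eq ?_)
  unfold n2
  rw [Real.sqrt_eq_rpow, Real.sqrt_eq_rpow]
  norm_num

theorem n2_int {f : X → ℂ} (hf : BM f) : ‖∫ x, f x ∂mu‖ ≤ n2 mu f := by
  have h1 := n2_cs (mu := mu) hf (bm_const (X := X) 1)
  have h2 : n2 mu (fun _ : X => (1 : ℂ)) = 1 := by
    unfold n2
    simp
  rw [h2, mul_one] at h1
  simpa using h1

theorem n2_b1 {f : X → ℂ} (hf : B1 f) : n2 mu f ≤ 1 := by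
  have h2 : n2 mu (fun _ : X => (1 : ℂ)) = 1 := by
    unfold n2
    simp
  rw [← h2]
  refine n2_le_of (bm_int2 (bm_const 1)) fun x => ?_
  rw [norm_one]
  exact hf.le x

theorem n2_ae {f g : X → ℂ} (hf : BM f) (hg : BM g) (h : n2 mu (fun x => f x - g x) = 0) :
    f =ᵐ[mu] g := by
  have h1 := n2_sq (mu := mu) (fun x => f x - g x)
  rw [h, zero_pow two_ne_zero] at h1
  have h2 := (integral_eq_zero_iff_of_nonneg (fun x => sq_nonneg _)
    (bm_int2 (mu := mu) (bm_sub hf hg))).1 h1.symm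
  filter_upwards [h2] with x hx
  have h3 : ‖f x - g x‖ ^ 2 = 0 := hx
  exact sub_eq_zero.1 (norm_eq_zero.1 (pow_eq_zero_iff two_ne_zero |>.1 h3))

theorem n2_congr {f g : X → ℂ} (h : f =ᵐ[mu] g) : n2 mu f = n2 mu g := by
  unfold n2
  congr 1
  refine integral_congr_ae ?_
  filter_upwards [h] with x hx
  rw [hx]

theorem n2_bavg {ι : Type} [Fintype ι] [DecidableEq ι] (a : ι → ℤ) (N : ι → ℕ)
    {F : (ι → ℤ) → X → ℂ} (hF : ∀ z, BM (F z)) {ε : ℝ} (hε : 0 ≤ ε)
    (h : ∀ z ∈ box a N, n2 mu (F z) ≤ ε) : n2 mu (fun x => bavg a N (fun z => F z x)) ≤ ε := by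
  unfold bavg
  rw [n2_smul, norm_prod_inv]
  refine box_aux N hε ?_
  refine (n2_sum _ fun z _ => hF z).trans ((Finset.sum_le_sum h).trans ?_)
  rw [Finset.sum_const, card_box, nsmul_eq_mul]
  push_cast
  exact le_rfl

/-- the projection to the unit disc -/
private noncomputable def pj (z : ℂ) : ℂ := ((max 1 ‖z‖ : ℝ)⁻¹ : ℝ) • z

private theorem pj_meas : Measurable pj := by
  unfold pj
  exact ((measurable_const.max measurable_norm).inv).smul measurable_id

private theorem pj_le (z : ℂ) : ‖pj z‖ ≤ 1 := by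
  unfold pj
  have h : 0 < max 1 ‖z‖ := lt_of_lt_of_le one_pos (le_max_left _ _)
  rw [norm_smul, norm_inv, Real.norm_of_nonneg h.le, inv_mul_le_iff₀ h, mul_one]
  exact le_max_right _ _

private theorem pj_near (w z : ℂ) (hw : ‖w‖ ≤ 1) : ‖w - pj z‖ ≤ ‖w - z‖ := by
  rcases le_or_gt ‖z‖ 1 with h | h
  · unfold pj
    rw [max_eq_left h, inv_one, one_smul]
  · set r := ‖z‖ with hr
    have hr0 : 0 < r := one_pos.trans h
    set e : ℂ := pj z with he
    have hez : z = r • e := by
      rw [he]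
      unfold pj
      rw [max_eq_right h.le, smul_smul, mul_inv_cancel₀ hr0.ne', one_smul]
    have hen : ‖e‖ = 1 := by
      have h1 : ‖z‖ = r * ‖e‖ := by
        conv_lhs => rw [hez]
        rw [norm_smul, Real.norm_of_nonneg hr0.le]
      rw [← hr] at h1
      have h2 : r * ‖e‖ = r * 1 := by rw [← h1, mul_one]
      exact mul_left_cancel₀ hr0.ne' h2
    have h1 := norm_sub_sq_real w e
    have h2 := norm_sub_sq_real w (r • e)
    have h3 : inner ℝ w (r • e) = r * inner ℝ w e := by rw [inner_smul_right]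
    have h4 : ‖r • e‖ = r := by rw [norm_smul, Real.norm_of_nonneg hr0.le, hen, mul_one]
    have h5 : inner ℝ w e ≤ 1 := by
      refine (real_inner_le_norm w e).trans ?_
      rw [hen, mul_one]
      exact hw
    rw [hen] at h1
    rw [h3, h4] at h2
    rw [hez]
    refine le_of_sq_le_sq ?_ (norm_nonneg _)
    rw [h1, h2]
    nlinarith [mul_nonneg (sub_nonneg.2 h.le) (sub_nonneg.2 h5)]

theorem complete (u : ℕ → X → ℂ) (hu : ∀ n, B1 (u n))
    (hc : ∀ ε : ℝ, 0 < ε → ∃ N : ℕ, ∀ m n, N ≤ m → N ≤ n → n2 mu (fun x => u m x - u n x) ≤ ε) :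
    ∃ D : X → ℂ, B1 D ∧ ∀ ε : ℝ, 0 < ε → ∃ N : ℕ, ∀ n, N ≤ n → n2 mu (fun x => u n x - D x) ≤ ε := by
  classical
  have hm : ∀ n, MemLp (u n) 2 mu := fun n => bm_memLp (b1_bm (hu n))
  set v : ℕ → Lp ℂ 2 mu := fun n => (hm n).toLp (u n) with hv
  have hd : ∀ m n, dist (v m) (v n) = n2 mu (fun x => u m x - u n x) := by
    intro m n
    have h1 : v m - v n = ((hm m).sub (hm n)).toLp (u m - u n) := (MemLp.toLp_sub _ _).symm
    rw [dist_eq_norm, h1, Lp.norm_toLp, ← n2_eq ((hm m).sub (hm n))]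
    rfl
  have hcau : CauchySeq v := by
    rw [Metric.cauchySeq_iff]
    intro ε hε
    obtain ⟨N, hN⟩ := hc (ε / 2) (by linarith)
    refine ⟨N, fun m hm' n hn' => ?_⟩
    rw [hd]
    have := hN m n hm' hn'
    linarith
  obtain ⟨g, hg⟩ := cauchySeq_tendsto_of_complete hcau
  have hgm : MemLp (g : X → ℂ) 2 mu := Lp.memLp g
  have hdg : ∀ n, dist (v n) g = n2 mu (fun x => u n x - g x) := by
    intro n
    have h1 : v n - g = ((hm n).sub hgm).toLp (u n - (g : X → ℂ)) := by
      rw [MemLp.toLp_sub (hm n) hgm, Lp.toLp_coeFn g hgm]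
    rw [dist_eq_norm, h1, Lp.norm_toLp, ← n2_eq ((hm n).sub hgm)]
    rfl
  have hgmeas : Measurable (g : X → ℂ) := (Lp.stronglyMeasurable g).measurable
  refine ⟨fun x => pj (g x), ⟨pj_meas.comp hgmeas, fun x => pj_le _⟩, fun ε hε => ?_⟩
  obtain ⟨N, hN⟩ := Metric.tendsto_atTop.1 hg ε hε
  refine ⟨N, fun n hn => ?_⟩
  have h1 := hN n hn
  rw [hdg] at h1
  refine le_trans (n2_le_of ?_ fun x => pj_near (u n x) (g x) ((hu n).le x)) h1.le
  have h2 := (hm n).sub hgm
  exact (memLp_two_iff_integrable_sq_norm h2.1).1 h2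

end

/-! ### box averages -/

section

variable {ι : Type} [Fintype ι] [DecidableEq ι]

theorem bavg_add (a : ι → ℤ) (N : ι → ℕ) (F G : (ι → ℤ) → ℂ) :
    bavg a N (fun z => F z + G z) = bavg a N F + bavg a N G := by
  unfold bavg
  rw [Finset.sum_add_distrib, mul_add]

theorem bavg_sub (a : ι → ℤ) (N : ι → ℕ) (F G : (ι → ℤ) → ℂ) :
    bavg a N (fun z => F z - G z) = bavg a N F - bavg a N G := by
  unfold bavg
  rw [Finset.sum_sub_distrib, mul_sub]

theorem bavg_mul (a : ι → ℤ) (N : ι → ℕ) (c : ℂ) (F : (ι → ℤ) → ℂ) :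
    bavg a N (fun z => c * F z) = c * bavg a N F := by
  unfold bavg
  rw [← Finset.mul_sum]
  ring

theorem bavg_const (a : ι → ℤ) (N : ι → ℕ) (hN : ∀ i, 0 < N i) (c : ℂ) :
    bavg a N (fun _ => c) = c := by
  unfold bavg
  have h1 : (∏ i, (N i : ℂ)) ≠ 0 :=
    Finset.prod_ne_zero_iff.2 fun i _ => Nat.cast_ne_zero.2 (hN i).ne'
  rw [Finset.sum_const, card_box, nsmul_eq_mul]
  push_cast
  rw [← mul_assoc, inv_mul_cancel₀ h1, one_mul]

theorem bavg_le (a : ι → ℤ) (N : ι → ℕ) {F : (ι → ℤ) → ℂ} {ε : ℝ} (hε : 0 ≤ ε)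
    (h : ∀ z ∈ box a N, ‖F z‖ ≤ ε) : ‖bavg a N F‖ ≤ ε := by
  exact bavg_le0 a N hε h

/-- exchange of two box averages -/
theorem bavg_comm {κ : Type} [Fintype κ] [DecidableEq κ] (a : ι → ℤ) (N : ι → ℕ) (a' : κ → ℤ)
    (N' : κ → ℕ) (F : (ι → ℤ) → (κ → ℤ) → ℂ) :
    bavg a N (fun z => bavg a' N' (F z)) = bavg a' N' (fun z' => bavg a N (fun z => F z z')) := by
  unfold bavg
  simp only [Finset.mul_sum]
  rw [Finset.sum_comm]
  refine Finset.sum_congr rfl fun z' _ => Finset.sum_congr rfl fun z _ => ?_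
  ring

/-- translation of a box -/
theorem bavg_shift (a b : ι → ℤ) (N : ι → ℕ) (F : (ι → ℤ) → ℂ) :
    bavg a N (fun z => F (fun i => z i + b i)) = bavg (fun i => a i + b i) N F := by
  unfold bavg
  congr 1
  refine Finset.sum_nbij' (fun z i => z i + b i) (fun z i => z i - b i) ?_ ?_ ?_ ?_ ?_
  · intro z hz
    unfold box at hz ⊢
    rw [Fintype.mem_piFinset] at hz ⊢
    intro i
    have := hz i
    rw [Finset.mem_Ico] at this ⊢
    constructor <;> linarith [this.1, this.2]
  · intro z hz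
    unfold box at hz ⊢
    rw [Fintype.mem_piFinset] at hz ⊢
    intro i
    have := hz i
    rw [Finset.mem_Ico] at this ⊢
    constructor <;> linarith [this.1, this.2]
  · intro z _
    funext i
    simp
  · intro z _
    funext i
    simp
  · intro z _
    rfl

/-- splitting into residue classes: sides `e i * N i`, base point `e i * a i` -/
theorem bavg_split (a : ι → ℤ) (e N : ι → ℕ) (he : ∀ i, 0 < e i) (F : (ι → ℤ) → ℂ) :
    bavg (fun i => (e i : ℤ) * a i) (fun i => e i * N i) F =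
      bavg (fun _ => 0) e (fun r => bavg a N (fun z => F (fun i => (e i : ℤ) * z i + r i))) := by
  unfold bavg
  have hsum : ∑ w ∈ box (fun i => (e i : ℤ) * a i) (fun i => e i * N i), F w =
      ∑ r ∈ box (fun _ => 0) e, ∑ z ∈ box a N, F (fun i => (e i : ℤ) * z i + r i) := by
    rw [← Finset.sum_product']
    symm
    refine Finset.sum_nbij' (fun q i => (e i : ℤ) * q.2 i + q.1 i)
      (fun w => (fun i => w i % (e i : ℤ), fun i => w i / (e i : ℤ))) ?_ ?_ ?_ ?_ ?_
    · rintro ⟨r, z⟩ hq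
      rw [Finset.mem_product] at hq
      obtain ⟨hr, hz⟩ := hq
      unfold box at hr hz ⊢
      rw [Fintype.mem_piFinset] at hr hz ⊢
      intro i
      have h1 := hr i
      have h2 := hz i
      have h3 := he i
      rw [Finset.mem_Ico] at h1 h2 ⊢
      have h4 : (0 : ℤ) < e i := by exact_mod_cast h3
      push_cast
      constructor
      · nlinarith [mul_le_mul_of_nonneg_left h2.1 h4.le, h1.1]
      · have h5 : z i + 1 ≤ a i + N i := h2.2
        nlinarith [mul_le_mul_of_nonneg_left h5 h4.le, h1.2]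
    · intro w hw
      rw [Finset.mem_product]
      unfold box at hw ⊢
      rw [Fintype.mem_piFinset] at hw
      constructor
      · rw [Fintype.mem_piFinset]
        intro i
        have h4 : (0 : ℤ) < e i := by exact_mod_cast he i
        rw [Finset.mem_Ico]
        constructor
        · exact Int.emod_nonneg _ h4.ne'
        · rw [zero_add]
          exact Int.emod_lt_of_pos _ h4
      · rw [Fintype.mem_piFinset]
        intro i
        have h4 : (0 : ℤ) < e i := by exact_mod_cast he i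
        have h1 := hw i
        rw [Finset.mem_Ico] at h1 ⊢
        push_cast at h1
        constructor
        · refine (Int.le_ediv_iff_mul_le h4).2 ?_
          rw [mul_comm]
          exact h1.1
        · refine (Int.ediv_lt_iff_lt_mul h4).2 ?_
          have h2 := h1.2
          rw [mul_comm]
          linarith [mul_add (e i : ℤ) (a i) (N i)]
    · rintro ⟨r, z⟩ hq
      rw [Finset.mem_product] at hq
      obtain ⟨hr, _⟩ := hq
      unfold box at hr
      rw [Fintype.mem_piFinset] at hr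
      refine Prod.ext ?_ ?_
      · funext i
        have h1 := hr i
        rw [Finset.mem_Ico, zero_add] at h1
        show ((e i : ℤ) * z i + r i) % (e i : ℤ) = r i
        rw [Int.add_comm, Int.add_mul_emod_self_left]
        exact Int.emod_eq_of_lt h1.1 h1.2
      · funext i
        have h1 := hr i
        rw [Finset.mem_Ico, zero_add] at h1
        have h4 : (0 : ℤ) < e i := by exact_mod_cast he i
        show ((e i : ℤ) * z i + r i) / (e i : ℤ) = z i
        rw [Int.add_comm, Int.add_mul_ediv_left _ _ h4.ne', Int.ediv_eq_zero_of_lt h1.1 h1.2,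
          zero_add]
    · intro w _
      funext i
      show (e i : ℤ) * (w i / (e i : ℤ)) + w i % (e i : ℤ) = w i
      exact Int.mul_ediv_add_emod _ _
    · rintro ⟨r, z⟩ _
      rfl
  rw [hsum]
  have hprod : (∏ i, ((e i * N i : ℕ) : ℂ))⁻¹ = (∏ i, (e i : ℂ))⁻¹ * (∏ i, (N i : ℂ))⁻¹ := by
    rw [← mul_inv, ← Finset.prod_mul_distrib]
    congr 1
    refine Finset.prod_congr rfl fun i _ => ?_
    push_cast
    ring
  rw [hprod, mul_assoc, Finset.mul_sum]

end

end Pool.Agent.MRS.Du
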