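import Pool.Agent.MRS.DuA
import Pool.Agent.MRS.DuB

/-!
# MRS / DuN: (2.4) splitting of a function: closure of the dual functions plus a null function

`null_of_orth`.  `Del T e w x = w x * PD T (fun ω y => cj ω.card (w y)) e x` (the factor `ω = ∅` is `w (T 0 x) = w x`).  For `c` with positive entries let `D` be the dual function for
`g ω y = cj ω.card (w y)` (`exists_dual`, `b1_cj`).  `D ∈ DA`, so `conj D ∈ DA` and `∫ w D = ∫ w conj (conj D) = 0`.  Since `bavg a N` commutes with the integral (finite sum),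
`bavg a N (h ↦ ∫ Del T (c h) w) = ∫ w * (bavg a N (PD ..) - D)`, of absolute value at most `n2 w * n2 (bavg - D) ≤ ε` (`n2_cs`, `n2_b1`).
`split`.  `u` from `proj_b1` for `A = DA mu T s` (`DA_bm`, `DA_conj`, `DA_mul`), `w = (g - u) / 2`: bounded by one, orthogonal to `DA`.
-/

set_option autoImplicit false

namespace Pool.Agent.MRS.Du

open MeasureTheory Filter Topology
open scoped BigOperators ComplexConjugate

variable {X : Type} [MeasurableSpace X] {mu : Measure X} [IsProbabilityMeasure mu] {T : ℤ → X → X}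

private theorem del_eq57 (hT : ZAct mu T) {s : ℕ} (w : X → ℂ) (e : Fin s → ℤ) (x : X) :
    Del T e w x = w x * PD T (fun ω y => cj ω.card (w y)) e x := by
  unfold Del PD
  rw [← Finset.mul_prod_erase Finset.univ _ (Finset.mem_univ (∅ : Finset (Fin s)))]
  congr 1
  rw [Finset.card_empty, Finset.sum_empty, hT.zero]
  unfold cj
  rw [if_pos (by decide)]

private theorem bavg_int57 {ι : Type} [Fintype ι] [DecidableEq ι] (a : ι → ℤ) (N : ι → ℕ)
    {F : (ι → ℤ) → X → ℂ} (hF : ∀ z, BM (F z)) :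
    bavg a N (fun z => ∫ x, F z x ∂mu) = ∫ x, bavg a N (fun z => F z x) ∂mu := by
  unfold bavg
  rw [integral_const_mul, integral_finsetSum _ (fun z _ => bm_int (hF z))]

theorem null_of_orth (hW : WalshBox) (hT : ZAct mu T) {s : ℕ} {w : X → ℂ} (hw : B1 w)
    (ho : ∀ a ∈ DA mu T s, ∫ x, w x * conj (a x) ∂mu = 0) : Null mu T s w := by
  intro c hc ε hε
  have hg' : ∀ ω : Finset (Fin s), B1 (fun y => cj ω.card (w y)) := fun ω => b1_cj hw _
  obtain ⟨D, hD⟩ := exists_dual hW hT c hg'
  have hDA : D ∈ DA mu T s := Submodule.subset_span ⟨c, _, hc, hg', hD⟩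
  have h0 : ∫ x, w x * D x ∂mu = 0 := by
    have h1 := ho _ (DA_conj hDA)
    simpa using h1
  obtain ⟨H0, hH⟩ := hD.lim ε hε
  refine ⟨H0, fun a N hN => ?_⟩
  have h1 := hH a N hN
  have hPD : ∀ z : Fin s → ℤ, B1 (fun x => PD T (fun ω y => cj ω.card (w y))
      (fun i => (c i : ℤ) * z i) x) := fun z => b1_PD hT hg' _
  have e1 : bavg a N (fun h => ∫ x, Del T (fun i => (c i : ℤ) * h i) w x ∂mu) =
      ∫ x, w x * (bavg a N (fun h => PD T (fun ω y => cj ω.card (w y))
        (fun i => (c i : ℤ) * h i) x) - D x) ∂mu := by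
    have e2 : ∀ z : Fin s → ℤ, ∫ x, Del T (fun i => (c i : ℤ) * z i) w x ∂mu =
        ∫ x, w x * PD T (fun ω y => cj ω.card (w y)) (fun i => (c i : ℤ) * z i) x ∂mu := by
      intro z
      refine integral_congr_ae (Filter.Eventually.of_forall fun x => ?_)
      exact del_eq57 hT w _ x
    have e3 : (fun h : Fin s → ℤ => ∫ x, Del T (fun i => (c i : ℤ) * h i) w x ∂mu) =
        fun z => ∫ x, w x * PD T (fun ω y => cj ω.card (w y)) (fun i => (c i : ℤ) * z i) x ∂mu :=
      funext e2
    rw [e3, bavg_int57 a N (F := fun z x => w x * PD T (fun ω y => cj ω.card (w y))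
      (fun i => (c i : ℤ) * z i) x) (fun z => b1_bm (b1_mul hw (hPD z)))]
    have e4 : (fun x => w x * (bavg a N (fun h => PD T (fun ω y => cj ω.card (w y))
        (fun i => (c i : ℤ) * h i) x) - D x)) =
        fun x => bavg a N (fun z => w x * PD T (fun ω y => cj ω.card (w y))
          (fun i => (c i : ℤ) * z i) x) - w x * D x := by
      funext x
      rw [bavg_mul, mul_sub]
    rw [e4, integral_sub (bm_int (b1_bm (b1_bavg a N (fun z => b1_mul hw (hPD z)))))
      (bm_int (b1_bm (b1_mul hw hD.b1))), h0, sub_zero]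
  rw [e1]
  have h2 : BM (fun x => bavg a N (fun h => PD T (fun ω y => cj ω.card (w y))
        (fun i => (c i : ℤ) * h i) x) - D x) := bm_sub (b1_bm (b1_bavg a N hPD)) (b1_bm hD.b1)
  have h3 := n2_cs (mu := mu) (b1_bm hw) h2
  refine h3.trans ?_
  have h4 := n2_b1 (mu := mu) hw
  calc n2 mu w * n2 mu (fun x => bavg a N (fun h => PD T (fun ω y => cj ω.card (w y))
        (fun i => (c i : ℤ) * h i) x) - D x) ≤ 1 * ε :=
        mul_le_mul h4 h1 (n2_nonneg _) zero_le_one
    _ = ε := one_mul ε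

theorem split (hW : WalshBox) (hT : ZAct mu T) (s : ℕ) {g : X → ℂ} (hg : B1 g) :
    ∃ u w : X → ℂ, B1 u ∧ B1 w ∧ (∀ x, g x = u x + 2 * w x) ∧ Cl mu (DA mu T s) u ∧
      Null mu T s w := by
  obtain ⟨u, hu1, hu2, hu3⟩ := proj_b1 (mu := mu) (DA mu T s) (fun a ha => DA_bm ha)
    (fun a ha => DA_conj ha) (fun a ha b hb => DA_mul hW hT ha hb) hg
  have hw : B1 (fun x => (g x - u x) / 2) := by
    refine ⟨(hg.meas.sub hu1.meas).div_const 2, fun x => ?_⟩
    rw [norm_div, Complex.norm_ofNat]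
    have h1 := norm_sub_le (g x) (u x)
    have h2 := hg.le x
    have h3 := hu1.le x
    rw [div_le_one (by norm_num)]
    linarith
  refine ⟨u, fun x => (g x - u x) / 2, hu1, hw, fun x => by ring, hu2, ?_⟩
  refine null_of_orth hW hT hw fun a ha => ?_
  have h1 : (fun x => (g x - u x) / 2 * conj (a x)) =
      fun x => (1 / 2 : ℂ) * ((g x - u x) * conj (a x)) := by
    funext x
    ring
  rw [h1, integral_const_mul, hu3 a ha, mul_zero]

end Pool.Agent.MRS.Du
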