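import Pool.Agent.MRS.DuL

/-!
# MRS / DuP: the orthogonal projection onto the `L²` closure of a space of bounded functions

`A'` = the submodule of `Lp ℂ 2 mu` of the classes of the elements of `A` (for instance the set of all `F` with `∃ a ∈ A, F =ᵐ[mu] a`; they are in `L²` by `bm_memLp`), `K` its topological closure:
complete, so `K` has an orthogonal projection.  `u` = a measurable representative of the projection of the class of `g`.
`(c)`: the class of `u` is in the closure of `A'`.  `(d)`: `g - u` is orthogonal to `K`, and the inner product of `L²` is `∫ inner (f x) (g x)` (`L2.inner_def`), `inner ℂ z w = w * conj z`.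
-/

set_option autoImplicit false

namespace Pool.Agent.MRS.Du

open MeasureTheory Filter Topology
open scoped BigOperators ComplexConjugate ENNReal

variable {X : Type} [MeasurableSpace X] {mu : Measure X} [IsProbabilityMeasure mu]

theorem proj_L2 (A : Submodule ℂ (X → ℂ)) (hb : ∀ a ∈ A, BM a) {g : X → ℂ} (hg : BM g) :
    ∃ u : X → ℂ, Measurable u ∧ MemLp u 2 mu ∧
      (∀ ε : ℝ, 0 < ε → ∃ a ∈ A, eLpNorm (fun x => u x - a x) 2 mu ≤ ENNReal.ofReal ε) ∧
      ∀ a ∈ A, ∫ x, (g x - u x) * conj (a x) ∂mu = 0 := by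
  let A' : Submodule ℂ (Lp ℂ 2 mu) :=
    { carrier := {F | ∃ a ∈ A, (F : X → ℂ) =ᵐ[mu] a}
      zero_mem' := ⟨0, A.zero_mem, Lp.coeFn_zero ℂ 2 mu⟩
      add_mem' := by
        rintro F G ⟨a, ha, h1⟩ ⟨b, hb', h2⟩
        exact ⟨a + b, A.add_mem ha hb', (Lp.coeFn_add F G).trans (h1.add h2)⟩
      smul_mem' := by
        rintro c F ⟨a, ha, h1⟩
        exact ⟨c • a, A.smul_mem c ha, (Lp.coeFn_smul c F).trans (h1.const_smul c)⟩ }
  have hmemA : ∀ F : Lp ℂ 2 mu, F ∈ A' ↔ ∃ a ∈ A, (F : X → ℂ) =ᵐ[mu] a := fun F => Iff.rfl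
  haveI : CompleteSpace A'.topologicalClosure :=
    (A'.isClosed_topologicalClosure).completeSpace_coe
  have hgm : MemLp g 2 mu := bm_memLp hg
  have hU : A'.topologicalClosure.starProjection (hgm.toLp g) ∈ A'.topologicalClosure :=
    Submodule.starProjection_apply_mem _ _
  have horth := fun (w : Lp ℂ 2 mu) (hw : w ∈ A'.topologicalClosure) =>
    A'.topologicalClosure.starProjection_inner_eq_zero (hgm.toLp g) w hw
  generalize A'.topologicalClosure.starProjection (hgm.toLp g) = U at hU horth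
  have hUm : MemLp (U : X → ℂ) 2 mu := Lp.memLp U
  have hUs : StronglyMeasurable (U : X → ℂ) := Lp.stronglyMeasurable U
  refine ⟨U, hUs.measurable, hUm, ?_, ?_⟩
  · intro ε hε
    have h1 : U ∈ closure (A' : Set (Lp ℂ 2 mu)) := hU
    obtain ⟨F, hF, h2⟩ := Metric.mem_closure_iff.1 h1 ε hε
    obtain ⟨a, ha, h3⟩ := (hmemA F).1 hF
    refine ⟨a, ha, ?_⟩
    have h4 : eLpNorm (fun x => U x - a x) 2 mu = eLpNorm ((U : X → ℂ) - (F : X → ℂ)) 2 mu := by
      refine eLpNorm_congr_ae ?_
      filter_upwards [h3] with x hx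
      simp only [Pi.sub_apply, hx]
    rw [h4, ← Lp.edist_def, edist_dist]
    exact ENNReal.ofReal_le_ofReal h2.le
  · intro a ha
    have ham : MemLp a 2 mu := bm_memLp (hb a ha)
    have h1 : ham.toLp a ∈ A'.topologicalClosure := by
      refine A'.le_topologicalClosure ?_
      exact (hmemA _).2 ⟨a, ha, ham.coeFn_toLp⟩
    have h2 := horth _ h1
    rw [L2.inner_def] at h2
    have h3 : ∫ x, conj (g x - U x) * a x ∂mu = 0 := by
      rw [← h2]
      refine integral_congr_ae ?_
      filter_upwards [Lp.coeFn_sub (hgm.toLp g) U, hgm.coeFn_toLp, ham.coeFn_toLp]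
        with x hx1 hx2 hx3
      rw [hx1, hx3, Pi.sub_apply, hx2]
      simp only [RCLike.inner_apply]
      ring
    have h4 : ∫ x, (g x - U x) * conj (a x) ∂mu = conj (∫ x, conj (g x - U x) * a x ∂mu) := by
      rw [← integral_conj]
      refine integral_congr_ae (Filter.Eventually.of_forall fun x => ?_)
      simp
    rw [h4, h3, map_zero]

end Pool.Agent.MRS.Du
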