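import Pool.Agent.MRS.DuX

/-!
# MRS / DuR: (2.1) a dual function for `c` is a finite average of dual functions for `c * e`

PROOF.  `R = box 0 e` (it has `∏ e i > 0` elements), `g' r ω x = g ω (T (∑_{i ∈ ω} c i * r i) x)` (`b1_comp`), `D' r` from `exists_dual` for `c * e` and `g' r`.
Since `T (a + b) x = T a (T b x)`, `PD T g (fun i => c i * (e i * z i + r i)) x = PD T (g' r) (fun i => (c i * e i) * z i) x`
(`∑_{i ∈ ω} c i (e i z i + r i) = ∑_{i ∈ ω} c i r i + ∑_{i ∈ ω} c i e i z i`).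
Let `ε > 0` and `H0 ≥ 1` such that all boxes with sides `≥ H0` are `ε`-good for `D` and for all `D' r`, `r ∈ R` (finite set).  By `bavg_split` with `a = 0`, `N = H0`:
`bavg 0 (e * H0) (PD T g (c h) x) = bavg 0 e (r ↦ bavg 0 H0 (z ↦ PD T (g' r) (c e z) x))`; the left side is within `ε` of `D` (sides `e i * H0 ≥ H0`), the right side within `ε` of
`bavg 0 e (r ↦ D' r x) = (card R)⁻¹ ∑_{r ∈ R} D' r x` (`n2_bavg`, `bavg_sub`).  So the number in the statement is at most `2 ε` for every `ε > 0`.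
-/

set_option autoImplicit false

namespace Pool.Agent.MRS.Du

open MeasureTheory Filter Topology
open scoped BigOperators ComplexConjugate

variable {X : Type} [MeasurableSpace X] {mu : Measure X} [IsProbabilityMeasure mu] {T : ℤ → X → X}
  {s : ℕ} {c : Fin s → ℕ} {g : Finset (Fin s) → X → ℂ} {D : X → ℂ}

theorem card_box0 {e : Fin s → ℕ} : ((box (fun _ => 0) e).card : ℂ) = ∏ i, (e i : ℂ) := by
  unfold box
  rw [Fintype.card_piFinset]
  simp

theorem avg_eq_bavg {e : Fin s → ℕ} (F : (Fin s → ℤ) → ℂ) :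
    ((box (fun _ => 0) e).card : ℂ)⁻¹ * ∑ r ∈ box (fun _ => 0) e, F r = bavg (fun _ => 0) e F := by
  rw [card_box0]
  rfl

theorem nonempty_box0 {e : Fin s → ℕ} (he : ∀ i, 0 < e i) :
    (box (fun _ : Fin s => (0 : ℤ)) e).Nonempty := by
  refine ⟨fun _ => 0, ?_⟩
  unfold box
  rw [Fintype.mem_piFinset]
  intro i
  rw [Finset.mem_Ico]
  have := he i
  constructor
  · exact le_rfl
  · show (0 : ℤ) < 0 + (e i : ℤ)
    omega

theorem pd_split (hT : ZAct mu T) (c e : Fin s → ℕ) (g : Finset (Fin s) → X → ℂ)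
    (z r : Fin s → ℤ) (x : X) :
    PD T g (fun i => (c i : ℤ) * ((e i : ℤ) * z i + r i)) x =
      PD T (fun ω y => g ω (T (∑ i ∈ ω, (c i : ℤ) * r i) y))
        (fun i => ((c i * e i : ℕ) : ℤ) * z i) x := by
  unfold PD
  refine Finset.prod_congr rfl fun ω _ => ?_
  show g ω (T (∑ i ∈ ω, (c i : ℤ) * ((e i : ℤ) * z i + r i)) x) =
    g ω (T (∑ i ∈ ω, (c i : ℤ) * r i) (T (∑ i ∈ ω, ((c i * e i : ℕ) : ℤ) * z i) x))
  rw [← hT.add]
  congr 2
  rw [← Finset.sum_add_distrib]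
  refine Finset.sum_congr rfl fun i _ => ?_
  push_cast
  ring

theorem refine_dual (hW : WalshBox) (hT : ZAct mu T) {e : Fin s → ℕ} (he : ∀ i, 0 < e i)
    (hg : ∀ ω, B1 (g ω)) (hD : IsDual mu T c g D) :
    ∃ (R : Finset (Fin s → ℤ)) (g' : (Fin s → ℤ) → Finset (Fin s) → X → ℂ)
      (D' : (Fin s → ℤ) → X → ℂ), R.Nonempty ∧ (∀ r ω, B1 (g' r ω)) ∧
      (∀ r, IsDual mu T (fun i => c i * e i) (g' r) (D' r)) ∧
      n2 mu (fun x => D x - (R.card : ℂ)⁻¹ * ∑ r ∈ R, D' r x) = 0 := by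
  classical
  let g' : (Fin s → ℤ) → Finset (Fin s) → X → ℂ :=
    fun r ω y => g ω (T (∑ i ∈ ω, (c i : ℤ) * r i) y)
  have hg' : ∀ r ω, B1 (g' r ω) := fun r ω => b1_comp hT (hg ω) _
  have hex : ∀ r : Fin s → ℤ, ∃ D', IsDual mu T (fun i => c i * e i) (g' r) D' :=
    fun r => exists_dual hW hT _ (hg' r)
  choose D' hD' using hex
  refine ⟨box (fun _ => 0) e, g', D', nonempty_box0 he, hg', hD', ?_⟩
  have h1 : (fun x => D x - ((box (fun _ => 0) e).card : ℂ)⁻¹ *
      ∑ r ∈ box (fun _ => 0) e, D' r x) =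
      fun x => D x - bavg (fun _ => 0) e (fun r => D' r x) := by
    funext x
    rw [avg_eq_bavg (fun r => D' r x)]
  rw [h1]
  refine le_antisymm (le_of_forall_pos_le_add fun ε hε => ?_) (n2_nonneg _)
  rw [zero_add]
  have hε2 : 0 < ε / 2 := by positivity
  obtain ⟨H1, hH1⟩ := hD.lim (ε / 2) hε2
  have hex2 : ∀ r : Fin s → ℤ, ∃ H0 : ℕ, ∀ (a : Fin s → ℤ) (N : Fin s → ℕ), (∀ i, H0 ≤ N i) →
      n2 mu (fun x => bavg a N (fun h => PD T (g' r) (fun i => ((c i * e i : ℕ) : ℤ) * h i) x) -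
        D' r x) ≤ ε / 2 := fun r => (hD' r).lim (ε / 2) hε2
  choose H2 hH2 using hex2
  let H : ℕ := max H1 ((box (fun _ => 0) e).sup H2)
  let A : X → ℂ := fun x => bavg (fun i => (e i : ℤ) * 0) (fun i => e i * H)
    (fun h => PD T g (fun i => (c i : ℤ) * h i) x)
  have hA : ∀ x, A x = bavg (fun _ => 0) e (fun r => bavg (fun _ => 0) (fun _ => H)
      (fun z => PD T (g' r) (fun i => ((c i * e i : ℕ) : ℤ) * z i) x)) := by
    intro x
    show bavg (fun i => (e i : ℤ) * 0) (fun i => e i * H)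
      (fun h => PD T g (fun i => (c i : ℤ) * h i) x) = _
    rw [bavg_split (fun _ => 0) e (fun _ => H) he]
    congr 1
    funext r
    congr 1
    funext z
    exact pd_split hT c e g z r x
  have hB1A : B1 A := b1_bavg _ _ (fun z => b1_PD hT hg _)
  have hB1' : ∀ r, B1 (fun x => bavg (fun _ => 0) (fun _ => H)
      (fun z => PD T (g' r) (fun i => ((c i * e i : ℕ) : ℤ) * z i) x)) :=
    fun r => b1_bavg _ _ (fun z => b1_PD hT (hg' r) _)
  have hBD : B1 (fun x => bavg (fun _ => 0) e (fun r => D' r x)) :=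
    b1_bavg _ _ (fun r => (hD' r).b1)
  have h2 := n2_tri (mu := mu) (b1_bm hD.b1) (b1_bm hB1A) (b1_bm hBD)
  refine h2.trans ?_
  have h3 : n2 mu (fun x => D x - A x) ≤ ε / 2 := by
    rw [n2_comm]
    refine hH1 _ _ (fun i => ?_)
    have h4 : H1 ≤ H := le_max_left _ _
    have h5 : 1 ≤ e i := he i
    calc H1 ≤ H := h4
      _ = 1 * H := (one_mul _).symm
      _ ≤ e i * H := Nat.mul_le_mul_right _ h5
  have h6 : n2 mu (fun x => A x - bavg (fun _ => 0) e (fun r => D' r x)) ≤ ε / 2 := by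
    have h7 : (fun x => A x - bavg (fun _ => 0) e (fun r => D' r x)) =
        fun x => bavg (fun _ => 0) e (fun r => bavg (fun _ => 0) (fun _ => H)
          (fun z => PD T (g' r) (fun i => ((c i * e i : ℕ) : ℤ) * z i) x) - D' r x) := by
      funext x
      rw [hA x, ← bavg_sub]
    rw [h7]
    refine n2_bavg (F := fun r x => bavg (fun _ => 0) (fun _ => H)
          (fun z => PD T (g' r) (fun i => ((c i * e i : ℕ) : ℤ) * z i) x) - D' r x) _ _
      (fun r => bm_sub (b1_bm (hB1' r)) (b1_bm (hD' r).b1)) hε2.le (fun r hr => ?_)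
    refine hH2 r _ _ (fun i => ?_)
    exact (Finset.le_sup hr).trans (le_max_right _ _)
  linarith

end Pool.Agent.MRS.Du
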