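import Pool.Agent.MRS.DuL

/-!
# MRS / DuS: (2.6) the shift: a dual function as last function gives a sequence with one term less

PROOF.  Let `H ≥ 1` be such that all boxes with sides `≥ H` are `ε`-good for `D`.  `R = box 0 (fun _ => H)`.  For `h ∈ R` let
`G_j x = f j x * ∏_{ω, card ω + j = l + 1} g ω (T (∑_{i ∈ ω} c i * h i) x)` for `j ≤ l` (such `ω` is not empty) and `G_j = 1` for `j > l`; all `B1` (`b1_prod`, `b1_comp`), and
`Fh h n = ∫ ∏_{j ∈ range (l + 1)} G_j (T (j n) x)`: an `l`-term sequence for the same system.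
Let `∏ c i ∣ n`, `c i * m i = n` (`m i` an integer, as `c i ∣ ∏ c ∣ n`).  Since `T ((l+1) n)` preserves the measure, `x ↦ D (T ((l+1) n) x)` is within `ε` (`n2_comp`) of
`x ↦ bavg a N (h ↦ PD T g (c h) (T ((l+1) n) x))` for the box `a = fun i => - m i`, `N = fun _ => H`; by `bavg_shift` this is `bavg 0 N (h ↦ PD T g (fun i => c i * (h i - m i)) (T ((l+1) n) x))`, and
`T (∑_{i ∈ ω} c i (h i - m i)) (T ((l+1) n) x) = T (∑_{i ∈ ω} c i h i) (T ((l + 1 - card ω) n) x)` because `c i * m i = n` (`T (a + b) x = T a (T b x)`).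
Multiply by `∏_{j ≤ l} f j (T (j n) x)` (bounded by one) and integrate: the first integral is within `ε` (`n2_mul_le`, `n2_int`) of
`bavg 0 N (h ↦ ∫ ∏_{j ≤ l} f j (T (j n) x) * ∏_{ω ≠ ∅} g ω (T (∑_{i ∈ ω} c i h i) (T ((l + 1 - card ω) n) x))) = (card R)⁻¹ ∑_{h ∈ R} Fh h n`
(group the nonempty `ω` by `j = l + 1 - card ω ∈ {0, .., l}`: `Finset.prod_fiberwise_of_maps_to` or `Finset.prod_sigma`).
-/

set_option autoImplicit false

namespace Pool.Agent.MRS.Du

open MeasureTheory Filter Topology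
open scoped BigOperators ComplexConjugate

variable {X : Type} [MeasurableSpace X] {mu : Measure X} [IsProbabilityMeasure mu] {T : ℤ → X → X}

/-- the functions of the sequence with one term less -/
private noncomputable def Gf (T : ℤ → X → X) (l : ℕ) (c : Fin (l + 1) → ℕ)
    (g : Finset (Fin (l + 1)) → X → ℂ) (f : ℕ → X → ℂ) (h : Fin (l + 1) → ℤ) (j : ℕ) (x : X) : ℂ :=
  f j x * ∏ ω ∈ ((Finset.univ : Finset (Finset (Fin (l + 1)))).erase ∅).filter
    (fun ω => l + 1 - ω.card = j), g ω (T (∑ i ∈ ω, (c i : ℤ) * h i) x)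

private theorem b1_Gf (hT : ZAct mu T) {l : ℕ} (c : Fin (l + 1) → ℕ)
    {g : Finset (Fin (l + 1)) → X → ℂ} (hg : ∀ ω, B1 (g ω)) {f : ℕ → X → ℂ} (hf : ∀ j, B1 (f j))
    (h : Fin (l + 1) → ℤ) (j : ℕ) : B1 (Gf T l c g f h j) :=
  b1_mul (hf j) (b1_prod _ fun ω _ => b1_comp hT (hg ω) _)

omit [IsProbabilityMeasure mu] in
private theorem prod_Gf (hT : ZAct mu T) {l : ℕ} {c : Fin (l + 1) → ℕ}
    {g : Finset (Fin (l + 1)) → X → ℂ} {f : ℕ → X → ℂ} {n : ℤ} {m : Fin (l + 1) → ℤ}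
    (hm : ∀ i, n = (c i : ℤ) * m i) (z : Fin (l + 1) → ℤ) (x : X) :
    (∏ j ∈ Finset.range (l + 1), f j (T ((j : ℤ) * n) x)) *
      PD T g (fun i => (c i : ℤ) * (z i + -m i)) (T (((l : ℤ) + 1) * n) x) =
      ∏ j ∈ Finset.range (l + 1), Gf T l c g f z j (T ((j : ℤ) * n) x) := by
  unfold Gf PD
  rw [Finset.prod_mul_distrib]
  congr 1
  have hcard : ∀ ω : Finset (Fin (l + 1)), ω.card ≤ l + 1 := fun ω => by
    have := Finset.card_le_univ ω
    rwa [Fintype.card_fin] at this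
  have hmap : ∀ ω ∈ (Finset.univ : Finset (Finset (Fin (l + 1)))).erase ∅,
      l + 1 - ω.card ∈ Finset.range (l + 1) := by
    intro ω hω
    have h1 : 0 < ω.card := Finset.card_pos.2
      (Finset.nonempty_iff_ne_empty.2 (Finset.ne_of_mem_erase hω))
    rw [Finset.mem_range]
    omega
  rw [← Finset.prod_fiberwise_of_maps_to hmap]
  refine Finset.prod_congr rfl fun j _ => Finset.prod_congr rfl fun ω hω => ?_
  have h1 : l + 1 - ω.card = j := (Finset.mem_filter.1 hω).2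
  have h2 := hcard ω
  have h3 : ((l : ℤ) + 1) = (ω.card : ℤ) + (j : ℤ) := by omega
  have h4 : ∑ i ∈ ω, (c i : ℤ) * (z i + -m i) = ∑ i ∈ ω, (c i : ℤ) * z i - (ω.card : ℤ) * n := by
    have h5 : ∀ i ∈ ω, (c i : ℤ) * (z i + -m i) = (c i : ℤ) * z i - n := by
      intro i _
      rw [mul_add, mul_neg, ← hm i]
      ring
    rw [Finset.sum_congr rfl h5, Finset.sum_sub_distrib, Finset.sum_const, nsmul_eq_mul]
  have h6 : ∑ i ∈ ω, (c i : ℤ) * (z i + -m i) + ((l : ℤ) + 1) * n =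
      ∑ i ∈ ω, (c i : ℤ) * z i + (j : ℤ) * n := by
    rw [h4, h3]
    ring
  rw [← hT.add, ← hT.add, h6]

private theorem card_box {ι : Type} [Fintype ι] [DecidableEq ι] (H : ℕ) :
    ((box (fun _ : ι => (0 : ℤ)) (fun _ => H)).card : ℂ) = ∏ _i : ι, (H : ℂ) := by
  unfold box
  rw [Fintype.card_piFinset]
  push_cast
  refine Finset.prod_congr rfl fun i _ => ?_
  rw [Int.card_Ico]
  simp

theorem shift (hT : ZAct mu T) {l : ℕ} {c : Fin (l + 1) → ℕ} (hc : ∀ i, 0 < c i)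
    {g : Finset (Fin (l + 1)) → X → ℂ} (hg : ∀ ω, B1 (g ω)) {D : X → ℂ} (hD : IsDual mu T c g D)
    {f : ℕ → X → ℂ} (hf : ∀ j, B1 (f j)) {ε : ℝ} (hε : 0 < ε) :
    ∃ (R : Finset (Fin (l + 1) → ℤ)) (Fh : (Fin (l + 1) → ℤ) → ℤ → ℂ), R.Nonempty ∧
      (∀ h, IsTerm l (Fh h)) ∧ ∀ n : ℤ, ((∏ i, c i : ℕ) : ℤ) ∣ n →
        ‖∫ x, (∏ j ∈ Finset.range (l + 1), f j (T ((j : ℤ) * n) x)) *
            D (T (((l : ℤ) + 1) * n) x) ∂mu - (R.card : ℂ)⁻¹ * ∑ h ∈ R, Fh h n‖ ≤ ε := by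
  obtain ⟨H0, hH0⟩ := hD.lim ε hε
  obtain ⟨H, hH1, hH2⟩ : ∃ H : ℕ, H0 ≤ H ∧ 0 < H := ⟨max H0 1, le_max_left _ _, by
    exact lt_of_lt_of_le one_pos (le_max_right _ _)⟩
  refine ⟨box (fun _ => 0) (fun _ => H), fun h n => ∫ x, ∏ j ∈ Finset.range (l + 1),
    Gf T l c g f h j (T ((j : ℤ) * n) x) ∂mu, ?_, fun h => ?_, fun n hn => ?_⟩
  · refine ⟨fun _ => 0, ?_⟩
    unfold box
    rw [Fintype.mem_piFinset]
    intro i
    rw [Finset.mem_Ico]
    constructor
    · exact le_rfl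
    · have : (0 : ℤ) < (H : ℤ) := by exact_mod_cast hH2
      linarith
  · exact ⟨X, inferInstance, mu, inferInstance, T, Gf T l c g f h, hT,
      fun j => b1_Gf hT c hg hf h j, fun n => rfl⟩
  · have hdiv : ∀ i, ∃ mi : ℤ, n = (c i : ℤ) * mi := by
      intro i
      have h1 : c i ∣ ∏ i, c i := Finset.dvd_prod_of_mem c (Finset.mem_univ i)
      exact (Int.natCast_dvd_natCast.2 h1).trans hn
    choose m hm using hdiv
    -- the pieces
    have hΦ : B1 (fun x => ∏ j ∈ Finset.range (l + 1), f j (T ((j : ℤ) * n) x)) :=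
      b1_prod _ fun j _ => b1_comp hT (hf j) _
    have hB : B1 (fun y => bavg (fun i => 0 + -m i) (fun _ => H)
        (fun h => PD T g (fun i => (c i : ℤ) * h i) y)) :=
      b1_bavg _ _ fun z => b1_PD hT hg _
    have hlim := hH0 (fun i => 0 + -m i) (fun _ => H) (fun _ => hH1)
    have hdiff : BM (fun y => bavg (fun i => 0 + -m i) (fun _ => H)
        (fun h => PD T g (fun i => (c i : ℤ) * h i) y) - D y) :=
      bm_sub (b1_bm hB) (b1_bm hD.b1)
    have hcomp := n2_comp hT hdiff (((l : ℤ) + 1) * n)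
    have hdiff' : BM (fun x => bavg (fun i => 0 + -m i) (fun _ => H)
        (fun h => PD T g (fun i => (c i : ℤ) * h i) (T (((l : ℤ) + 1) * n) x)) -
          D (T (((l : ℤ) + 1) * n) x)) := bm_comp hT hdiff _
    have h1 : n2 mu (fun x => (∏ j ∈ Finset.range (l + 1), f j (T ((j : ℤ) * n) x)) *
        (bavg (fun i => 0 + -m i) (fun _ => H)
        (fun h => PD T g (fun i => (c i : ℤ) * h i) (T (((l : ℤ) + 1) * n) x)) -
          D (T (((l : ℤ) + 1) * n) x))) ≤ ε := by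
      refine (n2_mul_le hdiff' (b1_bm hΦ) hΦ.le).trans ?_
      rw [one_mul, hcomp]
      exact hlim
    have h2 := (n2_int (mu := mu) (bm_mul (b1_bm hΦ) hdiff')).trans h1
    have hI1 : Integrable (fun x => (∏ j ∈ Finset.range (l + 1), f j (T ((j : ℤ) * n) x)) *
        bavg (fun i => 0 + -m i) (fun _ => H)
        (fun h => PD T g (fun i => (c i : ℤ) * h i) (T (((l : ℤ) + 1) * n) x))) mu :=
      bm_int (bm_mul (b1_bm hΦ) (bm_comp hT (b1_bm hB) _))
    have hI2 : Integrable (fun x => (∏ j ∈ Finset.range (l + 1), f j (T ((j : ℤ) * n) x)) *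
        D (T (((l : ℤ) + 1) * n) x)) mu :=
      bm_int (bm_mul (b1_bm hΦ) (bm_comp hT (b1_bm hD.b1) _))
    have h3 : ∫ x, (∏ j ∈ Finset.range (l + 1), f j (T ((j : ℤ) * n) x)) *
        bavg (fun i => 0 + -m i) (fun _ => H)
        (fun h => PD T g (fun i => (c i : ℤ) * h i) (T (((l : ℤ) + 1) * n) x)) ∂mu =
      ((box (fun _ : Fin (l + 1) => (0 : ℤ)) (fun _ => H)).card : ℂ)⁻¹ *
        ∑ h ∈ box (fun _ => 0) (fun _ => H), ∫ x, ∏ j ∈ Finset.range (l + 1),
          Gf T l c g f h j (T ((j : ℤ) * n) x) ∂mu := by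
      have h4 : ∀ x, (∏ j ∈ Finset.range (l + 1), f j (T ((j : ℤ) * n) x)) *
          bavg (fun i => 0 + -m i) (fun _ => H)
          (fun h => PD T g (fun i => (c i : ℤ) * h i) (T (((l : ℤ) + 1) * n) x)) =
          ((box (fun _ : Fin (l + 1) => (0 : ℤ)) (fun _ => H)).card : ℂ)⁻¹ *
            ∑ h ∈ box (fun _ => 0) (fun _ => H), ∏ j ∈ Finset.range (l + 1),
              Gf T l c g f h j (T ((j : ℤ) * n) x) := by
        intro x
        rw [← bavg_shift (fun _ => 0) (fun i => -m i) (fun _ => H)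
          (fun h => PD T g (fun i => (c i : ℤ) * h i) (T (((l : ℤ) + 1) * n) x))]
        unfold bavg
        rw [card_box, mul_left_comm, Finset.mul_sum]
        congr 1
        exact Finset.sum_congr rfl fun z _ => prod_Gf hT hm z x
      rw [integral_congr_ae (ae_of_all _ h4), integral_const_mul, integral_finsetSum]
      intro h _
      exact bm_int (b1_bm (b1_prod _ fun j _ => b1_comp hT (b1_Gf hT c hg hf h j) _))
    have h5 : ∫ x, (∏ j ∈ Finset.range (l + 1), f j (T ((j : ℤ) * n) x)) *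
        (bavg (fun i => 0 + -m i) (fun _ => H)
        (fun h => PD T g (fun i => (c i : ℤ) * h i) (T (((l : ℤ) + 1) * n) x)) -
          D (T (((l : ℤ) + 1) * n) x)) ∂mu =
      ∫ x, (∏ j ∈ Finset.range (l + 1), f j (T ((j : ℤ) * n) x)) *
        bavg (fun i => 0 + -m i) (fun _ => H)
        (fun h => PD T g (fun i => (c i : ℤ) * h i) (T (((l : ℤ) + 1) * n) x)) ∂mu -
      ∫ x, (∏ j ∈ Finset.range (l + 1), f j (T ((j : ℤ) * n) x)) *
        D (T (((l : ℤ) + 1) * n) x) ∂mu := by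
      rw [← integral_sub hI1 hI2]
      exact integral_congr_ae (ae_of_all _ fun x => mul_sub _ _ _)
    rw [h5, h3, norm_sub_rev] at h2
    exact h2

end Pool.Agent.MRS.Du
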