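import Pool.Agent.MRS.DuL

/-!
# MRS / DuX: existence and uniqueness of dual functions

`exists_dual`.  Apply `WalshBox` with `ι = Fin s`, `κ` the subtype of the nonempty `ω`, `p ω z = ∑_{i ∈ ω} c i * z i` (the polynomial
`∑_{i ∈ ω} C (c i) * X i`), `f ω = g ω`; the product over the subtype is `PD T g (c z)` (`Finset.prod_coe_sort` or `Finset.prod_attach`).
With `ε ^ 2` in place of `ε`: there is `N0` such that `n2 (bavg a N _ - bavg a' N' _) ≤ ε` for all boxes with sides `≥ N0`.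
So `u n = bavg 0 (fun _ => n) (PD ..)` is a Cauchy sequence of `B1` functions (`b1_bavg`, `b1_PD`); take `D` from `complete`.  For a box with sides `≥ N0(ε/2)`
compare with `u n`, `n` large: `n2_tri`.
`dual_unique`: both are within `ε` of the same average, for every `ε > 0`.
`dual_conj`: the average of the conjugates is the conjugate of the average (`map_prod`, `map_sum`), `n2_conj`.
`dual_one`: every average (nonempty box) of the product of ones is one; take `H0 = 1`.
-/

set_option autoImplicit false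

namespace Pool.Agent.MRS.Du

open MeasureTheory Filter Topology
open scoped BigOperators ComplexConjugate

variable {X : Type} [MeasurableSpace X] {mu : Measure X} [IsProbabilityMeasure mu] {T : ℤ → X → X}
  {s : ℕ} {c : Fin s → ℕ} {g : Finset (Fin s) → X → ℂ} {D D' : X → ℂ}

omit [MeasurableSpace X] in
private theorem PD_eq (T : ℤ → X → X) (g : Finset (Fin s) → X → ℂ) (e : Fin s → ℤ) (x : X) :
    PD T g e x = ∏ j : {ω : Finset (Fin s) // ω ≠ ∅}, g j.1 (T (∑ i ∈ j.1, e i) x) := by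
  unfold PD
  exact Finset.prod_subtype _ (fun ω => by simp) (fun ω => g ω (T (∑ i ∈ ω, e i) x))

private theorem dual_cauchy (hW : WalshBox) (hT : ZAct mu T) (c : Fin s → ℕ)
    (hg : ∀ ω, B1 (g ω)) {ε : ℝ} (hε : 0 < ε) :
    ∃ N0 : ℕ, ∀ (a a' : Fin s → ℤ) (N N' : Fin s → ℕ), (∀ i, N0 ≤ N i) → (∀ i, N0 ≤ N' i) →
      n2 mu (fun x => bavg a N (fun h => PD T g (fun i => (c i : ℤ) * h i) x) -
        bavg a' N' (fun h => PD T g (fun i => (c i : ℤ) * h i) x)) ≤ ε := by
  classical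
  obtain ⟨N0, hN0⟩ := hW X mu T hT (Fin s) {ω : Finset (Fin s) // ω ≠ ∅}
    (fun j z => ∑ i ∈ j.1, (c i : ℤ) * z i) (fun j => g j.1)
    (fun j => ⟨∑ i ∈ j.1, MvPolynomial.C (c i : ℤ) * MvPolynomial.X i, fun z => by
      simp [map_sum]⟩) (fun j => hg j.1) (ε ^ 2) (by positivity)
  refine ⟨N0, fun a a' N N' hN hN' => ?_⟩
  have h1 := hN0 a a' N N' hN hN'
  simp only [PD_eq]
  unfold n2
  calc Real.sqrt _ ≤ Real.sqrt (ε ^ 2) := Real.sqrt_le_sqrt h1
    _ = ε := Real.sqrt_sq hε.le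

theorem exists_dual (hW : WalshBox) (hT : ZAct mu T) (c : Fin s → ℕ) (hg : ∀ ω, B1 (g ω)) :
    ∃ D, IsDual mu T c g D := by
  have hb : ∀ (a : Fin s → ℤ) (N : Fin s → ℕ),
      B1 (fun x => bavg a N (fun h => PD T g (fun i => (c i : ℤ) * h i) x)) := fun a N =>
    b1_bavg a N fun z => b1_PD hT hg _
  obtain ⟨D, hD1, hD2⟩ := complete (mu := mu)
    (fun n x => bavg (fun _ => 0) (fun _ => n) (fun h => PD T g (fun i => (c i : ℤ) * h i) x))
    (fun n => hb _ _) (fun ε hε => by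
      obtain ⟨N0, hN0⟩ := dual_cauchy hW hT c hg hε
      exact ⟨N0, fun m n hm hn => hN0 _ _ _ _ (fun _ => hm) (fun _ => hn)⟩)
  refine ⟨D, hD1, fun ε hε => ?_⟩
  obtain ⟨N0, hN0⟩ := dual_cauchy hW hT c hg (half_pos hε)
  obtain ⟨N1, hN1⟩ := hD2 (ε / 2) (half_pos hε)
  refine ⟨N0, fun a N hN => ?_⟩
  have h1 := hN0 a (fun _ => 0) N (fun _ => max N0 N1) hN (fun _ => le_max_left _ _)
  have h2 := hN1 (max N0 N1) (le_max_right _ _)
  have h3 := n2_tri (mu := mu) (b1_bm (hb a N))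
    (b1_bm (hb (fun _ => 0) (fun _ => max N0 N1))) (b1_bm hD1)
  linarith

theorem dual_unique (hT : ZAct mu T) (hg : ∀ ω, B1 (g ω)) (hD : IsDual mu T c g D)
    (hD' : IsDual mu T c g D') : n2 mu (fun x => D x - D' x) = 0 := by
  have hb : ∀ (a : Fin s → ℤ) (N : Fin s → ℕ),
      B1 (fun x => bavg a N (fun h => PD T g (fun i => (c i : ℤ) * h i) x)) := fun a N =>
    b1_bavg a N fun z => b1_PD hT hg _
  refine le_antisymm (le_of_forall_pos_le_add fun ε hε => ?_) (n2_nonneg _)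
  obtain ⟨H0, hH⟩ := hD.lim (ε / 2) (half_pos hε)
  obtain ⟨H1, hH'⟩ := hD'.lim (ε / 2) (half_pos hε)
  have h1 := hH (fun _ => 0) (fun _ => max H0 H1) (fun _ => le_max_left _ _)
  have h2 := hH' (fun _ => 0) (fun _ => max H0 H1) (fun _ => le_max_right _ _)
  have h3 := n2_tri (mu := mu) (b1_bm hD.b1)
    (b1_bm (hb (fun _ => 0) (fun _ => max H0 H1))) (b1_bm hD'.b1)
  rw [n2_comm D (fun x => bavg (fun _ => 0) (fun _ => max H0 H1)
    (fun h => PD T g (fun i => (c i : ℤ) * h i) x))] at h3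
  linarith

theorem dual_conj (hD : IsDual mu T c g D) :
    IsDual mu T c (fun ω x => conj (g ω x)) (fun x => conj (D x)) := by
  refine ⟨b1_conj hD.b1, fun ε hε => ?_⟩
  obtain ⟨H0, hH⟩ := hD.lim ε hε
  refine ⟨H0, fun a N hN => ?_⟩
  have h1 := hH a N hN
  rw [← n2_conj] at h1
  have h2 : (fun x => conj (bavg a N (fun h => PD T g (fun i => (c i : ℤ) * h i) x) - D x)) =
      fun x => bavg a N (fun h => PD T (fun ω x => conj (g ω x)) (fun i => (c i : ℤ) * h i) x) -
        conj (D x) := by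
    funext x
    unfold bavg PD
    simp only [map_sub, map_mul, map_inv₀, map_prod, map_sum, map_natCast]
  rw [h2] at h1
  exact h1

theorem dual_one : IsDual mu T c (fun _ _ => 1) (fun _ => 1) := by
  refine ⟨b1_one, fun ε hε => ⟨1, fun a N hN => ?_⟩⟩
  have h1 : (fun x : X => bavg a N (fun h => PD T (fun _ _ => (1 : ℂ))
      (fun i => (c i : ℤ) * h i) x) - 1) = fun _ => 0 := by
    funext x
    unfold PD
    simp only [Finset.prod_const_one]
    rw [bavg_const a N (fun i => hN i), sub_self]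
  rw [h1]
  unfold n2
  simp [hε.le]

end Pool.Agent.MRS.Du
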