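import Pool.Agent.MRS.DuN
import Pool.Agent.MRS.DuS
import Pool.Agent.MRS.DuC

/-!
# MRS / DuZ: (2.7) `WalshBox → DecompThm`

PROOF.  Induction on `l`: every `l`-term sequence `F` satisfies `Dec l F`.
`l = 0`: `F n = ∫ g 0 (T (0 * n) x)` is constant: `dec_const`.
`l + 1`: let `F n = ∫ ∏_{j ∈ range (l + 2)} g j (T (j n) x) = ∫ P n x * g (l+1) (T ((l+1) n) x)`, `P n x = ∏_{j ∈ range (l + 1)} g j (T (j n) x)` (`Finset.prod_range_succ`), and for a bounded measurable `v` put
`I v n = ∫ P n x * v (T ((l+1) n) x)`.  `I` is linear in `v` and `‖I v n - I v' n‖ ≤ n2 (v - v')` (`n2_comp`, `n2_mul_le`, `n2_int`).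
`split` for `s = l + 1`: `g (l+1) = u + 2 w`, `F n = I u n + 2 * I w n`.
`I w` is a null `(l+1)`-term sequence (`Function.update g (l+1) w`): `dec_null`, `dec_smul`.
`dec_I`: `Dec (l+1) (I a)` for every `a ∈ DA mu T (l+1)`: `Submodule.span_induction` with `dec_add`, `dec_smul`; for a dual function `D` use `dec_near`: by `shift` (with `f = g`) `I D` is within `ε` of
`(card R)⁻¹ ∑_{h ∈ R} Fh h` along the multiples of `∏ c i`, and this is `Dec l` by the induction hypothesis (`dec_sum`, `dec_smul`, `dec_mono`).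
`Dec (l+1) (I u)`: `dec_near` with `W = 1` and `a ∈ DA` with `n2 (u - a) ≤ ε` (`Cl`).
-/

set_option autoImplicit false

namespace Pool.Agent.MRS.Du

open MeasureTheory Filter Topology
open scoped BigOperators ComplexConjugate

/-- `∫ (∏_{j ≤ l} g j (T (j n) x)) * v (T ((l+1) n) x)` -/
noncomputable def II {X : Type} [MeasurableSpace X] (mu : Measure X) (T : ℤ → X → X) (l : ℕ)
    (g : ℕ → X → ℂ) (v : X → ℂ) (n : ℤ) : ℂ :=
  ∫ x, (∏ j ∈ Finset.range (l + 1), g j (T ((j : ℤ) * n) x)) * v (T (((l : ℤ) + 1) * n) x) ∂mu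

variable {X : Type} [MeasurableSpace X] {mu : Measure X} [IsProbabilityMeasure mu] {T : ℤ → X → X}

private theorem duz_P (hT : ZAct mu T) (l : ℕ) {g : ℕ → X → ℂ} (hg : ∀ j, B1 (g j)) (n : ℤ) :
    B1 (fun x => ∏ j ∈ Finset.range (l + 1), g j (T ((j : ℤ) * n) x)) :=
  b1_prod _ fun j _ => b1_comp hT (hg j) _

theorem II_add (hT : ZAct mu T) {l : ℕ} {g : ℕ → X → ℂ} (hg : ∀ j, B1 (g j)) {v v' : X → ℂ}
    (hv : BM v) (hv' : BM v') (n : ℤ) :
    II mu T l g (fun x => v x + v' x) n = II mu T l g v n + II mu T l g v' n := by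
  unfold II
  rw [← integral_add (bm_int (bm_mul (b1_bm (duz_P hT l hg n)) (bm_comp hT hv _)))
    (bm_int (bm_mul (b1_bm (duz_P hT l hg n)) (bm_comp hT hv' _)))]
  congr 1
  funext x
  rw [mul_add]

theorem II_smul (l : ℕ) (g : ℕ → X → ℂ) (c : ℂ) (v : X → ℂ) (n : ℤ) :
    II mu T l g (fun x => c * v x) n = c * II mu T l g v n := by
  unfold II
  rw [← integral_const_mul]
  congr 1
  funext x
  ring

theorem II_near (hT : ZAct mu T) {l : ℕ} {g : ℕ → X → ℂ} (hg : ∀ j, B1 (g j)) {v v' : X → ℂ}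
    (hv : BM v) (hv' : BM v') (n : ℤ) :
    ‖II mu T l g v n - II mu T l g v' n‖ ≤ n2 mu (fun x => v x - v' x) := by
  have hP := duz_P hT l hg n
  have h1 : II mu T l g v n - II mu T l g v' n =
      ∫ x, (∏ j ∈ Finset.range (l + 1), g j (T ((j : ℤ) * n) x)) *
        (v (T (((l : ℤ) + 1) * n) x) - v' (T (((l : ℤ) + 1) * n) x)) ∂mu := by
    unfold II
    rw [← integral_sub (bm_int (bm_mul (b1_bm hP) (bm_comp hT hv _)))
      (bm_int (bm_mul (b1_bm hP) (bm_comp hT hv' _)))]
    congr 1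
    funext x
    rw [mul_sub]
  have hd : BM (fun x => v (T (((l : ℤ) + 1) * n) x) - v' (T (((l : ℤ) + 1) * n) x)) :=
    bm_sub (bm_comp hT hv _) (bm_comp hT hv' _)
  rw [h1]
  refine (n2_int (bm_mul (b1_bm hP) hd)).trans ((n2_mul_le hd (b1_bm hP) hP.le).trans ?_)
  rw [one_mul]
  exact (n2_comp hT (bm_sub hv hv') (((l : ℤ) + 1) * n)).le

theorem dec_II (hT : ZAct mu T) {l : ℕ} (ih : ∀ F, IsTerm l F → Dec l F) {g : ℕ → X → ℂ}
    (hg : ∀ j, B1 (g j)) {a : X → ℂ} (ha : a ∈ DA mu T (l + 1)) : Dec (l + 1) (II mu T l g a) := by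
  unfold DA at ha
  induction ha using Submodule.span_induction with
  | mem D hD =>
    obtain ⟨c, g', hc, hg', hD⟩ := hD
    refine dec_near fun ε hε => ?_
    obtain ⟨R, Fh, hR, hFh, hn⟩ := shift hT hc hg' hD hg hε
    refine ⟨∏ i, c i, fun n => (R.card : ℂ)⁻¹ * ∑ h ∈ R, Fh h n,
      Finset.prod_pos fun i _ => hc i,
      dec_smul _ (dec_sum R fun h _ => dec_mono (Nat.le_succ l) (ih _ (hFh h))), hn⟩
  | zero =>
    refine dec_congr (fun n => ?_) (dec_const (l + 1) 0)
    unfold II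
    simp
  | add x y hx hy h1 h2 =>
    refine dec_congr (fun n => ?_) (dec_add h1 h2)
    exact (II_add hT hg (DA_bm hx) (DA_bm hy) n).symm
  | smul c x hx h1 =>
    refine dec_congr (fun n => ?_) (dec_smul c h1)
    exact (II_smul l g c x n).symm

private theorem duz_term (l : ℕ) (g : ℕ → X → ℂ) (n : ℤ) :
    ∫ x, ∏ j ∈ Finset.range (l + 1 + 1), g j (T ((j : ℤ) * n) x) ∂mu =
      II mu T l g (g (l + 1)) n := by
  unfold II
  congr 1
  funext x
  rw [Finset.prod_range_succ]
  push_cast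
  rfl

theorem dec_all (hW : WalshBox) : ∀ (l : ℕ) (F : ℤ → ℂ), IsTerm l F → Dec l F := by
  intro l
  induction l with
  | zero =>
    rintro F ⟨X, _, mu, _, T, g, hT, hg, hF⟩
    refine dec_congr (fun n => ?_) (dec_const 0 (∫ x, g 0 x ∂mu))
    rw [hF n]
    congr 1
    funext x
    simp [hT.zero]
  | succ l ih =>
    rintro F ⟨X, _, mu, _, T, g, hT, hg, hF⟩
    obtain ⟨u, w, hu, hw, huw, hcl, hnull⟩ := split hW hT (l + 1) (hg (l + 1))
    have hFe : ∀ n, II mu T l g u n + 2 * II mu T l g w n = F n := by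
      intro n
      rw [hF n, duz_term, ← II_smul, ← II_add hT hg (b1_bm hu) (bm_mul (bm_const 2) (b1_bm hw))]
      congr 1
      funext x
      exact (huw x).symm
    refine dec_congr hFe (dec_add ?_ (dec_smul 2 ?_))
    · refine dec_near fun ε hε => ?_
      obtain ⟨a, ha, hn⟩ := hcl ε hε
      exact ⟨1, II mu T l g a, one_pos, dec_II hT ih hg ha, fun n _ =>
        (II_near hT hg (b1_bm hu) (DA_bm ha) n).trans hn⟩
    · refine dec_null (l' := l + 1) (Nat.succ_pos l) le_rfl
        ⟨X, inferInstance, mu, inferInstance, T, Function.update g (l + 1) w, hT, fun j => ?_, ?_,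
          fun n => ?_⟩
      · by_cases hj : j = l + 1
        · subst hj
          rw [Function.update_self]
          exact hw
        · rw [Function.update_of_ne hj]
          exact hg j
      · rw [Function.update_self]
        exact hnull
      · rw [duz_term, Function.update_self]
        unfold II
        congr 1
        funext x
        congr 1
        refine Finset.prod_congr rfl fun j hj => ?_
        rw [Function.update_of_ne (by
          have := Finset.mem_range.1 hj
          omega)]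

theorem decompThm (hW : WalshBox) : DecompThm := fun l F hF => dec_all hW l F hF

end Pool.Agent.MRS.Du
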