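import Pool.Agent.MRS.Defs

/-!
# MRS / PB: van der Corput / generalized von Neumann inequality for the class `Anti`

`cub H r w n` is the average over `h ∈ [H]^{2r}` of `∏_{ω ∈ {0,1}^r} w (n + ∑ h_i^{ω_i})` (recursive form).
`pb_vdc_step`: `w` supported in `[y, y + L)`:
`‖∑ w n ⟨g, u n⟩‖² ≤ (L + H) ∑_{n ∈ [y-H, y+L)} E_{h,h'} w (n+h) w (n+h') ⟨u (n+h), u (n+h')⟩`.
`pb_gvn`: for `Anti r v`: `‖∑ w v‖^(2^(r+1)) ≤ (L + (r+1)H)^(2^(r+1) - 1) ∑_n cub H (r+1) w n`.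
-/

set_option autoImplicit false

namespace Pool.Agent.MRS

open Finset
open scoped ComplexConjugate

/-- average over cubes, recursive form -/
noncomputable def cub (H : ℕ) : ℕ → (ℤ → ℝ) → ℤ → ℝ
  | 0, w => w
  | r + 1, w => fun n =>
      (∑ h ∈ range H, ∑ h' ∈ range H, cub H r (fun m => w (m + h) * w (m + h')) n) / (H : ℝ) ^ 2

theorem anti_shift {r : ℕ} : ∀ {v : ℤ → ℂ}, Anti r v → ∀ c : ℤ, Anti r (fun n => v (n + c)) := by
  induction r with
  | zero =>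
    rintro v ⟨a, ha, hv⟩ c
    exact ⟨a, ha, fun n => hv _⟩
  | succ r ih =>
    rintro v ⟨E, _, _, u, g, hu, hg, hv, hA⟩ c
    refine ⟨E, inferInstance, inferInstance, fun n => u (n + c), g, fun n => hu _, hg,
      fun n => hv _, fun h => ?_⟩
    have h1 := ih (hA h) c
    simp only [add_right_comm _ c h] at h1
    exact h1

theorem pb_shift_sum {M : Type*} [AddCommMonoid M] (g : ℤ → M) {y : ℤ} {L H h : ℕ} (hh : h ≤ H)
    (hg : ∀ n, g n ≠ 0 → n ∈ Ico y (y + L)) :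
    ∑ n ∈ Ico (y - H) (y + L), g (n + h) = ∑ n ∈ Ico y (y + L), g n := by
  have h1 : ∑ n ∈ Ico (y - H) (y + L), g (n + h) = ∑ n ∈ Ico (y - H + h) (y + L + h), g n := by
    rw [← Finset.sum_image (s := Ico (y - H) (y + L)) (g := fun n : ℤ => n + h) (f := g)
      (fun a _ b _ hab => by simpa using hab)]
    rw [Finset.image_add_right_Ico]
  rw [h1]
  symm
  refine Finset.sum_subset ?_ ?_
  · intro n hn
    rw [mem_Ico] at hn ⊢
    constructor
    · have : (h : ℤ) ≤ H := by exact_mod_cast hh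
      omega
    · have : (0 : ℤ) ≤ h := by positivity
      omega
  · intro n _ hn
    by_contra h0
    exact hn (hg n h0)

theorem pb_vdc_step {E : Type} [NormedAddCommGroup E] [InnerProductSpace ℂ E] (u : ℤ → E) (g : E)
    (hg : ‖g‖ ≤ 1) (w : ℤ → ℝ) {y : ℤ} {L H : ℕ}
    (hH : 1 ≤ H) (hw : ∀ n, w n ≠ 0 → n ∈ Ico y (y + L)) :
    ‖∑ n ∈ Ico y (y + L), (w n : ℂ) * inner ℂ g (u n)‖ ^ 2 ≤
      (L + H : ℝ) * (∑ n ∈ Ico (y - H) (y + L), (∑ h ∈ range H, ∑ h' ∈ range H,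
        ((w (n + h) * w (n + h') : ℝ) : ℂ) * inner ℂ (u (n + h)) (u (n + h'))) /
          (H : ℂ) ^ 2).re := by
  have hH0 : (0 : ℝ) < H := by exact_mod_cast hH
  have hHC : (H : ℂ) ≠ 0 := by exact_mod_cast hH0.ne'
  set J := Ico (y - H) (y + L : ℤ) with hJ
  set Q : ℤ → E := fun n => (1 / (H : ℂ)) • ∑ h ∈ range H, (w (n + h) : ℂ) • u (n + h) with hQ
  have hsum : ∑ n ∈ Ico y (y + L), (w n : ℂ) • u n = ∑ n ∈ J, Q n := by
    have h1 : ∀ h ∈ range H, ∑ n ∈ J, (w (n + h) : ℂ) • u (n + h) =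
        ∑ n ∈ Ico y (y + L), (w n : ℂ) • u n := by
      intro h hh
      refine pb_shift_sum (fun n => (w n : ℂ) • u n) (mem_range.mp hh).le (fun n hn => hw n ?_)
      intro h0
      exact hn (by simp [h0])
    simp only [hQ]
    rw [← smul_sum, sum_comm, sum_congr rfl h1, sum_const, card_range, ← Nat.cast_smul_eq_nsmul ℂ,
      smul_smul]
    rw [one_div_mul_cancel hHC, one_smul]
  have h2 : ∑ n ∈ Ico y (y + L), (w n : ℂ) * inner ℂ g (u n) = inner ℂ g (∑ n ∈ J, Q n) := by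
    rw [← hsum, inner_sum]
    refine sum_congr rfl fun n _ => ?_
    rw [inner_smul_right]
  have h3 : ‖∑ n ∈ Ico y (y + L), (w n : ℂ) * inner ℂ g (u n)‖ ≤ ‖∑ n ∈ J, Q n‖ := by
    rw [h2]
    refine (norm_inner_le_norm _ _).trans ?_
    exact mul_le_of_le_one_left (norm_nonneg _) hg
  have hJc : (J.card : ℝ) = L + H := by
    rw [hJ, Int.card_Ico]
    have : (y + L - (y - H) : ℤ) = ((L + H : ℕ) : ℤ) := by push_cast; ring
    rw [this, Int.toNat_natCast]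
    push_cast
    ring
  have h4 : ‖∑ n ∈ J, Q n‖ ^ 2 ≤ (L + H : ℝ) * ∑ n ∈ J, ‖Q n‖ ^ 2 := by
    have h5 : ‖∑ n ∈ J, Q n‖ ≤ ∑ n ∈ J, ‖Q n‖ := norm_sum_le _ _
    refine (pow_le_pow_left₀ (norm_nonneg _) h5 2).trans ?_
    have := sq_sum_le_card_mul_sum_sq (s := J) (f := fun n => ‖Q n‖)
    rwa [hJc] at this
  refine (pow_le_pow_left₀ (norm_nonneg _) h3 2).trans (h4.trans (le_of_eq ?_))
  congr 1
  rw [Complex.re_sum]
  refine sum_congr rfl fun n _ => ?_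
  have h6 : ((‖Q n‖ ^ 2 : ℝ) : ℂ) = (∑ h ∈ range H, ∑ h' ∈ range H,
        ((w (n + h) * w (n + h') : ℝ) : ℂ) * inner ℂ (u (n + h)) (u (n + h'))) /
          (H : ℂ) ^ 2 := by
    have e1 : ((‖Q n‖ ^ 2 : ℝ) : ℂ) = inner ℂ (Q n) (Q n) := by
      rw [inner_self_eq_norm_sq_to_K]
      push_cast
      rfl
    rw [e1]
    simp only [hQ]
    push_cast
    rw [inner_smul_left, inner_smul_right, sum_inner]
    have h7 : ∀ h ∈ range H, inner ℂ ((w (n + h) : ℂ) • u (n + h))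
        (∑ h' ∈ range H, (w (n + h') : ℂ) • u (n + h')) = ∑ h' ∈ range H,
        (w (n + h) * w (n + h') : ℂ) * inner ℂ (u (n + h)) (u (n + h')) := by
      intro h _
      rw [inner_sum]
      refine sum_congr rfl fun h' _ => ?_
      rw [inner_smul_left, inner_smul_right, Complex.conj_ofReal]
      ring
    rw [sum_congr rfl h7]
    simp only [one_div, map_inv₀, Complex.conj_natCast]
    field_simp
  have := congrArg Complex.re h6
  rw [Complex.ofReal_re] at this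
  exact this

theorem pb_jensen_sq {H : ℕ} (hH : 1 ≤ H) (x : ℕ → ℕ → ℝ) (hx : ∀ h h', 0 ≤ x h h') (k : ℕ) :
    ((∑ h ∈ range H, ∑ h' ∈ range H, x h h') / (H : ℝ) ^ 2) ^ k ≤
      (∑ h ∈ range H, ∑ h' ∈ range H, x h h' ^ k) / (H : ℝ) ^ 2 := by
  have hH0 : (0 : ℝ) < H := by exact_mod_cast hH
  have h1 := Real.pow_arith_mean_le_arith_mean_pow (s := range H ×ˢ range H)
    (fun _ => 1 / (H : ℝ) ^ 2) (fun p : ℕ × ℕ => x p.1 p.2) (fun _ _ => by positivity)
    (by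
      rw [sum_const, card_product, card_range, nsmul_eq_mul]
      push_cast
      field_simp) (fun p _ => hx _ _) k
  simp only [← mul_sum, sum_product] at h1
  have e1 : ∀ t : ℝ, 1 / (H : ℝ) ^ 2 * t = t / (H : ℝ) ^ 2 := fun t => by ring
  rw [e1, e1] at h1
  exact h1

theorem pb_gvn (r : ℕ) : ∀ {v : ℤ → ℂ}, Anti r v → ∀ (w : ℤ → ℝ) {y : ℤ} {L H : ℕ}, 1 ≤ H →
    (∀ n, w n ≠ 0 → n ∈ Ico y (y + L)) →
    ‖∑ n ∈ Ico y (y + L), (w n : ℂ) * v n‖ ^ (2 ^ (r + 1)) ≤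
      ((L : ℝ) + (r + 1) * H) ^ (2 ^ (r + 1) - 1) *
        ∑ n ∈ Ico (y - (r + 1) * H) (y + L), cub H (r + 1) w n := by
  induction r with
  | zero =>
    rintro v ⟨c, hc, hv⟩ w y L H hH hw
    have h1 := pb_vdc_step (E := ℂ) (fun _ => 1) (conj c) (by rwa [RCLike.norm_conj]) w hH hw
    have e1 : ∀ n : ℤ, inner ℂ (conj c) (1 : ℂ) = v n := by
      intro n
      rw [hv n]
      simp
    have e2 : ∑ n ∈ Ico y (y + L), (w n : ℂ) * v n =
        ∑ n ∈ Ico y (y + L), (w n : ℂ) * inner ℂ (conj c) (1 : ℂ) := by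
      refine sum_congr rfl fun n _ => ?_
      rw [e1 n]
    rw [e2]
    simp only [zero_add, pow_one, one_mul, CharP.cast_eq_zero]
    refine h1.trans (le_of_eq ?_)
    have e3 : ∀ n : ℤ, (∑ h ∈ range H, ∑ h' ∈ range H,
        ((w (n + h) * w (n + h') : ℝ) : ℂ) * inner ℂ (1 : ℂ) (1 : ℂ)) / (H : ℂ) ^ 2 =
          ((cub H 1 w n : ℝ) : ℂ) := by
      intro n
      simp [cub]
    simp only [e3]
    rw [← Complex.ofReal_sum, Complex.ofReal_re]
    norm_num
  | succ r ih =>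
    rintro v ⟨E, _, _, u, g, hu, hg, hv, hA⟩ w y L H hH hw
    have hH0 : (0 : ℝ) < H := by exact_mod_cast hH
    have h1 := pb_vdc_step u g hg w hH hw
    simp only [← hv] at h1
    set J := Ico (y - H) (y + L : ℤ) with hJ
    set v' : ℕ → ℕ → ℤ → ℂ := fun h h' n => inner ℂ (u (n + h)) (u (n + h')) with hv'
    set w' : ℕ → ℕ → ℤ → ℝ := fun h h' n => w (n + h) * w (n + h') with hw'
    have hL : ∀ h h' : ℕ, Anti r (v' h h') := by
      intro h h'
      have h2 := anti_shift (hA ((h' : ℤ) - h)) (h : ℤ)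
      have e : ∀ n : ℤ, n + (h : ℤ) + ((h' : ℤ) - h) = n + h' := fun n => by ring
      simp only [e] at h2
      exact h2
    have hsupp : ∀ h ∈ range H, ∀ h' : ℕ, ∀ n, w' h h' n ≠ 0 → n ∈ Ico (y - H) (y - H + ((L + H : ℕ) : ℤ)) := by
      intro h hh h' n hn
      have h2 := hw (n + h) (left_ne_zero_of_mul hn)
      rw [mem_Ico] at h2 ⊢
      have h3 : (h : ℤ) < H := by exact_mod_cast mem_range.mp hh
      push_cast
      omega
    have hJ2 : Ico (y - H) (y - H + ((L + H : ℕ) : ℤ)) = J := by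
      rw [hJ]
      congr 1
      push_cast
      ring
    -- sum over `n` inside
    have h2 : ∑ n ∈ J, (∑ h ∈ range H, ∑ h' ∈ range H,
        ((w (n + h) * w (n + h') : ℝ) : ℂ) * inner ℂ (u (n + h)) (u (n + h'))) /
        (H : ℂ) ^ 2 = (∑ h ∈ range H, ∑ h' ∈ range H, ∑ n ∈ J, (w' h h' n : ℂ) * v' h h' n) /
          (H : ℂ) ^ 2 := by
      rw [← sum_div, sum_comm]
      congr 1
      refine sum_congr rfl fun h _ => ?_
      rw [sum_comm]
    have h3 : ‖∑ n ∈ Ico y (y + L), (w n : ℂ) * v n‖ ^ 2 ≤ (L + H : ℝ) *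
        ((∑ h ∈ range H, ∑ h' ∈ range H, ‖∑ n ∈ J, (w' h h' n : ℂ) * v' h h' n‖) / (H : ℝ) ^ 2) := by
      refine h1.trans ?_
      rw [h2]
      refine mul_le_mul_of_nonneg_left ?_ (by positivity)
      refine (Complex.re_le_norm _).trans ?_
      rw [norm_div, norm_pow, Complex.norm_natCast]
      refine div_le_div_of_nonneg_right ?_ (by positivity)
      refine (norm_sum_le _ _).trans (sum_le_sum fun h _ => norm_sum_le _ _)
    have h4 : ‖∑ n ∈ Ico y (y + L), (w n : ℂ) * v n‖ ^ (2 ^ (r + 2)) ≤ (L + H : ℝ) ^ (2 ^ (r + 1)) *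
        ((∑ h ∈ range H, ∑ h' ∈ range H, ‖∑ n ∈ J, (w' h h' n : ℂ) * v' h h' n‖ ^ (2 ^ (r + 1))) /
          (H : ℝ) ^ 2) := by
      have e1 : ‖∑ n ∈ Ico y (y + L), (w n : ℂ) * v n‖ ^ (2 ^ (r + 2)) =
          (‖∑ n ∈ Ico y (y + L), (w n : ℂ) * v n‖ ^ 2) ^ (2 ^ (r + 1)) := by
        rw [← pow_mul]
        congr 1
        ring
      rw [e1]
      refine (pow_le_pow_left₀ (sq_nonneg _) h3 _).trans ?_
      rw [mul_pow]
      gcongr
      exact pb_jensen_sq hH _ (fun _ _ => norm_nonneg _) _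
    have h5 : ∀ h ∈ range H, ∀ h' ∈ range H,
        ‖∑ n ∈ J, (w' h h' n : ℂ) * v' h h' n‖ ^ (2 ^ (r + 1)) ≤
        ((L : ℝ) + (r + 2) * H) ^ (2 ^ (r + 1) - 1) *
          ∑ n ∈ Ico (y - (r + 2) * H) (y + L), cub H (r + 1) (w' h h') n := by
      intro h hh h' _
      have h6 := ih (hL h h') (w' h h') (y := y - H) (L := L + H) hH (hsupp h hh h')
      rw [hJ2] at h6
      refine h6.trans (le_of_eq ?_)
      congr 1
      · congr 1
        push_cast
        ring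
      · congr 1
        congr 1
        · ring
        · push_cast; ring
    refine h4.trans ?_
    have h7 : (∑ h ∈ range H, ∑ h' ∈ range H,
        ‖∑ n ∈ J, (w' h h' n : ℂ) * v' h h' n‖ ^ (2 ^ (r + 1))) /
          (H : ℝ) ^ 2 ≤ ((L : ℝ) + (r + 2) * H) ^ (2 ^ (r + 1) - 1) *
          ∑ n ∈ Ico (y - (r + 2) * H) (y + L), cub H (r + 2) w n := by
      have e2 : ∑ n ∈ Ico (y - (r + 2) * H) (y + L), cub H (r + 2) w n =
          (∑ h ∈ range H, ∑ h' ∈ range H, ∑ n ∈ Ico (y - (r + 2) * H) (y + L),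
            cub H (r + 1) (w' h h') n) / (H : ℝ) ^ 2 := by
        rw [show (fun n => cub H (r + 2) w n) = fun n => (∑ h ∈ range H, ∑ h' ∈ range H,
          cub H (r + 1) (w' h h') n) / (H : ℝ) ^ 2 from rfl]
        rw [← sum_div, sum_comm]
        congr 1
        refine sum_congr rfl fun h _ => ?_
        rw [sum_comm]
      rw [e2, mul_div_assoc']
      refine div_le_div_of_nonneg_right ?_ (by positivity)
      rw [mul_sum]
      refine sum_le_sum fun h hh => ?_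
      rw [mul_sum]
      exact sum_le_sum fun h' hh' => h5 h hh h' hh'
    calc (L + H : ℝ) ^ (2 ^ (r + 1)) * ((∑ h ∈ range H, ∑ h' ∈ range H,
        ‖∑ n ∈ J, (w' h h' n : ℂ) * v' h h' n‖ ^ (2 ^ (r + 1))) / (H : ℝ) ^ 2)
        ≤ ((L : ℝ) + ((r : ℝ) + 1 + 1) * H) ^ (2 ^ (r + 1)) *
          (((L : ℝ) + (r + 2) * H) ^ (2 ^ (r + 1) - 1) *
          ∑ n ∈ Ico (y - (r + 2) * H) (y + L), cub H (r + 2) w n) := by
          have hR : (L + H : ℝ) ≤ (L : ℝ) + ((r : ℝ) + 1 + 1) * H := by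
            nlinarith [(Nat.cast_nonneg r : (0 : ℝ) ≤ r)]
          gcongr
      _ = _ := by
          rw [← mul_assoc]
          congr 1
          · rw [show ((r : ℝ) + 2) = (r : ℝ) + 1 + 1 by ring, ← pow_add]
            push_cast
            congr 1
            have : 1 ≤ 2 ^ (r + 1) := Nat.one_le_two_pow
            have e3 : 2 ^ (r + 1 + 1) = 2 ^ (r + 1) + 2 ^ (r + 1) := by ring
            omega

end Pool.Agent.MRS
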