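import Pool.Agent.MRS.Defs
import Pool.Agent.RHN.SVv
import Pool.Agent.RHN.SDefs

/-!
# MRS / PNu: the normalized indicator of the rough numbers in a residue class

`nu z W a k = 1/VV z W` if no prime `p ≤ z`, `p ∤ W`, divides `W k + a`, otherwise `0`.
`0 ≤ nu ≤ z`, `|nu - 1| ≤ z`.
-/

set_option autoImplicit false

namespace Pool.Agent.MRS

open Finset
open Pool.Agent.RHN (VV PZ Rough)

open Classical in
/-- the normalized sieve indicator -/
noncomputable def nu (z W : ℕ) (c n : ℤ) : ℝ :=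
  (if ∀ p ∈ PZ z W, ¬ ((p : ℤ) ∣ (W : ℤ) * n + c) then 1 else 0) / VV z W

theorem PZ_mem {z q p : ℕ} : p ∈ PZ z q ↔ p.Prime ∧ p ≤ z ∧ ¬ p ∣ q := by
  unfold PZ
  rw [mem_filter, mem_Icc]
  constructor
  · rintro ⟨⟨-, h2⟩, h3, h4⟩
    exact ⟨h3, h2, h4⟩
  · rintro ⟨h1, h2, h3⟩
    exact ⟨⟨h1.one_le, h2⟩, h1, h3⟩

theorem VV_eq (z q : ℕ) : VV z q = ∏ p ∈ PZ z q, (1 - 1 / (p : ℝ)) := rfl

theorem VV_pos (z q : ℕ) : 0 < VV z q := by
  rw [VV_eq]
  refine prod_pos fun p hp => ?_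
  have h2 : (2 : ℝ) ≤ p := by exact_mod_cast (PZ_mem.1 hp).1.two_le
  have : 1 / (p : ℝ) ≤ 1 / 2 := one_div_le_one_div_of_le (by norm_num) h2
  linarith

theorem VV_le_one (z q : ℕ) : VV z q ≤ 1 := by
  rw [VV_eq]
  refine prod_le_one (fun p hp => ?_) (fun p hp => ?_)
  · have h2 : (2 : ℝ) ≤ p := by exact_mod_cast (PZ_mem.1 hp).1.two_le
    have : 1 / (p : ℝ) ≤ 1 / 2 := one_div_le_one_div_of_le (by norm_num) h2
    linarith
  · have : 0 ≤ 1 / (p : ℝ) := by positivity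
    linarith

private theorem tele (z : ℕ) (hz : 1 ≤ z) : ∏ n ∈ Icc 2 z, (1 - 1 / (n : ℝ)) = 1 / z := by
  induction z, hz using Nat.le_induction with
  | base => simp
  | succ z hz ih =>
    have h1 : Icc 2 (z + 1) = insert (z + 1) (Icc 2 z) := by
      ext x
      simp only [mem_Icc, mem_insert]
      omega
    rw [h1, prod_insert (by simp), ih]
    have h2 : (0 : ℝ) < z := by exact_mod_cast hz
    push_cast
    field_simp
    ring

theorem one_div_VV_le {z q : ℕ} (hz : 1 ≤ z) : 1 / VV z q ≤ z := by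
  have h1 : 1 / (z : ℝ) ≤ VV z q := by
    rw [← tele z hz]
    have hsub : PZ z q ⊆ Icc 2 z := by
      intro p hp
      have h := PZ_mem.1 hp
      rw [mem_Icc]
      exact ⟨h.1.two_le, h.2.1⟩
    rw [← prod_sdiff hsub, ← VV_eq]
    refine mul_le_of_le_one_left (VV_pos z q).le (prod_le_one (fun n hn => ?_) fun n hn => ?_)
    · have hn' := mem_Icc.1 (mem_sdiff.1 hn).1
      have h2 : (2 : ℝ) ≤ n := by exact_mod_cast hn'.1
      have : 1 / (n : ℝ) ≤ 1 / 2 := one_div_le_one_div_of_le (by norm_num) h2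
      linarith
    · have : 0 ≤ 1 / (n : ℝ) := by positivity
      linarith
  have hz0 : (0 : ℝ) < z := by exact_mod_cast hz
  rw [div_le_iff₀ (VV_pos z q)]
  rw [div_le_iff₀ hz0] at h1
  linarith

theorem nu_nonneg (z W : ℕ) (a k : ℤ) : 0 ≤ nu z W a k := by
  unfold nu
  refine div_nonneg ?_ (VV_pos z W).le
  split_ifs <;> norm_num

theorem nu_le {z W : ℕ} (hz : 1 ≤ z) (a k : ℤ) : nu z W a k ≤ z := by
  unfold nu
  split_ifs
  · exact one_div_VV_le hz
  · rw [zero_div]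
    exact Nat.cast_nonneg z

theorem nu_sub_one {z W : ℕ} (hz : 1 ≤ z) (a k : ℤ) : |nu z W a k - 1| ≤ z := by
  have h1 := nu_nonneg z W a k
  have h2 := nu_le (W := W) hz a k
  have h3 : (1 : ℝ) ≤ z := by exact_mod_cast hz
  rw [abs_le]
  constructor <;> linarith

/-- rough numbers -/
theorem nu_rough {z W n : ℕ} {a k : ℤ} (hn : Rough z n) (h : (W : ℤ) * k + a = n) :
    nu z W a k = 1 / VV z W := by
  unfold nu
  rw [if_pos]
  intro p hp hd
  rw [h] at hd
  have h1 := PZ_mem.1 hp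
  exact hn.2 p h1.1 h1.2.1 (by exact_mod_cast hd)

/-- a bounded function supported on rough numbers is dominated by `nu` -/
theorem le_nu {z W n : ℕ} {a k : ℤ} {u : ℕ → ℝ} {A : ℝ} (hA : ∀ n, |u n| ≤ A)
    (hu : ∀ n, u n ≠ 0 → Rough z n) (h : (W : ℤ) * k + a = n) :
    |u n| ≤ A * VV z W * nu z W a k := by
  have hV := VV_pos z W
  by_cases h0 : u n = 0
  · rw [h0, abs_zero]
    have hA0 : 0 ≤ A := (abs_nonneg _).trans (hA n)
    exact mul_nonneg (mul_nonneg hA0 hV.le) (nu_nonneg _ _ _ _)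
  · rw [nu_rough (hu n h0) h]
    have : A * VV z W * (1 / VV z W) = A := by field_simp
    rw [this]
    exact hA n

end Pool.Agent.MRS
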