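import Pool.Agent.MRS.PB
import Pool.Agent.MRS.PNu

/-!
# MRS / PC1: explicit form of the cube averages; `nu - 1` is almost orthogonal to the class `Anti`

`NuCube` is the sieve input (proved in the files PS*).
-/

set_option autoImplicit false

namespace Pool.Agent.MRS

open Finset
open scoped ComplexConjugate

/-- the correlation statement for `nu` (input from the sieve) -/
def NuCube : Prop :=
  ∀ r : ℕ, ∃ C : ℕ, 1 ≤ C ∧ ∀ (z b w W L H : ℕ) (c y : ℤ) (S : Finset (Fin r → Fin 2)),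
    2 ≤ z → 1 ≤ b → 2 ^ (r + 1) ≤ w → (∀ p : ℕ, p.Prime → p ≤ w → p ∣ W) →
    z ^ (C * b) ≤ L → z ^ (C * b) ≤ H →
    |∑ n ∈ Ico y (y + L), ∑ h : Fin r → Fin 2 → Fin H, ∏ om ∈ S,
        nu z W c (n + ∑ i, ((h i (om i) : ℕ) : ℤ)) - (L : ℝ) * (H : ℝ) ^ (2 * r)| ≤
      C * ((1 / 2 : ℝ) ^ b + 1 / w) * ((L : ℝ) * (H : ℝ) ^ (2 * r))

theorem cub_eq (H r : ℕ) : ∀ (w : ℤ → ℝ) (n : ℤ), cub H r w n =
    (∑ h : Fin r → Fin 2 → Fin H, ∏ om : Fin r → Fin 2, w (n + ∑ i, ((h i (om i) : ℕ) : ℤ))) /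
      (H : ℝ) ^ (2 * r) := by
  induction r with
  | zero =>
    intro w n
    simp [cub]
  | succ r ih =>
    intro w n
    have h1 : ∑ h : Fin (r + 1) → Fin 2 → Fin H, ∏ om : Fin (r + 1) → Fin 2,
        w (n + ∑ i, ((h i (om i) : ℕ) : ℤ)) =
        ∑ a : Fin 2 → Fin H, ∑ g : Fin r → Fin 2 → Fin H, ∏ om : Fin r → Fin 2,
          (w (n + ∑ i, ((g i (om i) : ℕ) : ℤ) + ((a 0 : ℕ) : ℤ)) *
            w (n + ∑ i, ((g i (om i) : ℕ) : ℤ) + ((a 1 : ℕ) : ℤ))) := by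
      rw [← Fintype.sum_prod_type']
      refine Fintype.sum_equiv (Fin.consEquiv (fun _ => Fin 2 → Fin H)).symm _ _ fun h => ?_
      rw [← (Fin.consEquiv (fun _ : Fin (r + 1) => Fin 2)).prod_comp, Fintype.prod_prod_type,
        Fin.prod_univ_two, ← prod_mul_distrib]
      refine prod_congr rfl fun om _ => ?_
      congr 1
      · congr 1
        rw [Fin.sum_univ_succ]
        simp only [Fin.consEquiv, Equiv.coe_fn_mk, Fin.cons_zero, Fin.cons_succ, Equiv.coe_fn_symm_mk]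
        rw [add_comm (((h 0 0 : Fin H) : ℕ) : ℤ)]
        rw [add_assoc]
        rfl
      · congr 1
        rw [Fin.sum_univ_succ]
        simp only [Fin.consEquiv, Equiv.coe_fn_mk, Fin.cons_zero, Fin.cons_succ, Equiv.coe_fn_symm_mk]
        rw [add_comm (((h 0 1 : Fin H) : ℕ) : ℤ)]
        rw [add_assoc]
        rfl
    rw [h1]
    have h2 : ∀ f : Fin H → Fin H → ℝ, ∑ a : Fin 2 → Fin H, f (a 0) (a 1) =
        ∑ x : Fin H, ∑ y : Fin H, f x y := by
      intro f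
      rw [← Fintype.sum_prod_type']
      exact Fintype.sum_equiv (finTwoArrowEquiv (Fin H)) _ _ (fun a => rfl)
    rw [h2 (fun x y => ∑ g : Fin r → Fin 2 → Fin H, ∏ om : Fin r → Fin 2,
          (w (n + ∑ i, ((g i (om i) : ℕ) : ℤ) + ((x : ℕ) : ℤ)) *
            w (n + ∑ i, ((g i (om i) : ℕ) : ℤ) + ((y : ℕ) : ℤ))))]
    simp only [cub]
    rw [Finset.sum_range]
    simp only [Finset.sum_range, ih]
    simp only [← sum_div]
    rw [div_div, ← pow_add]
    congr 2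

end Pool.Agent.MRS
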