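import Pool.Agent.MRS.PC1

/-!
# MRS / PC2: `nu - 1` is almost orthogonal to the class `Anti r`
-/

set_option autoImplicit false

namespace Pool.Agent.MRS

open Finset
open scoped ComplexConjugate

theorem cub_le {H r : ℕ} (hH : 1 ≤ H) {w : ℤ → ℝ} {B : ℝ} (hB : ∀ n, |w n| ≤ B) (n : ℤ) :
    |cub H r w n| ≤ B ^ (2 ^ r) := by
  have hB0 : 0 ≤ B := (abs_nonneg _).trans (hB 0)
  have hH0 : (0 : ℝ) < H := by exact_mod_cast hH
  rw [cub_eq, abs_div, abs_of_pos (show (0 : ℝ) < (H : ℝ) ^ (2 * r) by positivity),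
    div_le_iff₀ (by positivity)]
  refine (abs_sum_le_sum_abs _ _).trans ?_
  have h1 : ∀ h : Fin r → Fin 2 → Fin H, |∏ om : Fin r → Fin 2, w (n + ∑ i, ((h i (om i) : ℕ) : ℤ))| ≤
      B ^ (2 ^ r) := by
    intro h
    rw [Finset.abs_prod]
    refine (prod_le_prod (fun _ _ => abs_nonneg _) (fun _ _ => hB _)).trans ?_
    simp
  refine (sum_le_sum fun h _ => h1 h).trans (le_of_eq ?_)
  rw [sum_const, card_univ, nsmul_eq_mul]
  simp only [Fintype.card_pi, Fintype.card_fin, prod_const, card_univ]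
  push_cast
  rw [← pow_mul]
  ring

/-- signs cancel -/
theorem pc_signs_zero {α : Type*} [Fintype α] [Nonempty α] [DecidableEq α] :
    ∑ S : Finset α, (-1 : ℝ) ^ (Sᶜ).card = 0 := by
  have h1 : ∑ S : Finset α, (-1 : ℝ) ^ (Sᶜ).card = ∑ S : Finset α, (-1 : ℝ) ^ S.card :=
    Fintype.sum_equiv (Function.Involutive.toPerm compl compl_involutive) _ _ (fun S => rfl)
  rw [h1]
  have h2 := Finset.sum_powerset_neg_one_pow_card_of_nonempty (x := (univ : Finset α)) univ_nonempty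
  rw [Finset.powerset_univ] at h2
  exact_mod_cast h2

theorem pc_interior_le {C₁ : ℝ} {z W H L' R : ℕ} {c y : ℤ} {δ : ℝ}
    (hH : 1 ≤ H) (hS : ∀ S : Finset (Fin R → Fin 2),
    |∑ n ∈ Ico y (y + L'), ∑ h : Fin R → Fin 2 → Fin H, ∏ om ∈ S,
        nu z W c (n + ∑ i, ((h i (om i) : ℕ) : ℤ)) - (L' : ℝ) * (H : ℝ) ^ (2 * R)| ≤
      C₁ * δ * ((L' : ℝ) * (H : ℝ) ^ (2 * R))) :
    |∑ n ∈ Ico y (y + L'), cub H R (fun n => nu z W c n - 1) n| ≤
      2 ^ (2 ^ R) * (C₁ * δ * L') := by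
  classical
  have hH0 : (0 : ℝ) < H := by exact_mod_cast hH
  have hHp : (0 : ℝ) < (H : ℝ) ^ (2 * R) := by positivity
  have h1 : ∑ n ∈ Ico y (y + L'), cub H R (fun n => nu z W c n - 1) n =
      (∑ S : Finset (Fin R → Fin 2), (-1 : ℝ) ^ (Sᶜ).card *
        (∑ n ∈ Ico y (y + L'), ∑ h : Fin R → Fin 2 → Fin H, ∏ om ∈ S,
        nu z W c (n + ∑ i, ((h i (om i) : ℕ) : ℤ)))) / (H : ℝ) ^ (2 * R) := by
    simp only [cub_eq]
    rw [← sum_div]
    congr 1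
    have h2 : ∀ (n : ℤ) (h : Fin R → Fin 2 → Fin H), ∏ om : Fin R → Fin 2,
        (nu z W c (n + ∑ i, ((h i (om i) : ℕ) : ℤ)) - 1) =
        ∑ S : Finset (Fin R → Fin 2), (-1 : ℝ) ^ (Sᶜ).card * ∏ om ∈ S,
          nu z W c (n + ∑ i, ((h i (om i) : ℕ) : ℤ)) := by
      intro n h
      have h3 := Finset.prod_add (fun om : Fin R → Fin 2 => nu z W c (n + ∑ i, ((h i (om i) : ℕ) : ℤ)))
        (fun _ => (-1 : ℝ)) univ
      simp only [sub_eq_add_neg]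
      rw [h3, powerset_univ]
      refine sum_congr rfl fun S _ => ?_
      rw [prod_const, ← compl_eq_univ_sdiff, mul_comm]
    simp only [h2, mul_sum]
    rw [sum_congr rfl fun n _ => sum_comm, sum_comm]
  rw [h1, abs_div, abs_of_pos hHp, div_le_iff₀ hHp]
  have h2 : ∑ S : Finset (Fin R → Fin 2), (-1 : ℝ) ^ (Sᶜ).card *
        (∑ n ∈ Ico y (y + L'), ∑ h : Fin R → Fin 2 → Fin H, ∏ om ∈ S,
        nu z W c (n + ∑ i, ((h i (om i) : ℕ) : ℤ))) =
      ∑ S : Finset (Fin R → Fin 2), (-1 : ℝ) ^ (Sᶜ).card *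
        (∑ n ∈ Ico y (y + L'), ∑ h : Fin R → Fin 2 → Fin H, ∏ om ∈ S,
        nu z W c (n + ∑ i, ((h i (om i) : ℕ) : ℤ)) - (L' : ℝ) * (H : ℝ) ^ (2 * R)) := by
    simp only [mul_sub, sum_sub_distrib]
    rw [← sum_mul, pc_signs_zero, zero_mul, sub_zero]
  rw [h2]
  refine (abs_sum_le_sum_abs _ _).trans ?_
  have h4 : ∀ S ∈ (univ : Finset (Finset (Fin R → Fin 2))), |(-1 : ℝ) ^ (Sᶜ).card *
        (∑ n ∈ Ico y (y + L'), ∑ h : Fin R → Fin 2 → Fin H, ∏ om ∈ S,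
        nu z W c (n + ∑ i, ((h i (om i) : ℕ) : ℤ)) - (L' : ℝ) * (H : ℝ) ^ (2 * R))| ≤
      C₁ * δ * ((L' : ℝ) * (H : ℝ) ^ (2 * R)) := by
    intro S _
    rw [abs_mul, abs_pow, abs_neg, abs_one, one_pow, one_mul]
    exact hS S
  refine (sum_le_sum h4).trans (le_of_eq ?_)
  rw [sum_const, card_univ, nsmul_eq_mul]
  simp only [Fintype.card_finset, Fintype.card_pi, Fintype.card_fin, prod_const, card_univ]
  push_cast
  ring

theorem pc_sum_Ico_split {M : Type*} [AddCommMonoid M] (f : ℤ → M) {a b c : ℤ} (hab : a ≤ b)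
    (hbc : b ≤ c) : ∑ n ∈ Ico a c, f n = ∑ n ∈ Ico a b, f n + ∑ n ∈ Ico b c, f n := by
  rw [← Ico_union_Ico_eq_Ico hab hbc, sum_union (Ico_disjoint_Ico_consecutive a b c)]

theorem nu_anti (hN : NuCube) (r : ℕ) : ∃ C : ℕ, 1 ≤ C ∧ ∀ (z b w W L : ℕ) (c y : ℤ) (v : ℤ → ℂ),
    2 ≤ z → 1 ≤ b → 2 ^ (r + 2) ≤ w → (∀ p : ℕ, p.Prime → p ≤ w → p ∣ W) → z ^ (C * b) ≤ L →
    Anti r v →
    ‖∑ k ∈ Ico y (y + L), ((nu z W c k - 1 : ℝ) : ℂ) * v k‖ ^ (2 ^ (r + 1)) ≤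
      C * ((1 / 2) ^ b + 1 / w) * (L : ℝ) ^ (2 ^ (r + 1)) := by
  obtain ⟨C₁, hC₁, hcube⟩ := hN (r + 1)
  obtain ⟨R, hR⟩ : ∃ R : ℕ, R = r + 1 := ⟨_, rfl⟩
  obtain ⟨N, hN2⟩ : ∃ N : ℕ, N = 2 ^ R := ⟨_, rfl⟩
  have hN1 : 1 ≤ N := by rw [hN2]; exact Nat.one_le_two_pow
  have hRN : R + 1 ≤ N := by rw [hN2]; exact Nat.lt_two_pow_self
  rw [← hR] at hcube
  refine ⟨2 ^ N * (2 ^ N * C₁ + 2 * R) + (C₁ + N + N + 1), by omega, ?_⟩
  intro z b w W L c y v hz hb hw hp hL hv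
  obtain ⟨δ, hδ⟩ : ∃ δ : ℝ, δ = (1 / 2) ^ b + 1 / (w : ℝ) := ⟨_, rfl⟩
  have hδ0 : 0 < δ := by rw [hδ]; positivity
  have hδb : (1 / 2 : ℝ) ^ b ≤ δ := by
    rw [hδ]
    have : (0 : ℝ) ≤ 1 / (w : ℝ) := by positivity
    linarith
  obtain ⟨H, hH⟩ : ∃ H : ℕ, H = z ^ (C₁ * b) := ⟨_, rfl⟩
  have hH1 : 1 ≤ H := by rw [hH]; exact Nat.one_le_pow _ _ (by omega)
  -- `H * z ^ N * 2 ^ N * 2 ^ b ≤ L`
  have hbig : H * z ^ N * z ^ N * z ^ b ≤ L := by
    refine le_trans ?_ hL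
    rw [hH, ← pow_add, ← pow_add, ← pow_add]
    refine Nat.pow_le_pow_right (by omega) ?_
    have h1 : (C₁ + N + N + 1) * b ≤ (2 ^ N * (2 ^ N * C₁ + 2 * R) + (C₁ + N + N + 1)) * b :=
      Nat.mul_le_mul_right b (Nat.le_add_left _ _)
    have h2 : N ≤ N * b := Nat.le_mul_of_pos_right N hb
    nlinarith
  have hz1 : 1 ≤ z ^ b := Nat.one_le_pow _ _ (by omega)
  have hzN : 2 ^ N ≤ z ^ N := Nat.pow_le_pow_left hz N
  have hNN : N < 2 ^ N := Nat.lt_two_pow_self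
  have hzN1 : 1 ≤ z ^ N := Nat.one_le_pow _ _ (by omega)
  -- `(R + 1) H ≤ L`
  have hRH : (R + 1) * H ≤ L := by
    refine le_trans ?_ hbig
    calc (R + 1) * H ≤ z ^ N * H := Nat.mul_le_mul_right _ (by omega)
      _ = H * z ^ N * 1 * 1 := by ring
      _ ≤ H * z ^ N * z ^ N * z ^ b := Nat.mul_le_mul (Nat.mul_le_mul le_rfl hzN1) hz1
  obtain ⟨L', hL'⟩ : ∃ L' : ℕ, L' = L - R * H := ⟨_, rfl⟩
  have hL'1 : L' + R * H = L := by
    rw [hL']
    have : R * H ≤ L := le_trans (Nat.mul_le_mul_right _ (by omega)) hRH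
    omega
  have hL'H : H ≤ L' := by
    have : (R + 1) * H = R * H + H := by ring
    omega
  -- the weight
  set f : ℤ → ℝ := fun n => nu z W c n - 1 with hf
  set wt : ℤ → ℝ := fun n => if n ∈ Ico y (y + (L : ℤ)) then f n else 0 with hwt
  have hf1 : ∀ n, |f n| ≤ z := fun n => nu_sub_one (by omega) c n
  have hwt1 : ∀ n, |wt n| ≤ z := by
    intro n
    simp only [hwt]
    split_ifs
    · exact hf1 n
    · rw [abs_zero]; exact Nat.cast_nonneg z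
  have hg := pb_gvn r hv wt (y := y) (L := L) (H := H) hH1 (by
    intro n hn
    by_contra h0
    exact hn (if_neg h0))
  have e1 : ∑ n ∈ Ico y (y + (L : ℤ)), (wt n : ℂ) * v n =
      ∑ n ∈ Ico y (y + (L : ℤ)), ((nu z W c n - 1 : ℝ) : ℂ) * v n := by
    refine sum_congr rfl fun n hn => ?_
    simp only [hwt, hf, if_pos hn]
  rw [e1] at hg
  refine hg.trans ?_
  -- split the sum over `n`
  have hRr : ((r : ℝ) + 1) = R := by rw [hR]; push_cast; ring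
  have hRr' : ((r : ℤ) + 1) = R := by rw [hR]; push_cast; ring
  rw [hRr, hRr', ← hR, ← hN2]
  have hLZ : (y + (L : ℤ)) = y + L' + R * H := by
    rw [← hL'1]; push_cast; ring
  have hsplit : ∑ n ∈ Ico (y - R * H) (y + L), cub H R wt n =
      ∑ n ∈ Ico (y - R * H) y, cub H R wt n + ∑ n ∈ Ico y (y + L'), cub H R wt n +
        ∑ n ∈ Ico (y + L') (y + L), cub H R wt n := by
    have hh : (0 : ℤ) ≤ R * H := by positivity
    have hL0 : (0 : ℤ) ≤ L' := by positivity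
    rw [pc_sum_Ico_split (cub H R wt) (a := y - R * H) (b := y) (c := y + L) (by linarith) (by linarith),
      pc_sum_Ico_split (cub H R wt) (a := y) (b := y + L') (c := y + L) (by linarith) (by linarith),
      add_assoc]
  -- interior
  have hint : ∀ n ∈ Ico y (y + (L' : ℤ)), cub H R wt n = cub H R f n := by
    intro n hn
    rw [cub_eq, cub_eq]
    congr 1
    refine sum_congr rfl fun h _ => prod_congr rfl fun om _ => ?_
    simp only [hwt]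
    rw [if_pos]
    rw [mem_Ico] at hn ⊢
    have h1 : (0 : ℤ) ≤ ∑ i, ((h i (om i) : ℕ) : ℤ) := sum_nonneg fun i _ => by positivity
    have h2 : ∑ i, ((h i (om i) : ℕ) : ℤ) ≤ ∑ _i : Fin R, (H : ℤ) :=
      sum_le_sum fun i _ => by exact_mod_cast (h i (om i)).2.le
    rw [sum_const, card_univ, Fintype.card_fin, nsmul_eq_mul] at h2
    rw [hLZ]
    constructor <;> linarith
  have hI := pc_interior_le (C₁ := C₁) (z := z) (W := W) (H := H) (L' := L') (R := R) (c := c) (y := y)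
    (δ := δ) hH1 (fun S => by
      rw [hδ]
      exact hcube z b w W L' H c y S hz hb (by rw [hR]; exact hw) hp (by rw [← hH]; exact hL'H) (by rw [hH]))
  have hI' : ∑ n ∈ Ico y (y + (L' : ℤ)), cub H R wt n ≤ 2 ^ N * (C₁ * δ * L') := by
    rw [sum_congr rfl hint, hN2]
    exact (le_abs_self _).trans hI
  have hz0 : (0 : ℝ) ≤ z := Nat.cast_nonneg z
  have hB1 : ∑ n ∈ Ico (y - R * H) y, cub H R wt n ≤ R * H * (z : ℝ) ^ N := by
    have h1 : ∀ n ∈ Ico (y - R * (H : ℤ)) y, cub H R wt n ≤ (z : ℝ) ^ N := by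
      intro n _
      rw [hN2]
      exact (le_abs_self _).trans (cub_le hH1 hwt1 n)
    refine (sum_le_sum h1).trans (le_of_eq ?_)
    rw [sum_const, nsmul_eq_mul, Int.card_Ico]
    have : (y - (y - R * H) : ℤ) = ((R * H : ℕ) : ℤ) := by push_cast; ring
    rw [this, Int.toNat_natCast]
    push_cast
    ring
  have hB2 : ∑ n ∈ Ico (y + (L' : ℤ)) (y + L), cub H R wt n ≤ R * H * (z : ℝ) ^ N := by
    have h1 : ∀ n ∈ Ico (y + (L' : ℤ)) (y + L), cub H R wt n ≤ (z : ℝ) ^ N := by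
      intro n _
      rw [hN2]
      exact (le_abs_self _).trans (cub_le hH1 hwt1 n)
    refine (sum_le_sum h1).trans (le_of_eq ?_)
    rw [sum_const, nsmul_eq_mul, Int.card_Ico]
    have : (y + L - (y + L') : ℤ) = ((R * H : ℕ) : ℤ) := by rw [hLZ]; push_cast; ring
    rw [this, Int.toNat_natCast]
    push_cast
    ring
  have hzR : (2 : ℝ) ≤ z := by exact_mod_cast hz
  have hbigR : (H : ℝ) * (z : ℝ) ^ N ≤ L * δ := by
    have h1 : (H : ℝ) * (z : ℝ) ^ N * (2 : ℝ) ^ b ≤ L := by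
      calc (H : ℝ) * (z : ℝ) ^ N * (2 : ℝ) ^ b ≤ (H : ℝ) * (z : ℝ) ^ N * (z : ℝ) ^ b := by gcongr
        _ = (H : ℝ) * (z : ℝ) ^ N * 1 * (z : ℝ) ^ b := by ring
        _ ≤ (H : ℝ) * (z : ℝ) ^ N * (z : ℝ) ^ N * (z : ℝ) ^ b := by
            gcongr
            exact_mod_cast hzN1
        _ ≤ L := by exact_mod_cast hbig
    have h2 : (H : ℝ) * (z : ℝ) ^ N = (H : ℝ) * (z : ℝ) ^ N * (2 : ℝ) ^ b * (1 / 2) ^ b := by
      rw [mul_assoc, ← mul_pow]
      norm_num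
    rw [h2]
    exact mul_le_mul h1 hδb (by positivity) (Nat.cast_nonneg L)
  have hL0 : (0 : ℝ) ≤ L := Nat.cast_nonneg L
  have hL'L : (L' : ℝ) ≤ L := by
    have : L' ≤ L := by omega
    exact_mod_cast this
  have htot : ∑ n ∈ Ico (y - R * H) (y + L), cub H R wt n ≤ (2 ^ N * C₁ + 2 * R) * δ * L := by
    rw [hsplit]
    have h1 : 2 ^ N * (C₁ * δ * L') ≤ 2 ^ N * (C₁ * δ * L) := by gcongr
    have h2 : R * H * (z : ℝ) ^ N ≤ R * (L * δ) := by
      rw [mul_assoc]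
      exact mul_le_mul_of_nonneg_left hbigR (Nat.cast_nonneg R)
    calc _ ≤ R * (L * δ) + 2 ^ N * (C₁ * δ * L) + R * (L * δ) := by linarith
      _ = _ := by ring
  have hLR : (L : ℝ) + R * H ≤ 2 * L := by
    have : R * H ≤ L := by
      have : (R + 1) * H = R * H + H := by ring
      omega
    have : (R : ℝ) * H ≤ L := by exact_mod_cast this
    linarith
  calc ((L : ℝ) + R * H) ^ (N - 1) * ∑ n ∈ Ico (y - R * H) (y + L), cub H R wt n
      ≤ ((L : ℝ) + R * H) ^ (N - 1) * ((2 ^ N * C₁ + 2 * R) * δ * L) := by gcongr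
    _ ≤ (2 * L) ^ (N - 1) * ((2 ^ N * C₁ + 2 * R) * δ * L) := by gcongr
    _ ≤ 2 ^ N * L ^ (N - 1) * ((2 ^ N * C₁ + 2 * R) * δ * L) := by
        rw [mul_pow]
        gcongr
        · norm_num
        · omega
    _ = 2 ^ N * (2 ^ N * C₁ + 2 * R) * δ * L ^ N := by
        obtain ⟨N', rfl⟩ : ∃ N', N = N' + 1 := ⟨N - 1, by omega⟩
        rw [Nat.add_sub_cancel]
        ring
    _ ≤ ((2 ^ N * (2 ^ N * C₁ + 2 * R) + (C₁ + N + N + 1) : ℕ) : ℝ) * δ * L ^ N := by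
        push_cast
        gcongr
        have : (0 : ℝ) ≤ (C₁ : ℝ) + N + N + 1 := by positivity
        linarith
    _ = _ := by rw [hδ]

end Pool.Agent.MRS
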