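import Pool.Agent.MRS.Defs

/-!
# MRS / PD1: the abstract bilinear estimate

`I`, `T` finite sets, weights `ν`, `ν'` with `ν - 1`, `ν' - 1` almost orthogonal to `Anti r`, `G k t` bounded by one.  With
`P t t' = ∑_k ν k G k t conj (G k t')`: Cauchy-Schwarz twice, removal of the weights:
`‖∑ u k u' t G k t‖⁴ ≤ 144 (ε + 3κ) (|I| |T|)⁴`.
-/

set_option autoImplicit false

namespace Pool.Agent.MRS

open Finset
open scoped ComplexConjugate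

theorem anti_one (r : ℕ) : Anti r (fun _ => 1) := by
  induction r with
  | zero => exact ⟨1, by simp, fun _ => rfl⟩
  | succ r ih =>
    refine ⟨ℂ, inferInstance, inferInstance, fun _ => 1, 1, fun _ => by simp, by simp,
      fun _ => by simp, fun h => ?_⟩
    have e : (fun n : ℤ => (inner ℂ (1 : ℂ) (1 : ℂ) : ℂ)) = fun _ => 1 := by
      funext n
      simp
    rw [e]
    exact ih

theorem pd_cs_w {ι : Type*} (s : Finset ι) (a b : ι → ℝ) (ha : ∀ i ∈ s, 0 ≤ a i) :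
    (∑ i ∈ s, a i * b i) ^ 2 ≤ (∑ i ∈ s, a i) * ∑ i ∈ s, a i * b i ^ 2 := by
  refine sum_sq_le_sum_mul_sum_of_sq_le_mul s ha (fun i hi => mul_nonneg (ha i hi) (sq_nonneg _))
    fun i _ => le_of_eq ?_
  ring

theorem pd_bilin {r : ℕ} {I T : Finset ℤ} {G : ℤ → ℤ → ℂ} {ν ν' u u' : ℤ → ℝ} {κ ε : ℝ}
    (hG : ∀ k t, ‖G k t‖ ≤ 1) (hκ0 : 0 ≤ κ) (hκ1 : κ ≤ 1) (hε : 0 ≤ ε)
    (hν0 : ∀ k, 0 ≤ ν k) (hν'0 : ∀ t, 0 ≤ ν' t)
    (hν : ∀ v, Anti r v → ‖∑ k ∈ I, ((ν k - 1 : ℝ) : ℂ) * v k‖ ≤ κ * I.card)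
    (hν' : ∀ v, Anti r v → ‖∑ t ∈ T, ((ν' t - 1 : ℝ) : ℂ) * v t‖ ≤ κ * T.card)
    (hA : ∀ k k', Anti r (fun t => G k t * conj (G k' t)))
    (hB : ∀ t t', Anti r (fun k => G k t * conj (G k t')))
    (hY : ∑ k ∈ I, ∑ k' ∈ I, ‖∑ t ∈ T, G k t * conj (G k' t)‖ ≤ ε * (I.card : ℝ) ^ 2 * T.card)
    (hu : ∀ k ∈ I, |u k| ≤ ν k) (hu' : ∀ t ∈ T, |u' t| ≤ ν' t) :
    ‖∑ k ∈ I, ∑ t ∈ T, ((u k * u' t : ℝ) : ℂ) * G k t‖ ^ 4 ≤
      144 * (ε + 3 * κ) * ((I.card : ℝ) * T.card) ^ 4 := by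
  set K : ℝ := (I.card : ℝ) with hK
  set M : ℝ := (T.card : ℝ) with hM
  have hK0 : 0 ≤ K := Nat.cast_nonneg _
  have hM0 : 0 ≤ M := Nat.cast_nonneg _
  -- masses
  have hmass : ∀ (J : Finset ℤ) (ρ : ℤ → ℝ), (∀ v, Anti r v → ‖∑ k ∈ J, ((ρ k - 1 : ℝ) : ℂ) * v k‖ ≤
      κ * J.card) → ∑ k ∈ J, ρ k ≤ 2 * J.card := by
    intro J ρ hρ
    have h1 := hρ _ (anti_one r)
    simp only [mul_one] at h1
    rw [← Complex.ofReal_sum, Complex.norm_real, Real.norm_eq_abs, sum_sub_distrib, sum_const,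
      nsmul_eq_mul, mul_one] at h1
    have h2 := (le_abs_self _).trans h1
    have h3 : κ * (J.card : ℝ) ≤ 1 * J.card := mul_le_mul_of_nonneg_right hκ1 (Nat.cast_nonneg _)
    linarith
  have hmI : ∑ k ∈ I, ν k ≤ 2 * K := hmass I ν hν
  have hmT : ∑ t ∈ T, ν' t ≤ 2 * M := hmass T ν' hν'
  have hsI0 : 0 ≤ ∑ k ∈ I, ν k := sum_nonneg fun k _ => hν0 k
  have hsT0 : 0 ≤ ∑ t ∈ T, ν' t := sum_nonneg fun k _ => hν'0 k
  clear_value K M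
  -- first Cauchy-Schwarz
  set X := ∑ k ∈ I, ∑ t ∈ T, ((u k * u' t : ℝ) : ℂ) * G k t with hX
  set Yv : ℤ → ℤ → ℂ := fun k k' => ∑ t ∈ T, (ν' t : ℂ) * (G k t * conj (G k' t)) with hYv
  set Y1 : ℤ → ℤ → ℂ := fun k k' => ∑ t ∈ T, G k t * conj (G k' t) with hY1
  have hX1 : ‖X‖ ≤ ∑ t ∈ T, ν' t * ‖∑ k ∈ I, (u k : ℂ) * G k t‖ := by
    have e1 : X = ∑ t ∈ T, (u' t : ℂ) * ∑ k ∈ I, (u k : ℂ) * G k t := by
      rw [hX, sum_comm]
      refine sum_congr rfl fun t _ => ?_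
      rw [mul_sum]
      refine sum_congr rfl fun k _ => ?_
      push_cast
      ring
    rw [e1]
    refine (norm_sum_le _ _).trans (sum_le_sum fun t ht => ?_)
    rw [norm_mul, Complex.norm_real, Real.norm_eq_abs]
    exact mul_le_mul_of_nonneg_right (hu' t ht) (norm_nonneg _)
  have hX2 : ‖X‖ ^ 2 ≤ 2 * M * ∑ k ∈ I, ∑ k' ∈ I, ν k * ν k' * ‖Yv k k'‖ := by
    have h1 : ‖X‖ ^ 2 ≤ (∑ t ∈ T, ν' t) * ∑ t ∈ T, ν' t * ‖∑ k ∈ I, (u k : ℂ) * G k t‖ ^ 2 :=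
      (pow_le_pow_left₀ (norm_nonneg _) hX1 2).trans (pd_cs_w T ν' _ fun t _ => hν'0 t)
    have h2 : ∑ t ∈ T, ν' t * ‖∑ k ∈ I, (u k : ℂ) * G k t‖ ^ 2 ≤
        ∑ k ∈ I, ∑ k' ∈ I, ν k * ν k' * ‖Yv k k'‖ := by
      have e2 : ((∑ t ∈ T, ν' t * ‖∑ k ∈ I, (u k : ℂ) * G k t‖ ^ 2 : ℝ) : ℂ) =
          ∑ k ∈ I, ∑ k' ∈ I, ((u k * u k' : ℝ) : ℂ) * Yv k k' := by
        have e3 : ∀ t, ((ν' t * ‖∑ k ∈ I, (u k : ℂ) * G k t‖ ^ 2 : ℝ) : ℂ) =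
            ∑ k ∈ I, ∑ k' ∈ I, ((u k * u k' : ℝ) : ℂ) * ((ν' t : ℂ) * (G k t * conj (G k' t))) := by
          intro t
          have e4 : ((‖∑ k ∈ I, (u k : ℂ) * G k t‖ ^ 2 : ℝ) : ℂ) =
              (∑ k ∈ I, (u k : ℂ) * G k t) * conj (∑ k ∈ I, (u k : ℂ) * G k t) := by
            rw [Complex.mul_conj, Complex.normSq_eq_norm_sq]
          rw [Complex.ofReal_mul, e4, map_sum, sum_mul_sum, mul_sum]
          refine sum_congr rfl fun k _ => ?_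
          rw [mul_sum]
          refine sum_congr rfl fun k' _ => ?_
          rw [map_mul, Complex.conj_ofReal]
          push_cast
          ring
        rw [Complex.ofReal_sum]
        simp only [e3, hYv, mul_sum]
        rw [sum_comm]
        refine sum_congr rfl fun k _ => ?_
        rw [sum_comm]
      have h3 : ∑ t ∈ T, ν' t * ‖∑ k ∈ I, (u k : ℂ) * G k t‖ ^ 2 ≤
          ‖((∑ t ∈ T, ν' t * ‖∑ k ∈ I, (u k : ℂ) * G k t‖ ^ 2 : ℝ) : ℂ)‖ := by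
        rw [Complex.norm_real, Real.norm_eq_abs]
        exact le_abs_self _
      refine h3.trans ?_
      rw [e2]
      refine (norm_sum_le _ _).trans (sum_le_sum fun k hk => ?_)
      refine (norm_sum_le _ _).trans (sum_le_sum fun k' hk' => ?_)
      rw [norm_mul, Complex.norm_real, Real.norm_eq_abs, abs_mul]
      exact mul_le_mul_of_nonneg_right (mul_le_mul (hu k hk) (hu k' hk') (abs_nonneg _) (hν0 k))
        (norm_nonneg _)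
    have h4 : 0 ≤ ∑ k ∈ I, ∑ k' ∈ I, ν k * ν k' * ‖Yv k k'‖ :=
      sum_nonneg fun k _ => sum_nonneg fun k' _ =>
        mul_nonneg (mul_nonneg (hν0 k) (hν0 k')) (norm_nonneg _)
    calc ‖X‖ ^ 2 ≤ (∑ t ∈ T, ν' t) * ∑ t ∈ T, ν' t * ‖∑ k ∈ I, (u k : ℂ) * G k t‖ ^ 2 := h1
      _ ≤ (∑ t ∈ T, ν' t) * ∑ k ∈ I, ∑ k' ∈ I, ν k * ν k' * ‖Yv k k'‖ :=
          mul_le_mul_of_nonneg_left h2 hsT0
      _ ≤ _ := mul_le_mul_of_nonneg_right hmT h4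
  -- removal of `ν'`
  have hYY : ∀ k k', ‖Yv k k'‖ ≤ ‖Y1 k k'‖ + κ * M := by
    intro k k'
    have e1 : Yv k k' = Y1 k k' + ∑ t ∈ T, ((ν' t - 1 : ℝ) : ℂ) * (G k t * conj (G k' t)) := by
      simp only [hYv, hY1]
      rw [← sum_add_distrib]
      refine sum_congr rfl fun t _ => ?_
      push_cast
      ring
    rw [e1]
    refine (norm_add_le _ _).trans ?_
    have := hν' _ (hA k k')
    linarith
  have hνν : ∑ k ∈ I, ∑ k' ∈ I, ν k * ν k' ≤ 4 * K ^ 2 := by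
    rw [← sum_mul_sum]
    calc (∑ k ∈ I, ν k) * ∑ k ∈ I, ν k ≤ (2 * K) * (2 * K) := mul_le_mul hmI hmI hsI0 (by positivity)
      _ = 4 * K ^ 2 := by ring
  have hνν0 : 0 ≤ ∑ k ∈ I, ∑ k' ∈ I, ν k * ν k' :=
    sum_nonneg fun k _ => sum_nonneg fun k' _ => mul_nonneg (hν0 k) (hν0 k')
  set Z := ∑ k ∈ I, ∑ k' ∈ I, ν k * ν k' * ‖Y1 k k'‖ with hZ
  have hZ0 : 0 ≤ Z := sum_nonneg fun k _ => sum_nonneg fun k' _ =>
        mul_nonneg (mul_nonneg (hν0 k) (hν0 k')) (norm_nonneg _)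
  have hX3 : ‖X‖ ^ 2 ≤ 8 * K ^ 2 * M ^ 2 * κ + 2 * M * Z := by
    refine hX2.trans ?_
    have h1 : ∑ k ∈ I, ∑ k' ∈ I, ν k * ν k' * ‖Yv k k'‖ ≤ Z + 4 * K ^ 2 * (κ * M) := by
      have h2 : ∑ k ∈ I, ∑ k' ∈ I, ν k * ν k' * ‖Yv k k'‖ ≤
          ∑ k ∈ I, ∑ k' ∈ I, (ν k * ν k' * ‖Y1 k k'‖ + ν k * ν k' * (κ * M)) := by
        refine sum_le_sum fun k _ => sum_le_sum fun k' _ => ?_
        rw [← mul_add]
        exact mul_le_mul_of_nonneg_left (hYY k k') (mul_nonneg (hν0 k) (hν0 k'))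
      refine h2.trans ?_
      simp only [sum_add_distrib, ← sum_mul]
      have := mul_le_mul_of_nonneg_right hνν (mul_nonneg hκ0 hM0)
      linarith
    calc 2 * M * ∑ k ∈ I, ∑ k' ∈ I, ν k * ν k' * ‖Yv k k'‖ ≤ 2 * M * (Z + 4 * K ^ 2 * (κ * M)) :=
          mul_le_mul_of_nonneg_left h1 (by positivity)
      _ = _ := by ring
  -- second Cauchy-Schwarz
  set Z2 := ∑ k ∈ I, ∑ k' ∈ I, ν k * ν k' * ‖Y1 k k'‖ ^ 2 with hZ2
  have hZZ : Z ^ 2 ≤ 4 * K ^ 2 * Z2 := by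
    have h1 := pd_cs_w (I ×ˢ I) (fun p => ν p.1 * ν p.2) (fun p => ‖Y1 p.1 p.2‖)
      (fun p _ => mul_nonneg (hν0 _) (hν0 _))
    simp only [sum_product] at h1
    have h2 : 0 ≤ Z2 := sum_nonneg fun k _ => sum_nonneg fun k' _ =>
        mul_nonneg (mul_nonneg (hν0 k) (hν0 k')) (sq_nonneg _)
    exact h1.trans (mul_le_mul_of_nonneg_right hνν h2)
  -- the second form of `Z2`
  have hform : ∀ (ρ : ℤ → ℝ), ∑ k ∈ I, ∑ k' ∈ I, ρ k * ρ k' * ‖Y1 k k'‖ ^ 2 =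
      ∑ t ∈ T, ∑ t' ∈ T, ‖∑ k ∈ I, (ρ k : ℂ) * (G k t * conj (G k t'))‖ ^ 2 := by
    intro ρ
    have e1 : ((∑ k ∈ I, ∑ k' ∈ I, ρ k * ρ k' * ‖Y1 k k'‖ ^ 2 : ℝ) : ℂ) =
        ∑ k ∈ I, ∑ k' ∈ I, ∑ t ∈ T, ∑ t' ∈ T, ((ρ k * ρ k' : ℝ) : ℂ) *
          ((G k t * conj (G k' t)) * conj (G k t' * conj (G k' t'))) := by
      rw [Complex.ofReal_sum]
      refine sum_congr rfl fun k _ => ?_
      rw [Complex.ofReal_sum]
      refine sum_congr rfl fun k' _ => ?_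
      have e2 : ((‖Y1 k k'‖ ^ 2 : ℝ) : ℂ) = Y1 k k' * conj (Y1 k k') := by
        rw [Complex.mul_conj, Complex.normSq_eq_norm_sq]
      rw [Complex.ofReal_mul, e2]
      simp only [hY1]
      rw [map_sum, sum_mul_sum, mul_sum]
      refine sum_congr rfl fun t _ => ?_
      rw [mul_sum]
    have e3 : ((∑ t ∈ T, ∑ t' ∈ T, ‖∑ k ∈ I, (ρ k : ℂ) * (G k t * conj (G k t'))‖ ^ 2 : ℝ) : ℂ) =
        ∑ t ∈ T, ∑ t' ∈ T, ∑ k ∈ I, ∑ k' ∈ I, ((ρ k * ρ k' : ℝ) : ℂ) *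
          ((G k t * conj (G k' t)) * conj (G k t' * conj (G k' t'))) := by
      rw [Complex.ofReal_sum]
      refine sum_congr rfl fun t _ => ?_
      rw [Complex.ofReal_sum]
      refine sum_congr rfl fun t' _ => ?_
      have e4 : ((‖∑ k ∈ I, (ρ k : ℂ) * (G k t * conj (G k t'))‖ ^ 2 : ℝ) : ℂ) =
          (∑ k ∈ I, (ρ k : ℂ) * (G k t * conj (G k t'))) *
            conj (∑ k ∈ I, (ρ k : ℂ) * (G k t * conj (G k t'))) := by
        rw [Complex.mul_conj, Complex.normSq_eq_norm_sq]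
      rw [e4, map_sum, sum_mul_sum]
      refine sum_congr rfl fun k _ => sum_congr rfl fun k' _ => ?_
      simp only [map_mul, Complex.conj_ofReal, Complex.conj_conj]
      push_cast
      ring
    have e5 : ((∑ k ∈ I, ∑ k' ∈ I, ρ k * ρ k' * ‖Y1 k k'‖ ^ 2 : ℝ) : ℂ) =
        ((∑ t ∈ T, ∑ t' ∈ T, ‖∑ k ∈ I, (ρ k : ℂ) * (G k t * conj (G k t'))‖ ^ 2 : ℝ) : ℂ) := by
      rw [e1, e3]
      have s1 : ∀ k ∈ I, ∑ k' ∈ I, ∑ t ∈ T, ∑ t' ∈ T, ((ρ k * ρ k' : ℝ) : ℂ) *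
          ((G k t * conj (G k' t)) * conj (G k t' * conj (G k' t'))) =
          ∑ t ∈ T, ∑ t' ∈ T, ∑ k' ∈ I, ((ρ k * ρ k' : ℝ) : ℂ) *
          ((G k t * conj (G k' t)) * conj (G k t' * conj (G k' t'))) := by
        intro k _
        rw [sum_comm]
        refine sum_congr rfl fun t _ => ?_
        rw [sum_comm]
      rw [sum_congr rfl s1, sum_comm]
      refine sum_congr rfl fun t _ => ?_
      rw [sum_comm]
    exact_mod_cast e5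
  have hZ2' : Z2 ≤ (ε + 3 * κ) * (K ^ 2 * M ^ 2) := by
    have h1 : Z2 ≤ ∑ t ∈ T, ∑ t' ∈ T, (‖∑ k ∈ I, (1 : ℂ) * (G k t * conj (G k t'))‖ ^ 2 +
        3 * κ * K ^ 2) := by
      rw [hZ2, hform]
      refine sum_le_sum fun t _ => sum_le_sum fun t' _ => ?_
      set P := ∑ k ∈ I, (ν k : ℂ) * (G k t * conj (G k t')) with hP
      set P1 := ∑ k ∈ I, (1 : ℂ) * (G k t * conj (G k t')) with hP1
      have h2 : ‖P - P1‖ ≤ κ * K := by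
        have e : P - P1 = ∑ k ∈ I, ((ν k - 1 : ℝ) : ℂ) * (G k t * conj (G k t')) := by
          rw [hP, hP1, ← sum_sub_distrib]
          refine sum_congr rfl fun k _ => ?_
          push_cast
          ring
        rw [e]
        exact hν _ (hB t t')
      have h3 : ‖P1‖ ≤ K := by
        rw [hP1, hK]
        refine (norm_sum_le _ _).trans ?_
        have : ∀ k ∈ I, ‖(1 : ℂ) * (G k t * conj (G k t'))‖ ≤ 1 := by
          intro k _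
          rw [one_mul, norm_mul, RCLike.norm_conj]
          exact mul_le_one₀ (hG _ _) (norm_nonneg _) (hG _ _)
        refine (sum_le_sum this).trans (le_of_eq ?_)
        rw [sum_const, nsmul_eq_mul, mul_one]
      have h4 : ‖P‖ ≤ ‖P1‖ + κ * K := by
        have := norm_add_le P1 (P - P1)
        rw [add_sub_cancel] at this
        linarith
      have h5 : κ * K ≤ K := mul_le_of_le_one_left hK0 hκ1
      have h6 : 0 ≤ κ * K := mul_nonneg hκ0 hK0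
      have h7 : ‖P‖ ^ 2 ≤ (‖P1‖ + κ * K) ^ 2 := pow_le_pow_left₀ (norm_nonneg _) h4 2
      have h8 : (‖P1‖ + κ * K) ^ 2 = ‖P1‖ ^ 2 + 2 * ‖P1‖ * (κ * K) + (κ * K) * (κ * K) := by ring
      have h9 : ‖P1‖ * (κ * K) ≤ K * (κ * K) := mul_le_mul_of_nonneg_right h3 h6
      have h10 : (κ * K) * (κ * K) ≤ K * (κ * K) := mul_le_mul_of_nonneg_right h5 h6
      nlinarith
    refine h1.trans ?_
    simp only [sum_add_distrib, sum_const, nsmul_eq_mul, ← hM]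
    have e6 := hform (fun _ => 1)
    simp only [Complex.ofReal_one, one_mul] at e6
    simp only [one_mul]
    rw [← e6]
    have h11 : ∑ k ∈ I, ∑ k' ∈ I, ‖Y1 k k'‖ ^ 2 ≤ M * (ε * K ^ 2 * M) := by
      have h12 : ∀ k k', ‖Y1 k k'‖ ≤ M := by
        intro k k'
        simp only [hY1]
        rw [hM]
        refine (norm_sum_le _ _).trans ?_
        have : ∀ t ∈ T, ‖G k t * conj (G k' t)‖ ≤ 1 := by
          intro t _
          rw [norm_mul, RCLike.norm_conj]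
          exact mul_le_one₀ (hG _ _) (norm_nonneg _) (hG _ _)
        refine (sum_le_sum this).trans (le_of_eq ?_)
        rw [sum_const, nsmul_eq_mul, mul_one]
      calc ∑ k ∈ I, ∑ k' ∈ I, ‖Y1 k k'‖ ^ 2 ≤ ∑ k ∈ I, ∑ k' ∈ I, M * ‖Y1 k k'‖ := by
            refine sum_le_sum fun k _ => sum_le_sum fun k' _ => ?_
            rw [sq]
            exact mul_le_mul_of_nonneg_right (h12 k k') (norm_nonneg _)
        _ = M * ∑ k ∈ I, ∑ k' ∈ I, ‖Y1 k k'‖ := by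
            rw [mul_sum]
            refine sum_congr rfl fun k _ => ?_
            rw [mul_sum]
        _ ≤ M * (ε * K ^ 2 * M) := mul_le_mul_of_nonneg_left hY hM0
    nlinarith
  -- conclusion
  have hS0 : 0 ≤ ε + 3 * κ := by positivity
  have hZf : Z ^ 2 ≤ 4 * K ^ 4 * M ^ 2 * (ε + 3 * κ) := by
    refine hZZ.trans ?_
    have := mul_le_mul_of_nonneg_left hZ2' (show 0 ≤ 4 * K ^ 2 by positivity)
    calc 4 * K ^ 2 * Z2 ≤ 4 * K ^ 2 * ((ε + 3 * κ) * (K ^ 2 * M ^ 2)) := this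
      _ = _ := by ring
  have h20 : ‖X‖ ^ 4 ≤ 2 * (8 * K ^ 2 * M ^ 2 * κ) ^ 2 + 2 * (2 * M * Z) ^ 2 := by
    have h21 : ‖X‖ ^ 4 = (‖X‖ ^ 2) ^ 2 := by ring
    rw [h21]
    have h22 := pow_le_pow_left₀ (sq_nonneg ‖X‖) hX3 2
    nlinarith [sq_nonneg (8 * K ^ 2 * M ^ 2 * κ - 2 * M * Z)]
  refine h20.trans ?_
  have h23 : (2 * M * Z) ^ 2 ≤ 16 * K ^ 4 * M ^ 4 * (ε + 3 * κ) := by
    have := mul_le_mul_of_nonneg_left hZf (show 0 ≤ 4 * M ^ 2 by positivity)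
    calc (2 * M * Z) ^ 2 = 4 * M ^ 2 * Z ^ 2 := by ring
      _ ≤ 4 * M ^ 2 * (4 * K ^ 4 * M ^ 2 * (ε + 3 * κ)) := this
      _ = _ := by ring
  have h24 : (8 * K ^ 2 * M ^ 2 * κ) ^ 2 ≤ 64 * K ^ 4 * M ^ 4 * κ := by
    have h25 : κ ^ 2 ≤ κ := by nlinarith
    calc (8 * K ^ 2 * M ^ 2 * κ) ^ 2 = 64 * K ^ 4 * M ^ 4 * κ ^ 2 := by ring
      _ ≤ _ := mul_le_mul_of_nonneg_left h25 (by positivity)
  have h26 : 0 ≤ K ^ 4 * M ^ 4 * ε := by positivity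
  have h27 : 0 ≤ K ^ 4 * M ^ 4 * κ := by positivity
  calc 2 * (8 * K ^ 2 * M ^ 2 * κ) ^ 2 + 2 * (2 * M * Z) ^ 2
      ≤ 2 * (64 * K ^ 4 * M ^ 4 * κ) + 2 * (16 * K ^ 4 * M ^ 4 * (ε + 3 * κ)) := by linarith
    _ ≤ 144 * (ε + 3 * κ) * (K * M) ^ 4 := by nlinarith

end Pool.Agent.MRS
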