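import Pool.Agent.MRS.Defs

/-!
# MRS / PD2: sums over a residue class in an interval of natural numbers
-/

set_option autoImplicit false

namespace Pool.Agent.MRS

open Finset

theorem pd_ap_sum {W : ℕ} (hW : 1 ≤ W) (c : ℤ) {N₁ N₂ : ℕ} (hN : N₁ ≤ N₂) : ∃ (y : ℤ) (L : ℕ),
    (L : ℝ) ≤ ((N₂ : ℝ) - N₁) / W + 1 ∧ ((N₂ : ℝ) - N₁) / W - 1 ≤ L ∧
    (∀ k ∈ Ico y (y + L), (N₁ : ℤ) < (W : ℤ) * k + c ∧ (W : ℤ) * k + c ≤ N₂) ∧
    ∀ g : ℤ → ℂ, ∑ n ∈ Ioc N₁ N₂, (if (n : ℤ) ≡ c [ZMOD W] then g n else 0) =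
      ∑ k ∈ Ico y (y + L), g ((W : ℤ) * k + c) := by
  have hW0 : (0 : ℤ) < W := by exact_mod_cast hW
  have hWR : (0 : ℝ) < W := by exact_mod_cast hW
  obtain ⟨q1, hq1⟩ : ∃ q1 : ℤ, q1 = ((N₁ : ℤ) - c) / W := ⟨_, rfl⟩
  obtain ⟨q2, hq2⟩ : ∃ q2 : ℤ, q2 = ((N₂ : ℤ) - c) / W := ⟨_, rfl⟩
  have hNZ : (N₁ : ℤ) ≤ N₂ := by exact_mod_cast hN
  have h12 : q1 ≤ q2 := by
    rw [hq1, hq2]
    exact Int.ediv_le_ediv hW0 (by linarith)
  have a1 : q1 * W ≤ (N₁ : ℤ) - c := by rw [hq1]; exact Int.ediv_mul_le _ hW0.ne'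
  have a2 : (N₁ : ℤ) - c < (q1 + 1) * W := by rw [hq1]; exact Int.lt_ediv_add_one_mul_self _ hW0
  have b1 : q2 * W ≤ (N₂ : ℤ) - c := by rw [hq2]; exact Int.ediv_mul_le _ hW0.ne'
  have b2 : (N₂ : ℤ) - c < (q2 + 1) * W := by rw [hq2]; exact Int.lt_ediv_add_one_mul_self _ hW0
  obtain ⟨L, hL⟩ : ∃ L : ℕ, (L : ℤ) = q2 - q1 := ⟨(q2 - q1).toNat, Int.toNat_of_nonneg (by linarith)⟩
  have hmem : ∀ k, k ∈ Ico (q1 + 1) (q1 + 1 + L) ↔ (N₁ : ℤ) < (W : ℤ) * k + c ∧ (W : ℤ) * k + c ≤ N₂ := by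
    intro k
    rw [mem_Ico, hL]
    constructor
    · rintro ⟨h1, h2⟩
      constructor
      · nlinarith
      · nlinarith
    · rintro ⟨h1, h2⟩
      constructor
      · by_contra h3
        have h4 : k ≤ q1 := by omega
        nlinarith
      · by_contra h3
        have h4 : q2 + 1 ≤ k := by omega
        nlinarith
  refine ⟨q1 + 1, L, ?_, ?_, fun k hk => (hmem k).1 hk, ?_⟩
  · have h1 : (L : ℤ) * W < N₂ - N₁ + W := by rw [hL]; linarith
    have h2 : (L : ℝ) * W < N₂ - N₁ + W := by exact_mod_cast h1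
    rw [← sub_le_iff_le_add, le_div_iff₀ hWR]
    linarith
  · have h1 : (N₂ : ℤ) - N₁ - W < (L : ℤ) * W := by rw [hL]; linarith
    have h2 : (N₂ : ℝ) - N₁ - W < (L : ℝ) * W := by exact_mod_cast h1
    rw [sub_le_iff_le_add, div_le_iff₀ hWR]
    linarith
  · intro g
    rw [← sum_filter]
    refine sum_bij' (fun n _ => ((n : ℤ) - c) / W) (fun k _ => ((W : ℤ) * k + c).toNat) ?_ ?_ ?_ ?_ ?_
    · intro n hn
      rw [mem_filter, mem_Ioc] at hn
      obtain ⟨⟨h1, h2⟩, h3⟩ := hn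
      have h4 : (W : ℤ) ∣ (n : ℤ) - c := h3.symm.dvd
      rw [hmem, Int.mul_ediv_cancel' h4]
      constructor
      · have : (N₁ : ℤ) < n := by exact_mod_cast h1
        linarith
      · have : (n : ℤ) ≤ N₂ := by exact_mod_cast h2
        linarith
    · intro k hk
      rw [hmem] at hk
      have h0 : (0 : ℤ) ≤ (W : ℤ) * k + c := by
        have : (0 : ℤ) ≤ N₁ := by positivity
        linarith [hk.1]
      have h1 : ((((W : ℤ) * k + c).toNat : ℕ) : ℤ) = (W : ℤ) * k + c := Int.toNat_of_nonneg h0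
      rw [mem_filter, mem_Ioc]
      refine ⟨⟨?_, ?_⟩, ?_⟩
      · have := hk.1
        rw [← h1] at this
        exact_mod_cast this
      · have := hk.2
        rw [← h1] at this
        exact_mod_cast this
      · rw [h1]
        exact (Int.modEq_iff_dvd.2 ⟨k, by ring⟩).symm
    · intro n hn
      rw [mem_filter] at hn
      have h4 : (W : ℤ) ∣ (n : ℤ) - c := hn.2.symm.dvd
      rw [Int.mul_ediv_cancel' h4, sub_add_cancel, Int.toNat_natCast]
    · intro k hk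
      rw [hmem] at hk
      have h0 : (0 : ℤ) ≤ (W : ℤ) * k + c := by
        have : (0 : ℤ) ≤ N₁ := by positivity
        linarith [hk.1]
      rw [Int.toNat_of_nonneg h0, add_sub_cancel_right, Int.mul_ediv_cancel_left _ hW0.ne']
    · intro n hn
      rw [mem_filter] at hn
      have h4 : (W : ℤ) ∣ (n : ℤ) - c := hn.2.symm.dvd
      rw [Int.mul_ediv_cancel' h4, sub_add_cancel]

end Pool.Agent.MRS
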