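import Pool.Agent.MRS.PC2
import Pool.Agent.MRS.PD1
import Pool.Agent.MRS.PD2

/-!
# MRS / PD3: one block of the bilinear sums
-/

set_option autoImplicit false

namespace Pool.Agent.MRS

open Finset
open Pool.Agent.RHN (VV Rough VV_le)
open scoped ComplexConjugate

/-- `nu - 1` is orthogonal to `Anti r` up to `κ` on intervals of length at least `K₀` -/
def Ort (r z W : ℕ) (κ : ℝ) (K₀ : ℕ) : Prop :=
  ∀ (c y : ℤ) (K : ℕ) (v : ℤ → ℂ), K₀ ≤ K → Anti r v →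
    ‖∑ k ∈ Ico y (y + K), ((nu z W c k - 1 : ℝ) : ℂ) * v k‖ ≤ κ * K

theorem pd_card_Ico_int (y : ℤ) (K : ℕ) : (Ico y (y + (K : ℤ))).card = K := by
  rw [Int.card_Ico]
  simp

theorem pd_block_class {r z W K₀ N0 : ℕ} {κ ε θ : ℝ} {v : ℤ → ℂ} (hW : 1 ≤ W)
    (hv : ∀ n, ‖v n‖ ≤ 1)
    (hA : ∀ a b a' b' : ℤ, Anti r (fun n => v (a * n + b) * conj (v (a' * n + b'))))
    (hκ0 : 0 ≤ κ) (hκ1 : κ ≤ 1) (hε : 0 ≤ ε) (hO : Ort r z W κ K₀)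
    (hH3 : ∀ (κ' m0 k0 t0 : ℤ) (K M : ℕ), N0 ≤ K → N0 ≤ M →
      ∑ k ∈ Ico k0 (k0 + K), ∑ k' ∈ Ico k0 (k0 + K),
        ‖∑ t ∈ Ico t0 (t0 + M), v ((κ' + W * k) * (m0 + W * t)) *
          conj (v ((κ' + W * k') * (m0 + W * t)))‖ ≤ ε * K ^ 2 * M)
    (hθ : 0 ≤ θ) (hθ4 : 144 * (ε + 3 * κ) ≤ θ ^ 4)
    {u u' : ℕ → ℝ} {A B : ℝ} (hA0 : 0 < A) (hB0 : 0 < B) (hu : ∀ n, |u n| ≤ A)
    (hu' : ∀ n, |u' n| ≤ B) (hur : ∀ n, u n ≠ 0 → Rough z n) (hur' : ∀ n, u' n ≠ 0 → Rough z n)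
    {N₁ N₂ N₃ N₄ : ℕ} (h12 : N₁ ≤ N₂) (h34 : N₃ ≤ N₄)
    (h1 : ((K₀ : ℝ) + N0 + 1) * W ≤ (N₂ : ℝ) - N₁) (h2 : ((K₀ : ℝ) + N0 + 1) * W ≤ (N₄ : ℝ) - N₃)
    (a b : ℤ) :
    ‖∑ m ∈ Ioc N₁ N₂, ∑ n ∈ Ioc N₃ N₄, (if (m : ℤ) ≡ a [ZMOD W] ∧ (n : ℤ) ≡ b [ZMOD W] then
      ((u m * u' n : ℝ) : ℂ) * v ((m : ℤ) * n) else 0)‖ ≤
      4 * A * B * θ * (VV z W / W) ^ 2 * (((N₂ : ℝ) - N₁) * ((N₄ : ℝ) - N₃)) := by
  have hWR : (0 : ℝ) < W := by exact_mod_cast hW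
  have hV := VV_pos z W
  obtain ⟨y, K, hK1, hK2, hKr, hKs⟩ := pd_ap_sum hW a h12
  obtain ⟨y', M, hM1, hM2, hMr, hMs⟩ := pd_ap_sum hW b h34
  -- lengths
  have hKN : K₀ + N0 ≤ K := by
    have h3 : (K₀ : ℝ) + N0 + 1 ≤ ((N₂ : ℝ) - N₁) / W := by rw [le_div_iff₀ hWR]; exact h1
    have h4 : ((K₀ + N0 : ℕ) : ℝ) ≤ K := by push_cast; linarith
    exact_mod_cast h4
  have hMN : K₀ + N0 ≤ M := by
    have h3 : (K₀ : ℝ) + N0 + 1 ≤ ((N₄ : ℝ) - N₃) / W := by rw [le_div_iff₀ hWR]; exact h2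
    have h4 : ((K₀ + N0 : ℕ) : ℝ) ≤ M := by push_cast; linarith
    exact_mod_cast h4
  have hK3 : (K : ℝ) ≤ 2 * (((N₂ : ℝ) - N₁) / W) := by
    have h3 : (K₀ : ℝ) + N0 + 1 ≤ ((N₂ : ℝ) - N₁) / W := by rw [le_div_iff₀ hWR]; exact h1
    have h4 : (0 : ℝ) ≤ (K₀ : ℝ) + N0 := by positivity
    linarith
  have hM3 : (M : ℝ) ≤ 2 * (((N₄ : ℝ) - N₃) / W) := by
    have h3 : (K₀ : ℝ) + N0 + 1 ≤ ((N₄ : ℝ) - N₃) / W := by rw [le_div_iff₀ hWR]; exact h2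
    have h4 : (0 : ℝ) ≤ (K₀ : ℝ) + N0 := by positivity
    linarith
  set G : ℤ → ℤ → ℂ := fun k t => v (((W : ℤ) * k + a) * ((W : ℤ) * t + b)) with hG
  set U : ℤ → ℝ := fun k => u ((W : ℤ) * k + a).toNat / (A * VV z W) with hU
  set U' : ℤ → ℝ := fun t => u' ((W : ℤ) * t + b).toNat / (B * VV z W) with hU'
  have hAV : 0 < A * VV z W := by positivity
  have hBV : 0 < B * VV z W := by positivity
  have hsum : ∑ m ∈ Ioc N₁ N₂, ∑ n ∈ Ioc N₃ N₄,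
      (if (m : ℤ) ≡ a [ZMOD W] ∧ (n : ℤ) ≡ b [ZMOD W] then
      ((u m * u' n : ℝ) : ℂ) * v ((m : ℤ) * n) else 0) =
      ((A * VV z W * (B * VV z W) : ℝ) : ℂ) *
        ∑ k ∈ Ico y (y + K), ∑ t ∈ Ico y' (y' + M), ((U k * U' t : ℝ) : ℂ) * G k t := by
    have e1 : ∀ m : ℕ, ∑ n ∈ Ioc N₃ N₄, (if (m : ℤ) ≡ a [ZMOD W] ∧ (n : ℤ) ≡ b [ZMOD W] then
        ((u m * u' n : ℝ) : ℂ) * v ((m : ℤ) * n) else 0) =
        if (m : ℤ) ≡ a [ZMOD W] then ∑ t ∈ Ico y' (y' + M),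
          ((u m * u' ((W : ℤ) * t + b).toNat : ℝ) : ℂ) * v ((m : ℤ) * ((W : ℤ) * t + b)) else 0 := by
      intro m
      by_cases hm : (m : ℤ) ≡ a [ZMOD W]
      · simp only [hm, true_and, if_true]
        exact hMs (fun n => ((u m * u' n.toNat : ℝ) : ℂ) * v ((m : ℤ) * n))
      · simp only [hm, false_and, if_false, sum_const_zero]
    have e2 : ∑ m ∈ Ioc N₁ N₂, (if (m : ℤ) ≡ a [ZMOD W] then ∑ t ∈ Ico y' (y' + M),
          ((u m * u' ((W : ℤ) * t + b).toNat : ℝ) : ℂ) * v ((m : ℤ) * ((W : ℤ) * t + b)) else 0) =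
        ∑ k ∈ Ico y (y + K), ∑ t ∈ Ico y' (y' + M),
          ((u ((W : ℤ) * k + a).toNat * u' ((W : ℤ) * t + b).toNat : ℝ) : ℂ) *
            v (((W : ℤ) * k + a) * ((W : ℤ) * t + b)) :=
      hKs (fun m => ∑ t ∈ Ico y' (y' + M),
          ((u m.toNat * u' ((W : ℤ) * t + b).toNat : ℝ) : ℂ) * v (m * ((W : ℤ) * t + b)))
    rw [sum_congr rfl fun m _ => e1 m, e2, mul_sum]
    refine sum_congr rfl fun k _ => ?_
    rw [mul_sum]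
    refine sum_congr rfl fun t _ => ?_
    simp only [hU, hU', hG]
    rw [← mul_assoc, ← Complex.ofReal_mul]
    congr 2
    field_simp
  -- the abstract estimate
  have hb := pd_bilin (r := r) (I := Ico y (y + K)) (T := Ico y' (y' + M)) (G := G) (ν := nu z W a)
    (ν' := nu z W b) (u := U) (u' := U') (κ := κ) (ε := ε) (fun k t => hv _) hκ0 hκ1 hε
    (nu_nonneg z W a) (nu_nonneg z W b)
    (fun w hw => by rw [pd_card_Ico_int]; exact hO a y K w (by omega) hw)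
    (fun w hw => by rw [pd_card_Ico_int]; exact hO b y' M w (by omega) hw)
    (fun k k' => by
      have := hA (((W : ℤ) * k + a) * W) (((W : ℤ) * k + a) * b) (((W : ℤ) * k' + a) * W)
        (((W : ℤ) * k' + a) * b)
      have e : ∀ x t : ℤ, x * W * t + x * b = x * ((W : ℤ) * t + b) := fun x t => by ring
      simp only [e] at this
      exact this)
    (fun t t' => by
      have := hA (W * ((W : ℤ) * t + b)) (a * ((W : ℤ) * t + b)) (W * ((W : ℤ) * t' + b))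
        (a * ((W : ℤ) * t' + b))
      have e : ∀ x k : ℤ, W * x * k + a * x = ((W : ℤ) * k + a) * x := fun x k => by ring
      simp only [e] at this
      exact this)
    (by
      rw [pd_card_Ico_int, pd_card_Ico_int]
      have := hH3 a b y y' K M (by omega) (by omega)
      have e : ∀ k t : ℤ, (a + (W : ℤ) * k) * (b + W * t) = ((W : ℤ) * k + a) * ((W : ℤ) * t + b) :=
        fun k t => by ring
      simp only [e] at this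
      exact this)
    (by
      intro k hk
      have hr := hKr k hk
      have h0 : (0 : ℤ) ≤ (W : ℤ) * k + a := by
        have : (0 : ℤ) ≤ N₁ := by positivity
        linarith [hr.1]
      have h5 := le_nu (z := z) (W := W) (n := ((W : ℤ) * k + a).toNat) (a := a) (k := k) hu hur
        (Int.toNat_of_nonneg h0).symm
      simp only [hU]
      rw [abs_div, abs_of_pos hAV, div_le_iff₀ hAV]
      linarith)
    (by
      intro t ht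
      have hr := hMr t ht
      have h0 : (0 : ℤ) ≤ (W : ℤ) * t + b := by
        have : (0 : ℤ) ≤ N₃ := by positivity
        linarith [hr.1]
      have h5 := le_nu (z := z) (W := W) (n := ((W : ℤ) * t + b).toNat) (a := b) (k := t) hu' hur'
        (Int.toNat_of_nonneg h0).symm
      simp only [hU']
      rw [abs_div, abs_of_pos hBV, div_le_iff₀ hBV]
      linarith)
  rw [pd_card_Ico_int, pd_card_Ico_int] at hb
  have hb2 : ‖∑ k ∈ Ico y (y + K), ∑ t ∈ Ico y' (y' + M), ((U k * U' t : ℝ) : ℂ) * G k t‖ ≤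
      θ * ((K : ℝ) * M) := by
    have h6 : ‖∑ k ∈ Ico y (y + K), ∑ t ∈ Ico y' (y' + M), ((U k * U' t : ℝ) : ℂ) * G k t‖ ^ 4 ≤
        (θ * ((K : ℝ) * M)) ^ 4 := by
      refine hb.trans ?_
      rw [mul_pow θ]
      exact mul_le_mul_of_nonneg_right hθ4 (by positivity)
    exact le_of_pow_le_pow_left₀ (by norm_num) (by positivity) h6
  rw [hsum, norm_mul, Complex.norm_real, Real.norm_eq_abs, abs_of_pos (by positivity)]
  have hh1 : 0 ≤ ((N₂ : ℝ) - N₁) := by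
    have : (N₁ : ℝ) ≤ N₂ := by exact_mod_cast h12
    linarith
  have hh2 : 0 ≤ ((N₄ : ℝ) - N₃) := by
    have : (N₃ : ℝ) ≤ N₄ := by exact_mod_cast h34
    linarith
  calc A * VV z W * (B * VV z W) *
      ‖∑ k ∈ Ico y (y + K), ∑ t ∈ Ico y' (y' + M), ((U k * U' t : ℝ) : ℂ) * G k t‖
      ≤ A * VV z W * (B * VV z W) * (θ * ((K : ℝ) * M)) :=
        mul_le_mul_of_nonneg_left hb2 (by positivity)
    _ ≤ A * VV z W * (B * VV z W) * (θ * ((2 * (((N₂ : ℝ) - N₁) / W)) *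
        (2 * (((N₄ : ℝ) - N₃) / W)))) := by
        refine mul_le_mul_of_nonneg_left ?_ (by positivity)
        refine mul_le_mul_of_nonneg_left ?_ hθ
        exact mul_le_mul hK3 hM3 (Nat.cast_nonneg _) (by positivity)
    _ = _ := by
        field_simp
        ring

theorem pd_rough_coprime {z q n : ℕ} (hq : 1 ≤ q) (hqz : q ≤ z) (hn : Rough z n) :
    Nat.Coprime n q := by
  by_contra h
  obtain ⟨p, hp, h1, h2⟩ := Nat.Prime.not_coprime_iff_dvd.1 h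
  exact hn.2 p hp ((Nat.le_of_dvd hq h2).trans hqz) h1

/-- decomposition into residue classes -/
theorem pd_class_dec {z W : ℕ} [NeZero W] (hWz : W ≤ z) {u u' : ℕ → ℝ}
    (hur : ∀ n, u n ≠ 0 → Rough z n) (v : ℤ → ℂ) (c : ℤ) (I J : Finset ℕ) :
    ∑ m ∈ I, ∑ n ∈ J, ((u m * u' n : ℝ) : ℂ) *
      (if ((m : ℤ) * n) ≡ c [ZMOD W] then v ((m : ℤ) * n) else 0) =
    ∑ α : (ZMod W)ˣ, ∑ m ∈ I, ∑ n ∈ J,
      (if (m : ℤ) ≡ ((α : ZMod W).val : ℤ) [ZMOD W] ∧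
          (n : ℤ) ≡ (((c : ZMod W) * ((α⁻¹ : (ZMod W)ˣ) : ZMod W)).val : ℤ) [ZMOD W] then
        ((u m * u' n : ℝ) : ℂ) * v ((m : ℤ) * n) else 0) := by
  classical
  symm
  rw [sum_comm]
  refine sum_congr rfl fun m _ => ?_
  rw [sum_comm]
  refine sum_congr rfl fun n _ => ?_
  have hval : ∀ (k : ℕ) (β : ZMod W), ((k : ℤ) ≡ (β.val : ℤ) [ZMOD W] ↔ (k : ZMod W) = β) := by
    intro k β
    rw [← ZMod.intCast_eq_intCast_iff]
    push_cast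
    rw [ZMod.natCast_zmod_val]
  simp only [hval]
  by_cases hm : u m = 0
  · simp [hm]
  · have hW : 1 ≤ W := Nat.one_le_iff_ne_zero.2 (NeZero.ne W)
    have hc := pd_rough_coprime hW hWz (hur m hm)
    obtain ⟨β, hβ⟩ : ∃ β : (ZMod W)ˣ, β = ZMod.unitOfCoprime m hc := ⟨_, rfl⟩
    have hβm : (β : ZMod W) = m := by rw [hβ, ZMod.coe_unitOfCoprime]
    have h1 : ∀ α : (ZMod W)ˣ, ((m : ZMod W) = α ∧ (n : ZMod W) =
        (c : ZMod W) * ((α⁻¹ : (ZMod W)ˣ) : ZMod W)) ↔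
        (β = α ∧ ((m : ℤ) * n) ≡ c [ZMOD W]) := by
      intro α
      rw [← ZMod.intCast_eq_intCast_iff]
      push_cast
      constructor
      · rintro ⟨e1, e2⟩
        refine ⟨Units.ext (by rw [hβm, e1]), ?_⟩
        rw [e1, e2, mul_comm, mul_assoc, Units.inv_mul, mul_one]
      · rintro ⟨e1, e2⟩
        subst e1
        refine ⟨hβm.symm, ?_⟩
        rw [← e2, ← hβm, mul_comm ((β : (ZMod W)ˣ) : ZMod W) _, mul_assoc, Units.mul_inv, mul_one]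
    simp only [h1]
    by_cases h2 : ((m : ℤ) * n) ≡ c [ZMOD W]
    · simp [h2]
    · simp [h2]

theorem block {r z z' W K₀ N0 : ℕ} [NeZero W] {κ ε θ : ℝ} {v : ℤ → ℂ} (hz' : 2 ≤ z') (hzz : z' ≤ z)
    (hWz : W ≤ z)
    (hv : ∀ n, ‖v n‖ ≤ 1)
    (hA : ∀ a b a' b' : ℤ, Anti r (fun n => v (a * n + b) * conj (v (a' * n + b'))))
    (hκ0 : 0 ≤ κ) (hκ1 : κ ≤ 1) (hε : 0 ≤ ε) (hO : Ort r z' W κ K₀)
    (hH3 : ∀ (κ' m0 k0 t0 : ℤ) (K M : ℕ), N0 ≤ K → N0 ≤ M →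
      ∑ k ∈ Ico k0 (k0 + K), ∑ k' ∈ Ico k0 (k0 + K),
        ‖∑ t ∈ Ico t0 (t0 + M), v ((κ' + W * k) * (m0 + W * t)) *
          conj (v ((κ' + W * k') * (m0 + W * t)))‖ ≤ ε * K ^ 2 * M)
    (hθ : 0 ≤ θ) (hθ4 : 144 * (ε + 3 * κ) ≤ θ ^ 4)
    {u u' : ℕ → ℝ} {A B : ℝ} (hA0 : 0 < A) (hB0 : 0 < B) (hu : ∀ n, |u n| ≤ A)
    (hu' : ∀ n, |u' n| ≤ B) (hur : ∀ n, u n ≠ 0 → Rough z n) (hur' : ∀ n, u' n ≠ 0 → Rough z n)
    {N₁ N₂ N₃ N₄ : ℕ} (h12 : N₁ ≤ N₂) (h34 : N₃ ≤ N₄)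
    (h1 : ((K₀ : ℝ) + N0 + 1) * W ≤ (N₂ : ℝ) - N₁) (h2 : ((K₀ : ℝ) + N0 + 1) * W ≤ (N₄ : ℝ) - N₃)
    (c : ℤ) :
    ‖∑ m ∈ Ioc N₁ N₂, ∑ n ∈ Ioc N₃ N₄, ((u m * u' n : ℝ) : ℂ) *
      (if ((m : ℤ) * n) ≡ c [ZMOD W] then v ((m : ℤ) * n) else 0)‖ ≤
      4 * A * B * θ / (W.totient * Real.log z' ^ 2) * (((N₂ : ℝ) - N₁) * ((N₄ : ℝ) - N₃)) := by
  have hW : 1 ≤ W := Nat.one_le_iff_ne_zero.2 (NeZero.ne W)
  have hrr : ∀ n, Rough z n → Rough z' n := fun n hn =>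
    ⟨hn.1, fun p hp hpz => hn.2 p hp (hpz.trans hzz)⟩
  rw [pd_class_dec hWz hur]
  have hcl : ∀ α : (ZMod W)ˣ, ‖∑ m ∈ Ioc N₁ N₂, ∑ n ∈ Ioc N₃ N₄,
      (if (m : ℤ) ≡ ((α : ZMod W).val : ℤ) [ZMOD W] ∧
          (n : ℤ) ≡ (((c : ZMod W) * ((α⁻¹ : (ZMod W)ˣ) : ZMod W)).val : ℤ) [ZMOD W] then
        ((u m * u' n : ℝ) : ℂ) * v ((m : ℤ) * n) else 0)‖ ≤
      4 * A * B * θ * (VV z' W / W) ^ 2 * (((N₂ : ℝ) - N₁) * ((N₄ : ℝ) - N₃)) := fun α =>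
    pd_block_class (z := z') hW hv hA hκ0 hκ1 hε hO hH3 hθ hθ4 hA0 hB0 hu hu'
      (fun n hn => hrr n (hur n hn)) (fun n hn => hrr n (hur' n hn)) h12 h34 h1 h2 _ _
  refine (norm_sum_le _ _).trans ((sum_le_sum fun α _ => hcl α).trans ?_)
  rw [sum_const, card_univ, ZMod.card_units_eq_totient, nsmul_eq_mul]
  have hVl := VV_le (z := z') (q := W) hz' hW
  have hφ : (0 : ℝ) < W.totient := by exact_mod_cast Nat.totient_pos.2 hW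
  have hlog : 0 < Real.log z' := Real.log_pos (by exact_mod_cast hz')
  have hWR : (0 : ℝ) < W := by exact_mod_cast hW
  have hVV : (VV z' W / W) ^ 2 ≤ (1 / ((W.totient : ℝ) * Real.log z')) ^ 2 :=
    pow_le_pow_left₀ (by have := hVl.1; positivity) hVl.2 2
  have hh1 : 0 ≤ ((N₂ : ℝ) - N₁) := by
    have : (N₁ : ℝ) ≤ N₂ := by exact_mod_cast h12
    linarith
  have hh2 : 0 ≤ ((N₄ : ℝ) - N₃) := by
    have : (N₃ : ℝ) ≤ N₄ := by exact_mod_cast h34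
    linarith
  calc (W.totient : ℝ) * (4 * A * B * θ * (VV z' W / W) ^ 2 * (((N₂ : ℝ) - N₁) * ((N₄ : ℝ) - N₃)))
      ≤ (W.totient : ℝ) * (4 * A * B * θ * (1 / ((W.totient : ℝ) * Real.log z')) ^ 2 *
        (((N₂ : ℝ) - N₁) * ((N₄ : ℝ) - N₃))) := by gcongr
    _ = _ := by
        field_simp

end Pool.Agent.MRS
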