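import Pool.Agent.MRS.PD3
import Pool.Agent.RHN.MM

/-!
# MRS / PD4: the rough numbers (the term `j = 1` of Linnik's identity)
-/

set_option autoImplicit false

namespace Pool.Agent.MRS

open Finset
open Pool.Agent.RHN (VV Rough VV_le UU UU_apply)
open scoped ComplexConjugate

open Classical in
/-- rough numbers in a reduced class are detected by `nu` -/
theorem rough_iff_nu {z W : ℕ} {c k : ℤ} (hc : IsCoprime c (W : ℤ)) {n : ℕ} (hn : 1 ≤ n)
    (h : (W : ℤ) * k + c = n) : (if Rough z n then (1 : ℝ) else 0) = VV z W * nu z W c k := by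
  have hV := VV_pos z W
  by_cases hr : Rough z n
  · rw [if_pos hr, nu_rough hr h]
    field_simp
  · rw [if_neg hr]
    unfold nu
    rw [if_neg, zero_div, mul_zero]
    intro hall
    refine hr ⟨hn, fun p hp hpz hpn => ?_⟩
    have hd : (p : ℤ) ∣ (W : ℤ) * k + c := by rw [h]; exact_mod_cast hpn
    by_cases hpW : p ∣ W
    · have h1 : (p : ℤ) ∣ (W : ℤ) := by exact_mod_cast hpW
      have h2 : (p : ℤ) ∣ c := (Int.dvd_add_right (h1.mul_right k)).1 hd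
      have h3 := hc.isUnit_of_dvd' h2 h1
      rw [Int.isUnit_iff] at h3
      have := hp.two_le
      omega
    · exact hall p (PZ_mem.2 ⟨hp, hpz, hpW⟩) hd

theorem one_term {r z W K₀ N0 : ℕ} {κ ε : ℝ} {v : ℤ → ℂ} (hz : 2 ≤ z) (hW : 1 ≤ W)
    (hv : ∀ n, ‖v n‖ ≤ 1) (hA1 : ∀ a b : ℤ, Anti r (fun n => v (a * n + b)))
    (hκ0 : 0 ≤ κ) (hε : 0 ≤ ε) (hO : Ort r z W κ K₀)
    (hH2 : ∀ (b t0 : ℤ) (M : ℕ), N0 ≤ M → ‖∑ t ∈ Ico t0 (t0 + M), v (b + W * t)‖ ≤ ε * M)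
    {c : ℤ} (hc : IsCoprime c (W : ℤ)) {y h : ℕ} (h1 : ((K₀ : ℝ) + N0 + 1) * W ≤ h) :
    ‖∑ n ∈ Ioc y (y + h), ((UU z n : ℝ) : ℂ) * (if (n : ℤ) ≡ c [ZMOD W] then v n else 0)‖ ≤
      2 * (κ + ε) * h / (W.totient * Real.log z) + 1 := by
  classical
  have hWR : (0 : ℝ) < W := by exact_mod_cast hW
  obtain ⟨t0, K, hK1, hK2, hKr, hKs⟩ := pd_ap_sum hW c (Nat.le_add_right y h)
  have hhe : (((y + h : ℕ) : ℝ) - y) = h := by push_cast; ring
  rw [hhe] at hK1 hK2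
  have h3 : (K₀ : ℝ) + N0 + 1 ≤ (h : ℝ) / W := by rw [le_div_iff₀ hWR]; exact h1
  have hKN : K₀ + N0 ≤ K := by
    have h4 : ((K₀ + N0 : ℕ) : ℝ) ≤ K := by push_cast; linarith
    exact_mod_cast h4
  have hK3 : (K : ℝ) ≤ 2 * ((h : ℝ) / W) := by
    have h4 : (0 : ℝ) ≤ (K₀ : ℝ) + N0 := by positivity
    linarith
  -- split `UU`
  have e0 : ∑ n ∈ Ioc y (y + h), ((UU z n : ℝ) : ℂ) * (if (n : ℤ) ≡ c [ZMOD W] then v n else 0) =
      ∑ n ∈ Ioc y (y + h), (if (n : ℤ) ≡ c [ZMOD W] then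
        (((if Rough z (n : ℤ).toNat then (1 : ℝ) else 0) : ℝ) : ℂ) * v n else 0) -
      ∑ n ∈ Ioc y (y + h), (if n = 1 then (if ((1 : ℕ) : ℤ) ≡ c [ZMOD W] then v ((1 : ℕ) : ℤ) else 0) else 0) := by
    rw [← sum_sub_distrib]
    refine sum_congr rfl fun n _ => ?_
    rw [UU_apply, Int.toNat_natCast]
    by_cases h1 : n = 1
    · subst h1
      have hr1 : Rough z 1 := ⟨le_rfl, fun _ hp _ hd => hp.one_lt.ne' (Nat.dvd_one.1 hd)⟩
      rw [if_neg (fun hh => hh.2 rfl), if_pos hr1, if_pos rfl]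
      simp
    · rw [if_neg h1, sub_zero]
      by_cases h2 : Rough z n
      · rw [if_pos ⟨h2, h1⟩, if_pos h2]
        simp
      · rw [if_neg (fun hh => h2 hh.1), if_neg h2]
        simp
  have e1 : ‖∑ n ∈ Ioc y (y + h), (if n = 1 then (if ((1 : ℕ) : ℤ) ≡ c [ZMOD W] then
      v ((1 : ℕ) : ℤ) else 0) else 0)‖ ≤ 1 := by
    rw [sum_ite_eq']
    split_ifs
    · exact hv _
    · rw [norm_zero]; exact zero_le_one
    · rw [norm_zero]; exact zero_le_one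
  have e2 : ∑ n ∈ Ioc y (y + h), (if (n : ℤ) ≡ c [ZMOD W] then
        (((if Rough z (n : ℤ).toNat then (1 : ℝ) else 0) : ℝ) : ℂ) * v n else 0) =
      (VV z W : ℂ) * (∑ k ∈ Ico t0 (t0 + K), ((nu z W c k - 1 : ℝ) : ℂ) * v ((W : ℤ) * k + c) +
        ∑ k ∈ Ico t0 (t0 + K), v (c + W * k)) := by
    rw [hKs (fun n => (((if Rough z n.toNat then (1 : ℝ) else 0) : ℝ) : ℂ) * v n),
      ← sum_add_distrib, mul_sum]
    refine sum_congr rfl fun k hk => ?_
    have hr := hKr k hk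
    have h0 : (1 : ℤ) ≤ (W : ℤ) * k + c := by
      have : (0 : ℤ) ≤ y := by positivity
      linarith [hr.1]
    have h5 : (W : ℤ) * k + c = ((((W : ℤ) * k + c).toNat : ℕ) : ℤ) :=
      (Int.toNat_of_nonneg (by linarith)).symm
    have h6 : 1 ≤ ((W : ℤ) * k + c).toNat := by omega
    rw [rough_iff_nu hc h6 h5, add_comm c]
    push_cast
    ring
  have hV := VV_le (z := z) (q := W) hz hW
  have hφ : (0 : ℝ) < W.totient := by exact_mod_cast Nat.totient_pos.2 hW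
  have hlog : 0 < Real.log z := Real.log_pos (by exact_mod_cast hz)
  have e3 : ‖(VV z W : ℂ) * (∑ k ∈ Ico t0 (t0 + K), ((nu z W c k - 1 : ℝ) : ℂ) *
      v ((W : ℤ) * k + c) + ∑ k ∈ Ico t0 (t0 + K), v (c + W * k))‖ ≤
      VV z W * ((κ + ε) * K) := by
    rw [norm_mul, Complex.norm_real, Real.norm_eq_abs, abs_of_pos hV.1]
    refine mul_le_mul_of_nonneg_left ?_ hV.1.le
    refine (norm_add_le _ _).trans ?_
    have h7 := hO c t0 K _ (by omega) (hA1 W c)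
    have h8 := hH2 c t0 K (by omega)
    linarith
  rw [e0]
  refine (norm_sub_le _ _).trans (add_le_add ?_ e1)
  rw [e2]
  refine e3.trans ?_
  have hh0 : (0 : ℝ) ≤ h := Nat.cast_nonneg h
  calc VV z W * ((κ + ε) * K) ≤ VV z W * ((κ + ε) * (2 * ((h : ℝ) / W))) := by
        have := hV.1
        gcongr
    _ = 2 * (κ + ε) * h * (VV z W / W) := by ring
    _ ≤ 2 * (κ + ε) * h * (1 / ((W.totient : ℝ) * Real.log z)) :=
        mul_le_mul_of_nonneg_left hV.2 (by positivity)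
    _ = _ := by ring

end Pool.Agent.MRS
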