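import Pool.Agent.MRS.PD4

/-!
# MRS / PD5: choice of the parameters
-/

set_option autoImplicit false

namespace Pool.Agent.MRS

open Finset Filter Topology
open scoped ComplexConjugate

theorem pd_pick (C R D e : ℕ) {c : ℝ} (hc : 0 < c) (hD : 1 ≤ D) :
    ∃ b : ℕ, 1 ≤ b ∧ 2 * (C : ℝ) * (1 / 2) ^ b ≤ (c / ((D * b : ℕ) : ℝ) ^ e) ^ R := by
  have h1 : Tendsto (fun b : ℕ => (b : ℝ) ^ (e * R) * (1 / 2 : ℝ) ^ b) atTop (𝓝 0) :=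
    tendsto_pow_const_mul_const_pow_of_abs_lt_one (e * R) (by rw [abs_of_pos] <;> norm_num)
  have h2 : Tendsto (fun b : ℕ => 2 * (C : ℝ) * (D : ℝ) ^ (e * R) * ((b : ℝ) ^ (e * R) * (1 / 2 : ℝ) ^ b))
      atTop (𝓝 0) := by
    have := h1.const_mul (2 * (C : ℝ) * (D : ℝ) ^ (e * R))
    rwa [mul_zero] at this
  have h3 := (h2.eventually (gt_mem_nhds (show (0 : ℝ) < c ^ R by positivity))).and
    (eventually_ge_atTop 1)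
  obtain ⟨b, hb1, hb2⟩ := h3.exists
  refine ⟨b, hb2, ?_⟩
  have hb0 : (0 : ℝ) < b := by exact_mod_cast hb2
  have hD0 : (0 : ℝ) < D := by exact_mod_cast hD
  rw [div_pow c, le_div_iff₀ (by positivity), ← pow_mul]
  push_cast
  rw [mul_pow]
  calc 2 * (C : ℝ) * (1 / 2) ^ b * ((D : ℝ) ^ (e * R) * (b : ℝ) ^ (e * R))
      = 2 * (C : ℝ) * (D : ℝ) ^ (e * R) * ((b : ℝ) ^ (e * R) * (1 / 2 : ℝ) ^ b) := by ring
    _ ≤ c ^ R := hb1.le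

/-- `Ort` from `nu_anti` -/
theorem ort_of {r C : ℕ} (hC : ∀ (z b w W L : ℕ) (c y : ℤ) (v : ℤ → ℂ),
    2 ≤ z → 1 ≤ b → 2 ^ (r + 2) ≤ w → (∀ p : ℕ, p.Prime → p ≤ w → p ∣ W) → z ^ (C * b) ≤ L →
    Anti r v →
    ‖∑ k ∈ Ico y (y + L), ((nu z W c k - 1 : ℝ) : ℂ) * v k‖ ^ (2 ^ (r + 1)) ≤
      C * ((1 / 2) ^ b + 1 / w) * (L : ℝ) ^ (2 ^ (r + 1)))
    {z b w W : ℕ} {κ : ℝ} (hz : 2 ≤ z) (hb : 1 ≤ b) (hw : 2 ^ (r + 2) ≤ w) (hwb : 2 ^ b ≤ w)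
    (hp : ∀ p : ℕ, p.Prime → p ≤ w → p ∣ W) (hκ0 : 0 ≤ κ)
    (hκ : 2 * (C : ℝ) * (1 / 2) ^ b ≤ κ ^ (2 ^ (r + 1))) : Ort r z W κ (z ^ (C * b)) := by
  intro c y K v hK hv
  have h1 := hC z b w W K c y v hz hb hw hp hK hv
  have h2 : 1 / (w : ℝ) ≤ (1 / 2) ^ b := by
    rw [one_div_pow]
    refine one_div_le_one_div_of_le (by positivity) ?_
    exact_mod_cast hwb
  have h3 : ‖∑ k ∈ Ico y (y + K), ((nu z W c k - 1 : ℝ) : ℂ) * v k‖ ^ (2 ^ (r + 1)) ≤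
      (κ * K) ^ (2 ^ (r + 1)) := by
    refine h1.trans ?_
    rw [mul_pow]
    refine mul_le_mul_of_nonneg_right ?_ (by positivity)
    refine le_trans ?_ hκ
    have : (C : ℝ) * ((1 / 2) ^ b + 1 / w) ≤ (C : ℝ) * ((1 / 2) ^ b + (1 / 2) ^ b) := by gcongr
    linarith
  exact le_of_pow_le_pow_left₀ (by positivity) (by positivity) h3

end Pool.Agent.MRS
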