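import Pool.Agent.MRS.PD5

/-!
# MRS / PD6: the theorem on primes (from the sieve input `NuCube`)
-/

set_option autoImplicit false

namespace Pool.Agent.MRS

open Finset Filter Topology
open Pool.Agent.RHN (VV Rough VV_le UU UU_apply mm_small mm_log mm_sqrt mm_z mm_dec Vj Vj_abs Vj_supp
  UU_supp UU_abs mm_grid)
open scoped ComplexConjugate

/-- the numerical part -/
theorem p_num {s s2 κ1 c1 c2 θ T L N x h φ l lN lz lz2 ε E A2 : ℝ}
    (hε : 0 < ε) (hs : 1 ≤ s) (hs2 : 1 ≤ s2) (hT : 1 ≤ T) (hL : 1 < L) (hN : 0 < N) (hφ : 1 ≤ φ)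
    (hl : 1 ≤ l) (hlN : 0 < lN) (hlNl : lN ≤ l) (hx : 0 < x) (hxL : x ≤ L * N) (hh : 0 ≤ h)
    (hhx : h ≤ x) (hlz : l ≤ 2 * s * lz) (hlz0 : 0 < lz) (hlz2 : l ≤ 4 * s * s2 * lz2)
    (hlz20 : 0 < lz2)
    (hκ1 : κ1 = c1 / s) (hc1 : c1 = ε / (64 * L)) (hθ : θ = c2 / s2 ^ 2)
    (hc2 : c2 * (4096 * s ^ 3 * T * L) ≤ ε) (hc20 : 0 < c2)
    (hE : E = 16 * T * θ / (φ * lz2 ^ 2))
    (hA2 : A2 = 2 * E * h * l + T * (5 * (1 / l ^ 2) * x + 2))
    (hl3 : 40 * s * T * L * φ / ε ≤ l)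
    (hl4 : l ^ 2 ≤ (ε / (8 * L * (6 + 2 * s * T) * φ)) * Real.sqrt x) {z : ℝ}
    (hzx : z ≤ Real.sqrt x) (hsx : 1 ≤ Real.sqrt x) :
    (2 * (κ1 + κ1) * h / (φ * lz) + 1) + s * A2 + (z + 4 * Real.sqrt x * l) ≤
      ε * (N / (φ * lN)) := by
  have hs0 : 0 < s := by linarith
  have hs20 : 0 < s2 := by linarith
  have hT0 : 0 < T := by linarith
  have hL0 : 0 < L := by linarith
  have hφ0 : 0 < φ := by linarith
  have hl0 : 0 < l := by linarith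
  obtain ⟨Q, hQ⟩ : ∃ Q : ℝ, Q = N / (φ * lN) := ⟨_, rfl⟩
  have hQ0 : 0 < Q := by rw [hQ]; positivity
  -- `N / (φ l) ≤ Q`
  have hQ1 : N / (φ * l) ≤ Q := by
    rw [hQ]
    exact div_le_div_of_nonneg_left hN.le (by positivity) (by gcongr)
  have hhLN : h ≤ L * N := hhx.trans hxL
  have hhl : h / (φ * l) ≤ L * Q := by
    calc h / (φ * l) ≤ (L * N) / (φ * l) := by gcongr
      _ = L * (N / (φ * l)) := by ring
      _ ≤ L * Q := mul_le_mul_of_nonneg_left hQ1 hL0.le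
  have hxl : x / (φ * l) ≤ L * Q := by
    calc x / (φ * l) ≤ (L * N) / (φ * l) := by gcongr
      _ = L * (N / (φ * l)) := by ring
      _ ≤ L * Q := mul_le_mul_of_nonneg_left hQ1 hL0.le
  have hκ10 : 0 < κ1 := by rw [hκ1, hc1]; positivity
  -- P1
  have P1 : 2 * (κ1 + κ1) * h / (φ * lz) ≤ ε / 8 * Q := by
    have h1 : h / (φ * lz) ≤ 2 * s * (h / (φ * l)) := by
      rw [mul_div_assoc', div_le_div_iff₀ (by positivity) (by positivity)]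
      calc h * (φ * l) ≤ h * (φ * (2 * s * lz)) := by gcongr
        _ = 2 * s * h * (φ * lz) := by ring
    calc 2 * (κ1 + κ1) * h / (φ * lz) = 4 * κ1 * (h / (φ * lz)) := by ring
      _ ≤ 4 * κ1 * (2 * s * (h / (φ * l))) := by gcongr
      _ ≤ 4 * κ1 * (2 * s * (L * Q)) := by gcongr
      _ = ε / 8 * Q := by
          rw [hκ1, hc1]
          field_simp
          ring
  -- P2
  have P2 : s * (2 * E * h * l) ≤ ε / 8 * Q := by
    have h1 : 1 / lz2 ^ 2 ≤ 16 * s ^ 2 * s2 ^ 2 / l ^ 2 := by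
      rw [div_le_div_iff₀ (by positivity) (by positivity)]
      have h2 : l ^ 2 ≤ (4 * s * s2 * lz2) ^ 2 := pow_le_pow_left₀ hl0.le hlz2 2
      linarith [show (4 * s * s2 * lz2) ^ 2 = 16 * s ^ 2 * s2 ^ 2 * lz2 ^ 2 by ring]
    have hθ0 : 0 < θ := by rw [hθ]; positivity
    have h3 : s * (2 * E * h * l) = 32 * s * T * θ * (1 / lz2 ^ 2) * l ^ 2 * (h / (φ * l)) := by
      rw [hE]
      field_simp
      ring
    rw [h3]
    calc 32 * s * T * θ * (1 / lz2 ^ 2) * l ^ 2 * (h / (φ * l))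
        ≤ 32 * s * T * θ * (16 * s ^ 2 * s2 ^ 2 / l ^ 2) * l ^ 2 * (L * Q) := by gcongr
      _ = c2 * (512 * s ^ 3 * T * L) * Q := by
          rw [hθ]
          field_simp
          ring
      _ ≤ ε / 8 * Q := by
          refine mul_le_mul_of_nonneg_right ?_ hQ0.le
          linarith [show c2 * (4096 * s ^ 3 * T * L) = 8 * (c2 * (512 * s ^ 3 * T * L)) by ring]
  -- P3
  have P3 : s * (T * (5 * (1 / l ^ 2) * x)) ≤ ε / 8 * Q := by
    have h1 : s * (T * (5 * (1 / l ^ 2) * x)) = (5 * s * T * φ / l) * (x / (φ * l)) := by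
      field_simp
    rw [h1]
    have h2 : 5 * s * T * φ / l ≤ ε / (8 * L) := by
      rw [div_le_div_iff₀ hl0 (by positivity)]
      rw [div_le_iff₀ hε] at hl3
      linarith
    calc (5 * s * T * φ / l) * (x / (φ * l)) ≤ (ε / (8 * L)) * (L * Q) := by gcongr
      _ = ε / 8 * Q := by field_simp
  -- P4
  have P4 : 1 + s * (T * 2) + (z + 4 * Real.sqrt x * l) ≤ ε / 8 * Q := by
    have hsxx : Real.sqrt x * Real.sqrt x = x := Real.mul_self_sqrt hx.le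
    have h1 : Real.sqrt x ≤ Real.sqrt x * l := le_mul_of_one_le_right (by linarith) hl
    have h2 : 1 ≤ Real.sqrt x * l := hsx.trans h1
    have h3 : 1 + s * (T * 2) + (z + 4 * Real.sqrt x * l) ≤ (6 + 2 * s * T) * (Real.sqrt x * l) := by
      have h4 : s * (T * 2) ≤ 2 * s * T * (Real.sqrt x * l) := by
        have := mul_le_mul_of_nonneg_left h2 (show 0 ≤ 2 * s * T by positivity)
        linarith
      linarith
    refine h3.trans ?_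
    have h5 : (6 + 2 * s * T) * (Real.sqrt x * l) ≤ (ε / (8 * L)) * (x / (φ * l)) := by
      have h6 := mul_le_mul_of_nonneg_left hl4 (show 0 ≤ (6 + 2 * s * T) * φ * Real.sqrt x by positivity)
      have h7 : (6 + 2 * s * T) * φ * Real.sqrt x * ((ε / (8 * L * (6 + 2 * s * T) * φ)) * Real.sqrt x) =
          ε / (8 * L) * x := by
        have h8 : (6 + 2 * s * T) ≠ 0 := by positivity
        calc _ = (ε / (8 * L)) * (Real.sqrt x * Real.sqrt x) := by field_simp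
          _ = _ := by rw [hsxx]
      rw [h7] at h6
      rw [mul_div_assoc', le_div_iff₀ (by positivity)]
      calc (6 + 2 * s * T) * (Real.sqrt x * l) * (φ * l) = (6 + 2 * s * T) * φ * Real.sqrt x * l ^ 2 := by ring
        _ ≤ _ := h6
    calc _ ≤ (ε / (8 * L)) * (x / (φ * l)) := h5
      _ ≤ (ε / (8 * L)) * (L * Q) := by gcongr
      _ = ε / 8 * Q := by field_simp
  rw [hA2, ← hQ]
  have e1 : (2 * (κ1 + κ1) * h / (φ * lz) + 1) + s * (2 * E * h * l + T * (5 * (1 / l ^ 2) * x + 2)) +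
      (z + 4 * Real.sqrt x * l) = 2 * (κ1 + κ1) * h / (φ * lz) + s * (2 * E * h * l) +
      s * (T * (5 * (1 / l ^ 2) * x)) + (1 + s * (T * 2) + (z + 4 * Real.sqrt x * l)) := by ring
  rw [e1]
  have : 0 < ε * Q := by positivity
  linarith

/-- the estimate for one `x = ⌊L N⌋` -/
theorem p_one {r C b1 b2 J s s2 W w N01 N02 N x h z z2 : ℕ} {ε L κ1 κ2 c1 c2 θ T : ℝ} {v : ℤ → ℂ}
    (hv : ∀ n, ‖v n‖ ≤ 1) (hA1 : ∀ a b : ℤ, Anti r (fun n => v (a * n + b)))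
    (hA : ∀ a b a' b' : ℤ, Anti r (fun n => v (a * n + b) * conj (v (a' * n + b'))))
    (hC : ∀ (z b w W L : ℕ) (c y : ℤ) (v : ℤ → ℂ),
    2 ≤ z → 1 ≤ b → 2 ^ (r + 2) ≤ w → (∀ p : ℕ, p.Prime → p ≤ w → p ∣ W) → z ^ (C * b) ≤ L →
    Anti r v →
    ‖∑ k ∈ Ico y (y + L), ((nu z W c k - 1 : ℝ) : ℂ) * v k‖ ^ (2 ^ (r + 1)) ≤
      C * ((1 / 2) ^ b + 1 / w) * (L : ℝ) ^ (2 ^ (r + 1)))
    (hC1 : 1 ≤ C) (hb1 : 1 ≤ b1) (hb2 : 1 ≤ b2) (hs : s = 2 * C * b1) (hs2 : s2 = 2 * C * b2)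
    (hJs : s = J + 1) (hJ1 : 1 ≤ J) (hT : T = (2 : ℝ) ^ (J * J)) (hε : 0 < ε)
    (hL : 1 < L) (hκ1 : κ1 = c1 / s) (hc1 : c1 = ε / (64 * L)) (hθ : θ = c2 / (s2 : ℝ) ^ 2)
    (hc20 : 0 < c2) (hc21 : c2 ≤ 1)
    (hc2 : c2 * (4096 * (s : ℝ) ^ 3 * T * L) ≤ ε)
    (hκ2 : κ2 = c2 ^ 4 / 576 / (s2 : ℝ) ^ 8)
    (hκb1 : 2 * (C : ℝ) * (1 / 2) ^ b1 ≤ κ1 ^ (2 ^ (r + 1)))
    (hκb2 : 2 * (C : ℝ) * (1 / 2) ^ b2 ≤ κ2 ^ (2 ^ (r + 1)))
    (hw : w = 2 ^ (r + 2) + 2 ^ b1 + 2 ^ b2) (hW : 1 ≤ W)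
    (hp : ∀ p : ℕ, p.Prime → p ≤ w → p ∣ W)
    (hN01 : ∀ (b t0 : ℤ) (M : ℕ), N01 ≤ M → ‖∑ t ∈ Ico t0 (t0 + M), v (b + W * t)‖ ≤ κ1 * M)
    (hN02 : ∀ (κ' m0 k0 t0 : ℤ) (K M : ℕ), N02 ≤ K → N02 ≤ M →
      ∑ k ∈ Ico k0 (k0 + K), ∑ k' ∈ Ico k0 (k0 + K),
        ‖∑ t ∈ Ico t0 (t0 + M), v ((κ' + W * k) * (m0 + W * t)) *
          conj (v ((κ' + W * k') * (m0 + W * t)))‖ ≤ κ2 * K ^ 2 * M)
    (hx : N + h = x) (hx1 : (x : ℝ) ≤ L * N) (hx2 : L * N < x + 1) (hNpos : 3 ≤ N)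
    (hz1 : z ^ s ≤ x) (hz2 : x < (z + 1) ^ s) (hz3 : Real.log x ≤ 2 * s * Real.log z)
    (hz'1 : z2 ^ s2 ≤ z) (hz'3 : Real.log z ≤ 2 * s2 * Real.log z2) (hzz : 2 ≤ z) (hz2z : 2 ≤ z2)
    (hWz : W ≤ z) (hl2 : 2 ≤ Real.log x)
    (hl3 : 40 * s * T * L * W.totient / ε ≤ Real.log x)
    (hl4 : Real.log x ^ 2 ≤ (ε / (8 * L * (6 + 2 * s * T) * W.totient)) * Real.sqrt x)
    (hl5 : 1 ≤ ((1 - 1 / L) / (W * (N01 + 2) + 1)) * Real.sqrt x)
    (hl6 : Real.log x ^ 2 ≤ (1 / (W * ((N02 : ℝ) + 2) + 2)) * Real.sqrt z)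
    {b : ℕ} (hb : b.Coprime W) :
    ‖∑ p ∈ (Ioc N (N + h)).filter Nat.Prime, (if (p : ℤ) ≡ (b : ℤ) [ZMOD W] then v p else 0)‖ ≤
      ε * (N / (W.totient * Real.log N)) := by
  have : NeZero W := ⟨by omega⟩
  have hC0 : (0 : ℝ) < C := by exact_mod_cast hC1
  have hT1 : 1 ≤ T := by rw [hT]; exact one_le_pow₀ (by norm_num)
  have hT0 : 0 < T := by linarith
  have hs1 : 2 ≤ s := by omega
  have hs1R : (1 : ℝ) ≤ s := by exact_mod_cast (by omega : 1 ≤ s)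
  have hs21 : 1 ≤ s2 := by
    rw [hs2]
    have := Nat.mul_le_mul (Nat.mul_le_mul (le_refl 2) hC1) hb2
    omega
  have hs21R : (1 : ℝ) ≤ s2 := by exact_mod_cast hs21
  have hs0 : (0 : ℝ) < s := by linarith
  have hs20 : (0 : ℝ) < s2 := by linarith
  have hL0 : 0 < L := by linarith
  have hκ10 : 0 < κ1 := by rw [hκ1, hc1]; positivity
  have hκ20 : 0 < κ2 := by rw [hκ2]; positivity
  have hθ0 : 0 < θ := by rw [hθ]; positivity
  have hκ21 : κ2 ≤ 1 := by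
    rw [hκ2]
    have h1 : c2 ^ 4 ≤ 1 := pow_le_one₀ hc20.le hc21
    have h2 : (1 : ℝ) ≤ (s2 : ℝ) ^ 8 := one_le_pow₀ hs21R
    rw [div_div, div_le_one (by positivity)]
    linarith only [h1, h2]
  have hφ : (1 : ℝ) ≤ W.totient := by exact_mod_cast Nat.totient_pos.2 hW
  have hφ0 : (0 : ℝ) < W.totient := by linarith
  have hWR : (1 : ℝ) ≤ W := by exact_mod_cast hW
  obtain ⟨l, hl⟩ : ∃ l : ℝ, l = Real.log x := ⟨_, rfl⟩
  rw [← hl] at hl2 hl3 hl4 hl6 hz3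
  have hl0 : 0 < l := by linarith
  have hNx : N ≤ x := by omega
  have hN0 : (0 : ℝ) < N := by exact_mod_cast (by omega : 0 < N)
  have hx0 : (0 : ℝ) < x := by exact_mod_cast (by omega : 0 < x)
  have hx1R : (1 : ℝ) ≤ x := by exact_mod_cast (by omega : 1 ≤ x)
  have hsx1 : 1 ≤ Real.sqrt (x : ℝ) := by
    rw [show (1 : ℝ) = Real.sqrt 1 by rw [Real.sqrt_one]]
    exact Real.sqrt_le_sqrt hx1R
  have hsxx : Real.sqrt (x : ℝ) * Real.sqrt (x : ℝ) = x := Real.mul_self_sqrt hx0.le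
  have hzR : (2 : ℝ) ≤ z := by exact_mod_cast hzz
  have hsz1 : 1 ≤ Real.sqrt (z : ℝ) := by
    rw [show (1 : ℝ) = Real.sqrt 1 by rw [Real.sqrt_one]]
    exact Real.sqrt_le_sqrt (by linarith)
  have hszz : Real.sqrt (z : ℝ) * Real.sqrt (z : ℝ) = z := Real.mul_self_sqrt (by linarith)
  have hz2R : (2 : ℝ) ≤ z2 := by exact_mod_cast hz2z
  have hlz0 : 0 < Real.log (z : ℝ) := Real.log_pos (by linarith)
  have hlz20 : 0 < Real.log (z2 : ℝ) := Real.log_pos (by linarith)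
  -- Ort
  have hw1 : 2 ^ (r + 2) ≤ w := by rw [hw, add_assoc]; exact Nat.le_add_right _ _
  have hw2 : 2 ^ b1 ≤ w := by
    rw [hw, add_comm (2 ^ (r + 2)), add_assoc]; exact Nat.le_add_right _ _
  have hw3 : 2 ^ b2 ≤ w := by rw [hw]; exact Nat.le_add_left _ _
  have hO1 : Ort r z W κ1 (z ^ (C * b1)) := ort_of hC hzz hb1 hw1 hw2 hp hκ10.le hκb1
  have hO2 : Ort r z2 W κ2 (z2 ^ (C * b2)) := ort_of hC hz2z hb2 hw1 hw3 hp hκ20.le hκb2
  have hK01 : ((z ^ (C * b1) : ℕ) : ℝ) ≤ Real.sqrt x := by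
    refine Real.le_sqrt_of_sq_le ?_
    rw [← Nat.cast_pow, ← pow_mul, show C * b1 * 2 = s by rw [hs]; ring]
    exact_mod_cast hz1
  have hK02 : ((z2 ^ (C * b2) : ℕ) : ℝ) ≤ Real.sqrt z := by
    refine Real.le_sqrt_of_sq_le ?_
    rw [← Nat.cast_pow, ← pow_mul, show C * b2 * 2 = s2 by rw [hs2]; ring]
    exact_mod_cast hz'1
  have hz2z' : z2 ≤ z := (Nat.le_self_pow (by omega) z2).trans hz'1
  have hzsx : (z : ℝ) ≤ Real.sqrt x := by
    refine Real.le_sqrt_of_sq_le ?_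
    have h1 : z ^ 2 ≤ z ^ s := Nat.pow_le_pow_right (by omega) hs1
    exact_mod_cast h1.trans hz1
  -- length of the interval
  have hh1 : (((z ^ (C * b1) : ℕ) : ℝ) + N01 + 1) * W ≤ h := by
    have e1 : (h : ℝ) = x - N := by rw [← hx]; push_cast; ring
    have e2 : (N : ℝ) < (x + 1) / L := by rw [lt_div_iff₀ hL0]; linarith
    have e3 : (1 - 1 / L) * x - 1 ≤ h := by
      rw [e1]
      have e4 : (x + 1) / L = (1 / L) * x + 1 / L := by ring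
      have e5 : 1 / L ≤ 1 := by rw [div_le_one hL0]; exact hL.le
      rw [e4] at e2
      linarith
    refine le_trans ?_ e3
    have e6 : (0 : ℝ) < W * ((N01 : ℝ) + 2) + 1 := by positivity
    have e7 : (W * ((N01 : ℝ) + 2) + 1) * Real.sqrt x ≤ (1 - 1 / L) * x := by
      have e8 := mul_le_mul_of_nonneg_left hl5 (show 0 ≤ (W * ((N01 : ℝ) + 2) + 1) * Real.sqrt x by positivity)
      have e9 : (W * ((N01 : ℝ) + 2) + 1) * Real.sqrt x * ((1 - 1 / L) / (W * (N01 + 2) + 1) * Real.sqrt x) =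
          (1 - 1 / L) * (Real.sqrt x * Real.sqrt x) := by
        field_simp
      rw [e9, hsxx, mul_one] at e8
      exact e8
    have e10 : (((z ^ (C * b1) : ℕ) : ℝ) + N01 + 1) * W + 1 ≤ (W * ((N01 : ℝ) + 2) + 1) * Real.sqrt x := by
      have e11 : ((z ^ (C * b1) : ℕ) : ℝ) + N01 + 1 ≤ ((N01 : ℝ) + 2) * Real.sqrt x := by
        have : ((N01 : ℝ) + 1) * 1 ≤ ((N01 : ℝ) + 1) * Real.sqrt x :=
          mul_le_mul_of_nonneg_left hsx1 (by positivity)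
        linarith
      have e12 := mul_le_mul_of_nonneg_right e11 (show (0 : ℝ) ≤ W by positivity)
      linarith
    linarith
  -- κ₀
  obtain ⟨κ₀, hκ₀⟩ : ∃ κ₀ : ℝ, κ₀ = 1 / l ^ 2 := ⟨_, rfl⟩
  have hκ₀0 : 0 < κ₀ := by rw [hκ₀]; positivity
  have hκ₀4 : κ₀ ≤ 1 / 4 := by
    rw [hκ₀]
    refine one_div_le_one_div_of_le (by norm_num) ?_
    nlinarith only [hl2]
  have hκ₀z : (W * ((N02 : ℝ) + 2) + 2) * Real.sqrt z ≤ κ₀ * z := by
    rw [hκ₀, div_mul_eq_mul_div, one_mul, le_div_iff₀ (by positivity)]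
    have e0 : (0 : ℝ) < W * ((N02 : ℝ) + 2) + 2 := by positivity
    have e1 := mul_le_mul_of_nonneg_left hl6 (show 0 ≤ (W * ((N02 : ℝ) + 2) + 2) * Real.sqrt z by positivity)
    have e2 : (W * ((N02 : ℝ) + 2) + 2) * Real.sqrt z * (1 / (W * ((N02 : ℝ) + 2) + 2) * Real.sqrt z) =
        Real.sqrt z * Real.sqrt z := by
      field_simp
    rw [e2, hszz] at e1
    exact e1
  have hlen : ∀ t : ℝ, (z : ℝ) ≤ t →
      ((((z2 ^ (C * b2) : ℕ) : ℝ) + N02 + 1) * W ≤ (⌊(1 + κ₀) * t⌋₊ : ℝ) - ⌊t⌋₊ ∧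
        (⌊(1 + κ₀) * t⌋₊ : ℝ) - ⌊t⌋₊ ≤ 2 * (κ₀ * t) ∧ ⌊t⌋₊ ≤ ⌊(1 + κ₀) * t⌋₊) := by
    intro t ht
    have ht0 : 0 ≤ t := by linarith
    have h1 := Nat.lt_floor_add_one ((1 + κ₀) * t)
    have h2 := Nat.floor_le ht0
    have h3 := Nat.lt_floor_add_one t
    have h4 := Nat.floor_le (show 0 ≤ (1 + κ₀) * t by positivity)
    have h5 : κ₀ * z ≤ κ₀ * t := mul_le_mul_of_nonneg_left ht hκ₀0.le
    have h6 : (((z2 ^ (C * b2) : ℕ) : ℝ) + N02 + 1) * W + 1 ≤ (W * ((N02 : ℝ) + 2) + 2) * Real.sqrt z := by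
      have e11 : ((z2 ^ (C * b2) : ℕ) : ℝ) + N02 + 1 ≤ ((N02 : ℝ) + 2) * Real.sqrt z := by
        have : ((N02 : ℝ) + 1) * 1 ≤ ((N02 : ℝ) + 1) * Real.sqrt z :=
          mul_le_mul_of_nonneg_left hsz1 (by positivity)
        linarith
      have e12 := mul_le_mul_of_nonneg_right e11 (show (0 : ℝ) ≤ W by positivity)
      linarith
    have h7 : 1 ≤ κ₀ * t := by
      have h8 : (0 : ℝ) ≤ (((z2 ^ (C * b2) : ℕ) : ℝ) + N02 + 1) * W := by positivity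
      linarith
    refine ⟨by linarith, by linarith, Nat.floor_le_floor ?_⟩
    exact le_mul_of_one_le_left ht0 (by linarith only [hκ₀0])
  -- the function
  set f : ℕ → ℂ := fun n => if (n : ℤ) ≡ (b : ℤ) [ZMOD W] then v n else 0 with hf
  have hf1 : ∀ n, ‖f n‖ ≤ 1 := by
    intro n
    simp only [hf]
    split_ifs
    · exact hv _
    · rw [norm_zero]; exact zero_le_one
  have hx2' : 2 ≤ x := by omega
  have hdec := mm_dec f hf1 (z := z) (y := N) (h := h) (x := x) (J := J) hx2' (by omega) hx.le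
    (by rw [← hJs]; exact hz2)
  -- j = 1
  have hcop : IsCoprime (b : ℤ) (W : ℤ) := Nat.isCoprime_iff_coprime.2 hb
  have hone := one_term (z := z) hzz hW hv hA1 hκ10.le hκ10.le hO1 hN01 hcop (y := N) (h := h) hh1
  -- j ≥ 2
  obtain ⟨E, hE⟩ : ∃ E : ℝ, E = 16 * T * θ / (W.totient * Real.log z2 ^ 2) := ⟨_, rfl⟩
  have hE0 : 0 ≤ E := by rw [hE]; positivity
  obtain ⟨A2, hA2⟩ : ∃ A2 : ℝ, A2 = 2 * E * h * l + T * (5 * (1 / l ^ 2) * x + 2) := ⟨_, rfl⟩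
  have hA20 : 0 ≤ A2 := by rw [hA2]; positivity
  have hNh : ((N : ℝ) + h) = x := by rw [← hx]; push_cast; ring
  have hA2' : ∀ j, 2 ≤ j → j ≤ J →
      ‖∑ n ∈ Ioc N (N + h), (((UU z ^ j) n : ℝ) : ℂ) * f n‖ ≤ A2 := by
    intro j hj2 hjJ
    have h1 := mm_grid (z := z) (y := N) (h := h) (x := x) (J := J) (j := j) (κ := κ₀) (E := E)
      hzz hκ₀0 hκ₀4 hE0 (by rw [← hJs]; exact hz2) hj2 hjJ hx.le f hf1 ?_
    · refine h1.trans (le_of_eq ?_)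
      rw [hA2, ← hT, hNh, ← hl, hκ₀]
    · intro s' t' hs' ht' _ _
      obtain ⟨q1, q2, q3⟩ := hlen s' hs'
      obtain ⟨q4, q5, q6⟩ := hlen t' ht'
      have h2 := block (r := r) (z := z) (z' := z2) (W := W) (K₀ := z2 ^ (C * b2)) (N0 := N02)
        (κ := κ2) (ε := κ2) (θ := θ) hz2z hz2z' hWz hv hA hκ20.le hκ21 hκ20.le hO2 hN02 hθ0.le
        (by
          rw [hκ2, hθ]
          refine le_of_eq ?_
          field_simp
          ring) (u := fun n => UU z n) (u' := Vj z j x) (A := 1) (B := T) one_pos hT0 (UU_abs z)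
        (by rw [hT]; exact fun n => Vj_abs (by rw [← hJs]; exact hz2) hjJ n)
        (fun n hn => (UU_supp hn).2) (fun n hn => (Vj_supp hj2 hn).2) q3 q6 q1 q4 (b : ℤ)
      have e1 : ∀ m n : ℕ, f (m * n) = if ((m : ℤ) * n) ≡ (b : ℤ) [ZMOD W] then v ((m : ℤ) * n) else 0 := by
        intro m n
        simp only [hf]
        push_cast
        rfl
      simp only [e1]
      refine h2.trans ?_
      have e2 : 0 ≤ (⌊(1 + κ₀) * t'⌋₊ : ℝ) - ⌊t'⌋₊ := by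
        have : (⌊t'⌋₊ : ℝ) ≤ ⌊(1 + κ₀) * t'⌋₊ := by exact_mod_cast q6
        linarith
      calc 4 * 1 * T * θ / (W.totient * Real.log z2 ^ 2) *
            (((⌊(1 + κ₀) * s'⌋₊ : ℝ) - ⌊s'⌋₊) * ((⌊(1 + κ₀) * t'⌋₊ : ℝ) - ⌊t'⌋₊))
          ≤ 4 * 1 * T * θ / (W.totient * Real.log z2 ^ 2) * ((2 * (κ₀ * s')) * (2 * (κ₀ * t'))) := by
            refine mul_le_mul_of_nonneg_left ?_ (by positivity)
            exact mul_le_mul q2 q5 e2 (by have : (0 : ℝ) ≤ s' := by linarith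
                                          positivity)
        _ = E * (κ₀ * s') * (κ₀ * t') := by rw [hE]; ring
  -- sum over j
  obtain ⟨A1, hA1e⟩ : ∃ A1 : ℝ, A1 = 2 * (κ1 + κ1) * h / (W.totient * Real.log z) + 1 := ⟨_, rfl⟩
  have hA10 : 0 ≤ A1 := by rw [hA1e]; positivity
  have hsum : ∑ j ∈ Icc 1 J, ‖∑ n ∈ Ioc N (N + h), (((UU z ^ j) n : ℝ) : ℂ) * f n‖ ≤
      A1 + s * A2 := by
    have h1 : ∀ j ∈ Icc 1 J, ‖∑ n ∈ Ioc N (N + h), (((UU z ^ j) n : ℝ) : ℂ) * f n‖ ≤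
        (if j = 1 then A1 else 0) + A2 := by
      intro j hj
      obtain ⟨hj1, hjJ⟩ := mem_Icc.mp hj
      rcases Nat.eq_or_lt_of_le hj1 with h2 | h2
      · subst h2
        rw [if_pos rfl, pow_one, hA1e]
        linarith
      · rw [if_neg (by omega), zero_add]
        exact hA2' j h2 hjJ
    refine (Finset.sum_le_sum h1).trans ?_
    rw [Finset.sum_add_distrib, Finset.sum_const, Nat.card_Icc, Finset.sum_ite_eq' (Icc 1 J) 1 fun _ => A1]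
    have h2 : (if (1 : ℕ) ∈ Icc 1 J then A1 else 0) ≤ A1 := by
      split_ifs
      · exact le_rfl
      · exact hA10
    have h3 : (J + 1 - 1) • A2 ≤ s * A2 := by
      rw [nsmul_eq_mul]
      refine mul_le_mul_of_nonneg_right ?_ hA20
      have : J + 1 - 1 ≤ s := by omega
      exact_mod_cast this
    exact add_le_add h2 h3
  have hfin : ‖∑ p ∈ (Ioc N (N + h)).filter Nat.Prime, f p‖ ≤
      A1 + s * A2 + (z + 4 * Real.sqrt x * l) := by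
    rw [hl]
    exact hdec.trans (by rw [← hl]; gcongr)
  refine hfin.trans ?_
  rw [hA1e]
  have hlN : Real.log (N : ℝ) ≤ l := by
    rw [hl]
    exact Real.log_le_log hN0 (by exact_mod_cast hNx)
  have hlN0 : 0 < Real.log (N : ℝ) := Real.log_pos (by exact_mod_cast (by omega : 1 < N))
  have hhx : (h : ℝ) ≤ x := by exact_mod_cast (by omega : h ≤ x)
  have hlz2 : l ≤ 4 * s * s2 * Real.log z2 := by
    calc l ≤ 2 * s * Real.log z := hz3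
      _ ≤ 2 * s * (2 * s2 * Real.log z2) := by gcongr
      _ = _ := by ring
  exact p_num hε hs1R hs21R hT1 hL hN0 hφ (by linarith) hlN0 hlN hx0 hx1 (Nat.cast_nonneg h) hhx hz3
    hlz0 hlz2 hlz20 hκ1 hc1 hθ hc2 hc20 hE hA2 hl3 hl4 hzsx hsx1

end Pool.Agent.MRS
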