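import Pool.Agent.MRS.PD6

/-!
# MRS / PD7: Theorem P from the sieve input `NuCube`
-/

set_option autoImplicit false

namespace Pool.Agent.MRS

open Finset Filter Topology
open Pool.Agent.RHN (mm_log mm_sqrt mm_z)
open scoped ComplexConjugate

theorem prime_of_cube (hNC : NuCube) : PrimeThm := by
  intro r I v hv hA1 hA hH2 hH3 ε₀ L hε₀ hL
  obtain ⟨C, hC1, hC⟩ := nu_anti hNC r
  obtain ⟨ε, hε⟩ : ∃ ε : ℝ, ε = min ε₀ 1 := ⟨_, rfl⟩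
  have hε0 : 0 < ε := by rw [hε]; exact lt_min hε₀ one_pos
  have hεε : ε ≤ ε₀ := by rw [hε]; exact min_le_left _ _
  have hε1 : ε ≤ 1 := by rw [hε]; exact min_le_right _ _
  have hL0 : 0 < L := by linarith
  -- first choice
  obtain ⟨c1, hc1⟩ : ∃ c1 : ℝ, c1 = ε / (64 * L) := ⟨_, rfl⟩
  have hc10 : 0 < c1 := by rw [hc1]; positivity
  obtain ⟨b1, hb1, hκb1⟩ := pd_pick C (2 ^ (r + 1)) (2 * C) 1 hc10 (by omega)
  obtain ⟨s, hs⟩ : ∃ s : ℕ, s = 2 * C * b1 := ⟨_, rfl⟩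
  rw [← hs, pow_one] at hκb1
  have hs2' : 2 ≤ s := by
    rw [hs]
    calc 2 = 2 * 1 * 1 := by norm_num
      _ ≤ 2 * C * b1 := Nat.mul_le_mul (Nat.mul_le_mul le_rfl hC1) hb1
  obtain ⟨κ1, hκ1⟩ : ∃ κ1 : ℝ, κ1 = c1 / s := ⟨_, rfl⟩
  rw [← hκ1] at hκb1
  have hsR : (1 : ℝ) ≤ s := by exact_mod_cast (by omega : 1 ≤ s)
  have hκ10 : 0 < κ1 := by rw [hκ1]; positivity
  obtain ⟨J, hJs⟩ : ∃ J : ℕ, s = J + 1 := ⟨s - 1, by omega⟩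
  have hJ1 : 1 ≤ J := by omega
  obtain ⟨T, hT⟩ : ∃ T : ℝ, T = (2 : ℝ) ^ (J * J) := ⟨_, rfl⟩
  have hT1 : 1 ≤ T := by rw [hT]; exact one_le_pow₀ (by norm_num)
  -- second choice
  obtain ⟨c2, hc2⟩ : ∃ c2 : ℝ, c2 = ε / (4096 * (s : ℝ) ^ 3 * T * L) := ⟨_, rfl⟩
  have hden : 0 < 4096 * (s : ℝ) ^ 3 * T * L := by positivity
  have hc20 : 0 < c2 := by rw [hc2]; positivity
  have hc2e : c2 * (4096 * (s : ℝ) ^ 3 * T * L) ≤ ε := by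
    rw [hc2, div_mul_cancel₀ _ hden.ne']
  have hc21 : c2 ≤ 1 := by
    rw [hc2, div_le_one hden]
    have h1 : (1 : ℝ) ≤ (s : ℝ) ^ 3 := one_le_pow₀ hsR
    calc ε ≤ 1 * 1 * 1 * 1 := by linarith
      _ ≤ 4096 * (s : ℝ) ^ 3 * T * L := by gcongr; norm_num
  obtain ⟨b2, hb2, hκb2⟩ := pd_pick C (2 ^ (r + 1)) (2 * C) 8 (c := c2 ^ 4 / 576) (by positivity) (by omega)
  obtain ⟨s2, hs2⟩ : ∃ s2 : ℕ, s2 = 2 * C * b2 := ⟨_, rfl⟩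
  rw [← hs2] at hκb2
  have hs21 : 1 ≤ s2 := by
    rw [hs2]
    calc 1 = 1 * 1 * 1 := by norm_num
      _ ≤ 2 * C * b2 := Nat.mul_le_mul (Nat.mul_le_mul (by norm_num) hC1) hb2
  obtain ⟨κ2, hκ2⟩ : ∃ κ2 : ℝ, κ2 = c2 ^ 4 / 576 / (s2 : ℝ) ^ 8 := ⟨_, rfl⟩
  rw [← hκ2] at hκb2
  have hs2R : (1 : ℝ) ≤ s2 := by exact_mod_cast hs21
  have hκ20 : 0 < κ2 := by rw [hκ2]; positivity
  obtain ⟨zf, hzf1, hzf2, hzf3, hzf4⟩ := mm_z s (by omega)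
  obtain ⟨zg, hzg1, hzg2, hzg3, hzg4⟩ := mm_z s2 hs21
  obtain ⟨w, hw⟩ : ∃ w : ℕ, w = 2 ^ (r + 2) + 2 ^ b1 + 2 ^ b2 := ⟨_, rfl⟩
  refine ⟨w.factorial, Nat.factorial_pos _, fun W hW hdvd => ?_⟩
  have hp : ∀ p : ℕ, p.Prime → p ≤ w → p ∣ W := fun p hp hpw =>
    (Nat.dvd_factorial hp.pos hpw).trans hdvd
  obtain ⟨N01, hN01⟩ := hH2 W hW κ1 hκ10
  obtain ⟨N02, hN02⟩ := hH3 W hW κ2 hκ20
  have hφ : (1 : ℝ) ≤ W.totient := by exact_mod_cast Nat.totient_pos.2 hW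
  have hWR : (1 : ℝ) ≤ W := by exact_mod_cast hW
  have hLinv : 0 < 1 - 1 / L := by
    have : 1 / L < 1 := by rw [div_lt_one hL0]; exact hL
    linarith
  have k1 : 0 < ε / (8 * L * (6 + 2 * s * T) * W.totient) := by positivity
  have k2 : 0 < (1 - 1 / L) / (W * ((N01 : ℝ) + 2) + 1) := by positivity
  have k3 : 0 < 1 / (W * ((N02 : ℝ) + 2) + 2) := by positivity
  have hev := ((((((mm_log 2).and (mm_log (40 * s * T * L * W.totient / ε))).and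
    (mm_sqrt 2 k1)).and (mm_sqrt 0 k2)).and (hzf4 2 _ k3)).and
    (hzf2.eventually_ge_atTop (max 2 W))).and ((hzg2.comp hzf2).eventually_ge_atTop 2)
  obtain ⟨x₀, hx₀⟩ := (hev.and (eventually_ge_atTop 2)).exists_forall_of_atTop
  have htend : Tendsto (fun N : ℕ => ⌊L * (N : ℝ)⌋₊) atTop atTop :=
    tendsto_nat_floor_atTop.comp (Tendsto.const_mul_atTop hL0 tendsto_natCast_atTop_atTop)
  obtain ⟨N₁, hN₁⟩ := ((htend.eventually_ge_atTop x₀).and (eventually_ge_atTop 3)).exists_forall_of_atTop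
  refine ⟨N₁, fun N hN b hb x => ?_⟩
  obtain ⟨hX, hN3⟩ := hN₁ N hN
  obtain ⟨X, hXe⟩ : ∃ X : ℕ, X = ⌊L * (N : ℝ)⌋₊ := ⟨_, rfl⟩
  rw [← hXe] at hX
  obtain ⟨⟨⟨⟨⟨⟨⟨g1, g2⟩, g3⟩, g4⟩, g5⟩, g6⟩, g7⟩, g8⟩ := hx₀ X hX
  rw [pow_zero] at g4
  have hN0 : (0 : ℝ) < N := by exact_mod_cast (by omega : 0 < N)
  have hx1 : (X : ℝ) ≤ L * N := by rw [hXe]; exact Nat.floor_le (by positivity)
  have hx2 : L * N < X + 1 := by rw [hXe]; exact Nat.lt_floor_add_one _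
  have hNX : N ≤ X := by
    rw [hXe]
    refine Nat.le_floor ?_
    nlinarith
  obtain ⟨h, hh⟩ : ∃ h : ℕ, N + h = X := ⟨X - N, by omega⟩
  have hz2 : 2 ≤ zf X := (le_max_left _ _).trans g6
  have hzW : W ≤ zf X := (le_max_right _ _).trans g6
  have h1 := p_one (hv x) (hA1 x) (hA x) hC hC1 hb1 hb2 hs hs2 hJs hJ1 hT hε0 hL hκ1 hc1
    (θ := c2 / (s2 : ℝ) ^ 2) rfl hc20 hc21 hc2e hκ2 hκb1 hκb2 hw hW hp (hN01 x) (hN02 x) hh hx1 hx2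
    hN3 (hzf1 X).1 (hzf1 X).2 (hzf3 X (by omega) hz2) (hzg1 (zf X)).1
    (hzg3 (zf X) (by omega) g7) hz2 g7 hzW g1 g2 g3 g4 g5 hb
  have h2 : ∑ p ∈ wprimes N L W b, v x p =
      ∑ p ∈ (Ioc N (N + h)).filter Nat.Prime, (if (p : ℤ) ≡ (b : ℤ) [ZMOD W] then v x p else 0) := by
    unfold wprimes
    rw [← hXe, hh, ← sum_filter, filter_filter]
    refine sum_congr ?_ fun _ _ => rfl
    ext p
    simp only [mem_filter, Int.natCast_modEq_iff]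
  rw [h2]
  refine h1.trans ?_
  have h3 : 0 ≤ (N : ℝ) / (W.totient * Real.log N) := by
    have : 0 ≤ Real.log (N : ℝ) := Real.log_natCast_nonneg N
    positivity
  calc ε * ((N : ℝ) / (W.totient * Real.log N)) ≤ ε₀ * ((N : ℝ) / (W.totient * Real.log N)) :=
        mul_le_mul_of_nonneg_right hεε h3
    _ = _ := by ring

end Pool.Agent.MRS
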