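import Pool.Agent.MRS.PSMain

/-!
# MRS / PSAbs: the Brun-Hooley sieve for events on a finite set

PROOF of `bh_abs`.  Pointwise, for `x : ℕ → ℝ` with all values in `{0, 1}`: `Lo z q b x ≤ ∏_{p ∈ PZ z q} (1 - x p) ≤ Up z q b x`; this is the proof of
`RHN.up_ge`, `RHN.lo_le` (file `RHN/SIneq.lean`) with `xd n` replaced by `x`: `Helper27.IS.bonf` on the blocks `AA z q j` (`bb b j` is even), the product
over the blocks (`PZ_eq`, `AA_disj`) and `RHN.prod_ineq`.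
Sum over `i ∈ s`, use `RHN.up_expand`, `RHN.lo_expand` for `x i` and for `g`: with `D(T) = ∑_{i ∈ s} ∏_{p ∈ T} x i p - M ∏_{p ∈ T} g p`,
`|∑_i Up (x i) - M Up g| ≤ ∑_{T ∈ AD} |D(T)| ≤ |AD| δ ≤ z^(4b+4) δ`, `|∑_i Lo (x i) - M Lo g| ≤ (z^(4b+4) + z^(4b+5)) δ`
(`hE` applies: the sets in `AD z q b`, `AL z q b l` (`l < z`) are subsets of `PZ z q`, with products `≤ z^(4b+4)`, `≤ z^(4b+5)` by `RHN.ad_prod`, `RHN.al_prod`;
`RHN.ad_card`, `RHN.al_card`).  Then `g_main_up`, `g_main_lo` times `M ≥ 0`.  Finally `2 z^(4b+4) + z^(4b+5) ≤ z^(4b+8)` for `z ≥ 2`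
(`z_pow` in `RHN/SFl.lean`).
-/

set_option autoImplicit false

namespace Pool.Agent.MRS

open Finset

open Pool.Agent.RHN (PZ VV AA AD AL Up Lo bb)

private theorem pa_bonf {z q b : ℕ} {x : ℕ → ℝ} (hx : ∀ p, 0 ≤ x p ∧ x p ≤ 1) (j : ℕ) :
    0 ≤ ∏ p ∈ AA z q j, (1 - x p) ∧
    ∏ p ∈ AA z q j, (1 - x p) ≤ Pool.Agent.Helper27.IS.alt (AA z q j) x (bb b j) ∧
    Pool.Agent.Helper27.IS.alt (AA z q j) x (bb b j) - ∏ p ∈ AA z q j, (1 - x p) ≤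
      Pool.Agent.Helper27.IS.esy (AA z q j) x (bb b j + 1) := by
  have h := Pool.Agent.Helper27.IS.bonf (AA z q j) x (fun p _ => hx p) (bb b j)
  have he : (-1 : ℝ) ^ (bb b j) = 1 := by
    unfold bb
    rw [pow_mul, neg_one_sq, one_pow]
  rw [he, one_mul] at h
  refine ⟨prod_nonneg fun p _ => by linarith [(hx p).2], by linarith [h.1], h.2⟩

private theorem pa_prod (z q : ℕ) (x : ℕ → ℝ) :
    ∏ j ∈ range z, ∏ p ∈ AA z q j, (1 - x p) = ∏ p ∈ PZ z q, (1 - x p) := by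
  rw [Pool.Agent.RHN.PZ_eq, prod_biUnion]
  intro i _ j _ hij
  exact Pool.Agent.RHN.AA_disj z q hij

private theorem pa_up (z q b : ℕ) {x : ℕ → ℝ} (hx : ∀ p, 0 ≤ x p ∧ x p ≤ 1) :
    ∏ p ∈ PZ z q, (1 - x p) ≤ Up z q b x := by
  rw [← pa_prod]
  unfold Up
  exact prod_le_prod (fun j _ => (pa_bonf (b := b) hx j).1) fun j _ => (pa_bonf hx j).2.1

private theorem pa_lo (z q b : ℕ) {x : ℕ → ℝ} (hx : ∀ p, 0 ≤ x p ∧ x p ≤ 1) :
    Lo z q b x ≤ ∏ p ∈ PZ z q, (1 - x p) := by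
  rw [← pa_prod]
  refine le_trans ?_ (Pool.Agent.RHN.prod_ineq (range z) (fun j => ∏ p ∈ AA z q j, (1 - x p))
    (fun j => Pool.Agent.Helper27.IS.alt (AA z q j) x (bb b j))
    (fun j _ => (pa_bonf (b := b) hx j).1) fun j _ => (pa_bonf hx j).2.1).1
  unfold Lo Up
  refine sub_le_sub_left (sum_le_sum fun l _ => ?_) _
  refine mul_le_mul_of_nonneg_right (pa_bonf hx l).2.2 (prod_nonneg fun j _ => ?_)
  exact (pa_bonf (b := b) hx j).1.trans (pa_bonf hx j).2.1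

private theorem pa_lin {ι : Type*} (s : Finset ι) (x : ι → ℕ → ℝ) (g : ℕ → ℝ) (M δ : ℝ)
    (TT : Finset (Finset ℕ))
    (hE : ∀ T ∈ TT, |∑ i ∈ s, ∏ p ∈ T, x i p - M * ∏ p ∈ T, g p| ≤ δ) :
    |∑ i ∈ s, ∑ T ∈ TT, (-1 : ℝ) ^ T.card * ∏ p ∈ T, x i p -
      M * ∑ T ∈ TT, (-1 : ℝ) ^ T.card * ∏ p ∈ T, g p| ≤ (TT.card : ℝ) * δ := by
  rw [sum_comm, mul_sum, ← sum_sub_distrib]
  refine (abs_sum_le_sum_abs _ _).trans ?_
  rw [← nsmul_eq_mul]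
  refine sum_le_card_nsmul _ _ _ fun T hT => ?_
  have h1 : ∑ i ∈ s, (-1 : ℝ) ^ T.card * ∏ p ∈ T, x i p - M * ((-1 : ℝ) ^ T.card * ∏ p ∈ T, g p) =
      (-1 : ℝ) ^ T.card * (∑ i ∈ s, ∏ p ∈ T, x i p - M * ∏ p ∈ T, g p) := by
    rw [← mul_sum]
    ring
  rw [h1, abs_mul, abs_pow, abs_neg, abs_one, one_pow, one_mul]
  exact hE T hT

private theorem pa_zpow {z b : ℕ} (hz : 2 ≤ z) :
    (z : ℝ) ^ (4 * b + 4) + (z : ℝ) ^ (4 * b + 5) ≤ (z : ℝ) ^ (4 * b + 8) := by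
  have hz2 : (2 : ℝ) ≤ z := by exact_mod_cast hz
  have h1 : (0 : ℝ) ≤ (z : ℝ) ^ (4 * b + 4) := by positivity
  have e1 : (z : ℝ) ^ (4 * b + 5) = (z : ℝ) ^ (4 * b + 4) * z := by ring
  have e2 : (z : ℝ) ^ (4 * b + 8) = (z : ℝ) ^ (4 * b + 4) * z ^ 4 := by ring
  rw [e1, e2]
  have h2 : (1 : ℝ) + z ≤ z ^ 2 := by nlinarith
  have h3 : (z : ℝ) ^ 2 ≤ z ^ 4 := pow_le_pow_right₀ (by linarith) (by norm_num)
  calc (z : ℝ) ^ (4 * b + 4) + (z : ℝ) ^ (4 * b + 4) * z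
      = (z : ℝ) ^ (4 * b + 4) * (1 + z) := by ring
    _ ≤ (z : ℝ) ^ (4 * b + 4) * z ^ 4 := mul_le_mul_of_nonneg_left (h2.trans h3) h1

theorem bh_abs {ι : Type*} (s : Finset ι) (x : ι → ℕ → ℝ) (hx : ∀ i p, x i p = 0 ∨ x i p = 1)
    {z q b : ℕ} (hz : 2 ≤ z) {t : ℝ} (ht : 0 ≤ t) {g : ℕ → ℝ}
    (hg : ∀ p ∈ PZ z q, 0 ≤ g p ∧ g p ≤ t / p ∧ g p ≤ 1 / 2) {M δ : ℝ} (hM : 0 ≤ M) (hδ : 0 ≤ δ)
    (hE : ∀ T : Finset ℕ, T ⊆ PZ z q → ∏ p ∈ T, p ≤ z ^ (4 * b + 5) →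
      |∑ i ∈ s, ∏ p ∈ T, x i p - M * ∏ p ∈ T, g p| ≤ δ) :
    |∑ i ∈ s, ∏ p ∈ PZ z q, (1 - x i p) - M * ∏ p ∈ PZ z q, (1 - g p)| ≤
      CB t * (1 / 2) ^ b * (M * ∏ p ∈ PZ z q, (1 - g p)) + (z : ℝ) ^ (4 * b + 8) * δ := by
  have hz1 : 1 ≤ z := by omega
  have hx01 : ∀ i p, 0 ≤ x i p ∧ x i p ≤ 1 := by
    intro i p
    rcases hx i p with h | h <;> rw [h] <;> norm_num
  have hz1R : (1 : ℝ) ≤ z := by exact_mod_cast hz1
  -- the upper function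
  have hU : |∑ i ∈ s, Up z q b (x i) - M * Up z q b g| ≤ (z : ℝ) ^ (4 * b + 4) * δ := by
    simp only [Pool.Agent.RHN.up_expand]
    refine (pa_lin s x g M δ (AD z q b) ?_).trans ?_
    · intro T hT
      refine hE T ?_ ?_
      · unfold AD at hT
        exact mem_powerset.1 (mem_filter.1 hT).1
      · exact (Pool.Agent.RHN.ad_prod hz1 hT).trans (Nat.pow_le_pow_right hz1 (by omega))
    · refine mul_le_mul_of_nonneg_right ?_ hδ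
      exact_mod_cast Pool.Agent.RHN.ad_card (q := q) (b := b) hz1
  -- the lower function
  have hL : |∑ i ∈ s, Lo z q b (x i) - M * Lo z q b g| ≤
      ((z : ℝ) ^ (4 * b + 4) + (z : ℝ) ^ (4 * b + 5)) * δ := by
    have h1 : ∀ y : ℕ → ℝ, Lo z q b y = Up z q b y +
        ∑ l ∈ range z, ∑ T ∈ AL z q b l, (-1 : ℝ) ^ T.card * ∏ p ∈ T, y p := by
      intro y
      rw [Pool.Agent.RHN.lo_expand, Pool.Agent.RHN.up_expand]
    have h2 : ∀ l ∈ range z, |∑ i ∈ s, ∑ T ∈ AL z q b l, (-1 : ℝ) ^ T.card * ∏ p ∈ T, x i p -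
        M * ∑ T ∈ AL z q b l, (-1 : ℝ) ^ T.card * ∏ p ∈ T, g p| ≤
        ((AL z q b l).card : ℝ) * δ := by
      intro l hl
      refine pa_lin s x g M δ (AL z q b l) ?_
      intro T hT
      refine hE T ?_ (Pool.Agent.RHN.al_prod hz1 (mem_range.1 hl) hT)
      unfold AL at hT
      exact mem_powerset.1 (mem_filter.1 hT).1
    have h3 : ∑ l ∈ range z, ((AL z q b l).card : ℝ) ≤ (z : ℝ) ^ (4 * b + 5) := by
      exact_mod_cast Pool.Agent.RHN.al_card (q := q) (b := b) hz1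
    simp only [h1]
    rw [sum_add_distrib, sum_comm (s := s) (t := range z), mul_add, add_sub_add_comm,
      mul_sum (range z), ← sum_sub_distrib, add_mul]
    refine (abs_add_le _ _).trans (add_le_add hU ?_)
    refine (abs_sum_le_sum_abs _ _).trans ((sum_le_sum h2).trans ?_)
    rw [← sum_mul]
    exact mul_le_mul_of_nonneg_right h3 hδ
  have h4 : ∑ i ∈ s, ∏ p ∈ PZ z q, (1 - x i p) ≤ ∑ i ∈ s, Up z q b (x i) :=
    sum_le_sum fun i _ => pa_up z q b (hx01 i)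
  have h5 : ∑ i ∈ s, Lo z q b (x i) ≤ ∑ i ∈ s, ∏ p ∈ PZ z q, (1 - x i p) :=
    sum_le_sum fun i _ => pa_lo z q b (hx01 i)
  have h6 := mul_le_mul_of_nonneg_left (g_main_up ht hg b).2 hM
  have h7 := mul_le_mul_of_nonneg_left (g_main_lo ht hg b) hM
  have h8 := mul_le_mul_of_nonneg_right (pa_zpow (b := b) hz) hδ
  have h9 : 0 ≤ (z : ℝ) ^ (4 * b + 5) * δ := mul_nonneg (by positivity) hδ
  have hU2 := (abs_le.1 hU).2
  have hL1 := (abs_le.1 hL).1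
  rw [abs_le]
  constructor
  · linarith
  · linarith

end Pool.Agent.MRS
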