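import Mathlib

/-!
# MRS / PSBox: equidistribution of a box modulo `d`

PROOFS.
`cnt_res`: the number of `k < N` with `y + k ≡ a (mod d)` is `⌊.⌋` or `⌈.⌉` of `N/d` (e.g. `Int.Ico_filter_modEq_card` or `Nat.count_modEq_card`, or split
`range N` into `N/d` complete periods and a rest of `N % d < d` elements, each period contains exactly one such `k`).
`prod_diff`: expand `∏ (b_i + (a_i - b_i))`: `∏ a - ∏ b = ∑_{nonempty T} ∏_{i ∈ T} (a_i - b_i) ∏_{i ∉ T} b_i`, in absolute value at most the same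
sum with `a_i - b_i` replaced by `1`, which is `∏ (b_i + 1) - ∏ b_i` (`Finset.prod_add`).  Or induction over a `Finset` of indices:
`|a_0 A - b_0 B| ≤ |a_0 - b_0| |A| + b_0 |A - B| ≤ |A| + b_0 |A - B|`, `|A| ≤ ∏ (b_i + 1)`.
`box_equi`: sort the `k` of the box by the residues `a_i ∈ [0, d)` of `y_i + k_i`: with `c_i(a) = #{k < N_i : y_i + k ≡ a (d)}`,
`∑_k F(y + k) = ∑_{a ∈ [0,d)^ι} F(a) ∏_i c_i(a_i)` (`F` is periodic; `Fintype.card_piFinset`).  `|c_i(a) - N_i/d| ≤ 1` (`cnt_res`), `prod_diff`, `|F| ≤ 1`: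
the difference to `∑_a F(a) ∏ (N_i/d) = (∏ N_i) (∑_a F(a))/d^|ι|` is at most `d^|ι| (∏ (N_i/d + 1) - ∏ N_i/d) = ∏ (N_i + d) - ∏ N_i`.
-/

set_option autoImplicit false

namespace Pool.Agent.MRS

open Finset

theorem cnt_res (N : ℕ) (y a : ℤ) {d : ℕ} (hd : 1 ≤ d) :
    |(((range N).filter (fun k : ℕ => (d : ℤ) ∣ y + k - a)).card : ℝ) - (N : ℝ) / d| ≤ 1 := by
  have hd0 : (0 : ℤ) < (d : ℤ) := by exact_mod_cast hd
  have hdR : (0 : ℝ) < (d : ℝ) := by exact_mod_cast hd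
  have h1 : ((range N).filter (fun k : ℕ => (d : ℤ) ∣ y + k - a)).card =
      ((Ico (0 : ℤ) (N : ℤ)).filter (fun x => x ≡ a - y [ZMOD (d : ℤ)])).card := by
    refine card_bij (fun k _ => (k : ℤ)) ?_ ?_ ?_
    · intro k hk
      rw [mem_filter, mem_range] at hk
      rw [mem_filter, mem_Ico]
      refine ⟨⟨by positivity, by exact_mod_cast hk.1⟩, ?_⟩
      refine (Int.modEq_iff_dvd.2 ?_).symm
      have e : (k : ℤ) - (a - y) = y + k - a := by ring
      rw [e]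
      exact hk.2
    · intro k _ k' _ h
      exact_mod_cast h
    · intro x hx
      rw [mem_filter, mem_Ico] at hx
      refine ⟨x.toNat, ?_, ?_⟩
      · rw [mem_filter, mem_range]
        refine ⟨by omega, ?_⟩
        have e : (x.toNat : ℤ) = x := Int.toNat_of_nonneg hx.1.1
        rw [e]
        have h2 := Int.modEq_iff_dvd.1 hx.2.symm
        have e2 : y + x - a = x - (a - y) := by ring
        rw [e2]
        exact h2
      · exact Int.toNat_of_nonneg hx.1.1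
  have h2 := Int.Ico_filter_modEq_card (0 : ℤ) (N : ℤ) hd0 (a - y)
  rw [h1]
  have h3 : ((((Ico (0 : ℤ) (N : ℤ)).filter (fun x => x ≡ a - y [ZMOD (d : ℤ)])).card : ℤ) : ℝ) =
      ((max (⌈(((N : ℤ) : ℚ) - ((a - y : ℤ) : ℚ)) / ((d : ℤ) : ℚ)⌉ -
        ⌈(((0 : ℤ) : ℚ) - ((a - y : ℤ) : ℚ)) / ((d : ℤ) : ℚ)⌉) 0 : ℤ) : ℝ) := by
    rw [h2]
  rw [Int.cast_natCast] at h3
  rw [h3]
  set q : ℚ := (((N : ℤ) : ℚ) - ((a - y : ℤ) : ℚ)) / ((d : ℤ) : ℚ) with hq
  set p : ℚ := (((0 : ℤ) : ℚ) - ((a - y : ℤ) : ℚ)) / ((d : ℤ) : ℚ) with hp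
  have hqp : ((q - p : ℚ) : ℝ) = (N : ℝ) / d := by
    rw [hq, hp]
    push_cast
    field_simp
    ring
  have hN : (0 : ℝ) ≤ (N : ℝ) / d := by positivity
  have c1 : ((q : ℚ) : ℝ) ≤ ((⌈q⌉ : ℤ) : ℝ) := by exact_mod_cast Int.le_ceil q
  have c2 : ((⌈q⌉ : ℤ) : ℝ) < ((q : ℚ) : ℝ) + 1 := by exact_mod_cast Int.ceil_lt_add_one q
  have c3 : ((p : ℚ) : ℝ) ≤ ((⌈p⌉ : ℤ) : ℝ) := by exact_mod_cast Int.le_ceil p
  have c4 : ((⌈p⌉ : ℤ) : ℝ) < ((p : ℚ) : ℝ) + 1 := by exact_mod_cast Int.ceil_lt_add_one p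
  rw [Rat.cast_sub] at hqp
  rw [Int.cast_max, Int.cast_sub, Int.cast_zero, abs_le]
  constructor
  · have h4 := le_max_left (((⌈q⌉ : ℤ) : ℝ) - ((⌈p⌉ : ℤ) : ℝ)) 0
    linarith
  · rcases max_cases (((⌈q⌉ : ℤ) : ℝ) - ((⌈p⌉ : ℤ) : ℝ)) 0 with ⟨h4, -⟩ | ⟨h4, -⟩
    · rw [h4]
      linarith
    · rw [h4]
      linarith

theorem prod_diff {ι : Type*} [Fintype ι] (a b : ι → ℝ) (hb : ∀ i, 0 ≤ b i)
    (h : ∀ i, |a i - b i| ≤ 1) : |∏ i, a i - ∏ i, b i| ≤ ∏ i, (b i + 1) - ∏ i, b i := by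
  classical
  have ha : ∀ i, |a i| ≤ b i + 1 := by
    intro i
    have h1 := h i
    rw [abs_le] at h1 ⊢
    have h2 := hb i
    constructor <;> linarith
  have key : ∀ s : Finset ι, |∏ i ∈ s, a i - ∏ i ∈ s, b i| ≤ ∏ i ∈ s, (b i + 1) - ∏ i ∈ s, b i := by
    intro s
    induction s using Finset.induction_on with
    | empty => simp
    | insert i s hi ih =>
      rw [prod_insert hi, prod_insert hi, prod_insert hi]
      have h1 : |∏ j ∈ s, a j| ≤ ∏ j ∈ s, (b j + 1) := by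
        rw [abs_prod]
        exact prod_le_prod (fun j _ => abs_nonneg _) fun j _ => ha j
      have h2 : a i * ∏ j ∈ s, a j - b i * ∏ j ∈ s, b j =
          (a i - b i) * ∏ j ∈ s, a j + b i * (∏ j ∈ s, a j - ∏ j ∈ s, b j) := by ring
      rw [h2]
      have h3 : |(a i - b i) * ∏ j ∈ s, a j| ≤ 1 * ∏ j ∈ s, (b j + 1) := by
        rw [abs_mul]
        exact mul_le_mul (h i) h1 (abs_nonneg _) zero_le_one
      have h4 : |b i * (∏ j ∈ s, a j - ∏ j ∈ s, b j)| ≤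
          b i * (∏ j ∈ s, (b j + 1) - ∏ j ∈ s, b j) := by
        rw [abs_mul, abs_of_nonneg (hb i)]
        exact mul_le_mul_of_nonneg_left ih (hb i)
      have h5 := abs_add_le ((a i - b i) * ∏ j ∈ s, a j) (b i * (∏ j ∈ s, a j - ∏ j ∈ s, b j))
      nlinarith
  exact key univ

/-- Sorting the points of the box by residues. -/
theorem box_sort {ι : Type*} [Fintype ι] [DecidableEq ι] (N : ι → ℕ) (y : ι → ℤ) {d : ℕ}
    (hd : 1 ≤ d) (F : (ι → ℤ) → ℝ)
    (hper : ∀ x x' : ι → ℤ, (∀ i, (d : ℤ) ∣ x i - x' i) → F x = F x') :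
    ∑ k ∈ Fintype.piFinset (fun i => range (N i)), F (fun i => y i + (k i : ℤ)) =
      ∑ x ∈ Fintype.piFinset (fun _ : ι => range d), F (fun i => (x i : ℤ)) *
        ∏ i, (((range (N i)).filter (fun k : ℕ => (d : ℤ) ∣ y i + k - (x i : ℤ))).card : ℝ) := by
  have hd0 : (0 : ℤ) < (d : ℤ) := by exact_mod_cast hd
  have h1 : ∀ k : ι → ℕ, F (fun i => y i + (k i : ℤ)) =
      ∑ x ∈ Fintype.piFinset (fun _ : ι => range d),
        if (∀ i, (d : ℤ) ∣ y i + (k i : ℤ) - (x i : ℤ)) then F (fun i => (x i : ℤ)) else 0 := by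
    intro k
    have hx0 : (fun i => ((y i + (k i : ℤ)) % (d : ℤ)).toNat) ∈
        Fintype.piFinset (fun _ : ι => range d) := by
      rw [Fintype.mem_piFinset]
      intro i
      rw [mem_range]
      have e1 := Int.emod_nonneg (y i + (k i : ℤ)) hd0.ne'
      have e2 := Int.emod_lt_of_pos (y i + (k i : ℤ)) hd0
      omega
    rw [sum_eq_single_of_mem _ hx0]
    · have e3 : ∀ i, (d : ℤ) ∣ y i + (k i : ℤ) - ((((y i + (k i : ℤ)) % (d : ℤ)).toNat : ℕ) : ℤ) := by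
        intro i
        rw [Int.toNat_of_nonneg (Int.emod_nonneg _ hd0.ne')]
        exact Int.dvd_self_sub_emod
      rw [if_pos e3]
      exact hper _ _ e3
    · intro x hx hne
      rw [if_neg]
      intro h
      apply hne
      funext i
      rw [Fintype.mem_piFinset] at hx
      have h2 := hx i
      rw [mem_range] at h2
      have h3 := h i
      have h4 : (y i + (k i : ℤ)) % (d : ℤ) = (x i : ℤ) := by
        have h5 : (y i + (k i : ℤ)) % (d : ℤ) = (x i : ℤ) % (d : ℤ) :=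
          (Int.modEq_iff_dvd.2 h3).symm
        rw [h5]
        exact Int.emod_eq_of_lt (by positivity) (by exact_mod_cast h2)
      change x i = ((y i + (k i : ℤ)) % (d : ℤ)).toNat
      rw [h4]
      rfl
  rw [sum_congr rfl fun k _ => h1 k, sum_comm]
  refine sum_congr rfl fun x _ => ?_
  rw [← sum_filter, sum_const, nsmul_eq_mul, mul_comm]
  congr 1
  have h2 : (Fintype.piFinset (fun i => range (N i))).filter
      (fun k => ∀ i, (d : ℤ) ∣ y i + (k i : ℤ) - (x i : ℤ)) =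
      Fintype.piFinset (fun i => (range (N i)).filter
        (fun k : ℕ => (d : ℤ) ∣ y i + k - (x i : ℤ))) := by
    ext k
    rw [mem_filter, Fintype.mem_piFinset, Fintype.mem_piFinset]
    constructor
    · rintro ⟨h3, h4⟩ i
      exact mem_filter.2 ⟨h3 i, h4 i⟩
    · intro h3
      exact ⟨fun i => (mem_filter.1 (h3 i)).1, fun i => (mem_filter.1 (h3 i)).2⟩
  rw [h2, Fintype.card_piFinset]
  push_cast
  rfl

theorem box_equi {ι : Type*} [Fintype ι] [DecidableEq ι] (N : ι → ℕ) (y : ι → ℤ) {d : ℕ}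
    (hd : 1 ≤ d) (F : (ι → ℤ) → ℝ) (hF : ∀ x, 0 ≤ F x ∧ F x ≤ 1)
    (hper : ∀ x x' : ι → ℤ, (∀ i, (d : ℤ) ∣ x i - x' i) → F x = F x') :
    |∑ k ∈ Fintype.piFinset (fun i => range (N i)), F (fun i => y i + (k i : ℤ)) -
      (∏ i, (N i : ℝ)) * ((∑ x ∈ Fintype.piFinset (fun _ : ι => range d), F (fun i => (x i : ℤ))) /
        (d : ℝ) ^ Fintype.card ι)| ≤ ∏ i, ((N i : ℝ) + d) - ∏ i, (N i : ℝ) := by
  have hdR : (0 : ℝ) < (d : ℝ) := by exact_mod_cast hd
  have hdn : (0 : ℝ) < (d : ℝ) ^ Fintype.card ι := by positivity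
  have e0 : (d : ℝ) ^ Fintype.card ι = ∏ _i : ι, (d : ℝ) := by
    rw [prod_const, card_univ]
  have e1 : ∏ i, (N i : ℝ) = (d : ℝ) ^ Fintype.card ι * ∏ i, ((N i : ℝ) / d) := by
    rw [e0, ← prod_mul_distrib]
    refine prod_congr rfl fun i _ => ?_
    field_simp
  have e2 : ∏ i, ((N i : ℝ) + d) = (d : ℝ) ^ Fintype.card ι * ∏ i, ((N i : ℝ) / d + 1) := by
    rw [e0, ← prod_mul_distrib]
    refine prod_congr rfl fun i _ => ?_
    field_simp
  have e3 : (∏ i, (N i : ℝ)) * ((∑ x ∈ Fintype.piFinset (fun _ : ι => range d),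
      F (fun i => (x i : ℤ))) / (d : ℝ) ^ Fintype.card ι) =
      ∑ x ∈ Fintype.piFinset (fun _ : ι => range d),
        F (fun i => (x i : ℤ)) * ∏ i, ((N i : ℝ) / d) := by
    rw [e1, ← sum_mul]
    field_simp
  rw [box_sort N y hd F hper, e3, ← sum_sub_distrib]
  have e4 : ∀ x ∈ Fintype.piFinset (fun _ : ι => range d),
      |F (fun i => (x i : ℤ)) *
        ∏ i, (((range (N i)).filter (fun k : ℕ => (d : ℤ) ∣ y i + k - (x i : ℤ))).card : ℝ) -
        F (fun i => (x i : ℤ)) * ∏ i, ((N i : ℝ) / d)| ≤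
      ∏ i, ((N i : ℝ) / d + 1) - ∏ i, ((N i : ℝ) / d) := by
    intro x _
    rw [← mul_sub, abs_mul, abs_of_nonneg (hF _).1]
    have h1 := prod_diff (fun i => (((range (N i)).filter
      (fun k : ℕ => (d : ℤ) ∣ y i + k - (x i : ℤ))).card : ℝ)) (fun i => (N i : ℝ) / d)
      (fun i => by positivity) (fun i => cnt_res (N i) (y i) (x i) hd)
    calc F (fun i => (x i : ℤ)) * _ ≤ 1 * _ :=
          mul_le_mul_of_nonneg_right (hF _).2 (abs_nonneg _)
      _ ≤ _ := by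
          rw [one_mul]
          exact h1
  calc _ ≤ ∑ x ∈ Fintype.piFinset (fun _ : ι => range d), |F (fun i => (x i : ℤ)) *
        ∏ i, (((range (N i)).filter (fun k : ℕ => (d : ℤ) ∣ y i + k - (x i : ℤ))).card : ℝ) -
        F (fun i => (x i : ℤ)) * ∏ i, ((N i : ℝ) / d)| := abs_sum_le_sum_abs _ _
    _ ≤ ∑ x ∈ Fintype.piFinset (fun _ : ι => range d),
        (∏ i, ((N i : ℝ) / d + 1) - ∏ i, ((N i : ℝ) / d)) := sum_le_sum e4
    _ = _ := by
        rw [sum_const, nsmul_eq_mul, Fintype.card_piFinset, e1, e2, prod_const, card_range,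
          card_univ, ← mul_sub]
        push_cast
        ring

end Pool.Agent.MRS
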