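import Pool.Agent.MRS.PSDefs

/-!
# MRS / PSCmp: comparison of the sieve products

PROOFS.  `VV_ge`: `∏_{p ∈ PZ z W} (1 - 1/p) ≥ ∏_{m ∈ Icc 2 z} (1 - 1/m) = 1/z` (all factors are in `(0, 1]`; telescoping product).
`sum_inv_sq`: `∑_{w < m ≤ z} 1/m^2 ≤ ∑ (1/(m-1) - 1/m) ≤ 1/w`.
`prod_cmp`: let `σ ≥ 0` be a natural number, `u = 1/p`, `p > w ≥ 2σ`, so `σ u ≤ 1/2`.  `b = (1 - u)^σ` satisfies `1 - σu ≤ b ≤ 1 - σu + σ^2 u^2` (Bernoulli: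
`one_add_mul_le_pow`; the upper bound by induction on `σ`: `(1 - σu + σ^2u^2)(1 - u) ≤ 1 - (σ+1)u + (σ+1)^2u^2` since `σ^2u^2 + σu^2 - σ^2 u^3 ≤ (σ+1)^2 u^2`), `a = 1 - g p`
satisfies the same bounds by hypothesis; so `|a - b| ≤ σ^2 u^2`, `b ≥ 1/2`, `a = b (1 + f)` with `|f| ≤ 2 σ^2/p^2`.  Hence
`∏ (1 - g p) = (∏ (1 - 1/p))^σ ∏ (1 + f p)`, `|∏ (1 + f) - 1| ≤ exp (∑ |f|) - 1` (`Finset.norm_prod_one_add_sub_one_le`), `∑ |f| ≤ 2 σ^2/w ≤ σ` (`sum_inv_sq`, `w ≥ 2σ`; all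
primes `≤ w` divide `W`, so the primes of `PZ z W` are `> w`), `exp y - 1 ≤ y exp y`.
-/

set_option autoImplicit false

namespace Pool.Agent.MRS

open Finset

open Pool.Agent.RHN (PZ VV)

private theorem pscmp_tel {z : ℕ} (hz : 1 ≤ z) : ∏ m ∈ Icc 2 z, (1 - 1 / (m : ℝ)) = 1 / (z : ℝ) := by
  induction z, hz using Nat.le_induction with
  | base => simp
  | succ z hz ih =>
    rw [Finset.prod_Icc_succ_top (by omega), ih]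
    have h1 : (z : ℝ) ≠ 0 := by
      have : z ≠ 0 := by omega
      exact_mod_cast this
    have h2 : ((z : ℝ) + 1) ≠ 0 := by positivity
    push_cast
    field_simp
    ring

private theorem pscmp_fac {p : ℕ} (hp : 2 ≤ p) : 0 ≤ 1 - 1 / (p : ℝ) ∧ 1 - 1 / (p : ℝ) ≤ 1 := by
  have h : (2 : ℝ) ≤ p := by exact_mod_cast hp
  have h1 : 1 / (p : ℝ) ≤ 1 / 2 := one_div_le_one_div_of_le (by norm_num) h
  have h2 : 0 ≤ 1 / (p : ℝ) := by positivity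
  constructor <;> linarith

private theorem pscmp_mem {z W p : ℕ} : p ∈ PZ z W ↔ p.Prime ∧ p ≤ z ∧ ¬ p ∣ W := by
  unfold PZ
  rw [Finset.mem_filter, Finset.mem_Icc]
  constructor
  · rintro ⟨⟨-, h1⟩, h2, h3⟩
    exact ⟨h2, h1, h3⟩
  · rintro ⟨h1, h2, h3⟩
    exact ⟨⟨h1.one_lt.le, h2⟩, h1, h3⟩

theorem VV_ge {z W : ℕ} (hz : 1 ≤ z) : 1 / (z : ℝ) ≤ VV z W := by
  rw [← pscmp_tel hz]
  have hsub : PZ z W ⊆ Icc 2 z := by
    intro p hp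
    obtain ⟨h1, h2, -⟩ := pscmp_mem.1 hp
    exact Finset.mem_Icc.2 ⟨h1.two_le, h2⟩
  have hV : VV z W = ∏ p ∈ PZ z W, (1 - 1 / (p : ℝ)) := rfl
  rw [hV, ← Finset.prod_sdiff hsub]
  have h1 : ∏ m ∈ Icc 2 z \ PZ z W, (1 - 1 / (m : ℝ)) ≤ 1 := by
    apply Finset.prod_le_one
    · intro m hm
      exact (pscmp_fac (Finset.mem_Icc.1 (Finset.mem_sdiff.1 hm).1).1).1
    · intro m hm
      exact (pscmp_fac (Finset.mem_Icc.1 (Finset.mem_sdiff.1 hm).1).1).2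
  have h2 : 0 ≤ ∏ m ∈ PZ z W, (1 - 1 / (m : ℝ)) := by
    apply Finset.prod_nonneg
    intro m hm
    exact (pscmp_fac (pscmp_mem.1 hm).1.two_le).1
  calc _ ≤ 1 * ∏ m ∈ PZ z W, (1 - 1 / (m : ℝ)) := mul_le_mul_of_nonneg_right h1 h2
    _ = _ := one_mul _

theorem sum_inv_sq {w z : ℕ} (hw : 1 ≤ w) : ∑ m ∈ Ioc w z, 1 / (m : ℝ) ^ 2 ≤ 1 / (w : ℝ) := by
  rcases le_total w z with h | h
  · have h1 := sum_Ioc_inv_sq_le_sub (α := ℝ) (k := w) (n := z) (by omega) h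
    have h2 : 0 ≤ ((z : ℝ))⁻¹ := by positivity
    simp only [one_div]
    linarith
  · rw [Finset.Ioc_eq_empty_of_le h]
    simp

private theorem pscmp_pow {u : ℝ} (h0 : 0 ≤ u) (h1 : u ≤ 1) (σ : ℕ) :
    (1 - u) ^ σ ≤ 1 - σ * u + (σ : ℝ) ^ 2 * u ^ 2 := by
  induction σ with
  | zero => simp
  | succ σ ih =>
    rw [pow_succ]
    have h2 : (1 - u) ^ σ * (1 - u) ≤ (1 - σ * u + (σ : ℝ) ^ 2 * u ^ 2) * (1 - u) :=
      mul_le_mul_of_nonneg_right ih (by linarith)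
    have h3 : (0 : ℝ) ≤ σ := by positivity
    have h4 : 0 ≤ (σ : ℝ) ^ 2 * u ^ 3 := by positivity
    have h5 : 0 ≤ (σ : ℝ) * u ^ 2 := by positivity
    have h6 : 0 ≤ u ^ 2 := by positivity
    push_cast
    nlinarith

private theorem pscmp_exp {y : ℝ} : Real.exp y - 1 ≤ y * Real.exp y := by
  have h1 : -y + 1 ≤ Real.exp (-y) := Real.add_one_le_exp (-y)
  have h2 : (-y + 1) * Real.exp y ≤ Real.exp (-y) * Real.exp y :=
    mul_le_mul_of_nonneg_right h1 (Real.exp_pos y).le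
  rw [← Real.exp_add, neg_add_cancel, Real.exp_zero] at h2
  linarith

theorem prod_cmp {z w W σ : ℕ} (hw : 1 ≤ w) (hσ : 2 * σ ≤ w) (hW : ∀ p : ℕ, p.Prime → p ≤ w → p ∣ W)
    {g : ℕ → ℝ} (hg : ∀ p ∈ PZ z W, (σ : ℝ) / p - (σ : ℝ) ^ 2 / (p : ℝ) ^ 2 ≤ g p ∧
      g p ≤ (σ : ℝ) / p) :
    |∏ p ∈ PZ z W, (1 - g p) - VV z W ^ σ| ≤
      (2 * (σ : ℝ) ^ 2 * Real.exp σ / w) * VV z W ^ σ := by
  have hw0 : (0 : ℝ) < w := by
    have : 0 < w := hw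
    exact_mod_cast this
  have hσ' : 2 * (σ : ℝ) ≤ w := by exact_mod_cast hσ
  have hσ0 : (0 : ℝ) ≤ σ := by positivity
  have hlt : ∀ p ∈ PZ z W, w < p := by
    intro p hp
    obtain ⟨h1, -, h3⟩ := pscmp_mem.1 hp
    by_contra h
    exact h3 (hW p h1 (not_lt.1 h))
  -- the bounds for one factor
  have hb : ∀ p ∈ PZ z W, 1 / 2 ≤ (1 - 1 / (p : ℝ)) ^ σ ∧
      |(1 - g p) - (1 - 1 / (p : ℝ)) ^ σ| ≤ (σ : ℝ) ^ 2 * (1 / (p : ℝ)) ^ 2 := by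
    intro p hp
    have hwp : (w : ℝ) < p := by exact_mod_cast hlt p hp
    have hp0 : (0 : ℝ) < p := hw0.trans hwp
    have hp2 : 2 ≤ p := (pscmp_mem.1 hp).1.two_le
    have hu0 : 0 ≤ 1 / (p : ℝ) := by positivity
    have hu1 : 1 / (p : ℝ) ≤ 1 := by
      have := (pscmp_fac hp2).1
      linarith
    have hsu : (σ : ℝ) * (1 / (p : ℝ)) ≤ 1 / 2 := by
      rw [mul_one_div, div_le_iff₀ hp0]
      linarith
    have h1 : 1 + (σ : ℝ) * (-(1 / (p : ℝ))) ≤ (1 + -(1 / (p : ℝ))) ^ σ :=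
      one_add_mul_le_pow (by linarith) σ
    rw [← sub_eq_add_neg] at h1
    have h2 := pscmp_pow hu0 hu1 σ
    obtain ⟨h3, h4⟩ := hg p hp
    have e1 : (σ : ℝ) / p = σ * (1 / (p : ℝ)) := by ring
    have e2 : (σ : ℝ) ^ 2 / (p : ℝ) ^ 2 = (σ : ℝ) ^ 2 * (1 / (p : ℝ)) ^ 2 := by
      rw [one_div, inv_pow]; rfl
    rw [e1, e2] at h3
    rw [e1] at h4
    refine ⟨by linarith, ?_⟩
    rw [abs_le]
    constructor <;> linarith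
  set f : ℕ → ℝ := fun p => (1 - g p) / (1 - 1 / (p : ℝ)) ^ σ - 1 with hf
  have hprod : ∏ p ∈ PZ z W, (1 - g p) = VV z W ^ σ * ∏ p ∈ PZ z W, (1 + f p) := by
    have hV : VV z W = ∏ p ∈ PZ z W, (1 - 1 / (p : ℝ)) := rfl
    rw [hV, ← Finset.prod_pow, ← Finset.prod_mul_distrib]
    apply Finset.prod_congr rfl
    intro p hp
    have h1 := (hb p hp).1
    have h2 : (1 - 1 / (p : ℝ)) ^ σ ≠ 0 := by
      intro h0
      rw [h0] at h1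
      norm_num at h1
    simp only [hf]
    rw [add_sub_cancel, mul_div_cancel₀ _ h2]
  have hfb : ∀ p ∈ PZ z W, ‖f p‖ ≤ 2 * (σ : ℝ) ^ 2 * (1 / (p : ℝ) ^ 2) := by
    intro p hp
    obtain ⟨h1, h2⟩ := hb p hp
    have h3 : 0 < (1 - 1 / (p : ℝ)) ^ σ := by linarith
    have e1 : f p = ((1 - g p) - (1 - 1 / (p : ℝ)) ^ σ) / (1 - 1 / (p : ℝ)) ^ σ := by
      simp only [hf]
      rw [sub_div (1 - g p), div_self h3.ne']
    rw [Real.norm_eq_abs, e1, abs_div, abs_of_pos h3, div_le_iff₀ h3]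
    have e2 : (1 / (p : ℝ)) ^ 2 = 1 / (p : ℝ) ^ 2 := by rw [one_div_pow]
    rw [e2] at h2
    have h4 : 0 ≤ (σ : ℝ) ^ 2 * (1 / (p : ℝ) ^ 2) := by positivity
    nlinarith
  have hsum : ∑ p ∈ PZ z W, ‖f p‖ ≤ 2 * (σ : ℝ) ^ 2 / w := by
    calc ∑ p ∈ PZ z W, ‖f p‖ ≤ ∑ p ∈ PZ z W, 2 * (σ : ℝ) ^ 2 * (1 / (p : ℝ) ^ 2) :=
          Finset.sum_le_sum hfb
      _ = 2 * (σ : ℝ) ^ 2 * ∑ p ∈ PZ z W, 1 / (p : ℝ) ^ 2 := by rw [Finset.mul_sum]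
      _ ≤ 2 * (σ : ℝ) ^ 2 * ∑ m ∈ Ioc w z, 1 / (m : ℝ) ^ 2 := by
          apply mul_le_mul_of_nonneg_left _ (by positivity)
          apply Finset.sum_le_sum_of_subset_of_nonneg
          · intro p hp
            exact Finset.mem_Ioc.2 ⟨hlt p hp, (pscmp_mem.1 hp).2.1⟩
          · intro m _ _
            positivity
      _ ≤ 2 * (σ : ℝ) ^ 2 * (1 / (w : ℝ)) :=
          mul_le_mul_of_nonneg_left (sum_inv_sq hw) (by positivity)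
      _ = 2 * (σ : ℝ) ^ 2 / w := by ring
  have hVV0 : 0 ≤ VV z W ^ σ := by
    apply pow_nonneg
    have hV : VV z W = ∏ p ∈ PZ z W, (1 - 1 / (p : ℝ)) := rfl
    rw [hV]
    apply Finset.prod_nonneg
    intro m hm
    exact (pscmp_fac (pscmp_mem.1 hm).1.two_le).1
  have h5 : |∏ p ∈ PZ z W, (1 + f p) - 1| ≤ 2 * (σ : ℝ) ^ 2 * Real.exp σ / w := by
    have h6 := Finset.norm_prod_one_add_sub_one_le (PZ z W) f
    rw [Real.norm_eq_abs] at h6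
    have h7 : Real.exp (∑ p ∈ PZ z W, ‖f p‖) ≤ Real.exp (2 * (σ : ℝ) ^ 2 / w) :=
      Real.exp_le_exp.2 hsum
    have h8 : 2 * (σ : ℝ) ^ 2 / w ≤ σ := by
      rw [div_le_iff₀ hw0]
      nlinarith
    have h9 := pscmp_exp (y := 2 * (σ : ℝ) ^ 2 / w)
    have h10 : Real.exp (2 * (σ : ℝ) ^ 2 / w) ≤ Real.exp σ := Real.exp_le_exp.2 h8
    have h11 : 0 ≤ 2 * (σ : ℝ) ^ 2 / w := by positivity
    calc |∏ p ∈ PZ z W, (1 + f p) - 1| ≤ Real.exp (2 * (σ : ℝ) ^ 2 / w) - 1 := by linarith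
      _ ≤ (2 * (σ : ℝ) ^ 2 / w) * Real.exp (2 * (σ : ℝ) ^ 2 / w) := h9
      _ ≤ (2 * (σ : ℝ) ^ 2 / w) * Real.exp σ := mul_le_mul_of_nonneg_left h10 h11
      _ = 2 * (σ : ℝ) ^ 2 * Real.exp σ / w := by ring
  have h12 : ∏ p ∈ PZ z W, (1 - g p) - VV z W ^ σ =
      VV z W ^ σ * (∏ p ∈ PZ z W, (1 + f p) - 1) := by
    rw [hprod]; ring
  rw [h12, abs_mul, abs_of_nonneg hVV0, mul_comm]
  exact mul_le_mul_of_nonneg_right h5 hVV0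

end Pool.Agent.MRS
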