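import Mathlib

/-!
# MRS / PSCrt: product formula over primes

PROOF.
`crt_prod`: induction on `T`.  `T = ∅`: both sides are `1` (one point).  For `insert q T`, `d = ∏_{p ∈ T} p` is coprime to `q`; `x ↦ (x mod d, x mod q)` is a
bijection from `[0, d q)^ι` to `[0, d)^ι × [0, q)^ι` (`Nat.chineseRemainder` in each coordinate) and
`(∏_{p ∈ T} f p x) f q x = (∏_{p ∈ T} f p (x mod d)) f q (x mod q)` by periodicity.
-/

set_option autoImplicit false

namespace Pool.Agent.MRS

open Finset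

private theorem crt_two {ι : Type*} [Fintype ι] [DecidableEq ι] {m n : ℕ} (hm : 0 < m) (hn : 0 < n)
    (h : Nat.Coprime m n) (F G : (ι → ℤ) → ℝ)
    (hF : ∀ x x' : ι → ℤ, (∀ i, (m : ℤ) ∣ x i - x' i) → F x = F x')
    (hG : ∀ x x' : ι → ℤ, (∀ i, (n : ℤ) ∣ x i - x' i) → G x = G x') :
    ∑ x ∈ Fintype.piFinset (fun _ : ι => range (m * n)),
        F (fun i => (x i : ℤ)) * G (fun i => (x i : ℤ)) =
      (∑ x ∈ Fintype.piFinset (fun _ : ι => range m), F (fun i => (x i : ℤ))) *
        ∑ x ∈ Fintype.piFinset (fun _ : ι => range n), G (fun i => (x i : ℤ)) := by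
  rw [sum_mul_sum, ← sum_product']
  refine Finset.sum_nbij' (fun x => ((fun i => x i % m, fun i => x i % n) : (ι → ℕ) × (ι → ℕ)))
    (fun ab => fun i => (Nat.chineseRemainder h (ab.1 i) (ab.2 i) : ℕ)) ?_ ?_ ?_ ?_ ?_
  · intro x _
    rw [mem_product]
    constructor
    · rw [Fintype.mem_piFinset]
      intro i
      exact mem_range.2 (Nat.mod_lt _ hm)
    · rw [Fintype.mem_piFinset]
      intro i
      exact mem_range.2 (Nat.mod_lt _ hn)
  · intro ab _
    rw [Fintype.mem_piFinset]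
    intro i
    exact mem_range.2 (Nat.chineseRemainder_lt_mul h _ _ hm.ne' hn.ne')
  · intro x hx
    rw [Fintype.mem_piFinset] at hx
    funext i
    have h1 := mem_range.1 (hx i)
    have h2 : x i ≡ (Nat.chineseRemainder h (x i % m) (x i % n) : ℕ) [MOD m * n] :=
      Nat.chineseRemainder_modEq_unique h (Nat.mod_modEq _ _).symm (Nat.mod_modEq _ _).symm
    have h3 := Nat.chineseRemainder_lt_mul h (x i % m) (x i % n) hm.ne' hn.ne'
    exact (Nat.ModEq.eq_of_lt_of_lt h2 h1 h3).symm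
  · intro ab hab
    rw [mem_product, Fintype.mem_piFinset, Fintype.mem_piFinset] at hab
    refine Prod.ext ?_ ?_
    · funext i
      have h1 := (Nat.chineseRemainder h (ab.1 i) (ab.2 i)).2.1
      have h2 := mem_range.1 (hab.1 i)
      change ((Nat.chineseRemainder h (ab.1 i) (ab.2 i) : ℕ)) % m = ab.1 i
      rw [Nat.ModEq, Nat.mod_eq_of_lt h2] at h1
      exact h1
    · funext i
      have h1 := (Nat.chineseRemainder h (ab.1 i) (ab.2 i)).2.2
      have h2 := mem_range.1 (hab.2 i)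
      change ((Nat.chineseRemainder h (ab.1 i) (ab.2 i) : ℕ)) % n = ab.2 i
      rw [Nat.ModEq, Nat.mod_eq_of_lt h2] at h1
      exact h1
  · intro x _
    congr 1
    · refine hF _ _ fun i => ?_
      change (m : ℤ) ∣ (x i : ℤ) - ((x i % m : ℕ) : ℤ)
      exact (Nat.modEq_iff_dvd.1 (Nat.mod_modEq (x i) m))
    · refine hG _ _ fun i => ?_
      change (n : ℤ) ∣ (x i : ℤ) - ((x i % n : ℕ) : ℤ)
      exact (Nat.modEq_iff_dvd.1 (Nat.mod_modEq (x i) n))

theorem crt_prod {ι : Type*} [Fintype ι] [DecidableEq ι] (T : Finset ℕ) (hT : ∀ p ∈ T, p.Prime)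
    (f : ℕ → (ι → ℤ) → ℝ)
    (hper : ∀ p ∈ T, ∀ x x' : ι → ℤ, (∀ i, (p : ℤ) ∣ x i - x' i) → f p x = f p x') :
    (∑ x ∈ Fintype.piFinset (fun _ : ι => range (∏ p ∈ T, p)), ∏ p ∈ T, f p (fun i => (x i : ℤ))) /
        ((∏ p ∈ T, p : ℕ) : ℝ) ^ Fintype.card ι =
      ∏ p ∈ T, ((∑ x ∈ Fintype.piFinset (fun _ : ι => range p), f p (fun i => (x i : ℤ))) /
        (p : ℝ) ^ Fintype.card ι) := by
  induction T using Finset.induction_on with
  | empty =>
    simp
  | insert q T hq ih =>
    have hTp : ∀ p ∈ T, p.Prime := fun p hp => hT p (mem_insert_of_mem hp)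
    have hqp : q.Prime := hT q (mem_insert_self q T)
    have ih' := ih hTp fun p hp => hper p (mem_insert_of_mem hp)
    rw [prod_insert hq, prod_insert hq, ← ih']
    have hco : Nat.Coprime q (∏ p ∈ T, p) := by
      refine Nat.Coprime.prod_right fun p hp => ?_
      rw [Nat.coprime_primes hqp (hTp p hp)]
      rintro rfl
      exact hq hp
    have hd : 0 < ∏ p ∈ T, p := prod_pos fun p hp => (hTp p hp).pos
    have h2 := crt_two hqp.pos hd hco (f q) (fun x => ∏ p ∈ T, f p x)
      (hper q (mem_insert_self q T)) (by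
        intro x x' hx
        refine prod_congr rfl fun p hp => ?_
        refine hper p (mem_insert_of_mem hp) _ _ fun i => ?_
        refine dvd_trans ?_ (hx i)
        exact_mod_cast dvd_prod_of_mem (fun p => p) hp)
    have h3 : ∑ x ∈ Fintype.piFinset (fun _ : ι => range (q * ∏ p ∈ T, p)),
        ∏ p ∈ insert q T, f p (fun i => (x i : ℤ)) =
        ∑ x ∈ Fintype.piFinset (fun _ : ι => range (q * ∏ p ∈ T, p)),
        f q (fun i => (x i : ℤ)) * ∏ p ∈ T, f p (fun i => (x i : ℤ)) :=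
      sum_congr rfl fun x _ => prod_insert hq
    rw [h3, h2, Nat.cast_mul, mul_pow, mul_div_mul_comm]

end Pool.Agent.MRS
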