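import Pool.Agent.MRS.PSDefs

/-!
# MRS / PSDen: the local densities

PROOFS.  `p` prime, `p ∤ W`, `D = 2r + 1` = number of coordinates.
Conversion: a function `F` of `x : ι → ℤ` which is periodic modulo `p` in each coordinate has the same sum over `piFinset (range p)` and over
`x : ι → ZMod p` (through `ZMod.val`, or the bijection `x ↦ (x : ZMod p)`); so we count in `V = ι → ZMod p`, `|V| = p^D`.
(1) For every `ω`, `#{x ∈ V : W (cform ω x) + c = 0} = p^(D-1)`: for every `x` there is exactly one `t : ZMod p` such that `x + t e_none` is a solution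
(`W` is invertible), so `∑_t #{x : x + t e solution} = p^D` and all the terms are equal (translation is a bijection of `V`).
(2) For `ω ≠ ω'`, `#{x : both vanish} = p^(D-2)`: choose `i` with `ω i ≠ ω' i`, `e = e_none`, `e' = e_{(i, ω i)}`; `cform ω (x + t e + s e') = cform ω x + t + s`,
`cform ω' (x + t e + s e') = cform ω' x + t`; so for every `x` there is exactly one `(t, s)` such that both conditions hold; sum over `(t, s) ∈ (ZMod p)^2`.
`rho_le` (union bound) and `rho_ge` (Bonferroni): `∑_ω 1_ω - ∑_{pairs ω ≠ ω'} 1_ω 1_ω' ≤ 1[∃ ω ∈ S] ≤ ∑_{ω ∈ S} 1_ω` pointwise: if `m ≥ 1` of the conditions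
hold, then `m - m (m - 1) ≤ 1 ≤ m` (sum over ordered pairs, at most `|S|^2` of them); `m = 0` trivial.
Hence `|S|/p - |S|^2/p^2 ≤ rho ≤ |S|/p`.
-/

set_option autoImplicit false

namespace Pool.Agent.MRS

open Finset

section loc
variable {r : ℕ} {p : ℕ}

/-- the form over `ZMod p` -/
private def cz (ω : Fin r → Fin 2) (y : Option (Fin r × Fin 2) → ZMod p) : ZMod p :=
  y none + ∑ i, y (some (i, ω i))

private lemma cz_cast (ω : Fin r → Fin 2) (x : Option (Fin r × Fin 2) → ℤ) :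
    ((cform ω x : ℤ) : ZMod p) = cz ω (fun i => (x i : ZMod p)) := by
  unfold cform cz
  push_cast
  rfl

private lemma cz_none (ω : Fin r → Fin 2) (y : Option (Fin r × Fin 2) → ZMod p) (t : ZMod p) :
    cz ω (y + Pi.single none t) = cz ω y + t := by
  unfold cz
  simp only [Pi.add_apply, Pi.single_eq_same]
  have h : ∀ i : Fin r, (Pi.single none t : Option (Fin r × Fin 2) → ZMod p) (some (i, ω i)) = 0 := by
    intro i
    exact Pi.single_eq_of_ne (by simp) _
  simp only [h, add_zero]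
  ring

private lemma cz_some (ω ω' : Fin r → Fin 2) (y : Option (Fin r × Fin 2) → ZMod p) (s : ZMod p)
    (i : Fin r) : cz ω' (y + Pi.single (some (i, ω i)) s) =
      cz ω' y + (if ω' i = ω i then s else 0) := by
  unfold cz
  simp only [Pi.add_apply]
  have h0 : (Pi.single (some (i, ω i)) s : Option (Fin r × Fin 2) → ZMod p) none = 0 :=
    Pi.single_eq_of_ne (by simp) _
  rw [h0, sum_add_distrib, add_zero, add_assoc]
  congr 1
  congr 1
  rw [Finset.sum_eq_single i]
  · by_cases h : ω' i = ω i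
    · rw [if_pos h, h, Pi.single_eq_same]
    · rw [if_neg h]
      refine Pi.single_eq_of_ne ?_ _
      intro h2
      apply h
      simpa using h2
  · intro j _ hj
    refine Pi.single_eq_of_ne ?_ _
    intro h2
    apply hj
    simp only [Option.some.injEq, Prod.mk.injEq] at h2
    exact h2.1
  · intro h
    exact absurd (mem_univ i) h

private lemma shift_avg [NeZero p] {T : Type*} [Fintype T] (v : T → Option (Fin r × Fin 2) → ZMod p)
    (F : (Option (Fin r × Fin 2) → ZMod p) → ℝ) (h : ∀ x, ∑ t, F (x + v t) = 1) :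
    (Fintype.card T : ℝ) * ∑ x, F x = (p : ℝ) ^ (2 * r + 1) := by
  have h1 : ∑ t : T, ∑ x, F (x + v t) = (Fintype.card T : ℝ) * ∑ x, F x := by
    have h2 : ∀ t : T, ∑ x, F (x + v t) = ∑ x, F x := fun t =>
      Fintype.sum_equiv (Equiv.addRight (v t)) _ _ (fun x => rfl)
    simp only [h2]
    rw [sum_const, nsmul_eq_mul, card_univ]
  rw [← h1, sum_comm]
  simp only [h]
  rw [sum_const, nsmul_eq_mul, mul_one, card_univ, Fintype.card_fun, ZMod.card, Fintype.card_option,
    Fintype.card_prod, Fintype.card_fin, Fintype.card_fin]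
  push_cast
  congr 1
  ring

private lemma solve [Fact p.Prime] {W : ℕ} (hW : ¬ p ∣ W) (c : ℤ) (z t : ZMod p) :
    (W : ZMod p) * (z + t) + (c : ZMod p) = 0 ↔ t = -((c : ZMod p) / (W : ZMod p)) - z := by
  have hW' : (W : ZMod p) ≠ 0 := by
    rw [Ne, ZMod.natCast_eq_zero_iff]
    exact hW
  constructor
  · intro h
    have h2 : z + t = -((c : ZMod p) / (W : ZMod p)) := by
      field_simp
      linear_combination h
    linear_combination h2
  · intro h
    rw [h]
    field_simp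
    ring

/-- the indicator of a zero -/
private noncomputable def iz (W : ℕ) (c : ℤ) (ω : Fin r → Fin 2)
    (y : Option (Fin r × Fin 2) → ZMod p) : ℝ :=
  if (W : ZMod p) * cz ω y + (c : ZMod p) = 0 then 1 else 0

private lemma one_sum [Fact p.Prime] {W : ℕ} (hW : ¬ p ∣ W) (c : ℤ) (ω : Fin r → Fin 2) :
    ∑ y : Option (Fin r × Fin 2) → ZMod p, iz W c ω y = (p : ℝ) ^ (2 * r + 1) / p := by
  have hp0 : (p : ℝ) ≠ 0 := by exact_mod_cast (Fact.out : p.Prime).ne_zero
  have h := shift_avg (p := p) (T := ZMod p) (fun t => Pi.single none t)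
    (fun y => iz W c ω y) (by
      intro x
      unfold iz
      simp only [cz_none, solve hW]
      rw [sum_ite_eq' univ _ (fun _ => (1 : ℝ)), if_pos (mem_univ _)])
  rw [ZMod.card] at h
  rw [eq_div_iff hp0, ← h]
  ring

private lemma two_sum [Fact p.Prime] {W : ℕ} (hW : ¬ p ∣ W) (c : ℤ) {ω ω' : Fin r → Fin 2}
    (hne : ω ≠ ω') :
    ∑ y : Option (Fin r × Fin 2) → ZMod p, iz W c ω y * iz W c ω' y =
      (p : ℝ) ^ (2 * r + 1) / (p : ℝ) ^ 2 := by
  have hp0 : (p : ℝ) ≠ 0 := by exact_mod_cast (Fact.out : p.Prime).ne_zero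
  obtain ⟨i, hi⟩ : ∃ i, ω i ≠ ω' i := by
    by_contra hcon
    push Not at hcon
    exact hne (funext hcon)
  have h := shift_avg (p := p) (T := ZMod p × ZMod p)
    (fun t => Pi.single none t.1 + Pi.single (some (i, ω i)) t.2)
    (fun y => iz W c ω y * iz W c ω' y) (by
      intro x
      have e1 : ∀ t : ZMod p × ZMod p, iz W c ω (x + (Pi.single none t.1 +
          Pi.single (some (i, ω i)) t.2)) * iz W c ω' (x + (Pi.single none t.1 +
          Pi.single (some (i, ω i)) t.2)) =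
          (if t.2 = -((c : ZMod p) / (W : ZMod p)) - (cz ω x + t.1) then 1 else 0) *
          (if t.1 = -((c : ZMod p) / (W : ZMod p)) - cz ω' x then (1 : ℝ) else 0) := by
        intro t
        unfold iz
        have hc1 : (if ω i = ω i then t.2 else 0) = t.2 := if_pos rfl
        have hc2 : (if ω' i = ω i then t.2 else 0) = 0 := if_neg (fun h => hi h.symm)
        rw [← add_assoc, cz_some, cz_some, hc1, hc2, add_zero, cz_none, cz_none]
        simp only [solve hW]
      simp only [e1]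
      rw [Fintype.sum_prod_type]
      have e2 : ∀ t : ZMod p, ∑ s : ZMod p,
          (if s = -((c : ZMod p) / (W : ZMod p)) - (cz ω x + t) then (1 : ℝ) else 0) = 1 := by
        intro t
        rw [sum_ite_eq' univ _ (fun _ => (1 : ℝ)), if_pos (mem_univ _)]
      have e3 : ∀ t : ZMod p, ∑ s : ZMod p,
          (if s = -((c : ZMod p) / (W : ZMod p)) - (cz ω x + t) then (1 : ℝ) else 0) *
          (if t = -((c : ZMod p) / (W : ZMod p)) - cz ω' x then (1 : ℝ) else 0) =
          (if t = -((c : ZMod p) / (W : ZMod p)) - cz ω' x then (1 : ℝ) else 0) := by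
        intro t
        rw [← sum_mul, e2, one_mul]
      simp only [e3]
      rw [sum_ite_eq' univ _ (fun _ => (1 : ℝ)), if_pos (mem_univ _)])
  rw [Fintype.card_prod, ZMod.card] at h
  rw [eq_div_iff (pow_ne_zero 2 hp0), ← h]
  push_cast
  ring

private lemma iz_01 (W : ℕ) (c : ℤ) (ω : Fin r → Fin 2) (y : Option (Fin r × Fin 2) → ZMod p) :
    iz W c ω y = 0 ∨ iz W c ω y = 1 := by
  unfold iz
  split_ifs
  · exact Or.inr rfl
  · exact Or.inl rfl

open Classical in
/-- the event over `ZMod p` -/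
private noncomputable def evz (W : ℕ) (c : ℤ) (S : Finset (Fin r → Fin 2))
    (y : Option (Fin r × Fin 2) → ZMod p) : ℝ :=
  if ∃ ω ∈ S, (W : ZMod p) * cz ω y + (c : ZMod p) = 0 then 1 else 0

private lemma evz_le (W : ℕ) (c : ℤ) (S : Finset (Fin r → Fin 2))
    (y : Option (Fin r × Fin 2) → ZMod p) : evz W c S y ≤ ∑ ω ∈ S, iz W c ω y := by
  have h0 : ∀ ω ∈ S, 0 ≤ iz W c ω y := fun ω _ => by
    rcases iz_01 W c ω y with h | h <;> rw [h] <;> norm_num
  unfold evz
  split_ifs with h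
  · obtain ⟨ω, hω, h1⟩ := h
    have h2 : iz W c ω y = 1 := if_pos h1
    calc (1 : ℝ) = iz W c ω y := h2.symm
      _ ≤ ∑ ω ∈ S, iz W c ω y := single_le_sum h0 hω
  · exact sum_nonneg h0

private lemma evz_ge (W : ℕ) (c : ℤ) (S : Finset (Fin r → Fin 2))
    (y : Option (Fin r × Fin 2) → ZMod p) :
    2 * ∑ ω ∈ S, iz W c ω y - ∑ ω ∈ S, ∑ ω' ∈ S, iz W c ω y * iz W c ω' y ≤ evz W c S y := by
  rw [← sum_mul_sum]
  unfold evz
  split_ifs with h
  · nlinarith [sq_nonneg (∑ ω ∈ S, iz W c ω y - 1)]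
  · have h2 : ∑ ω ∈ S, iz W c ω y = 0 := by
      refine sum_eq_zero fun ω hω => ?_
      unfold iz
      rw [if_neg]
      intro h3
      exact h ⟨ω, hω, h3⟩
    rw [h2]
    norm_num

private lemma rho_eq [Fact p.Prime] (W : ℕ) (c : ℤ) (S : Finset (Fin r → Fin 2)) :
    rho W c S p = (∑ y : Option (Fin r × Fin 2) → ZMod p, evz W c S y) /
      (p : ℝ) ^ (2 * r + 1) := by
  have hp0 : 0 < p := (Fact.out : p.Prime).pos
  unfold rho
  congr 1
  refine Finset.sum_bij' (fun x _ => fun i => ((x i : ℕ) : ZMod p)) (fun y _ => fun i => (y i).val)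
    ?_ ?_ ?_ ?_ ?_
  · intro x _
    exact mem_univ _
  · intro y _
    rw [Fintype.mem_piFinset]
    intro i
    rw [mem_range]
    exact ZMod.val_lt _
  · intro x hx
    rw [Fintype.mem_piFinset] at hx
    funext i
    exact ZMod.val_cast_of_lt (mem_range.1 (hx i))
  · intro y _
    funext i
    exact ZMod.natCast_zmod_val _
  · intro x _
    unfold ev evz
    have e : ∀ ω : Fin r → Fin 2, ((p : ℤ) ∣ (W : ℤ) * cform ω (fun i => ((x i : ℕ) : ℤ)) + c ↔
        (W : ZMod p) * cz ω (fun i => ((x i : ℕ) : ZMod p)) + (c : ZMod p) = 0) := by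
      intro ω
      rw [← ZMod.intCast_zmod_eq_zero_iff_dvd]
      push_cast
      rw [cz_cast]
      push_cast
      rfl
    simp only [e]

end loc

theorem rho_nonneg {r : ℕ} (W : ℕ) (c : ℤ) (S : Finset (Fin r → Fin 2)) (p : ℕ) :
    0 ≤ rho W c S p := by
  unfold rho
  refine div_nonneg (sum_nonneg fun x _ => ?_) (by positivity)
  rcases ev_01 W c S p (fun i => (x i : ℤ)) with h | h <;> rw [h] <;> norm_num

theorem rho_le {r : ℕ} {W : ℕ} (c : ℤ) (S : Finset (Fin r → Fin 2)) {p : ℕ} (hp : p.Prime)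
    (hW : ¬ p ∣ W) : rho W c S p ≤ (S.card : ℝ) / p := by
  haveI : Fact p.Prime := ⟨hp⟩
  have hp0 : (0 : ℝ) < p := by exact_mod_cast hp.pos
  rw [rho_eq, div_le_iff₀ (by positivity)]
  calc ∑ y : Option (Fin r × Fin 2) → ZMod p, evz W c S y
      ≤ ∑ y : Option (Fin r × Fin 2) → ZMod p, ∑ ω ∈ S, iz W c ω y :=
        sum_le_sum fun y _ => evz_le W c S y
    _ = ∑ ω ∈ S, ∑ y : Option (Fin r × Fin 2) → ZMod p, iz W c ω y := sum_comm
    _ = (S.card : ℝ) * ((p : ℝ) ^ (2 * r + 1) / p) := by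
        simp only [one_sum hW c]
        rw [sum_const, nsmul_eq_mul]
    _ = (S.card : ℝ) / p * (p : ℝ) ^ (2 * r + 1) := by ring
    _ ≤ (S.card : ℝ) / p * (p : ℝ) ^ (2 * r + 1) := le_rfl

theorem rho_ge {r : ℕ} {W : ℕ} (c : ℤ) (S : Finset (Fin r → Fin 2)) {p : ℕ} (hp : p.Prime)
    (hW : ¬ p ∣ W) : (S.card : ℝ) / p - (S.card : ℝ) ^ 2 / (p : ℝ) ^ 2 ≤ rho W c S p := by
  haveI : Fact p.Prime := ⟨hp⟩
  have hp0 : (0 : ℝ) < p := by exact_mod_cast hp.pos
  rw [rho_eq, le_div_iff₀ (by positivity)]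
  set N1 : ℝ := (p : ℝ) ^ (2 * r + 1) / p with hN1
  set N2 : ℝ := (p : ℝ) ^ (2 * r + 1) / (p : ℝ) ^ 2 with hN2
  have hN1' : 0 ≤ N1 := by positivity
  have hN2' : 0 ≤ N2 := by positivity
  have hpair : ∀ ω ω' : Fin r → Fin 2,
      ∑ y : Option (Fin r × Fin 2) → ZMod p, iz W c ω y * iz W c ω' y ≤
        (if ω = ω' then N1 else 0) + N2 := by
    intro ω ω'
    by_cases h : ω = ω'
    · rw [if_pos h, ← h]
      have h2 : ∀ y : Option (Fin r × Fin 2) → ZMod p, iz W c ω y * iz W c ω y = iz W c ω y := by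
        intro y
        rcases iz_01 W c ω y with h | h <;> rw [h] <;> norm_num
      simp only [h2]
      rw [one_sum hW c ω]
      linarith
    · rw [if_neg h, two_sum hW c h]
      linarith
  have hsum : ∑ y : Option (Fin r × Fin 2) → ZMod p,
      ∑ ω ∈ S, ∑ ω' ∈ S, iz W c ω y * iz W c ω' y ≤ (S.card : ℝ) * N1 + (S.card : ℝ) ^ 2 * N2 := by
    rw [sum_comm]
    calc ∑ ω ∈ S, ∑ y : Option (Fin r × Fin 2) → ZMod p, ∑ ω' ∈ S, iz W c ω y * iz W c ω' y
        = ∑ ω ∈ S, ∑ ω' ∈ S, ∑ y : Option (Fin r × Fin 2) → ZMod p,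
            iz W c ω y * iz W c ω' y := by
          refine sum_congr rfl fun ω _ => sum_comm
      _ ≤ ∑ ω ∈ S, ∑ ω' ∈ S, ((if ω = ω' then N1 else 0) + N2) :=
          sum_le_sum fun ω _ => sum_le_sum fun ω' _ => hpair ω ω'
      _ = ∑ ω ∈ S, (N1 + (S.card : ℝ) * N2) := by
          refine sum_congr rfl fun ω hω => ?_
          rw [sum_add_distrib, sum_ite_eq, if_pos hω, sum_const, nsmul_eq_mul]
      _ = (S.card : ℝ) * N1 + (S.card : ℝ) ^ 2 * N2 := by
          rw [sum_const, nsmul_eq_mul]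
          ring
  have hone : ∑ y : Option (Fin r × Fin 2) → ZMod p, 2 * ∑ ω ∈ S, iz W c ω y =
      2 * ((S.card : ℝ) * N1) := by
    rw [← mul_sum, sum_comm]
    simp only [one_sum hW c]
    rw [sum_const, nsmul_eq_mul]
  have hev : ∑ y : Option (Fin r × Fin 2) → ZMod p, (2 * ∑ ω ∈ S, iz W c ω y -
      ∑ ω ∈ S, ∑ ω' ∈ S, iz W c ω y * iz W c ω' y) ≤
      ∑ y : Option (Fin r × Fin 2) → ZMod p, evz W c S y := sum_le_sum fun y _ => evz_ge W c S y
  rw [sum_sub_distrib, hone] at hev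
  have hfin : ((S.card : ℝ) / p - (S.card : ℝ) ^ 2 / (p : ℝ) ^ 2) * (p : ℝ) ^ (2 * r + 1) =
      (S.card : ℝ) * N1 - (S.card : ℝ) ^ 2 * N2 := by
    rw [hN1, hN2]
    ring
  rw [hfin]
  linarith

end Pool.Agent.MRS
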