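import Pool.Agent.MRS.PSAbs
import Pool.Agent.MRS.PSBox
import Pool.Agent.MRS.PSCrt
import Pool.Agent.MRS.PSDen
import Pool.Agent.MRS.PSCmp

/-!
# MRS / PSCube: cube correlations of the normalised rough indicator

PROOF of `cube_box`.  `σ = |S| ≤ 2^r`, `D = 2r + 1`.  `∏_{ω ∈ S} 1[∀ p ∈ PZ, p ∤ W cform ω x + c] = ∏_{p ∈ PZ z W} (1 - ev W c S p x)`.  Apply `bh_abs` with
`s` = the box, `x k p = ev W c S p (y + k)`, `g = rho W c S`, `t = σ`, `M = L H^(2r)` = the number of points of the box: `hg` from `rho_nonneg`, `rho_le`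
(`σ/p ≤ 1/2` since `p > w ≥ 2 · 2^r`).  `hE`: let `T ⊆ PZ z W`, `d = ∏_{p ∈ T} p ≤ z^(4b+5)`; `box_equi` for `F = ∏_{p ∈ T} ev W c S p` (periodic modulo `d` by `ev_per`, values in `[0,1]`) and
`crt_prod`: `|∑_k F(y + k) - M ∏_{p ∈ T} rho p| ≤ ∏ (N_i + d) - ∏ N_i ≤ M ((1 + u)^D - 1) ≤ M D 2^D u`, `u = d/min(L,H) ≤ z^(4b+5) z^(-C b) ≤ 1`.
So with `δ = M D 2^D z^(4b+5-Cb)`: error `z^(4b+8) δ ≤ M D 2^D z^(8b+13-Cb)`.  Divide by `VV^σ ≥ z^(-σ)` (`VV_ge`): `C ≥ 22 + 2^r` gives `z^(8b+13-Cb+σ) ≤ z^(-b) ≤ 2^(-b)`.  Main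
terms: `prod_cmp` with `g = rho` (`rho_ge`, `rho_le`): `|∏ (1 - rho)/VV^σ - 1| ≤ C'/w`, `C' = 2 · 4^r exp (2^r)`; the relative error `CB σ 2^(-b)` times `∏ (1 - rho)/VV^σ ≤ 1 + C'`
(`CB` is monotone).  Everything `≤ C (2^(-b) + 1/w) M` for `C` a natural number depending only on `r`.
-/

set_option autoImplicit false

namespace Pool.Agent.MRS

open Finset

open Pool.Agent.RHN (PZ VV)

/-- side lengths of the box -/
def bsd {r : ℕ} (L H : ℕ) : Option (Fin r × Fin 2) → ℕ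
  | none => L
  | some _ => H

private theorem pz_mem_h75 {z W p : ℕ} (h : p ∈ PZ z W) : p.Prime ∧ ¬ p ∣ W := by
  unfold Pool.Agent.RHN.PZ at h
  exact (mem_filter.1 h).2

private theorem prod_ind_h75 {r : ℕ} (z W : ℕ) (c : ℤ) (S : Finset (Fin r → Fin 2))
    (x : Option (Fin r × Fin 2) → ℤ) :
    ∏ ω ∈ S, nu z W c (cform ω x) =
      (∏ p ∈ PZ z W, (1 - ev W c S p x)) / VV z W ^ S.card := by
  unfold nu
  rw [prod_div_distrib, prod_const]
  congr 1
  by_cases h : ∀ ω ∈ S, ∀ p ∈ PZ z W, ¬ (p : ℤ) ∣ (W : ℤ) * cform ω x + c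
  · rw [prod_eq_one, prod_eq_one]
    · intro p hp
      unfold ev
      rw [if_neg]
      · ring
      · rintro ⟨ω, hω, hd⟩
        exact h ω hω p hp hd
    · intro ω hω
      rw [if_pos (h ω hω)]
  · push Not at h
    obtain ⟨ω, hω, p, hp, hd⟩ := h
    rw [prod_eq_zero hω, prod_eq_zero hp]
    · unfold ev
      rw [if_pos ⟨ω, hω, hd⟩]
      ring
    · rw [if_neg]
      intro h'
      exact h' p hp hd

private theorem card_ix_h75 (r : ℕ) : Fintype.card (Option (Fin r × Fin 2)) = 2 * r + 1 := by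
  rw [Fintype.card_option, Fintype.card_prod, Fintype.card_fin, Fintype.card_fin, mul_comm]

private theorem prod_bsd_h75 {r : ℕ} (L H : ℕ) :
    ∏ i : Option (Fin r × Fin 2), ((bsd L H i : ℕ) : ℝ) = (L : ℝ) * (H : ℝ) ^ (2 * r) := by
  rw [Fintype.prod_option]
  simp only [bsd, prod_const, card_univ, Fintype.card_prod, Fintype.card_fin]
  rw [mul_comm r 2]

private theorem pow_one_add_h75 {u : ℝ} (h0 : 0 ≤ u) (h1 : u ≤ 1) (D : ℕ) :
    (1 + u) ^ D ≤ 1 + (2 ^ D - 1) * u := by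
  induction D with
  | zero => simp
  | succ D ih =>
    have h2 : (1 : ℝ) ≤ 2 ^ D := one_le_pow₀ (by norm_num)
    have h3 : (1 + u) ^ (D + 1) ≤ (1 + (2 ^ D - 1) * u) * (1 + u) := by
      rw [pow_succ]
      exact mul_le_mul_of_nonneg_right ih (by linarith)
    have h4 : (2 ^ D - 1 : ℝ) * u * u ≤ (2 ^ D - 1) * u := by
      have h5 : 0 ≤ (2 ^ D - 1 : ℝ) * u := mul_nonneg (by linarith) h0
      nlinarith
    rw [pow_succ 2 D]
    nlinarith

private theorem prod_add_h75 {ι : Type*} [Fintype ι] (N : ι → ℕ) {d m : ℝ} (hd : 0 ≤ d)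
    (hm : 0 < m) (hN : ∀ i, m ≤ (N i : ℝ)) (hdm : d ≤ m) :
    ∏ i, ((N i : ℝ) + d) - ∏ i, (N i : ℝ) ≤
      (∏ i, (N i : ℝ)) * (2 ^ Fintype.card ι * (d / m)) := by
  have h1 : ∏ i, ((N i : ℝ) + d) ≤ ∏ i, ((N i : ℝ) * (1 + d / m)) := by
    refine prod_le_prod (fun i _ => by positivity) fun i _ => ?_
    have h2 : d ≤ (N i : ℝ) * (d / m) := by
      rw [mul_div_assoc', le_div_iff₀ hm, mul_comm]
      exact mul_le_mul_of_nonneg_right (hN i) hd
    nlinarith
  rw [prod_mul_distrib, prod_const, card_univ] at h1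
  have h3 : 0 ≤ d / m := div_nonneg hd hm.le
  have h4 := pow_one_add_h75 h3 ((div_le_one hm).2 hdm) (Fintype.card ι)
  have h5 : 0 ≤ ∏ i, (N i : ℝ) := prod_nonneg fun i _ => Nat.cast_nonneg _
  have h6 := mul_le_mul_of_nonneg_left h4 h5
  have h7 : 0 ≤ (∏ i, (N i : ℝ)) * (d / m) := mul_nonneg h5 h3
  nlinarith

private theorem CB_mono_h75 {s t : ℝ} (h : s ≤ t) : CB s ≤ CB t := by
  unfold CB
  have h1 : Real.exp (40 * s) ≤ Real.exp (40 * t) := Real.exp_le_exp.2 (by linarith)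
  exact mul_le_mul h1 (Real.exp_le_exp.2 h1) (Real.exp_pos _).le (Real.exp_pos _).le

private theorem CB_pos_h75 (t : ℝ) : 0 < CB t := by
  unfold CB
  positivity

theorem cube_box (r : ℕ) : ∃ C : ℕ, 1 ≤ C ∧ ∀ (z b w W L H : ℕ) (c : ℤ)
    (y : Option (Fin r × Fin 2) → ℤ) (S : Finset (Fin r → Fin 2)), 2 ≤ z → 1 ≤ b →
    2 ^ (r + 1) ≤ w → (∀ p : ℕ, p.Prime → p ≤ w → p ∣ W) → z ^ (C * b) ≤ L → z ^ (C * b) ≤ H →
    |∑ k ∈ Fintype.piFinset (fun i => range (bsd L H i)),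
        ∏ ω ∈ S, nu z W c (cform ω (fun i => y i + (k i : ℤ))) - (L : ℝ) * (H : ℝ) ^ (2 * r)| ≤
      C * ((1 / 2 : ℝ) ^ b + 1 / w) * ((L : ℝ) * (H : ℝ) ^ (2 * r)) := by
  classical
  set K1 : ℝ := 2 * ((2 : ℝ) ^ r) ^ 2 * Real.exp ((2 : ℝ) ^ r) with hK1
  have hK1p : 0 < K1 := by positivity
  set K2 : ℝ := CB ((2 : ℝ) ^ r) * (1 + K1) + 2 ^ (2 * r + 1) with hK2
  have hK2p : 0 < K2 := by
    have := CB_pos_h75 ((2 : ℝ) ^ r)
    positivity
  set C : ℕ := ⌈K2 + K1⌉₊ + (22 + 2 ^ r) with hC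
  have hCge : K2 + K1 ≤ (C : ℝ) := by
    have h1 := Nat.le_ceil (K2 + K1)
    rw [hC]
    push_cast
    have h2 : (0 : ℝ) ≤ 2 ^ r := by positivity
    linarith
  have hC2 : 22 + 2 ^ r ≤ C := by omega
  have hC1 : 1 ≤ C := le_trans (le_trans (by norm_num) (Nat.le_add_right 22 (2 ^ r))) hC2
  refine ⟨C, hC1, ?_⟩
  intro z b w W L H c y S hz hb hw hW hL hH
  have hσ : S.card ≤ 2 ^ r := by
    have h1 := card_le_univ S
    rwa [Fintype.card_fun, Fintype.card_fin, Fintype.card_fin] at h1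
  have hσR : (S.card : ℝ) ≤ (2 : ℝ) ^ r := by exact_mod_cast hσ
  have hw1 : 1 ≤ w := le_trans (Nat.one_le_two_pow) hw
  have hwR : (1 : ℝ) ≤ (w : ℝ) := by exact_mod_cast hw1
  have hzR : (2 : ℝ) ≤ (z : ℝ) := by exact_mod_cast hz
  have hpw : ∀ p ∈ PZ z W, w < p := by
    intro p hp
    obtain ⟨hp1, hp2⟩ := pz_mem_h75 hp
    by_contra hlt
    exact hp2 (hW p hp1 (not_lt.1 hlt))
  set M : ℝ := (L : ℝ) * (H : ℝ) ^ (2 * r) with hM
  have hM0 : 0 ≤ M := by positivity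
  set u : ℝ := (z : ℝ) ^ (4 * b + 5) / (z : ℝ) ^ (C * b) with hu
  have hu0 : 0 ≤ u := by positivity
  set δ : ℝ := M * (2 ^ (2 * r + 1) * u) with hδ
  have hδ0 : 0 ≤ δ := by positivity
  have hCb : 9 * b + 13 + S.card ≤ C * b := by
    have h1 : (22 + 2 ^ r) * b ≤ C * b := Nat.mul_le_mul_right b hC2
    have h2 : 2 ^ r ≤ 2 ^ r * b := Nat.le_mul_of_pos_right _ hb
    nlinarith
  -- the sieve
  have hmain := bh_abs (Fintype.piFinset (fun i => range (bsd L H i)))
    (fun k p => ev W c S p (fun i => y i + (k i : ℤ))) (fun k p => ev_01 W c S p _)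
    (z := z) (q := W) (b := b) hz (t := (S.card : ℝ)) (Nat.cast_nonneg _) (g := rho W c S)
    (by
      intro p hp
      obtain ⟨hp1, hp2⟩ := pz_mem_h75 hp
      refine ⟨rho_nonneg _ _ _ _, rho_le c S hp1 hp2, (rho_le c S hp1 hp2).trans ?_⟩
      have h1 : (w : ℝ) < p := by exact_mod_cast hpw p hp
      have h2 : (2 : ℝ) ^ (r + 1) ≤ w := by exact_mod_cast hw
      rw [pow_succ] at h2
      rw [div_le_iff₀ (by linarith)]
      linarith) hM0 hδ0
    (by
      intro T hT hTd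
      have hTp : ∀ p ∈ T, p.Prime := fun p hp => (pz_mem_h75 (hT hp)).1
      have hd1 : 1 ≤ ∏ p ∈ T, p := Nat.one_le_iff_ne_zero.2
        (prod_ne_zero_iff.2 fun p hp => (hTp p hp).ne_zero)
      have h1 := box_equi (fun i : Option (Fin r × Fin 2) => bsd L H i) y hd1
        (fun x => ∏ p ∈ T, ev W c S p x)
        (by
          intro x
          constructor
          · refine prod_nonneg fun p _ => ?_
            rcases ev_01 W c S p x with h | h <;> rw [h]
            norm_num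
          · refine prod_le_one (fun p _ => ?_) fun p _ => ?_
            · rcases ev_01 W c S p x with h | h <;> rw [h]
              norm_num
            · rcases ev_01 W c S p x with h | h <;> rw [h]
              norm_num)
        (by
          intro x x' hx
          refine prod_congr rfl fun p hp => ev_per W c S p x x' fun i => ?_
          exact (Int.natCast_dvd_natCast.2 (dvd_prod_of_mem (fun p => p) hp)).trans (hx i))
      rw [crt_prod T hTp (fun p x => ev W c S p x) (fun p _ x x' h => ev_per W c S p x x' h),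
        prod_bsd_h75] at h1
      have h2 : ∏ p ∈ T, ((∑ x ∈ Fintype.piFinset (fun _ : Option (Fin r × Fin 2) => range p),
          ev W c S p (fun i => (x i : ℤ))) / (p : ℝ) ^ Fintype.card (Option (Fin r × Fin 2))) =
          ∏ p ∈ T, rho W c S p := by
        refine prod_congr rfl fun p _ => ?_
        unfold rho
        rw [card_ix_h75]
      rw [h2] at h1
      refine h1.trans ?_
      have hd2 : ((∏ p ∈ T, p : ℕ) : ℝ) ≤ (z : ℝ) ^ (4 * b + 5) := by exact_mod_cast hTd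
      have h3 : (z : ℝ) ^ (4 * b + 5) ≤ (z : ℝ) ^ (C * b) :=
        pow_le_pow_right₀ (by linarith) (by omega)
      have h4 := prod_add_h75 (fun i : Option (Fin r × Fin 2) => bsd L H i)
        (d := ((∏ p ∈ T, p : ℕ) : ℝ)) (m := (z : ℝ) ^ (C * b)) (Nat.cast_nonneg _) (by positivity)
        (by
          intro i
          cases i with
          | none =>
            change (z : ℝ) ^ (C * b) ≤ (L : ℝ)
            exact_mod_cast hL
          | some j =>
            change (z : ℝ) ^ (C * b) ≤ (H : ℝ)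
            exact_mod_cast hH) (hd2.trans h3)
      rw [prod_bsd_h75, card_ix_h75] at h4
      refine h4.trans ?_
      rw [hδ]
      refine mul_le_mul_of_nonneg_left ?_ hM0
      refine mul_le_mul_of_nonneg_left ?_ (by positivity)
      exact div_le_div_of_nonneg_right hd2 (by positivity))
  set P : ℝ := ∏ p ∈ PZ z W, (1 - rho W c S p) with hP
  set V : ℝ := VV z W with hV
  have hVge : 1 / (z : ℝ) ≤ V := VV_ge (by omega)
  have hV0 : 0 < V := lt_of_lt_of_le (by positivity) hVge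
  have hcmp := prod_cmp (z := z) (w := w) (W := W) (σ := S.card) hw1
    (by
      have : 2 ^ (r + 1) = 2 * 2 ^ r := by ring
      omega) hW (g := rho W c S) (by
      intro p hp
      obtain ⟨hp1, hp2⟩ := pz_mem_h75 hp
      exact ⟨rho_ge c S hp1 hp2, rho_le c S hp1 hp2⟩)
  rw [← hP, ← hV] at hcmp
  have hVs : 0 < V ^ S.card := pow_pos hV0 _
  have hK1' : 2 * (S.card : ℝ) ^ 2 * Real.exp S.card / w ≤ K1 / w := by
    refine div_le_div_of_nonneg_right ?_ (by linarith)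
    rw [hK1]
    have h1 : (S.card : ℝ) ^ 2 ≤ ((2 : ℝ) ^ r) ^ 2 := pow_le_pow_left₀ (Nat.cast_nonneg _) hσR 2
    have h2 : Real.exp (S.card : ℝ) ≤ Real.exp ((2 : ℝ) ^ r) := Real.exp_le_exp.2 hσR
    exact mul_le_mul (by linarith) h2 (Real.exp_pos _).le (by positivity)
  have hcmp2 : |P / V ^ S.card - 1| ≤ K1 / w := by
    have h1 : P / V ^ S.card - 1 = (P - V ^ S.card) / V ^ S.card := by
      field_simp
    rw [h1, abs_div, abs_of_pos hVs, div_le_iff₀ hVs]
    exact hcmp.trans (mul_le_mul_of_nonneg_right hK1' hVs.le)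
  have hPV : P / V ^ S.card ≤ 1 + K1 := by
    have h1 : K1 / w ≤ K1 := div_le_self hK1p.le hwR
    have h2 := (abs_le.1 hcmp2).2
    linarith
  -- the sum
  have hsum : ∑ k ∈ Fintype.piFinset (fun i => range (bsd L H i)),
      ∏ ω ∈ S, nu z W c (cform ω (fun i => y i + (k i : ℤ))) =
      (∑ k ∈ Fintype.piFinset (fun i => range (bsd L H i)),
        ∏ p ∈ PZ z W, (1 - ev W c S p (fun i => y i + (k i : ℤ)))) / V ^ S.card := by
    rw [sum_div]
    exact sum_congr rfl fun k _ => prod_ind_h75 z W c S _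
  rw [hsum]
  set A : ℝ := ∑ k ∈ Fintype.piFinset (fun i => range (bsd L H i)),
        ∏ p ∈ PZ z W, (1 - ev W c S p (fun i => y i + (k i : ℤ))) with hA
  have e1 : A / V ^ S.card - M = (A - M * P) / V ^ S.card + M * (P / V ^ S.card - 1) := by
    field_simp
    ring
  have h1 : |(A - M * P) / V ^ S.card| ≤
      CB S.card * (1 / 2) ^ b * (M * (P / V ^ S.card)) +
        (z : ℝ) ^ (4 * b + 8) * δ / V ^ S.card := by
    rw [abs_div, abs_of_pos hVs, div_le_iff₀ hVs]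
    refine hmain.trans (le_of_eq ?_)
    field_simp
  have h2 : |M * (P / V ^ S.card - 1)| ≤ M * (K1 / w) := by
    rw [abs_mul, abs_of_nonneg hM0]
    exact mul_le_mul_of_nonneg_left hcmp2 hM0
  have h3 : CB S.card * (1 / 2) ^ b * (M * (P / V ^ S.card)) ≤
      CB ((2 : ℝ) ^ r) * (1 + K1) * ((1 / 2) ^ b * M) := by
    have h4 : CB S.card * (M * (P / V ^ S.card)) ≤ CB ((2 : ℝ) ^ r) * (M * (1 + K1)) := by
      have h6 := CB_pos_h75 (S.card : ℝ)
      have h7 : M * (P / V ^ S.card) ≤ M * (1 + K1) := mul_le_mul_of_nonneg_left hPV hM0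
      exact (mul_le_mul_of_nonneg_left h7 h6.le).trans
        (mul_le_mul_of_nonneg_right (CB_mono_h75 hσR) (by positivity))
    have h5 : (0 : ℝ) ≤ (1 / 2) ^ b := by positivity
    nlinarith
  have h4 : (z : ℝ) ^ (4 * b + 8) * δ / V ^ S.card ≤ 2 ^ (2 * r + 1) * ((1 / 2) ^ b * M) := by
    have hz0 : (0 : ℝ) < z := by linarith
    have h5 : 1 / V ^ S.card ≤ (z : ℝ) ^ S.card := by
      rw [div_le_iff₀ hVs, ← mul_pow]
      refine one_le_pow₀ ?_
      rw [div_le_iff₀ hz0] at hVge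
      linarith
    have h6 : (z : ℝ) ^ (4 * b + 8) * (z : ℝ) ^ (4 * b + 5) * (z : ℝ) ^ S.card /
        (z : ℝ) ^ (C * b) ≤ (1 / 2) ^ b := by
      have h7 : (2 : ℝ) ^ b ≤ (z : ℝ) ^ b := pow_le_pow_left₀ (by norm_num) hzR b
      have h8 : (z : ℝ) ^ (4 * b + 8) * (z : ℝ) ^ (4 * b + 5) * (z : ℝ) ^ S.card * (z : ℝ) ^ b ≤
          (z : ℝ) ^ (C * b) := by
        rw [← pow_add, ← pow_add, ← pow_add]
        exact pow_le_pow_right₀ (by linarith) (by omega)
      rw [div_le_iff₀ (by positivity), one_div, inv_pow, inv_mul_eq_div, le_div_iff₀ (by positivity)]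
      refine le_trans ?_ h8
      exact mul_le_mul_of_nonneg_left h7 (by positivity)
    have e2 : (z : ℝ) ^ (4 * b + 8) * δ / V ^ S.card = (2 ^ (2 * r + 1) * M) *
        ((z : ℝ) ^ (4 * b + 8) * (z : ℝ) ^ (4 * b + 5) * (1 / V ^ S.card) /
          (z : ℝ) ^ (C * b)) := by
      rw [hδ, hu]
      field_simp
    rw [e2]
    have h9 : (z : ℝ) ^ (4 * b + 8) * (z : ℝ) ^ (4 * b + 5) * (1 / V ^ S.card) /
        (z : ℝ) ^ (C * b) ≤ (z : ℝ) ^ (4 * b + 8) * (z : ℝ) ^ (4 * b + 5) * (z : ℝ) ^ S.card /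
        (z : ℝ) ^ (C * b) :=
      div_le_div_of_nonneg_right (mul_le_mul_of_nonneg_left h5 (by positivity)) (by positivity)
    have h10 := mul_le_mul_of_nonneg_left (h9.trans h6)
      (show (0 : ℝ) ≤ 2 ^ (2 * r + 1) * M by positivity)
    refine h10.trans (le_of_eq ?_)
    ring
  calc |A / V ^ S.card - M| ≤ |(A - M * P) / V ^ S.card| + |M * (P / V ^ S.card - 1)| := by
        rw [e1]
        exact abs_add_le _ _
    _ ≤ K2 * ((1 / 2) ^ b * M) + K1 * (1 / w * M) := by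
        rw [hK2]
        have : M * (K1 / w) = K1 * (1 / w * M) := by ring
        nlinarith
    _ ≤ C * ((1 / 2 : ℝ) ^ b + 1 / w) * M := by
        have h5 : (0 : ℝ) ≤ (1 / 2) ^ b * M := by positivity
        have h6 : (0 : ℝ) ≤ 1 / w * M := by positivity
        have h7 : K2 * ((1 / 2) ^ b * M) ≤ C * ((1 / 2) ^ b * M) :=
          mul_le_mul_of_nonneg_right (by linarith) h5
        have h8 : K1 * (1 / w * M) ≤ C * (1 / w * M) :=
          mul_le_mul_of_nonneg_right (by linarith) h6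
        nlinarith

end Pool.Agent.MRS
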