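import Pool.Agent.RHN.SFl
import Pool.Agent.MRS.PNu

/-!
# MRS / PSDefs: the sieve side of the prime part, definitions

`PZ z W` (from `RHN.SDefs`) = primes `≤ z` not dividing `W`.  `VV z W = ∏_{p ∈ PZ z W} (1 - 1/p)`.
`nu z W c n` (file `PNu`) = normalised indicator of `W n + c` having no prime factor in `PZ z W`.
Cube variables: `x none` is `n`, `x (some (i, e))` is `h_i^e`, `i < r`, `e < 2`.
-/

set_option autoImplicit false

namespace Pool.Agent.MRS

open Finset

open Pool.Agent.RHN (PZ VV)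

/-- the form `n + ∑ i, h_i^{ω_i}` -/
def cform {r : ℕ} (ω : Fin r → Fin 2) (x : Option (Fin r × Fin 2) → ℤ) : ℤ :=
  x none + ∑ i, x (some (i, ω i))

open Classical in
/-- indicator of the event that `p` divides one of the values `W * cform ω x + c`, `ω ∈ S` -/
noncomputable def ev {r : ℕ} (W : ℕ) (c : ℤ) (S : Finset (Fin r → Fin 2)) (p : ℕ)
    (x : Option (Fin r × Fin 2) → ℤ) : ℝ :=
  if ∃ ω ∈ S, (p : ℤ) ∣ (W : ℤ) * cform ω x + c then 1 else 0

/-- the density of the event `ev` -/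
noncomputable def rho {r : ℕ} (W : ℕ) (c : ℤ) (S : Finset (Fin r → Fin 2)) (p : ℕ) : ℝ :=
  (∑ x ∈ Fintype.piFinset (fun _ : Option (Fin r × Fin 2) => range p),
    ev W c S p (fun i => (x i : ℤ))) / (p : ℝ) ^ (2 * r + 1)

theorem ev_01 {r : ℕ} (W : ℕ) (c : ℤ) (S : Finset (Fin r → Fin 2)) (p : ℕ)
    (x : Option (Fin r × Fin 2) → ℤ) : ev W c S p x = 0 ∨ ev W c S p x = 1 := by
  unfold ev
  split_ifs
  · right; rfl
  · left; rfl

theorem ev_per {r : ℕ} (W : ℕ) (c : ℤ) (S : Finset (Fin r → Fin 2)) (p : ℕ)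
    (x x' : Option (Fin r × Fin 2) → ℤ) (h : ∀ i, (p : ℤ) ∣ x i - x' i) :
    ev W c S p x = ev W c S p x' := by
  have h1 : ∀ ω : Fin r → Fin 2, (p : ℤ) ∣ (W : ℤ) * cform ω x + c ↔
      (p : ℤ) ∣ (W : ℤ) * cform ω x' + c := by
    intro ω
    have h2 : (p : ℤ) ∣ cform ω x - cform ω x' := by
      unfold cform
      have h3 : x none + ∑ i, x (some (i, ω i)) - (x' none + ∑ i, x' (some (i, ω i))) =
          (x none - x' none) + ∑ i, (x (some (i, ω i)) - x' (some (i, ω i))) := by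
        rw [sum_sub_distrib]
        ring
      rw [h3]
      exact dvd_add (h _) (dvd_sum fun i _ => h _)
    have h4 : (W : ℤ) * cform ω x + c = (W : ℤ) * (cform ω x - cform ω x') +
        ((W : ℤ) * cform ω x' + c) := by ring
    rw [h4]
    exact (Int.dvd_add_right (h2.mul_left _))
  unfold ev
  simp only [h1]

end Pool.Agent.MRS
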