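import Pool.Agent.MRS.PSDefs

/-!
# MRS / PSMain: main terms of the Brun-Hooley sieve for a density `g p ≤ t / p`

Everything is the text of `RHN/SBlk.lean` (`prod_block`, `esy_block`) and `RHN/SIneq.lean` (`si_bonf`, `si_prod`, `si_E`, `si_geo`, `si_sum`,
`si_upexp`, `si_S`, `main_up`, `main_lo`) with `xp p = 1/p` replaced by a function `g` with `0 ≤ g p ≤ t xp p`, `g p ≤ 1/2` on `PZ z q`, and `40`
replaced by `40 t`; copy these proofs.

PROOFS.  Every `p ∈ AA z q j` lies in `PZ z q` (`Y z j ≤ z` as `Y z` is antitone (`Y_anti`), `Y z 0 = z`; `p` is a prime).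
`g_sum_block`: `∑_{p ∈ AA} g p ≤ t ∑_{p ∈ AA} xp p ≤ 10 t` (`sum_block`).
`g_prod_block`: `1 - x ≥ exp (-2x)` for `0 ≤ x ≤ 1/2` (proof in `RHN.prod_block`), so `∏ (1 - g p) ≥ exp (-2 ∑ g) ≥ exp (-20 t)`.
`g_esy_block`: `Helper27.IS.esy_le_single` with `l = 2`: `2^r esy ≤ exp (2 ∑ g) ≤ exp (20 t)`.
`g_main_up`, `g_main_lo`: `M_j = alt (AA z q j) g (bb b j)`, `V_j = ∏_{AA} (1 - g p) ≥ exp (-20 t)`, `E_j = esy (AA z q j) g (bb b j + 1) ≤
exp (20 t)/2^{2(b+j)+1}`, `V_j ≤ M_j ≤ V_j + E_j ≤ V_j (1 + η_j)`, `η_j = exp (40 t) 2^{-2b-2j-1}`, `∑_j η_j ≤ exp (40 t) 4^{-b}`;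
`∏_{j<z} V_j = ∏_{p ∈ PZ z q} (1 - g p)` (`PZ_eq`, `AA_disj`).
-/

set_option autoImplicit false

namespace Pool.Agent.MRS

open Finset

open Pool.Agent.RHN (PZ VV AA AD AL Up Lo bb)

open Pool.Agent.Helper27.IS (esy alt)

/-- the constant -/
noncomputable def CB (t : ℝ) : ℝ := Real.exp (40 * t) * Real.exp (Real.exp (40 * t))

private theorem gm_mem {z q j p : ℕ} (hp : p ∈ AA z q j) : p ∈ PZ z q := by
  have h := Pool.Agent.RHN.AA_mem hp
  unfold PZ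
  rw [mem_filter, mem_Icc]
  refine ⟨⟨h.1.one_le, h.2.1.trans ?_⟩, h.1, h.2.2⟩
  exact Pool.Agent.RHN.Y_anti z (Nat.zero_le j)

theorem g_sum_block {z q : ℕ} {t : ℝ} (ht : 0 ≤ t) {g : ℕ → ℝ}
    (hg : ∀ p ∈ PZ z q, 0 ≤ g p ∧ g p ≤ t / p ∧ g p ≤ 1 / 2) (j : ℕ) :
    ∑ p ∈ AA z q j, g p ≤ 10 * t := by
  have h1 : ∑ p ∈ AA z q j, g p ≤ ∑ p ∈ AA z q j, t * Pool.Agent.RHN.xp p := by
    refine sum_le_sum fun p hp => ?_
    have h2 := (hg p (gm_mem hp)).2.1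
    unfold Pool.Agent.RHN.xp
    rw [mul_one_div]
    exact h2
  rw [← mul_sum] at h1
  have h3 := mul_le_mul_of_nonneg_left (Pool.Agent.RHN.sum_block z q j) ht
  linarith

theorem g_prod_block {z q : ℕ} {t : ℝ} (ht : 0 ≤ t) {g : ℕ → ℝ}
    (hg : ∀ p ∈ PZ z q, 0 ≤ g p ∧ g p ≤ t / p ∧ g p ≤ 1 / 2) (j : ℕ) :
    Real.exp (-(20 * t)) ≤ ∏ p ∈ AA z q j, (1 - g p) := by
  have h1 : ∏ p ∈ AA z q j, Real.exp (-(2 * g p)) ≤ ∏ p ∈ AA z q j, (1 - g p) := by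
    apply prod_le_prod
    · intro p _
      exact (Real.exp_pos _).le
    · intro p hp
      obtain ⟨h4, -, h5⟩ := hg p (gm_mem hp)
      rw [Real.exp_neg]
      have h6 : 2 * g p + 1 ≤ Real.exp (2 * g p) := Real.add_one_le_exp _
      have h7 : 0 < Real.exp (2 * g p) := Real.exp_pos _
      rw [inv_le_iff_one_le_mul₀ h7]
      have h8 : 0 ≤ g p * (1 - 2 * g p) := mul_nonneg h4 (by linarith)
      have h9 : (1 - g p) * (2 * g p + 1) ≤ (1 - g p) * Real.exp (2 * g p) :=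
        mul_le_mul_of_nonneg_left h6 (by linarith)
      linarith
  refine le_trans ?_ h1
  rw [← Real.exp_sum, sum_neg_distrib, ← mul_sum]
  apply Real.exp_le_exp.2
  have := g_sum_block ht hg j
  linarith

theorem g_esy_block {z q : ℕ} {t : ℝ} (ht : 0 ≤ t) {g : ℕ → ℝ}
    (hg : ∀ p ∈ PZ z q, 0 ≤ g p ∧ g p ≤ t / p ∧ g p ≤ 1 / 2) (j r : ℕ) :
    esy (AA z q j) g r ≤ Real.exp (20 * t) / 2 ^ r := by
  rw [le_div_iff₀ (by positivity), mul_comm]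
  refine (Pool.Agent.Helper27.IS.esy_le_single (AA z q j) g ?_ r 2 (by norm_num)).trans ?_
  · intro p hp
    exact (hg p (gm_mem hp)).1
  · apply Real.exp_le_exp.2
    have := g_sum_block ht hg j
    linarith

private theorem gm_bonf {z q b : ℕ} {t : ℝ} {g : ℕ → ℝ}
    (hg : ∀ p ∈ PZ z q, 0 ≤ g p ∧ g p ≤ t / p ∧ g p ≤ 1 / 2) (j : ℕ) :
    0 ≤ ∏ p ∈ AA z q j, (1 - g p) ∧
    ∏ p ∈ AA z q j, (1 - g p) ≤ alt (AA z q j) g (bb b j) ∧
    alt (AA z q j) g (bb b j) - ∏ p ∈ AA z q j, (1 - g p) ≤ esy (AA z q j) g (bb b j + 1) := by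
  have hx : ∀ p ∈ AA z q j, 0 ≤ g p ∧ g p ≤ 1 := fun p hp =>
    ⟨(hg p (gm_mem hp)).1, by linarith [(hg p (gm_mem hp)).2.2]⟩
  have h := Pool.Agent.Helper27.IS.bonf (AA z q j) g hx (bb b j)
  have he : (-1 : ℝ) ^ (bb b j) = 1 := by
    unfold Pool.Agent.RHN.bb
    rw [pow_mul, neg_one_sq, one_pow]
  rw [he, one_mul] at h
  refine ⟨prod_nonneg fun p hp => by linarith [(hx p hp).2], by linarith [h.1], h.2⟩

private theorem gm_prod (z q : ℕ) (x : ℕ → ℝ) :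
    ∏ j ∈ range z, ∏ p ∈ AA z q j, (1 - x p) = ∏ p ∈ PZ z q, (1 - x p) := by
  rw [Pool.Agent.RHN.PZ_eq, prod_biUnion]
  intro i _ j _ hij
  exact Pool.Agent.RHN.AA_disj z q hij

private theorem gm_V0 {z q : ℕ} {t : ℝ} {g : ℕ → ℝ}
    (hg : ∀ p ∈ PZ z q, 0 ≤ g p ∧ g p ≤ t / p ∧ g p ≤ 1 / 2) :
    0 ≤ ∏ p ∈ PZ z q, (1 - g p) :=
  prod_nonneg fun p hp => by linarith [(hg p hp).2.2]

/-- the relative errors -/
private noncomputable def etg (t : ℝ) (b j : ℕ) : ℝ := Real.exp (40 * t) / 2 ^ (bb b j + 1)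

private theorem etg_nonneg (t : ℝ) (b j : ℕ) : 0 ≤ etg t b j := by
  unfold etg
  positivity

private theorem gm_E {z q : ℕ} (b : ℕ) {t : ℝ} (ht : 0 ≤ t) {g : ℕ → ℝ}
    (hg : ∀ p ∈ PZ z q, 0 ≤ g p ∧ g p ≤ t / p ∧ g p ≤ 1 / 2) (j : ℕ) :
    esy (AA z q j) g (bb b j + 1) ≤ etg t b j * ∏ p ∈ AA z q j, (1 - g p) := by
  refine (g_esy_block ht hg j (bb b j + 1)).trans ?_
  have h1 : Real.exp (20 * t) / 2 ^ (bb b j + 1) = etg t b j * Real.exp (-(20 * t)) := by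
    unfold etg
    rw [div_mul_eq_mul_div, ← Real.exp_add]
    congr 2
    ring
  rw [h1]
  exact mul_le_mul_of_nonneg_left (g_prod_block ht hg j) (etg_nonneg t b j)

private theorem gm_geo (z : ℕ) : ∑ j ∈ range z, (1 / 4 : ℝ) ^ j ≤ 4 / 3 := by
  have h := geom_sum_eq (show (1 / 4 : ℝ) ≠ 1 by norm_num) z
  rw [h, div_le_iff_of_neg (by norm_num)]
  have : (0 : ℝ) ≤ (1 / 4) ^ z := by positivity
  linarith

private theorem gm_sum (t : ℝ) (z b : ℕ) :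
    ∑ j ∈ range z, etg t b j ≤ Real.exp (40 * t) * (1 / 4) ^ b := by
  have h1 : ∀ j ∈ range z, etg t b j =
      Real.exp (40 * t) * (1 / 4) ^ b * (1 / 2) * (1 / 4) ^ j := by
    intro j _
    unfold etg Pool.Agent.RHN.bb
    have h2 : (2 : ℝ) ^ (2 * (b + j) + 1) = 4 ^ b * 4 ^ j * 2 := by
      rw [pow_add, pow_mul, pow_add]
      norm_num
    rw [h2]
    simp only [one_div, inv_pow]
    field_simp
  rw [sum_congr rfl h1, ← mul_sum]
  have h2 := gm_geo z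
  have h3 : 0 ≤ Real.exp (40 * t) * (1 / 4 : ℝ) ^ b := by positivity
  have h4 := mul_le_mul_of_nonneg_left h2 (show 0 ≤ Real.exp (40 * t) * (1 / 4 : ℝ) ^ b * (1 / 2) by
    positivity)
  linarith

private theorem gm_upexp {z q : ℕ} (b : ℕ) {t : ℝ} (ht : 0 ≤ t) {g : ℕ → ℝ}
    (hg : ∀ p ∈ PZ z q, 0 ≤ g p ∧ g p ≤ t / p ∧ g p ≤ 1 / 2) :
    Up z q b g ≤ (∏ p ∈ PZ z q, (1 - g p)) * Real.exp (∑ j ∈ range z, etg t b j) := by
  have h1 : Up z q b g ≤ ∏ j ∈ range z, (∏ p ∈ AA z q j, (1 - g p)) * (1 + etg t b j) := by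
    unfold Pool.Agent.RHN.Up
    refine prod_le_prod (fun j _ => ?_) fun j _ => ?_
    · exact (gm_bonf (b := b) hg j).1.trans (gm_bonf hg j).2.1
    · have h2 := (gm_bonf (b := b) hg j).2.2
      have h3 := gm_E b ht hg j
      linarith
  refine h1.trans ?_
  rw [prod_mul_distrib, gm_prod, Real.exp_sum]
  refine mul_le_mul_of_nonneg_left ?_ (gm_V0 hg)
  refine prod_le_prod (fun j _ => by linarith [etg_nonneg t b j]) fun j _ => ?_
  rw [add_comm]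
  exact Real.add_one_le_exp _

private theorem gm_S (t : ℝ) (z b : ℕ) :
    (∑ j ∈ range z, etg t b j) * Real.exp (∑ j ∈ range z, etg t b j) ≤
      CB t * (1 / 2) ^ b := by
  have h1 := gm_sum t z b
  have h0 : 0 ≤ ∑ j ∈ range z, etg t b j := sum_nonneg fun j _ => etg_nonneg t b j
  have h2 : ∑ j ∈ range z, etg t b j ≤ Real.exp (40 * t) := by
    have : (1 / 4 : ℝ) ^ b ≤ 1 := pow_le_one₀ (by norm_num) (by norm_num)
    have := mul_le_mul_of_nonneg_left this (Real.exp_pos (40 * t)).le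
    linarith
  have h3 : ∑ j ∈ range z, etg t b j ≤ Real.exp (40 * t) * (1 / 2) ^ b := by
    refine h1.trans (mul_le_mul_of_nonneg_left ?_ (Real.exp_pos (40 * t)).le)
    exact pow_le_pow_left₀ (by norm_num) (by norm_num) b
  unfold CB
  calc (∑ j ∈ range z, etg t b j) * Real.exp (∑ j ∈ range z, etg t b j)
      ≤ (Real.exp (40 * t) * (1 / 2) ^ b) * Real.exp (Real.exp (40 * t)) :=
        mul_le_mul h3 (Real.exp_le_exp.2 h2) (Real.exp_pos _).le (by positivity)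
    _ = _ := by ring

theorem g_main_up {z q : ℕ} {t : ℝ} (ht : 0 ≤ t) {g : ℕ → ℝ}
    (hg : ∀ p ∈ PZ z q, 0 ≤ g p ∧ g p ≤ t / p ∧ g p ≤ 1 / 2) (b : ℕ) :
    ∏ p ∈ PZ z q, (1 - g p) ≤ Up z q b g ∧
      Up z q b g ≤ (∏ p ∈ PZ z q, (1 - g p)) * (1 + CB t * (1 / 2) ^ b) := by
  constructor
  · rw [← gm_prod]
    unfold Pool.Agent.RHN.Up
    exact prod_le_prod (fun j _ => (gm_bonf (b := b) hg j).1)
      fun j _ => (gm_bonf hg j).2.1
  · refine (gm_upexp b ht hg).trans (mul_le_mul_of_nonneg_left ?_ (gm_V0 hg))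
    have h1 := gm_S t z b
    set S := ∑ j ∈ range z, etg t b j with hS
    have h2 : 1 - S ≤ Real.exp (-S) := by linarith [Real.add_one_le_exp (-S)]
    have h3 := mul_le_mul_of_nonneg_right h2 (Real.exp_pos S).le
    rw [← Real.exp_add, neg_add_cancel, Real.exp_zero] at h3
    linarith

theorem g_main_lo {z q : ℕ} {t : ℝ} (ht : 0 ≤ t) {g : ℕ → ℝ}
    (hg : ∀ p ∈ PZ z q, 0 ≤ g p ∧ g p ≤ t / p ∧ g p ≤ 1 / 2) (b : ℕ) :
    (∏ p ∈ PZ z q, (1 - g p)) * (1 - CB t * (1 / 2) ^ b) ≤ Lo z q b g := by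
  have hM0 : ∀ j, 0 ≤ alt (AA z q j) g (bb b j) := fun j =>
    (gm_bonf (b := b) hg j).1.trans (gm_bonf hg j).2.1
  have h1 : ∑ l ∈ range z, esy (AA z q l) g (bb b l + 1) *
      ∏ j ∈ (range z).erase l, alt (AA z q j) g (bb b j) ≤
      (∑ l ∈ range z, etg t b l) * Up z q b g := by
    rw [sum_mul]
    refine sum_le_sum fun l hl => ?_
    have h2 : Up z q b g = alt (AA z q l) g (bb b l) *
        ∏ j ∈ (range z).erase l, alt (AA z q j) g (bb b j) := by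
      unfold Pool.Agent.RHN.Up
      exact (mul_prod_erase (range z) (fun j => alt (AA z q j) g (bb b j)) hl).symm
    rw [h2, ← mul_assoc]
    refine mul_le_mul_of_nonneg_right ?_ (prod_nonneg fun j _ => hM0 j)
    exact (gm_E b ht hg l).trans
      (mul_le_mul_of_nonneg_left (gm_bonf hg l).2.1 (etg_nonneg t b l))
  have h2 := gm_upexp b ht hg
  have h3 := (g_main_up ht hg b).1
  have h4 := gm_S t z b
  have h0 : 0 ≤ ∑ j ∈ range z, etg t b j := sum_nonneg fun j _ => etg_nonneg t b j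
  have h5 := mul_le_mul_of_nonneg_left h2 h0
  have h6 := mul_le_mul_of_nonneg_left h4 (gm_V0 hg)
  unfold Pool.Agent.RHN.Lo
  linarith

end Pool.Agent.MRS
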