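import Pool.Agent.MRS.PSCube

/-!
# MRS / PSNu: cube correlations of the normalised rough indicator, final form

PROOF.
`nu_cube`: the box with `N none = L`, `N (some _) = H`, `y none = y`, `y (some _) = 0`: reindex the sum over `Fintype.piFinset` as a sum over `n = y + k` and `h : Fin r → Fin 2 → Fin H`.
-/

set_option autoImplicit false

namespace Pool.Agent.MRS

open Finset

private theorem box_reindex (r L H : ℕ) (y : ℤ) (f : ℤ → (Fin r → Fin 2 → Fin H) → ℝ)
    (F : (Option (Fin r × Fin 2) → ℕ) → ℝ)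
    (hF : ∀ (n : ℤ) (h : Fin r → Fin 2 → Fin H) (k : Option (Fin r × Fin 2) → ℕ),
      n = y + (k none : ℤ) → (∀ a b, k (some (a, b)) = (h a b : ℕ)) → f n h = F k) :
    ∑ n ∈ Ico y (y + L), ∑ h : Fin r → Fin 2 → Fin H, f n h =
      ∑ k ∈ Fintype.piFinset (fun i => range (bsd L H i)), F k := by
  rw [← Finset.sum_product']
  have hmem : ∀ k : Option (Fin r × Fin 2) → ℕ,
      k ∈ Fintype.piFinset (fun i => range (bsd L H i)) →
      k none < L ∧ ∀ a b, k (some (a, b)) < H := by
    intro k hk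
    rw [Fintype.mem_piFinset] at hk
    refine ⟨?_, fun a b => ?_⟩
    · have := hk none
      rw [mem_range] at this
      exact this
    · have := hk (some (a, b))
      rw [mem_range] at this
      exact this
  refine Finset.sum_bij'
    (i := fun x _ => fun o : Option (Fin r × Fin 2) => match o with
      | none => (x.1 - y).toNat
      | some p => (x.2 p.1 p.2 : ℕ))
    (j := fun k hk => (y + (k none : ℤ), fun a b => ⟨k (some (a, b)), (hmem k hk).2 a b⟩))
    ?_ ?_ ?_ ?_ ?_
  · intro x hx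
    rw [mem_product, mem_Ico] at hx
    rw [Fintype.mem_piFinset]
    rintro (_ | p)
    · rw [mem_range]
      show (x.1 - y).toNat < L
      omega
    · rw [mem_range]
      exact (x.2 p.1 p.2).2
  · intro k hk
    have h1 := (hmem k hk).1
    rw [mem_product, mem_Ico]
    refine ⟨⟨?_, ?_⟩, mem_univ _⟩
    · show y ≤ y + (k none : ℤ)
      omega
    · show y + (k none : ℤ) < y + L
      omega
  · intro x hx
    rw [mem_product, mem_Ico] at hx
    refine Prod.ext ?_ ?_
    · show y + (((x.1 - y).toNat : ℕ) : ℤ) = x.1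
      omega
    · rfl
  · intro k hk
    funext o
    rcases o with _ | p
    · show ((y + (k none : ℤ)) - y).toNat = k none
      omega
    · rfl
  · intro x hx
    rw [mem_product, mem_Ico] at hx
    refine hF _ _ _ ?_ ?_
    · show x.1 = y + (((x.1 - y).toNat : ℕ) : ℤ)
      omega
    · intro a b
      rfl

theorem nu_cube (r : ℕ) : ∃ C : ℕ, 1 ≤ C ∧ ∀ (z b w W L H : ℕ) (c y : ℤ)
    (S : Finset (Fin r → Fin 2)), 2 ≤ z → 1 ≤ b →
    2 ^ (r + 1) ≤ w → (∀ p : ℕ, p.Prime → p ≤ w → p ∣ W) → z ^ (C * b) ≤ L → z ^ (C * b) ≤ H →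
    |∑ n ∈ Ico y (y + L), ∑ h : Fin r → Fin 2 → Fin H,
        ∏ ω ∈ S, nu z W c (n + ∑ i, ((h i (ω i) : ℕ) : ℤ)) - (L : ℝ) * (H : ℝ) ^ (2 * r)| ≤
      C * ((1 / 2 : ℝ) ^ b + 1 / w) * ((L : ℝ) * (H : ℝ) ^ (2 * r)) := by
  obtain ⟨C, hC, h⟩ := cube_box r
  refine ⟨C, hC, fun z b w W L H c y S hz hb hw hW hL hH => ?_⟩
  have h1 := h z b w W L H c (fun o => match o with
    | none => y
    | some _ => 0) S hz hb hw hW hL hH
  rw [box_reindex r L H y (fun n h => ∏ ω ∈ S, nu z W c (n + ∑ i, ((h i (ω i) : ℕ) : ℤ)))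
    (fun k => ∏ ω ∈ S, nu z W c (cform ω (fun i => (match i with
      | none => y
      | some _ => 0 : ℤ) + (k i : ℤ)))) ?_]
  · exact h1
  · intro n h k hn hk
    refine Finset.prod_congr rfl fun ω _ => ?_
    congr 1
    unfold cform
    rw [hn]
    congr 1
    refine Finset.sum_congr rfl fun i _ => ?_
    show ((h i (ω i) : ℕ) : ℤ) = 0 + ((k (some (i, ω i)) : ℕ) : ℤ)
    rw [hk, zero_add]


end Pool.Agent.MRS
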