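import Pool.Agent.MRS.PD7
import Pool.Agent.MRS.PSNu

/-!
# MRS / PrimeMain: Theorem P
-/

set_option autoImplicit false

namespace Pool.Agent.MRS

theorem primeThm : PrimeThm := prime_of_cube nu_cube

end Pool.Agent.MRS
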