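import Pool.Agent.MRS.SDefs

/-!
# MRS / S: averages over boxes

PROOFS.  All statements are elementary identities for finite sums.  `card_box`: `Fintype.card_piFinset`, `Int.card_Ico`.
`bavg_sum_type`: the bijection `z ↦ (z ∘ inl, z ∘ inr)` (`Equiv.sumArrowEquivProdArrow`) maps the box onto the product of the boxes
(`Finset.sum_nbij'` or `Finset.sum_bij'`), `Finset.sum_product`, `Fintype.prod_sum_type`.  `bavg_cons`: the bijection `z ↦ (z 0, Fin.tail z)` with inverse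
`Fin.cons`, `Fin.prod_univ_succ`.  `bavg_sub`: the bijection `z ↦ z - v` of the boxes.  `bavg_integral`: `integral_finset_sum`, `integral_const_mul`.
-/

set_option autoImplicit false

namespace Pool.Agent.MRS

open MeasureTheory Filter Topology
open scoped BigOperators ComplexConjugate

variable {ι ι' : Type} [Fintype ι] [DecidableEq ι] [Fintype ι'] [DecidableEq ι']

theorem card_box (a : ι → ℤ) (N : ι → ℕ) : (box a N).card = ∏ i, N i := by
  unfold box
  rw [Fintype.card_piFinset]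
  refine Finset.prod_congr rfl fun i _ => ?_
  rw [Int.card_Ico]
  simp

theorem mem_box {a : ι → ℤ} {N : ι → ℕ} {z : ι → ℤ} : z ∈ box a N ↔ ∀ i, a i ≤ z i ∧ z i < a i + N i := by
  unfold box
  simp only [Fintype.mem_piFinset, Finset.mem_Ico]

theorem bavg_congr {a : ι → ℤ} {N : ι → ℕ} {F G : (ι → ℤ) → ℂ} (h : ∀ z ∈ box a N, F z = G z) :
    bavg a N F = bavg a N G := by
  unfold bavg
  rw [Finset.sum_congr rfl h]

theorem bavg_finset_sum {J : Type} (s : Finset J) (a : ι → ℤ) (N : ι → ℕ) (F : J → (ι → ℤ) → ℂ) :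
    bavg a N (fun z => ∑ j ∈ s, F j z) = ∑ j ∈ s, bavg a N (F j) := by
  unfold bavg
  rw [Finset.sum_comm, Finset.mul_sum]

theorem bavg_mul_left (a : ι → ℤ) (N : ι → ℕ) (c : ℂ) (F : (ι → ℤ) → ℂ) :
    bavg a N (fun z => c * F z) = c * bavg a N F := by
  unfold bavg
  rw [← Finset.mul_sum]
  ring

theorem norm_bavg_leS (a : ι → ℤ) (N : ι → ℕ) (F : (ι → ℤ) → ℂ) {C : ℝ} (hC : 0 ≤ C)
    (h : ∀ z ∈ box a N, ‖F z‖ ≤ C) : ‖bavg a N F‖ ≤ C := by
  have h1 : ‖∑ z ∈ box a N, F z‖ ≤ (∏ i, (N i : ℝ)) * C := by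
    have h2 := norm_sum_le_of_le (box a N) h
    rw [Finset.sum_const, card_box, nsmul_eq_mul] at h2
    push_cast at h2
    exact h2
  have hP : 0 ≤ ∏ i, (N i : ℝ) := Finset.prod_nonneg fun i _ => Nat.cast_nonneg _
  have hn : ‖(∏ i, (N i : ℂ))⁻¹‖ = (∏ i, (N i : ℝ))⁻¹ := by
    rw [norm_inv, norm_prod]
    simp
  unfold bavg
  rw [norm_mul, hn]
  rcases hP.eq_or_lt with h0 | h0
  · rw [← h0]
    simp [hC]
  · calc (∏ i, (N i : ℝ))⁻¹ * ‖∑ z ∈ box a N, F z‖ ≤ (∏ i, (N i : ℝ))⁻¹ * ((∏ i, (N i : ℝ)) * C) :=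
          mul_le_mul_of_nonneg_left h1 (inv_nonneg.2 hP)
      _ = C := by rw [← mul_assoc, inv_mul_cancel₀ h0.ne', one_mul]

theorem bavg_sub (a v : ι → ℤ) (N : ι → ℕ) (F : (ι → ℤ) → ℂ) :
    bavg a N (fun z => F (z - v)) = bavg (a - v) N F := by
  unfold bavg
  congr 1
  refine Finset.sum_nbij' (fun z => z - v) (fun z => z + v) ?_ ?_ ?_ ?_ ?_
  · intro z hz
    rw [mem_box] at hz ⊢
    intro i
    have := hz i
    simp only [Pi.sub_apply]
    omega
  · intro z hz
    rw [mem_box] at hz ⊢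
    intro i
    have := hz i
    simp only [Pi.sub_apply, Pi.add_apply] at this ⊢
    omega
  · intro z _
    simp
  · intro z _
    simp
  · intro z _
    rfl

theorem bavg_commS (a : ι → ℤ) (N : ι → ℕ) (a' : ι' → ℤ) (N' : ι' → ℕ) (F : (ι → ℤ) → (ι' → ℤ) → ℂ) :
    bavg a N (fun i => bavg a' N' (fun j => F i j)) = bavg a' N' (fun j => bavg a N (fun i => F i j)) := by
  simp only [bavg, Finset.mul_sum]
  rw [Finset.sum_comm]
  refine Finset.sum_congr rfl fun x _ => Finset.sum_congr rfl fun y _ => ?_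
  ring

theorem bavg_sum_type (a : ι → ℤ) (N : ι → ℕ) (a' : ι' → ℤ) (N' : ι' → ℕ) (F : (ι ⊕ ι' → ℤ) → ℂ) :
    bavg (Sum.elim a a') (Sum.elim N N') F =
      bavg a N (fun i => bavg a' N' (fun j => F (Sum.elim i j))) := by
  have h1 : ∑ z ∈ box (Sum.elim a a') (Sum.elim N N'), F z =
      ∑ x ∈ box a N ×ˢ box a' N', F (Sum.elim x.1 x.2) := by
    refine Finset.sum_nbij' (fun z => (z ∘ Sum.inl, z ∘ Sum.inr)) (fun x => Sum.elim x.1 x.2)
      ?_ ?_ ?_ ?_ ?_
    · intro z hz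
      rw [mem_box] at hz
      rw [Finset.mem_product, mem_box, mem_box]
      exact ⟨fun i => hz (Sum.inl i), fun i => hz (Sum.inr i)⟩
    · intro x hx
      rw [Finset.mem_product, mem_box, mem_box] at hx
      rw [mem_box]
      rintro (i | i)
      · exact hx.1 i
      · exact hx.2 i
    · intro z _
      exact Sum.elim_comp_inl_inr z
    · intro x _
      simp
    · intro z _
      simp only [Sum.elim_comp_inl_inr]
  unfold bavg
  rw [h1, Finset.sum_product, Fintype.prod_sum_type]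
  simp only [Sum.elim_inl, Sum.elim_inr]
  rw [mul_inv, mul_assoc, Finset.mul_sum]

theorem bavg_cons {s : ℕ} (a0 : ℤ) (n0 : ℕ) (a : Fin s → ℤ) (N : Fin s → ℕ) (F : (Fin (s + 1) → ℤ) → ℂ) :
    bavg (Fin.cons a0 a : Fin (s + 1) → ℤ) (Fin.cons n0 N : Fin (s + 1) → ℕ) F =
      (n0 : ℂ)⁻¹ * ∑ i ∈ Finset.Ico a0 (a0 + n0), bavg a N (fun z => F (Fin.cons i z)) := by
  have h1 : ∑ z ∈ box (Fin.cons a0 a : Fin (s + 1) → ℤ) (Fin.cons n0 N : Fin (s + 1) → ℕ), F z =
      ∑ x ∈ Finset.Ico a0 (a0 + n0) ×ˢ box a N, F (Fin.cons x.1 x.2) := by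
    refine Finset.sum_nbij' (fun z => (z 0, Fin.tail z)) (fun x => Fin.cons x.1 x.2)
      ?_ ?_ ?_ ?_ ?_
    · intro z hz
      rw [mem_box] at hz
      rw [Finset.mem_product, mem_box, Finset.mem_Ico]
      exact ⟨hz 0, fun i => hz i.succ⟩
    · intro x hx
      rw [Finset.mem_product, mem_box, Finset.mem_Ico] at hx
      rw [mem_box]
      refine Fin.cases ?_ ?_
      · exact hx.1
      · exact hx.2
    · intro z _
      exact Fin.cons_self_tail z
    · intro x _
      simp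
    · intro z _
      simp only [Fin.cons_self_tail]
  unfold bavg
  rw [h1, Finset.sum_product, Fin.prod_univ_succ]
  simp only [Fin.cons_zero, Fin.cons_succ]
  rw [mul_inv, mul_assoc, Finset.mul_sum]

/-- the average over two variables `k, k'` in the same interval -/
theorem bavg_bool (b : ℤ) (n : ℕ) (F : (Bool → ℤ) → ℂ) :
    bavg (fun _ : Bool => b) (fun _ => n) F =
      ((n : ℂ)⁻¹) ^ 2 * ∑ k ∈ Finset.Ico b (b + n), ∑ k' ∈ Finset.Ico b (b + n), F (fun t => if t then k' else k) := by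
  have h1 : ∑ z ∈ box (fun _ : Bool => b) (fun _ => n), F z =
      ∑ x ∈ Finset.Ico b (b + n) ×ˢ Finset.Ico b (b + n), F (fun t => if t then x.2 else x.1) := by
    refine Finset.sum_nbij' (fun z => (z false, z true)) (fun x => fun t => if t then x.2 else x.1)
      ?_ ?_ ?_ ?_ ?_
    · intro z hz
      rw [mem_box] at hz
      rw [Finset.mem_product, Finset.mem_Ico, Finset.mem_Ico]
      exact ⟨hz false, hz true⟩
    · intro x hx
      rw [Finset.mem_product, Finset.mem_Ico, Finset.mem_Ico] at hx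
      rw [mem_box]
      rintro (_ | _)
      · exact hx.1
      · exact hx.2
    · intro z _
      funext t
      cases t <;> rfl
    · intro x _
      rfl
    · intro z _
      congr 1
      funext t
      cases t <;> rfl
  unfold bavg
  rw [h1, Finset.sum_product, Finset.prod_const, Finset.card_univ, Fintype.card_bool, inv_pow]

theorem bavg_integral {X : Type} [MeasurableSpace X] (mu : Measure X) (a : ι → ℤ) (N : ι → ℕ)
    (F : (ι → ℤ) → X → ℂ) (hF : ∀ z, Integrable (F z) mu) :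
    bavg a N (fun z => ∫ x, F z x ∂mu) = ∫ x, bavg a N (fun z => F z x) ∂mu := by
  unfold bavg
  rw [integral_const_mul, integral_finsetSum _ fun z _ => hF z]

theorem bavg_ofReal (a : ι → ℤ) (N : ι → ℕ) (F : (ι → ℤ) → ℝ) :
    bavg a N (fun z => (F z : ℂ)) = ((ravg a N F : ℝ) : ℂ) := by
  unfold bavg ravg
  push_cast
  rfl

theorem ravg_mono {a : ι → ℤ} {N : ι → ℕ} {F G : (ι → ℤ) → ℝ} (h : ∀ z ∈ box a N, F z ≤ G z) :
    ravg a N F ≤ ravg a N G := by
  unfold ravg
  exact mul_le_mul_of_nonneg_left (Finset.sum_le_sum h)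
    (inv_nonneg.2 (Finset.prod_nonneg fun i _ => Nat.cast_nonneg _))

theorem ravg_nonneg {a : ι → ℤ} {N : ι → ℕ} {F : (ι → ℤ) → ℝ} (h : ∀ z ∈ box a N, 0 ≤ F z) : 0 ≤ ravg a N F := by
  unfold ravg
  exact mul_nonneg (inv_nonneg.2 (Finset.prod_nonneg fun i _ => Nat.cast_nonneg _))
    (Finset.sum_nonneg h)

theorem ravg_add (a : ι → ℤ) (N : ι → ℕ) (F G : (ι → ℤ) → ℝ) :
    ravg a N (fun z => F z + G z) = ravg a N F + ravg a N G := by
  unfold ravg
  rw [Finset.sum_add_distrib, mul_add]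

theorem ravg_finset_sum {J : Type} (s : Finset J) (a : ι → ℤ) (N : ι → ℕ) (F : J → (ι → ℤ) → ℝ) :
    ravg a N (fun z => ∑ j ∈ s, F j z) = ∑ j ∈ s, ravg a N (F j) := by
  unfold ravg
  rw [Finset.sum_comm, Finset.mul_sum]

theorem ravg_mul_left (a : ι → ℤ) (N : ι → ℕ) (c : ℝ) (F : (ι → ℤ) → ℝ) :
    ravg a N (fun z => c * F z) = c * ravg a N F := by
  unfold ravg
  rw [← Finset.mul_sum]
  ring

theorem ravg_const_le (a : ι → ℤ) (N : ι → ℕ) {c : ℝ} (hc : 0 ≤ c) : ravg a N (fun _ => c) ≤ c := by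
  unfold ravg
  have hP : 0 ≤ ∏ i, (N i : ℝ) := Finset.prod_nonneg fun i _ => Nat.cast_nonneg _
  rw [Finset.sum_const, card_box, nsmul_eq_mul]
  push_cast
  rcases hP.eq_or_lt with h0 | h0
  · rw [← h0]
    simp [hc]
  · rw [← mul_assoc, inv_mul_cancel₀ h0.ne', one_mul]

end Pool.Agent.MRS
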