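import Pool.Agent.MRS.SDefs

/-!
# MRS / S: the labels `Λ / (κ + W k)` and their iterated differences

PROOFS.  `cm_inv`: for `f k = Λ / (κ + W k)` and `k ≥ b` one has by induction on `n`
`(-1)^n (fwdDiff 1)^[n] f k = Λ n! W^n / ∏_{i = 0..n} (κ + W (k + i))` (all factors are positive); indeed with `P_n(k) = ∏_{i ≤ n} (κ + W (k+i))`:
`1/P_n(k) - 1/P_n(k+1) = ((κ + W (k+n+1)) - (κ + W k)) / P_(n+1)(k) = (n+1) W / P_(n+1)(k)`.  (`Function.iterate_succ_apply'`, `fwdDiff`.)
`CM.shift`: `(fwdDiff 1)^[n]` commutes with translations.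
`CM.sub`: for `d > 0`: `f k - f (k + d) = ∑_{i < d} (f (k+i) - f (k+i+1)) = - ∑_{i < d} fwdDiff 1 f (k + i)`, so
`(-1)^n Δ^n (f - f(. + d)) k = ∑_{i < d} (-1)^(n+1) Δ^(n+1) f (k + i) > 0` if `b ≤ k`, `k + n < c - d` (then `k + i + n + 1 < c`).  (Induction on `d` works too; or prove
linearity of `(fwdDiff 1)^[n]`.)
`dist_of_cm`: let `PM f` mean `CM b c f` or `CM b c (-f)`.  By induction on `j`: `PM b c f`, `f = lam` on `[b, c)` imply `Dist j b c lam`.  `j = 0`: the case `n = 0` of `CM`: `f k ≠ 0`.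
`j + 1`, `d > 0`: `max b (b-d) = b`, `min c (c-d) = c - d`, `CM.sub` (applied to `f` or `-f`).  `d = -e < 0`: `max b (b-d) = b + e`, `min c (c-d) = c`,
`f k - f (k - e) = - (f (k - e) - f k) = - G (k - e)` with `G k = f k - f (k + e)` completely monotone on `[b, c - e)` (`CM.sub`), so `G (. - e)` is completely monotone on `[b + e, c)` (`CM.shift`).
(`CM` only depends on the values on `[b, c)`: `Δ^n f k` involves `f k, .., f (k+n)`; this is not needed if `f` is kept as a function on all of `ℤ`: in `dist_of_cm` the new `f` is the function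
`k ↦ f k - f (k + d)`, and the new labels agree with it on the new interval.)
-/

set_option autoImplicit false

namespace Pool.Agent.MRS

private theorem iter_shift57 (n : ℕ) (f : ℤ → ℝ) (e k : ℤ) :
    (fwdDiff 1)^[n] (fun k => f (k - e)) k = (fwdDiff 1)^[n] f (k - e) := by
  induction n generalizing f with
  | zero => rfl
  | succ n ih =>
    have h1 : fwdDiff 1 (fun k => f (k - e)) = fun k => fwdDiff 1 f (k - e) := by
      funext x
      unfold fwdDiff
      beta_reduce
      rw [show x + 1 - e = x - e + 1 by ring]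
    rw [Function.iterate_succ_apply, Function.iterate_succ_apply, ← ih (fwdDiff 1 f), h1]

private theorem iter_sub57 (n : ℕ) (f : ℤ → ℝ) (d k : ℤ) :
    (fwdDiff 1)^[n] (fun k => f k - f (k + d)) k =
      (fwdDiff 1)^[n] f k - (fwdDiff 1)^[n] f (k + d) := by
  induction n generalizing f with
  | zero => rfl
  | succ n ih =>
    have h1 : fwdDiff 1 (fun k => f k - f (k + d)) = fun k => fwdDiff 1 f k - fwdDiff 1 f (k + d) := by
      funext x
      unfold fwdDiff
      beta_reduce
      rw [show x + 1 + d = x + d + 1 by ring]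
      ring
    rw [Function.iterate_succ_apply, h1, ih (fwdDiff 1 f)]
    rfl

private theorem prod57 (κ W : ℤ) (n : ℕ) (k : ℤ) :
    (∏ i ∈ Finset.range (n + 1), ((κ : ℝ) + W * ((k + 1 + (i : ℤ) : ℤ) : ℝ))) * ((κ : ℝ) + W * (k : ℝ)) =
      ∏ i ∈ Finset.range (n + 2), ((κ : ℝ) + W * ((k + (i : ℤ) : ℤ) : ℝ)) := by
  rw [Finset.prod_range_succ' _ (n + 1)]
  congr 1
  · refine Finset.prod_congr rfl fun i _ => ?_
    push_cast
    ring
  · push_cast
    ring

theorem cm_inv {W κ b c : ℤ} (hW : 0 < W) (hb : 0 < κ + W * b) {Λ : ℝ} (hΛ : 0 < Λ) :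
    CM b c fun k => Λ / ((κ : ℝ) + W * k) := by
  have hWr : (0 : ℝ) < W := by exact_mod_cast hW
  have hpos : ∀ k : ℤ, b ≤ k → (0 : ℝ) < (κ : ℝ) + W * (k : ℝ) := by
    intro k hk
    have h1 : (0 : ℤ) < κ + W * k := by nlinarith
    exact_mod_cast h1
  have hP : ∀ (n : ℕ) (k : ℤ), b ≤ k →
      0 < ∏ i ∈ Finset.range (n + 1), ((κ : ℝ) + W * ((k + (i : ℤ) : ℤ) : ℝ)) := by
    intro n k hk
    exact Finset.prod_pos fun i _ => hpos _ (by omega)
  have key : ∀ (n : ℕ) (k : ℤ), b ≤ k →
      (fwdDiff 1)^[n] (fun k : ℤ => Λ / ((κ : ℝ) + W * (k : ℝ))) k =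
        (-1) ^ n * (Λ * (n.factorial : ℝ) * (W : ℝ) ^ n) /
          ∏ i ∈ Finset.range (n + 1), ((κ : ℝ) + W * ((k + (i : ℤ) : ℤ) : ℝ)) := by
    intro n
    induction n with
    | zero =>
      intro k _
      simp
    | succ n ih =>
      intro k hk
      rw [Function.iterate_succ_apply']
      unfold fwdDiff
      rw [show (fun (f : ℤ → ℝ) (n : ℤ) => f (n + 1) - f n) = fwdDiff 1 from rfl]
      rw [ih k hk, ih (k + 1) (by omega)]
      have h1 := prod57 κ W n k
      have h2 : ∏ i ∈ Finset.range (n + 2), ((κ : ℝ) + W * ((k + (i : ℤ) : ℤ) : ℝ)) =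
          (∏ i ∈ Finset.range (n + 1), ((κ : ℝ) + W * ((k + (i : ℤ) : ℤ) : ℝ))) *
            ((κ : ℝ) + W * ((k + ((n + 1 : ℕ) : ℤ) : ℤ) : ℝ)) := Finset.prod_range_succ _ _
      have p1 := hP n k hk
      have p2 := hP n (k + 1) (by omega)
      have p3 := hP (n + 1) k hk
      have p4 := hpos k hk
      have p5 := hpos (k + ((n + 1 : ℕ) : ℤ)) (by omega)
      obtain ⟨x, hx⟩ : ∃ x, x = ∏ i ∈ Finset.range (n + 1), ((κ : ℝ) + W * ((k + (i : ℤ) : ℤ) : ℝ)) :=
        ⟨_, rfl⟩
      obtain ⟨y, hy⟩ : ∃ y, y = ∏ i ∈ Finset.range (n + 1),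
        ((κ : ℝ) + W * ((k + 1 + (i : ℤ) : ℤ) : ℝ)) := ⟨_, rfl⟩
      obtain ⟨w, hw⟩ : ∃ w, w = ∏ i ∈ Finset.range (n + 1 + 1),
        ((κ : ℝ) + W * ((k + (i : ℤ) : ℤ) : ℝ)) := ⟨_, rfl⟩
      rw [← hx] at p1 h2 ⊢
      rw [← hy] at p2 h1 ⊢
      change y * _ = ∏ i ∈ Finset.range (n + 1 + 1), _ at h1
      change ∏ i ∈ Finset.range (n + 1 + 1), _ = _ at h2
      rw [← hw] at p3 h1 h2 ⊢
      have e1 : 1 / y = ((κ : ℝ) + W * (k : ℝ)) / w := by
        rw [← h1]
        field_simp
      have e2 : 1 / x = ((κ : ℝ) + W * ((k + ((n + 1 : ℕ) : ℤ) : ℤ) : ℝ)) / w := by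
        rw [h2]
        field_simp
      have e3 : ∀ a : ℝ, a / y - a / x = a * (1 / y - 1 / x) := fun a => by ring
      rw [e3, e1, e2, Nat.factorial_succ]
      push_cast
      field_simp
      ring
  intro n k hk _
  rw [key n k hk]
  have h1 : (-1 : ℝ) ^ n * ((-1) ^ n * (Λ * (n.factorial : ℝ) * (W : ℝ) ^ n) /
      ∏ i ∈ Finset.range (n + 1), ((κ : ℝ) + W * ((k + (i : ℤ) : ℤ) : ℝ))) =
      (Λ * (n.factorial : ℝ) * (W : ℝ) ^ n) /
      ∏ i ∈ Finset.range (n + 1), ((κ : ℝ) + W * ((k + (i : ℤ) : ℤ) : ℝ)) := by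
    rw [mul_div_assoc, ← mul_assoc, ← mul_pow]
    norm_num
  rw [h1]
  have h2 := hP n k hk
  have h3 : (0 : ℝ) < n.factorial := by exact_mod_cast n.factorial_pos
  positivity

theorem CM.shift {b c : ℤ} {f : ℤ → ℝ} (h : CM b c f) (e : ℤ) : CM (b + e) (c + e) fun k => f (k - e) := by
  intro n k hk1 hk2
  have h1 := h n (k - e) (by omega) (by omega)
  rw [iter_shift57]
  exact h1

theorem CM.sub {b c : ℤ} {f : ℤ → ℝ} (h : CM b c f) {d : ℤ} (hd : 0 < d) :
    CM b (c - d) fun k => f k - f (k + d) := by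
  have key : ∀ (n : ℕ) (m : ℕ) (k : ℤ), b ≤ k → k + (m + 1 : ℕ) + n < c →
      0 < (-1 : ℝ) ^ n * ((fwdDiff 1)^[n] f k - (fwdDiff 1)^[n] f (k + (m + 1 : ℕ))) := by
    intro n m
    induction m with
    | zero =>
      intro k hk1 hk2
      have h1 := h (n + 1) k hk1 (by push_cast at hk2 ⊢; omega)
      rw [Function.iterate_succ_apply'] at h1
      change 0 < (-1 : ℝ) ^ (n + 1) * ((fwdDiff 1)^[n] f (k + 1) - (fwdDiff 1)^[n] f k) at h1
      rw [pow_succ] at h1
      have e1 : k + ((0 + 1 : ℕ) : ℤ) = k + 1 := by norm_num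
      rw [e1]
      linarith
    | succ m ih =>
      intro k hk1 hk2
      have h0 := ih k hk1 (by push_cast at hk2 ⊢; omega)
      have h1 := h (n + 1) (k + ((m + 1 : ℕ) : ℤ)) (by omega) (by push_cast at hk2 ⊢; omega)
      rw [Function.iterate_succ_apply'] at h1
      change 0 < (-1 : ℝ) ^ (n + 1) * ((fwdDiff 1)^[n] f (k + ((m + 1 : ℕ) : ℤ) + 1) -
        (fwdDiff 1)^[n] f (k + ((m + 1 : ℕ) : ℤ))) at h1
      rw [pow_succ] at h1
      have e1 : k + ((m + 1 + 1 : ℕ) : ℤ) = k + ((m + 1 : ℕ) : ℤ) + 1 := by push_cast; ring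
      rw [e1]
      linarith
  intro n k hk1 hk2
  obtain ⟨m, hm⟩ : ∃ m : ℕ, d = ((m + 1 : ℕ) : ℤ) := ⟨(d - 1).toNat, by push_cast; omega⟩
  rw [iter_sub57, hm]
  exact key n m k hk1 (by omega)

theorem dist_of_cm (j : ℕ) {b c : ℤ} {f : ℤ → ℝ} (h : CM b c f ∨ CM b c fun k => -f k) {lam : ℤ → ℤ}
    (hl : ∀ k ∈ Finset.Ico b c, (lam k : ℝ) = f k) : Dist j b c lam := by
  induction j generalizing b c f lam with
  | zero =>
    intro k hk h0
    have h1 := hl k hk
    rw [h0] at h1
    rw [Finset.mem_Ico] at hk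
    rcases h with h | h
    · have h2 := h 0 k hk.1 (by push_cast; omega)
      simp only [pow_zero, one_mul, Function.iterate_zero, id_eq] at h2
      rw [← h1] at h2
      simp at h2
    · have h2 := h 0 k hk.1 (by push_cast; omega)
      simp only [pow_zero, one_mul, Function.iterate_zero, id_eq] at h2
      rw [← h1] at h2
      simp at h2
  | succ j ih =>
    intro d hd
    rcases lt_or_gt_of_ne hd with hd | hd
    · -- negative `d`
      have e1 : max b (b - d) = b + -d := by rw [max_eq_right (by omega)]; ring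
      have e2 : min c (c - d) = c - -d + -d := by rw [min_eq_left (by omega)]; ring
      rw [e1, e2]
      refine ih (f := fun k => f k - f (k + d)) ?_ ?_
      · rcases h with h | h
        · right
          have h1 := (CM.sub h (d := -d) (by omega)).shift (-d)
          have h2 : (fun k : ℤ => f (k - -d) - f (k - -d + -d)) = fun k => -(f k - f (k + d)) := by
            funext k
            rw [show k - -d = k + d by ring, show k + d + -d = k by ring]
            ring
          rw [h2] at h1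
          exact h1
        · left
          have h1 := (CM.sub h (d := -d) (by omega)).shift (-d)
          have h2 : (fun k : ℤ => -f (k - -d) - -f (k - -d + -d)) = fun k => f k - f (k + d) := by
            funext k
            rw [show k - -d = k + d by ring, show k + d + -d = k by ring]
            ring
          rw [h2] at h1
          exact h1
      · intro k hk
        rw [Finset.mem_Ico] at hk
        push_cast
        rw [hl k (Finset.mem_Ico.2 (by omega)), hl (k + d) (Finset.mem_Ico.2 (by omega))]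
    · have e1 : max b (b - d) = b := max_eq_left (by omega)
      have e2 : min c (c - d) = c - d := min_eq_right (by omega)
      rw [e1, e2]
      refine ih (f := fun k => f k - f (k + d)) ?_ ?_
      · rcases h with h | h
        · exact Or.inl (CM.sub h hd)
        · right
          have h1 := CM.sub h hd
          have h2 : (fun k : ℤ => -f k - -f (k + d)) = fun k => -(f k - f (k + d)) := by
            funext k
            ring
          rw [h2] at h1
          exact h1
      · intro k hk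
        rw [Finset.mem_Ico] at hk
        push_cast
        rw [hl k (Finset.mem_Ico.2 (by omega)), hl (k + d) (Finset.mem_Ico.2 (by omega))]

end Pool.Agent.MRS
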