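import Pool.Agent.MRS.SInd
import Pool.Agent.MRS.SCM

/-!
# MRS / S: Claim C

PROOF of `claimC`.  All `κ + W k`, `k ∈ [b, b + n)`, are positive (`W > 0`, `κ + W b > 0`), so `((κ + W k).toNat : ℤ) = κ + W k` and `k ↦ (κ + W k).toNat` is injective on `[b, b + n)`:
`card_Ks`, `sum_Ks` (`Finset.sum_image`, `Finset.card_image_of_injOn`, `Int.card_Ico`).
Take `u, e` from `Del_prod hT W κ h hg`, `ψ k = φ (κ + W k).toNat`, `lam k = Λ / (κ + W k)`.  By `hφ.sq` and `Del_prod`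
`Isum mu T b (b + n) u e ψ = ∑_k ∫ Del T ((κ + W k) h) g conj (ψ k) = ∑_k ∫ ‖ψ k‖²` (a real number `≥ 0`) `= ∑_{m ∈ Ks} ∫ ‖φ m‖²`.
`Lab.of_eig` gives the labels; `0 ≤ lam k ≤ Λ` (`Int.ediv_le_self`), `M = Λ.toNat`; `Dist (2 ^ s) b (b + n) lam` is `dist_of_cm` with `cm_inv` (`f k = Λ / (κ + W k)`;
`(lam k : ℝ) = f k` because the division is exact: `Int.cast_div`).  `claim_ind (2 ^ s)`: `‖Isum‖ ^ (2 ^ (2 ^ s)) ≤ Cc (2 ^ s) n ^ (2 ^ (2 ^ s) - 1)`; divide by `n ^ (2 ^ (2 ^ s))`.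
-/

set_option autoImplicit false

namespace Pool.Agent.MRS

open MeasureTheory Filter Topology
open scoped BigOperators ComplexConjugate

theorem toNat_Ks {W κ b : ℤ} (hW : 0 < W) (hb : 0 < κ + W * b) {k : ℤ} (hk : b ≤ k) :
    ((κ + W * k).toNat : ℤ) = κ + W * k := by
  have h1 : W * b ≤ W * k := mul_le_mul_of_nonneg_left hk hW.le
  exact Int.toNat_of_nonneg (by omega)

theorem pos_of_mem_Ks {W κ b : ℤ} (hW : 0 < W) (hb : 0 < κ + W * b) {n m : ℕ} (hm : m ∈ Ks W κ b n) : 0 < m := by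
  unfold Ks at hm
  obtain ⟨k, hk, rfl⟩ := Finset.mem_image.1 hm
  rw [Finset.mem_Ico] at hk
  have h1 := toNat_Ks hW hb hk.1
  have h2 : W * b ≤ W * k := mul_le_mul_of_nonneg_left hk.1 hW.le
  omega

private theorem scl_inj {W κ b : ℤ} (hW : 0 < W) (hb : 0 < κ + W * b) (n : ℕ) :
    Set.InjOn (fun k => (κ + W * k).toNat) (Finset.Ico b (b + n) : Finset ℤ) := by
  intro k hk k' hk' he
  rw [Finset.mem_coe, Finset.mem_Ico] at hk hk'
  have h1 := toNat_Ks hW hb hk.1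
  have h2 := toNat_Ks hW hb hk'.1
  have he' : (κ + W * k).toNat = (κ + W * k').toNat := he
  rw [he', h2] at h1
  have h3 : W * k' = W * k := by omega
  exact (mul_left_cancel₀ hW.ne' h3).symm

theorem card_Ks {W κ b : ℤ} (hW : 0 < W) (hb : 0 < κ + W * b) (n : ℕ) : (Ks W κ b n).card = n := by
  unfold Ks
  rw [Finset.card_image_of_injOn (scl_inj hW hb n), Int.card_Ico]
  omega

theorem sum_Ks {W κ b : ℤ} (hW : 0 < W) (hb : 0 < κ + W * b) (n : ℕ) {R : Type} [AddCommMonoid R] (F : ℕ → R) :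
    ∑ m ∈ Ks W κ b n, F m = ∑ k ∈ Finset.Ico b (b + n), F (κ + W * k).toNat := by
  unfold Ks
  exact Finset.sum_image (scl_inj hW hb n)

variable {X : Type} [MeasurableSpace X] {mu : Measure X} {T : ℤ → X → X}

theorem claimC [IsProbabilityMeasure mu] (hT : ZAct mu T) {s : ℕ} {g : X → ℂ} (hg : B1 g) (h : Fin s → ℤ)
    {W κ b : ℤ} {n : ℕ} (hW : 0 < W) (hb : 0 < κ + W * b) (hn : 0 < n) {Λ : ℤ} (hΛ : 0 < Λ)
    (hd : ∀ k ∈ Finset.Ico b (b + n), (κ + W * k) ∣ Λ) {χ : ℝ}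
    (hχ : ∀ m : ℤ, m ≠ 0 → |m| ≤ 2 ^ (2 ^ s) * Λ → ee (χ * m) ≠ 1) {φ : ℕ → X → ℂ}
    (hφ : EigFam mu T (Ks W κ b n) (fun m => Del T (fun t => (m : ℤ) * h t) g) χ φ) :
    (((Ks W κ b n).card : ℝ)⁻¹ * ∑ m ∈ Ks W κ b n, ∫ x, ‖φ m x‖ ^ 2 ∂mu) ^ (2 ^ (2 ^ s)) ≤ (Cc (2 ^ s) : ℝ) / n := by
  obtain ⟨u, e, hu, hue⟩ := Del_prod hT W κ h hg
  have hmem : ∀ k ∈ Finset.Ico b (b + n), (κ + W * k).toNat ∈ Ks W κ b n := by
    intro k hk
    unfold Ks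
    exact Finset.mem_image_of_mem (fun k => (κ + W * k).toNat) hk
  have hcast : ∀ k ∈ Finset.Ico b (b + n), ((κ + W * k).toNat : ℤ) = κ + W * k := by
    intro k hk
    exact toNat_Ks hW hb (Finset.mem_Ico.1 hk).1
  have hpos : ∀ k ∈ Finset.Ico b (b + n), 0 < κ + W * k := by
    intro k hk
    have h2 : W * b ≤ W * k := mul_le_mul_of_nonneg_left (Finset.mem_Ico.1 hk).1 hW.le
    omega
  have hlab : ∀ k ∈ Finset.Ico b (b + n),
      Lab mu T Λ χ (Λ / (κ + W * k)) (φ (κ + W * k).toNat) := by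
    intro k hk
    refine Lab.of_eig hT (hpos k hk) hΛ (hd k hk) (hφ.b1 _ (hmem k hk)) ?_
    have h1 := hφ.eig _ (hmem k hk)
    rw [hcast k hk] at h1
    exact h1
  have hI : Isum mu T b (b + n) u e (fun k => φ (κ + W * k).toNat) =
      ((∑ k ∈ Finset.Ico b (b + n), ∫ x, ‖φ (κ + W * k).toNat x‖ ^ 2 ∂mu : ℝ) : ℂ) := by
    unfold Isum
    rw [Complex.ofReal_sum]
    refine Finset.sum_congr rfl fun k hk => ?_
    rw [← hφ.sq _ (hmem k hk)]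
    refine integral_congr_ae (Filter.Eventually.of_forall fun x => ?_)
    show (∏ i, u i (T (k * e i) x)) * conj (φ (κ + W * k).toNat x) =
      Del T (fun t => ((κ + W * k).toNat : ℤ) * h t) g x * conj (φ (κ + W * k).toNat x)
    rw [hcast k hk, hue k x]
  have hdist : Dist (2 ^ s) b (b + n) (fun k => Λ / (κ + W * k)) := by
    refine dist_of_cm (2 ^ s) (Or.inl (cm_inv hW hb (Λ := (Λ : ℝ)) (by exact_mod_cast hΛ))) ?_
    intro k hk
    have h1 : ((κ + W * k : ℤ) : ℝ) ≠ 0 := by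
      have := hpos k hk
      exact_mod_cast this.ne'
    rw [Int.cast_div (hd k hk) h1]
    push_cast
    rfl
  have hM : ((Λ.toNat : ℕ) : ℤ) = Λ := Int.toNat_of_nonneg hΛ.le
  have hle : ∀ k ∈ Finset.Ico b (b + n), |Λ / (κ + W * k)| ≤ ((Λ.toNat : ℕ) : ℤ) := by
    intro k hk
    rw [hM, abs_of_nonneg (Int.ediv_nonneg hΛ.le (hpos k hk).le)]
    exact Int.ediv_le_self _ hΛ.le
  have hmain := claim_ind (Λ := Λ) (χ := χ) hT (2 ^ s) b (b + n) u e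
    (fun k => φ (κ + W * k).toNat) (fun k => Λ / (κ + W * k)) Λ.toNat hu hlab hdist hle
    (by
      intro m hm hm'
      rw [hM] at hm'
      exact hχ m hm hm')
  have hn' : (b + (n : ℤ) - b).toNat = n := by omega
  rw [hI, hn', Complex.norm_real, Real.norm_eq_abs] at hmain
  have hS0 : 0 ≤ ∑ k ∈ Finset.Ico b (b + n), ∫ x, ‖φ (κ + W * k).toNat x‖ ^ 2 ∂mu :=
    Finset.sum_nonneg fun k _ => integral_nonneg fun x => sq_nonneg _
  rw [abs_of_nonneg hS0] at hmain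
  rw [card_Ks hW hb n, sum_Ks hW hb n]
  have hnR : (0 : ℝ) < n := by exact_mod_cast hn
  rw [mul_pow, inv_pow, inv_mul_le_iff₀ (pow_pos hnR _)]
  have hP : 2 ^ (2 ^ s) = (2 ^ (2 ^ s) - 1) + 1 := by
    have : 0 < 2 ^ (2 ^ s) := by positivity
    omega
  refine hmain.trans_eq ?_
  have hpow : (n : ℝ) ^ (2 ^ (2 ^ s)) = (n : ℝ) ^ (2 ^ (2 ^ s) - 1) * n := by
    conv_lhs => rw [hP]
    rw [pow_succ]
  rw [hpow]
  field_simp

end Pool.Agent.MRS
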