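import Pool.Agent.MRS.Defs

/-!
# MRS / S: definitions for the proof of Lemma S (section 3 of mrs_paper.md)

`ee χ = exp (2 π i χ)`.  `EigFam mu T Ks g χ φ`: for `k ∈ Ks` the function `φ k` is bounded by one, an eigenfunction of `T k`
with eigenvalue `ee χ`, and `∫ g_k conj φ_k = ∫ |φ_k|²` (the projection of `g_k` has these properties).
`SpecThm` (spectral half, modules Sa*) bounds the Fejer averages of the squares of `E_k ∫ g_k conj (g_k ∘ T^{k h})` by any common bound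
for the `E_k ∫ |φ_k|²`.
`Lab mu T Λ χ m ψ`: the function `ψ` is bounded by one and `ψ ∘ T^Λ = e(χ m) ψ` a.e.; `m` is the label of `ψ`.
`Dist j b c lam`: after `j` differences the labels `lam k`, `k ∈ [b, c)` are not zero.
`Am mu T g m h = ∫ Del T (m h) g` and `Phi` is `A_{κ + W k}(i - j) conj A_{κ + W k'}(i - j)` as a function of `(i, j, k, k')`.
`Isum` is the sum `∑_{k ∈ [b, c)} ∫ ∏_i u_i(T^{k e_i} x) conj (ψ_k x)`, `Ks W κ b n` the set of the numbers `κ + W k`, `k ∈ [b, b + n)`.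
-/

set_option autoImplicit false

namespace Pool.Agent.MRS

open MeasureTheory Filter Topology
open scoped BigOperators ComplexConjugate

/-- `exp (2 π i χ)` -/
noncomputable def ee (χ : ℝ) : ℂ := Complex.exp (2 * Real.pi * Complex.I * (χ : ℂ))

/-- see the header -/
structure EigFam {X : Type} [MeasurableSpace X] (mu : Measure X) (T : ℤ → X → X) (Ks : Finset ℕ)
    (g : ℕ → X → ℂ) (χ : ℝ) (φ : ℕ → X → ℂ) : Prop where
  b1 : ∀ k ∈ Ks, B1 (φ k)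
  eig : ∀ k ∈ Ks, ∀ᵐ x ∂mu, φ k (T (k : ℤ) x) = ee χ * φ k x
  sq : ∀ k ∈ Ks, ∫ x, g k x * conj (φ k x) ∂mu = ((∫ x, ‖φ k x‖ ^ 2 ∂mu : ℝ) : ℂ)

/-- spectral half of Lemma S -/
def SpecThm : Prop :=
  ∀ (X : Type) [MeasurableSpace X] (mu : Measure X) [IsProbabilityMeasure mu] (T : ℤ → X → X),
    ZAct mu T → ∀ (Ks : Finset ℕ) (g : ℕ → X → ℂ), Ks.Nonempty → (∀ k ∈ Ks, 0 < k) →
      (∀ k, B1 (g k)) → ∀ B : ℝ, 0 ≤ B →
      (∀ (χ : ℝ) (φ : ℕ → X → ℂ), EigFam mu T Ks g χ φ →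
        (Ks.card : ℝ)⁻¹ * ∑ k ∈ Ks, ∫ x, ‖φ k x‖ ^ 2 ∂mu ≤ B) →
      ∀ ε : ℝ, 0 < ε → ∃ H0 : ℕ, ∀ H : ℕ, H0 ≤ H →
        ((H : ℝ)⁻¹) ^ 2 * ∑ i ∈ Finset.Ico (0 : ℤ) H, ∑ j ∈ Finset.Ico (0 : ℤ) H,
          ‖(Ks.card : ℂ)⁻¹ * ∑ k ∈ Ks,
            ∫ x, g k x * conj (g k (T ((k : ℤ) * (i - j)) x)) ∂mu‖ ^ 2 ≤ B + ε

/-- `ψ` has label `m` -/
structure Lab {X : Type} [MeasurableSpace X] (mu : Measure X) (T : ℤ → X → X) (Λ : ℤ) (χ : ℝ)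
    (m : ℤ) (ψ : X → ℂ) : Prop where
  b1 : B1 ψ
  lab : ∀ᵐ x ∂mu, ψ (T Λ x) = ee (χ * m) * ψ x

/-- after `j` differences the labels are not zero -/
def Dist : ℕ → ℤ → ℤ → (ℤ → ℤ) → Prop
  | 0, b, c, lam => ∀ k ∈ Finset.Ico b c, lam k ≠ 0
  | j + 1, b, c, lam => ∀ d : ℤ, d ≠ 0 → Dist j (max b (b - d)) (min c (c - d)) fun k => lam k - lam (k + d)

/-- `f` is strictly completely monotone on `[b, c)` -/
def CM (b c : ℤ) (f : ℤ → ℝ) : Prop :=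
  ∀ (n : ℕ) (k : ℤ), b ≤ k → k + n < c → 0 < (-1 : ℝ) ^ n * (fwdDiff 1)^[n] f k

/-- the average of a real function over a box -/
noncomputable def ravg {ι : Type} [Fintype ι] [DecidableEq ι] (a : ι → ℤ) (N : ι → ℕ)
    (F : (ι → ℤ) → ℝ) : ℝ :=
  (∏ i, (N i : ℝ))⁻¹ * ∑ z ∈ box a N, F z

/-- `A_m(h)` -/
noncomputable def Am {X : Type} [MeasurableSpace X] (mu : Measure X) (T : ℤ → X → X) {s : ℕ}
    (g : X → ℂ) (m : ℤ) (h : Fin s → ℤ) : ℂ := ∫ x, Del T (fun t => m * h t) g x ∂mu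

/-- see the header -/
noncomputable def Phi {X : Type} [MeasurableSpace X] (mu : Measure X) (T : ℤ → X → X) {s : ℕ}
    (g : X → ℂ) (W κ : ℤ) (z : (Fin s ⊕ Fin s) ⊕ Bool → ℤ) : ℂ :=
  Am mu T g (κ + W * z (Sum.inr false)) (fun t => z (Sum.inl (Sum.inl t)) - z (Sum.inl (Sum.inr t))) *
    conj (Am mu T g (κ + W * z (Sum.inr true)) (fun t => z (Sum.inl (Sum.inl t)) - z (Sum.inl (Sum.inr t))))

/-- see the header -/
noncomputable def Isum {X : Type} [MeasurableSpace X] (mu : Measure X) (T : ℤ → X → X) {n : ℕ}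
    (b c : ℤ) (u : Fin n → X → ℂ) (e : Fin n → ℤ) (ψ : ℤ → X → ℂ) : ℂ :=
  ∑ k ∈ Finset.Ico b c, ∫ x, (∏ i, u i (T (k * e i) x)) * conj (ψ k x) ∂mu

/-- constants of Claim C -/
def Cc : ℕ → ℕ
  | 0 => 0
  | n + 1 => 2 ^ (2 ^ n) * (1 + 2 * Cc n)

/-- the numbers `κ + W k`, `k ∈ [b, b + n)` -/
noncomputable def Ks (W κ b : ℤ) (n : ℕ) : Finset ℕ := (Finset.Ico b (b + n)).image fun k => (κ + W * k).toNat

end Pool.Agent.MRS
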