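import Pool.Agent.MRS.SDefs

/-!
# MRS / S: multiplicative derivatives

PROOFS.  `cj_succ`: parity (`Nat.even_add_one`), `Complex.conj_conj`.  `norm_cjS`: `RCLike.norm_conj`.
`Del_cons`: split the subsets `ω` of `Fin (s + 1)` into `ω = image Fin.succ ω'` and `ω = insert 0 (image Fin.succ ω')` (for instance
`Finset.prod_bij'`, or induct with `Fin.consEquiv`; a convenient way: `Finset.powerset` of `univ = insert 0 (univ.map Fin.succEmb)`, `Finset.prod_powerset_insert`
after rewriting `∏ ω : Finset (Fin (s+1))` as `∏ ω ∈ univ.powerset`), the sum `∑ i ∈ insert 0 (map succ ω'), cons h0 h i = h0 + ∑ i ∈ ω', h i`, the cardinal is `ω'.card + 1`,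
`T (h0 + S) x = T S (T h0 x)` (`ZAct.add`, `add_comm`), `cj_succ`, `map_prod` for the conjugation.
`B1_Del`: products of measurable functions of norm at most one.  `integral_comp`: `MeasurePreserving.map_eq`, `integral_map` (with
`(hT.mp n).measurable.aemeasurable` and the strong measurability of `f`).
`Del_prod`: `Finset.mul_sum`; reindex the product over `Finset (Fin s)` by an equivalence with `Fin (2 ^ s)` (`Fintype.equivFinOfCardEq`, `Fintype.card_finset`,
`Fintype.card_fin`): `u i x = cj (e i).card (g x)` composed with `T (κ * ..)`.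
-/

set_option autoImplicit false

namespace Pool.Agent.MRS

open MeasureTheory Filter Topology
open scoped BigOperators ComplexConjugate

theorem cj_succ (n : ℕ) (z : ℂ) : cj (n + 1) z = conj (cj n z) := by
  unfold cj
  by_cases h : Even n
  · rw [if_pos h, if_neg (by rw [Nat.even_add_one]; exact fun h' => h' h)]
  · rw [if_neg h, if_pos (by rw [Nat.even_add_one]; exact h), Complex.conj_conj]

theorem norm_cjS (n : ℕ) (z : ℂ) : ‖cj n z‖ = ‖z‖ := by
  unfold cj
  split_ifs
  · rfl
  · exact RCLike.norm_conj z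

variable {X : Type} [MeasurableSpace X] {mu : Measure X} {T : ℤ → X → X}

theorem ZAct.integral_comp (hT : ZAct mu T) (n : ℤ) {f : X → ℂ} (hf : Measurable f) :
    ∫ x, f (T n x) ∂mu = ∫ x, f x ∂mu := by
  have h := integral_map (μ := mu) (hT.mp n).measurable.aemeasurable (f := f)
    hf.aestronglyMeasurable
  rw [(hT.mp n).map_eq] at h
  exact h.symm

theorem B1.compS {f : X → ℂ} (hf : B1 f) (hT : ZAct mu T) (n : ℤ) : B1 fun x => f (T n x) :=
  ⟨hf.meas.comp (hT.mp n).measurable, fun _ => hf.le _⟩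

theorem B1.conj' {f : X → ℂ} (hf : B1 f) : B1 fun x => conj (f x) :=
  ⟨Complex.continuous_conj.measurable.comp hf.meas, fun x => by
    rw [RCLike.norm_conj]
    exact hf.le x⟩

theorem B1.mulS {f f' : X → ℂ} (hf : B1 f) (hf' : B1 f') : B1 fun x => f x * f' x :=
  ⟨hf.meas.mul hf'.meas, fun x => by
    rw [norm_mul]
    exact mul_le_one₀ (hf.le x) (norm_nonneg _) (hf'.le x)⟩

theorem B1.cj {f : X → ℂ} (hf : B1 f) (n : ℕ) : B1 fun x => cj n (f x) := by
  unfold Pool.Agent.MRS.cj
  split_ifs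
  · exact hf
  · exact hf.conj'

theorem B1.prodS {ι : Type} (s : Finset ι) {f : ι → X → ℂ} (hf : ∀ i ∈ s, B1 (f i)) :
    B1 fun x => ∏ i ∈ s, f i x := by
  refine ⟨Finset.measurable_prod s fun i hi => (hf i hi).meas, fun x => ?_⟩
  rw [norm_prod]
  exact Finset.prod_le_one (fun i _ => norm_nonneg _) fun i hi => (hf i hi).le x

theorem B1.integrableS [IsProbabilityMeasure mu] {f : X → ℂ} (hf : B1 f) : Integrable f mu :=
  Integrable.of_bound hf.meas.aestronglyMeasurable 1 (Filter.Eventually.of_forall hf.le)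

theorem B1.norm_integral_le [IsProbabilityMeasure mu] {f : X → ℂ} (hf : B1 f) : ‖∫ x, f x ∂mu‖ ≤ 1 := by
  have h := norm_integral_le_of_norm_le_const (μ := mu) (Filter.Eventually.of_forall hf.le)
  simpa using h

theorem B1_Del {s : ℕ} (hT : ZAct mu T) (h : Fin s → ℤ) {g : X → ℂ} (hg : B1 g) : B1 (Del T h g) :=
  B1.prodS Finset.univ fun _ _ => (hg.compS hT _).cj _

private theorem prod_cons42 {s : ℕ} (f : Finset (Fin (s + 1)) → ℂ) :
    ∏ ω, f ω = (∏ ω : Finset (Fin s), f (ω.map (Fin.succEmb s))) *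
      ∏ ω : Finset (Fin s), f (insert 0 (ω.map (Fin.succEmb s))) := by
  have huniv : (Finset.univ : Finset (Fin (s + 1))) =
      insert 0 (Finset.univ.map (Fin.succEmb s)) := by
    ext i
    refine Fin.cases ?_ (fun j => ?_) i
    · simp
    · simp
  have h0 : (0 : Fin (s + 1)) ∉ Finset.univ.map (Fin.succEmb s) := by
    rw [Finset.mem_map]
    rintro ⟨j, -, hj⟩
    exact Fin.succ_ne_zero j hj
  have hg : ∀ g : Finset (Fin (s + 1)) → ℂ,
      ∏ t ∈ (Finset.univ.map (Fin.succEmb s)).powerset, g t =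
        ∏ ω : Finset (Fin s), g (ω.map (Fin.succEmb s)) := by
    intro g
    symm
    refine Finset.prod_bij (fun ω _ => ω.map (Fin.succEmb s)) ?_ ?_ ?_ ?_
    · intro ω _
      rw [Finset.mem_powerset]
      exact Finset.map_subset_map.2 (Finset.subset_univ ω)
    · intro ω _ ω' _ h
      exact Finset.map_injective _ h
    · intro t ht
      rw [Finset.mem_powerset, Finset.subset_map_iff] at ht
      obtain ⟨ω, -, h⟩ := ht
      exact ⟨ω, Finset.mem_univ ω, h.symm⟩
    · intro ω _
      rfl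
  rw [← Finset.powerset_univ, huniv, Finset.prod_powerset_insert h0, hg,
    hg fun t => f (insert 0 t)]

theorem Del_cons {s : ℕ} (hT : ZAct mu T) (h0 : ℤ) (h : Fin s → ℤ) (g : X → ℂ) (x : X) :
    Del T (Fin.cons h0 h : Fin (s + 1) → ℤ) g x = Del T h g x * conj (Del T h g (T h0 x)) := by
  unfold Del
  rw [prod_cons42, map_prod]
  have hsum : ∀ ω : Finset (Fin s), ∑ i ∈ ω.map (Fin.succEmb s),
      (Fin.cons h0 h : Fin (s + 1) → ℤ) i = ∑ i ∈ ω, h i := by
    intro ω
    rw [Finset.sum_map]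
    exact Finset.sum_congr rfl fun i _ => by simp
  have h0' : ∀ ω : Finset (Fin s), (0 : Fin (s + 1)) ∉ ω.map (Fin.succEmb s) := by
    intro ω
    rw [Finset.mem_map]
    rintro ⟨j, -, hj⟩
    exact Fin.succ_ne_zero j hj
  congr 1
  · refine Finset.prod_congr rfl fun ω _ => ?_
    rw [hsum, Finset.card_map]
  · refine Finset.prod_congr rfl fun ω _ => ?_
    rw [Finset.card_insert_of_notMem (h0' ω), Finset.card_map, Finset.sum_insert (h0' ω), hsum,
      Fin.cons_zero, cj_succ, add_comm h0, hT.add]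

/-- `Del T (m h) g`, `m = κ + W k`, as a product of `2^s` functions along `k e_i` -/
theorem Del_prod {s : ℕ} (hT : ZAct mu T) (W κ : ℤ) (h : Fin s → ℤ) {g : X → ℂ} (hg : B1 g) :
    ∃ (u : Fin (2 ^ s) → X → ℂ) (e : Fin (2 ^ s) → ℤ), (∀ i, B1 (u i)) ∧
      ∀ (k : ℤ) (x : X), Del T (fun t => (κ + W * k) * h t) g x = ∏ i, u i (T (k * e i) x) := by
  have hcard : Fintype.card (Finset (Fin s)) = 2 ^ s := by
    rw [Fintype.card_finset, Fintype.card_fin]
  let E : Finset (Fin s) ≃ Fin (2 ^ s) := Fintype.equivFinOfCardEq hcard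
  refine ⟨fun i y => cj (E.symm i).card (g (T (κ * ∑ t ∈ E.symm i, h t) y)),
    fun i => W * ∑ t ∈ E.symm i, h t, fun i => (hg.compS hT _).cj _, fun k x => ?_⟩
  unfold Del
  refine Fintype.prod_equiv E _ _ fun ω => ?_
  beta_reduce
  rw [Equiv.symm_apply_apply, ← hT.add, ← Finset.mul_sum]
  congr 3
  ring

end Pool.Agent.MRS
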