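import Pool.Agent.MRS.SSpe
import Pool.Agent.MRS.SBav

/-!
# MRS / S: one box with a small average

PROOF of `exists_small`.  Put `ε₁ = ε₃ = ε / 4`, `P = 2 ^ (2 ^ s)`.  Choose `n ≥ max N0 1` with `Cc (2 ^ s) / n ≤ ε₁ ^ P`, `b = |κ| + 1` (so `κ + W b ≥ κ + |κ| + 1 > 0`),
`Λ = (∏_{k ∈ [b, b + n)} (κ + W k)).toNat` (positive, divisible by all `κ + W k`: `Finset.dvd_prod_of_mem`), `Q = P * Λ`.
For each of the finitely many `m ∈ Ks`, `q ∈ [1, Q]` let `H1(m, q)` be from `null_rk` with `ε / (4 Q)`; `H = max` of `N0`, `1` and all `H1(m, q)` (`Finset.sup`).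
For every `h : Fin s → ℤ` let `H0(h)` be from `spec_bound` (with this `H`); `H' = max` of `N0`, `1` and `H0(i - j)` for `i, j ∈ box 0 (fun _ => H)`.
`N = Fin.cons H' (fun _ => H)`, `K = n`.  With `0 = Fin.cons 0 0` and `bavg_cons` (for `i` and for `j`), `bavg_commS`, `bavg_ofReal` the average is
`ravg_{i''} ravg_{j''} ((H'⁻¹)² ∑_{i0, j0 < H'} ‖G (Fin.cons (i0 - j0) (i'' - j''))‖²)` (`Fin.cons i0 i'' t - Fin.cons j0 j'' t = Fin.cons (i0 - j0) (i'' - j'') t`), all over `box 0 (fun _ => H)` in `Fin s → ℤ`,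
at most `ravg ravg (ε₁ + ∑_q n⁻¹ ∑_m (Rk ..).re + ε₃)` (`ravg_mono`, `spec_bound` for `h = i'' - j''`) `≤ ε₁ + ε₃ + ∑_q n⁻¹ ∑_m ravg ravg (Rk ..).re` (`ravg_add`, `ravg_finset_sum`, `ravg_mul_left`, `ravg_const_le`),
and `ravg ravg (Rk ..).re = (bavg bavg (Rk ..)).re ≤ ε / (4 Q)` (`Rk_eq` shows that `Rk` is real; `null_rk`).  Total `≤ 3 ε / 4`.
The average is a nonnegative real number, so its norm is its value.
-/

set_option autoImplicit false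

namespace Pool.Agent.MRS

open MeasureTheory Filter Topology
open scoped BigOperators ComplexConjugate

private theorem sex_cons0 (s : ℕ) : (Fin.cons (0 : ℤ) (0 : Fin s → ℤ) : Fin (s + 1) → ℤ) = 0 := by
  funext t
  refine Fin.cases ?_ (fun t => ?_) t
  · rfl
  · rfl

private theorem sex_cons_sub {s : ℕ} (i0 j0 : ℤ) (i j : Fin s → ℤ) :
    (Fin.cons i0 i : Fin (s + 1) → ℤ) - Fin.cons j0 j = Fin.cons (i0 - j0) (i - j) := by
  funext t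
  refine Fin.cases ?_ (fun t => ?_) t
  · rfl
  · rfl

private theorem sex_dbl {s : ℕ} (n0 H : ℕ) (F : (Fin (s + 1) → ℤ) → (Fin (s + 1) → ℤ) → ℂ) :
    bavg (0 : Fin (s + 1) → ℤ) (Fin.cons n0 (fun _ => H) : Fin (s + 1) → ℕ) (fun i =>
      bavg (0 : Fin (s + 1) → ℤ) (Fin.cons n0 (fun _ => H) : Fin (s + 1) → ℕ) (fun j => F i j)) =
    bavg (0 : Fin s → ℤ) (fun _ => H) (fun i => bavg (0 : Fin s → ℤ) (fun _ => H) (fun j =>
      ((n0 : ℂ)⁻¹) ^ 2 * ∑ i0 ∈ Finset.Ico (0 : ℤ) n0, ∑ j0 ∈ Finset.Ico (0 : ℤ) n0,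
        F (Fin.cons i0 i) (Fin.cons j0 j))) := by
  have h1 : ∀ Φ : (Fin (s + 1) → ℤ) → ℂ,
      bavg (0 : Fin (s + 1) → ℤ) (Fin.cons n0 (fun _ => H) : Fin (s + 1) → ℕ) Φ =
        (n0 : ℂ)⁻¹ * ∑ i0 ∈ Finset.Ico (0 : ℤ) n0,
          bavg (0 : Fin s → ℤ) (fun _ => H) (fun z => Φ (Fin.cons i0 z)) := by
    intro Φ
    have h2 := bavg_cons (0 : ℤ) n0 (0 : Fin s → ℤ) (fun _ => H) Φ
    rw [sex_cons0, zero_add] at h2
    exact h2
  have h3 : ∀ i : Fin s → ℤ, bavg (0 : Fin s → ℤ) (fun _ => H) (fun j =>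
      ((n0 : ℂ)⁻¹) ^ 2 * ∑ i0 ∈ Finset.Ico (0 : ℤ) n0, ∑ j0 ∈ Finset.Ico (0 : ℤ) n0,
        F (Fin.cons i0 i) (Fin.cons j0 j)) =
      (n0 : ℂ)⁻¹ * ∑ i0 ∈ Finset.Ico (0 : ℤ) n0, ((n0 : ℂ)⁻¹ * ∑ j0 ∈ Finset.Ico (0 : ℤ) n0,
        bavg (0 : Fin s → ℤ) (fun _ => H) (fun j => F (Fin.cons i0 i) (Fin.cons j0 j))) := by
    intro i
    rw [bavg_mul_left, bavg_finset_sum, pow_two, mul_assoc]
    congr 1
    rw [Finset.mul_sum]
    refine Finset.sum_congr rfl fun i0 _ => ?_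
    rw [bavg_finset_sum]
  have h4 : (fun i : Fin s → ℤ => bavg (0 : Fin s → ℤ) (fun _ => H) (fun j =>
      ((n0 : ℂ)⁻¹) ^ 2 * ∑ i0 ∈ Finset.Ico (0 : ℤ) n0, ∑ j0 ∈ Finset.Ico (0 : ℤ) n0,
        F (Fin.cons i0 i) (Fin.cons j0 j))) = fun i =>
      (n0 : ℂ)⁻¹ * ∑ i0 ∈ Finset.Ico (0 : ℤ) n0, ((n0 : ℂ)⁻¹ * ∑ j0 ∈ Finset.Ico (0 : ℤ) n0,
        bavg (0 : Fin s → ℤ) (fun _ => H) (fun j => F (Fin.cons i0 i) (Fin.cons j0 j))) :=
    funext h3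
  rw [h1, h4, bavg_mul_left, bavg_finset_sum]
  congr 1
  refine Finset.sum_congr rfl fun i0 _ => ?_
  refine bavg_congr fun i _ => ?_
  exact h1 _

private theorem sex_real {s : ℕ} (H : ℕ) (F : (Fin s → ℤ) → (Fin s → ℤ) → ℝ) :
    bavg (0 : Fin s → ℤ) (fun _ => H) (fun i => bavg (0 : Fin s → ℤ) (fun _ => H) (fun j =>
      ((F i j : ℝ) : ℂ))) = ((ravg (0 : Fin s → ℤ) (fun _ => H) (fun i =>
        ravg (0 : Fin s → ℤ) (fun _ => H) (fun j => F i j)) : ℝ) : ℂ) := by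
  rw [← bavg_ofReal]
  refine bavg_congr fun i _ => ?_
  exact bavg_ofReal _ _ _

theorem exists_small (hS : SpecThm) {X : Type} [MeasurableSpace X] {mu : Measure X} [IsProbabilityMeasure mu]
    {T : ℤ → X → X} (hT : ZAct mu T) {s : ℕ} {g : X → ℂ} (hg : B1 g) (hN : Null mu T (s + 1) g)
    {W κ : ℤ} (hW : 0 < W) {ε : ℝ} (hε : 0 < ε) (N0 : ℕ) :
    ∃ (N : Fin (s + 1) → ℕ) (b : ℤ) (K : ℕ), (∀ i, N0 ≤ N i) ∧ N0 ≤ K ∧
      ‖bavg (0 : Fin (s + 1) → ℤ) N (fun i => bavg (0 : Fin (s + 1) → ℤ) N (fun j =>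
        ((‖(K : ℂ)⁻¹ * ∑ k ∈ Finset.Ico b (b + K),
          ∫ x, Del T (fun t => (κ + W * k) * (i t - j t)) g x ∂mu‖ ^ 2 : ℝ) : ℂ)))‖ ≤ ε := by
  classical
  have hε4 : 0 < ε / 4 := by positivity
  -- the number `n`
  obtain ⟨n1, hn1⟩ := exists_nat_ge ((Cc (2 ^ s) : ℝ) / (ε / 4) ^ (2 ^ (2 ^ s)))
  set n : ℕ := max (max N0 1) n1 with hnd
  have hnN0 : N0 ≤ n := (le_max_left _ _).trans (le_max_left _ _)
  have hn : 0 < n := lt_of_lt_of_le one_pos ((le_max_right _ _).trans (le_max_left _ _))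
  have hnR : (0 : ℝ) < n := by exact_mod_cast hn
  have hpow : 0 < (ε / 4) ^ (2 ^ (2 ^ s)) := pow_pos hε4 _
  have hc : (Cc (2 ^ s) : ℝ) / n ≤ (ε / 4) ^ (2 ^ (2 ^ s)) := by
    rw [div_le_iff₀ hnR]
    rw [div_le_iff₀ hpow] at hn1
    have h1 : (n1 : ℝ) ≤ n := by exact_mod_cast le_max_right _ _
    calc (Cc (2 ^ s) : ℝ) ≤ n1 * (ε / 4) ^ (2 ^ (2 ^ s)) := hn1
      _ ≤ n * (ε / 4) ^ (2 ^ (2 ^ s)) := mul_le_mul_of_nonneg_right h1 hpow.le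
      _ = _ := mul_comm _ _
  -- the number `b`
  set b : ℤ := |κ| + 1 with hbd
  have hb : 0 < κ + W * b := by
    have h1 : 0 < b := by
      have := abs_nonneg κ
      omega
    have h2 : b ≤ W * b := le_mul_of_one_le_left h1.le hW
    have h3 := neg_abs_le κ
    omega
  have hpos : ∀ k ∈ Finset.Ico b (b + (n : ℤ)), 0 < κ + W * k := by
    intro k hk
    have h2 : W * b ≤ W * k := mul_le_mul_of_nonneg_left (Finset.mem_Ico.1 hk).1 hW.le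
    omega
  -- the number `Λ`
  have hprod : 0 < ∏ k ∈ Finset.Ico b (b + (n : ℤ)), (κ + W * k) := Finset.prod_pos hpos
  set Λ : ℕ := (∏ k ∈ Finset.Ico b (b + (n : ℤ)), (κ + W * k)).toNat with hΛd
  have hΛc : (Λ : ℤ) = ∏ k ∈ Finset.Ico b (b + (n : ℤ)), (κ + W * k) :=
    Int.toNat_of_nonneg hprod.le
  have hΛ : 0 < Λ := by
    have : (0 : ℤ) < Λ := by
      rw [hΛc]
      exact hprod
    exact_mod_cast this
  have hd : ∀ k ∈ Finset.Ico b (b + (n : ℤ)), (κ + W * k) ∣ (Λ : ℤ) := by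
    intro k hk
    rw [hΛc]
    exact Finset.dvd_prod_of_mem _ hk
  set Q : ℕ := 2 ^ (2 ^ s) * Λ with hQd
  have hQ : 0 < Q := by positivity
  have hQR : (0 : ℝ) < Q := by exact_mod_cast hQ
  have hεQ : 0 < ε / (4 * Q) := by positivity
  -- the number `H`
  have hH1 : ∀ m q : ℕ, ∃ H1 : ℕ, 0 < m → 0 < q → ∀ H : ℕ, H1 ≤ H →
      ‖bavg (0 : Fin s → ℤ) (fun _ => H) (fun i => bavg (0 : Fin s → ℤ) (fun _ => H) (fun j =>
        Rk mu T (Del T (fun t => (m : ℤ) * (i t - j t)) g) ((m : ℤ) * q) H))‖ ≤ ε / (4 * Q) := by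
    intro m q
    by_cases hm : 0 < m
    · by_cases hq : 0 < q
      · obtain ⟨H1, h⟩ := null_rk hT hg hN hm hq hεQ
        exact ⟨H1, fun _ _ => h⟩
      · exact ⟨0, fun _ h => absurd h hq⟩
    · exact ⟨0, fun h => absurd h hm⟩
  choose H1 hH1 using hH1
  set H : ℕ := max (max N0 1) (∑ m ∈ Ks W κ b n, ∑ q ∈ Finset.Icc 1 Q, H1 m q) with hHd
  have hHN0 : N0 ≤ H := (le_max_left _ _).trans (le_max_left _ _)
  have hH : 0 < H := lt_of_lt_of_le one_pos ((le_max_right _ _).trans (le_max_left _ _))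
  have hH1le : ∀ m ∈ Ks W κ b n, ∀ q ∈ Finset.Icc 1 Q, H1 m q ≤ H := by
    intro m hm q hq
    refine le_trans ?_ (le_max_right _ _)
    refine le_trans ?_ (Finset.single_le_sum (f := fun m => ∑ q ∈ Finset.Icc 1 Q, H1 m q)
      (fun _ _ => Nat.zero_le _) hm)
    exact Finset.single_le_sum (f := fun q => H1 m q) (fun _ _ => Nat.zero_le _) hq
  -- the number `H'`
  have hsp := fun h : Fin s → ℤ =>
    spec_bound hS hT hg h hW hb hn hΛ hd hε4.le hc hH hε4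
  choose H0 hH0 using hsp
  set H' : ℕ := max (max N0 1) (∑ i ∈ box (0 : Fin s → ℤ) (fun _ => H),
    ∑ j ∈ box (0 : Fin s → ℤ) (fun _ => H), H0 (i - j)) with hH'd
  have hH'N0 : N0 ≤ H' := (le_max_left _ _).trans (le_max_left _ _)
  have hH0le : ∀ i ∈ box (0 : Fin s → ℤ) (fun _ => H), ∀ j ∈ box (0 : Fin s → ℤ) (fun _ => H),
      H0 (i - j) ≤ H' := by
    intro i hi j hj
    refine le_trans ?_ (le_max_right _ _)
    refine le_trans ?_ (Finset.single_le_sum (f := fun i =>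
      ∑ j ∈ box (0 : Fin s → ℤ) (fun _ => H), H0 (i - j)) (fun _ _ => Nat.zero_le _) hi)
    exact Finset.single_le_sum (f := fun j => H0 (i - j)) (fun _ _ => Nat.zero_le _) hj
  refine ⟨Fin.cons H' (fun _ => H), b, n, ?_, hnN0, ?_⟩
  · intro t
    refine Fin.cases ?_ (fun t => ?_) t
    · exact hH'N0
    · exact hHN0
  -- the average
  set G : (Fin (s + 1) → ℤ) → ℝ := fun z => ‖(n : ℂ)⁻¹ * ∑ k ∈ Finset.Ico b (b + (n : ℤ)),
    ∫ x, Del T (fun t => (κ + W * k) * z t) g x ∂mu‖ ^ 2 with hGd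
  have hG0 : ∀ z, 0 ≤ G z := fun z => sq_nonneg _
  set R : (Fin s → ℤ) → (Fin s → ℤ) → ℝ := fun i j => ((H' : ℝ)⁻¹) ^ 2 *
    ∑ i0 ∈ Finset.Ico (0 : ℤ) H', ∑ j0 ∈ Finset.Ico (0 : ℤ) H',
      G (Fin.cons (i0 - j0) (i - j)) with hRd
  have hR0 : ∀ i j, 0 ≤ R i j := fun i j => mul_nonneg (sq_nonneg _)
    (Finset.sum_nonneg fun _ _ => Finset.sum_nonneg fun _ _ => hG0 _)
  have hexp : bavg (0 : Fin (s + 1) → ℤ) (Fin.cons H' (fun _ => H) : Fin (s + 1) → ℕ) (fun i =>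
      bavg (0 : Fin (s + 1) → ℤ) (Fin.cons H' (fun _ => H) : Fin (s + 1) → ℕ) (fun j =>
        ((G (i - j) : ℝ) : ℂ))) = ((ravg (0 : Fin s → ℤ) (fun _ => H) (fun i =>
        ravg (0 : Fin s → ℤ) (fun _ => H) (fun j => R i j)) : ℝ) : ℂ) := by
    rw [sex_dbl, ← sex_real]
    refine bavg_congr fun i _ => bavg_congr fun j _ => ?_
    rw [hRd]
    push_cast
    congr 1
    refine Finset.sum_congr rfl fun i0 _ => Finset.sum_congr rfl fun j0 _ => ?_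
    rw [sex_cons_sub]
  have hgoal : bavg (0 : Fin (s + 1) → ℤ) (Fin.cons H' (fun _ => H) : Fin (s + 1) → ℕ) (fun i =>
      bavg (0 : Fin (s + 1) → ℤ) (Fin.cons H' (fun _ => H) : Fin (s + 1) → ℕ) (fun j =>
        ((‖(n : ℂ)⁻¹ * ∑ k ∈ Finset.Ico b (b + (n : ℤ)),
          ∫ x, Del T (fun t => (κ + W * k) * (i t - j t)) g x ∂mu‖ ^ 2 : ℝ) : ℂ))) =
      ((ravg (0 : Fin s → ℤ) (fun _ => H) (fun i =>
        ravg (0 : Fin s → ℤ) (fun _ => H) (fun j => R i j)) : ℝ) : ℂ) := hexp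
  rw [hgoal, Complex.norm_real, Real.norm_eq_abs, abs_of_nonneg (ravg_nonneg fun i _ =>
    ravg_nonneg fun j _ => hR0 i j)]
  -- the bound
  set r : ℕ → ℕ → (Fin s → ℤ) → (Fin s → ℤ) → ℝ := fun m q i j =>
    (Rk mu T (Del T (fun t => (m : ℤ) * (i t - j t)) g) ((m : ℤ) * (q : ℤ)) H).re with hrd
  have hRle : ∀ i ∈ box (0 : Fin s → ℤ) (fun _ => H), ∀ j ∈ box (0 : Fin s → ℤ) (fun _ => H),
      R i j ≤ (ε / 4 + ∑ q ∈ Finset.Icc (1 : ℕ) Q, (n : ℝ)⁻¹ * ∑ m ∈ Ks W κ b n, r m q i j) +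
        ε / 4 := by
    intro i hi j hj
    exact hH0 (i - j) H' (hH0le i hi j hj)
  have hr : ∀ m ∈ Ks W κ b n, ∀ q ∈ Finset.Icc 1 Q,
      ravg (0 : Fin s → ℤ) (fun _ => H) (fun i => ravg (0 : Fin s → ℤ) (fun _ => H) (fun j =>
        r m q i j)) ≤ ε / (4 * Q) := by
    intro m hm q hq
    have h1 := hH1 m q (pos_of_mem_Ks hW hb hm) (by
      have := (Finset.mem_Icc.1 hq).1
      omega) H (hH1le m hm q hq)
    have h2 : bavg (0 : Fin s → ℤ) (fun _ => H) (fun i => bavg (0 : Fin s → ℤ) (fun _ => H)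
        (fun j => Rk mu T (Del T (fun t => (m : ℤ) * (i t - j t)) g) ((m : ℤ) * q) H)) =
        ((ravg (0 : Fin s → ℤ) (fun _ => H) (fun i => ravg (0 : Fin s → ℤ) (fun _ => H) (fun j =>
          r m q i j)) : ℝ) : ℂ) := by
      rw [← sex_real]
      refine bavg_congr fun i _ => bavg_congr fun j _ => ?_
      show Rk mu T (Del T (fun t => (m : ℤ) * (i t - j t)) g) ((m : ℤ) * q) H =
        (((Rk mu T (Del T (fun t => (m : ℤ) * (i t - j t)) g) ((m : ℤ) * (q : ℤ)) H).re : ℝ) : ℂ)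
      rw [Rk_eq hT (B1_Del hT _ hg), Complex.ofReal_re]
    rw [h2, Complex.norm_real, Real.norm_eq_abs] at h1
    exact (le_abs_self _).trans h1
  have hmono : ravg (0 : Fin s → ℤ) (fun _ => H) (fun i =>
        ravg (0 : Fin s → ℤ) (fun _ => H) (fun j => R i j)) ≤
      ravg (0 : Fin s → ℤ) (fun _ => H) (fun i => ravg (0 : Fin s → ℤ) (fun _ => H) (fun j =>
        (ε / 4 + ∑ q ∈ Finset.Icc (1 : ℕ) Q, (n : ℝ)⁻¹ * ∑ m ∈ Ks W κ b n, r m q i j) +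
          ε / 4)) := ravg_mono fun i hi => ravg_mono fun j hj => hRle i hi j hj
  have hconst : ravg (0 : Fin s → ℤ) (fun _ => H) (fun _ =>
      ravg (0 : Fin s → ℤ) (fun _ => H) (fun _ => ε / 4)) ≤ ε / 4 := by
    refine (ravg_mono fun i _ => ravg_const_le (0 : Fin s → ℤ) (fun _ => H) hε4.le).trans ?_
    exact ravg_const_le _ _ hε4.le
  have hsum : ravg (0 : Fin s → ℤ) (fun _ => H) (fun i => ravg (0 : Fin s → ℤ) (fun _ => H)
      (fun j => ∑ q ∈ Finset.Icc (1 : ℕ) Q, (n : ℝ)⁻¹ * ∑ m ∈ Ks W κ b n, r m q i j)) =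
      ∑ q ∈ Finset.Icc (1 : ℕ) Q, (n : ℝ)⁻¹ * ∑ m ∈ Ks W κ b n,
        ravg (0 : Fin s → ℤ) (fun _ => H) (fun i => ravg (0 : Fin s → ℤ) (fun _ => H) (fun j =>
          r m q i j)) := by
    have h1 : ∀ i : Fin s → ℤ, ravg (0 : Fin s → ℤ) (fun _ => H)
        (fun j => ∑ q ∈ Finset.Icc (1 : ℕ) Q, (n : ℝ)⁻¹ * ∑ m ∈ Ks W κ b n, r m q i j) =
        ∑ q ∈ Finset.Icc (1 : ℕ) Q, (n : ℝ)⁻¹ * ∑ m ∈ Ks W κ b n,
          ravg (0 : Fin s → ℤ) (fun _ => H) (fun j => r m q i j) := by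
      intro i
      rw [ravg_finset_sum]
      refine Finset.sum_congr rfl fun q _ => ?_
      rw [ravg_mul_left, ravg_finset_sum]
    rw [show (fun i : Fin s → ℤ => ravg (0 : Fin s → ℤ) (fun _ => H)
        (fun j => ∑ q ∈ Finset.Icc (1 : ℕ) Q, (n : ℝ)⁻¹ * ∑ m ∈ Ks W κ b n, r m q i j)) =
        fun i => ∑ q ∈ Finset.Icc (1 : ℕ) Q, (n : ℝ)⁻¹ * ∑ m ∈ Ks W κ b n,
          ravg (0 : Fin s → ℤ) (fun _ => H) (fun j => r m q i j) from funext h1]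
    rw [ravg_finset_sum]
    refine Finset.sum_congr rfl fun q _ => ?_
    rw [ravg_mul_left, ravg_finset_sum]
  have hsumle : ∑ q ∈ Finset.Icc (1 : ℕ) Q, (n : ℝ)⁻¹ * ∑ m ∈ Ks W κ b n,
        ravg (0 : Fin s → ℤ) (fun _ => H) (fun i => ravg (0 : Fin s → ℤ) (fun _ => H) (fun j =>
          r m q i j)) ≤ ε / 4 := by
    have h1 : ∀ q ∈ Finset.Icc (1 : ℕ) Q, (n : ℝ)⁻¹ * ∑ m ∈ Ks W κ b n,
        ravg (0 : Fin s → ℤ) (fun _ => H) (fun i => ravg (0 : Fin s → ℤ) (fun _ => H) (fun j =>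
          r m q i j)) ≤ ε / (4 * Q) := by
      intro q hq
      have h2 : ∑ m ∈ Ks W κ b n,
        ravg (0 : Fin s → ℤ) (fun _ => H) (fun i => ravg (0 : Fin s → ℤ) (fun _ => H) (fun j =>
          r m q i j)) ≤ ∑ _m ∈ Ks W κ b n, ε / (4 * Q) :=
        Finset.sum_le_sum fun m hm => hr m hm q hq
      rw [Finset.sum_const, card_Ks hW hb, nsmul_eq_mul] at h2
      rw [inv_mul_le_iff₀ hnR]
      exact h2
    refine (Finset.sum_le_sum h1).trans (le_of_eq ?_)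
    rw [Finset.sum_const, Nat.card_Icc, nsmul_eq_mul, Nat.add_sub_cancel]
    field_simp
  have hsplit : ravg (0 : Fin s → ℤ) (fun _ => H) (fun i => ravg (0 : Fin s → ℤ) (fun _ => H)
      (fun j => (ε / 4 + ∑ q ∈ Finset.Icc (1 : ℕ) Q, (n : ℝ)⁻¹ * ∑ m ∈ Ks W κ b n, r m q i j) +
        ε / 4)) = (ravg (0 : Fin s → ℤ) (fun _ => H) (fun _ =>
        ravg (0 : Fin s → ℤ) (fun _ => H) (fun _ => ε / 4)) +
      ravg (0 : Fin s → ℤ) (fun _ => H) (fun i => ravg (0 : Fin s → ℤ) (fun _ => H)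
      (fun j => ∑ q ∈ Finset.Icc (1 : ℕ) Q, (n : ℝ)⁻¹ * ∑ m ∈ Ks W κ b n, r m q i j))) +
      ravg (0 : Fin s → ℤ) (fun _ => H) (fun _ =>
        ravg (0 : Fin s → ℤ) (fun _ => H) (fun _ => ε / 4)) := by
    simp only [ravg_add]
  rw [hsplit, hsum] at hmono
  linarith

end Pool.Agent.MRS
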