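import Pool.Agent.MRS.SWal
import Pool.Agent.MRS.SEx

/-!
# MRS / S: Lemma S

By `walsh_phi` the box averages of `Phi` over boxes with long sides differ by at most `ε / 2`, and by `exists_small`
there is one such box where the average is at most `ε / 2`.
-/

set_option autoImplicit false

namespace Pool.Agent.MRS

open MeasureTheory Filter Topology
open scoped BigOperators ComplexConjugate

theorem lemmaS_of (hW : WalshBox) (hS : SpecThm) : LemmaS := by
  intro X _ mu _ T hT s g hs hg hN W κ hW0 ε hε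
  obtain ⟨s', rfl⟩ : ∃ s', s = s' + 1 := ⟨s - 1, by omega⟩
  have hε2 : 0 < ε / 2 := by linarith
  obtain ⟨N0, h0⟩ := walsh_phi hW mu T hT (s' + 1) g hg (W : ℤ) κ hε2
  have hWz : (0 : ℤ) < (W : ℤ) := by exact_mod_cast hW0
  obtain ⟨M, b₁, K₁, hM, hK₁, hsm⟩ := exists_small hS hT hg hN (κ := κ) hWz hε2 N0
  refine ⟨N0, fun a a' N N' b K h1 h2 h3 => ?_⟩
  rw [lemS_eq mu T g (W : ℤ) κ] at hsm ⊢
  have h4 := h0 (Sum.elim (Sum.elim a a') (fun _ : Bool => b))
    (Sum.elim (Sum.elim 0 0) (fun _ : Bool => b₁))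
    (Sum.elim (Sum.elim N N') (fun _ => K)) (Sum.elim (Sum.elim M M) (fun _ => K₁))
    (by rintro ((i | i) | i); exacts [h1 i, h2 i, h3])
    (by rintro ((i | i) | i); exacts [hM i, hM i, hK₁])
  calc _ ≤ _ := norm_le_norm_sub_add _ (bavg (Sum.elim (Sum.elim 0 0) (fun _ : Bool => b₁))
        (Sum.elim (Sum.elim M M) (fun _ => K₁)) (Phi mu T g (W : ℤ) κ))
    _ ≤ ε / 2 + ε / 2 := add_le_add h4 hsm
    _ = ε := by ring

end Pool.Agent.MRS
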