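import Pool.Agent.MRS.SDel

/-!
# MRS / S: one van der Corput step for the sums `Isum`

PROOF of `vdc_stepS`.  Put `F k x = (∏ i : Fin n, u i.succ (T (k * (e i.succ - e 0)) x)) * conj (ψ k (T (-(k * e 0)) x))` for `k ∈ K = [b, c)`.  By invariance of the measure
under `T (-(k * e 0))` (`ZAct.integral_comp`, all functions are measurable and bounded, `Fin.prod_univ_succ`)
the `k`-th term of `Isum` is `∫ u 0 x * F k x`; so `Isum = ∫ u 0 * ∑_{k ∈ K} F k` and, as `‖u 0‖ ≤ 1`,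
`‖Isum‖² ≤ ∫ ‖∑_k F k‖² = ∑_{k,k' ∈ K} ∫ F k * conj (F k')` (Cauchy-Schwarz for a probability measure: for instance
`(∫ ‖G‖)² ≤ ∫ ‖G‖²` for bounded measurable `G`).
Substitute `k' = k + d`: the pairs `(k, k') ∈ K × K` correspond to the pairs `(d, k)` with `d ∈ (-(c - b), c - b)`,
`k ∈ [max b (b - d), min c (c - d))`.  Finally
`F k * conj (F (k + d)) = (∏ i, uD i (T (k * (e i.succ - e 0)) x)) * conj (ψD k x)` with
`uD i x = u i.succ x * conj (u i.succ (T (d * (e i.succ - e 0)) x))`, `ψD k x = ψ k (T (-(k e 0)) x) * conj (ψ (k+d) (T (-((k+d) e 0)) x))`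
(`T ((k + d) * e) x = T (d * e) (T (k * e) x)`: `ZAct.add`), so the sum over `k` is `Isum` of the new data, and the left side is real, so it is at most the sum of the norms.
-/

set_option autoImplicit false

namespace Pool.Agent.MRS

open MeasureTheory Filter Topology
open scoped BigOperators ComplexConjugate

variable {X : Type} [MeasurableSpace X] {mu : Measure X} {T : ℤ → X → X}

/-- the new functions -/
noncomputable def uD {n : ℕ} (T : ℤ → X → X) (u : Fin (n + 1) → X → ℂ) (e : Fin (n + 1) → ℤ) (d : ℤ) :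
    Fin n → X → ℂ :=
  fun i x => u i.succ x * conj (u i.succ (T (d * (e i.succ - e 0)) x))

/-- the new eigenfunctions -/
noncomputable def psiD (T : ℤ → X → X) (e0 : ℤ) (ψ : ℤ → X → ℂ) (d : ℤ) : ℤ → X → ℂ :=
  fun k x => ψ k (T (-(k * e0)) x) * conj (ψ (k + d) (T (-((k + d) * e0)) x))

/-- trivial bound -/
theorem norm_Isum_le [IsProbabilityMeasure mu] (hT : ZAct mu T) {n : ℕ} (b c : ℤ) (u : Fin n → X → ℂ) (e : Fin n → ℤ)
    (ψ : ℤ → X → ℂ) (hu : ∀ i, B1 (u i)) (hψ : ∀ k ∈ Finset.Ico b c, B1 (ψ k)) :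
    ‖Isum mu T b c u e ψ‖ ≤ ((c - b).toNat : ℝ) := by
  unfold Isum
  refine (norm_sum_le _ _).trans ?_
  have h1 : ∀ k ∈ Finset.Ico b c,
      ‖∫ x, (∏ i, u i (T (k * e i) x)) * conj (ψ k x) ∂mu‖ ≤ 1 := fun k hk =>
    B1.norm_integral_le (mu := mu)
      ((B1.prodS Finset.univ fun i _ => (hu i).compS hT (k * e i)).mulS (hψ k hk).conj')
  refine (Finset.sum_le_sum h1).trans (le_of_eq ?_)
  rw [Finset.sum_const, Int.card_Ico, nsmul_eq_mul, mul_one]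

/-- the shifted product -/
private noncomputable def Fv {n : ℕ} (T : ℤ → X → X) (u : Fin (n + 1) → X → ℂ) (e : Fin (n + 1) → ℤ)
    (ψ : ℤ → X → ℂ) (k : ℤ) (x : X) : ℂ :=
  (∏ i : Fin n, u i.succ (T (k * (e i.succ - e 0)) x)) * conj (ψ k (T (-(k * e 0)) x))

omit [MeasurableSpace X] in
private theorem fv_mul [MeasurableSpace X] {mu : Measure X} (hT : ZAct mu T) {n : ℕ}
    (u : Fin (n + 1) → X → ℂ) (e : Fin (n + 1) → ℤ) (ψ : ℤ → X → ℂ) (d k : ℤ) (x : X) :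
    Fv T u e ψ k x * conj (Fv T u e ψ (k + d) x) =
      (∏ i, uD T u e d i (T (k * (e i.succ - e 0)) x)) * conj (psiD T (e 0) ψ d k x) := by
  unfold Fv uD psiD
  rw [Finset.prod_mul_distrib, map_mul, map_mul, map_prod, Complex.conj_conj]
  have h1 : ∀ i : Fin n, T ((k + d) * (e i.succ - e 0)) x =
      T (d * (e i.succ - e 0)) (T (k * (e i.succ - e 0)) x) := by
    intro i
    rw [← hT.add]
    congr 1
    ring
  simp only [h1]
  ring

private theorem fv_term {n : ℕ} (hT : ZAct mu T) (u : Fin (n + 1) → X → ℂ)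
    (e : Fin (n + 1) → ℤ) (ψ : ℤ → X → ℂ) (hu : ∀ i, B1 (u i)) (k : ℤ) (hψ : B1 (ψ k)) :
    ∫ x, (∏ i, u i (T (k * e i) x)) * conj (ψ k x) ∂mu = ∫ x, u 0 x * Fv T u e ψ k x ∂mu := by
  have hm : B1 fun x => (∏ i, u i (T (k * e i) x)) * conj (ψ k x) :=
    (B1.prodS Finset.univ fun i _ => (hu i).compS hT (k * e i)).mulS hψ.conj'
  rw [← hT.integral_comp (-(k * e 0)) hm.meas]
  congr 1
  funext x
  unfold Fv
  rw [Fin.prod_univ_succ]
  have h1 : ∀ i, T (k * e i) (T (-(k * e 0)) x) = T (k * (e i - e 0)) x := by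
    intro i
    rw [← hT.add]
    congr 1
    ring
  simp only [h1]
  rw [sub_self, mul_zero, hT.zero]
  ring

private theorem sq_int_le [IsProbabilityMeasure mu] {G : X → ℂ} (hG : Measurable G) {C : ℝ}
    (hC : ∀ x, ‖G x‖ ≤ C) : (∫ x, ‖G x‖ ∂mu) ^ 2 ≤ ∫ x, ‖G x‖ ^ 2 ∂mu := by
  have hi1 : Integrable (fun x => ‖G x‖) mu :=
    Integrable.of_bound hG.norm.aestronglyMeasurable C (Filter.Eventually.of_forall fun x => by
      rw [Real.norm_eq_abs, abs_of_nonneg (norm_nonneg _)]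
      exact hC x)
  have hi2 : Integrable (fun x => ‖G x‖ ^ 2) mu :=
    Integrable.of_bound (hG.norm.pow_const 2).aestronglyMeasurable (C ^ 2)
      (Filter.Eventually.of_forall fun x => by
        rw [Real.norm_eq_abs, abs_of_nonneg (sq_nonneg _)]
        exact pow_le_pow_left₀ (norm_nonneg _) (hC x) 2)
  have h1 : 0 ≤ ∫ x, (‖G x‖ - ∫ y, ‖G y‖ ∂mu) ^ 2 ∂mu :=
    integral_nonneg fun x => sq_nonneg _
  have h2 : (fun x => (‖G x‖ - ∫ y, ‖G y‖ ∂mu) ^ 2) = fun x =>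
      ‖G x‖ ^ 2 - (2 * ∫ y, ‖G y‖ ∂mu) * ‖G x‖ + (∫ y, ‖G y‖ ∂mu) ^ 2 := by
    funext x
    ring
  have h3 : Integrable (fun x => ‖G x‖ ^ 2 - (2 * ∫ y, ‖G y‖ ∂mu) * ‖G x‖) mu :=
    hi2.sub (hi1.const_mul _)
  have h4 : ∫ x, (‖G x‖ - ∫ y, ‖G y‖ ∂mu) ^ 2 ∂mu = (∫ x, ‖G x‖ ^ 2 ∂mu) -
      (2 * ∫ y, ‖G y‖ ∂mu) * (∫ x, ‖G x‖ ∂mu) + (∫ y, ‖G y‖ ∂mu) ^ 2 := by
    rw [h2, integral_add h3 (integrable_const _), integral_sub hi2 (hi1.const_mul _),
      integral_const_mul, integral_const, probReal_univ, one_smul]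
  rw [h4] at h1
  nlinarith

private theorem re_sum (b c : ℤ) (a : ℤ → ℤ → ℂ) :
    ∑ k ∈ Finset.Ico b c, ∑ k' ∈ Finset.Ico b c, a k k' =
      ∑ d ∈ Finset.Ioo (-(c - b)) (c - b), ∑ k ∈ Finset.Ico (max b (b - d)) (min c (c - d)),
        a k (k + d) := by
  rw [Finset.sum_sigma', Finset.sum_sigma']
  refine Finset.sum_bij' (fun p _ => ⟨p.2 - p.1, p.1⟩) (fun p _ => ⟨p.2, p.2 + p.1⟩) ?_ ?_ ?_ ?_ ?_
  · rintro ⟨k, k'⟩ h
    simp only [Finset.mem_sigma, Finset.mem_Ico, Finset.mem_Ioo, max_le_iff, lt_min_iff] at h ⊢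
    omega
  · rintro ⟨d, k⟩ h
    simp only [Finset.mem_sigma, Finset.mem_Ico, Finset.mem_Ioo, max_le_iff, lt_min_iff] at h ⊢
    omega
  · rintro ⟨k, k'⟩ h
    simp
  · rintro ⟨d, k⟩ h
    simp
  · rintro ⟨k, k'⟩ h
    simp

theorem vdc_stepS [IsProbabilityMeasure mu] (hT : ZAct mu T) {n : ℕ} (b c : ℤ) (u : Fin (n + 1) → X → ℂ)
    (e : Fin (n + 1) → ℤ) (ψ : ℤ → X → ℂ) (hu : ∀ i, B1 (u i)) (hψ : ∀ k ∈ Finset.Ico b c, B1 (ψ k)) :
    ‖Isum mu T b c u e ψ‖ ^ 2 ≤ ∑ d ∈ Finset.Ioo (-(c - b)) (c - b),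
      ‖Isum mu T (max b (b - d)) (min c (c - d)) (uD T u e d) (fun i => e i.succ - e 0) (psiD T (e 0) ψ d)‖ := by
  have hF : ∀ k ∈ Finset.Ico b c, B1 (Fv T u e ψ k) := fun k hk =>
    (B1.prodS Finset.univ fun i _ => (hu i.succ).compS hT _).mulS ((hψ k hk).compS hT _).conj'
  have hI : Isum mu T b c u e ψ = ∫ x, u 0 x * ∑ k ∈ Finset.Ico b c, Fv T u e ψ k x ∂mu := by
    unfold Isum
    rw [Finset.sum_congr rfl fun k hk => fv_term hT u e ψ hu k (hψ k hk)]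
    simp only [Finset.mul_sum]
    rw [integral_finset_sum _ fun k hk => ((hu 0).mulS (hF k hk)).integrableS]
  have hGm : Measurable fun x => ∑ k ∈ Finset.Ico b c, Fv T u e ψ k x :=
    Finset.measurable_sum _ fun k hk => (hF k hk).meas
  have hGb : ∀ x, ‖∑ k ∈ Finset.Ico b c, Fv T u e ψ k x‖ ≤ ((Finset.Ico b c).card : ℝ) := by
    intro x
    refine (norm_sum_le _ _).trans ((Finset.sum_le_sum fun k hk => (hF k hk).le x).trans
      (le_of_eq ?_))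
    rw [Finset.sum_const, nsmul_eq_mul, mul_one]
  have h1 : ‖Isum mu T b c u e ψ‖ ≤ ∫ x, ‖∑ k ∈ Finset.Ico b c, Fv T u e ψ k x‖ ∂mu := by
    rw [hI]
    refine norm_integral_le_of_norm_le ?_ (Filter.Eventually.of_forall fun x => ?_)
    · exact Integrable.of_bound hGm.norm.aestronglyMeasurable ((Finset.Ico b c).card : ℝ)
        (Filter.Eventually.of_forall fun x => by
          rw [norm_norm]
          exact hGb x)
    · rw [norm_mul]
      exact mul_le_of_le_one_left (norm_nonneg _) ((hu 0).le x)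
  have h2 : ‖Isum mu T b c u e ψ‖ ^ 2 ≤ ∫ x, ‖∑ k ∈ Finset.Ico b c, Fv T u e ψ k x‖ ^ 2 ∂mu :=
    (pow_le_pow_left₀ (norm_nonneg _) h1 2).trans (sq_int_le hGm hGb)
  refine h2.trans ?_
  have h3 : ((∫ x, ‖∑ k ∈ Finset.Ico b c, Fv T u e ψ k x‖ ^ 2 ∂mu : ℝ) : ℂ) =
      ∑ k ∈ Finset.Ico b c, ∑ k' ∈ Finset.Ico b c,
        ∫ x, Fv T u e ψ k x * conj (Fv T u e ψ k' x) ∂mu := by
    rw [← integral_complex_ofReal]
    have h4 : ∀ x, ((‖∑ k ∈ Finset.Ico b c, Fv T u e ψ k x‖ ^ 2 : ℝ) : ℂ) =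
        ∑ k ∈ Finset.Ico b c, ∑ k' ∈ Finset.Ico b c, Fv T u e ψ k x * conj (Fv T u e ψ k' x) := by
      intro x
      rw [← Complex.normSq_eq_norm_sq, ← Complex.mul_conj, map_sum, Finset.sum_mul_sum]
    simp only [h4]
    rw [integral_finset_sum _ fun k hk => integrable_finset_sum _ fun k' hk' =>
      ((hF k hk).mulS (hF k' hk').conj').integrableS]
    refine Finset.sum_congr rfl fun k hk => ?_
    rw [integral_finset_sum _ fun k' hk' => ((hF k hk).mulS (hF k' hk').conj').integrableS]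
  have h5 : 0 ≤ ∫ x, ‖∑ k ∈ Finset.Ico b c, Fv T u e ψ k x‖ ^ 2 ∂mu :=
    integral_nonneg fun x => sq_nonneg _
  have h6 : (∫ x, ‖∑ k ∈ Finset.Ico b c, Fv T u e ψ k x‖ ^ 2 ∂mu) =
      ‖((∫ x, ‖∑ k ∈ Finset.Ico b c, Fv T u e ψ k x‖ ^ 2 ∂mu : ℝ) : ℂ)‖ := by
    rw [Complex.norm_real, Real.norm_eq_abs, abs_of_nonneg h5]
  rw [h6, h3, re_sum]
  refine (norm_sum_le _ _).trans (le_of_eq (Finset.sum_congr rfl fun d _ => ?_))
  unfold Isum
  congr 1
  refine Finset.sum_congr rfl fun k _ => ?_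
  congr 1
  funext x
  exact fv_mul hT u e ψ d k x

end Pool.Agent.MRS
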