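import Pool.Agent.MRS.SLab
import Pool.Agent.MRS.SVdc

/-!
# MRS / S: Claim C, abstract form

PROOF.  Induction on `n` (all other data general).  Put `L = (c - b).toNat`.
`n = 0`: the product is empty, `Isum = ∑_k conj (∫ ψ_k) = 0`: the label `lam k` is not zero (`Dist 0`), `|lam k| ≤ M`, so `ee (χ * lam k) ≠ 1` and `∫ ψ_k = 0`
(`Lab.integral_eq_zero`; `∫ conj = conj ∫`).  So `0 ≤ Cc 0 * L ^ 0`.
`n + 1`: `vdc_stepS`.  The interval `[max b (b-d), min c (c-d))` is contained in `[b, c)` and in `[b, c) - d`; for `k` in it `ψD k` has label `lam k - lam (k + d)` (`Lab.shift`, `Lab.mul_conj`),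
whose absolute value is at most `2 M`, and `2 ^ n * (2 M) = 2 ^ (n+1) * M`.  `uD` is `B1` (`B1.mulS`, `B1.conj'`, `B1.compS`).
For `d ≠ 0` (`|d| < c - b`) `Dist (n + 1)` gives `Dist n` for the new labels, so by induction `x_d = ‖Isum ..‖` satisfies
`x_d ^ (2^n) ≤ Cc n * L_d ^ (2^n - 1) ≤ Cc n * L ^ (2^n - 1)`, `L_d ≤ L`.  For `d = 0`: `x_0 ≤ L` (`norm_Isum_le`).  If `L = 0` everything is `0` (the sum is empty; `Isum = 0`).
Let `L ≥ 1`, `P = 2^n`.  There are `2 L - 1 ≤ 2 L` values of `d`, so by the power mean inequality (`inner_le_nnorm_mul_nnorm`-free form: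
`Finset.inner` not needed; use `inv`-free `pow_arith_mean_le_arith_mean_pow`, or `Finset.sum_pow_le`-type, or prove `(∑_{d ∈ D} x_d)^P ≤ (card D)^(P-1) ∑ x_d^P`,
which is `inner_mul_le`-free: Mathlib has `inner_le_Lp_mul_Lq` and `Finset.pow_sum_le` variants; see `Real.pow_sum_div_card_le_sum_pow : (∑ i ∈ s, f i) ^ (n + 1) / s.card ^ n ≤ ∑ i ∈ s, f i ^ (n + 1)`)
`‖Isum‖^(2 P) = (‖Isum‖²)^P ≤ (∑_d x_d)^P ≤ (2 L)^(P-1) ∑_d x_d^P ≤ (2 L)^(P-1) (L^P + 2 L * Cc n * L^(P-1)) = 2^(P-1) (1 + 2 Cc n) L^(2P-1) ≤ Cc (n+1) L^(2^(n+1) - 1)`.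
-/

set_option autoImplicit false

namespace Pool.Agent.MRS

open MeasureTheory Filter Topology
open scoped BigOperators ComplexConjugate

variable {X : Type} [MeasurableSpace X] {mu : Measure X} {T : ℤ → X → X} {Λ : ℤ} {χ : ℝ}

theorem claim_ind [IsProbabilityMeasure mu] (hT : ZAct mu T) (n : ℕ) :
    ∀ (b c : ℤ) (u : Fin n → X → ℂ) (e : Fin n → ℤ) (ψ : ℤ → X → ℂ) (lam : ℤ → ℤ) (M : ℕ),
      (∀ i, B1 (u i)) → (∀ k ∈ Finset.Ico b c, Lab mu T Λ χ (lam k) (ψ k)) → Dist n b c lam →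
      (∀ k ∈ Finset.Ico b c, |lam k| ≤ (M : ℤ)) →
      (∀ m : ℤ, m ≠ 0 → |m| ≤ 2 ^ n * (M : ℤ) → ee (χ * m) ≠ 1) →
      ‖Isum mu T b c u e ψ‖ ^ (2 ^ n) ≤ (Cc n : ℝ) * ((c - b).toNat : ℝ) ^ (2 ^ n - 1) := by
  induction n with
  | zero =>
    intro b c u e ψ lam M hu hlab hD hM hee
    have h0 : Isum mu T b c u e ψ = 0 := by
      unfold Isum
      refine Finset.sum_eq_zero fun k hk => ?_
      have h1 : ∀ x, (∏ i : Fin 0, u i (T (k * e i) x)) * conj (ψ k x) = conj (ψ k x) := by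
        intro x
        rw [Finset.univ_eq_empty, Finset.prod_empty, one_mul]
      simp only [h1]
      rw [integral_conj, (hlab k hk).integral_eq_zero hT (hee (lam k) (hD k hk) (by
        have := hM k hk
        simpa using this)), map_zero]
    rw [h0, norm_zero]
    simp [Cc]
  | succ n ih =>
    intro b c u e ψ lam M hu hlab hD hM hee
    have hCc : (0 : ℝ) ≤ (Cc (n + 1) : ℝ) := Nat.cast_nonneg _
    rcases Nat.eq_zero_or_pos (c - b).toNat with hL | hL
    · have hcb : c ≤ b := by omega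
      have h0 : Isum mu T b c u e ψ = 0 := by
        unfold Isum
        rw [Finset.Ico_eq_empty (by omega), Finset.sum_empty]
      rw [h0, norm_zero, zero_pow (by positivity)]
      positivity
    obtain ⟨L, hLdef⟩ : ∃ L : ℕ, L = (c - b).toNat := ⟨_, rfl⟩
    rw [← hLdef] at hL ⊢
    obtain ⟨P, hP⟩ : ∃ P : ℕ, 2 ^ n = P + 1 := ⟨2 ^ n - 1, by
      have : 1 ≤ 2 ^ n := Nat.one_le_two_pow
      omega⟩
    have hLr : (1 : ℝ) ≤ (L : ℝ) := by exact_mod_cast hL
    obtain ⟨D, hDdef⟩ : ∃ D : Finset ℤ, D = Finset.Ioo (-(c - b)) (c - b) := ⟨_, rfl⟩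
    obtain ⟨x, hx⟩ : ∃ x : ℤ → ℝ, ∀ d, x d = ‖Isum mu T (max b (b - d)) (min c (c - d)) (uD T u e d)
        (fun i => e i.succ - e 0) (psiD T (e 0) ψ d)‖ := ⟨_, fun d => rfl⟩
    have hv : ‖Isum mu T b c u e ψ‖ ^ 2 ≤ ∑ d ∈ D, x d := by
      have h1 := vdc_stepS hT b c u e ψ hu (fun k hk => (hlab k hk).b1)
      rw [← hDdef] at h1
      exact h1.trans (le_of_eq (Finset.sum_congr rfl fun d _ => (hx d).symm))
    have hx0 : ∀ d, 0 ≤ x d := by
      intro d
      rw [hx]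
      exact norm_nonneg _
    have hUB : ∀ d, ∀ i, B1 (uD T u e d i) := fun d i =>
      (hu i.succ).mulS (((hu i.succ).compS hT _).conj')
    have hin : ∀ d k : ℤ, k ∈ Finset.Ico (max b (b - d)) (min c (c - d)) →
        k ∈ Finset.Ico b c ∧ k + d ∈ Finset.Ico b c := by
      intro d k hk
      simp only [Finset.mem_Ico, max_le_iff, lt_min_iff] at hk ⊢
      omega
    have hLab : ∀ d : ℤ, ∀ k ∈ Finset.Ico (max b (b - d)) (min c (c - d)),
        Lab mu T Λ χ (lam k - lam (k + d)) (psiD T (e 0) ψ d k) := by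
      intro d k hk
      obtain ⟨h1, h2⟩ := hin d k hk
      exact ((hlab k h1).shift hT _).mul_conj ((hlab (k + d) h2).shift hT _)
    have hLd : ∀ d : ℤ, ((min c (c - d) - max b (b - d)).toNat : ℝ) ≤ (L : ℝ) := by
      intro d
      have h1 : (min c (c - d) - max b (b - d)).toNat ≤ L := by
        rw [hLdef]
        refine Int.toNat_le_toNat ?_
        have h2 := min_le_left c (c - d)
        have h3 := le_max_left b (b - d)
        omega
      exact_mod_cast h1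
    have hxd : ∀ d, d ≠ 0 → x d ^ (P + 1) ≤ (Cc n : ℝ) * (L : ℝ) ^ P := by
      intro d hd
      have h1 := ih (max b (b - d)) (min c (c - d)) (uD T u e d) (fun i => e i.succ - e 0)
        (psiD T (e 0) ψ d) (fun k => lam k - lam (k + d)) (2 * M) (hUB d) (hLab d) (hD d hd) (by
          intro k hk
          obtain ⟨h1, h2⟩ := hin d k hk
          have h3 := hM k h1
          have h4 := hM (k + d) h2
          have h5 := abs_sub (lam k) (lam (k + d))
          push_cast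
          linarith) (by
          intro m hm hm'
          refine hee m hm (hm'.trans (le_of_eq ?_))
          push_cast
          ring)
      rw [← hx, hP, Nat.add_sub_cancel] at h1
      refine h1.trans ?_
      exact mul_le_mul_of_nonneg_left (pow_le_pow_left₀ (Nat.cast_nonneg _) (hLd d) P)
        (Nat.cast_nonneg _)
    have hxz : x 0 ^ (P + 1) ≤ (L : ℝ) ^ (P + 1) := by
      refine pow_le_pow_left₀ (hx0 0) ?_ _
      rw [hx]
      exact (norm_Isum_le hT _ _ _ _ _ (hUB 0) (fun k hk => (hLab 0 k hk).b1)).trans (hLd 0)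
    have hcard : (D.card : ℝ) ≤ 2 * (L : ℝ) := by
      have h1 : D.card ≤ 2 * L := by
        rw [hDdef, Int.card_Ioo, hLdef]
        omega
      exact_mod_cast h1
    have hcardpos : (0 : ℝ) < (D.card : ℝ) := by
      have h1 : (0 : ℤ) ∈ D := by
        rw [hDdef, Finset.mem_Ioo]
        omega
      exact_mod_cast Finset.card_pos.2 ⟨0, h1⟩
    have hsum : ∑ d ∈ D, x d ^ (P + 1) ≤ (L : ℝ) ^ (P + 1) + 2 * (L : ℝ) * ((Cc n : ℝ) * (L : ℝ) ^ P) := by
      have h1 : ∀ d ∈ D, x d ^ (P + 1) ≤ (if d = 0 then (L : ℝ) ^ (P + 1) else 0) +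
          (Cc n : ℝ) * (L : ℝ) ^ P := by
        intro d _
        split_ifs with hd
        · rw [hd]
          have : (0 : ℝ) ≤ (Cc n : ℝ) * (L : ℝ) ^ P := by positivity
          linarith
        · rw [zero_add]
          exact hxd d hd
      refine (Finset.sum_le_sum h1).trans ?_
      rw [Finset.sum_add_distrib, Finset.sum_const, nsmul_eq_mul, Finset.sum_ite_eq']
      have h2 : (if (0 : ℤ) ∈ D then (L : ℝ) ^ (P + 1) else 0) ≤ (L : ℝ) ^ (P + 1) := by
        split_ifs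
        · exact le_rfl
        · positivity
      have h3 : (D.card : ℝ) * ((Cc n : ℝ) * (L : ℝ) ^ P) ≤ 2 * (L : ℝ) * ((Cc n : ℝ) * (L : ℝ) ^ P) :=
        mul_le_mul_of_nonneg_right hcard (by positivity)
      linarith
    have hpm := pow_sum_div_card_le_sum_pow (s := D) (f := x) (fun d _ => hx0 d) P
    rw [div_le_iff₀ (pow_pos hcardpos P)] at hpm
    have hmain : (‖Isum mu T b c u e ψ‖ ^ 2) ^ (P + 1) ≤
        ((L : ℝ) ^ (P + 1) + 2 * (L : ℝ) * ((Cc n : ℝ) * (L : ℝ) ^ P)) * (2 * (L : ℝ)) ^ P := by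
      refine (pow_le_pow_left₀ (sq_nonneg _) hv _).trans (hpm.trans ?_)
      refine mul_le_mul hsum (pow_le_pow_left₀ hcardpos.le hcard P) (pow_nonneg hcardpos.le P) ?_
      positivity
    have e1 : 2 ^ (n + 1) = 2 * (P + 1) := by
      rw [pow_succ, hP]
      ring
    have e2 : 2 ^ (n + 1) - 1 = P + (P + 1) := by
      omega
    rw [e2, e1, pow_mul]
    refine hmain.trans ?_
    have e3 : (Cc (n + 1) : ℝ) = 2 ^ (P + 1) * (1 + 2 * (Cc n : ℝ)) := by
      rw [← hP]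
      simp only [Cc]
      push_cast
      ring
    rw [e3]
    have e4 : ((L : ℝ) ^ (P + 1) + 2 * (L : ℝ) * ((Cc n : ℝ) * (L : ℝ) ^ P)) * (2 * (L : ℝ)) ^ P =
        2 ^ P * (1 + 2 * (Cc n : ℝ)) * (L : ℝ) ^ (P + (P + 1)) := by
      rw [mul_pow]
      ring
    rw [e4]
    have e5 : (0 : ℝ) ≤ (1 + 2 * (Cc n : ℝ)) * (L : ℝ) ^ (P + (P + 1)) := by positivity
    have e6 : (2 : ℝ) ^ P ≤ 2 ^ (P + 1) := by
      rw [pow_succ]
      have : (0 : ℝ) ≤ 2 ^ P := by positivity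
      linarith
    rw [mul_assoc, mul_assoc]
    exact mul_le_mul_of_nonneg_right e6 e5

end Pool.Agent.MRS
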