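import Pool.Agent.MRS.SDefs

/-!
# MRS / SaDefs: definitions for the spectral half of Lemma S

`ee x = exp(2 pi i x)` is defined in `SDefs`; `Av T k g H χ = H⁻¹ ∑_{j<H} e(-jχ) g ∘ T^{kj}`; `Qv` its squared `L²` norm;
`Co T k g h = ∫ g ∘ T^{kh} conj g`; `PosDef G`: positive definite function on `ℤ`.
-/

set_option autoImplicit false

namespace Pool.Agent.MRS

open MeasureTheory
open scoped BigOperators ComplexConjugate

theorem ee_add (x y : ℝ) : ee (x + y) = ee x * ee y := by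
  unfold ee
  rw [← Complex.exp_add]
  congr 1
  push_cast
  ring

theorem ee_zero : ee 0 = 1 := by
  simp [ee]

theorem norm_ee (x : ℝ) : ‖ee x‖ = 1 := by
  unfold ee
  rw [show (2 * Real.pi * Complex.I * (x : ℂ)) = ((2 * Real.pi * x : ℝ) : ℂ) * Complex.I by
    push_cast; ring]
  exact Complex.norm_exp_ofReal_mul_I _

theorem conj_ee (x : ℝ) : conj (ee x) = ee (-x) := by
  unfold ee
  rw [← Complex.exp_conj]
  congr 1
  simp only [map_mul, Complex.conj_ofReal, Complex.conj_I, map_ofNat]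
  push_cast
  ring

theorem ee_int (n : ℤ) : ee n = 1 := by
  unfold ee
  rw [show (2 * Real.pi * Complex.I * (((n : ℤ) : ℝ) : ℂ)) = (n : ℂ) * (2 * Real.pi * Complex.I) by
    push_cast; ring]
  exact Complex.exp_int_mul_two_pi_mul_I n

theorem continuous_ee : Continuous ee := by
  unfold ee
  fun_prop

/-- The twisted average. -/
noncomputable def Av {X : Type} (T : ℤ → X → X) (k : ℕ) (g : X → ℂ) (H : ℕ) (χ : ℝ) (x : X) : ℂ :=
  (H : ℂ)⁻¹ * ∑ j ∈ Finset.range H, ee (-((j : ℝ) * χ)) * g (T ((k : ℤ) * (j : ℤ)) x)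

/-- Squared `L²` norm of the twisted average. -/
noncomputable def Qv {X : Type} [MeasurableSpace X] (mu : Measure X) (T : ℤ → X → X) (k : ℕ)
    (g : X → ℂ) (H : ℕ) (χ : ℝ) : ℝ :=
  ∫ x, ‖Av T k g H χ x‖ ^ 2 ∂mu

/-- Correlation. -/
noncomputable def Co {X : Type} [MeasurableSpace X] (mu : Measure X) (T : ℤ → X → X) (k : ℕ)
    (g : X → ℂ) (h : ℤ) : ℂ :=
  ∫ x, g (T ((k : ℤ) * h) x) * conj (g x) ∂mu

/-- Positive definite function on the integers. -/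
structure PosDef (G : ℤ → ℂ) : Prop where
  conj_symm : ∀ h, G (-h) = conj (G h)
  nonneg : ∀ (n : ℕ) (c : ℕ → ℂ),
    0 ≤ (∑ i ∈ Finset.range n, ∑ j ∈ Finset.range n, c i * conj (c j) * G ((i : ℤ) - (j : ℤ))).re

/-- `P_H(χ) = H⁻² ∑_{i,j<H} e(-(i-j)χ) G(i-j)`. -/
noncomputable def Fe (G : ℤ → ℂ) (H : ℕ) (χ : ℝ) : ℝ :=
  ((H : ℝ)⁻¹) ^ 2 * (∑ i ∈ Finset.range H, ∑ j ∈ Finset.range H,
    ee (-(((i : ℝ) - (j : ℝ)) * χ)) * G ((i : ℤ) - (j : ℤ))).re

end Pool.Agent.MRS
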