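import Pool.Agent.MRS.SDel
import Pool.Agent.MRS.SaDefs

/-!
# MRS / S: labels of eigenfunctions

PROOFS.  `ee_add`: `Complex.exp_add`.  `norm_ee`: `Complex.norm_exp` (the real part of `2 π i χ` is `0`).  `conj_ee`: `Complex.exp_conj`.
`Lab.of_eig`: `φ (T (k q) x) = e(χ)^q φ x = e(χ q) φ x` a.e. for `q : ℕ` by induction on `q` (`T (k (q+1)) x = T k (T (k q) x)` and the a.e. identity of `φ ∘ T^k` is
pulled back by the measure preserving map `T (k q)`: `(hT.mp _).quasiMeasurePreserving.ae`); `Λ = k q` with `q > 0` because `Λ, k > 0`.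
`Lab.shift`: `ψ (T n (T Λ x)) = ψ (T Λ (T n x))`, pull back by `T n`.  `Lab.mul_conj`: `conj (ee (χ m')) = ee (- χ m')`, `ee_add`.
`Lab.orth`: `f = ψ conj ψ'` has label `m - m'`, so `∫ f = ∫ f (T Λ x) = e(χ (m - m')) ∫ f` (`ZAct.integral_comp`), hence `∫ f = 0`.
`Lab.integral_eq_zero`: the same for `ψ`.
-/

set_option autoImplicit false

namespace Pool.Agent.MRS

open MeasureTheory Filter Topology
open scoped BigOperators ComplexConjugate

theorem ee_nat_mul (a : ℝ) (n : ℕ) : ee (a * n) = ee a ^ n := by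
  unfold ee
  rw [← Complex.exp_nat_mul]
  congr 1
  push_cast
  ring

variable {X : Type} [MeasurableSpace X] {mu : Measure X} {T : ℤ → X → X} {Λ : ℤ} {χ : ℝ}

/-- an eigenfunction of `T^k` -/
theorem eig_pow (hT : ZAct mu T) {k : ℤ} {φ : X → ℂ} (hφ : ∀ᵐ x ∂mu, φ (T k x) = ee χ * φ x) (q : ℕ) :
    ∀ᵐ x ∂mu, φ (T (k * q) x) = ee (χ * q) * φ x := by
  induction q with
  | zero =>
    refine Filter.Eventually.of_forall fun x => ?_
    simp only [Nat.cast_zero, mul_zero]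
    rw [hT.zero, ee_zero, one_mul]
  | succ q ih =>
    have h1 := (hT.mp (k * q)).quasiMeasurePreserving.ae hφ
    filter_upwards [ih, h1] with x h2 h3
    have e1 : k * ((q + 1 : ℕ) : ℤ) = k + k * (q : ℤ) := by
      push_cast
      ring
    have e2 : χ * ((q + 1 : ℕ) : ℝ) = χ + χ * (q : ℝ) := by
      push_cast
      ring
    rw [e1, hT.add, h3, h2, e2, ee_add, mul_assoc]

theorem Lab.of_eig (hT : ZAct mu T) {k : ℤ} (hk : 0 < k) (hΛ : 0 < Λ) (hd : k ∣ Λ) {φ : X → ℂ} (h1 : B1 φ)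
    (hφ : ∀ᵐ x ∂mu, φ (T k x) = ee χ * φ x) : Lab mu T Λ χ (Λ / k) φ := by
  obtain ⟨c, rfl⟩ := hd
  have hc : 0 < c := by
    by_contra h
    push Not at h
    nlinarith
  obtain ⟨q, rfl⟩ := Int.eq_ofNat_of_zero_le hc.le
  refine ⟨h1, ?_⟩
  rw [Int.mul_ediv_cancel_left _ hk.ne']
  have h2 := eig_pow hT hφ q
  simpa using h2

theorem Lab.shift (hT : ZAct mu T) {m : ℤ} {ψ : X → ℂ} (h : Lab mu T Λ χ m ψ) (n : ℤ) :
    Lab mu T Λ χ m fun x => ψ (T n x) := by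
  refine ⟨h.b1.compS hT n, ?_⟩
  have h1 := (hT.mp n).quasiMeasurePreserving.ae h.lab
  filter_upwards [h1] with x hx
  rw [← hT.add, add_comm n Λ, hT.add]
  exact hx

theorem Lab.mul_conj {m m' : ℤ} {ψ ψ' : X → ℂ} (h : Lab mu T Λ χ m ψ) (h' : Lab mu T Λ χ m' ψ') :
    Lab mu T Λ χ (m - m') fun x => ψ x * conj (ψ' x) := by
  refine ⟨h.b1.mulS h'.b1.conj', ?_⟩
  filter_upwards [h.lab, h'.lab] with x h1 h2
  have e1 : χ * ((m - m' : ℤ) : ℝ) = χ * m + -(χ * m') := by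
    push_cast
    ring
  rw [h1, h2, map_mul, conj_ee, e1, ee_add]
  ring

theorem Lab.integral_eq_zero [IsProbabilityMeasure mu] (hT : ZAct mu T) {m : ℤ} {ψ : X → ℂ}
    (h : Lab mu T Λ χ m ψ) (hm : ee (χ * m) ≠ 1) : ∫ x, ψ x ∂mu = 0 := by
  have h1 : ∫ x, ψ (T Λ x) ∂mu = ee (χ * m) * ∫ x, ψ x ∂mu := by
    rw [← integral_const_mul]
    exact integral_congr_ae h.lab
  rw [hT.integral_comp Λ h.b1.meas] at h1
  have h2 : (1 - ee (χ * m)) * ∫ x, ψ x ∂mu = 0 := by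
    linear_combination h1
  rcases mul_eq_zero.1 h2 with h3 | h3
  · exact absurd (sub_eq_zero.1 h3).symm hm
  · exact h3

end Pool.Agent.MRS
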