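import Pool.Agent.MRS.SBav
import Pool.Agent.MRS.SLab

/-!
# MRS / S: rational frequencies and the use of `Null`

`Rk mu T g v H = H^-2 ∑_{i,j < H} ∫ g conj (g ∘ T^{v (i - j)})`.
PROOFS.  `Rk_eq`: expand the square, `∫ g (T (v i) x) conj (g (T (v j) x)) = ∫ g x conj (g (T (v (j - i)) x))` (`ZAct.integral_comp` with `-(v i)`), exchange the names of `i` and `j`.
`rat_bound`: `φ (T (k q) x) = ee (χ q) φ x = φ x` a.e. (`eig_pow`), so `φ (T (k q i) x) = φ x` a.e. for all integers `i ≥ 0` (induction), hence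
`∫ g conj φ = ∫ g (T (k q i) x) conj (φ (T (k q i) x)) = ∫ g (T (k q i) x) conj (φ x)`; average over `0 ≤ i < H`:
`∫ ‖φ‖² = ∫ G conj φ`, `G = H⁻¹ ∑_i g ∘ T^{k q i}`, and `|∫ G conj φ|² ≤ ∫ ‖G‖² ∫ ‖φ‖²` (Cauchy-Schwarz; or without it: `2 Re (G conj φ) ≤ ‖G‖² + ‖φ‖²` pointwise gives
`2 ∫ ‖φ‖² ≤ ∫ ‖G‖² + ∫ ‖φ‖²`), so `∫ ‖φ‖² ≤ ∫ ‖G‖² = (Rk ..).re` (`Rk_eq`).
`null_rk`: by `Del_cons` the integrand of `Rk mu T (Del T (m (i - j)) g) (m q) H` at `i0, j0` is `Del T (c · (Fin.cons i0 i - Fin.cons j0 j)) g` with `c = Fin.cons (m q) (fun _ => m)`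
(as functions on `Fin (s + 1)`: `Fin.cons_zero`, `Fin.cons_succ`, `funext` with `Fin.cases`).  With `D h = ∫ Del T (c · h) g` the average is, by
`bavg_cons` (twice, `Fin.cons 0 0 = 0`, `Fin.cons H (fun _ => H) = fun _ => H`), `bavg_commS`, `bavg_finset_sum` and `bavg_mul_left`, equal to
`bavg 0 (fun _ => H) (fun j' => bavg 0 (fun _ => H) (fun i' => D (i' - j')))` over `Fin (s+1)`; the inner average is `bavg (-j') (fun _ => H) D` (`bavg_sub`), of norm at most `ε` for `H ≥ H0`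
(`Null` with this `c`), and `norm_bavg_leS`.
-/

set_option autoImplicit false

namespace Pool.Agent.MRS

open MeasureTheory Filter Topology
open scoped BigOperators ComplexConjugate

variable {X : Type} [MeasurableSpace X] {mu : Measure X} {T : ℤ → X → X}

noncomputable def Rk {X : Type} [MeasurableSpace X] (mu : Measure X) (T : ℤ → X → X) (g : X → ℂ) (v : ℤ) (H : ℕ) : ℂ :=
  ((H : ℂ)⁻¹) ^ 2 * ∑ i ∈ Finset.Ico (0 : ℤ) H, ∑ j ∈ Finset.Ico (0 : ℤ) H, ∫ x, g x * conj (g (T (v * (i - j)) x)) ∂mu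

/-- the average over two variables of `s + 1` coordinates -/
private theorem pair_eq (s H : ℕ) (D : (Fin (s + 1) → ℤ) → ℂ) :
    bavg (0 : Fin (s + 1) → ℤ) (fun _ => H) (fun j' =>
      bavg (0 : Fin (s + 1) → ℤ) (fun _ => H) (fun i' => D (i' - j'))) =
    ((H : ℂ)⁻¹) ^ 2 * ∑ i0 ∈ Finset.Ico (0 : ℤ) H, ∑ j0 ∈ Finset.Ico (0 : ℤ) H,
      bavg (0 : Fin s → ℤ) (fun _ => H) (fun i => bavg (0 : Fin s → ℤ) (fun _ => H)
        (fun j => D ((Fin.cons i0 i : Fin (s + 1) → ℤ) -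
          (Fin.cons j0 j : Fin (s + 1) → ℤ)))) := by
  have z1 : (0 : Fin (s + 1) → ℤ) = Fin.cons 0 (0 : Fin s → ℤ) := by
    funext t
    refine Fin.cases ?_ (fun t' => ?_) t
    · rw [Fin.cons_zero]; rfl
    · rw [Fin.cons_succ]; rfl
  have z2 : (fun _ : Fin (s + 1) => H) = Fin.cons H (fun _ : Fin s => H) := by
    funext t
    refine Fin.cases ?_ (fun t' => ?_) t
    · rw [Fin.cons_zero]
    · rw [Fin.cons_succ]
  have e4 : ∀ F : (Fin (s + 1) → ℤ) → ℂ, bavg (0 : Fin (s + 1) → ℤ) (fun _ => H) F =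
      (H : ℂ)⁻¹ * ∑ i0 ∈ Finset.Ico (0 : ℤ) H, bavg (0 : Fin s → ℤ) (fun _ => H)
        (fun z => F (Fin.cons i0 z)) := by
    intro F
    rw [z1, z2, bavg_cons, zero_add]
  rw [e4]
  simp_rw [e4, bavg_mul_left, bavg_finset_sum]
  rw [← Finset.mul_sum, ← mul_assoc, ← sq, Finset.sum_comm]
  have e6 : ∀ i0 j0 : ℤ, bavg (0 : Fin s → ℤ) (fun _ => H) (fun j =>
      bavg (0 : Fin s → ℤ) (fun _ => H) (fun i => D ((Fin.cons i0 i : Fin (s + 1) → ℤ) -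
        (Fin.cons j0 j : Fin (s + 1) → ℤ)))) =
      bavg (0 : Fin s → ℤ) (fun _ => H) (fun i =>
        bavg (0 : Fin s → ℤ) (fun _ => H) (fun j => D ((Fin.cons i0 i : Fin (s + 1) → ℤ) -
          (Fin.cons j0 j : Fin (s + 1) → ℤ)))) := fun i0 j0 => bavg_commS _ _ _ _ _
  simp_rw [e6]

theorem Rk_eq [IsProbabilityMeasure mu] (hT : ZAct mu T) {g : X → ℂ} (hg : B1 g) (v : ℤ) (H : ℕ) :
    Rk mu T g v H = ((∫ x, ‖(H : ℂ)⁻¹ * ∑ i ∈ Finset.Ico (0 : ℤ) H, g (T (v * i) x)‖ ^ 2 ∂mu : ℝ) : ℂ) := by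
  have key : ∀ i j : ℤ, ∫ x, g (T (v * i) x) * conj (g (T (v * j) x)) ∂mu =
      ∫ x, g x * conj (g (T (v * (j - i)) x)) ∂mu := by
    intro i j
    rw [← hT.integral_comp (v * i) (hg.mulS (hg.compS hT (v * (j - i))).conj').meas]
    refine integral_congr_ae (Filter.Eventually.of_forall fun x => ?_)
    dsimp only
    rw [← hT.add, show v * (j - i) + v * i = v * j by ring]
  have e : ∀ x, ((‖(H : ℂ)⁻¹ * ∑ i ∈ Finset.Ico (0 : ℤ) H, g (T (v * i) x)‖ ^ 2 : ℝ) : ℂ) =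
      ((H : ℂ)⁻¹) ^ 2 * ∑ j ∈ Finset.Ico (0 : ℤ) H, ∑ i ∈ Finset.Ico (0 : ℤ) H,
        g (T (v * j) x) * conj (g (T (v * i) x)) := by
    intro x
    rw [← Complex.normSq_eq_norm_sq, ← Complex.mul_conj, map_mul, map_inv₀, map_natCast, map_sum,
      mul_mul_mul_comm, Finset.sum_mul_sum, sq]
  have hI : ∀ j i : ℤ, Integrable (fun x => g (T (v * j) x) * conj (g (T (v * i) x))) mu :=
    fun j i => ((hg.compS hT (v * j)).mulS (hg.compS hT (v * i)).conj').integrableS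
  rw [← integral_complex_ofReal]
  simp_rw [e]
  rw [integral_const_mul, integral_finsetSum _ fun j _ => integrable_finsetSum _ fun i _ => hI j i]
  unfold Rk
  rw [Finset.sum_comm]
  congr 1
  refine Finset.sum_congr rfl fun j _ => ?_
  rw [integral_finsetSum _ fun i _ => hI j i]
  exact Finset.sum_congr rfl fun i _ => (key j i).symm

theorem Rk_nonneg [IsProbabilityMeasure mu] (hT : ZAct mu T) {g : X → ℂ} (hg : B1 g) (v : ℤ) (H : ℕ) :
    0 ≤ (Rk mu T g v H).re := by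
  rw [Rk_eq hT hg, Complex.ofReal_re]
  exact integral_nonneg fun x => by positivity

theorem rat_bound [IsProbabilityMeasure mu] (hT : ZAct mu T) {k : ℤ} {q : ℕ} {χ : ℝ} {g φ : X → ℂ} (hg : B1 g) (hφ : B1 φ)
    (he : ∀ᵐ x ∂mu, φ (T k x) = ee χ * φ x) (hq : ee (χ * q) = 1)
    (hs : ∫ x, g x * conj (φ x) ∂mu = ((∫ x, ‖φ x‖ ^ 2 ∂mu : ℝ) : ℂ)) {H : ℕ} (hH : 0 < H) :
    ∫ x, ‖φ x‖ ^ 2 ∂mu ≤ (Rk mu T g (k * q) H).re := by
  have h1 : ∀ᵐ x ∂mu, φ (T (k * q) x) = ee 0 * φ x := by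
    filter_upwards [eig_pow hT he q] with x hx
    rw [hx, hq, ee_zero]
  have h2 : ∀ i ∈ Finset.Ico (0 : ℤ) H,
      ∫ x, g (T (k * q * i) x) * conj (φ x) ∂mu = ((∫ x, ‖φ x‖ ^ 2 ∂mu : ℝ) : ℂ) := by
    intro i hi
    obtain ⟨n, rfl⟩ := Int.eq_ofNat_of_zero_le (Finset.mem_Ico.1 hi).1
    rw [← hs, ← hT.integral_comp (k * q * n) (hg.mulS hφ.conj').meas]
    refine integral_congr_ae ?_
    filter_upwards [eig_pow hT h1 n] with x hx
    rw [zero_mul, ee_zero, one_mul] at hx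
    rw [hx]
  have hH' : (H : ℂ) ≠ 0 := Nat.cast_ne_zero.2 hH.ne'
  have hGm : ∀ i : ℤ, B1 fun x => g (T (k * q * i) x) := fun i => hg.compS hT _
  have hI : ∀ i : ℤ, Integrable (fun x => g (T (k * q * i) x) * conj (φ x)) mu :=
    fun i => ((hGm i).mulS hφ.conj').integrableS
  have h3 : ∫ x, ((H : ℂ)⁻¹ * ∑ i ∈ Finset.Ico (0 : ℤ) H, g (T (k * q * i) x)) * conj (φ x) ∂mu =
      ((∫ x, ‖φ x‖ ^ 2 ∂mu : ℝ) : ℂ) := by
    have e : ∀ x, ((H : ℂ)⁻¹ * ∑ i ∈ Finset.Ico (0 : ℤ) H, g (T (k * q * i) x)) * conj (φ x) =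
        (H : ℂ)⁻¹ * ∑ i ∈ Finset.Ico (0 : ℤ) H, g (T (k * q * i) x) * conj (φ x) := by
      intro x
      rw [mul_assoc, Finset.sum_mul]
    simp_rw [e]
    rw [integral_const_mul, integral_finsetSum _ fun i _ => hI i, Finset.sum_congr rfl h2,
      Finset.sum_const, Int.card_Ico, sub_zero, Int.toNat_natCast, nsmul_eq_mul, ← mul_assoc,
      inv_mul_cancel₀ hH', one_mul]
  have hGI : Integrable (fun x => ((H : ℂ)⁻¹ * ∑ i ∈ Finset.Ico (0 : ℤ) H, g (T (k * q * i) x)) *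
      conj (φ x)) mu := by
    have e : (fun x => ((H : ℂ)⁻¹ * ∑ i ∈ Finset.Ico (0 : ℤ) H, g (T (k * q * i) x)) *
        conj (φ x)) = fun x => (H : ℂ)⁻¹ *
          ∑ i ∈ Finset.Ico (0 : ℤ) H, g (T (k * q * i) x) * conj (φ x) := by
      funext x
      rw [mul_assoc, Finset.sum_mul]
    rw [e]
    exact (integrable_finsetSum _ fun i _ => hI i).const_mul _
  have h4 : ∫ x, (((H : ℂ)⁻¹ * ∑ i ∈ Finset.Ico (0 : ℤ) H, g (T (k * q * i) x)) *
      conj (φ x)).re ∂mu = ∫ x, ‖φ x‖ ^ 2 ∂mu := by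
    have h5 := Complex.reCLM.integral_comp_comm hGI
    simp only [Complex.reCLM_apply] at h5
    rw [h5, h3, Complex.ofReal_re]
  have hφ2 : Integrable (fun x => ‖φ x‖ ^ 2) mu := by
    refine Integrable.of_bound (hφ.meas.norm.pow_const 2).aestronglyMeasurable 1
      (Filter.Eventually.of_forall fun x => ?_)
    rw [Real.norm_of_nonneg (by positivity)]
    have := hφ.le x
    have := norm_nonneg (φ x)
    nlinarith
  have hGmeas : Measurable fun x => (H : ℂ)⁻¹ * ∑ i ∈ Finset.Ico (0 : ℤ) H, g (T (k * q * i) x) :=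
    (Finset.measurable_sum _ fun i _ => (hGm i).meas).const_mul _
  have hGle : ∀ x, ‖(H : ℂ)⁻¹ * ∑ i ∈ Finset.Ico (0 : ℤ) H, g (T (k * q * i) x)‖ ≤ 1 := by
    intro x
    rw [norm_mul, norm_inv, Complex.norm_natCast, inv_mul_le_iff₀ (Nat.cast_pos.2 hH), mul_one]
    refine (norm_sum_le _ _).trans ?_
    have h6 := Finset.sum_le_card_nsmul (Finset.Ico (0 : ℤ) H) (fun i => ‖g (T (k * q * i) x)‖) 1
      fun i _ => hg.le _
    rw [Int.card_Ico, sub_zero, Int.toNat_natCast, nsmul_eq_mul, mul_one] at h6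
    exact h6
  have hG2 : Integrable (fun x => ‖(H : ℂ)⁻¹ *
      ∑ i ∈ Finset.Ico (0 : ℤ) H, g (T (k * q * i) x)‖ ^ 2) mu := by
    refine Integrable.of_bound (hGmeas.norm.pow_const 2).aestronglyMeasurable 1
      (Filter.Eventually.of_forall fun x => ?_)
    rw [Real.norm_of_nonneg (by positivity)]
    have h7 := hGle x
    have h8 := norm_nonneg ((H : ℂ)⁻¹ * ∑ i ∈ Finset.Ico (0 : ℤ) H, g (T (k * q * i) x))
    nlinarith
  have h9 : ∫ x, (((H : ℂ)⁻¹ * ∑ i ∈ Finset.Ico (0 : ℤ) H, g (T (k * q * i) x)) *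
      conj (φ x)).re ∂mu ≤ ∫ x, ((1 / 2 : ℝ) * ‖(H : ℂ)⁻¹ *
        ∑ i ∈ Finset.Ico (0 : ℤ) H, g (T (k * q * i) x)‖ ^ 2 + (1 / 2 : ℝ) * ‖φ x‖ ^ 2) ∂mu := by
    refine integral_mono hGI.re ((hG2.const_mul _).add (hφ2.const_mul _)) fun x => ?_
    dsimp only
    refine (Complex.re_le_norm _).trans ?_
    rw [norm_mul, RCLike.norm_conj]
    nlinarith [sq_nonneg (‖(H : ℂ)⁻¹ * ∑ i ∈ Finset.Ico (0 : ℤ) H, g (T (k * q * i) x)‖ - ‖φ x‖)]
  rw [h4, integral_add (hG2.const_mul _) (hφ2.const_mul _), integral_const_mul,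
    integral_const_mul] at h9
  rw [Rk_eq hT hg, Complex.ofReal_re]
  linarith

theorem null_rk [IsProbabilityMeasure mu] (hT : ZAct mu T) {s : ℕ} {g : X → ℂ} (hg : B1 g) (hN : Null mu T (s + 1) g)
    {m q : ℕ} (hm : 0 < m) (hq : 0 < q) {ε : ℝ} (hε : 0 < ε) :
    ∃ H1 : ℕ, ∀ H : ℕ, H1 ≤ H →
      ‖bavg (0 : Fin s → ℤ) (fun _ => H) (fun i => bavg (0 : Fin s → ℤ) (fun _ => H) (fun j =>
        Rk mu T (Del T (fun t => (m : ℤ) * (i t - j t)) g) ((m : ℤ) * q) H))‖ ≤ ε := by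
  have hc : ∀ t : Fin (s + 1), 0 < (Fin.cons (m * q) (fun _ => m) : Fin (s + 1) → ℕ) t := by
    intro t
    refine Fin.cases ?_ (fun t' => ?_) t
    · rw [Fin.cons_zero]
      exact Nat.mul_pos hm hq
    · rw [Fin.cons_succ]
      exact hm
  obtain ⟨H0, hH0⟩ := hN (Fin.cons (m * q) (fun _ => m)) hc ε hε
  refine ⟨H0, fun H hH => ?_⟩
  set D : (Fin (s + 1) → ℤ) → ℂ := fun h => ∫ x, Del T (fun i =>
    (((Fin.cons (m * q) (fun _ => m) : Fin (s + 1) → ℕ) i : ℕ) : ℤ) * h i) g x ∂mu with hD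
  -- the integrand
  have e1 : ∀ (i j : Fin s → ℤ) (i0 j0 : ℤ),
      ∫ x, Del T (fun t => (m : ℤ) * (i t - j t)) g x *
        conj (Del T (fun t => (m : ℤ) * (i t - j t)) g (T ((m : ℤ) * q * (i0 - j0)) x)) ∂mu =
      D ((Fin.cons i0 i : Fin (s + 1) → ℤ) - (Fin.cons j0 j : Fin (s + 1) → ℤ)) := by
    intro i j i0 j0
    rw [hD]
    dsimp only
    refine integral_congr_ae (Filter.Eventually.of_forall fun x => ?_)
    dsimp only
    rw [← Del_cons hT]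
    congr 1
    funext t
    refine Fin.cases ?_ (fun t' => ?_) t
    · simp only [Fin.cons_zero, Pi.sub_apply]
      push_cast
      ring
    · simp only [Fin.cons_succ, Pi.sub_apply]
  have e2 : ∀ i j : Fin s → ℤ, Rk mu T (Del T (fun t => (m : ℤ) * (i t - j t)) g)
      ((m : ℤ) * q) H = ((H : ℂ)⁻¹) ^ 2 * ∑ i0 ∈ Finset.Ico (0 : ℤ) H,
        ∑ j0 ∈ Finset.Ico (0 : ℤ) H,
          D ((Fin.cons i0 i : Fin (s + 1) → ℤ) - (Fin.cons j0 j : Fin (s + 1) → ℤ)) := by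
    intro i j
    unfold Rk
    simp_rw [e1]
  have e3 : bavg (0 : Fin s → ℤ) (fun _ => H) (fun i => bavg (0 : Fin s → ℤ) (fun _ => H)
      (fun j => Rk mu T (Del T (fun t => (m : ℤ) * (i t - j t)) g) ((m : ℤ) * q) H)) =
      ((H : ℂ)⁻¹) ^ 2 * ∑ i0 ∈ Finset.Ico (0 : ℤ) H, ∑ j0 ∈ Finset.Ico (0 : ℤ) H,
        bavg (0 : Fin s → ℤ) (fun _ => H) (fun i => bavg (0 : Fin s → ℤ) (fun _ => H)
          (fun j => D ((Fin.cons i0 i : Fin (s + 1) → ℤ) -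
            (Fin.cons j0 j : Fin (s + 1) → ℤ)))) := by
    simp_rw [e2, bavg_mul_left, bavg_finset_sum]
  have e5 := pair_eq s H D
  rw [e3, ← e5]
  refine norm_bavg_leS _ _ _ hε.le fun j' _ => ?_
  rw [bavg_sub]
  exact hH0 _ _ fun _ => hH

end Pool.Agent.MRS
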