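import Pool.Agent.MRS.SRat
import Pool.Agent.MRS.SCla

/-!
# MRS / S: the bound of the Fejer average in the first variable

PROOF of `spec_bound`.  Apply `hS` (`SpecThm`) with `Ks = Ks W κ b n` (nonempty because its cardinal `n` is positive), `g m = Del T (m h) g` (`B1_Del`),
`B = ε₁ + ∑_{q ∈ Icc 1 Q} n⁻¹ ∑_{m ∈ Ks} (Rk mu T (Del T (m h) g) (m q) H).re ≥ 0` (`Rk_nonneg`).
Let `EigFam .. χ φ` be given and `E = card⁻¹ ∑ ∫ ‖φ m‖²`.  Case 1: `ee (χ m) ≠ 1` for all `m ≠ 0` with `|m| ≤ Q = 2 ^ (2 ^ s) Λ`: `claimC` gives `E ^ P ≤ Cc (2^s) / n ≤ ε₁ ^ P`,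
`P = 2 ^ (2 ^ s)`, so `E ≤ ε₁` (`le_of_pow_le_pow_left₀`) and `ε₁ ≤ B`.  Case 2: there is such an `m` with `ee (χ m) = 1`; `q = |m|` (a natural number in `[1, Q]`) satisfies `ee (χ q) = 1`
(`conj_ee` if `m < 0`); `rat_bound` for every `k ∈ Ks` gives `E ≤ card⁻¹ ∑_m (Rk .. (m q) H).re`, one of the nonnegative terms of `B`.
The integrals in `SpecThm` are `∫ g_m conj (g_m ∘ T^{m (i - j)}) = ∫ Del T (m · Fin.cons (i - j) h) g` (`Del_cons`, `Fin.cons` of products), and the sum over `Ks` is the sum over `[b, b + n)` (`sum_Ks`, `toNat_Ks`, `card_Ks`).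
-/

set_option autoImplicit false

namespace Pool.Agent.MRS

open MeasureTheory Filter Topology
open scoped BigOperators ComplexConjugate

theorem spec_bound (hS : SpecThm) {X : Type} [MeasurableSpace X] {mu : Measure X} [IsProbabilityMeasure mu]
    {T : ℤ → X → X} (hT : ZAct mu T) {s : ℕ} {g : X → ℂ} (hg : B1 g) (h : Fin s → ℤ)
    {W κ b : ℤ} {n : ℕ} (hW : 0 < W) (hb : 0 < κ + W * b) (hn : 0 < n) {Λ : ℕ} (hΛ : 0 < Λ)
    (hd : ∀ k ∈ Finset.Ico b (b + n), (κ + W * k) ∣ (Λ : ℤ)) {ε₁ : ℝ} (hε₁ : 0 ≤ ε₁)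
    (hc : (Cc (2 ^ s) : ℝ) / n ≤ ε₁ ^ (2 ^ (2 ^ s))) {H : ℕ} (hH : 0 < H) {ε₃ : ℝ} (hε₃ : 0 < ε₃) :
    ∃ H0 : ℕ, ∀ H' : ℕ, H0 ≤ H' →
      ((H' : ℝ)⁻¹) ^ 2 * ∑ i ∈ Finset.Ico (0 : ℤ) H', ∑ j ∈ Finset.Ico (0 : ℤ) H',
        ‖(n : ℂ)⁻¹ * ∑ k ∈ Finset.Ico b (b + n),
          ∫ x, Del T (fun t => (κ + W * k) * (Fin.cons (i - j) h : Fin (s + 1) → ℤ) t) g x ∂mu‖ ^ 2 ≤
      ε₁ + ∑ q ∈ Finset.Icc (1 : ℕ) (2 ^ (2 ^ s) * Λ), (n : ℝ)⁻¹ * ∑ m ∈ Ks W κ b n,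
        (Rk mu T (Del T (fun t => (m : ℤ) * h t) g) ((m : ℤ) * (q : ℤ)) H).re + ε₃ := by
  have hcard : (Ks W κ b n).card = n := card_Ks hW hb n
  have hnR : (0 : ℝ) < n := by exact_mod_cast hn
  have hne : (Ks W κ b n).Nonempty := by
    rw [← Finset.card_pos, hcard]
    exact hn
  have hB1 : ∀ m : ℕ, B1 (Del T (fun t => (m : ℤ) * h t) g) := fun m => B1_Del hT _ hg
  have hterm : ∀ q : ℕ, 0 ≤ (n : ℝ)⁻¹ * ∑ m ∈ Ks W κ b n,
      (Rk mu T (Del T (fun t => (m : ℤ) * h t) g) ((m : ℤ) * (q : ℤ)) H).re := fun q =>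
    mul_nonneg (inv_nonneg.2 hnR.le) (Finset.sum_nonneg fun m _ => Rk_nonneg hT (hB1 m) _ _)
  have hsum0 : 0 ≤ ∑ q ∈ Finset.Icc (1 : ℕ) (2 ^ (2 ^ s) * Λ), (n : ℝ)⁻¹ * ∑ m ∈ Ks W κ b n,
      (Rk mu T (Del T (fun t => (m : ℤ) * h t) g) ((m : ℤ) * (q : ℤ)) H).re :=
    Finset.sum_nonneg fun q _ => hterm q
  obtain ⟨H0, hH0⟩ := hS X mu T hT (Ks W κ b n) (fun m => Del T (fun t => (m : ℤ) * h t) g) hne
    (fun k hk => pos_of_mem_Ks hW hb hk) hB1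
    (ε₁ + ∑ q ∈ Finset.Icc (1 : ℕ) (2 ^ (2 ^ s) * Λ), (n : ℝ)⁻¹ * ∑ m ∈ Ks W κ b n,
      (Rk mu T (Del T (fun t => (m : ℤ) * h t) g) ((m : ℤ) * (q : ℤ)) H).re)
    (add_nonneg hε₁ hsum0) (fun χ φ hφ => by
      by_cases hcase : ∀ m : ℤ, m ≠ 0 → |m| ≤ 2 ^ (2 ^ s) * (Λ : ℤ) → ee (χ * m) ≠ 1
      · have h1 := claimC hT hg h hW hb hn (Λ := (Λ : ℤ)) (by exact_mod_cast hΛ) hd hcase hφ
        have h2 := h1.trans hc
        have h3 := le_of_pow_le_pow_left₀ (pow_ne_zero _ two_ne_zero) hε₁ h2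
        linarith
      · push Not at hcase
        obtain ⟨m, hm0, hmle, hm1⟩ := hcase
        have hq1 : ee (χ * (m.natAbs : ℕ)) = 1 := by
          rcases le_total 0 m with h0 | h0
          · have e1 : ((m.natAbs : ℕ) : ℝ) = (m : ℝ) := by
              rw [Nat.cast_natAbs, abs_of_nonneg h0]
            rw [e1]
            exact hm1
          · have e1 : ((m.natAbs : ℕ) : ℝ) = -(m : ℝ) := by
              rw [Nat.cast_natAbs, abs_of_nonpos h0]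
              push_cast
              rfl
            rw [e1, show χ * -(m : ℝ) = -(χ * m) by ring, ← conj_ee, hm1, map_one]
        have hqm : m.natAbs ∈ Finset.Icc (1 : ℕ) (2 ^ (2 ^ s) * Λ) := by
          rw [Finset.mem_Icc]
          refine ⟨Nat.one_le_iff_ne_zero.2 (Int.natAbs_ne_zero.2 hm0), ?_⟩
          rw [Int.abs_eq_natAbs] at hmle
          exact_mod_cast hmle
        have hE : ((Ks W κ b n).card : ℝ)⁻¹ * ∑ k ∈ Ks W κ b n, ∫ x, ‖φ k x‖ ^ 2 ∂mu ≤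
            (n : ℝ)⁻¹ * ∑ k ∈ Ks W κ b n,
              (Rk mu T (Del T (fun t => (k : ℤ) * h t) g) ((k : ℤ) * ((m.natAbs : ℕ) : ℤ)) H).re := by
          rw [hcard]
          refine mul_le_mul_of_nonneg_left ?_ (inv_nonneg.2 hnR.le)
          refine Finset.sum_le_sum fun k hk => ?_
          exact rat_bound hT (hB1 k) (hφ.b1 k hk) (hφ.eig k hk) hq1 (hφ.sq k hk) hH
        have h4 := Finset.single_le_sum (f := fun q : ℕ => (n : ℝ)⁻¹ * ∑ k ∈ Ks W κ b n,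
          (Rk mu T (Del T (fun t => (k : ℤ) * h t) g) ((k : ℤ) * (q : ℤ)) H).re)
          (fun q _ => hterm q) hqm
        have h5 := hE.trans h4
        linarith) ε₃ hε₃
  refine ⟨H0, fun H' hH' => ?_⟩
  refine le_trans (le_of_eq ?_) (hH0 H' hH')
  congr 1
  refine Finset.sum_congr rfl fun i _ => Finset.sum_congr rfl fun j _ => ?_
  rw [hcard, sum_Ks hW hb n]
  congr 3
  refine Finset.sum_congr rfl fun k hk => ?_
  have hk1 := toNat_Ks hW hb (Finset.mem_Ico.1 hk).1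
  have hcons : (fun t => (κ + W * k) * (Fin.cons (i - j) h : Fin (s + 1) → ℤ) t) =
      (Fin.cons ((κ + W * k) * (i - j)) (fun t => (κ + W * k) * h t) : Fin (s + 1) → ℤ) := by
    funext t
    refine Fin.cases ?_ (fun t => ?_) t
    · rw [Fin.cons_zero, Fin.cons_zero]
    · rw [Fin.cons_succ, Fin.cons_succ]
  rw [hcons]
  refine integral_congr_ae (Filter.Eventually.of_forall fun x => ?_)
  beta_reduce
  rw [Del_cons hT, hk1]

end Pool.Agent.MRS
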