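import Pool.Agent.MRS.SaDefs

/-!
# MRS / SaErg: mean ergodic theorem for the twisted averages

PROOF.  `U = e(-χ) • (Koopman operator of T k)` on `Lp ℂ 2 mu` (`Lp.compMeasurePreservingₗᵢ`), `‖U‖ ≤ 1`.
`U^[j] [g] = [e(-jχ) g ∘ T (k j)]` (induction with `hT.add`, `ee_add`).  By
`ContinuousLinearMap.tendsto_birkhoffAverage_orthogonalProjection` the averages
`[Av T k g H χ] = birkhoffAverage ℂ U id H [g]` tend in `L²` to the orthogonal projection `p` of `[g]` on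
`{v : U v = v}`.  `p` is bounded by one a.e. (an `L²`-limit of functions bounded by one: a subsequence
converges a.e.), take a measurable representative `φ0` (`(Lp.stronglyMeasurable p).measurable`) and
`φ x = if ‖φ0 x‖ ≤ 1 then φ0 x else 0`, `φ = φ0` a.e.  `U p = p`: `φ (T k x) = e(χ) φ x` a.e.
`⟪p, [g] - p⟫ = 0`: `∫ ‖φ‖² = ∫ g conj φ`.  Norms converge: `Qv mu T k g H χ = ‖[Av H]‖² → ‖p‖² = ∫ ‖φ‖²`.
-/

set_option autoImplicit false

namespace Pool.Agent.MRS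

open MeasureTheory Filter Topology
open scoped BigOperators ComplexConjugate

variable {X : Type} [MeasurableSpace X] {mu : Measure X} [IsProbabilityMeasure mu]
  {T : ℤ → X → X}

private theorem sa_norm (F : Lp ℂ 2 mu) : ‖F‖ ^ 2 = ∫ x, ‖F x‖ ^ 2 ∂mu := by
  have h := L2.inner_def (𝕜 := ℂ) F F
  rw [inner_self_eq_norm_sq_to_K] at h
  have h2 : ∀ x, (inner ℂ (F x) (F x) : ℂ) = ((‖F x‖ ^ 2 : ℝ) : ℂ) := by
    intro x
    rw [inner_self_eq_norm_sq_to_K]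
    push_cast
    rfl
  have h3 : ∫ x, ((‖F x‖ ^ 2 : ℝ) : ℂ) ∂mu = ((∫ x, ‖F x‖ ^ 2 ∂mu : ℝ) : ℂ) := integral_ofReal
  simp only [h2] at h
  rw [h3] at h
  refine Complex.ofReal_injective ?_
  rw [← h]
  push_cast
  rfl

omit [IsProbabilityMeasure mu] in
private theorem sa_meas (hT : ZAct mu T) {g : X → ℂ} (hg : B1 g) (k : ℕ) (χ : ℝ) (j : ℕ) :
    Measurable fun x => ee (-((j : ℝ) * χ)) * g (T ((k : ℤ) * (j : ℤ)) x) :=
  measurable_const.mul (hg.meas.comp (hT.mp _).measurable)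

private theorem sa_mem (hT : ZAct mu T) {g : X → ℂ} (hg : B1 g) (k : ℕ) (χ : ℝ) (j : ℕ) :
    MemLp (fun x => ee (-((j : ℝ) * χ)) * g (T ((k : ℤ) * (j : ℤ)) x)) 2 mu := by
  refine MemLp.of_bound (sa_meas hT hg k χ j).aestronglyMeasurable 1
    (Eventually.of_forall fun x => ?_)
  rw [norm_mul, norm_ee, one_mul]
  exact hg.le _

private theorem sa_memS (hT : ZAct mu T) {g : X → ℂ} (hg : B1 g) (k : ℕ) (χ : ℝ) (H : ℕ) :
    MemLp (fun x => ∑ j ∈ Finset.range H,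
      ee (-((j : ℝ) * χ)) * g (T ((k : ℤ) * (j : ℤ)) x)) 2 mu := by
  refine MemLp.of_bound (Finset.measurable_fun_sum _ fun j _ =>
    sa_meas hT hg k χ j).aestronglyMeasurable H (Eventually.of_forall fun x => ?_)
  refine (norm_sum_le _ _).trans ?_
  refine (Finset.sum_le_card_nsmul _ _ 1 fun j _ => ?_).trans ?_
  · rw [norm_mul, norm_ee, one_mul]
    exact hg.le _
  · rw [Finset.card_range, nsmul_eq_mul, mul_one]

private theorem sa_memA (hT : ZAct mu T) {g : X → ℂ} (hg : B1 g) (k : ℕ) (χ : ℝ) (H : ℕ) :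
    MemLp (Av T k g H χ) 2 mu :=
  (sa_memS hT hg k χ H).const_smul (H : ℂ)⁻¹

omit [MeasurableSpace X] in
private theorem sa_Av_le' {g : X → ℂ} (hg : ∀ x, ‖g x‖ ≤ 1) (k : ℕ) (χ : ℝ) (H : ℕ) (x : X) :
    ‖Av T k g H χ x‖ ≤ 1 := by
  unfold Av
  rw [norm_mul, norm_inv, Complex.norm_natCast]
  have h1 : ‖∑ j ∈ Finset.range H, ee (-((j : ℝ) * χ)) * g (T ((k : ℤ) * (j : ℤ)) x)‖ ≤ H := by
    refine (norm_sum_le _ _).trans ?_
    refine (Finset.sum_le_card_nsmul _ _ 1 fun j _ => ?_).trans ?_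
    · rw [norm_mul, norm_ee, one_mul]
      exact hg _
    · rw [Finset.card_range, nsmul_eq_mul, mul_one]
  rcases Nat.eq_zero_or_pos H with h0 | h0
  · rw [h0, Nat.cast_zero, inv_zero, zero_mul]
    exact zero_le_one
  · have h2 : (0 : ℝ) < H := by exact_mod_cast h0
    rw [inv_mul_le_iff₀ h2, mul_one]
    exact h1

private theorem sa_Av_le {g : X → ℂ} (hg : B1 g) (k : ℕ) (χ : ℝ) (H : ℕ) (x : X) :
    ‖Av T k g H χ x‖ ≤ 1 := sa_Av_le' hg.le k χ H x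

theorem erg (hT : ZAct mu T) (k : ℕ) {g : X → ℂ} (hg : B1 g) (χ : ℝ) :
    ∃ φ : X → ℂ, B1 φ ∧ (∀ᵐ x ∂mu, φ (T (k : ℤ) x) = ee χ * φ x) ∧
      ((∫ x, ‖φ x‖ ^ 2 ∂mu : ℝ) : ℂ) = ∫ x, g x * conj (φ x) ∂mu ∧
      Tendsto (fun H : ℕ => Qv mu T k g H χ) atTop (𝓝 (∫ x, ‖φ x‖ ^ 2 ∂mu)) := by
  have hS : MeasurePreserving (T (k : ℤ)) mu mu := hT.mp k
  have hmem := sa_mem (mu := mu) hT hg k χ
  have hav := sa_memA (mu := mu) hT hg k χ
  let U : Lp ℂ 2 mu →L[ℂ] Lp ℂ 2 mu :=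
    ee (-χ) • (Lp.compMeasurePreservingₗᵢ ℂ (T (k : ℤ)) hS :
      Lp ℂ 2 mu →ₗᵢ[ℂ] Lp ℂ 2 mu).toContinuousLinearMap
  have hUapp : ∀ F : Lp ℂ 2 mu, U F = ee (-χ) • Lp.compMeasurePreserving (T (k : ℤ)) hS F :=
    fun F => rfl
  have hU : ‖U‖ ≤ 1 := by
    refine ContinuousLinearMap.opNorm_le_bound _ zero_le_one fun F => ?_
    rw [hUapp, norm_smul, norm_ee, Lp.norm_compMeasurePreserving]
  -- the iterates
  have hit : ∀ j : ℕ, U^[j] ((hmem 0).toLp _) = (hmem j).toLp _ := by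
    intro j
    induction j with
    | zero => rfl
    | succ j ih =>
      rw [Function.iterate_succ_apply', ih, hUapp, Lp.toLp_compMeasurePreserving,
        ← MemLp.toLp_const_smul]
      refine MemLp.toLp_congr _ _ (Eventually.of_forall fun x => ?_)
      show ee (-χ) * (ee (-((j : ℝ) * χ)) * g (T ((k : ℤ) * (j : ℤ)) (T (k : ℤ) x))) =
        ee (-(((j + 1 : ℕ) : ℝ) * χ)) * g (T ((k : ℤ) * ((j + 1 : ℕ) : ℤ)) x)
      have e1 : -χ + -((j : ℝ) * χ) = -(((j + 1 : ℕ) : ℝ) * χ) := by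
        push_cast
        ring
      have e2 : (k : ℤ) * (j : ℤ) + (k : ℤ) = (k : ℤ) * ((j + 1 : ℕ) : ℤ) := by
        push_cast
        ring
      rw [← hT.add, ← mul_assoc, ← ee_add, e1, e2]
  have hsum : ∀ H : ℕ, ∀ hm : MemLp (fun x => ∑ j ∈ Finset.range H,
      ee (-((j : ℝ) * χ)) * g (T ((k : ℤ) * (j : ℤ)) x)) 2 mu,
      ∑ j ∈ Finset.range H, (hmem j).toLp _ = hm.toLp _ := by
    intro H
    induction H with
    | zero =>
      intro hm
      rw [Finset.sum_range_zero]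
      refine (Eq.trans (MemLp.toLp_congr hm (MemLp.zero : MemLp (0 : X → ℂ) 2 mu)
        (Eventually.of_forall fun x => ?_)) (MemLp.toLp_zero _)).symm
      show ∑ j ∈ Finset.range 0, ee (-((j : ℝ) * χ)) * g (T ((k : ℤ) * (j : ℤ)) x) = 0
      rw [Finset.sum_range_zero]
    | succ H ih =>
      intro hm
      rw [Finset.sum_range_succ, ih (sa_memS (mu := mu) hT hg k χ H), ← MemLp.toLp_add]
      refine MemLp.toLp_congr _ _ (Eventually.of_forall fun x => ?_)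
      exact (Finset.sum_range_succ
        (fun j : ℕ => ee (-((j : ℝ) * χ)) * g (T ((k : ℤ) * (j : ℤ)) x)) H).symm
  have hbA : ∀ H : ℕ, birkhoffAverage ℂ U _root_.id H ((hmem 0).toLp _) = (hav H).toLp _ := by
    intro H
    have h1 : birkhoffAverage ℂ U _root_.id H ((hmem 0).toLp _) =
        (H : ℂ)⁻¹ • ∑ j ∈ Finset.range H, (hmem j).toLp _ := by
      show (H : ℂ)⁻¹ • ∑ j ∈ Finset.range H, _root_.id (U^[j] ((hmem 0).toLp _)) = _
      congr 1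
      exact Finset.sum_congr rfl fun j _ => hit j
    rw [h1, hsum H (sa_memS (mu := mu) hT hg k χ H), ← MemLp.toLp_const_smul]
    exact MemLp.toLp_congr _ _ (Eventually.of_forall fun x => rfl)
  have hlim := ContinuousLinearMap.tendsto_birkhoffAverage_orthogonalProjection U hU
    ((hmem 0).toLp _)
  simp only [hbA] at hlim
  set P := (U.eqLocus (1 : Lp ℂ 2 mu →L[ℂ] Lp ℂ 2 mu)).orthogonalProjectionOnto
    ((hmem 0).toLp _) with hP
  have hPfix : U (P : Lp ℂ 2 mu) = P := P.2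
  have hinn : inner ℂ (P : Lp ℂ 2 mu) (P : Lp ℂ 2 mu) =
      inner ℂ (P : Lp ℂ 2 mu) ((hmem 0).toLp _) := by
    have h1 := Submodule.inner_orthogonalProjectionOnto_eq_of_mem_left
      (K := U.eqLocus (1 : Lp ℂ 2 mu →L[ℂ] Lp ℂ 2 mu)) P ((hmem 0).toLp _)
    rw [← h1]
    rfl
  -- bounded by one
  have hb1 : ∀ᵐ x ∂mu, ‖(P : Lp ℂ 2 mu) x‖ ≤ 1 := by
    obtain ⟨ns, -, hns⟩ := (tendstoInMeasure_of_tendsto_Lp hlim).exists_seq_tendsto_ae
    have h2 : ∀ᵐ x ∂mu, ∀ i : ℕ, ((hav (ns i)).toLp _ : Lp ℂ 2 mu) x = Av T k g (ns i) χ x :=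
      ae_all_iff.2 fun i => (hav (ns i)).coeFn_toLp
    filter_upwards [hns, h2] with x hx1 hx2
    refine le_of_tendsto hx1.norm (Eventually.of_forall fun i => ?_)
    rw [hx2 i]
    exact sa_Av_le hg k χ (ns i) x
  -- the measurable representative
  have hPm : Measurable fun x => (P : Lp ℂ 2 mu) x :=
    (Lp.stronglyMeasurable (P : Lp ℂ 2 mu)).measurable
  have hφe : (fun x => if ‖(P : Lp ℂ 2 mu) x‖ ≤ 1 then (P : Lp ℂ 2 mu) x else 0) =ᵐ[mu]
      fun x => (P : Lp ℂ 2 mu) x := by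
    filter_upwards [hb1] with x hx
    rw [if_pos hx]
  have hS1 : ∫ x, ‖(if ‖(P : Lp ℂ 2 mu) x‖ ≤ 1 then (P : Lp ℂ 2 mu) x else 0 : ℂ)‖ ^ 2 ∂mu =
      ‖(P : Lp ℂ 2 mu)‖ ^ 2 := by
    rw [sa_norm]
    refine integral_congr_ae ?_
    filter_upwards [hφe] with x hx
    rw [hx]
  refine ⟨fun x => if ‖(P : Lp ℂ 2 mu) x‖ ≤ 1 then (P : Lp ℂ 2 mu) x else 0, ⟨?_, ?_⟩, ?_, ?_, ?_⟩
  · exact Measurable.ite (measurableSet_le hPm.norm measurable_const) hPm measurable_const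
  · intro x
    show ‖(if ‖(P : Lp ℂ 2 mu) x‖ ≤ 1 then (P : Lp ℂ 2 mu) x else 0 : ℂ)‖ ≤ 1
    split_ifs with h
    · exact h
    · rw [norm_zero]
      exact zero_le_one
  · have h3 := hS.quasiMeasurePreserving.ae_eq_comp hφe
    have h4 : (fun x => (P : Lp ℂ 2 mu) (T (k : ℤ) x)) =ᵐ[mu]
        fun x => ee χ * (P : Lp ℂ 2 mu) x := by
      have h5 := Lp.coeFn_compMeasurePreserving (P : Lp ℂ 2 mu) hS
      have h6 : Lp.compMeasurePreserving (T (k : ℤ)) hS (P : Lp ℂ 2 mu) =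
          ee χ • (P : Lp ℂ 2 mu) := by
        rw [hUapp] at hPfix
        rw [← hPfix, smul_smul, ← ee_add, add_neg_cancel, ee_zero, one_smul, hPfix]
      rw [h6] at h5
      filter_upwards [h5, Lp.coeFn_smul (ee χ) (P : Lp ℂ 2 mu)] with x hx1 hx2
      rw [hx2] at hx1
      exact hx1.symm
    filter_upwards [h3, h4, hφe] with x hx3 hx4 hx5
    have hx3' : (if ‖(P : Lp ℂ 2 mu) (T (k : ℤ) x)‖ ≤ 1 then (P : Lp ℂ 2 mu) (T (k : ℤ) x)
      else 0) = (P : Lp ℂ 2 mu) (T (k : ℤ) x) := hx3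
    show (if ‖(P : Lp ℂ 2 mu) (T (k : ℤ) x)‖ ≤ 1 then (P : Lp ℂ 2 mu) (T (k : ℤ) x) else 0) = _
    rw [hx3', hx4, hx5]
  · rw [hS1]
    have h7 : ((‖(P : Lp ℂ 2 mu)‖ ^ 2 : ℝ) : ℂ) =
        inner ℂ (P : Lp ℂ 2 mu) ((hmem 0).toLp _) := by
      rw [← hinn, inner_self_eq_norm_sq_to_K]
      push_cast
      rfl
    rw [h7, L2.inner_def]
    refine integral_congr_ae ?_
    filter_upwards [hφe, (hmem 0).coeFn_toLp] with x hx1 hx2
    rw [hx1, hx2, RCLike.inner_apply]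
    congr 1
    show ee (-(((0 : ℕ) : ℝ) * χ)) * g (T ((k : ℤ) * ((0 : ℕ) : ℤ)) x) = g x
    rw [Nat.cast_zero, zero_mul, neg_zero, ee_zero, one_mul, Nat.cast_zero, mul_zero, hT.zero]
  · rw [hS1]
    have h8 : ∀ H : ℕ, Qv mu T k g H χ = ‖(hav H).toLp _‖ ^ 2 := by
      intro H
      rw [sa_norm]
      refine integral_congr_ae ?_
      filter_upwards [(hav H).coeFn_toLp] with x hx
      rw [hx]
    simp only [h8]
    exact (hlim.norm).pow 2

end Pool.Agent.MRS
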