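import Pool.Agent.MRS.SaDefs

/-!
# MRS / SaExp: expansion of the squared norm of a twisted average

PROOFS.
`co_shift`: `∫ g(T(ki)x) conj g(T(kj)x) = ∫ g(T(k(i-j))x) conj g(x)`: `T (k i) x = T (k (i - j)) (T (k j) x)` by
`hT.add` and `hT.mp (k j)` preserves the integral (`MeasurePreserving.integral_comp'` needs an embedding;
use `MeasureTheory.integral_map` with the measurability of the integrand, or that `T (k j)` is a
measurable equivalence with inverse `T (-(k j))`).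
`qv_sum`: for all `c`: `∑_{i,j<n} c_i conj c_j Co(i-j) = ∫ |∑_{i<n} c_i g(T(ki)x)|²` (expand the square,
`integral_finset_sum`, all the functions are bounded and measurable, `co_shift`).
`qv_eq`: `qv_sum` with `c_i = e(-i χ)`.
`posdef_co`: `conj_symm` of each `Co` from `co_shift` (`Co(-h) = ∫ g(T(-kh)x) conj g(x) =
∫ g(x) conj g(T(kh)x) = conj Co(h)`), `nonneg` from `qv_sum`; sums and nonnegative multiples preserve both.
`fe_cont`, `fe_per`: finite sums of `e(-(i-j)χ)` times constants; `e(n) = 1` for integers `n`.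
-/

set_option autoImplicit false

namespace Pool.Agent.MRS

open MeasureTheory
open scoped BigOperators ComplexConjugate

variable {X : Type} [MeasurableSpace X] {mu : Measure X} [IsProbabilityMeasure mu]
  {T : ℤ → X → X}

omit [IsProbabilityMeasure mu] in
private theorem sae_meas (hT : ZAct mu T) {g : X → ℂ} (hg : B1 g) (a : ℤ) :
    Measurable fun x => g (T a x) := hg.meas.comp (hT.mp a).measurable

private theorem sae_int (hT : ZAct mu T) {g : X → ℂ} (hg : B1 g) (a b : ℤ) :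
    Integrable (fun x => g (T a x) * conj (g (T b x))) mu := by
  have hm : Measurable fun x => g (T a x) * conj (g (T b x)) :=
    (sae_meas hT hg a).mul (Complex.continuous_conj.measurable.comp (sae_meas hT hg b))
  refine Integrable.of_bound hm.aestronglyMeasurable 1 (Filter.Eventually.of_forall fun x => ?_)
  rw [norm_mul, RCLike.norm_conj]
  exact mul_le_one₀ (hg.le _) (norm_nonneg _) (hg.le _)

theorem co_shift (hT : ZAct mu T) (k : ℕ) {g : X → ℂ} (hg : B1 g) (i j : ℤ) :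
    ∫ x, g (T ((k : ℤ) * i) x) * conj (g (T ((k : ℤ) * j) x)) ∂mu = Co mu T k g (i - j) := by
  have hm : Measurable fun y => g (T ((k : ℤ) * (i - j)) y) * conj (g y) :=
    (sae_meas hT hg _).mul (Complex.continuous_conj.measurable.comp hg.meas)
  have h1 : ∀ x, T ((k : ℤ) * i) x = T ((k : ℤ) * (i - j)) (T ((k : ℤ) * j) x) := by
    intro x
    rw [← hT.add]
    congr 1
    ring
  have h2 := integral_map (μ := mu) (hT.mp ((k : ℤ) * j)).measurable.aemeasurable
    (f := fun y => g (T ((k : ℤ) * (i - j)) y) * conj (g y)) hm.aestronglyMeasurable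
  rw [(hT.mp ((k : ℤ) * j)).map_eq] at h2
  unfold Co
  rw [h2]
  simp only [h1]

theorem qv_sum (hT : ZAct mu T) (k : ℕ) {g : X → ℂ} (hg : B1 g) (n : ℕ) (c : ℕ → ℂ) :
    ∑ i ∈ Finset.range n, ∑ j ∈ Finset.range n, c i * conj (c j) * Co mu T k g ((i : ℤ) - (j : ℤ))
      = ((∫ x, ‖∑ i ∈ Finset.range n, c i * g (T ((k : ℤ) * (i : ℤ)) x)‖ ^ 2 ∂mu : ℝ) : ℂ) := by
  have h0 : ∀ x, ((‖∑ i ∈ Finset.range n, c i * g (T ((k : ℤ) * (i : ℤ)) x)‖ ^ 2 : ℝ) : ℂ) =
      ∑ i ∈ Finset.range n, ∑ j ∈ Finset.range n,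
        c i * conj (c j) * (g (T ((k : ℤ) * (i : ℤ)) x) * conj (g (T ((k : ℤ) * (j : ℤ)) x))) := by
    intro x
    rw [← Complex.normSq_eq_norm_sq, ← Complex.mul_conj, map_sum, Finset.sum_mul_sum]
    refine Finset.sum_congr rfl fun i _ => Finset.sum_congr rfl fun j _ => ?_
    rw [map_mul]
    ring
  have hr : ((∫ x, ‖∑ i ∈ Finset.range n, c i * g (T ((k : ℤ) * (i : ℤ)) x)‖ ^ 2 ∂mu : ℝ) : ℂ) =
      ∫ x, ((‖∑ i ∈ Finset.range n, c i * g (T ((k : ℤ) * (i : ℤ)) x)‖ ^ 2 : ℝ) : ℂ) ∂mu :=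
    (integral_ofReal (𝕜 := ℂ)).symm
  rw [hr, integral_congr_ae (Filter.Eventually.of_forall h0)]
  rw [integral_finset_sum _ fun i _ => integrable_finset_sum _ fun j _ =>
    (sae_int hT hg _ _).const_mul _]
  refine Finset.sum_congr rfl fun i _ => ?_
  rw [integral_finset_sum _ fun j _ => (sae_int hT hg _ _).const_mul _]
  refine Finset.sum_congr rfl fun j _ => ?_
  rw [integral_const_mul, co_shift hT k hg]

private theorem sae_ee (χ : ℝ) (i j : ℕ) :
    ee (-((i : ℝ) * χ)) * conj (ee (-((j : ℝ) * χ))) = ee (-(((i : ℝ) - (j : ℝ)) * χ)) := by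
  rw [conj_ee, ← ee_add]
  congr 1
  ring

theorem qv_eq (hT : ZAct mu T) (k : ℕ) {g : X → ℂ} (hg : B1 g) (H : ℕ) (χ : ℝ) :
    Qv mu T k g H χ = Fe (Co mu T k g) H χ := by
  have h1 := congrArg Complex.re (qv_sum hT k hg H (fun j => ee (-((j : ℝ) * χ))))
  rw [Complex.ofReal_re] at h1
  simp only [sae_ee] at h1
  unfold Fe Qv Av
  rw [h1, ← integral_const_mul]
  refine integral_congr_ae (Filter.Eventually.of_forall fun x => ?_)
  simp only
  rw [norm_mul, mul_pow, norm_inv, Complex.norm_natCast]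

theorem co_zero_le (hT : ZAct mu T) (k : ℕ) {g : X → ℂ} (hg : B1 g) :
    (Co mu T k g 0).re ≤ 1 := by
  refine (Complex.re_le_norm _).trans ?_
  unfold Co
  have h := norm_integral_le_of_norm_le_const (μ := mu) (C := 1)
    (f := fun x => g (T ((k : ℤ) * 0) x) * conj (g x)) (Filter.Eventually.of_forall fun x => by
      rw [norm_mul, RCLike.norm_conj]
      exact mul_le_one₀ (hg.le _) (norm_nonneg _) (hg.le _))
  simpa using h

private theorem sae_conj (hT : ZAct mu T) (k : ℕ) {g : X → ℂ} (hg : B1 g) (h : ℤ) :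
    Co mu T k g (-h) = conj (Co mu T k g h) := by
  have h1 := co_shift hT k hg 0 h
  rw [zero_sub] at h1
  rw [← h1]
  unfold Co
  rw [← integral_conj]
  refine integral_congr_ae (Filter.Eventually.of_forall fun x => ?_)
  simp only
  rw [mul_zero, hT.zero, map_mul, Complex.conj_conj, mul_comm]

theorem posdef_co (hT : ZAct mu T) (Ks : Finset ℕ) {g : ℕ → X → ℂ} (hg : ∀ k, B1 (g k)) :
    PosDef (fun h => (Ks.card : ℂ)⁻¹ * ∑ k ∈ Ks, Co mu T k (g k) h) := by
  refine ⟨fun h => ?_, fun n c => ?_⟩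
  · rw [map_mul, map_inv₀, map_natCast, map_sum]
    congr 1
    exact Finset.sum_congr rfl fun k _ => sae_conj hT k (hg k) h
  · have h1 : ∑ i ∈ Finset.range n, ∑ j ∈ Finset.range n, c i * conj (c j) *
        ((Ks.card : ℂ)⁻¹ * ∑ k ∈ Ks, Co mu T k (g k) ((i : ℤ) - (j : ℤ))) =
        (((Ks.card : ℝ)⁻¹ * ∑ k ∈ Ks,
          ∫ x, ‖∑ i ∈ Finset.range n, c i * g k (T ((k : ℤ) * (i : ℤ)) x)‖ ^ 2 ∂mu : ℝ) : ℂ) := by
      rw [Complex.ofReal_mul, Complex.ofReal_sum, Complex.ofReal_inv, Complex.ofReal_natCast]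
      rw [Finset.sum_congr rfl fun k _ => (qv_sum hT k (hg k) n c).symm]
      rw [Finset.sum_comm (s := Ks), Finset.mul_sum]
      refine Finset.sum_congr rfl fun i _ => ?_
      rw [Finset.sum_comm (s := Ks), Finset.mul_sum]
      refine Finset.sum_congr rfl fun j _ => ?_
      rw [← Finset.mul_sum]
      ring
    rw [h1, Complex.ofReal_re]
    exact mul_nonneg (inv_nonneg.2 (Nat.cast_nonneg _))
      (Finset.sum_nonneg fun k _ => integral_nonneg fun x => by positivity)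

theorem fe_avg (Ks : Finset ℕ) (G : ℕ → ℤ → ℂ) (H : ℕ) (χ : ℝ) :
    Fe (fun h => (Ks.card : ℂ)⁻¹ * ∑ k ∈ Ks, G k h) H χ
      = (Ks.card : ℝ)⁻¹ * ∑ k ∈ Ks, Fe (G k) H χ := by
  unfold Fe
  have h1 : ∑ i ∈ Finset.range H, ∑ j ∈ Finset.range H, ee (-(((i : ℝ) - (j : ℝ)) * χ)) *
      ((Ks.card : ℂ)⁻¹ * ∑ k ∈ Ks, G k ((i : ℤ) - (j : ℤ))) =
      (((Ks.card : ℝ)⁻¹ : ℝ) : ℂ) * ∑ k ∈ Ks, ∑ i ∈ Finset.range H, ∑ j ∈ Finset.range H,
        ee (-(((i : ℝ) - (j : ℝ)) * χ)) * G k ((i : ℤ) - (j : ℤ)) := by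
    rw [Complex.ofReal_inv, Complex.ofReal_natCast]
    rw [Finset.sum_comm (s := Ks), Finset.mul_sum]
    refine Finset.sum_congr rfl fun i _ => ?_
    rw [Finset.sum_comm (s := Ks), Finset.mul_sum]
    refine Finset.sum_congr rfl fun j _ => ?_
    rw [← Finset.mul_sum]
    ring
  rw [h1, Complex.re_ofReal_mul, Complex.re_sum, ← Finset.mul_sum]
  ring

theorem fe_cont (G : ℤ → ℂ) (H : ℕ) : Continuous (Fe G H) := by
  unfold Fe
  refine continuous_const.mul (Complex.continuous_re.comp ?_)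
  refine continuous_finset_sum _ fun i _ => continuous_finset_sum _ fun j _ => ?_
  refine Continuous.mul (continuous_ee.comp ?_) continuous_const
  fun_prop

theorem fe_per (G : ℤ → ℂ) (H : ℕ) (χ : ℝ) (n : ℤ) : Fe G H (χ + n) = Fe G H χ := by
  unfold Fe
  congr 2
  refine Finset.sum_congr rfl fun i _ => Finset.sum_congr rfl fun j _ => ?_
  congr 1
  have h1 : -(((i : ℝ) - (j : ℝ)) * (χ + n)) =
      -(((i : ℝ) - (j : ℝ)) * χ) + ((-(((i : ℤ) - (j : ℤ)) * n) : ℤ) : ℝ) := by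
    push_cast
    ring
  rw [h1, ee_add, ee_int, mul_one]

end Pool.Agent.MRS
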