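import Pool.Agent.MRS.SaDefs

/-!
# MRS / SaMon: almost monotonicity of the norms of the twisted averages

PROOF.  Write `H = q H0 + r`, `r < H0`, `v_j(x) = e(-jχ) g(T(kj)x)`.  For every `b`:
`∑_{j<H0} v_{b H0 + j}(x) = e(-b H0 χ) ∑_{j<H0} v_j (T(k b H0) x)`  (`hT.add`), whose `L²` norm is
`‖∑_{j<H0} v_j‖_2 = H0 √Qv(H0)` (`hT.mp`).  Minkowski in `L²`:
`H √Qv(H) ≤ q H0 √Qv(H0) + r ≤ H √Qv(H0) + H0`, so `√Qv(H) ≤ √Qv(H0) + H0/H`, and
`Qv(H) ≤ Qv(H0) + 2 (H0/H) + (H0/H)² ≤ Qv(H0) + 3 H0/H` (`√Qv(H0) ≤ 1`, `H0 ≤ H`).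

Another way without the `L²` triangle inequality: with `u_b(x) = H0⁻¹ ∑_{j<H0} v_{bH0+j}(x)` one has
`|Av_H(x)| ≤ (H0/H) ∑_{b<q} |u_b(x)| + H0/H` pointwise, hence (Cauchy-Schwarz, `q H0 ≤ H`, `|u_b| ≤ 1`)
`|Av_H(x)|² ≤ q⁻¹ ∑_{b<q} |u_b(x)|² + 2 (H0/H) + (H0/H)²`, and integrate: `∫ |u_b|² = Qv(H0)`.
-/

set_option autoImplicit false

namespace Pool.Agent.MRS

open MeasureTheory
open scoped BigOperators ComplexConjugate

variable {X : Type} [MeasurableSpace X] {mu : Measure X} [IsProbabilityMeasure mu]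
  {T : ℤ → X → X}

private theorem samon_meas (hT : ZAct mu T) (k : ℕ) {g : X → ℂ} (hg : B1 g) (H : ℕ) (χ : ℝ) :
    Measurable (Av T k g H χ) := by
  unfold Av
  refine Measurable.const_mul ?_ _
  exact Finset.measurable_fun_sum _ fun j _ =>
    (hg.meas.comp (hT.mp ((k : ℤ) * (j : ℤ))).measurable).const_mul _

private theorem samon_le (k : ℕ) {g : X → ℂ} (hg : B1 g) (H : ℕ) (χ : ℝ) (x : X) :
    ‖Av T k g H χ x‖ ≤ 1 := by
  unfold Av
  rcases Nat.eq_zero_or_pos H with h | h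
  · subst h
    simp
  · have hH : (0 : ℝ) < H := by exact_mod_cast h
    rw [norm_mul, norm_inv, Complex.norm_natCast, inv_mul_le_iff₀ hH, mul_one]
    refine (norm_sum_le _ _).trans ?_
    refine (Finset.sum_le_sum fun j _ => ?_ : _ ≤ ∑ _j ∈ Finset.range H, (1 : ℝ)).trans ?_
    · rw [norm_mul, norm_ee, one_mul]
      exact hg.le _
    · simp

private theorem samon_int (hT : ZAct mu T) (k : ℕ) {g : X → ℂ} (hg : B1 g) (H : ℕ) (χ : ℝ) :
    Integrable (fun x => ‖Av T k g H χ x‖ ^ 2) mu := by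
  refine Integrable.mono' (g := fun _ => (1 : ℝ)) (integrable_const 1)
    ((samon_meas hT k hg H χ).norm.pow_const 2).aestronglyMeasurable
    (Filter.Eventually.of_forall fun x => ?_)
  rw [Real.norm_eq_abs, abs_of_nonneg (sq_nonneg _)]
  exact pow_le_one₀ (norm_nonneg _) (samon_le k hg H χ x)

private theorem samon_split (c : ℕ → ℂ) (H0 q : ℕ) :
    ∑ j ∈ Finset.range (q * H0), c j =
      ∑ b ∈ Finset.range q, ∑ j ∈ Finset.range H0, c (b * H0 + j) := by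
  induction q with
  | zero => simp
  | succ q ih => rw [Nat.succ_mul, Finset.sum_range_add, ih, Finset.sum_range_succ]

private theorem samon_block (hT : ZAct mu T) (k : ℕ) (g : X → ℂ) {H0 : ℕ} (h0 : 0 < H0) (χ : ℝ)
    (b : ℕ) (x : X) :
    ‖∑ j ∈ Finset.range H0, ee (-(((b * H0 + j : ℕ) : ℝ) * χ)) *
      g (T ((k : ℤ) * ((b * H0 + j : ℕ) : ℤ)) x)‖ =
      H0 * ‖Av T k g H0 χ (T ((k : ℤ) * ((b * H0 : ℕ) : ℤ)) x)‖ := by
  have h1 : ∑ j ∈ Finset.range H0, ee (-(((b * H0 + j : ℕ) : ℝ) * χ)) *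
      g (T ((k : ℤ) * ((b * H0 + j : ℕ) : ℤ)) x) = ee (-(((b * H0 : ℕ) : ℝ) * χ)) *
      ((H0 : ℂ) * Av T k g H0 χ (T ((k : ℤ) * ((b * H0 : ℕ) : ℤ)) x)) := by
    have hH : (H0 : ℂ) ≠ 0 := by exact_mod_cast h0.ne'
    unfold Av
    rw [← mul_assoc (H0 : ℂ), mul_inv_cancel₀ hH, one_mul, Finset.mul_sum]
    refine Finset.sum_congr rfl fun j _ => ?_
    rw [← mul_assoc, ← ee_add, ← hT.add]
    congr 2
    · push_cast
      ring
    · congr 1
      congr 1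
      push_cast
      ring
  rw [h1, norm_mul, norm_ee, one_mul, norm_mul, Complex.norm_natCast]

theorem qv_mono (hT : ZAct mu T) (k : ℕ) {g : X → ℂ} (hg : B1 g) {H0 H : ℕ} (h0 : 0 < H0)
    (hH : H0 ≤ H) (χ : ℝ) : Qv mu T k g H χ ≤ Qv mu T k g H0 χ + 3 * (H0 / H : ℝ) := by
  obtain ⟨q, hq⟩ : ∃ q, q = H / H0 := ⟨_, rfl⟩
  obtain ⟨r, hr⟩ : ∃ r, r = H % H0 := ⟨_, rfl⟩
  have hdm : q * H0 + r = H := by
    rw [hq, hr, mul_comm]
    exact Nat.div_add_mod H H0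
  have hr0 : r ≤ H0 := by
    rw [hr]
    exact (Nat.mod_lt H h0).le
  have hHp : (0 : ℝ) < H := by exact_mod_cast lt_of_lt_of_le h0 hH
  have hH0p : (0 : ℝ) < H0 := by exact_mod_cast h0
  obtain ⟨a, ha⟩ : ∃ a : ℝ, a = H0 / H := ⟨_, rfl⟩
  have ha0 : 0 ≤ a := by
    rw [ha]
    positivity
  have ha1 : a ≤ 1 := by
    rw [ha, div_le_one hHp]
    exact_mod_cast hH
  have haq : a * q ≤ 1 := by
    rw [ha, div_mul_eq_mul_div, div_le_one hHp]
    have h1 : (q * H0 : ℕ) ≤ H := by omega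
    have h2 : ((q * H0 : ℕ) : ℝ) ≤ H := by exact_mod_cast h1
    push_cast at h2
    linarith
  -- pointwise bound
  have hpt : ∀ x, ‖Av T k g H χ x‖ ^ 2 ≤ a ^ 2 * q * ∑ b ∈ Finset.range q,
      ‖Av T k g H0 χ (T ((k : ℤ) * ((b * H0 : ℕ) : ℤ)) x)‖ ^ 2 + 3 * a := by
    intro x
    obtain ⟨w, hw⟩ : ∃ w : ℕ → ℝ, w = fun b =>
      ‖Av T k g H0 χ (T ((k : ℤ) * ((b * H0 : ℕ) : ℤ)) x)‖ := ⟨_, rfl⟩
    have hw0 : ∀ b, 0 ≤ w b := fun b => by
      rw [hw]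
      exact norm_nonneg _
    have hw1 : ∀ b, w b ≤ 1 := fun b => by
      rw [hw]
      exact samon_le k hg H0 χ _
    have h1 : ‖Av T k g H χ x‖ ≤ a * (∑ b ∈ Finset.range q, w b) + a := by
      have h2 : ∑ j ∈ Finset.range H, ee (-((j : ℝ) * χ)) * g (T ((k : ℤ) * (j : ℤ)) x) =
          (∑ b ∈ Finset.range q, ∑ j ∈ Finset.range H0, ee (-(((b * H0 + j : ℕ) : ℝ) * χ)) *
            g (T ((k : ℤ) * ((b * H0 + j : ℕ) : ℤ)) x)) +
          ∑ j ∈ Finset.range r, ee (-(((q * H0 + j : ℕ) : ℝ) * χ)) *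
            g (T ((k : ℤ) * ((q * H0 + j : ℕ) : ℤ)) x) := by
        rw [← hdm, Finset.sum_range_add, samon_split
          (fun j => ee (-((j : ℝ) * χ)) * g (T ((k : ℤ) * (j : ℤ)) x))]
      have h3 : ‖∑ j ∈ Finset.range r, ee (-(((q * H0 + j : ℕ) : ℝ) * χ)) *
          g (T ((k : ℤ) * ((q * H0 + j : ℕ) : ℤ)) x)‖ ≤ H0 := by
        refine (norm_sum_le _ _).trans ?_
        refine (Finset.sum_le_sum fun j _ => ?_ : _ ≤ ∑ _j ∈ Finset.range r, (1 : ℝ)).trans ?_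
        · rw [norm_mul, norm_ee, one_mul]
          exact hg.le _
        · simp only [Finset.sum_const, Finset.card_range, nsmul_eq_mul, mul_one]
          exact_mod_cast hr0
      have h4 : ‖∑ b ∈ Finset.range q, ∑ j ∈ Finset.range H0,
          ee (-(((b * H0 + j : ℕ) : ℝ) * χ)) *
            g (T ((k : ℤ) * ((b * H0 + j : ℕ) : ℤ)) x)‖ ≤ ∑ b ∈ Finset.range q, H0 * w b := by
        refine (norm_sum_le _ _).trans (Finset.sum_le_sum fun b _ => ?_)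
        rw [samon_block hT k g h0 χ b x, hw]
      unfold Av
      rw [norm_mul, norm_inv, Complex.norm_natCast, inv_mul_le_iff₀ hHp, h2]
      refine (norm_add_le _ _).trans ((add_le_add h4 h3).trans ?_)
      rw [← Finset.mul_sum, ha]
      have h5 : (H : ℝ) * (H0 / H * (∑ b ∈ Finset.range q, w b) + H0 / H) =
          H0 * (∑ b ∈ Finset.range q, w b) + H0 := by
        field_simp
      rw [h5]
    have hs0 : 0 ≤ ∑ b ∈ Finset.range q, w b := Finset.sum_nonneg fun b _ => hw0 b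
    have hs1 : ∑ b ∈ Finset.range q, w b ≤ q := by
      refine (Finset.sum_le_sum fun b _ => hw1 b).trans ?_
      simp
    have hcs : (∑ b ∈ Finset.range q, w b) ^ 2 ≤ q * ∑ b ∈ Finset.range q, w b ^ 2 := by
      have := sq_sum_le_card_mul_sum_sq (s := Finset.range q) (f := w)
      rwa [Finset.card_range] at this
    have h6 : ‖Av T k g H χ x‖ ^ 2 ≤ (a * (∑ b ∈ Finset.range q, w b) + a) ^ 2 :=
      pow_le_pow_left₀ (norm_nonneg _) h1 2
    have h7 : a * (∑ b ∈ Finset.range q, w b) ≤ 1 :=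
      (mul_le_mul_of_nonneg_left hs1 ha0).trans haq
    have h8 : a ^ 2 * (∑ b ∈ Finset.range q, w b) ^ 2 ≤
        a ^ 2 * (q * ∑ b ∈ Finset.range q, w b ^ 2) :=
      mul_le_mul_of_nonneg_left hcs (sq_nonneg a)
    have h9 : ∑ b ∈ Finset.range q, ‖Av T k g H0 χ (T ((k : ℤ) * ((b * H0 : ℕ) : ℤ)) x)‖ ^ 2 =
        ∑ b ∈ Finset.range q, w b ^ 2 := by rw [hw]
    rw [h9]
    have h10 : a * (a * (∑ b ∈ Finset.range q, w b)) ≤ a * 1 := mul_le_mul_of_nonneg_left h7 ha0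
    have h11 : a * a ≤ a * 1 := mul_le_mul_of_nonneg_left ha1 ha0
    nlinarith
  -- integrate
  have hint : ∀ b : ℕ, Integrable
      (fun x => ‖Av T k g H0 χ (T ((k : ℤ) * ((b * H0 : ℕ) : ℤ)) x)‖ ^ 2) mu := by
    intro b
    exact (hT.mp _).integrable_comp_of_integrable (samon_int hT k hg H0 χ)
  have hval : ∀ b : ℕ, ∫ x, ‖Av T k g H0 χ (T ((k : ℤ) * ((b * H0 : ℕ) : ℤ)) x)‖ ^ 2 ∂mu =
      Qv mu T k g H0 χ := by
    intro b
    have hmp := hT.mp ((k : ℤ) * ((b * H0 : ℕ) : ℤ))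
    have h1 := integral_map (μ := mu) (f := fun x => ‖Av T k g H0 χ x‖ ^ 2)
      hmp.measurable.aemeasurable
      ((samon_meas hT k hg H0 χ).norm.pow_const 2).aestronglyMeasurable
    rw [hmp.map_eq] at h1
    exact h1.symm
  have hQ0 : 0 ≤ Qv mu T k g H0 χ := integral_nonneg fun x => sq_nonneg _
  calc Qv mu T k g H χ ≤ ∫ x, (a ^ 2 * q * ∑ b ∈ Finset.range q,
        ‖Av T k g H0 χ (T ((k : ℤ) * ((b * H0 : ℕ) : ℤ)) x)‖ ^ 2 + 3 * a) ∂mu := by
        refine integral_mono (samon_int hT k hg H χ) ?_ hpt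
        exact ((integrable_finsetSum _ fun b _ => hint b).const_mul _).add (integrable_const _)
    _ = a ^ 2 * q * (q * Qv mu T k g H0 χ) + 3 * a := by
        rw [integral_add ((integrable_finsetSum _ fun b _ => hint b).const_mul _)
          (integrable_const _), integral_const_mul, integral_finsetSum _ fun b _ => hint b,
          Finset.sum_congr rfl fun b _ => hval b]
        simp
    _ ≤ Qv mu T k g H0 χ + 3 * a := by
        have h1 : (a * q) ^ 2 ≤ 1 := pow_le_one₀ (by positivity) haq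
        have h2 : (a * q) ^ 2 * Qv mu T k g H0 χ ≤ 1 * Qv mu T k g H0 χ :=
          mul_le_mul_of_nonneg_right h1 hQ0
        nlinarith
    _ = Qv mu T k g H0 χ + 3 * (H0 / H : ℝ) := by rw [ha]

end Pool.Agent.MRS
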