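import Pool.Agent.MRS.SaFej
import Pool.Agent.MRS.SaExp
import Pool.Agent.MRS.SaMon
import Pool.Agent.MRS.SaErg

/-!
# MRS / SaThm: the spectral half of Lemma S

`unif`: compactness of the circle.  For every `χ` the mean over `k` of `Qv k` tends to a number `≤ B`
(`erg` and the hypothesis), so there is `H_χ ≥ 1` with mean `< B + ε/2` at `χ`, hence (continuity) on a
neighbourhood of `χ`; finitely many neighbourhoods cover `[0,1]`; `qv_mono` for `H` large compared with the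
finitely many `H_χ`; periodicity.
`spec`: `fej` for the mean of the correlations with the bound `B + ε`.
-/

set_option autoImplicit false

namespace Pool.Agent.MRS

open MeasureTheory Filter Topology
open scoped BigOperators ComplexConjugate

variable {X : Type} [MeasurableSpace X] {mu : Measure X} [IsProbabilityMeasure mu]
  {T : ℤ → X → X}

theorem sa_unif (hT : ZAct mu T) (Ks : Finset ℕ) {g : ℕ → X → ℂ} (hg : ∀ k, B1 (g k)) (B : ℝ)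
    (hB : ∀ (χ : ℝ) (φ : ℕ → X → ℂ), (∀ k, B1 (φ k)) →
      (∀ k ∈ Ks, ∀ᵐ x ∂mu, φ k (T (k : ℤ) x) = ee χ * φ k x) →
      (∀ k ∈ Ks, ((∫ x, ‖φ k x‖ ^ 2 ∂mu : ℝ) : ℂ) = ∫ x, g k x * conj (φ k x) ∂mu) →
      (Ks.card : ℝ)⁻¹ * ∑ k ∈ Ks, ∫ x, ‖φ k x‖ ^ 2 ∂mu ≤ B) {ε : ℝ} (hε : 0 < ε) :
    ∃ H0 : ℕ, ∀ H : ℕ, H0 ≤ H → ∀ χ : ℝ,
      (Ks.card : ℝ)⁻¹ * ∑ k ∈ Ks, Qv mu T k (g k) H χ ≤ B + ε := by
  classical
  -- the mean as a Fejer sum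
  have hFe : ∀ (H : ℕ) (χ : ℝ), (Ks.card : ℝ)⁻¹ * ∑ k ∈ Ks, Qv mu T k (g k) H χ
      = Fe (fun h => (Ks.card : ℂ)⁻¹ * ∑ k ∈ Ks, Co mu T k (g k) h) H χ := by
    intro H χ
    rw [fe_avg]
    congr 1
    exact Finset.sum_congr rfl fun k _ => qv_eq hT k (hg k) H χ
  -- pointwise convergence
  have hpt : ∀ χ : ℝ, ∃ H : ℕ, 0 < H ∧
      (Ks.card : ℝ)⁻¹ * ∑ k ∈ Ks, Qv mu T k (g k) H χ < B + ε / 2 := by
    intro χ
    choose φ hφ1 hφ2 hφ3 hφ4 using fun k : ℕ => erg (mu := mu) hT k (hg k) χ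
    have hle := hB χ φ hφ1 (fun k _ => hφ2 k) (fun k _ => hφ3 k)
    have hlim : Tendsto (fun H : ℕ => (Ks.card : ℝ)⁻¹ * ∑ k ∈ Ks, Qv mu T k (g k) H χ) atTop
        (𝓝 ((Ks.card : ℝ)⁻¹ * ∑ k ∈ Ks, ∫ x, ‖φ k x‖ ^ 2 ∂mu)) :=
      (tendsto_finsetSum _ fun k _ => hφ4 k).const_mul _
    have hlt : (Ks.card : ℝ)⁻¹ * ∑ k ∈ Ks, ∫ x, ‖φ k x‖ ^ 2 ∂mu < B + ε / 2 := by linarith
    have h1 := (tendsto_order.1 hlim).2 _ hlt
    obtain ⟨H, hH1, hH2⟩ := (h1.and (eventually_gt_atTop 0)).exists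
    exact ⟨H, hH2, hH1⟩
  choose Hc hHc0 hHc using hpt
  -- open cover of the unit interval
  let U : ℝ → Set ℝ := fun χ => {ψ | Fe (fun h => (Ks.card : ℂ)⁻¹ * ∑ k ∈ Ks, Co mu T k (g k) h)
    (Hc χ) ψ < B + ε / 2}
  have hUo : ∀ χ, IsOpen (U χ) := fun χ => isOpen_lt (fe_cont _ _) continuous_const
  have hUm : ∀ χ, χ ∈ U χ := by
    intro χ
    show Fe _ _ _ < _
    rw [← hFe]
    exact hHc χ
  obtain ⟨t, ht⟩ := (isCompact_Icc (a := (0 : ℝ)) (b := 1)).elim_finite_subcover U hUo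
    (fun χ _ => Set.mem_iUnion.2 ⟨χ, hUm χ⟩)
  -- a bound for all the lengths
  obtain ⟨C, hC⟩ : ∃ C : ℕ, ∀ χ ∈ t, Hc χ ≤ C := ⟨t.sup Hc, fun χ hχ => Finset.le_sup hχ⟩
  obtain ⟨R, hR⟩ := exists_nat_gt (6 * (C : ℝ) / ε)
  refine ⟨max (max C R) 1, fun H hH χ => ?_⟩
  have hHC : C ≤ H := (le_max_left _ _).trans ((le_max_left _ _).trans hH)
  have hHR : R ≤ H := (le_max_right _ _).trans ((le_max_left _ _).trans hH)
  have hH1 : 1 ≤ H := (le_max_right _ _).trans hH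
  have hHpos : (0 : ℝ) < H := by exact_mod_cast hH1
  -- reduce to the unit interval
  have hper : (Ks.card : ℝ)⁻¹ * ∑ k ∈ Ks, Qv mu T k (g k) H χ
      = (Ks.card : ℝ)⁻¹ * ∑ k ∈ Ks, Qv mu T k (g k) H (Int.fract χ) := by
    rw [hFe, hFe]
    conv_lhs => rw [← Int.fract_add_floor χ]
    exact fe_per _ _ _ _
  rw [hper]
  have hmem : Int.fract χ ∈ Set.Icc (0 : ℝ) 1 := ⟨Int.fract_nonneg _, (Int.fract_lt_one _).le⟩
  obtain ⟨χ0, hχ0⟩ := Set.mem_iUnion.1 (ht hmem)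
  obtain ⟨hχt, hχU⟩ := Set.mem_iUnion.1 hχ0
  have hχU' : Fe (fun h => (Ks.card : ℂ)⁻¹ * ∑ k ∈ Ks, Co mu T k (g k) h)
    (Hc χ0) (Int.fract χ) < B + ε / 2 := hχU
  rw [← hFe] at hχU'
  have hcH : Hc χ0 ≤ H := (hC χ0 hχt).trans hHC
  have hsmall : 3 * (Hc χ0 / H : ℝ) ≤ ε / 2 := by
    have h1 : (Hc χ0 : ℝ) ≤ C := by exact_mod_cast hC χ0 hχt
    have h2 : 6 * (C : ℝ) / ε < H := lt_of_lt_of_le hR (by exact_mod_cast hHR)
    rw [div_lt_iff₀ hε] at h2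
    have h3 : 3 * (Hc χ0 / H : ℝ) = 3 * Hc χ0 / H := by ring
    rw [h3, div_le_iff₀ hHpos]
    nlinarith
  have hstep : (Ks.card : ℝ)⁻¹ * ∑ k ∈ Ks, Qv mu T k (g k) H (Int.fract χ)
      ≤ (Ks.card : ℝ)⁻¹ * ∑ k ∈ Ks, (Qv mu T k (g k) (Hc χ0) (Int.fract χ) + ε / 2) := by
    refine mul_le_mul_of_nonneg_left ?_ (by positivity)
    refine Finset.sum_le_sum fun k _ => ?_
    have := qv_mono hT k (hg k) (hHc0 χ0) hcH (Int.fract χ)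
    linarith
  refine hstep.trans ?_
  rw [Finset.sum_add_distrib, mul_add, Finset.sum_const, nsmul_eq_mul]
  have hcard : (Ks.card : ℝ)⁻¹ * ((Ks.card : ℝ) * (ε / 2)) ≤ ε / 2 := by
    rcases Nat.eq_zero_or_pos Ks.card with h | h
    · rw [h]
      simp
      positivity
    · rw [← mul_assoc, inv_mul_cancel₀ (by positivity), one_mul]
  linarith

/-- **SPEC** (helper93): the spectral half of Lemma S. -/
theorem spec (hT : ZAct mu T) (Ks : Finset ℕ) {g : ℕ → X → ℂ} (hg : ∀ k, B1 (g k)) (B : ℝ)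
    (hB0 : 0 ≤ B)
    (hB : ∀ (χ : ℝ) (φ : ℕ → X → ℂ), (∀ k, B1 (φ k)) →
      (∀ k ∈ Ks, ∀ᵐ x ∂mu, φ k (T (k : ℤ) x) = ee χ * φ k x) →
      (∀ k ∈ Ks, ((∫ x, ‖φ k x‖ ^ 2 ∂mu : ℝ) : ℂ) = ∫ x, g k x * conj (φ k x) ∂mu) →
      (Ks.card : ℝ)⁻¹ * ∑ k ∈ Ks, ∫ x, ‖φ k x‖ ^ 2 ∂mu ≤ B) {ε : ℝ} (hε : 0 < ε) :
    ∃ H0 : ℕ, ∀ H : ℕ, H0 ≤ H →
      ((H : ℝ)⁻¹) ^ 2 * ∑ i ∈ Finset.range H, ∑ j ∈ Finset.range H,
        ‖(Ks.card : ℂ)⁻¹ * ∑ k ∈ Ks,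
          ∫ x, g k x * conj (g k (T ((k : ℤ) * ((i : ℤ) - (j : ℤ))) x)) ∂mu‖ ^ 2 ≤ B + ε := by
  obtain ⟨H0, hH0⟩ := sa_unif hT Ks hg B hB hε
  refine ⟨H0, fun H hH => ?_⟩
  have hPD := posdef_co (mu := mu) hT Ks hg
  have h1 : ∀ χ : ℝ, Fe (fun h => (Ks.card : ℂ)⁻¹ * ∑ k ∈ Ks, Co mu T k (g k) h) H χ ≤ B + ε := by
    intro χ
    rw [fe_avg]
    refine le_trans (le_of_eq ?_) (hH0 H hH χ)
    congr 1
    exact Finset.sum_congr rfl fun k _ => (qv_eq hT k (hg k) H χ).symm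
  have h2 := fej hPD H (B + ε) h1
  have h3 : ((Ks.card : ℂ)⁻¹ * ∑ k ∈ Ks, Co mu T k (g k) 0).re ≤ 1 := by
    have : ((Ks.card : ℂ)⁻¹ * ∑ k ∈ Ks, Co mu T k (g k) 0)
        = (((Ks.card : ℝ)⁻¹ : ℝ) : ℂ) * ∑ k ∈ Ks, Co mu T k (g k) 0 := by
      push_cast
      rfl
    rw [this, Complex.re_ofReal_mul, Complex.re_sum]
    calc (Ks.card : ℝ)⁻¹ * ∑ k ∈ Ks, (Co mu T k (g k) 0).re
        ≤ (Ks.card : ℝ)⁻¹ * ∑ k ∈ Ks, (1 : ℝ) :=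
          mul_le_mul_of_nonneg_left
            (Finset.sum_le_sum fun k _ => co_zero_le hT k (hg k)) (by positivity)
      _ ≤ 1 := by
          rw [Finset.sum_const, nsmul_eq_mul, mul_one]
          exact inv_mul_le_one
  have h4 : (B + ε) * ((Ks.card : ℂ)⁻¹ * ∑ k ∈ Ks, Co mu T k (g k) 0).re ≤ B + ε := by
    have : 0 ≤ B + ε := by linarith
    nlinarith
  refine le_trans (le_of_eq ?_) (h2.trans h4)
  congr 1
  refine Finset.sum_congr rfl fun i _ => Finset.sum_congr rfl fun j _ => ?_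
  have h5 : ∀ k : ℕ, ∫ x, g k x * conj (g k (T ((k : ℤ) * ((i : ℤ) - (j : ℤ))) x)) ∂mu
      = conj (Co mu T k (g k) ((i : ℤ) - (j : ℤ))) := by
    intro k
    rw [Co, ← integral_conj]
    congr 1
    funext x
    rw [map_mul, Complex.conj_conj, mul_comm]
  have h6 : (Ks.card : ℂ)⁻¹ * ∑ k ∈ Ks,
      ∫ x, g k x * conj (g k (T ((k : ℤ) * ((i : ℤ) - (j : ℤ))) x)) ∂mu
      = conj ((Ks.card : ℂ)⁻¹ * ∑ k ∈ Ks, Co mu T k (g k) ((i : ℤ) - (j : ℤ))) := by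
    rw [map_mul, map_sum]
    congr 1
    · rw [map_inv₀, Complex.conj_natCast]
    · exact Finset.sum_congr rfl fun k _ => h5 k
  rw [h6, RCLike.norm_conj]

/-- The interface of helper77. -/
theorem specThm : SpecThm := by
  intro X _ mu _ T hT Ks g hne _ hg B hB0 hB ε hε
  obtain ⟨H0, hH0⟩ := spec (mu := mu) hT Ks hg B hB0 (fun χ φ h1 h2 h3 =>
    hB χ φ ⟨fun k _ => h1 k, h2, fun k hk => (h3 k hk).symm⟩) hε
  refine ⟨H0, fun H hH => le_trans (le_of_eq ?_) (hH0 H hH)⟩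
  have hI : ∀ F : ℤ → ℝ, ∑ i ∈ Finset.Ico (0 : ℤ) H, F i = ∑ i ∈ Finset.range H, F (i : ℤ) := by
    intro F
    have h0 : Finset.Ico (0 : ℤ) H
        = (Finset.range H).map (⟨fun n : ℕ => (n : ℤ), Nat.cast_injective⟩ : ℕ ↪ ℤ) := by
      ext z
      simp only [Finset.mem_Ico, Finset.mem_map, Finset.mem_range, Function.Embedding.coeFn_mk]
      constructor
      · rintro ⟨h0, h1⟩
        exact ⟨z.toNat, by omega, by omega⟩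
      · rintro ⟨n, hn, rfl⟩
        omega
    rw [h0, Finset.sum_map]
    rfl
  rw [hI]
  congr 1
  exact Finset.sum_congr rfl fun i _ => hI _

end Pool.Agent.MRS
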