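import Pool.Agent.MRS.WbLim

/-!
# MRS / WbIt: iterated limits over blocks of variables

PROOFS.  `eb_sum`: the box in `ι₁ ⊕ ι₂ → ℤ` is the product of the boxes
(`Equiv.sumArrowEquivProdArrow`, `Fintype.prod_sum_type`), `Finset.sum_product`.
`bl_left`: let `ε > 0`, `N0` of `BL c L` for `ε / 2`.  For a box `a, N` with sides `≥ N0` choose `M ≥ N0` with
`‖EB 0 M (c (z₁, ·)) - ℓ z₁‖ ≤ ε / 2` for the finitely many `z₁ ∈ bx a N`; then
`EB a N ℓ - L = EB a N (ℓ - EB 0 M c) + (EB (a,0) (N,M) c - L)` (`eb_sum`, `eb_sub`, `eb_norm_le`).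
`bl_right`: the same with the roles of `ι₁`, `ι₂` exchanged (`Finset.sum_comm`).
`bl_reindex`: an equivalence of the index types maps boxes to boxes.
-/

set_option autoImplicit false

namespace Pool.Agent.MRS

variable {ι₁ ι₂ : Type} [Fintype ι₁] [DecidableEq ι₁] [Fintype ι₂] [DecidableEq ι₂]

private theorem bx_sum (a₁ : ι₁ → ℤ) (a₂ : ι₂ → ℤ) (N₁ : ι₁ → ℕ) (N₂ : ι₂ → ℕ)
    (c : (ι₁ ⊕ ι₂ → ℤ) → ℂ) : ∑ z ∈ bx (Sum.elim a₁ a₂) (Sum.elim N₁ N₂), c z =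
      ∑ z₁ ∈ bx a₁ N₁, ∑ z₂ ∈ bx a₂ N₂, c (Sum.elim z₁ z₂) := by
  rw [← Finset.sum_product' (bx a₁ N₁) (bx a₂ N₂) (fun z₁ z₂ => c (Sum.elim z₁ z₂))]
  refine Finset.sum_nbij' (fun z => (fun j => z (Sum.inl j), fun j => z (Sum.inr j)))
    (fun p => Sum.elim p.1 p.2) ?_ ?_ ?_ ?_ ?_
  · intro z hz
    unfold bx at hz
    rw [Fintype.mem_piFinset] at hz
    rw [Finset.mem_product]
    unfold bx
    rw [Fintype.mem_piFinset, Fintype.mem_piFinset]
    exact ⟨fun j => hz (Sum.inl j), fun j => hz (Sum.inr j)⟩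
  · intro p hp
    rw [Finset.mem_product] at hp
    unfold bx at hp
    rw [Fintype.mem_piFinset, Fintype.mem_piFinset] at hp
    unfold bx
    rw [Fintype.mem_piFinset]
    rintro (j | j)
    · exact hp.1 j
    · exact hp.2 j
  · intro z _
    funext j
    rcases j with j | j <;> rfl
  · intro p _
    rfl
  · intro z _
    congr 1
    funext j
    rcases j with j | j <;> rfl

theorem eb_sum (a₁ : ι₁ → ℤ) (a₂ : ι₂ → ℤ) (N₁ : ι₁ → ℕ) (N₂ : ι₂ → ℕ)
    (c : (ι₁ ⊕ ι₂ → ℤ) → ℂ) : EB (Sum.elim a₁ a₂) (Sum.elim N₁ N₂) c =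
      EB a₁ N₁ (fun z₁ => EB a₂ N₂ (fun z₂ => c (Sum.elim z₁ z₂))) := by
  unfold EB
  rw [bx_sum, Fintype.prod_sum_type, ← Finset.mul_sum, ← mul_assoc]
  simp only [Sum.elim_inl, Sum.elim_inr, mul_inv]

theorem eb_sum' (a₁ : ι₁ → ℤ) (a₂ : ι₂ → ℤ) (N₁ : ι₁ → ℕ) (N₂ : ι₂ → ℕ)
    (c : (ι₁ ⊕ ι₂ → ℤ) → ℂ) : EB (Sum.elim a₁ a₂) (Sum.elim N₁ N₂) c =
      EB a₂ N₂ (fun z₂ => EB a₁ N₁ (fun z₁ => c (Sum.elim z₁ z₂))) := by
  unfold EB
  rw [bx_sum, Fintype.prod_sum_type, ← Finset.mul_sum, ← mul_assoc, Finset.sum_comm]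
  simp only [Sum.elim_inl, Sum.elim_inr, mul_inv]
  ring

/-- a common length for finitely many points -/
private theorem bl_common {α ι : Type} [Fintype ι] [DecidableEq ι] (s : Finset α)
    (c : α → (ι → ℤ) → ℂ) (l : α → ℂ) (h : ∀ x ∈ s, BL (c x) (l x)) {ε : ℝ} (hε : 0 < ε) :
    ∃ N0 : ℕ, ∀ x ∈ s, ∀ (a : ι → ℤ) (N : ι → ℕ), (∀ i, N0 ≤ N i) →
      ‖EB a N (c x) - l x‖ ≤ ε := by
  classical
  induction s using Finset.induction_on with
  | empty => exact ⟨0, fun x hx => absurd hx (Finset.notMem_empty x)⟩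
  | insert x s hx ih =>
    obtain ⟨N1, h1⟩ := ih fun y hy => h y (Finset.mem_insert_of_mem hy)
    obtain ⟨N2, h2⟩ := h x (Finset.mem_insert_self x s) ε hε
    refine ⟨max N1 N2, fun y hy a N hN => ?_⟩
    rcases Finset.mem_insert.1 hy with rfl | hy
    · exact h2 a N fun i => (le_max_right N1 N2).trans (hN i)
    · exact h1 y hy a N fun i => (le_max_left N1 N2).trans (hN i)

/-- First the limit over the second block, then over the first block. -/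
theorem bl_left {c : (ι₁ ⊕ ι₂ → ℤ) → ℂ} {L : ℂ} (hc : BL c L) {l : (ι₁ → ℤ) → ℂ}
    (hl : ∀ z₁, BL (fun z₂ => c (Sum.elim z₁ z₂)) (l z₁)) : BL l L := by
  intro ε hε
  obtain ⟨N0, h0⟩ := hc (ε / 2) (half_pos hε)
  refine ⟨N0, fun a N hN => ?_⟩
  obtain ⟨M, hM⟩ := bl_common (bx a N) (fun z₁ z₂ => c (Sum.elim z₁ z₂)) l (fun z₁ _ => hl z₁)
    (half_pos hε)
  have h1 : ‖EB a N l - EB a N (fun z₁ => EB (fun _ => 0) (fun _ : ι₂ => max N0 M)
      (fun z₂ => c (Sum.elim z₁ z₂)))‖ ≤ ε / 2 := by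
    rw [← eb_sub]
    refine eb_norm_le a N (half_pos hε).le fun z₁ hz₁ => ?_
    rw [norm_sub_rev]
    exact hM z₁ hz₁ _ _ fun _ => le_max_right N0 M
  have h2 : ‖EB a N (fun z₁ => EB (fun _ => 0) (fun _ : ι₂ => max N0 M)
      (fun z₂ => c (Sum.elim z₁ z₂))) - L‖ ≤ ε / 2 := by
    rw [← eb_sum]
    refine h0 _ _ ?_
    rintro (i | i)
    · exact hN i
    · exact le_max_left N0 M
  calc ‖EB a N l - L‖ = ‖(EB a N l - EB a N (fun z₁ => EB (fun _ => 0)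
      (fun _ : ι₂ => max N0 M) (fun z₂ => c (Sum.elim z₁ z₂)))) +
      (EB a N (fun z₁ => EB (fun _ => 0) (fun _ : ι₂ => max N0 M)
      (fun z₂ => c (Sum.elim z₁ z₂))) - L)‖ := by rw [sub_add_sub_cancel]
    _ ≤ ε / 2 + ε / 2 := (norm_add_le _ _).trans (add_le_add h1 h2)
    _ = ε := add_halves ε

/-- First the limit over the first block, then over the second block. -/
theorem bl_right {c : (ι₁ ⊕ ι₂ → ℤ) → ℂ} {L : ℂ} (hc : BL c L) {l : (ι₂ → ℤ) → ℂ}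
    (hl : ∀ z₂, BL (fun z₁ => c (Sum.elim z₁ z₂)) (l z₂)) : BL l L := by
  intro ε hε
  obtain ⟨N0, h0⟩ := hc (ε / 2) (half_pos hε)
  refine ⟨N0, fun a N hN => ?_⟩
  obtain ⟨M, hM⟩ := bl_common (bx a N) (fun z₂ z₁ => c (Sum.elim z₁ z₂)) l (fun z₂ _ => hl z₂)
    (half_pos hε)
  have h1 : ‖EB a N l - EB a N (fun z₂ => EB (fun _ => 0) (fun _ : ι₁ => max N0 M)
      (fun z₁ => c (Sum.elim z₁ z₂)))‖ ≤ ε / 2 := by
    rw [← eb_sub]
    refine eb_norm_le a N (half_pos hε).le fun z₂ hz₂ => ?_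
    rw [norm_sub_rev]
    exact hM z₂ hz₂ _ _ fun _ => le_max_right N0 M
  have h2 : ‖EB a N (fun z₂ => EB (fun _ => 0) (fun _ : ι₁ => max N0 M)
      (fun z₁ => c (Sum.elim z₁ z₂))) - L‖ ≤ ε / 2 := by
    rw [← eb_sum']
    refine h0 _ _ ?_
    rintro (i | i)
    · exact le_max_left N0 M
    · exact hN i
  calc ‖EB a N l - L‖ = ‖(EB a N l - EB a N (fun z₂ => EB (fun _ => 0)
      (fun _ : ι₁ => max N0 M) (fun z₁ => c (Sum.elim z₁ z₂)))) +
      (EB a N (fun z₂ => EB (fun _ => 0) (fun _ : ι₁ => max N0 M)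
      (fun z₁ => c (Sum.elim z₁ z₂))) - L)‖ := by rw [sub_add_sub_cancel]
    _ ≤ ε / 2 + ε / 2 := (norm_add_le _ _).trans (add_le_add h1 h2)
    _ = ε := add_halves ε

theorem bl_reindex (e : ι₁ ≃ ι₂) {c : (ι₁ → ℤ) → ℂ} {L : ℂ} (hc : BL c L) :
    BL (fun z : ι₂ → ℤ => c (fun i => z (e i))) L := by
  intro ε hε
  obtain ⟨N0, h0⟩ := hc ε hε
  refine ⟨N0, fun a N hN => ?_⟩
  have h1 : EB a N (fun z : ι₂ → ℤ => c (fun i => z (e i))) =
      EB (fun i => a (e i)) (fun i => N (e i)) c := by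
    unfold EB
    congr 1
    · congr 1
      exact (Equiv.prod_comp e (fun i => (N i : ℂ))).symm
    · refine Finset.sum_nbij' (fun z => fun i => z (e i)) (fun z => fun i => z (e.symm i))
        ?_ ?_ ?_ ?_ ?_
      · intro z hz
        unfold bx at hz ⊢
        rw [Fintype.mem_piFinset] at hz ⊢
        exact fun i => hz (e i)
      · intro z hz
        unfold bx at hz ⊢
        rw [Fintype.mem_piFinset] at hz ⊢
        intro i
        have := hz (e.symm i)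
        simp only [Equiv.apply_symm_apply] at this
        exact this
      · intro z _
        funext i
        simp only [Equiv.apply_symm_apply]
      · intro z _
        funext i
        simp only [Equiv.symm_apply_apply]
      · intro z _
        rfl
  rw [h1]
  exact h0 _ _ fun i => hN (e i)

end Pool.Agent.MRS
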