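import Pool.Agent.MRS.Defs
import Pool.Agent.MRS.WbIt

/-!
# MRS / WbFin: INPUT W in the language of `MRS/Defs`

`walshBox : WalshBox`; the limit function `lim_box_fun` and the limits of the scalar averages
`lim_box_int`, `Lim c L` (= `BL c L`), iterated limits `lim_left`, `lim_right`.
-/

set_option autoImplicit false

namespace Pool.Agent.MRS

open MeasureTheory

theorem bdC_iff {X : Type} [MeasurableSpace X] {f : X → ℂ} : BdC f ↔ B1 f :=
  ⟨fun h => ⟨h.1, h.2⟩, fun h => ⟨h.meas, h.le⟩⟩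

theorem eb_eq {ι : Type} [Fintype ι] [DecidableEq ι] (a : ι → ℤ) (N : ι → ℕ)
    (Φ : (ι → ℤ) → ℂ) : EB a N Φ = bavg a N Φ := rfl

/-- an action of the integers as `Act` -/
def ZAct.act {X : Type} [MeasurableSpace X] {mu : Measure X} {T : ℤ → X → X} (h : ZAct mu T) :
    Act ℤ mu := ⟨T, h.zero, h.add, h.mp⟩

/-- finitely many integer polynomials are polynomial maps of bounded degree -/
theorem isPoly_pd {ι κ : Type} [Fintype ι] [Fintype κ] {p : κ → (ι → ℤ) → ℤ}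
    (hp : ∀ j, IsPoly (p j)) : ∃ D, ∀ j, p j ∈ (Pd D : Set ((ι → ℤ) → ℤ)) := by
  have h : ∀ j, ∃ e, p j ∈ (Pd e : Set ((ι → ℤ) → ℤ)) := by
    intro j
    obtain ⟨P, hP⟩ := hp j
    obtain ⟨e, he⟩ := pd_eval P
    refine ⟨e, ?_⟩
    have h1 : p j = fun n : ι → ℤ => MvPolynomial.eval n P := funext hP
    rw [h1]
    exact he
  choose e he using h
  refine ⟨Finset.univ.sup e, fun j => ?_⟩
  exact pd_mono (Finset.le_sup (Finset.mem_univ j)) (he j)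

/-- INPUT W. -/
theorem walshBox : WalshBox := by
  intro X _ mu _ T hT ι κ _ _ _ p f hp hf ε hε
  obtain ⟨D, hD⟩ := isPoly_pd hp
  obtain ⟨N0, -, h⟩ := walsh_box hT.act hD (fun j => bdC_iff.2 (hf j)) hε
  exact ⟨N0, h⟩

/-- The `L²` limit over boxes. -/
theorem lim_box_fun {X : Type} [MeasurableSpace X] {mu : Measure X} [IsProbabilityMeasure mu]
    {T : ℤ → X → X} (hT : ZAct mu T) {ι κ : Type} [Fintype ι] [DecidableEq ι] [Fintype κ]
    {p : κ → (ι → ℤ) → ℤ} {f : κ → X → ℂ} (hp : ∀ j, IsPoly (p j)) (hf : ∀ j, B1 (f j)) :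
    ∃ F : X → ℂ, B1 F ∧ ∀ ε : ℝ, 0 < ε → ∃ N0 : ℕ, ∀ (a : ι → ℤ) (N : ι → ℕ),
      (∀ i, N0 ≤ N i) →
        ∫ x, ‖bavg a N (fun z => ∏ j, f j (T (p j z) x)) - F x‖ ^ 2 ∂mu ≤ ε := by
  obtain ⟨D, hD⟩ := isPoly_pd hp
  obtain ⟨F, hF, h⟩ := box_lim_fun hT.act hD (fun j => bdC_iff.2 (hf j))
  exact ⟨F, bdC_iff.1 hF, h⟩

/-- The scalar averages have a limit over boxes (`BL c L`: for every `ε > 0` all box averages with
long sides are within `ε` of `L`). -/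
theorem lim_box_int {X : Type} [MeasurableSpace X] {mu : Measure X} [IsProbabilityMeasure mu]
    {T : ℤ → X → X} (hT : ZAct mu T) {ι κ : Type} [Fintype ι] [DecidableEq ι] [Fintype κ]
    {p : κ → (ι → ℤ) → ℤ} {f : κ → X → ℂ} (hp : ∀ j, IsPoly (p j)) (hf : ∀ j, B1 (f j)) :
    ∃ L, BL (fun z => ∫ x, ∏ j, f j (T (p j z) x) ∂mu) L := by
  obtain ⟨D, hD⟩ := isPoly_pd hp
  exact bl_system hT.act hD (fun j => bdC_iff.2 (hf j))

theorem bl_iff {ι : Type} [Fintype ι] [DecidableEq ι] (c : (ι → ℤ) → ℂ) (L : ℂ) :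
    BL c L ↔ ∀ ε : ℝ, 0 < ε → ∃ N0 : ℕ, ∀ (a : ι → ℤ) (N : ι → ℕ), (∀ i, N0 ≤ N i) →
      ‖bavg a N c - L‖ ≤ ε := Iff.rfl

end Pool.Agent.MRS
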