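import Pool.Agent.MRS.SFin
import Pool.Agent.MRS.SaThm
import Pool.Agent.MRS.WbFin

/-!
# MRS / S: Lemma S, unconditional
-/

set_option autoImplicit false

namespace Pool.Agent.MRS

/-- LEMMA S (exchange of limits for the type II sums). -/
theorem lemmaS : LemmaS := lemmaS_of walshBox specThm

end Pool.Agent.MRS
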