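import Pool.Agent.MRS.SBav
import Pool.Agent.MRS.SDel

/-!
# MRS / S: box averages of `Phi` converge uniformly (Walsh on `X × X`), and the square as a box average

PROOF of `walsh_phi`.  On `X × X` with `mu.prod mu` (probability measure) put `T' n (x, y) = (T n x, T n y)`: a `ZAct` (`MeasurePreserving.prod`).  Index set `Finset (Fin s) × Bool`, functions
`f (ω, false) (x, y) = cj ω.card (g x)`, `f (ω, true) (x, y) = conj (cj ω.card (g y))`, exponents
`p (ω, t) z = (κ + W * z (inr t)) * ∑ i ∈ ω, (z (inl (inl i)) - z (inl (inr i)))` (`IsPoly`: `MvPolynomial.X`, `C`, sums and products, `map_sum`).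
Then `∏_{(ω,t)} f (ω,t) (T' (p z) (x, y)) = D_z x * conj (D'_z y)` with `D_z = Del T ((κ + W z(inr false)) h) g`, `D'_z = Del T ((κ + W z(inr true)) h) g`, `h = z(inl(inl .)) - z(inl(inr .))`
(`Fintype.prod_prod_type`, `Fintype.prod_bool`, `Finset.mul_sum`; mind that `Del` has `∑ i ∈ ω, m * h i`), whose integral over `X × X` is `Phi z` (`integral_prod_mul`, `integral_conj`).  So
`bavg a N Phi - bavg a' N' Phi = ∫ (bavg a N F - bavg a' N' F)` (`bavg_integral`; bounded measurable functions are integrable) and `|∫ G|² ≤ ∫ |G|² ≤ ε²` for a probability measure and bounded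
measurable `G` (`WalshBox` with `ε ^ 2`).
PROOF of `lemS_eq`: `bavg_sum_type` twice, `bavg_bool`, and `‖z‖ ^ 2 = z * conj z` with `z = K⁻¹ ∑ k, A_k`, `conj K = K`, `Finset.sum_mul_sum`.
-/

set_option autoImplicit false

namespace Pool.Agent.MRS

open MeasureTheory Filter Topology
open scoped BigOperators ComplexConjugate

/-- the exponents are polynomials -/
private theorem swal_poly {s : ℕ} (W κ : ℤ) (q : Finset (Fin s) × Bool) :
    IsPoly (fun z : (Fin s ⊕ Fin s) ⊕ Bool → ℤ => (κ + W * z (Sum.inr q.2)) *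
      ∑ i ∈ q.1, (z (Sum.inl (Sum.inl i)) - z (Sum.inl (Sum.inr i)))) := by
  refine ⟨(MvPolynomial.C κ + MvPolynomial.C W * MvPolynomial.X (Sum.inr q.2)) *
    ∑ i ∈ q.1, (MvPolynomial.X (Sum.inl (Sum.inl i)) - MvPolynomial.X (Sum.inl (Sum.inr i))),
    fun z => ?_⟩
  simp only [map_mul, map_add, MvPolynomial.eval_C, MvPolynomial.eval_X, map_sum, map_sub]

private theorem swal_act {X : Type} [MeasurableSpace X] {mu : Measure X} [IsProbabilityMeasure mu]
    {T : ℤ → X → X} (hT : ZAct mu T) :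
    ZAct (mu.prod mu) (fun (n : ℤ) (p : X × X) => (T n p.1, T n p.2)) where
  zero := fun p => by rw [hT.zero, hT.zero]
  add := fun a b p => by rw [hT.add, hT.add]
  mp := fun a => (hT.mp a).prod (hT.mp a)

/-- the functions on `X × X` -/
private noncomputable def swf {X : Type} {s : ℕ} (g : X → ℂ) (q : Finset (Fin s) × Bool)
    (p : X × X) : ℂ :=
  if q.2 then conj (cj q.1.card (g p.2)) else cj q.1.card (g p.1)

private theorem swf_b1 {X : Type} [MeasurableSpace X] {s : ℕ} {g : X → ℂ} (hg : B1 g)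
    (q : Finset (Fin s) × Bool) : B1 (swf g q) := by
  unfold swf
  have h1 : B1 (fun p : X × X => g p.1) := ⟨hg.meas.comp measurable_fst, fun p => hg.le _⟩
  have h2 : B1 (fun p : X × X => g p.2) := ⟨hg.meas.comp measurable_snd, fun p => hg.le _⟩
  rcases q with ⟨ω, t⟩
  cases t
  · exact h1.cj _
  · exact (h2.cj _).conj'

private theorem swal_prod {X : Type} (T : ℤ → X → X) {s : ℕ} (g : X → ℂ) (W κ : ℤ)
    (z : (Fin s ⊕ Fin s) ⊕ Bool → ℤ) (p : X × X) :
    ∏ q : Finset (Fin s) × Bool, swf g q ((fun (n : ℤ) (p : X × X) => (T n p.1, T n p.2))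
      ((κ + W * z (Sum.inr q.2)) *
        ∑ i ∈ q.1, (z (Sum.inl (Sum.inl i)) - z (Sum.inl (Sum.inr i)))) p) =
    Del T (fun t => (κ + W * z (Sum.inr false)) *
      (z (Sum.inl (Sum.inl t)) - z (Sum.inl (Sum.inr t)))) g p.1 *
    conj (Del T (fun t => (κ + W * z (Sum.inr true)) *
      (z (Sum.inl (Sum.inl t)) - z (Sum.inl (Sum.inr t)))) g p.2) := by
  rw [Fintype.prod_prod_type]
  unfold Del
  rw [map_prod, ← Finset.prod_mul_distrib]
  refine Finset.prod_congr rfl fun ω _ => ?_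
  rw [Fintype.prod_bool, mul_comm]
  unfold swf
  simp only [Finset.mul_sum, if_true, Bool.false_eq_true, if_false]

private theorem swal_phi {X : Type} [MeasurableSpace X] {mu : Measure X} [IsProbabilityMeasure mu]
    (T : ℤ → X → X) {s : ℕ} (g : X → ℂ) (W κ : ℤ) (z : (Fin s ⊕ Fin s) ⊕ Bool → ℤ) :
    Phi mu T g W κ z = ∫ p, ∏ q : Finset (Fin s) × Bool,
      swf g q ((fun (n : ℤ) (p : X × X) => (T n p.1, T n p.2))
        ((κ + W * z (Sum.inr q.2)) *
          ∑ i ∈ q.1, (z (Sum.inl (Sum.inl i)) - z (Sum.inl (Sum.inr i)))) p) ∂(mu.prod mu) := by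
  simp only [swal_prod T g W κ z]
  rw [integral_prod_mul (fun x => Del T (fun t => (κ + W * z (Sum.inr false)) *
      (z (Sum.inl (Sum.inl t)) - z (Sum.inl (Sum.inr t)))) g x)
    (fun y => conj (Del T (fun t => (κ + W * z (Sum.inr true)) *
      (z (Sum.inl (Sum.inl t)) - z (Sum.inl (Sum.inr t)))) g y)), integral_conj]
  rfl

private theorem swal_small {Y : Type} [MeasurableSpace Y] {nu : Measure Y}
    [IsProbabilityMeasure nu] {G : Y → ℂ} (hG : Measurable G) (hb : ∀ y, ‖G y‖ ≤ 2) {ε : ℝ}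
    (hε : 0 < ε) (h : ∫ y, ‖G y‖ ^ 2 ∂nu ≤ ε ^ 2) : ‖∫ y, G y ∂nu‖ ≤ ε := by
  have hi : Integrable (fun y => ‖G y‖ ^ 2) nu := by
    refine Integrable.of_bound (hG.norm.pow_const 2).aestronglyMeasurable 4
      (Filter.Eventually.of_forall fun y => ?_)
    rw [Real.norm_eq_abs, abs_of_nonneg (sq_nonneg _)]
    have h1 := pow_le_pow_left₀ (norm_nonneg _) (hb y) 2
    linarith
  have hi2 : Integrable (fun y => ‖G y‖) nu := by
    refine Integrable.of_bound hG.norm.aestronglyMeasurable 2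
      (Filter.Eventually.of_forall fun y => ?_)
    rw [norm_norm]
    exact hb y
  refine (norm_integral_le_integral_norm _).trans ?_
  have h1 : ∫ y, ‖G y‖ ∂nu ≤ ∫ y, ((2 * ε)⁻¹ * ‖G y‖ ^ 2 + ε / 2) ∂nu := by
    refine integral_mono hi2 ((hi.const_mul _).add (integrable_const _)) fun y => ?_
    show ‖G y‖ ≤ (2 * ε)⁻¹ * ‖G y‖ ^ 2 + ε / 2
    have h2 : (2 * ε)⁻¹ * ‖G y‖ ^ 2 + ε / 2 - ‖G y‖ = (2 * ε)⁻¹ * (‖G y‖ - ε) ^ 2 := by
      field_simp
      ring
    have h3 : 0 ≤ (2 * ε)⁻¹ * (‖G y‖ - ε) ^ 2 := by positivity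
    linarith
  refine h1.trans ?_
  rw [integral_add (hi.const_mul _) (integrable_const _), integral_const_mul]
  have h4 : (2 * ε)⁻¹ * ∫ y, ‖G y‖ ^ 2 ∂nu ≤ (2 * ε)⁻¹ * ε ^ 2 :=
    mul_le_mul_of_nonneg_left h (by positivity)
  have h5 : (2 * ε)⁻¹ * ε ^ 2 = ε / 2 := by
    field_simp
  simp only [integral_const, probReal_univ, one_smul]
  linarith

theorem walsh_phi (hW : WalshBox) {X : Type} [MeasurableSpace X] (mu : Measure X) [IsProbabilityMeasure mu]
    (T : ℤ → X → X) (hT : ZAct mu T) (s : ℕ) (g : X → ℂ) (hg : B1 g) (W κ : ℤ) {ε : ℝ} (hε : 0 < ε) :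
    ∃ N0 : ℕ, ∀ (a a' : (Fin s ⊕ Fin s) ⊕ Bool → ℤ) (N N' : (Fin s ⊕ Fin s) ⊕ Bool → ℕ),
      (∀ i, N0 ≤ N i) → (∀ i, N0 ≤ N' i) →
      ‖bavg a N (Phi mu T g W κ) - bavg a' N' (Phi mu T g W κ)‖ ≤ ε := by
  obtain ⟨N0, hN0⟩ := hW (X × X) (mu.prod mu)
    (fun (n : ℤ) (p : X × X) => (T n p.1, T n p.2)) (swal_act hT)
    ((Fin s ⊕ Fin s) ⊕ Bool) (Finset (Fin s) × Bool)
    (fun q z => (κ + W * z (Sum.inr q.2)) *
      ∑ i ∈ q.1, (z (Sum.inl (Sum.inl i)) - z (Sum.inl (Sum.inr i)))) (swf g)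
    (fun q => swal_poly W κ q) (fun q => swf_b1 hg q) (ε ^ 2) (by positivity)
  refine ⟨N0, fun a a' N N' hN hN' => ?_⟩
  have h1 := hN0 a a' N N' hN hN'
  obtain ⟨F, hF⟩ : ∃ F : ((Fin s ⊕ Fin s) ⊕ Bool → ℤ) → X × X → ℂ, F = fun z p =>
      ∏ q : Finset (Fin s) × Bool, swf g q ((fun (n : ℤ) (p : X × X) => (T n p.1, T n p.2))
        ((κ + W * z (Sum.inr q.2)) *
          ∑ i ∈ q.1, (z (Sum.inl (Sum.inl i)) - z (Sum.inl (Sum.inr i)))) p) := ⟨_, rfl⟩
  have hFb : ∀ z, B1 (F z) := fun z => by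
    rw [hF]
    exact B1.prodS Finset.univ fun q _ => (swf_b1 hg q).compS (swal_act hT) _
  have hFi : ∀ z, Integrable (F z) (mu.prod mu) := fun z => (hFb z).integrableS
  have hPhi : Phi mu T g W κ = fun z => ∫ p, F z p ∂(mu.prod mu) := by
    funext z
    rw [swal_phi T g W κ z, hF]
  have hm : ∀ (a : (Fin s ⊕ Fin s) ⊕ Bool → ℤ) (N : (Fin s ⊕ Fin s) ⊕ Bool → ℕ),
      Measurable fun p => bavg a N (fun z => F z p) := by
    intro a N
    unfold bavg
    exact (Finset.measurable_fun_sum _ fun z _ => (hFb z).meas).const_mul _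
  have hle : ∀ (a : (Fin s ⊕ Fin s) ⊕ Bool → ℤ) (N : (Fin s ⊕ Fin s) ⊕ Bool → ℕ) p,
      ‖bavg a N (fun z => F z p)‖ ≤ 1 := fun a N p =>
    norm_bavg_leS a N _ zero_le_one fun z _ => (hFb z).le p
  have hi : ∀ (a : (Fin s ⊕ Fin s) ⊕ Bool → ℤ) (N : (Fin s ⊕ Fin s) ⊕ Bool → ℕ),
      Integrable (fun p => bavg a N (fun z => F z p)) (mu.prod mu) := fun a N =>
    Integrable.of_bound (hm a N).aestronglyMeasurable 1 (Filter.Eventually.of_forall (hle a N))
  rw [hPhi, bavg_integral _ _ _ _ hFi, bavg_integral _ _ _ _ hFi,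
    ← integral_sub (hi a N) (hi a' N')]
  refine swal_small ((hm a N).sub (hm a' N')) (fun p => ?_) hε ?_
  · refine (norm_sub_le _ _).trans ?_
    have h2 := hle a N p
    have h3 := hle a' N' p
    linarith
  · rw [hF]
    exact h1

theorem lemS_eq {X : Type} [MeasurableSpace X] (mu : Measure X) (T : ℤ → X → X) {s : ℕ} (g : X → ℂ) (W κ : ℤ)
    (a a' : Fin s → ℤ) (N N' : Fin s → ℕ) (b : ℤ) (K : ℕ) :
    bavg a N (fun i => bavg a' N' (fun j =>
      ((‖(K : ℂ)⁻¹ * ∑ k ∈ Finset.Ico b (b + K),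
        ∫ x, Del T (fun t => (κ + W * k) * (i t - j t)) g x ∂mu‖ ^ 2 : ℝ) : ℂ))) =
    bavg (Sum.elim (Sum.elim a a') (fun _ : Bool => b)) (Sum.elim (Sum.elim N N') (fun _ => K))
      (Phi mu T g W κ) := by
  rw [bavg_sum_type, bavg_sum_type]
  congr 1
  funext i
  congr 1
  funext j
  rw [bavg_bool]
  obtain ⟨A, hA⟩ : ∃ A : ℤ → ℂ, A = fun k =>
    ∫ x, Del T (fun t => (κ + W * k) * (i t - j t)) g x ∂mu := ⟨_, rfl⟩
  have h1 : ∀ k k' : ℤ, Phi mu T g W κ (Sum.elim (Sum.elim i j) fun t => if t then k' else k) =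
      A k * conj (A k') := by
    intro k k'
    rw [hA]
    rfl
  simp only [h1]
  have h2 : ∑ k ∈ Finset.Ico b (b + K), ∫ x, Del T (fun t => (κ + W * k) * (i t - j t)) g x ∂mu =
      ∑ k ∈ Finset.Ico b (b + K), A k := by rw [hA]
  rw [h2, Complex.ofReal_pow, ← Complex.mul_conj', map_mul, map_inv₀, Complex.conj_natCast,
    map_sum, mul_mul_mul_comm, Finset.sum_mul_sum, sq]

end Pool.Agent.MRS
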