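import Pool.Agent.MRS.SaDefs

/-!
# MRS / SaFej: the Fejer argument for positive definite functions

PROOF (`fej`).  If `H = 0` both sides are `0 ≤ B * G 0` (`G 0 ≥ 0` by `nonneg` with `n = 1`, `c = 1`, and
`0 ≤ B` because `Fe G 0 x = 0 ≤ B`).  Let `H ≥ 1`.  For `N ≥ 1` let `M = N + H` and for `r < M`
`a_r = ∑_{i,j<N} e(-(i-j) r/M) G(i-j)`, `b_r = ∑_{i,j<H} e(-(i-j) r/M) G(i-j)`: both are real numbers
(`conj_symm`) and `≥ 0` (`nonneg` with `c i = e(-i r/M)`), `b_r ≤ H² B`.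
Orthogonality: `∑_{r<M} e(-t r/M) = M` if `M ∣ t`, else `0` (geometric sum; or use the integral over
`x ∈ [0,1]` instead of the mean over `r`).
`∑_r a_r = M ∑_{i,j<N, i ≡ j (M)} G(i-j) = M N G(0)`.
`∑_r a_r b_r = M ∑_{i',j'<H} ∑_{i,j<N, i-j+i'-j'=0} G(i-j) G(i'-j')`  (`|i-j+i'-j'| < M`)
`= M ∑_{i',j'<H} |G(i'-j')|² #{(i,j) : i-j = j'-i'}` and the number of these pairs is at least `N - H`.
Hence `(N - H) ∑_{i',j'<H} |G(i'-j')|² ≤ B H² N G(0)` for every `N ≥ 1`; divide by `N`, `N → ∞`.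
-/

set_option autoImplicit false

namespace Pool.Agent.MRS

open scoped BigOperators ComplexConjugate

private noncomputable def Sf (G : ℤ → ℂ) (n : ℕ) (x : ℝ) : ℂ :=
  ∑ i ∈ Finset.range n, ∑ j ∈ Finset.range n,
    ee (-(((i : ℝ) - (j : ℝ)) * x)) * G ((i : ℤ) - (j : ℤ))

private theorem sf_conj {G : ℤ → ℂ} (hG : PosDef G) (n : ℕ) (x : ℝ) :
    conj (Sf G n x) = Sf G n x := by
  unfold Sf
  rw [map_sum, Finset.sum_comm]
  have h1 : ∀ i ∈ Finset.range n, conj (∑ j ∈ Finset.range n,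
      ee (-(((i : ℝ) - (j : ℝ)) * x)) * G ((i : ℤ) - (j : ℤ))) =
        ∑ j ∈ Finset.range n, ee (-(((j : ℝ) - (i : ℝ)) * x)) * G ((j : ℤ) - (i : ℤ)) := by
    intro i _
    rw [map_sum]
    refine Finset.sum_congr rfl fun j _ => ?_
    rw [map_mul, conj_ee, ← hG.conj_symm]
    congr 2
    · ring
    · ring
  exact Finset.sum_congr rfl h1

private theorem sf_real {G : ℤ → ℂ} (hG : PosDef G) (n : ℕ) (x : ℝ) :
    Sf G n x = ((Sf G n x).re : ℂ) := (Complex.conj_eq_iff_re.1 (sf_conj hG n x)).symm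

private theorem sf_nonneg {G : ℤ → ℂ} (hG : PosDef G) (n : ℕ) (x : ℝ) : 0 ≤ (Sf G n x).re := by
  have h := hG.nonneg n (fun i => ee (-((i : ℝ) * x)))
  have e : ∑ i ∈ Finset.range n, ∑ j ∈ Finset.range n, ee (-((i : ℝ) * x)) *
      conj (ee (-((j : ℝ) * x))) * G ((i : ℤ) - (j : ℤ)) = Sf G n x := by
    refine Finset.sum_congr rfl fun i _ => Finset.sum_congr rfl fun j _ => ?_
    rw [conj_ee, ← ee_add]
    congr 2
    ring
  rwa [e] at h

private theorem ee_nat (n : ℕ) (x : ℝ) : ee ((n : ℝ) * x) = ee x ^ n := by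
  induction n with
  | zero => rw [Nat.cast_zero, zero_mul, ee_zero, pow_zero]
  | succ n ih => rw [Nat.cast_succ, add_mul, one_mul, ee_add, ih, pow_succ]

private theorem ee_eq_one {x : ℝ} (h : ee x = 1) : ∃ n : ℤ, x = n := by
  unfold ee at h
  obtain ⟨n, hn⟩ := Complex.exp_eq_one_iff.1 h
  refine ⟨n, ?_⟩
  have h1 : (2 * Real.pi * Complex.I : ℂ) ≠ 0 := Complex.two_pi_I_ne_zero
  have h2 : (2 * Real.pi * Complex.I : ℂ) * (x : ℂ) = (2 * Real.pi * Complex.I : ℂ) * (n : ℂ) := by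
    linear_combination hn
  have h3 := mul_left_cancel₀ h1 h2
  exact_mod_cast h3

private theorem orth {M : ℕ} (hM : 0 < M) (t : ℤ) (ht : |t| < M) :
    ∑ r ∈ Finset.range M, ee (-((t : ℝ) * ((r : ℝ) / (M : ℝ)))) = if t = 0 then (M : ℂ) else 0 := by
  have hM' : (M : ℝ) ≠ 0 := Nat.cast_ne_zero.2 hM.ne'
  by_cases h0 : t = 0
  · subst h0
    rw [if_pos rfl]
    have h1 : ∀ r ∈ Finset.range M, ee (-(((0 : ℤ) : ℝ) * ((r : ℝ) / (M : ℝ)))) = 1 := by
      intro r _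
      rw [Int.cast_zero, zero_mul, neg_zero, ee_zero]
    rw [Finset.sum_congr rfl h1, Finset.sum_const, Finset.card_range, nsmul_eq_mul, mul_one]
  · rw [if_neg h0]
    have h1 : ∀ r ∈ Finset.range M, ee (-((t : ℝ) * ((r : ℝ) / (M : ℝ)))) =
        ee (-((t : ℝ) / (M : ℝ))) ^ r := by
      intro r _
      rw [← ee_nat]
      congr 1
      ring
    have hz : ee (-((t : ℝ) / (M : ℝ))) ≠ 1 := by
      intro h
      obtain ⟨n, hn⟩ := ee_eq_one h
      have h2 : (t : ℝ) = -(n : ℝ) * (M : ℝ) := by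
        rw [← hn]
        field_simp
      have h3 : t = -n * (M : ℤ) := by exact_mod_cast h2
      have h4 : (M : ℤ) ∣ t := ⟨-n, by rw [h3, mul_comm]⟩
      have h5 := Int.le_of_dvd (abs_pos.2 h0) ((dvd_abs _ _).2 h4)
      omega
    have hzM : ee (-((t : ℝ) / (M : ℝ))) ^ M = 1 := by
      rw [← ee_nat]
      have h2 : (M : ℝ) * -((t : ℝ) / (M : ℝ)) = ((-t : ℤ) : ℝ) := by
        push_cast
        field_simp
      rw [h2]
      exact ee_int (-t)
    rw [Finset.sum_congr rfl h1, geom_sum_eq hz, hzM, sub_self, zero_div]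

private theorem cnt (N H : ℕ) (d : ℤ) (hd : |d| ≤ H) : (N : ℝ) - H ≤
    ∑ i ∈ Finset.range N, ∑ j ∈ Finset.range N, (if (i : ℤ) - (j : ℤ) + d = 0 then (1 : ℝ) else 0) := by
  rw [← Finset.sum_product', Finset.sum_boole]
  obtain ⟨k, hk⟩ := Int.eq_nat_or_neg d
  have hkH : k ≤ H := by
    rcases hk with h | h
    · rw [h, Nat.abs_cast] at hd
      omega
    · rw [h, abs_neg, Nat.abs_cast] at hd
      omega
  have h1 : N - k ≤ ((Finset.range N ×ˢ Finset.range N).filter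
      fun x : ℕ × ℕ => (x.1 : ℤ) - (x.2 : ℤ) + d = 0).card := by
    rw [← Finset.card_range (N - k)]
    rcases hk with h | h
    · refine Finset.card_le_card_of_injOn (fun i => (i, i + k)) ?_ ?_
      · intro i hi
        have hi : i < N - k := by simpa using hi
        rw [Finset.coe_filter]
        have a1 : i < N := by omega
        have a2 : i + k < N := by omega
        refine ⟨Finset.mem_product.2 ⟨Finset.mem_range.2 a1, Finset.mem_range.2 a2⟩, ?_⟩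
        show (i : ℤ) - ((i + k : ℕ) : ℤ) + d = 0
        push_cast
        omega
      · intro i _ j _ hij
        exact congrArg Prod.fst hij
    · refine Finset.card_le_card_of_injOn (fun i => (i + k, i)) ?_ ?_
      · intro i hi
        have hi : i < N - k := by simpa using hi
        rw [Finset.coe_filter]
        have a1 : i < N := by omega
        have a2 : i + k < N := by omega
        refine ⟨Finset.mem_product.2 ⟨Finset.mem_range.2 a2, Finset.mem_range.2 a1⟩, ?_⟩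
        show ((i + k : ℕ) : ℤ) - (i : ℤ) + d = 0
        push_cast
        omega
      · intro i _ j _ hij
        exact congrArg Prod.snd hij
  have h2 : N ≤ ((Finset.range N ×ˢ Finset.range N).filter
      fun x : ℕ × ℕ => (x.1 : ℤ) - (x.2 : ℤ) + d = 0).card + H := by omega
  have h3 : (N : ℝ) ≤ (((Finset.range N ×ˢ Finset.range N).filter
      fun x : ℕ × ℕ => (x.1 : ℤ) - (x.2 : ℤ) + d = 0).card : ℝ) + (H : ℝ) := by exact_mod_cast h2
  linarith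

private theorem sum1 {G : ℤ → ℂ} {M N : ℕ} (hM : 0 < M) (hN : N ≤ M) :
    ∑ r ∈ Finset.range M, Sf G N ((r : ℝ) / (M : ℝ)) = (M : ℂ) * (N : ℂ) * G 0 := by
  unfold Sf
  rw [Finset.sum_comm]
  have h1 : ∀ i ∈ Finset.range N, ∑ r ∈ Finset.range M, ∑ j ∈ Finset.range N,
      ee (-(((i : ℝ) - (j : ℝ)) * ((r : ℝ) / (M : ℝ)))) * G ((i : ℤ) - (j : ℤ)) =
        (M : ℂ) * G 0 := by
    intro i hi
    rw [Finset.sum_comm, Finset.sum_eq_single i]
    · rw [← Finset.sum_mul]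
      have h2 := orth hM (0 : ℤ) (by simpa using hM)
      rw [if_pos rfl] at h2
      have h3 : ∀ r ∈ Finset.range M, ee (-(((i : ℝ) - (i : ℝ)) * ((r : ℝ) / (M : ℝ)))) =
          ee (-(((0 : ℤ) : ℝ) * ((r : ℝ) / (M : ℝ)))) := by
        intro r _
        rw [sub_self, Int.cast_zero]
      rw [Finset.sum_congr rfl h3, h2, sub_self]
    · intro j hj hij
      rw [← Finset.sum_mul]
      have hi' := Finset.mem_range.1 hi
      have hj' := Finset.mem_range.1 hj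
      have h2 := orth hM ((i : ℤ) - (j : ℤ)) (by rw [abs_lt]; omega)
      rw [if_neg (by omega)] at h2
      have h3 : ∀ r ∈ Finset.range M, ee (-(((i : ℝ) - (j : ℝ)) * ((r : ℝ) / (M : ℝ)))) =
          ee (-((((i : ℤ) - (j : ℤ) : ℤ) : ℝ) * ((r : ℝ) / (M : ℝ)))) := by
        intro r _
        push_cast
        rfl
      rw [Finset.sum_congr rfl h3, h2, zero_mul]
    · intro h
      exact absurd hi h
  rw [Finset.sum_congr rfl h1, Finset.sum_const, Finset.card_range, nsmul_eq_mul]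
  ring

private theorem sum2 {G : ℤ → ℂ} (hG : PosDef G) {M N H : ℕ} (hM : 0 < M) (hN : N + H ≤ M) :
    ∑ r ∈ Finset.range M, Sf G N ((r : ℝ) / (M : ℝ)) * Sf G H ((r : ℝ) / (M : ℝ)) =
      ((∑ i' ∈ Finset.range H, ∑ j' ∈ Finset.range H, (M : ℝ) *
        ‖G ((i' : ℤ) - (j' : ℤ))‖ ^ 2 * ∑ i ∈ Finset.range N, ∑ j ∈ Finset.range N,
          (if (i : ℤ) - (j : ℤ) + ((i' : ℤ) - (j' : ℤ)) = 0 then (1 : ℝ) else 0) : ℝ) : ℂ) := by
  have h1 : ∀ r ∈ Finset.range M, Sf G N ((r : ℝ) / (M : ℝ)) * Sf G H ((r : ℝ) / (M : ℝ)) =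
      ∑ i' ∈ Finset.range H, ∑ j' ∈ Finset.range H, ∑ i ∈ Finset.range N, ∑ j ∈ Finset.range N,
        ee (-(((i : ℝ) - (j : ℝ)) * ((r : ℝ) / (M : ℝ)))) * G ((i : ℤ) - (j : ℤ)) *
          (ee (-(((i' : ℝ) - (j' : ℝ)) * ((r : ℝ) / (M : ℝ)))) * G ((i' : ℤ) - (j' : ℤ))) := by
    intro r _
    unfold Sf
    rw [Finset.mul_sum]
    refine Finset.sum_congr rfl fun i' _ => ?_
    rw [Finset.mul_sum]
    refine Finset.sum_congr rfl fun j' _ => ?_
    rw [Finset.sum_mul]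
    refine Finset.sum_congr rfl fun i _ => ?_
    rw [Finset.sum_mul]
  rw [Finset.sum_congr rfl h1, Finset.sum_comm]
  push_cast
  refine Finset.sum_congr rfl fun i' hi' => ?_
  rw [Finset.sum_comm]
  refine Finset.sum_congr rfl fun j' hj' => ?_
  rw [Finset.sum_comm, Finset.mul_sum]
  refine Finset.sum_congr rfl fun i hi => ?_
  rw [Finset.sum_comm, Finset.mul_sum]
  refine Finset.sum_congr rfl fun j hj => ?_
  have hi1 := Finset.mem_range.1 hi
  have hj1 := Finset.mem_range.1 hj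
  have hi2 := Finset.mem_range.1 hi'
  have hj2 := Finset.mem_range.1 hj'
  have h2 := orth hM ((i : ℤ) - (j : ℤ) + ((i' : ℤ) - (j' : ℤ))) (by rw [abs_lt]; omega)
  have h3 : ∀ r ∈ Finset.range M, ee (-(((i : ℝ) - (j : ℝ)) * ((r : ℝ) / (M : ℝ)))) *
      G ((i : ℤ) - (j : ℤ)) * (ee (-(((i' : ℝ) - (j' : ℝ)) * ((r : ℝ) / (M : ℝ)))) *
        G ((i' : ℤ) - (j' : ℤ))) = G ((i : ℤ) - (j : ℤ)) * G ((i' : ℤ) - (j' : ℤ)) *
      ee (-((((i : ℤ) - (j : ℤ) + ((i' : ℤ) - (j' : ℤ)) : ℤ) : ℝ) * ((r : ℝ) / (M : ℝ)))) := by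
    intro r _
    have h4 : -((((i : ℤ) - (j : ℤ) + ((i' : ℤ) - (j' : ℤ)) : ℤ) : ℝ) * ((r : ℝ) / (M : ℝ))) =
        -(((i : ℝ) - (j : ℝ)) * ((r : ℝ) / (M : ℝ))) +
          -(((i' : ℝ) - (j' : ℝ)) * ((r : ℝ) / (M : ℝ))) := by
      push_cast
      ring
    rw [h4, ee_add]
    ring
  rw [Finset.sum_congr rfl h3, ← Finset.mul_sum, h2]
  by_cases h0 : (i : ℤ) - (j : ℤ) + ((i' : ℤ) - (j' : ℤ)) = 0
  · rw [if_pos h0, if_pos h0]
    have h4 : (i : ℤ) - (j : ℤ) = -((i' : ℤ) - (j' : ℤ)) := by omega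
    rw [h4, hG.conj_symm, mul_comm (conj _), Complex.mul_conj, Complex.normSq_eq_norm_sq]
    push_cast
    ring
  · rw [if_neg h0, if_neg h0]
    push_cast
    ring

private theorem main {G : ℤ → ℂ} (hG : PosDef G) {H : ℕ} {B : ℝ}
    (hB : ∀ χ : ℝ, (Sf G H χ).re ≤ (H : ℝ) ^ 2 * B) (N : ℕ) (hN : 0 < N) :
    ((N : ℝ) - H) * ∑ i ∈ Finset.range H, ∑ j ∈ Finset.range H, ‖G ((i : ℤ) - (j : ℤ))‖ ^ 2 ≤
      (H : ℝ) ^ 2 * B * (N : ℝ) * (G 0).re := by
  have hM : 0 < N + H := by omega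
  have hM' : (0 : ℝ) < ((N + H : ℕ) : ℝ) := Nat.cast_pos.2 hM
  have h1 : ∑ r ∈ Finset.range (N + H), (Sf G N ((r : ℝ) / ((N + H : ℕ) : ℝ))).re *
      (Sf G H ((r : ℝ) / ((N + H : ℕ) : ℝ))).re ≤
        ∑ r ∈ Finset.range (N + H), (Sf G N ((r : ℝ) / ((N + H : ℕ) : ℝ))).re *
          ((H : ℝ) ^ 2 * B) :=
    Finset.sum_le_sum fun r _ => mul_le_mul_of_nonneg_left (hB _) (sf_nonneg hG _ _)
  have h2 : ∑ r ∈ Finset.range (N + H), (Sf G N ((r : ℝ) / ((N + H : ℕ) : ℝ))).re =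
      ((N + H : ℕ) : ℝ) * (N : ℝ) * (G 0).re := by
    have h3 := congrArg Complex.re (sum1 (G := G) hM (Nat.le_add_right N H))
    rw [Complex.re_sum] at h3
    rw [h3]
    simp [Complex.mul_re]
  rw [← Finset.sum_mul, h2] at h1
  have h4 : ∑ r ∈ Finset.range (N + H), (Sf G N ((r : ℝ) / ((N + H : ℕ) : ℝ))).re *
      (Sf G H ((r : ℝ) / ((N + H : ℕ) : ℝ))).re = ∑ i' ∈ Finset.range H, ∑ j' ∈ Finset.range H,
        ((N + H : ℕ) : ℝ) * ‖G ((i' : ℤ) - (j' : ℤ))‖ ^ 2 *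
          ∑ i ∈ Finset.range N, ∑ j ∈ Finset.range N,
            (if (i : ℤ) - (j : ℤ) + ((i' : ℤ) - (j' : ℤ)) = 0 then (1 : ℝ) else 0) := by
    have h5 := sum2 hG hM (le_refl (N + H))
    have h6 : ∀ r ∈ Finset.range (N + H), Sf G N ((r : ℝ) / ((N + H : ℕ) : ℝ)) *
        Sf G H ((r : ℝ) / ((N + H : ℕ) : ℝ)) =
          (((Sf G N ((r : ℝ) / ((N + H : ℕ) : ℝ))).re *
            (Sf G H ((r : ℝ) / ((N + H : ℕ) : ℝ))).re : ℝ) : ℂ) := by
      intro r _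
      rw [Complex.ofReal_mul, ← sf_real hG, ← sf_real hG]
    rw [Finset.sum_congr rfl h6, ← Complex.ofReal_sum] at h5
    exact Complex.ofReal_injective h5
  rw [h4] at h1
  have h7 : ((N + H : ℕ) : ℝ) * (((N : ℝ) - H) * ∑ i ∈ Finset.range H, ∑ j ∈ Finset.range H,
      ‖G ((i : ℤ) - (j : ℤ))‖ ^ 2) ≤ ∑ i' ∈ Finset.range H, ∑ j' ∈ Finset.range H,
        ((N + H : ℕ) : ℝ) * ‖G ((i' : ℤ) - (j' : ℤ))‖ ^ 2 *
          ∑ i ∈ Finset.range N, ∑ j ∈ Finset.range N,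
            (if (i : ℤ) - (j : ℤ) + ((i' : ℤ) - (j' : ℤ)) = 0 then (1 : ℝ) else 0) := by
    rw [← mul_assoc, Finset.mul_sum]
    refine Finset.sum_le_sum fun i' hi' => ?_
    rw [Finset.mul_sum]
    refine Finset.sum_le_sum fun j' hj' => ?_
    have hi2 := Finset.mem_range.1 hi'
    have hj2 := Finset.mem_range.1 hj'
    have h8 := cnt N H ((i' : ℤ) - (j' : ℤ)) (by rw [abs_le]; omega)
    have h9 : 0 ≤ ((N + H : ℕ) : ℝ) * ‖G ((i' : ℤ) - (j' : ℤ))‖ ^ 2 := by positivity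
    have h10 := mul_le_mul_of_nonneg_left h8 h9
    refine le_trans (le_of_eq ?_) h10
    ring
  have h11 : ((N + H : ℕ) : ℝ) * (((N : ℝ) - H) * ∑ i ∈ Finset.range H, ∑ j ∈ Finset.range H,
      ‖G ((i : ℤ) - (j : ℤ))‖ ^ 2) ≤
        ((N + H : ℕ) : ℝ) * ((H : ℝ) ^ 2 * B * (N : ℝ) * (G 0).re) := by
    refine (h7.trans h1).trans (le_of_eq ?_)
    ring
  exact le_of_mul_le_mul_left h11 hM'

theorem fej {G : ℤ → ℂ} (hG : PosDef G) (H : ℕ) (B : ℝ) (hB : ∀ χ : ℝ, Fe G H χ ≤ B) :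
    ((H : ℝ)⁻¹) ^ 2 * ∑ i ∈ Finset.range H, ∑ j ∈ Finset.range H, ‖G ((i : ℤ) - (j : ℤ))‖ ^ 2
      ≤ B * (G 0).re := by
  have hG0 : 0 ≤ (G 0).re := by
    have h := hG.nonneg 1 (fun _ => 1)
    simpa using h
  have hB0 : H = 0 → 0 ≤ B := by
    intro h
    have h1 := hB 0
    unfold Fe at h1
    subst h
    simpa using h1
  rcases Nat.eq_zero_or_pos H with h0 | hH
  · have h1 := mul_nonneg (hB0 h0) hG0
    subst h0
    simpa using h1
  · have hH' : (0 : ℝ) < H := Nat.cast_pos.2 hH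
    have hB' : ∀ χ : ℝ, (Sf G H χ).re ≤ (H : ℝ) ^ 2 * B := by
      intro χ
      have h1 : ((H : ℝ)⁻¹) ^ 2 * (Sf G H χ).re ≤ B := hB χ
      rw [inv_pow, inv_mul_le_iff₀ (by positivity)] at h1
      exact h1
    have key : ∑ i ∈ Finset.range H, ∑ j ∈ Finset.range H, ‖G ((i : ℤ) - (j : ℤ))‖ ^ 2 ≤
        (H : ℝ) ^ 2 * B * (G 0).re := by
      by_contra hcon
      rw [not_le] at hcon
      set A := ∑ i ∈ Finset.range H, ∑ j ∈ Finset.range H, ‖G ((i : ℤ) - (j : ℤ))‖ ^ 2 with hA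
      set K := (H : ℝ) ^ 2 * B * (G 0).re with hK
      obtain ⟨N, hN⟩ := exists_nat_gt (H * A / (A - K))
      have h1 := main hG hB' (N + 1) (Nat.succ_pos N)
      rw [← hA] at h1
      have h2 : (H : ℝ) ^ 2 * B * ((N + 1 : ℕ) : ℝ) * (G 0).re = K * ((N + 1 : ℕ) : ℝ) := by
        rw [hK]
        ring
      rw [h2] at h1
      push_cast at h1
      rw [div_lt_iff₀ (by linarith)] at hN
      nlinarith
    rw [inv_pow, inv_mul_le_iff₀ (by positivity)]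
    linarith

end Pool.Agent.MRS
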