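import Pool.Agent.MRS.Defs

/-!
# MRS / TDefs: interface between section 4 and section 6

`NullInfo` (section 4, from `LemmaS`): everything that `PrimeThm` needs about a null `l`-term sequence.
-/

set_option autoImplicit false

namespace Pool.Agent.MRS

open scoped ComplexConjugate

/-- Section 4: a null `l`-term sequence (`l ≥ 1`), with all its shifts, satisfies the hypotheses
of `PrimeThm` with `r = l`, index set `ℤ`. -/
def NullInfo : Prop :=
  ∀ (l : ℕ) (F : ℤ → ℂ), 1 ≤ l → IsNullTerm l F →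
    (∀ n, ‖F n‖ ≤ 1) ∧
    (∀ x a b : ℤ, Anti l (fun n => F (a * n + b + x))) ∧
    (∀ x a b a' b' : ℤ, Anti l (fun n => F (a * n + b + x) * conj (F (a' * n + b' + x)))) ∧
    H2 (fun x n : ℤ => F (n + x)) ∧ H3 (fun x n : ℤ => F (n + x))

/-- Upper bound for the number of primes in the windows. -/
def WPB : Prop :=
  ∀ L : ℝ, 1 < L → ∃ C : ℝ, 0 < C ∧ ∀ W : ℕ, 0 < W → ∃ N0 : ℕ, ∀ N : ℕ, N0 ≤ N → ∀ b : ℕ,
    b.Coprime W → ((wprimes N L W b).card : ℝ) ≤ C * N / (W.totient * Real.log N)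

end Pool.Agent.MRS
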