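import Pool.Agent.MRS.Defs

/-!
# MRS / Tb: bounded functions, `L²` vectors (part T*)

`vec mu f hf` is the class in `Lp ℂ 2 mu` of a function `f` with `B1 f`.  All statements are routine:
`inner_vec` from `MeasureTheory.L2.inner_def` and `MemLp.coeFn_toLp`; `norm_vec` from `inner_vec` or
`Lp.norm_toLp`, `eLpNorm_le_of_ae_bound`.
`ZAct.integral`: `MeasurePreserving.integral_comp'`-type statement for the invertible map `T n` (`T n` is a measurable
equivalence with inverse `T (-n)`; or use `MeasurePreserving.map_eq` and `integral_map` with the strong measurability of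
the bounded measurable function; the statement is for `B1` functions).
-/

set_option autoImplicit false

namespace Pool.Agent.MRS

open MeasureTheory Finset
open scoped BigOperators ComplexConjugate

variable {X : Type} [MeasurableSpace X] {mu : Measure X} [IsProbabilityMeasure mu] {T : ℤ → X → X}

theorem B1.mul {f g : X → ℂ} (hf : B1 f) (hg : B1 g) : B1 (fun x => f x * g x) := by
  refine ⟨hf.meas.mul hg.meas, fun x => ?_⟩
  rw [norm_mul]
  exact mul_le_one₀ (hf.le x) (norm_nonneg _) (hg.le x)

theorem B1.conj {f : X → ℂ} (hf : B1 f) : B1 (fun x => (starRingEnd ℂ) (f x)) := by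
  refine ⟨Complex.continuous_conj.measurable.comp hf.meas, fun x => ?_⟩
  rw [RCLike.norm_conj]
  exact hf.le x

theorem B1.comp {Y : Type} [MeasurableSpace Y] {f : X → ℂ} (hf : B1 f) {p : Y → X} (hp : Measurable p) :
    B1 (fun y => f (p y)) := by
  exact ⟨hf.meas.comp hp, fun y => hf.le _⟩

theorem B1.prod {ι : Type} {f : ι → X → ℂ} (s : Finset ι) (hf : ∀ i ∈ s, B1 (f i)) :
    B1 (fun x => ∏ i ∈ s, f i x) := by
  refine ⟨Finset.measurable_fun_prod s fun i hi => (hf i hi).meas, fun x => ?_⟩
  rw [norm_prod]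
  exact Finset.prod_le_one (fun i _ => norm_nonneg _) (fun i hi => (hf i hi).le x)

theorem B1.const {c : ℂ} (hc : ‖c‖ ≤ 1) : B1 (fun _ : X => c) := by
  exact ⟨measurable_const, fun _ => hc⟩

theorem B1.integrable {f : X → ℂ} (hf : B1 f) : Integrable f mu := by
  exact Integrable.of_bound hf.meas.aestronglyMeasurable 1 (Filter.Eventually.of_forall hf.le)

theorem B1.norm_integral {f : X → ℂ} (hf : B1 f) : ‖∫ x, f x ∂mu‖ ≤ 1 := by
  have h := norm_integral_le_of_norm_le_const (μ := mu) (C := 1) (Filter.Eventually.of_forall hf.le)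
  simpa using h

theorem ZAct.meas (hT : ZAct mu T) (n : ℤ) : Measurable (T n) := (hT.mp n).measurable

/-- invariance of the integral -/
theorem ZAct.integral (hT : ZAct mu T) (n : ℤ) {f : X → ℂ} (hf : B1 f) :
    ∫ x, f (T n x) ∂mu = ∫ x, f x ∂mu := by
  have h := (hT.mp n).map_eq
  conv_rhs => rw [← h]
  rw [integral_map (hT.meas n).aemeasurable]
  exact hf.meas.aestronglyMeasurable

theorem B1.memLp {f : X → ℂ} (hf : B1 f) : MemLp f 2 mu := by
  exact MemLp.of_bound hf.meas.aestronglyMeasurable 1 (Filter.Eventually.of_forall hf.le)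

/-- the class of `f` in `L²` -/
noncomputable def vec (mu : Measure X) [IsProbabilityMeasure mu] (f : X → ℂ) (hf : B1 f) :
    Lp ℂ 2 mu := (B1.memLp (mu := mu) hf).toLp f

theorem norm_vec {f : X → ℂ} (hf : B1 f) : ‖vec mu f hf‖ ≤ 1 := by
  rw [vec, Lp.norm_toLp]
  have h := eLpNorm_le_of_ae_bound (μ := mu) (p := 2) (C := 1) (Filter.Eventually.of_forall hf.le)
  have h2 : eLpNorm f 2 mu ≤ 1 := by simpa using h
  exact ENNReal.toReal_le_of_le_ofReal zero_le_one (by simpa using h2)

theorem inner_vec {f g : X → ℂ} (hf : B1 f) (hg : B1 g) :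
    inner ℂ (vec mu f hf) (vec mu g hg) = ∫ x, (starRingEnd ℂ) (f x) * g x ∂mu := by
  rw [L2.inner_def]
  refine integral_congr_ae ?_
  filter_upwards [(B1.memLp (mu := mu) hf).coeFn_toLp, (B1.memLp (mu := mu) hg).coeFn_toLp] with x h1 h2
  rw [vec, vec, h1, h2, RCLike.inner_apply, mul_comm]

end Pool.Agent.MRS
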