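import Pool.Agent.MRS.Tb

/-!
# MRS / Tt: term sequences (part T*)

`trm T g l n x = ∏_{j ≤ l} g_j (T^{jn} x)`, `cor mu T g l n` its integral, `up T g l n x = ∏_{1 ≤ j ≤ l + 1} g_j (T^{jn} x)`,
`der T g p q j x = conj (g_{j+1} (T^{(j+1)p} x)) g_{j+1} (T^{(j+1)q} x)`.

* `inner_up`: the integrand of the left side at `x` is the integrand of the right side at `T n x`:
  `T ((j+1) p) (T (j n) (T n x)) = T ((j+1) (n+p)) x`; use `ZAct.integral` with `n` (`map_prod`, `Finset.prod_mul_distrib`).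
* `cor_succ`: `Finset.prod_range_succ'` (the factor `j = 0` is `g 0 (T 0 x) = g 0 x`) and `inner_vec`.
* `IsTerm.affine`: action `n ↦ T (a n)`, functions `g_j ∘ T (j b)`.
* `IsTerm.mul_conj`: `X × X'`, `mu.prod mu'`, action `(T n, T' n)` (`MeasurePreserving.prod`), functions
  `g_j x * conj (g'_j x')`; `integral_prod_mul` (`MeasureTheory.integral_prod_mul`), `integral_conj`, `map_prod`.
* `IsTerm.anti`: induction on `l` for all `g`: `l = 0`: `F n = ∫ g 0`; `l + 1`: `E = Lp ℂ 2 mu`, `u n = vec (up T g l n)`,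
  vector `vec (conj ∘ g 0)`; `⟨u n, u (n + h)⟩ = cor (der T g 0 h) l n` by `inner_vec` and `inner_up` with `p = 0`, `q = h`.
-/

set_option autoImplicit false

namespace Pool.Agent.MRS

open MeasureTheory Finset
open scoped BigOperators ComplexConjugate

variable {X : Type} [MeasurableSpace X] {mu : Measure X} [IsProbabilityMeasure mu] {T : ℤ → X → X}
  {g : ℕ → X → ℂ} {F G : ℤ → ℂ} {l : ℕ}

noncomputable def trm (T : ℤ → X → X) (g : ℕ → X → ℂ) (l : ℕ) (n : ℤ) (x : X) : ℂ :=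
  ∏ j ∈ range (l + 1), g j (T ((j : ℤ) * n) x)

noncomputable def cor (mu : Measure X) (T : ℤ → X → X) (g : ℕ → X → ℂ) (l : ℕ) (n : ℤ) : ℂ :=
  ∫ x, trm T g l n x ∂mu

noncomputable def up (T : ℤ → X → X) (g : ℕ → X → ℂ) (l : ℕ) (n : ℤ) (x : X) : ℂ :=
  ∏ j ∈ range (l + 1), g (j + 1) (T (((j : ℤ) + 1) * n) x)

noncomputable def der (T : ℤ → X → X) (g : ℕ → X → ℂ) (p q : ℤ) (j : ℕ) (x : X) : ℂ :=
  conj (g (j + 1) (T (((j : ℤ) + 1) * p) x)) * g (j + 1) (T (((j : ℤ) + 1) * q) x)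

theorem trm_b1 (hT : ZAct mu T) (hg : ∀ j, B1 (g j)) (n : ℤ) : B1 (trm T g l n) :=
  B1.prod (f := fun j x => g j (T ((j : ℤ) * n) x)) (range (l + 1))
    fun j _ => (hg j).comp (hT.meas _)

theorem up_b1 (hT : ZAct mu T) (hg : ∀ j, B1 (g j)) (n : ℤ) : B1 (up T g l n) :=
  B1.prod (f := fun j x => g (j + 1) (T (((j : ℤ) + 1) * n) x)) (range (l + 1))
    fun j _ => (hg (j + 1)).comp (hT.meas _)

theorem der_b1 (hT : ZAct mu T) (hg : ∀ j, B1 (g j)) (p q : ℤ) (j : ℕ) : B1 (der T g p q j) :=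
  (((hg (j + 1)).comp (hT.meas (((j : ℤ) + 1) * p))).conj).mul
    ((hg (j + 1)).comp (hT.meas (((j : ℤ) + 1) * q)))

theorem inner_up (hT : ZAct mu T) (hg : ∀ j, B1 (g j)) (n p q : ℤ) :
    ∫ x, conj (up T g l (n + p) x) * up T g l (n + q) x ∂mu = cor mu T (der T g p q) l n := by
  have h := ZAct.integral hT n (trm_b1 (l := l) hT (fun j => der_b1 hT hg p q j) n)
  unfold cor
  rw [← h]
  refine integral_congr_ae (Filter.Eventually.of_forall fun x => ?_)
  have hh : ∀ (j : ℕ) (r : ℤ), T (((j : ℤ) + 1) * r) (T ((j : ℤ) * n) (T n x)) =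
      T (((j : ℤ) + 1) * (n + r)) x := by
    intro j r
    rw [← hT.add, ← hT.add]
    congr 1
    ring
  change conj (∏ j ∈ range (l + 1), g (j + 1) (T (((j : ℤ) + 1) * (n + p)) x)) *
      ∏ j ∈ range (l + 1), g (j + 1) (T (((j : ℤ) + 1) * (n + q)) x) =
    ∏ j ∈ range (l + 1), (conj (g (j + 1) (T (((j : ℤ) + 1) * p) (T ((j : ℤ) * n) (T n x)))) *
      g (j + 1) (T (((j : ℤ) + 1) * q) (T ((j : ℤ) * n) (T n x))))
  rw [map_prod, ← Finset.prod_mul_distrib]
  refine Finset.prod_congr rfl fun j _ => ?_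
  rw [hh j p, hh j q]

theorem cor_succ (hT : ZAct mu T) (hg : ∀ j, B1 (g j)) (n : ℤ) :
    cor mu T g (l + 1) n = inner ℂ (vec mu _ (hg 0).conj) (vec mu _ (up_b1 (l := l) hT hg n)) := by
  rw [inner_vec]
  unfold cor
  refine integral_congr_ae (Filter.Eventually.of_forall fun x => ?_)
  change ∏ j ∈ range (l + 1 + 1), g j (T ((j : ℤ) * n) x) =
    conj (conj (g 0 x)) * ∏ j ∈ range (l + 1), g (j + 1) (T (((j : ℤ) + 1) * n) x)
  rw [Finset.prod_range_succ', Complex.conj_conj, mul_comm]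
  congr 1
  rw [Nat.cast_zero, zero_mul, hT.zero]

theorem norm_cor_le (hT : ZAct mu T) (hg : ∀ j, B1 (g j)) (n : ℤ) : ‖cor mu T g l n‖ ≤ 1 :=
  B1.norm_integral (trm_b1 hT hg n)

theorem IsTerm.norm_le (hF : IsTerm l F) (n : ℤ) : ‖F n‖ ≤ 1 := by
  obtain ⟨X, _, mu, _, T, g, hT, hg, hF⟩ := hF
  rw [hF n]
  exact norm_cor_le (l := l) hT hg n

theorem IsTerm.affine (hF : IsTerm l F) (a b : ℤ) : IsTerm l (fun n => F (a * n + b)) := by
  obtain ⟨X, mX, mu, pmu, T, g, hT, hg, hF⟩ := hF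
  refine ⟨X, mX, mu, pmu, fun n => T (a * n), fun j x => g j (T ((j : ℤ) * b) x), ?_, ?_, ?_⟩
  · refine ⟨fun x => ?_, fun m n x => ?_, fun m => hT.mp _⟩
    · simp only [mul_zero]
      exact hT.zero x
    · simp only [mul_add]
      exact hT.add _ _ x
  · exact fun j => (hg j).comp (hT.meas _)
  · intro n
    simp only [hF (a * n + b)]
    refine integral_congr_ae (Filter.Eventually.of_forall fun x => ?_)
    refine Finset.prod_congr rfl fun j _ => ?_
    rw [← hT.add]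
    congr 2
    ring

theorem IsTerm.mul_conj (hF : IsTerm l F) (hG : IsTerm l G) :
    IsTerm l (fun n => F n * conj (G n)) := by
  obtain ⟨X, mX, mu, pmu, T, g, hT, hg, hF⟩ := hF
  obtain ⟨Y, mY, nu, pnu, S, k, hS, hk, hG⟩ := hG
  refine ⟨X × Y, inferInstance, mu.prod nu, inferInstance, fun n z => (T n z.1, S n z.2),
    fun j z => g j z.1 * conj (k j z.2), ?_, ?_, ?_⟩
  · refine ⟨fun z => ?_, fun m n z => ?_, fun m => ?_⟩
    · exact Prod.ext (hT.zero z.1) (hS.zero z.2)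
    · exact Prod.ext (hT.add m n z.1) (hS.add m n z.2)
    · exact (hT.mp m).prod (hS.mp m)
  · exact fun j => ((hg j).comp measurable_fst).mul (((hk j).comp measurable_snd).conj)
  · intro n
    simp only [hF n, hG n]
    rw [← integral_conj, ← integral_prod_mul]
    refine integral_congr_ae (Filter.Eventually.of_forall fun z => ?_)
    simp only
    rw [map_prod, ← Finset.prod_mul_distrib]

theorem cor_anti (hT : ZAct mu T) (hg : ∀ j, B1 (g j)) : Anti l (cor mu T g l) := by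
  induction l generalizing g with
  | zero =>
    refine ⟨cor mu T g 0 0, norm_cor_le hT hg 0, fun n => ?_⟩
    unfold cor trm
    simp
  | succ l ih =>
    refine ⟨Lp ℂ 2 mu, inferInstance, inferInstance, fun n => vec mu _ (up_b1 (l := l) hT hg n),
      vec mu _ (hg 0).conj, fun n => norm_vec _, norm_vec _, fun n => cor_succ hT hg n, fun h => ?_⟩
    have h1 : (fun n : ℤ => inner ℂ (vec mu _ (up_b1 (l := l) hT hg n))
        (vec mu _ (up_b1 (l := l) hT hg (n + h)))) = cor mu T (der T g 0 h) l := by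
      funext n
      rw [inner_vec, ← inner_up hT hg n 0 h, add_zero]
    rw [h1]
    exact ih (fun j => der_b1 hT hg 0 h j)

theorem IsTerm.anti (hF : IsTerm l F) : Anti l F := by
  obtain ⟨X, mX, mu, pmu, T, g, hT, hg, hF⟩ := hF
  have h1 : F = cor mu T g l := by
    funext n
    exact hF n
  rw [h1]
  exact cor_anti hT hg

theorem IsNullTerm.isTerm (hF : IsNullTerm l F) : IsTerm l F := by
  obtain ⟨X, mX, mu, pmu, T, g, hT, hg, -, hF⟩ := hF
  exact ⟨X, mX, mu, pmu, T, g, hT, hg, hF⟩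

end Pool.Agent.MRS
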