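import Pool.Agent.MRS.Tv
import Pool.Agent.MRS.Tt

/-!
# MRS / Tg: the generalized von Neumann inequality with Fejér weights (part T*, section 4)

`Qr mu T c H s g` is the average over `i, j ∈ [0, H)^s` of `∫ Del T (c (i - j)) g`, recursively.

* `qr_comp`: induction on `s`, all `g`; `T (c (i - j)) (T n x) = T n (T (c (i - j)) x)`, `ZAct.integral`.
* `gvn_one` (`l = 1`).  `A = M⁻¹ ∑_t cor g 1 (m + d t)` is the inner product of `vec (conj ∘ g 0)` with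
  `M⁻¹ ∑_t u t`, `u t = vec (up T g 0 (m + d t))` (`cor_succ`), so `|A|² ≤ ‖M⁻¹ ∑ u t‖²`; `vdc` with `a = Λ`;
  `⟨u (t + Λ i), u (t + Λ j)⟩ = ∫ conj (g 1 (T (dΛi) x)) g 1 (T (dΛj) x)` (`inner_up` with `p = dΛi`, `q = dΛj`, `l = 0`)
  `= ∫ g 1 x conj (g 1 (T (dΛ(i - j)) x))` (invariance under `T (dΛj)`).
* `gvn_step` (`l → l + 1`, `l ≥ 1`).  As before with `a = Λ / (l + 1)` (exact division), `A = M⁻¹ ∑_t cor g (l + 1) (m + d t)`:
  `|A|² ≤ (H²)⁻¹ ∑_{i,j} |A_{ij}| + 4 a H / M` where `A_{ij} = M⁻¹ ∑_t cor (der T g (dai) (daj)) l (m + d t)`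
  (`d (t + a i) = d t + d a i`).
  `|A| ≤ 1`, `y := (H²)⁻¹ ∑ |A_ij| ∈ [0, 1]`: `|A|^(2^(l+1)) = (|A|²)^(2^l) ≤ (min 1 (y + e))^(2^l) ≤ y^(2^l) + 2^l e` (`pow_le_add`),
  `y^(2^l) ≤ (H²)⁻¹ ∑ |A_ij|^(2^l)` (Jensen, `inner_le_nnorm_mul_nnorm` / `Real.pow_arith_mean_le_arith_mean_pow` /
  `inner_le_...`; `avg_pow_le`).  Induction hypothesis for `der T g (dai) (daj)`, whose `l`-th function is
  `conj (g_{l+1} (T (c i) x)) g_{l+1} (T (c j) x) = G_{i-j} (T (c j) x)`, `c = Λ d = (l + 1) d a`,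
  `G_h x = g x conj (g (T (c h) x))`, `g = g_{l+1}`; `qr_comp` removes `T (c j)`; so the average over `i, j` of
  `Qr mu T c H l (der ..)` is `Qr mu T c H (l + 1) (g (l + 1))`.  Constants: `4 2^l + 4 2^l = 4 2^(l+1)`.
* `gvn`: `Nat.le_induction` from the two.
-/

set_option autoImplicit false

namespace Pool.Agent.MRS

open MeasureTheory Finset
open scoped BigOperators ComplexConjugate

variable {X : Type} [MeasurableSpace X] {mu : Measure X} [IsProbabilityMeasure mu] {T : ℤ → X → X}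
  {g : ℕ → X → ℂ} {l : ℕ}

/-- average over `i, j ∈ [0, H)^s` of `∫ Del T (c (i - j)) g`, recursive form -/
noncomputable def Qr (mu : Measure X) (T : ℤ → X → X) (c : ℤ) (H : ℕ) : ℕ → (X → ℂ) → ℂ
  | 0, g => ∫ x, g x ∂mu
  | s + 1, g => ((H : ℂ) ^ 2)⁻¹ * ∑ i ∈ range H, ∑ j ∈ range H,
      Qr mu T c H s (fun x => g x * conj (g (T (c * ((i : ℤ) - (j : ℤ))) x)))

private lemma tg_comm (hT : ZAct mu T) (a b : ℤ) (x : X) : T a (T b x) = T b (T a x) := by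
  rw [← hT.add, add_comm, hT.add]

theorem qr_comp (hT : ZAct mu T) (c n : ℤ) (H s : ℕ) {f : X → ℂ} (hf : B1 f) :
    Qr mu T c H s (fun x => f (T n x)) = Qr mu T c H s f := by
  induction s generalizing f with
  | zero => exact hT.integral n hf
  | succ s ih =>
    unfold Qr
    congr 1
    refine Finset.sum_congr rfl fun i _ => Finset.sum_congr rfl fun j _ => ?_
    have hF : B1 (fun x => f x * conj (f (T (c * ((i : ℤ) - (j : ℤ))) x))) :=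
      hf.mul (B1.conj (hf.comp (hT.meas _)))
    rw [← ih hF]
    congr 1
    funext x
    show f (T n x) * conj (f (T n (T (c * ((i : ℤ) - (j : ℤ))) x))) =
      f (T n x) * conj (f (T (c * ((i : ℤ) - (j : ℤ))) (T n x)))
    rw [tg_comm hT n]

theorem pow_le_add {A y e : ℝ} (p : ℕ) (hA0 : 0 ≤ A) (hA1 : A ≤ 1) (hy : 0 ≤ y) (he : 0 ≤ e)
    (h : A ≤ y + e) : A ^ p ≤ y ^ p + p * e := by
  rcases le_or_gt A y with hAy | hAy
  · have := pow_le_pow_left₀ hA0 hAy p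
    have h2 : (0 : ℝ) ≤ p * e := by positivity
    linarith
  · have hy1 : y ≤ 1 := by linarith
    induction p with
    | zero => simp
    | succ p ih =>
      have h1 : A ^ (p + 1) ≤ A * (y ^ p + p * e) := by
        rw [pow_succ']
        exact mul_le_mul_of_nonneg_left ih hA0
      have h2 : A * y ^ p ≤ (y + e) * y ^ p := mul_le_mul_of_nonneg_right h (by positivity)
      have h3 : e * y ^ p ≤ e := mul_le_of_le_one_right he (pow_le_one₀ hy hy1)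
      have h4 : A * (p * e) ≤ p * e := mul_le_of_le_one_left (by positivity) hA1
      rw [pow_succ' y]
      push_cast
      nlinarith

/-- Jensen for the average over a square of side `H` -/
theorem avg_pow_le (p H : ℕ) (hH : 0 < H) (hp : 0 < p) (A : ℕ → ℕ → ℝ) (hA : ∀ i j, 0 ≤ A i j) :
    (((H : ℝ) ^ 2)⁻¹ * ∑ i ∈ range H, ∑ j ∈ range H, A i j) ^ p ≤
      ((H : ℝ) ^ 2)⁻¹ * ∑ i ∈ range H, ∑ j ∈ range H, A i j ^ p := by
  have hH' : (0 : ℝ) < H := by exact_mod_cast hH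
  have h := Real.pow_arith_mean_le_arith_mean_pow (range H ×ˢ range H)
    (fun _ : ℕ × ℕ => ((H : ℝ) ^ 2)⁻¹) (fun q : ℕ × ℕ => A q.1 q.2) (fun _ _ => by positivity)
    (by
      rw [Finset.sum_const, Finset.card_product, Finset.card_range, nsmul_eq_mul]
      push_cast
      field_simp) (fun q _ => hA q.1 q.2) p
  rw [← Finset.mul_sum, ← Finset.mul_sum, Finset.sum_product, Finset.sum_product] at h
  exact h

private lemma tg_vdc (hT : ZAct mu T) (hg : ∀ j, B1 (g j)) (l a : ℕ) (d m t0 : ℤ) (H M : ℕ)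
    (hH : 0 < H) (hM : 0 < M) :
    ‖(M : ℂ)⁻¹ * ∑ t ∈ Ico t0 (t0 + M), cor mu T g (l + 1) (m + d * t)‖ ^ 2 ≤
      (((H : ℂ) ^ 2)⁻¹ * ∑ i ∈ range H, ∑ j ∈ range H,
        ((M : ℂ)⁻¹ * ∑ t ∈ Ico t0 (t0 + M),
          cor mu T (der T g (d * (a * i)) (d * (a * j))) l (m + d * t))).re + 4 * a * H / M := by
  have h := vdc (fun t : ℤ => vec mu _ (up_b1 (l := l) hT hg (m + d * t)))
    (fun t => norm_vec _) a H M hH hM t0
  have e : ∀ t : ℤ, ∀ i j : ℕ, inner ℂ (vec mu _ (up_b1 (l := l) hT hg (m + d * (t + a * i))))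
      (vec mu _ (up_b1 (l := l) hT hg (m + d * (t + a * j)))) =
      cor mu T (der T g (d * (a * i)) (d * (a * j))) l (m + d * t) := by
    intro t i j
    rw [inner_vec, ← inner_up hT hg]
    have e1 : m + d * (t + a * i) = m + d * t + d * (a * i) := by ring
    have e2 : m + d * (t + a * j) = m + d * t + d * (a * j) := by ring
    rw [e1, e2]
  simp only [e] at h
  refine le_trans ?_ h
  have h0 : (M : ℂ)⁻¹ * ∑ t ∈ Ico t0 (t0 + M), cor mu T g (l + 1) (m + d * t) =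
      inner ℂ (vec mu _ (hg 0).conj) ((M : ℂ)⁻¹ • ∑ t ∈ Ico t0 (t0 + M),
        vec mu _ (up_b1 (l := l) hT hg (m + d * t))) := by
    rw [inner_smul_right, inner_sum]
    congr 1
    exact Finset.sum_congr rfl fun t _ => cor_succ hT hg _
  rw [h0]
  have h1 := norm_inner_le_norm (𝕜 := ℂ) (vec mu _ (hg 0).conj)
    ((M : ℂ)⁻¹ • ∑ t ∈ Ico t0 (t0 + M), vec mu _ (up_b1 (l := l) hT hg (m + d * t)))
  have h2 : ‖vec mu _ (hg 0).conj‖ ≤ 1 := norm_vec _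
  refine pow_le_pow_left₀ (norm_nonneg _) (h1.trans ?_) 2
  exact mul_le_of_le_one_left (norm_nonneg _) h2

private lemma tg_qr (hT : ZAct mu T) (hg : ∀ j, B1 (g j)) (l Λ a : ℕ) (hΛ : Λ = (l + 1) * a)
    (d : ℤ) (H s i j : ℕ) :
    Qr mu T (Λ * d) H s (der T g (d * (a * i)) (d * (a * j)) l) =
      Qr mu T (Λ * d) H s
        (fun x => g (l + 1) x * conj (g (l + 1) (T (Λ * d * ((i : ℤ) - (j : ℤ))) x))) := by
  have hF : B1 (fun x => g (l + 1) x * conj (g (l + 1) (T (Λ * d * ((i : ℤ) - (j : ℤ))) x))) :=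
    (hg _).mul (B1.conj ((hg _).comp (hT.meas _)))
  rw [← qr_comp hT _ (Λ * d * j) H s hF]
  congr 1
  funext x
  unfold der
  have e1 : ((l : ℤ) + 1) * (d * (a * i)) = Λ * d * ((i : ℤ) - (j : ℤ)) + Λ * d * j := by
    rw [hΛ]
    push_cast
    ring
  have e2 : ((l : ℤ) + 1) * (d * (a * j)) = Λ * d * j := by
    rw [hΛ]
    push_cast
    ring
  rw [← hT.add, mul_comm, e1, e2]

private lemma tg_cor_zero (hT : ZAct mu T) (g' : ℕ → X → ℂ) (n : ℤ) :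
    cor mu T g' 0 n = ∫ x, g' 0 x ∂mu := by
  unfold cor trm
  simp only [zero_add, Finset.prod_range_one, Nat.cast_zero, zero_mul, hT.zero]

private lemma tg_const (c : ℂ) (M : ℕ) (hM : 0 < M) (t0 : ℤ) :
    (M : ℂ)⁻¹ * ∑ _t ∈ Ico t0 (t0 + M), c = c := by
  have hM' : (M : ℂ) ≠ 0 := by exact_mod_cast hM.ne'
  rw [Finset.sum_const, Int.card_Ico, nsmul_eq_mul]
  have : (t0 + M - t0).toNat = M := by simp
  rw [this, ← mul_assoc, inv_mul_cancel₀ hM', one_mul]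

theorem gvn_one (hT : ZAct mu T) (hg : ∀ j, B1 (g j)) (Λ : ℕ) (d m t0 : ℤ) (H M : ℕ)
    (hH : 0 < H) (hM : 0 < M) :
    ‖(M : ℂ)⁻¹ * ∑ t ∈ Ico t0 (t0 + M), cor mu T g 1 (m + d * t)‖ ^ 2 ≤
      (Qr mu T (Λ * d) H 1 (g 1)).re + 4 * Λ * H / M := by
  have h := tg_vdc hT hg 0 Λ d m t0 H M hH hM
  refine h.trans (le_of_eq ?_)
  congr 2
  show _ = ((H : ℂ) ^ 2)⁻¹ * ∑ i ∈ range H, ∑ j ∈ range H,
      Qr mu T (Λ * d) H 0 (fun x => g 1 x * conj (g 1 (T (Λ * d * ((i : ℤ) - (j : ℤ))) x)))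
  congr 1
  refine Finset.sum_congr rfl fun i _ => Finset.sum_congr rfl fun j _ => ?_
  rw [← tg_qr hT hg 0 Λ Λ (by ring) d H 0 i j]
  simp only [tg_cor_zero hT]
  rw [tg_const _ M hM t0]
  rfl

private lemma tg_norm_le (hT : ZAct mu T) (hg : ∀ j, B1 (g j)) (l : ℕ) (d m t0 : ℤ) (M : ℕ)
    (hM : 0 < M) :
    ‖(M : ℂ)⁻¹ * ∑ t ∈ Ico t0 (t0 + M), cor mu T g l (m + d * t)‖ ≤ 1 := by
  have hM' : (0 : ℝ) < M := by exact_mod_cast hM
  rw [norm_mul, norm_inv, Complex.norm_natCast]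
  have h1 : ‖∑ t ∈ Ico t0 (t0 + M), cor mu T g l (m + d * t)‖ ≤ M := by
    refine (norm_sum_le _ _).trans ?_
    refine (Finset.sum_le_sum fun t _ => norm_cor_le hT hg (l := l) (m + d * t)).trans ?_
    rw [Finset.sum_const, Int.card_Ico, nsmul_eq_mul, mul_one]
    have : (t0 + M - t0).toNat = M := by simp
    rw [this]
  calc (M : ℝ)⁻¹ * ‖∑ t ∈ Ico t0 (t0 + M), cor mu T g l (m + d * t)‖ ≤ (M : ℝ)⁻¹ * M :=
        mul_le_mul_of_nonneg_left h1 (by positivity)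
    _ = 1 := inv_mul_cancel₀ hM'.ne'

private lemma tg_re_le (H : ℕ) (B : ℕ → ℕ → ℂ) :
    (((H : ℂ) ^ 2)⁻¹ * ∑ i ∈ range H, ∑ j ∈ range H, B i j).re ≤
      ((H : ℝ) ^ 2)⁻¹ * ∑ i ∈ range H, ∑ j ∈ range H, ‖B i j‖ := by
  refine (Complex.re_le_norm _).trans ?_
  rw [norm_mul, norm_inv, norm_pow, Complex.norm_natCast]
  refine mul_le_mul_of_nonneg_left ?_ (by positivity)
  exact (norm_sum_le _ _).trans (Finset.sum_le_sum fun i _ => norm_sum_le _ _)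

private lemma tg_re_eq (H : ℕ) (B : ℕ → ℕ → ℂ) :
    (((H : ℂ) ^ 2)⁻¹ * ∑ i ∈ range H, ∑ j ∈ range H, B i j).re =
      ((H : ℝ) ^ 2)⁻¹ * ∑ i ∈ range H, ∑ j ∈ range H, (B i j).re := by
  have e : ((H : ℂ) ^ 2)⁻¹ = ((((H : ℝ) ^ 2)⁻¹ : ℝ) : ℂ) := by push_cast; rfl
  rw [e, Complex.re_ofReal_mul, Complex.re_sum]
  simp only [Complex.re_sum]

theorem gvn_step (hl : 1 ≤ l) (Λ : ℕ) (hΛ : l + 1 ∣ Λ) (H M : ℕ) (hH : 0 < H) (hM : 0 < M)
    (hT : ZAct mu T)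
    (ih : ∀ g : ℕ → X → ℂ, (∀ j, B1 (g j)) → ∀ d m t0 : ℤ,
      ‖(M : ℂ)⁻¹ * ∑ t ∈ Ico t0 (t0 + M), cor mu T g l (m + d * t)‖ ^ 2 ^ l ≤
        (Qr mu T (Λ * d) H l (g l)).re + 4 * 2 ^ l * Λ * H / M)
    (hg : ∀ j, B1 (g j)) (d m t0 : ℤ) :
    ‖(M : ℂ)⁻¹ * ∑ t ∈ Ico t0 (t0 + M), cor mu T g (l + 1) (m + d * t)‖ ^ 2 ^ (l + 1) ≤
      (Qr mu T (Λ * d) H (l + 1) (g (l + 1))).re + 4 * 2 ^ (l + 1) * Λ * H / M := by
  obtain ⟨a, ha⟩ := hΛ
  have hH' : (0 : ℝ) < H := by exact_mod_cast hH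
  have hM' : (0 : ℝ) < M := by exact_mod_cast hM
  set A : ℂ := (M : ℂ)⁻¹ * ∑ t ∈ Ico t0 (t0 + M), cor mu T g (l + 1) (m + d * t) with hA
  set B : ℕ → ℕ → ℂ := fun i j => (M : ℂ)⁻¹ * ∑ t ∈ Ico t0 (t0 + M),
    cor mu T (der T g (d * (a * i)) (d * (a * j))) l (m + d * t) with hB
  have h1 : ‖A‖ ^ 2 ≤ ((H : ℝ) ^ 2)⁻¹ * ∑ i ∈ range H, ∑ j ∈ range H, ‖B i j‖ +
      4 * a * H / M :=
    (tg_vdc hT hg l a d m t0 H M hH hM).trans (add_le_add (tg_re_le H B) le_rfl)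
  have h2 : ‖A‖ ≤ 1 := tg_norm_le hT hg (l + 1) d m t0 M hM
  have h3 : (‖A‖ ^ 2) ^ 2 ^ l ≤
      (((H : ℝ) ^ 2)⁻¹ * ∑ i ∈ range H, ∑ j ∈ range H, ‖B i j‖) ^ 2 ^ l +
        ((2 ^ l : ℕ) : ℝ) * (4 * a * H / M) :=
    pow_le_add (2 ^ l) (by positivity) (pow_le_one₀ (norm_nonneg _) h2) (by positivity)
      (by positivity) h1
  have h4 := avg_pow_le (2 ^ l) H hH (by positivity) (fun i j => ‖B i j‖)
    fun i j => norm_nonneg _
  have h5 : ∀ i j : ℕ, ‖B i j‖ ^ 2 ^ l ≤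
      (Qr mu T (Λ * d) H l (fun x => g (l + 1) x *
        conj (g (l + 1) (T (Λ * d * ((i : ℤ) - (j : ℤ))) x)))).re +
        4 * 2 ^ l * Λ * H / M := by
    intro i j
    have := ih (der T g (d * (a * i)) (d * (a * j))) (fun k => der_b1 hT hg _ _ k) d m t0
    rwa [tg_qr hT hg l Λ a ha d H l i j] at this
  have h6 : ((H : ℝ) ^ 2)⁻¹ * ∑ i ∈ range H, ∑ j ∈ range H, ‖B i j‖ ^ 2 ^ l ≤
      (Qr mu T (Λ * d) H (l + 1) (g (l + 1))).re + 4 * 2 ^ l * Λ * H / M := by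
    have e : (Qr mu T (Λ * d) H (l + 1) (g (l + 1))).re =
        ((H : ℝ) ^ 2)⁻¹ * ∑ i ∈ range H, ∑ j ∈ range H,
          (Qr mu T (Λ * d) H l (fun x => g (l + 1) x *
            conj (g (l + 1) (T (Λ * d * ((i : ℤ) - (j : ℤ))) x)))).re := by
      rw [← tg_re_eq H (fun i j => Qr mu T (Λ * d) H l (fun x => g (l + 1) x *
            conj (g (l + 1) (T (Λ * d * ((i : ℤ) - (j : ℤ))) x))))]
      rfl
    have h7 : ∑ i ∈ range H, ∑ j ∈ range H, ‖B i j‖ ^ 2 ^ l ≤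
        ∑ i ∈ range H, ∑ j ∈ range H, ((Qr mu T (Λ * d) H l (fun x => g (l + 1) x *
            conj (g (l + 1) (T (Λ * d * ((i : ℤ) - (j : ℤ))) x)))).re +
              4 * 2 ^ l * Λ * H / M) :=
      Finset.sum_le_sum fun i _ => Finset.sum_le_sum fun j _ => h5 i j
    refine (mul_le_mul_of_nonneg_left h7 (by positivity)).trans (le_of_eq ?_)
    simp only [Finset.sum_add_distrib, Finset.sum_const, Finset.card_range, nsmul_eq_mul]
    rw [e, mul_add]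
    congr 1
    field_simp
  have h8 : ‖A‖ ^ 2 ^ (l + 1) = (‖A‖ ^ 2) ^ 2 ^ l := by
    rw [← pow_mul, ← pow_succ']
  have ha' : (a : ℝ) ≤ Λ := by
    have : a ≤ Λ := by
      rw [ha]
      exact Nat.le_mul_of_pos_left _ (Nat.succ_pos _)
    exact_mod_cast this
  have h9 : ((2 ^ l : ℕ) : ℝ) * (4 * a * H / M) ≤ 4 * 2 ^ l * Λ * H / M := by
    push_cast
    rw [← mul_div_assoc]
    gcongr ?_ / M
    calc (2 : ℝ) ^ l * (4 * a * H) = 4 * 2 ^ l * a * H := by ring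
      _ ≤ 4 * 2 ^ l * Λ * H := by gcongr
  have h10 : (4 : ℝ) * 2 ^ (l + 1) * Λ * H / M =
      4 * 2 ^ l * Λ * H / M + 4 * 2 ^ l * Λ * H / M := by
    rw [pow_succ]
    ring
  rw [h8, h10]
  linarith

theorem gvn (hT : ZAct mu T) (hl : 1 ≤ l) (Λ : ℕ) (hΛ : ∀ s, 1 ≤ s → s ≤ l → s ∣ Λ) (H M : ℕ)
    (hH : 0 < H) (hM : 0 < M) (hg : ∀ j, B1 (g j)) (d m t0 : ℤ) :
    ‖(M : ℂ)⁻¹ * ∑ t ∈ Ico t0 (t0 + M), cor mu T g l (m + d * t)‖ ^ 2 ^ l ≤
      (Qr mu T (Λ * d) H l (g l)).re + 4 * 2 ^ l * Λ * H / M := by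
  induction l, hl using Nat.le_induction generalizing g d m t0 with
  | base =>
    have h := gvn_one hT hg Λ d m t0 H M hH hM
    rw [pow_one]
    refine h.trans (add_le_add le_rfl ?_)
    have h1 : (4 : ℝ) * Λ * H / M ≤ (4 * 2 ^ 1 * Λ * H) / M := by
      gcongr
      nlinarith
    exact h1
  | succ l hl ih =>
    exact gvn_step hl Λ (hΛ (l + 1) (by omega) le_rfl) H M hH hM hT
      (fun g hg d m t0 => ih (fun s h1 h2 => hΛ s h1 (by omega)) hg d m t0) hg d m t0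

end Pool.Agent.MRS
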