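import Pool.Agent.MRS.Tx

/-!
# MRS / Th: type I estimate for null term sequences (part T*)

`h2_of_null`.  Proof.  Let `F n = cor mu T g l n`, `g_l` null.  Put `Λ = l !`, `δ = ε ^ 2 ^ l / 2`, and let `H ≥ 1` be
at least the number given by `Null` for `c = fun _ => Λ * W` and `δ`.  By `qr_eq`, `bavg_comm`, `bavg_shift`
(`Λ W (i t - j t)` = `Λ W ((i - j) t)`) and `norm_bavg_le` `‖Qr mu T (Λ * W) H l (g l)‖ ≤ δ` (`norm_qr_le`).  `gvn` with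
`d = W`, `m = b + x` gives `‖M⁻¹ ∑_t F (b + x + W t)‖ ^ 2 ^ l ≤ δ + C / M` with `C = 4 2^l Λ H`; for `M ≥ C / δ` this is
`≤ ε ^ 2 ^ l`, so `‖M⁻¹ ∑ ..‖ ≤ ε` (`pow_le_pow_left` contrapositive: `lt_of_pow_lt_pow_left`, `pow_le_pow_iff_left`).
-/

set_option autoImplicit false

namespace Pool.Agent.MRS

open MeasureTheory Finset
open scoped BigOperators ComplexConjugate

variable {X : Type} [MeasurableSpace X] {mu : Measure X} [IsProbabilityMeasure mu] {T : ℤ → X → X}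
  {l : ℕ}

/-- the cube averages of a null function are small for every long side -/
theorem norm_qr_le (hT : ZAct mu T) {g : X → ℂ} (hg : B1 g) (hn : Null mu T l g) (c : ℕ)
    (hc : 0 < c) {δ : ℝ} (hδ : 0 < δ) :
    ∃ H0 : ℕ, ∀ H : ℕ, H0 ≤ H → ‖Qr mu T c H l g‖ ≤ δ := by
  obtain ⟨H0, hH0⟩ := hn (fun _ => c) (fun _ => hc) δ hδ
  refine ⟨H0, fun H hH => ?_⟩
  rw [qr_eq hT, bavg_comm]
  refine norm_bavg_le _ _ _ hδ.le fun j => ?_
  have h1 := bavg_shift (0 : Fin l → ℤ) j (fun _ => H)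
    (fun h : Fin l → ℤ => ∫ x, Del T (fun t => (c : ℤ) * h t) g x ∂mu)
  have h2 := hH0 (0 - j) (fun _ => H) (fun _ => hH)
  rw [← h1] at h2
  exact h2

theorem h2_of_null {F : ℤ → ℂ} (hl : 1 ≤ l) (hF : IsNullTerm l F) :
    H2 (fun (x : ℤ) (n : ℤ) => F (n + x)) := by
  obtain ⟨X, _, mu, _, T, g, hT, hg, hn, hFe⟩ := hF
  intro W hW ε hε
  have hδ : (0 : ℝ) < ε ^ 2 ^ l / 2 := by positivity
  obtain ⟨H0, hH0⟩ := norm_qr_le hT (hg l) hn (l.factorial * W)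
    (Nat.mul_pos (Nat.factorial_pos l) hW) hδ
  obtain ⟨H, hH⟩ : ∃ H, H = max H0 1 := ⟨_, rfl⟩
  have hHp : 0 < H := by
    rw [hH]
    exact lt_of_lt_of_le Nat.one_pos (le_max_right _ _)
  have hHH : H0 ≤ H := by
    rw [hH]
    exact le_max_left _ _
  obtain ⟨C, hC⟩ : ∃ C : ℝ, C = 4 * 2 ^ l * (l.factorial : ℝ) * H := ⟨_, rfl⟩
  obtain ⟨N0, hN0⟩ := exists_nat_ge (C / (ε ^ 2 ^ l / 2))
  refine ⟨max N0 1, fun x b t0 M hM => ?_⟩
  have hMp : 0 < M := lt_of_lt_of_le Nat.one_pos ((le_max_right _ _).trans hM)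
  have hMr : (0 : ℝ) < M := by exact_mod_cast hMp
  have h1 := gvn hT hl l.factorial (fun s h1 h2 => Nat.dvd_factorial h1 h2) H M hHp hMp hg
    (W : ℤ) (b + x) t0
  have h2 := hH0 H hHH
  have h3 : (((l.factorial * W : ℕ) : ℤ)) = (l.factorial : ℤ) * (W : ℤ) := by push_cast; rfl
  rw [h3] at h2
  have h4 : (Qr mu T ((l.factorial : ℤ) * (W : ℤ)) H l (g l)).re ≤ ε ^ 2 ^ l / 2 :=
    (Complex.re_le_norm _).trans h2
  have h5 : 4 * 2 ^ l * (l.factorial : ℝ) * H / M ≤ ε ^ 2 ^ l / 2 := by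
    rw [← hC, div_le_iff₀ hMr]
    have h6 : C / (ε ^ 2 ^ l / 2) ≤ M := by
      refine hN0.trans ?_
      exact_mod_cast (le_max_left _ _).trans hM
    rw [div_le_iff₀ hδ] at h6
    linarith
  have h6 : ‖(M : ℂ)⁻¹ * ∑ t ∈ Ico t0 (t0 + M), cor mu T g l (b + x + W * t)‖ ^ 2 ^ l ≤
      ε ^ 2 ^ l := by
    refine h1.trans ?_
    linarith
  have h7 : ‖(M : ℂ)⁻¹ * ∑ t ∈ Ico t0 (t0 + M), cor mu T g l (b + x + W * t)‖ ≤ ε :=
    (pow_le_pow_iff_left₀ (norm_nonneg _) hε.le (by positivity)).1 h6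
  rw [norm_mul, norm_inv, Complex.norm_natCast, inv_mul_le_iff₀ hMr] at h7
  have h8 : ∑ t ∈ Ico t0 (t0 + M), F (b + W * t + x) =
      ∑ t ∈ Ico t0 (t0 + M), cor mu T g l (b + x + W * t) := by
    refine Finset.sum_congr rfl fun t _ => ?_
    rw [hFe, show b + (W : ℤ) * t + x = b + x + W * t by ring]
    rfl
  show ‖∑ t ∈ Ico t0 (t0 + M), F (b + W * t + x)‖ ≤ ε * M
  rw [h8, mul_comm]
  exact h7

end Pool.Agent.MRS
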