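import Pool.Agent.MRS.Tp

/-!
# MRS / Ti: type II estimate for null term sequences (part T*)

`dl mu T c g q i j = ∫ Del T (q c (i - j)) g`.

* `lem_s_unif`: for every `κ1 ∈ range W` take the number of `LemmaS` for the residue `c κ1` and the modulus `c W`
  (`(κ1 + W k) (c y) = (c κ1 + (c W) k) y`); the maximum of these numbers works: for a general `κ` put `κ1 = κ % W`,
  `κ = κ1 + W (κ / W)`, and reindex the sum over `k` by `k ↦ k + κ / W`.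
* `pair_gvn`: `cor_dil` (twice) and `cor_pact` write the summand as
  `cor (mu.prod mu) (pact (dil T q) (dil T q')) (fun j => pfun (g j ∘ T (j x)) (g j ∘ T (j x))) l (m0 + W t)`; `gvn` with `d = W`;
  `qr_eq`, `integral_del_pact`, `del_dil`, `integral_del_comp` (with `n = l x`).
* `sum_pairs`: linearity of `bavg` (`bavg_sum`) and `‖∑ a_k‖² = ∑ ∑ a_k conj a_k'`; `re z ≤ ‖z‖`.
* `avg_pow_le'`: `Real.pow_arith_mean_le_arith_mean_pow`.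
* `h3_of_null`: `δ = ε ^ 2 ^ l / 2`, `Λ = l !`, `c = Λ W`, `H = max N0' 1`, `C = 4 2^l Λ H`.
-/

set_option autoImplicit false

namespace Pool.Agent.MRS

open MeasureTheory Finset
open scoped BigOperators ComplexConjugate

variable {X : Type} [MeasurableSpace X] {mu : Measure X} [IsProbabilityMeasure mu] {T : ℤ → X → X}
  {l : ℕ}

/-- `∫ Del T (q c (i - j)) g` -/
noncomputable def dl (mu : Measure X) (T : ℤ → X → X) (c : ℤ) (g : X → ℂ) (q : ℤ)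
    (i j : Fin l → ℤ) : ℂ :=
  ∫ x, Del T (fun t => q * (c * (i t - j t))) g x ∂mu

theorem lem_s_unif (hS : LemmaS) (hT : ZAct mu T) (hl : 1 ≤ l) {g : X → ℂ} (hg : B1 g)
    (hn : Null mu T l g) (W c : ℕ) (hW : 0 < W) (hc : 0 < c) {ε : ℝ} (hε : 0 < ε) :
    ∃ N0 : ℕ, ∀ (κ k0 : ℤ) (H K : ℕ), N0 ≤ H → N0 ≤ K →
      ‖bavg 0 (fun _ => H) (fun i : Fin l → ℤ => bavg 0 (fun _ => H) (fun j =>
        ((‖(K : ℂ)⁻¹ * ∑ k ∈ Ico k0 (k0 + K), dl mu T c g (κ + W * k) i j‖ ^ 2 : ℝ) : ℂ)))‖ ≤ ε := by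
  have hcW : 0 < c * W := Nat.mul_pos hc hW
  have h0 : ∀ κ1 : ℕ, ∃ N0 : ℕ, ∀ (a a' : Fin l → ℤ) (N N' : Fin l → ℕ) (b : ℤ) (K : ℕ),
        (∀ i, N0 ≤ N i) → (∀ i, N0 ≤ N' i) → N0 ≤ K →
        ‖bavg a N (fun i => bavg a' N' (fun j =>
          (‖(K : ℂ)⁻¹ * ∑ k ∈ Finset.Ico b (b + K),
            ∫ x, Del T (fun t => (((c : ℤ) * κ1) + ((c * W : ℕ) : ℤ) * k) * (i t - j t)) g x ∂mu‖ ^ 2 : ℝ)))‖ ≤ ε :=
    fun κ1 => hS X mu T hT l g hl hg hn (c * W) ((c : ℤ) * κ1) hcW ε hε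
  choose N hN using h0
  refine ⟨(range W).sup N, fun κ k0 H K hH hK => ?_⟩
  have hW' : (0 : ℤ) < W := by exact_mod_cast hW
  obtain ⟨κ1, hκ1⟩ : ∃ κ1 : ℕ, (κ1 : ℤ) = κ % W :=
    ⟨(κ % W).toNat, Int.toNat_of_nonneg (Int.emod_nonneg _ hW'.ne')⟩
  have hκ2 : κ1 ∈ range W := by
    rw [Finset.mem_range]
    have := Int.emod_lt_of_pos κ hW'
    omega
  have hle : N κ1 ≤ (range W).sup N := Finset.le_sup hκ2
  have h1 := hN κ1 0 0 (fun _ => H) (fun _ => H) (k0 + κ / W) K (fun _ => hle.trans hH)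
    (fun _ => hle.trans hH) (hle.trans hK)
  refine le_of_eq_of_le ?_ h1
  congr 1
  refine congrArg _ (funext fun i => congrArg _ (funext fun j => ?_))
  congr 4
  refine Finset.sum_nbij' (fun k => k + κ / W) (fun k => k - κ / W) ?_ ?_ ?_ ?_ ?_
  · intro k hk
    rw [Finset.mem_Ico] at hk ⊢
    omega
  · intro k hk
    rw [Finset.mem_Ico] at hk ⊢
    omega
  · intro k _
    ring
  · intro k _
    ring
  · intro k _
    unfold dl
    have h2 : ∀ t : Fin l, (κ + W * k) * ((c : ℤ) * (i t - j t)) =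
        (((c : ℤ) * κ1) + ((c * W : ℕ) : ℤ) * (k + κ / W)) * (i t - j t) := by
      intro t
      have h3 : κ = W * (κ / W) + κ1 := by
        rw [hκ1]
        exact (Int.mul_ediv_add_emod κ W).symm
      push_cast
      conv_lhs => rw [h3]
      ring
    simp only [h2]

theorem pair_gvn (hT : ZAct mu T) {g : ℕ → X → ℂ} (hg : ∀ j, B1 (g j)) (hl : 1 ≤ l) (Λ : ℕ)
    (hΛ : ∀ s, 1 ≤ s → s ≤ l → s ∣ Λ) (W H M : ℕ) (hH : 0 < H) (hM : 0 < M) (q q' m0 t0 x : ℤ) :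
    ((M : ℝ)⁻¹ * ‖∑ t ∈ Ico t0 (t0 + M), cor mu T g l (q * (m0 + W * t) + x) *
        conj (cor mu T g l (q' * (m0 + W * t) + x))‖) ^ 2 ^ l ≤
      (bavg 0 (fun _ => H) (fun i : Fin l → ℤ => bavg 0 (fun _ => H) (fun j =>
        dl mu T ((Λ * W : ℕ) : ℤ) (g l) q i j * conj (dl mu T ((Λ * W : ℕ) : ℤ) (g l) q' i j)))).re +
        4 * 2 ^ l * Λ * H / M := by
  have hg1 : ∀ j : ℕ, B1 (fun y => g j (T ((j : ℤ) * x) y)) := fun j => (hg j).comp (hT.meas _)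
  have h1 := gvn (mu := mu.prod mu) (T := pact (dil T q) (dil T q'))
    (g := fun j => pfun (fun y => g j (T ((j : ℤ) * x) y)) (fun y => g j (T ((j : ℤ) * x) y)))
    (pact_zact (dil_zact hT q) (dil_zact hT q')) hl Λ hΛ H M hH hM
    (fun j => pfun_b1 (hg1 j) (hg1 j)) (W : ℤ) m0 t0
  have h2 : ∀ t : ℤ, cor (mu.prod mu) (pact (dil T q) (dil T q'))
      (fun j => pfun (fun y => g j (T ((j : ℤ) * x) y)) (fun y => g j (T ((j : ℤ) * x) y))) l (m0 + W * t) =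
      cor mu T g l (q * (m0 + W * t) + x) * conj (cor mu T g l (q' * (m0 + W * t) + x)) := by
    intro t
    rw [cor_pact, cor_dil hT, cor_dil hT]
  simp only [h2] at h1
  rw [norm_mul, norm_inv, Complex.norm_natCast] at h1
  refine h1.trans (le_of_eq ?_)
  rw [qr_eq (pact_zact (dil_zact hT q) (dil_zact hT q'))]
  congr 2
  refine congrArg _ (funext fun i => congrArg _ (funext fun j => ?_))
  rw [integral_del_pact]
  have h3 : ∀ q0 : ℤ, ∫ y, Del (dil T q0) (fun t => (Λ : ℤ) * W * (i t - j t))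
      (fun y => g l (T ((l : ℤ) * x) y)) y ∂mu = dl mu T ((Λ * W : ℕ) : ℤ) (g l) q0 i j := by
    intro q0
    unfold dl
    simp only [del_dil]
    rw [integral_del_comp hT _ _ (hg l)]
    push_cast
    rfl
  rw [h3, h3]

theorem sum_pairs (K : ℕ) (hK : 0 < K) (k0 : ℤ) (H : ℕ)
    (A : ℤ → (Fin l → ℤ) → (Fin l → ℤ) → ℂ) :
    ((K : ℝ) ^ 2)⁻¹ * ∑ k ∈ Ico k0 (k0 + K), ∑ k' ∈ Ico k0 (k0 + K),
      (bavg 0 (fun _ => H) (fun i => bavg 0 (fun _ => H) (fun j =>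
        A k i j * conj (A k' i j)))).re ≤
      ‖bavg 0 (fun _ => H) (fun i => bavg 0 (fun _ => H) (fun j =>
        ((‖(K : ℂ)⁻¹ * ∑ k ∈ Ico k0 (k0 + K), A k i j‖ ^ 2 : ℝ) : ℂ)))‖ := by
  refine le_trans (le_of_eq ?_) (Complex.re_le_norm _)
  have h1 : ∀ i j : Fin l → ℤ, ((‖(K : ℂ)⁻¹ * ∑ k ∈ Ico k0 (k0 + K), A k i j‖ ^ 2 : ℝ) : ℂ) =
      ((K : ℂ) ^ 2)⁻¹ * ∑ p ∈ Ico k0 (k0 + K) ×ˢ Ico k0 (k0 + K), A p.1 i j * conj (A p.2 i j) := by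
    intro i j
    rw [Complex.ofReal_pow, ← Complex.mul_conj', map_mul, map_sum, map_inv₀, Complex.conj_natCast,
      Finset.sum_product, sq, mul_inv]
    have h2 : ∑ k ∈ Ico k0 (k0 + (K : ℤ)), ∑ k' ∈ Ico k0 (k0 + (K : ℤ)), A k i j * conj (A k' i j) =
        (∑ k ∈ Ico k0 (k0 + (K : ℤ)), A k i j) * ∑ k' ∈ Ico k0 (k0 + (K : ℤ)), conj (A k' i j) := by
      rw [Finset.sum_mul_sum]
    rw [h2]
    ring
  simp only [h1]
  simp only [bavg_sum]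
  have h3 : ((K : ℂ) ^ 2)⁻¹ = ((((K : ℝ) ^ 2)⁻¹ : ℝ) : ℂ) := by
    push_cast
    rfl
  rw [h3, Complex.re_ofReal_mul, Complex.re_sum, Finset.sum_product]

theorem avg_pow_le' (p K : ℕ) (hK : 0 < K) (k0 : ℤ) (A : ℤ → ℤ → ℝ)
    (hA : ∀ i j, 0 ≤ A i j) :
    (((K : ℝ) ^ 2)⁻¹ * ∑ i ∈ Ico k0 (k0 + K), ∑ j ∈ Ico k0 (k0 + K), A i j) ^ p ≤
      ((K : ℝ) ^ 2)⁻¹ * ∑ i ∈ Ico k0 (k0 + K), ∑ j ∈ Ico k0 (k0 + K), A i j ^ p := by
  have hK' : (0 : ℝ) < K := by exact_mod_cast hK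
  have hcard : ((Ico k0 (k0 + (K : ℤ))).card : ℝ) = K := by
    rw [Int.card_Ico]
    congr 1
    omega
  have h := Real.pow_arith_mean_le_arith_mean_pow (Ico k0 (k0 + (K : ℤ)) ×ˢ Ico k0 (k0 + (K : ℤ)))
    (fun _ : ℤ × ℤ => ((K : ℝ) ^ 2)⁻¹) (fun q : ℤ × ℤ => A q.1 q.2) (fun _ _ => by positivity)
    (by
      rw [Finset.sum_const, Finset.card_product, nsmul_eq_mul]
      push_cast
      rw [hcard]
      field_simp) (fun q _ => hA q.1 q.2) p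
  rw [← Finset.mul_sum, ← Finset.mul_sum, Finset.sum_product, Finset.sum_product] at h
  exact h

theorem h3_of_null (hS : LemmaS) {F : ℤ → ℂ} (hl : 1 ≤ l) (hF : IsNullTerm l F) :
    H3 (fun (x : ℤ) (n : ℤ) => F (n + x)) := by
  obtain ⟨X, mX, mu, hmu, T, g, hT, hg, hn, hFn⟩ := hF
  have hFc : ∀ n : ℤ, F n = cor mu T g l n := hFn
  intro W hW ε hε
  have hP : 2 ^ l ≠ 0 := by positivity
  have hΛ0 : 0 < l.factorial := Nat.factorial_pos l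
  have hΛ : ∀ s, 1 ≤ s → s ≤ l → s ∣ l.factorial := fun s h1 h2 => Nat.dvd_factorial h1 h2
  have hδ : 0 < ε ^ 2 ^ l / 2 := by positivity
  obtain ⟨N0, hN0⟩ := lem_s_unif hS hT hl (hg l) hn W (l.factorial * W) hW (Nat.mul_pos hΛ0 hW) hδ
  set H : ℕ := max N0 1 with hH
  have hH0 : 0 < H := lt_of_lt_of_le one_pos (le_max_right _ _)
  set C : ℝ := 4 * 2 ^ l * l.factorial * H with hC
  refine ⟨max (max N0 1) ⌈C / (ε ^ 2 ^ l / 2)⌉₊, fun x κ m0 k0 t0 K M hK hM => ?_⟩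
  have hK1 : N0 ≤ K := (le_max_left _ _).trans ((le_max_left _ _).trans hK)
  have hK0 : 0 < K := lt_of_lt_of_le one_pos ((le_max_right _ _).trans ((le_max_left _ _).trans hK))
  have hM0 : 0 < M := lt_of_lt_of_le one_pos ((le_max_right _ _).trans ((le_max_left _ _).trans hM))
  have hM1 : C / (ε ^ 2 ^ l / 2) ≤ M := (Nat.le_ceil _).trans (by exact_mod_cast (le_max_right _ _).trans hM)
  have hKR : (0 : ℝ) < K := by exact_mod_cast hK0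
  have hMR : (0 : ℝ) < M := by exact_mod_cast hM0
  have hCM : C / M ≤ ε ^ 2 ^ l / 2 := by
    rw [div_le_iff₀ hδ] at hM1
    rw [div_le_iff₀ hMR]
    linarith
  set B : ℤ → ℤ → ℝ := fun k k' => (M : ℝ)⁻¹ * ‖∑ t ∈ Ico t0 (t0 + M),
    cor mu T g l ((κ + W * k) * (m0 + W * t) + x) *
      conj (cor mu T g l ((κ + W * k') * (m0 + W * t) + x))‖ with hB
  have hB0 : ∀ k k', 0 ≤ B k k' := fun k k' => mul_nonneg (by positivity) (norm_nonneg _)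
  set S : ℝ := ((K : ℝ) ^ 2)⁻¹ * ∑ k ∈ Ico k0 (k0 + K), ∑ k' ∈ Ico k0 (k0 + K), B k k' with hS'
  have hS0 : 0 ≤ S := mul_nonneg (by positivity)
    (Finset.sum_nonneg fun k _ => Finset.sum_nonneg fun k' _ => hB0 k k')
  have h1 : S ^ 2 ^ l ≤ ((K : ℝ) ^ 2)⁻¹ * ∑ k ∈ Ico k0 (k0 + K), ∑ k' ∈ Ico k0 (k0 + K), B k k' ^ 2 ^ l :=
    avg_pow_le' _ K hK0 k0 B hB0
  have hcard : ((Ico k0 (k0 + (K : ℤ))).card : ℝ) = K := by
    rw [Int.card_Ico]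
    congr 1
    omega
  set A : ℤ → (Fin l → ℤ) → (Fin l → ℤ) → ℂ := fun k i j =>
    dl mu T ((l.factorial * W : ℕ) : ℤ) (g l) (κ + W * k) i j with hA
  have h2 : ((K : ℝ) ^ 2)⁻¹ * ∑ k ∈ Ico k0 (k0 + K), ∑ k' ∈ Ico k0 (k0 + K), B k k' ^ 2 ^ l ≤
      ((K : ℝ) ^ 2)⁻¹ * (∑ k ∈ Ico k0 (k0 + K), ∑ k' ∈ Ico k0 (k0 + K),
        (bavg 0 (fun _ => H) (fun i => bavg 0 (fun _ => H) (fun j =>
        A k i j * conj (A k' i j)))).re) + C / M := by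
    have h3 : ∑ k ∈ Ico k0 (k0 + K), ∑ k' ∈ Ico k0 (k0 + K), B k k' ^ 2 ^ l ≤
        ∑ k ∈ Ico k0 (k0 + K), ∑ k' ∈ Ico k0 (k0 + K),
        ((bavg 0 (fun _ => H) (fun i => bavg 0 (fun _ => H) (fun j =>
        A k i j * conj (A k' i j)))).re + C / M) :=
      Finset.sum_le_sum fun k _ => Finset.sum_le_sum fun k' _ =>
        pair_gvn hT hg hl l.factorial hΛ W H M hH0 hM0 (κ + W * k) (κ + W * k') m0 t0 x
    have h4 : ∑ k ∈ Ico k0 (k0 + K), ∑ k' ∈ Ico k0 (k0 + K),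
        ((bavg 0 (fun _ => H) (fun i => bavg 0 (fun _ => H) (fun j =>
        A k i j * conj (A k' i j)))).re + C / M) =
        (∑ k ∈ Ico k0 (k0 + K), ∑ k' ∈ Ico k0 (k0 + K),
        (bavg 0 (fun _ => H) (fun i => bavg 0 (fun _ => H) (fun j =>
        A k i j * conj (A k' i j)))).re) + K ^ 2 * (C / M) := by
      simp only [Finset.sum_add_distrib, Finset.sum_const, nsmul_eq_mul, hcard]
      ring
    calc _ ≤ ((K : ℝ) ^ 2)⁻¹ * (∑ k ∈ Ico k0 (k0 + K), ∑ k' ∈ Ico k0 (k0 + K),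
        ((bavg 0 (fun _ => H) (fun i => bavg 0 (fun _ => H) (fun j =>
        A k i j * conj (A k' i j)))).re + C / M)) := mul_le_mul_of_nonneg_left h3 (by positivity)
      _ = _ := by
        rw [h4, mul_add]
        field_simp
  have h5 := sum_pairs K hK0 k0 H A
  have h6 := hN0 κ k0 H K (le_max_left _ _) hK1
  have h7 : S ^ 2 ^ l ≤ ε ^ 2 ^ l := by
    have h8 : ‖bavg 0 (fun _ => H) (fun i : Fin l → ℤ => bavg 0 (fun _ => H) (fun j =>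
        ((‖(K : ℂ)⁻¹ * ∑ k ∈ Ico k0 (k0 + K), A k i j‖ ^ 2 : ℝ) : ℂ)))‖ ≤ ε ^ 2 ^ l / 2 := h6
    linarith
  have h9 : S ≤ ε := (pow_le_pow_iff_left₀ hS0 hε.le hP).1 h7
  have h10 : ∑ k ∈ Ico k0 (k0 + K), ∑ k' ∈ Ico k0 (k0 + K),
      ‖∑ t ∈ Ico t0 (t0 + M), F ((κ + W * k) * (m0 + W * t) + x) *
        conj (F ((κ + W * k') * (m0 + W * t) + x))‖ = K ^ 2 * M * S := by
    simp only [hS', hB, hFc, ← Finset.mul_sum]
    field_simp
  have h11 : (K : ℝ) ^ 2 * M * S ≤ ε * K ^ 2 * M := by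
    have := mul_le_mul_of_nonneg_left h9 (by positivity : (0 : ℝ) ≤ (K : ℝ) ^ 2 * M)
    linarith
  exact h10.le.trans h11

end Pool.Agent.MRS
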