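import Pool.Agent.MRS.Th
import Pool.Agent.MRS.Ti
import Pool.Agent.MRS.TDefs

/-!
# MRS / Tn: `LemmaS → NullInfo` (section 4)
-/

set_option autoImplicit false

namespace Pool.Agent.MRS

open scoped ComplexConjugate

theorem nullInfo (hS : LemmaS) : NullInfo := by
  intro l F hl hF
  have ht : IsTerm l F := hF.isTerm
  have key : ∀ x a b : ℤ, IsTerm l (fun n => F (a * n + b + x)) := by
    intro x a b
    have h := ht.affine a (b + x)
    simpa [add_assoc] using h
  refine ⟨ht.norm_le, fun x a b => (key x a b).anti, ?_, h2_of_null hl hF, h3_of_null hS hl hF⟩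
  intro x a b a' b'
  exact ((key x a b).mul_conj (key x a' b')).anti

end Pool.Agent.MRS
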