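import Pool.Agent.MRS.TDefs
import Pool.Agent.RHN.EWin

/-!
# MRS / Tq: section 6, Theorem T'

* `wpb`: the upper bound for the number of primes in the windows.
* `tprime`: Theorem T' from the decomposition, the information on null sequences and Theorem P.
-/

set_option autoImplicit false

namespace Pool.Agent.MRS

open Filter Topology

open scoped ComplexConjugate

theorem wprimes_eq (N : ℕ) (L : ℝ) (W b : ℕ) :
    wprimes N L W b = Pool.Agent.RHN.WP W b L (N : ℝ) := by
  unfold wprimes Pool.Agent.RHN.WP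
  rw [Nat.floor_natCast]

theorem wpb : WPB := by
  intro L hL
  refine ⟨L, by linarith, ?_⟩
  intro W hW
  have hφ : (0 : ℝ) < (W.totient : ℝ) := Nat.cast_pos.2 (Nat.totient_pos.2 hW)
  have key : ∀ b : ℕ, b.Coprime W → ∃ N0 : ℕ, ∀ N : ℕ, N0 ≤ N →
      ((wprimes N L W b).card : ℝ) ≤ L * N / (W.totient * Real.log N) := by
    intro b hb
    have h1 := Pool.Agent.RHN.pwin (V := W) (b := b) hW hb hL
    have h2 : (L - 1) / (W.totient : ℝ) < L / (W.totient : ℝ) :=
      div_lt_div_of_pos_right (by linarith) hφ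
    have h3 := (h1.comp tendsto_natCast_atTop_atTop).eventually (eventually_lt_nhds h2)
    obtain ⟨N1, hN1⟩ := eventually_atTop.1 h3
    refine ⟨max N1 2, fun N hN => ?_⟩
    have h4 := hN1 N (le_trans (le_max_left _ _) hN)
    have h5 : 2 ≤ N := le_trans (le_max_right _ _) hN
    have h6 : (0 : ℝ) < Real.log N := Real.log_pos (by exact_mod_cast (by omega : 1 < N))
    have h7 : (0 : ℝ) < (N : ℝ) := by exact_mod_cast (by omega : 0 < N)
    simp only [Function.comp_apply] at h4
    rw [wprimes_eq, le_div_iff₀ (by positivity)]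
    rw [lt_div_iff₀ hφ] at h4
    have h8 : ((Pool.Agent.RHN.WP W b L (N : ℝ)).card : ℝ) * (W.totient * Real.log N) =
        (((Pool.Agent.RHN.WP W b L (N : ℝ)).card : ℝ) * (Real.log N / N) * W.totient) * N := by
      field_simp
    rw [h8]
    exact mul_le_mul_of_nonneg_right h4.le h7.le
  choose! f hf using key
  refine ⟨(Finset.range W).sup f, ?_⟩
  intro N hN b hb
  have hb' : (b % W).Coprime W := by
    have h1 : Nat.gcd W b = Nat.gcd (b % W) W := Nat.gcd_rec W b
    have h0 : Nat.gcd b W = 1 := hb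
    show Nat.gcd (b % W) W = 1
    rw [← h1, Nat.gcd_comm]
    exact h0
  have h2 : wprimes N L W b = wprimes N L W (b % W) := by
    unfold wprimes
    refine Finset.filter_congr fun p _ => ?_
    have : (p ≡ b [MOD W]) ↔ (p ≡ b % W [MOD W]) := by
      unfold Nat.ModEq
      rw [Nat.mod_mod]
    rw [this]
  rw [h2]
  refine hf _ hb' N (le_trans ?_ hN)
  exact Finset.le_sup (f := f) (Finset.mem_range.2 (Nat.mod_lt b hW))

theorem tprime (hD : DecompThm) (hN : NullInfo) (hP : PrimeThm) (hC : WPB) : TPrime := by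
  intro l F hF ε L hε hL
  obtain ⟨C, hC0, hC⟩ := hC L hL
  have hε1 : 0 < min (ε / (2 * C)) (ε / 2) := lt_min (by positivity) (by positivity)
  obtain ⟨W0, c, J, a, l', G, hW0, hG, hdec⟩ := hD l F hF _ hε1
  obtain ⟨S, hS⟩ : ∃ S : ℝ, S = ∑ j, ‖a j‖ := ⟨_, rfl⟩
  have hS0 : 0 ≤ S := by
    rw [hS]
    exact Finset.sum_nonneg fun j _ => norm_nonneg _
  have hε2 : 0 < ε / (2 * (1 + S)) := by positivity
  have hε2S : ε / (2 * (1 + S)) * S ≤ ε / 2 := by
    have h1 : ε / (2 * (1 + S)) * S = ε / 2 * (S / (1 + S)) := by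
      field_simp
    rw [h1]
    have h2 : S / (1 + S) ≤ 1 := by
      rw [div_le_one (by positivity)]
      linarith
    exact mul_le_of_le_one_right (by positivity) h2
  have hinfo := fun j => hN (l' j) (G j) (hG j).1 (hG j).2.2
  have hprime := fun j => hP (l' j) ℤ (fun x n : ℤ => G j (n + x)) (fun x n => (hinfo j).1 _)
    (fun x a b => (hinfo j).2.1 x a b) (fun x a b a' b' => (hinfo j).2.2.1 x a b a' b')
    (hinfo j).2.2.2.1 (hinfo j).2.2.2.2 (ε / (2 * (1 + S))) L hε2 hL
  choose w hw0 hw using hprime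
  refine ⟨c, W0 * ∏ j, w j, Nat.mul_pos hW0 (Finset.prod_pos fun j _ => hw0 j), ?_⟩
  intro W hW hdiv
  have hWW : W0 ∣ W := dvd_trans (dvd_mul_right _ _) hdiv
  have hwW : ∀ j, w j ∣ W := fun j => dvd_trans (Finset.dvd_prod_of_mem w (Finset.mem_univ j))
    (dvd_trans (dvd_mul_left _ _) hdiv)
  have hp1 := fun j => hw j W hW (hwW j)
  choose n1 hn1 using hp1
  have hp2 := fun j => (hinfo j).2.2.2.1 W hW (ε / (2 * (1 + S))) hε2
  choose n2 hn2 using hp2
  obtain ⟨n3, hn3⟩ := hC W hW
  refine ⟨max (max (Finset.univ.sup n1) (Finset.univ.sup n2)) (max n3 2), ?_, ?_⟩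
  · intro N hNN b hb x hx
    have h1 : ∀ j, n1 j ≤ N := fun j => le_trans (Finset.le_sup (Finset.mem_univ j))
      (le_trans (le_max_left _ _) (le_trans (le_max_left _ _) hNN))
    have h3 : n3 ≤ N := le_trans (le_max_left _ _) (le_trans (le_max_right _ _) hNN)
    have h4 : 2 ≤ N := le_trans (le_max_right _ _) (le_trans (le_max_right _ _) hNN)
    have hlog : 0 < Real.log N := Real.log_pos (by exact_mod_cast (by omega : 1 < N))
    have hN0 : (0 : ℝ) < N := by exact_mod_cast (by omega : 0 < N)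
    have hφ : (0 : ℝ) < (W.totient : ℝ) := Nat.cast_pos.2 (Nat.totient_pos.2 hW)
    have e1 : ∑ p ∈ wprimes N L W b, (F ((p : ℤ) + x) - c) =
        ∑ p ∈ wprimes N L W b, (F ((p : ℤ) + x) - c - ∑ j, a j * G j ((p : ℤ) + x)) +
        ∑ j, a j * ∑ p ∈ wprimes N L W b, G j ((p : ℤ) + x) := by
      have h5 : ∑ j, a j * ∑ p ∈ wprimes N L W b, G j ((p : ℤ) + x) =
          ∑ p ∈ wprimes N L W b, ∑ j, a j * G j ((p : ℤ) + x) := by
        simp_rw [Finset.mul_sum]
        exact Finset.sum_comm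
      rw [h5, ← Finset.sum_add_distrib]
      refine Finset.sum_congr rfl fun p _ => ?_
      ring
    rw [e1]
    have b1 : ‖∑ p ∈ wprimes N L W b, (F ((p : ℤ) + x) - c - ∑ j, a j * G j ((p : ℤ) + x))‖ ≤
        ε / 2 * (N / (W.totient * Real.log N)) := by
      have h6 : ‖∑ p ∈ wprimes N L W b, (F ((p : ℤ) + x) - c - ∑ j, a j * G j ((p : ℤ) + x))‖ ≤
          ∑ p ∈ wprimes N L W b, ε / (2 * C) := by
        refine norm_sum_le_of_le _ fun p hp => ?_
        have h7 : p ≡ b [MOD W] := (Finset.mem_filter.1 hp).2.2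
        have h8 : (W : ℤ) ∣ (p : ℤ) + x := by
          have h9 : (W : ℤ) ∣ (b : ℤ) - p := (Nat.modEq_iff_dvd).1 h7
          have h10 : (p : ℤ) + x = (b : ℤ) + x - ((b : ℤ) - p) := by ring
          rw [h10]
          exact dvd_sub hx h9
        exact (hdec _ (dvd_trans (Int.natCast_dvd_natCast.2 hWW) h8)).trans (min_le_left _ _)
      refine h6.trans ?_
      rw [Finset.sum_const, nsmul_eq_mul]
      have h11 := hn3 N h3 b hb
      calc ((wprimes N L W b).card : ℝ) * (ε / (2 * C))
          ≤ (C * N / (W.totient * Real.log N)) * (ε / (2 * C)) :=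
            mul_le_mul_of_nonneg_right h11 (by positivity)
        _ = ε / 2 * (N / (W.totient * Real.log N)) := by
            field_simp
    have b2 : ‖∑ j, a j * ∑ p ∈ wprimes N L W b, G j ((p : ℤ) + x)‖ ≤
        ε / 2 * (N / (W.totient * Real.log N)) := by
      have h12 : ‖∑ j, a j * ∑ p ∈ wprimes N L W b, G j ((p : ℤ) + x)‖ ≤
          ∑ j, ‖a j‖ * (ε / (2 * (1 + S)) * N / (W.totient * Real.log N)) := by
        refine norm_sum_le_of_le _ fun j _ => ?_
        rw [norm_mul]
        exact mul_le_mul_of_nonneg_left (hn1 j N (h1 j) b hb x) (norm_nonneg _)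
      refine h12.trans ?_
      rw [← Finset.sum_mul, ← hS]
      calc S * (ε / (2 * (1 + S)) * N / (W.totient * Real.log N))
          = ε / (2 * (1 + S)) * S * (N / (W.totient * Real.log N)) := by ring
        _ ≤ ε / 2 * (N / (W.totient * Real.log N)) :=
            mul_le_mul_of_nonneg_right hε2S (by positivity)
    calc _ ≤ _ := norm_add_le _ _
      _ ≤ ε / 2 * (N / (W.totient * Real.log N)) + ε / 2 * (N / (W.totient * Real.log N)) :=
          add_le_add b1 b2
      _ = ε * N / (W.totient * Real.log N) := by ring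
  · intro t0 M hM
    have h2 : ∀ j, n2 j ≤ M := fun j => le_trans (Finset.le_sup (Finset.mem_univ j))
      (le_trans (le_max_right _ _) (le_trans (le_max_left _ _) hM))
    have e1 : ∑ t ∈ Finset.Ico t0 (t0 + M), (F (W * t) - c) =
        ∑ t ∈ Finset.Ico t0 (t0 + M), (F (W * t) - c - ∑ j, a j * G j (W * t)) +
        ∑ j, a j * ∑ t ∈ Finset.Ico t0 (t0 + M), G j (W * t) := by
      have h5 : ∑ j, a j * ∑ t ∈ Finset.Ico t0 (t0 + M), G j (W * t) =
          ∑ t ∈ Finset.Ico t0 (t0 + M), ∑ j, a j * G j (W * t) := by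
        simp_rw [Finset.mul_sum]
        exact Finset.sum_comm
      rw [h5, ← Finset.sum_add_distrib]
      refine Finset.sum_congr rfl fun p _ => ?_
      ring
    have hcard : ((Finset.Ico t0 (t0 + (M : ℤ))).card : ℝ) = M := by
      rw [Int.card_Ico]
      simp
    rw [e1]
    have b1 : ‖∑ t ∈ Finset.Ico t0 (t0 + M), (F (W * t) - c - ∑ j, a j * G j (W * t))‖ ≤
        ε / 2 * M := by
      have h6 : ‖∑ t ∈ Finset.Ico t0 (t0 + M), (F (W * t) - c - ∑ j, a j * G j (W * t))‖ ≤
          ∑ t ∈ Finset.Ico t0 (t0 + (M : ℤ)), ε / 2 := by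
        refine norm_sum_le_of_le _ fun t _ => ?_
        exact (hdec _ (dvd_trans (Int.natCast_dvd_natCast.2 hWW) (dvd_mul_right _ _))).trans
          (min_le_right _ _)
      refine h6.trans ?_
      rw [Finset.sum_const, nsmul_eq_mul, hcard]
      exact le_of_eq (mul_comm _ _)
    have b2 : ‖∑ j, a j * ∑ t ∈ Finset.Ico t0 (t0 + M), G j (W * t)‖ ≤ ε / 2 * M := by
      have h12 : ‖∑ j, a j * ∑ t ∈ Finset.Ico t0 (t0 + M), G j (W * t)‖ ≤
          ∑ j, ‖a j‖ * (ε / (2 * (1 + S)) * M) := by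
        refine norm_sum_le_of_le _ fun j _ => ?_
        rw [norm_mul]
        refine mul_le_mul_of_nonneg_left ?_ (norm_nonneg _)
        have h13 := hn2 j 0 0 t0 M (h2 j)
        simpa using h13
      refine h12.trans ?_
      rw [← Finset.sum_mul, ← hS]
      calc S * (ε / (2 * (1 + S)) * M) = ε / (2 * (1 + S)) * S * M := by ring
        _ ≤ ε / 2 * M := mul_le_mul_of_nonneg_right hε2S (Nat.cast_nonneg _)
    calc _ ≤ _ := norm_add_le _ _
      _ ≤ ε / 2 * M + ε / 2 * M := add_le_add b1 b2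
      _ = ε * M := by ring

end Pool.Agent.MRS
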