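import Pool.Agent.MRS.Defs
import Pool.Agent.MRS.Dh10

/-!
# MRS / Zs: the uniform Szemeredi theorem in the form of `Defs`
-/

set_option autoImplicit false

namespace Pool.Agent.MRS

open MeasureTheory

theorem ZAct.iterate {X : Type} [MeasurableSpace X] {mu : Measure X} {T : ℤ → X → X}
    (hT : ZAct mu T) (n : ℕ) (x : X) : (T 1)^[n] x = T (n : ℤ) x := by
  induction n generalizing x with
  | zero => simp [hT.zero]
  | succ n ih =>
    rw [Function.iterate_succ_apply, ih, ← hT.add]
    congr 1

theorem unifSz : UnifSz := by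
  intro k δ hδ
  obtain ⟨N₀, c, hc, h⟩ := MRS.recur_mean.{0} k hδ
  refine ⟨c, N₀, hc, ?_⟩
  intro X _ mu _ T hT A hA hδA N hN
  have h1 := h X mu (T 1) (hT.mp 1) A hA hδA 1 N hN
  refine h1.trans (le_of_eq ?_)
  refine Finset.sum_congr rfl fun n _ => ?_
  congr 1
  ext x
  simp only [Set.mem_iInter, Set.mem_preimage, one_mul]
  refine forall_congr' fun j => forall_congr' fun _ => ?_
  rw [hT.iterate]
  push_cast
  rfl

end Pool.Agent.MRS
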