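import Pool.Agent.MRS.WbFin
import Pool.Agent.MRS.DuZ
import Pool.Agent.MRS.STop
import Pool.Agent.MRS.Tn
import Pool.Agent.MRS.Tq
import Pool.Agent.MRS.PrimeMain
import Pool.Agent.MRS.BaFin
import Pool.Agent.MRS.BsThm
import Pool.Agent.MRS.Zs

/-!
# MRS / Top: assembly
-/

set_option autoImplicit false

namespace Pool.Agent.MRS

theorem tPrime_all : TPrime :=
  tprime (Du.decompThm walshBox) (nullInfo lemmaS) primeThm wpb

theorem finalStmt : FinalStmt := final unifSz tPrime_all sys_thm

end Pool.Agent.MRS
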