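import Pool.Agent.MRS.Tx

/-!
# MRS / Tp: products and dilations of systems (part T*)

All statements are direct: `MeasurePreserving.prod`, `integral_prod_mul`, `integral_conj`, `map_prod`,
`Finset.prod_mul_distrib`, `cj_mul`, `cj n (conj w) = conj (cj n w)`.
-/

set_option autoImplicit false

namespace Pool.Agent.MRS

open MeasureTheory Finset
open scoped BigOperators ComplexConjugate

variable {X : Type} [MeasurableSpace X] {mu : Measure X} [IsProbabilityMeasure mu] {T : ℤ → X → X}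
  {Y : Type} [MeasurableSpace Y] {nu : Measure Y} [IsProbabilityMeasure nu] {S : ℤ → Y → Y}
  {s l : ℕ}

/-- the product of two actions -/
def pact (T : ℤ → X → X) (S : ℤ → Y → Y) (n : ℤ) (z : X × Y) : X × Y := (T n z.1, S n z.2)

/-- `g ⊗ conj g'` -/
noncomputable def pfun (g : X → ℂ) (g' : Y → ℂ) (z : X × Y) : ℂ := g z.1 * conj (g' z.2)

/-- the dilated action `n ↦ T (q n)` -/
def dil (T : ℤ → X → X) (q : ℤ) (n : ℤ) : X → X := T (q * n)

theorem pact_zact (hT : ZAct mu T) (hS : ZAct nu S) : ZAct (mu.prod nu) (pact T S) := by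
  refine ⟨fun z => ?_, fun m n z => ?_, fun m => ?_⟩
  · exact Prod.ext (hT.zero z.1) (hS.zero z.2)
  · exact Prod.ext (hT.add m n z.1) (hS.add m n z.2)
  · exact (hT.mp m).prod (hS.mp m)

theorem pfun_b1 {g : X → ℂ} {g' : Y → ℂ} (hg : B1 g) (hg' : B1 g') : B1 (pfun g g') := by
  exact (hg.comp measurable_fst).mul ((hg'.comp measurable_snd).conj)

theorem dil_zact (hT : ZAct mu T) (q : ℤ) : ZAct mu (dil T q) := by
  refine ⟨fun x => ?_, fun m n x => ?_, fun m => hT.mp _⟩
  · show T (q * 0) x = x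
    rw [mul_zero]
    exact hT.zero x
  · show T (q * (m + n)) x = T (q * m) (T (q * n) x)
    rw [mul_add]
    exact hT.add _ _ x

theorem del_dil (q : ℤ) (h : Fin s → ℤ) (g : X → ℂ) (x : X) :
    Del (dil T q) h g x = Del T (fun t => q * h t) g x := by
  unfold Del
  refine Finset.prod_congr rfl fun ω _ => ?_
  show cj ω.card (g (T (q * ∑ i ∈ ω, h i) x)) = _
  rw [Finset.mul_sum]

theorem del_pact (h : Fin s → ℤ) (g : X → ℂ) (g' : Y → ℂ) (z : X × Y) :
    Del (pact T S) h (pfun g g') z = Del T h g z.1 * conj (Del S h g' z.2) := by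
  have hc : ∀ (n : ℕ) (w : ℂ), cj n (conj w) = conj (cj n w) := by
    intro n w
    unfold cj
    split_ifs <;> rfl
  unfold Del
  rw [map_prod, ← Finset.prod_mul_distrib]
  refine Finset.prod_congr rfl fun ω _ => ?_
  show cj ω.card (g (T (∑ i ∈ ω, h i) z.1) * conj (g' (S (∑ i ∈ ω, h i) z.2))) = _
  rw [cj_mul, hc]

theorem integral_del_pact (h : Fin s → ℤ) (g : X → ℂ) (g' : Y → ℂ) :
    ∫ z, Del (pact T S) h (pfun g g') z ∂(mu.prod nu) =
      (∫ x, Del T h g x ∂mu) * conj (∫ y, Del S h g' y ∂nu) := by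
  rw [← integral_conj, ← integral_prod_mul]
  exact integral_congr_ae (Filter.Eventually.of_forall fun z => del_pact h g g' z)

theorem cor_pact (g : ℕ → X → ℂ) (g' : ℕ → Y → ℂ) (n : ℤ) :
    cor (mu.prod nu) (pact T S) (fun j => pfun (g j) (g' j)) l n =
      cor mu T g l n * conj (cor nu S g' l n) := by
  unfold cor
  rw [← integral_conj, ← integral_prod_mul]
  refine integral_congr_ae (Filter.Eventually.of_forall fun z => ?_)
  show ∏ j ∈ range (l + 1), (g j (T ((j : ℤ) * n) z.1) * conj (g' j (S ((j : ℤ) * n) z.2))) =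
    (∏ j ∈ range (l + 1), g j (T ((j : ℤ) * n) z.1)) *
      conj (∏ j ∈ range (l + 1), g' j (S ((j : ℤ) * n) z.2))
  rw [map_prod, ← Finset.prod_mul_distrib]

theorem cor_dil (hT : ZAct mu T) (g : ℕ → X → ℂ) (q n x : ℤ) :
    cor mu T g l (q * n + x) = cor mu (dil T q) (fun j y => g j (T ((j : ℤ) * x) y)) l n := by
  unfold cor
  refine integral_congr_ae (Filter.Eventually.of_forall fun y => ?_)
  show ∏ j ∈ range (l + 1), g j (T ((j : ℤ) * (q * n + x)) y) =
    ∏ j ∈ range (l + 1), g j (T ((j : ℤ) * x) (T (q * ((j : ℤ) * n)) y))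
  refine Finset.prod_congr rfl fun j _ => ?_
  rw [← hT.add]
  congr 2
  ring

end Pool.Agent.MRS
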