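import Pool.Agent.MRS.Defs

/-!
# MRS / Tv: the van der Corput inequality (part T*, section 4)

`vdc`.  Proof.  Put `I = [t0, t0 + M)`, `S = ∑_{t ∈ I} u t`, `S_i = ∑_{t ∈ I} u (t + a i)` for `i < H`.  The sets `I` and
`I + a i` differ in at most `2 a i` points, so `‖S - S_i‖ ≤ 2 a i ≤ 2 a H` (`sum_shift_sub`: reindex the sum by
`t ↦ t + a i` (`Finset.sum_bij` / `Finset.image_add_right_Ico`), both sums are sums over `Ico` intervals; it is simplest to prove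
the case `a i = 1`, `‖∑_{t ∈ I} u t - ∑_{t ∈ I} u (t + 1)‖ = ‖u t0 - u (t0 + M)‖ ≤ 2`, and to iterate `n = a i` times).
Put `x = M⁻¹ S`, `y = M⁻¹ ∑_{t ∈ I} H⁻¹ ∑_{i < H} u (t + a i)`; so `‖x‖ ≤ 1`, `‖y‖ ≤ 1`, `‖x - y‖ ≤ 2 a H / M`, and
`‖x‖² ≤ ‖y‖² + (‖x‖ - ‖y‖) (‖x‖ + ‖y‖) ≤ ‖y‖² + 4 a H / M` (if `‖x‖ ≤ ‖y‖` trivial).  By convexity of the square of the norm
(`sq_norm_avg_le`: `‖M⁻¹ ∑_{t ∈ I} w t‖² ≤ M⁻¹ ∑_{t ∈ I} ‖w t‖²`, from `norm_sum_le` and `inner_mul_le_norm_mul_norm` /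
`sq_sum_le_card_mul_sum_sq`) `‖y‖² ≤ M⁻¹ ∑_{t ∈ I} ‖H⁻¹ ∑_i u (t + a i)‖²`, and
`‖H⁻¹ ∑_i w_i‖² = (H²)⁻¹ ∑_i ∑_j re ⟨w_i, w_j⟩` (`sq_norm_avg`).
-/

set_option autoImplicit false

namespace Pool.Agent.MRS

open Finset
open scoped BigOperators ComplexConjugate

variable {E : Type} [NormedAddCommGroup E] [InnerProductSpace ℂ E]

private theorem tv_range {F : Type*} [AddCommMonoid F] (f : ℤ → F) (M : ℕ) (t0 : ℤ) :
    ∑ t ∈ Ico t0 (t0 + M), f t = ∑ i ∈ range M, f (t0 + i) := by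
  refine Finset.sum_nbij' (fun t => (t - t0).toNat) (fun i => t0 + i) ?_ ?_ ?_ ?_ ?_
  · intro t ht
    rw [Finset.mem_Ico] at ht
    rw [Finset.mem_range]
    omega
  · intro i hi
    rw [Finset.mem_range] at hi
    rw [Finset.mem_Ico]
    omega
  · intro t ht
    rw [Finset.mem_Ico] at ht
    show t0 + ((t - t0).toNat : ℤ) = t
    omega
  · intro i hi
    show (t0 + (i : ℤ) - t0).toNat = i
    omega
  · intro t ht
    rw [Finset.mem_Ico] at ht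
    show f t = f (t0 + ((t - t0).toNat : ℤ))
    congr 1
    omega

private theorem tv_tel (v : ℤ → E) (M : ℕ) (t0 : ℤ) :
    ∑ t ∈ Ico t0 (t0 + M), v t - ∑ t ∈ Ico t0 (t0 + M), v (t + 1) = v t0 - v (t0 + M) := by
  rw [tv_range, tv_range (fun t => v (t + 1))]
  induction M with
  | zero => simp
  | succ M ih =>
    rw [Finset.sum_range_succ, Finset.sum_range_succ, add_sub_add_comm, ih]
    have e1 : t0 + ((M + 1 : ℕ) : ℤ) = t0 + (M : ℤ) + 1 := by push_cast; ring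
    rw [e1]
    abel

/-- shifting the interval by `n` changes the sum by at most `2 n` -/
theorem sum_shift_sub (u : ℤ → E) (hu : ∀ n, ‖u n‖ ≤ 1) (n M : ℕ) (t0 : ℤ) :
    ‖∑ t ∈ Ico t0 (t0 + M), u t - ∑ t ∈ Ico t0 (t0 + M), u (t + n)‖ ≤ 2 * n := by
  induction n with
  | zero => simp
  | succ n ih =>
    have h1 := tv_tel (fun t => u (t + n)) M t0
    have e1 : ∑ t ∈ Ico t0 (t0 + M), u (t + 1 + n) = ∑ t ∈ Ico t0 (t0 + M), u (t + (n + 1 : ℕ)) := by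
      refine Finset.sum_congr rfl fun t _ => ?_
      congr 1
      push_cast
      ring
    beta_reduce at h1
    rw [e1] at h1
    have h2 : ‖u (t0 + n) - u (t0 + M + n)‖ ≤ 2 := by
      refine (norm_sub_le _ _).trans ?_
      have := hu (t0 + n)
      have := hu (t0 + M + n)
      linarith
    have e2 : ∑ t ∈ Ico t0 (t0 + M), u t - ∑ t ∈ Ico t0 (t0 + M), u (t + (n + 1 : ℕ)) =
        (∑ t ∈ Ico t0 (t0 + M), u t - ∑ t ∈ Ico t0 (t0 + M), u (t + n)) +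
        (u (t0 + n) - u (t0 + M + n)) := by
      rw [← h1]
      abel
    rw [e2]
    refine (norm_add_le _ _).trans ?_
    push_cast
    linarith

theorem sq_norm_avg_le (w : ℤ → E) (M : ℕ) (hM : 0 < M) (t0 : ℤ) :
    ‖((M : ℂ)⁻¹) • ∑ t ∈ Ico t0 (t0 + M), w t‖ ^ 2 ≤ (M : ℝ)⁻¹ * ∑ t ∈ Ico t0 (t0 + M), ‖w t‖ ^ 2 := by
  have hMR : (0 : ℝ) < M := by exact_mod_cast hM
  have h1 : ‖∑ t ∈ Ico t0 (t0 + M), w t‖ ≤ ∑ t ∈ Ico t0 (t0 + M), ‖w t‖ := norm_sum_le _ _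
  have h2 := sq_sum_le_card_mul_sum_sq (s := Ico t0 (t0 + M)) (f := fun t => ‖w t‖)
  have hcard : ((Ico t0 (t0 + M)).card : ℝ) = M := by
    rw [Int.card_Ico]
    have : (t0 + M - t0).toNat = M := by omega
    rw [this]
  rw [hcard] at h2
  have h3 : ‖∑ t ∈ Ico t0 (t0 + M), w t‖ ^ 2 ≤ M * ∑ t ∈ Ico t0 (t0 + M), ‖w t‖ ^ 2 :=
    (pow_le_pow_left₀ (norm_nonneg _) h1 2).trans h2
  rw [norm_smul, norm_inv, Complex.norm_natCast, mul_pow]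
  calc (M : ℝ)⁻¹ ^ 2 * ‖∑ t ∈ Ico t0 (t0 + M), w t‖ ^ 2
      ≤ (M : ℝ)⁻¹ ^ 2 * (M * ∑ t ∈ Ico t0 (t0 + M), ‖w t‖ ^ 2) :=
        mul_le_mul_of_nonneg_left h3 (by positivity)
    _ = (M : ℝ)⁻¹ * ∑ t ∈ Ico t0 (t0 + M), ‖w t‖ ^ 2 := by
        field_simp

theorem sq_norm_avg (w : ℕ → E) (H : ℕ) (hH : 0 < H) :
    ‖((H : ℂ)⁻¹) • ∑ i ∈ range H, w i‖ ^ 2 =
      (((H : ℂ) ^ 2)⁻¹ * ∑ i ∈ range H, ∑ j ∈ range H, inner ℂ (w i) (w j)).re := by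
  have e1 : (((H : ℂ) ^ 2)⁻¹) = ((((H : ℝ) ^ 2)⁻¹ : ℝ) : ℂ) := by
    push_cast
    rfl
  rw [e1, Complex.re_ofReal_mul, norm_smul, norm_inv, Complex.norm_natCast, mul_pow, inv_pow]
  congr 1
  have h1 := inner_self_eq_norm_sq (𝕜 := ℂ) (∑ i ∈ range H, w i)
  rw [← h1, sum_inner]
  simp only [inner_sum]
  rfl

/-- the van der Corput inequality with Fejér weights -/
theorem vdc (u : ℤ → E) (hu : ∀ n, ‖u n‖ ≤ 1) (a H M : ℕ) (hH : 0 < H) (hM : 0 < M) (t0 : ℤ) :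
    ‖((M : ℂ)⁻¹) • ∑ t ∈ Ico t0 (t0 + M), u t‖ ^ 2 ≤
      (((H : ℂ) ^ 2)⁻¹ * ∑ i ∈ range H, ∑ j ∈ range H,
        ((M : ℂ)⁻¹ * ∑ t ∈ Ico t0 (t0 + M), inner ℂ (u (t + a * i)) (u (t + a * j)))).re +
        4 * a * H / M := by
  have hMR : (0 : ℝ) < M := by exact_mod_cast hM
  have hHR : (0 : ℝ) < H := by exact_mod_cast hH
  have hMC : (M : ℂ) ≠ 0 := by exact_mod_cast hM.ne'
  have hHC : (H : ℂ) ≠ 0 := by exact_mod_cast hH.ne'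
  have hcard : ((Ico t0 (t0 + M)).card : ℝ) = M := by
    rw [Int.card_Ico]
    have : (t0 + M - t0).toNat = M := by omega
    rw [this]
  have hsum : ∀ v : ℤ → E, (∀ t, ‖v t‖ ≤ 1) → ‖((M : ℂ)⁻¹) • ∑ t ∈ Ico t0 (t0 + M), v t‖ ≤ 1 := by
    intro v hv
    rw [norm_smul, norm_inv, Complex.norm_natCast]
    have h1 : ‖∑ t ∈ Ico t0 (t0 + M), v t‖ ≤ M := by
      refine (norm_sum_le _ _).trans ?_
      calc ∑ t ∈ Ico t0 (t0 + M), ‖v t‖ ≤ ∑ t ∈ Ico t0 (t0 + M), (1 : ℝ) :=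
            Finset.sum_le_sum fun t _ => hv t
        _ = M := by rw [Finset.sum_const, nsmul_eq_mul, hcard, mul_one]
    rw [inv_mul_le_iff₀ hMR, mul_one]
    exact h1
  have hw1 : ∀ t : ℤ, ‖((H : ℂ)⁻¹) • ∑ i ∈ range H, u (t + a * i)‖ ≤ 1 := by
    intro t
    rw [norm_smul, norm_inv, Complex.norm_natCast, inv_mul_le_iff₀ hHR, mul_one]
    refine (norm_sum_le _ _).trans ?_
    calc ∑ i ∈ range H, ‖u (t + a * i)‖ ≤ ∑ i ∈ range H, (1 : ℝ) :=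
          Finset.sum_le_sum fun i _ => hu _
      _ = H := by rw [Finset.sum_const, nsmul_eq_mul, Finset.card_range, mul_one]
  have hx1 := hsum u hu
  have hy1 := hsum (fun t => ((H : ℂ)⁻¹) • ∑ i ∈ range H, u (t + a * i)) hw1
  have hxy : ‖((M : ℂ)⁻¹) • ∑ t ∈ Ico t0 (t0 + M), u t -
      ((M : ℂ)⁻¹) • ∑ t ∈ Ico t0 (t0 + M), ((H : ℂ)⁻¹) • ∑ i ∈ range H, u (t + a * i)‖ ≤
      2 * a * H / M := by
    have e1 : ∑ t ∈ Ico t0 (t0 + M), u t -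
        ∑ t ∈ Ico t0 (t0 + M), ((H : ℂ)⁻¹) • ∑ i ∈ range H, u (t + a * i) =
        ((H : ℂ)⁻¹) • ∑ i ∈ range H, (∑ t ∈ Ico t0 (t0 + M), u t -
          ∑ t ∈ Ico t0 (t0 + M), u (t + (a * i : ℕ))) := by
      rw [Finset.sum_sub_distrib, Finset.sum_const, Finset.card_range, ← Nat.cast_smul_eq_nsmul ℂ,
        smul_sub, smul_smul, inv_mul_cancel₀ hHC, one_smul, Finset.sum_comm, ← Finset.smul_sum]
      congr 3
    rw [← smul_sub, e1, norm_smul, norm_smul, norm_inv, norm_inv, Complex.norm_natCast,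
      Complex.norm_natCast]
    have h1 : ‖∑ i ∈ range H, (∑ t ∈ Ico t0 (t0 + M), u t -
        ∑ t ∈ Ico t0 (t0 + M), u (t + (a * i : ℕ)))‖ ≤ H * (2 * (a * H)) := by
      refine (norm_sum_le _ _).trans ?_
      calc _ ≤ ∑ i ∈ range H, (2 * (a * H) : ℝ) := by
            refine Finset.sum_le_sum fun i hi => ?_
            refine (sum_shift_sub u hu (a * i) M t0).trans ?_
            have h2 : (i : ℝ) ≤ H := by exact_mod_cast (Finset.mem_range.1 hi).le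
            have h3 : (0 : ℝ) ≤ a := Nat.cast_nonneg a
            push_cast
            nlinarith
        _ = H * (2 * (a * H)) := by
            rw [Finset.sum_const, nsmul_eq_mul, Finset.card_range]
    calc (M : ℝ)⁻¹ * ((H : ℝ)⁻¹ * ‖∑ i ∈ range H, (∑ t ∈ Ico t0 (t0 + M), u t -
        ∑ t ∈ Ico t0 (t0 + M), u (t + (a * i : ℕ)))‖)
        ≤ (M : ℝ)⁻¹ * ((H : ℝ)⁻¹ * (H * (2 * (a * H)))) := by gcongr
      _ = 2 * a * H / M := by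
          field_simp
  have hy2 := sq_norm_avg_le (fun t => ((H : ℂ)⁻¹) • ∑ i ∈ range H, u (t + a * i)) M hM t0
  have hre : (((H : ℂ) ^ 2)⁻¹ * ∑ i ∈ range H, ∑ j ∈ range H,
      ((M : ℂ)⁻¹ * ∑ t ∈ Ico t0 (t0 + M), inner ℂ (u (t + a * i)) (u (t + a * j)))).re =
      (M : ℝ)⁻¹ * ∑ t ∈ Ico t0 (t0 + M), ‖((H : ℂ)⁻¹) • ∑ i ∈ range H, u (t + a * i)‖ ^ 2 := by
    have e1 : (((H : ℂ) ^ 2)⁻¹ * ∑ i ∈ range H, ∑ j ∈ range H,
        ((M : ℂ)⁻¹ * ∑ t ∈ Ico t0 (t0 + M), inner ℂ (u (t + a * i)) (u (t + a * j)))) =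
        (((M : ℝ)⁻¹ : ℝ) : ℂ) * ∑ t ∈ Ico t0 (t0 + M), (((H : ℂ) ^ 2)⁻¹ * ∑ i ∈ range H,
          ∑ j ∈ range H, inner ℂ (u (t + a * i)) (u (t + a * j))) := by
      rw [← Finset.mul_sum]
      have e2 : ∑ t ∈ Ico t0 (t0 + M), ∑ i ∈ range H, ∑ j ∈ range H,
          inner ℂ (u (t + a * i)) (u (t + a * j)) = ∑ i ∈ range H, ∑ j ∈ range H,
          ∑ t ∈ Ico t0 (t0 + M), inner ℂ (u (t + a * i)) (u (t + a * j)) := by
        rw [Finset.sum_comm]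
        exact Finset.sum_congr rfl fun i _ => Finset.sum_comm
      rw [e2]
      simp only [← Finset.mul_sum]
      push_cast
      ring
    rw [e1, Complex.re_ofReal_mul, Complex.re_sum]
    congr 1
    exact Finset.sum_congr rfl fun t _ => (sq_norm_avg (fun i => u (t + a * i)) H hH).symm
  rw [hre]
  have h5 := norm_sub_norm_le (((M : ℂ)⁻¹) • ∑ t ∈ Ico t0 (t0 + M), u t)
    (((M : ℂ)⁻¹) • ∑ t ∈ Ico t0 (t0 + M), ((H : ℂ)⁻¹) • ∑ i ∈ range H, u (t + a * i))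
  have hX : 0 ≤ ‖((M : ℂ)⁻¹) • ∑ t ∈ Ico t0 (t0 + M), u t‖ := norm_nonneg _
  generalize ‖((M : ℂ)⁻¹) • ∑ t ∈ Ico t0 (t0 + M), u t‖ = X at *
  have h6 := norm_nonneg (((M : ℂ)⁻¹) • ∑ t ∈ Ico t0 (t0 + M),
    ((H : ℂ)⁻¹) • ∑ i ∈ range H, u (t + a * i))
  generalize ‖((M : ℂ)⁻¹) • ∑ t ∈ Ico t0 (t0 + M),
    ((H : ℂ)⁻¹) • ∑ i ∈ range H, u (t + a * i)‖ = Y at *
  have h7 : X - Y ≤ 2 * a * H / M := h5.trans hxy
  have h8 : (0 : ℝ) ≤ 2 * a * H / M := by positivity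
  have h9 : X ^ 2 ≤ Y ^ 2 + 4 * a * H / M := by
    have e : 4 * a * H / M = 2 * (2 * a * H / M : ℝ) := by ring
    rw [e]
    rcases le_total X Y with h | h
    · nlinarith
    · nlinarith
  linarith

end Pool.Agent.MRS
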