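import Pool.Agent.MRS.Tg

/-!
# MRS / Tx: cube averages, recursive form = box averages (part T*)

* `bavg_zero`: `box a N = {a}` (`Fintype.piFinset` over `Fin 0`).
* `bavg_succ`: the bijection `(z0, z) ↦ Fin.cons z0 z` from `Ico (a 0) (a 0 + N 0) × box (tail)` to the box
  (`Fin.consEquiv` / `Fin.cons_self_tail`, `Fintype.mem_piFinset`, `Fin.forall_fin_succ`), `Fin.prod_univ_succ`.
* `bavg_comm`: `Finset.sum_comm`, `Finset.mul_sum`.  `bavg_shift`: reindex by `i ↦ i - j`.
* `Del_cons`: the subsets of `Fin (s+1)` are `ω'.map succ` and `insert 0 (ω'.map succ)`, `ω' ⊆ Fin s`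
  (`Fin.consEquiv`-like bijection of finsets: `Finset.univ = image .. ∪ image ..`, or `Finset.prod_powerset_insert` for
  `univ = insert 0 (univ.map succ)` after rewriting `∏ ω : Finset _` as a product over the powerset of `univ`);
  `cj n (z * conj w) = cj n z * cj (n + 1) w`; `T h0 (T n x) = T (h0 + n) x`.
* `qr_eq`: induction on `s` with `Del_cons`, `bavg_succ` (both variables) and linearity of `bavg`
  (`fun t => c * ((Fin.cons i0 i) t - (Fin.cons j0 j) t) = Fin.cons (c * (i0 - j0)) (fun t => c * (i t - j t))`).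
-/

set_option autoImplicit false

namespace Pool.Agent.MRS

open MeasureTheory Finset
open scoped BigOperators ComplexConjugate

variable {X : Type} [MeasurableSpace X] {mu : Measure X} [IsProbabilityMeasure mu] {T : ℤ → X → X}
  {s : ℕ}

theorem bavg_zero (a : Fin 0 → ℤ) (N : Fin 0 → ℕ) (F : (Fin 0 → ℤ) → ℂ) : bavg a N F = F a := by
  unfold bavg box
  rw [Fintype.piFinset_of_isEmpty, Fintype.sum_subsingleton F a,
    Finset.univ_eq_empty (α := Fin 0), Finset.prod_empty, inv_one, one_mul]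

theorem bavg_succ (a : Fin (s + 1) → ℤ) (N : Fin (s + 1) → ℕ) (F : (Fin (s + 1) → ℤ) → ℂ) :
    bavg a N F = (N 0 : ℂ)⁻¹ * ∑ z0 ∈ Ico (a 0) (a 0 + (N 0 : ℤ)),
      bavg (fun i => a i.succ) (fun i => N i.succ) (fun z => F (Fin.cons z0 z)) := by
  have h1 : ∑ z ∈ box a N, F z = ∑ z0 ∈ Ico (a 0) (a 0 + (N 0 : ℤ)),
      ∑ z ∈ box (fun i => a i.succ) (fun i => N i.succ), F (Fin.cons z0 z) := by
    rw [← Finset.sum_product']
    refine Finset.sum_nbij' (fun z => (z 0, fun i => z i.succ)) (fun p => Fin.cons p.1 p.2)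
      ?_ ?_ ?_ ?_ ?_
    · intro z hz
      unfold box at hz
      rw [Fintype.mem_piFinset] at hz
      rw [Finset.mem_product]
      refine ⟨hz 0, ?_⟩
      unfold box
      rw [Fintype.mem_piFinset]
      exact fun i => hz i.succ
    · intro p hp
      rw [Finset.mem_product] at hp
      obtain ⟨hp1, hp2⟩ := hp
      unfold box at hp2 ⊢
      rw [Fintype.mem_piFinset] at hp2
      rw [Fintype.mem_piFinset]
      intro i
      refine Fin.cases ?_ (fun i => ?_) i
      · exact hp1
      · exact hp2 i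
    · intro z hz
      exact Fin.cons_self_tail z
    · intro p hp
      rfl
    · intro z hz
      congr 1
      exact (Fin.cons_self_tail z).symm
  unfold bavg
  rw [h1, Fin.prod_univ_succ, mul_inv, ← Finset.mul_sum, mul_assoc]

theorem bavg_comm {ι κ : Type} [Fintype ι] [DecidableEq ι] [Fintype κ] [DecidableEq κ]
    (a : ι → ℤ) (N : ι → ℕ) (a' : κ → ℤ) (N' : κ → ℕ) (F : (ι → ℤ) → (κ → ℤ) → ℂ) :
    bavg a N (fun i => bavg a' N' (fun j => F i j)) = bavg a' N' (fun j => bavg a N (fun i => F i j)) := by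
  unfold bavg
  rw [← Finset.mul_sum, ← Finset.mul_sum, Finset.sum_comm, mul_left_comm]

theorem bavg_shift {ι : Type} [Fintype ι] [DecidableEq ι] (a j : ι → ℤ) (N : ι → ℕ)
    (F : (ι → ℤ) → ℂ) : bavg a N (fun i => F (i - j)) = bavg (a - j) N F := by
  unfold bavg
  congr 1
  refine Finset.sum_nbij' (fun i => i - j) (fun i => i + j) ?_ ?_ ?_ ?_ ?_
  · intro z hz
    unfold box at hz ⊢
    rw [Fintype.mem_piFinset] at hz ⊢
    intro i
    have h := hz i
    rw [Finset.mem_Ico] at h ⊢
    simp only [Pi.sub_apply]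
    omega
  · intro z hz
    unfold box at hz ⊢
    rw [Fintype.mem_piFinset] at hz ⊢
    intro i
    have h := hz i
    rw [Finset.mem_Ico] at h ⊢
    simp only [Pi.sub_apply, Pi.add_apply] at h ⊢
    omega
  · intro z _
    exact sub_add_cancel z j
  · intro z _
    exact add_sub_cancel_right z j
  · intro z _
    rfl

theorem norm_bavg_le {ι : Type} [Fintype ι] [DecidableEq ι] (a : ι → ℤ) (N : ι → ℕ)
    (F : (ι → ℤ) → ℂ) {C : ℝ} (hC : 0 ≤ C) (hF : ∀ z, ‖F z‖ ≤ C) : ‖bavg a N F‖ ≤ C := by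
  have hcard : ((box a N).card : ℝ) = ∏ i, (N i : ℝ) := by
    unfold box
    rw [Fintype.card_piFinset]
    push_cast
    refine Finset.prod_congr rfl fun i _ => ?_
    rw [Int.card_Ico]
    congr 1
    omega
  unfold bavg
  rw [norm_mul, norm_inv, norm_prod]
  simp only [Complex.norm_natCast]
  have h1 : ‖∑ z ∈ box a N, F z‖ ≤ (∏ i, (N i : ℝ)) * C := by
    refine (norm_sum_le _ _).trans ?_
    refine (Finset.sum_le_card_nsmul _ _ C fun z _ => hF z).trans ?_
    rw [nsmul_eq_mul, hcard]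
  have h0 : 0 ≤ ∏ i, (N i : ℝ) := Finset.prod_nonneg fun i _ => Nat.cast_nonneg _
  rcases h0.eq_or_lt with h2 | h2
  · rw [← h2, inv_zero, zero_mul]
    exact hC
  · rw [inv_mul_le_iff₀ h2]
    exact h1

theorem bavg_sum {ι : Type} [Fintype ι] [DecidableEq ι] (a : ι → ℤ) (N : ι → ℕ) {κ : Type}
    (K : Finset κ) (c : ℂ) (F : κ → (ι → ℤ) → ℂ) :
    bavg a N (fun i => c * ∑ k ∈ K, F k i) = c * ∑ k ∈ K, bavg a N (F k) := by
  unfold bavg
  rw [← Finset.mul_sum, ← Finset.mul_sum, Finset.sum_comm, mul_left_comm]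

theorem cj_mul (n : ℕ) (z w : ℂ) : cj n (z * w) = cj n z * cj n w := by
  unfold cj
  split_ifs
  · rfl
  · exact map_mul _ _ _

theorem cj_conj (n : ℕ) (z : ℂ) : cj n (conj z) = cj (n + 1) z := by
  unfold cj
  by_cases h : Even n
  · have h1 : ¬ Even (n + 1) := fun h2 => (Nat.even_add_one.1 h2) h
    rw [if_pos h, if_neg h1]
  · have h1 : Even (n + 1) := Nat.even_add_one.2 h
    rw [if_neg h, if_pos h1, Complex.conj_conj]

theorem norm_cj (n : ℕ) (z : ℂ) : ‖cj n z‖ = ‖z‖ := by
  unfold cj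
  split_ifs
  · rfl
  · exact RCLike.norm_conj z

theorem del_b1 (hT : ZAct mu T) (h : Fin s → ℤ) {g : X → ℂ} (hg : B1 g) : B1 (Del T h g) := by
  refine B1.prod (f := fun ω x => cj ω.card (g (T (∑ i ∈ ω, h i) x))) Finset.univ fun ω _ => ?_
  have h1 : B1 fun x => g (T (∑ i ∈ ω, h i) x) := hg.comp (hT.meas _)
  by_cases h2 : Even ω.card
  · have h3 : (fun x => cj ω.card (g (T (∑ i ∈ ω, h i) x))) =
        fun x => g (T (∑ i ∈ ω, h i) x) := by
      funext x
      unfold cj
      rw [if_pos h2]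
    show B1 fun x => cj ω.card (g (T (∑ i ∈ ω, h i) x))
    rw [h3]
    exact h1
  · have h3 : (fun x => cj ω.card (g (T (∑ i ∈ ω, h i) x))) =
        fun x => (starRingEnd ℂ) (g (T (∑ i ∈ ω, h i) x)) := by
      funext x
      unfold cj
      rw [if_neg h2]
    show B1 fun x => cj ω.card (g (T (∑ i ∈ ω, h i) x))
    rw [h3]
    exact h1.conj

theorem del_zero (hT : ZAct mu T) (h : Fin 0 → ℤ) (g : X → ℂ) (x : X) : Del T h g x = g x := by
  unfold Del
  rw [Finset.prod_eq_single (∅ : Finset (Fin 0))]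
  · rw [Finset.sum_empty, Finset.card_empty, hT.zero]
    unfold cj
    rw [if_pos (by decide)]
  · intro ω _ hω
    exact absurd (Finset.eq_empty_of_isEmpty ω) hω
  · intro h1
    exact absurd (Finset.mem_univ _) h1

theorem del_cons (hT : ZAct mu T) (h0 : ℤ) (h : Fin s → ℤ) (g : X → ℂ) (x : X) :
    Del T (Fin.cons h0 h : Fin (s + 1) → ℤ) g x = Del T h (fun y => g y * conj (g (T h0 y))) x := by
  unfold Del
  have h1 : ∀ f : Finset (Fin (s + 1)) → ℂ, ∏ ω : Finset (Fin (s + 1)), f ω =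
      ∏ ω : Finset (Fin s), (f (ω.map (Fin.succEmb s)) *
        f (insert 0 (ω.map (Fin.succEmb s)))) := by
    intro f
    have h2 : (0 : Fin (s + 1)) ∉ (Finset.univ : Finset (Fin s)).map (Fin.succEmb s) := by
      simp
    have h3 : (Finset.univ : Finset (Fin (s + 1))) =
        insert 0 ((Finset.univ : Finset (Fin s)).map (Fin.succEmb s)) := by
      rw [Fin.univ_succ, Finset.cons_eq_insert]
      rfl
    have h4 : ∀ f' : Finset (Fin (s + 1)) → ℂ,
        ∏ ω ∈ ((Finset.univ : Finset (Fin s)).map (Fin.succEmb s)).powerset, f' ω =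
        ∏ ω : Finset (Fin s), f' (ω.map (Fin.succEmb s)) := by
      intro f'
      symm
      refine Finset.prod_nbij (fun ω => ω.map (Fin.succEmb s)) ?_ ?_ ?_ ?_
      · intro ω _
        rw [Finset.mem_powerset]
        exact Finset.map_subset_map.2 (Finset.subset_univ _)
      · intro ω _ ω' _ h
        exact Finset.map_injective _ h
      · intro ω hω
        rw [Finset.mem_coe, Finset.mem_powerset, Finset.subset_map_iff] at hω
        obtain ⟨u, -, hu⟩ := hω
        exact ⟨u, Finset.mem_coe.2 (Finset.mem_univ _), hu.symm⟩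
      · intro ω _
        rfl
    rw [← Finset.powerset_univ, h3, Finset.prod_powerset_insert h2, h4, h4 fun t => f (insert 0 t),
      ← Finset.prod_mul_distrib]
  rw [h1]
  refine Finset.prod_congr rfl fun ω _ => ?_
  have h2 : (0 : Fin (s + 1)) ∉ ω.map (Fin.succEmb s) := by
    simp
  have h3 : ∑ i ∈ ω.map (Fin.succEmb s), (Fin.cons h0 h : Fin (s + 1) → ℤ) i = ∑ i ∈ ω, h i := by
    rw [Finset.sum_map]
    rfl
  rw [Finset.card_insert_of_notMem h2, Finset.sum_insert h2, h3, Finset.card_map, cj_mul, cj_conj,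
    Fin.cons_zero, hT.add]

theorem integral_del_comp (hT : ZAct mu T) (h : Fin s → ℤ) (n : ℤ) {g : X → ℂ} (hg : B1 g) :
    ∫ x, Del T h (fun y => g (T n y)) x ∂mu = ∫ x, Del T h g x ∂mu := by
  rw [← hT.integral n (del_b1 hT h hg)]
  refine integral_congr_ae (Filter.Eventually.of_forall fun x => ?_)
  show Del T h (fun y => g (T n y)) x = Del T h g (T n x)
  unfold Del
  refine Finset.prod_congr rfl fun ω _ => ?_
  show cj ω.card (g (T n (T (∑ i ∈ ω, h i) x))) = cj ω.card (g (T (∑ i ∈ ω, h i) (T n x)))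
  rw [← hT.add, ← hT.add, add_comm]

theorem qr_eq (hT : ZAct mu T) (c : ℤ) (H : ℕ) (g : X → ℂ) :
    Qr mu T c H s g = bavg 0 (fun _ => H) (fun i : Fin s → ℤ => bavg 0 (fun _ => H)
      (fun j => ∫ x, Del T (fun t => c * (i t - j t)) g x ∂mu)) := by
  induction s generalizing g with
  | zero =>
    rw [bavg_zero, bavg_zero]
    show ∫ x, g x ∂mu = _
    refine integral_congr_ae (Filter.Eventually.of_forall fun x => ?_)
    exact (del_zero hT _ g x).symm
  | succ s ih =>
    have hR : ∀ f : ℤ → ℂ, ∑ t ∈ Ico (0 : ℤ) (0 + (H : ℤ)), f t = ∑ i ∈ range H, f i := by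
      intro f
      refine Finset.sum_nbij' (fun t => t.toNat) (fun i => (i : ℤ)) ?_ ?_ ?_ ?_ ?_
      · intro t ht
        rw [Finset.mem_Ico] at ht
        rw [Finset.mem_range]
        omega
      · intro i hi
        rw [Finset.mem_range] at hi
        rw [Finset.mem_Ico]
        omega
      · intro t ht
        rw [Finset.mem_Ico] at ht
        show ((t.toNat : ℕ) : ℤ) = t
        omega
      · intro i hi
        show ((i : ℤ)).toNat = i
        omega
      · intro t ht
        rw [Finset.mem_Ico] at ht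
        show f t = f ((t.toNat : ℕ) : ℤ)
        congr 1
        omega
    show ((H : ℂ) ^ 2)⁻¹ * ∑ i ∈ range H, ∑ j ∈ range H,
      Qr mu T c H s (fun x => g x * conj (g (T (c * ((i : ℤ) - (j : ℤ))) x))) = _
    rw [bavg_succ]
    have h1 : ∀ z0 : ℤ, bavg (fun i : Fin s => (0 : Fin (s + 1) → ℤ) i.succ)
        (fun _ => H) (fun z => bavg 0 (fun _ => H) (fun j : Fin (s + 1) → ℤ =>
          ∫ x, Del T (fun t => c * ((Fin.cons z0 z : Fin (s + 1) → ℤ) t - j t)) g x ∂mu)) =
        (H : ℂ)⁻¹ * ∑ w0 ∈ range H, Qr mu T c H s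
          (fun x => g x * conj (g (T (c * (z0 - (w0 : ℤ))) x))) := by
      intro z0
      have h2 : ∀ z : Fin s → ℤ, bavg 0 (fun _ => H) (fun j : Fin (s + 1) → ℤ =>
          ∫ x, Del T (fun t => c * ((Fin.cons z0 z : Fin (s + 1) → ℤ) t - j t)) g x ∂mu) =
          (H : ℂ)⁻¹ * ∑ w0 ∈ range H, bavg 0 (fun _ => H) (fun w : Fin s → ℤ =>
            ∫ x, Del T (fun t => c * (z t - w t))
              (fun y => g y * conj (g (T (c * (z0 - (w0 : ℤ))) y))) x ∂mu) := by
        intro z
        rw [bavg_succ]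
        congr 1
        refine (hR _).trans (Finset.sum_congr rfl fun w0 _ => ?_)
        refine congrArg (bavg (0 : Fin s → ℤ) (fun _ => H)) (funext fun w => ?_)
        refine integral_congr_ae (Filter.Eventually.of_forall fun x => ?_)
        show Del T (fun t => c * ((Fin.cons z0 z : Fin (s + 1) → ℤ) t -
          (Fin.cons (w0 : ℤ) w : Fin (s + 1) → ℤ) t)) g x = _
        rw [← del_cons hT]
        congr 1
        funext t
        refine Fin.cases ?_ (fun t => ?_) t
        · rfl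
        · rfl
      simp only [h2]
      rw [bavg_sum]
      congr 1
      refine Finset.sum_congr rfl fun w0 _ => ?_
      exact (ih (g := fun x => g x * conj (g (T (c * (z0 - (w0 : ℤ))) x)))).symm
    have h5 := hR (fun z0 => bavg (fun i : Fin s => (0 : Fin (s + 1) → ℤ) i.succ)
        (fun _ => H) (fun z => bavg 0 (fun _ => H) (fun j : Fin (s + 1) → ℤ =>
          ∫ x, Del T (fun t => c * ((Fin.cons z0 z : Fin (s + 1) → ℤ) t - j t)) g x ∂mu)))
    refine Eq.trans ?_ (congrArg (fun y => (H : ℂ)⁻¹ * y) h5.symm)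
    simp only [h1]
    rw [← Finset.mul_sum, ← mul_assoc, ← mul_inv, sq]

end Pool.Agent.MRS
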