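import Pool.Agent.MRS.WaN2

/-!
# MRS / WaAh: elementary properties of the averages

PROOFS.  All by unfolding `Ag`, `Ah`, `Pr.E`.  `pr_abs_le`: `|∑ w Φ| ≤ ∑ w |Φ| ≤ C ∑ w`.
Measurability: finite sums and products of compositions of measurable functions
(`(τ.mp a).measurable`).  `n2_ah_le`: `n2_sum_le` and, for every `n`,
`n2 (fun x => r (τ n x) * ∏ ..) ≤ n2 (fun x => r (τ n x)) = n2 r` (`n2_mono`, `n2_comp`, the product is
bounded by one), then `∑ w = 1`.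
-/

set_option autoImplicit false

namespace Pool.Agent.MRS

open MeasureTheory

theorem pr_abs_le {Γ : Type} (ν : Pr Γ) (Φ : Γ → ℝ) {C : ℝ} (h : ∀ n ∈ ν.s, |Φ n| ≤ C) :
    |ν.E Φ| ≤ C := by
  unfold Pr.E
  calc |∑ x ∈ ν.s, ν.w x * Φ x| ≤ ∑ x ∈ ν.s, |ν.w x * Φ x| := Finset.abs_sum_le_sum_abs _ _
    _ ≤ ∑ x ∈ ν.s, ν.w x * C := by
        refine Finset.sum_le_sum fun x hx => ?_
        rw [abs_mul, abs_of_nonneg (ν.nn x)]
        exact mul_le_mul_of_nonneg_left (h x hx) (ν.nn x)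
    _ = C := by rw [← Finset.sum_mul, ν.one, one_mul]

theorem pr_const {Γ : Type} (ν : Pr Γ) (c : ℝ) : ν.E (fun _ => c) = c := by
  unfold Pr.E
  rw [← Finset.sum_mul, ν.one, one_mul]

theorem pr_congr {Γ : Type} (ν : Pr Γ) {Φ Ψ : Γ → ℝ} (h : ∀ n ∈ ν.s, Φ n = Ψ n) :
    ν.E Φ = ν.E Ψ := by
  unfold Pr.E
  exact Finset.sum_congr rfl fun x hx => by rw [h x hx]

theorem pr_add {Γ : Type} (ν : Pr Γ) (Φ Ψ : Γ → ℝ) :
    ν.E (fun n => Φ n + Ψ n) = ν.E Φ + ν.E Ψ := by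
  unfold Pr.E
  rw [← Finset.sum_add_distrib]
  exact Finset.sum_congr rfl fun x _ => by ring

theorem pr_sub {Γ : Type} (ν : Pr Γ) (Φ Ψ : Γ → ℝ) :
    ν.E (fun n => Φ n - Ψ n) = ν.E Φ - ν.E Ψ := by
  unfold Pr.E
  rw [← Finset.sum_sub_distrib]
  exact Finset.sum_congr rfl fun x _ => by ring

theorem pr_mul {Γ : Type} (ν : Pr Γ) (c : ℝ) (Φ : Γ → ℝ) :
    ν.E (fun n => c * Φ n) = c * ν.E Φ := by
  unfold Pr.E
  rw [Finset.mul_sum]
  exact Finset.sum_congr rfl fun x _ => by ring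

theorem pr_sum {Γ Ω : Type} [Fintype Ω] (ν : Pr Γ) (Φ : Ω → Γ → ℝ) :
    ν.E (fun n => ∑ o, Φ o n) = ∑ o, ν.E (Φ o) := by
  unfold Pr.E
  rw [Finset.sum_comm]
  exact Finset.sum_congr rfl fun x _ => by rw [Finset.mul_sum]

theorem bd_neg {X : Type} [MeasurableSpace X] {f : X → ℝ} (h : Bd f) : Bd (fun x => -f x) := by
  exact ⟨h.1.neg, fun x => by rw [abs_neg]; exact h.2 x⟩

theorem bd_prod {X κ : Type} [MeasurableSpace X] [Fintype κ] {f : κ → X → ℝ} (h : ∀ i, Bd (f i)) :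
    Bd (fun x => ∏ i, f i x) := by
  refine ⟨Finset.measurable_fun_prod _ fun i _ => (h i).1, fun x => ?_⟩
  rw [Finset.abs_prod]
  exact Finset.prod_le_one (fun i _ => abs_nonneg _) fun i _ => (h i).2 x

variable {Γ G : Type} [AddCommGroup Γ] [AddCommGroup G] {X : Type} [MeasurableSpace X]
  {μ : Measure X}

theorem bd_comp (τ : Act G μ) {f : X → ℝ} (h : Bd f) (a : G) : Bd (fun x => f (τ.t a x)) := by
  exact ⟨h.1.comp (τ.mp a).measurable, fun x => h.2 _⟩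

theorem meas_ag (τ : Act G μ) {ι : Type} [Fintype ι] (g : ι → Γ → G) {f : ι → X → ℝ}
    (hf : ∀ i, Measurable (f i)) (ν : Pr Γ) : Measurable (Ag τ g f ν) := by
  unfold Ag Pr.E
  exact Finset.measurable_fun_sum _ fun n _ => Measurable.const_mul
    (Finset.measurable_fun_prod _ fun i _ => (hf i).comp (τ.mp (g i n)).measurable) _

theorem bd_ag (τ : Act G μ) {ι : Type} [Fintype ι] (g : ι → Γ → G) {f : ι → X → ℝ}
    (hf : ∀ i, Bd (f i)) (ν : Pr Γ) : Bd (Ag τ g f ν) := by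
  refine ⟨meas_ag τ g (fun i => (hf i).1) ν, fun x => ?_⟩
  unfold Ag
  refine pr_abs_le ν _ fun n _ => ?_
  exact (bd_prod fun i => bd_comp τ (hf i) (g i n)).2 x

section

variable (τ : Act G μ) {κ : Type} [Fintype κ] (h0 : Γ → G) (h : κ → Γ → G)

theorem meas_ah {f0 : X → ℝ} (hf0 : Measurable f0) {f : κ → X → ℝ}
    (hf : ∀ i, Measurable (f i)) (ν : Pr Γ) : Measurable (Ah τ h0 h f0 f ν) := by
  unfold Ah Pr.E
  exact Finset.measurable_fun_sum _ fun n _ => Measurable.const_mul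
    ((hf0.comp (τ.mp (h0 n)).measurable).mul
      (Finset.measurable_fun_prod _ fun i _ => (hf i).comp (τ.mp (h i n)).measurable)) _

theorem ah_abs_le {f0 : X → ℝ} {B : ℝ} (hB : ∀ x, |f0 x| ≤ B) {f : κ → X → ℝ}
    (hf : ∀ i, Bd (f i)) (ν : Pr Γ) (x : X) : |Ah τ h0 h f0 f ν x| ≤ B := by
  unfold Ah
  refine pr_abs_le ν _ fun n _ => ?_
  rw [abs_mul]
  have h1 := (bd_prod fun i => bd_comp τ (hf i) (h i n)).2 x
  have h2 := hB (τ.t (h0 n) x)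
  calc |f0 (τ.t (h0 n) x)| * |∏ i, f i (τ.t (h i n) x)| ≤ |f0 (τ.t (h0 n) x)| * 1 :=
        mul_le_mul_of_nonneg_left h1 (abs_nonneg _)
    _ ≤ B := by rw [mul_one]; exact h2

theorem bd_ah {f0 : X → ℝ} (hf0 : Bd f0) {f : κ → X → ℝ} (hf : ∀ i, Bd (f i)) (ν : Pr Γ) :
    Bd (Ah τ h0 h f0 f ν) := by
  exact ⟨meas_ah τ h0 h hf0.1 (fun i => (hf i).1) ν, fun x => ah_abs_le τ h0 h hf0.2 hf ν x⟩

theorem ah_add (f0 f1 : X → ℝ) (f : κ → X → ℝ) (ν : Pr Γ) (x : X) :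
    Ah τ h0 h (fun y => f0 y + f1 y) f ν x = Ah τ h0 h f0 f ν x + Ah τ h0 h f1 f ν x := by
  unfold Ah
  rw [← pr_add]
  exact pr_congr ν fun n _ => by ring

theorem ah_mul (c : ℝ) (f0 : X → ℝ) (f : κ → X → ℝ) (ν : Pr Γ) (x : X) :
    Ah τ h0 h (fun y => c * f0 y) f ν x = c * Ah τ h0 h f0 f ν x := by
  unfold Ah
  rw [← pr_mul]
  exact pr_congr ν fun n _ => by ring

private lemma memLp_term {f0 : X → ℝ} (hf0 : Measurable f0) (hf2 : MemLp f0 2 μ) {f : κ → X → ℝ}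
    (hf : ∀ i, Bd (f i)) (n : Γ) :
    MemLp (fun x => f0 (τ.t (h0 n) x) * ∏ i, f i (τ.t (h i n) x)) 2 μ := by
  refine MemLp.mono (memLp_comp (τ.mp (h0 n)) hf2) ?_ ?_
  · exact ((hf0.comp (τ.mp (h0 n)).measurable).mul
      (Finset.measurable_fun_prod _ fun i _ => (hf i).1.comp (τ.mp (h i n)).measurable)).aestronglyMeasurable
  · refine Filter.Eventually.of_forall fun x => ?_
    rw [Real.norm_eq_abs, Real.norm_eq_abs, abs_mul]
    have h4 := (bd_prod fun i => bd_comp τ (hf i) (h i n)).2 x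
    calc |f0 (τ.t (h0 n) x)| * |∏ i, f i (τ.t (h i n) x)| ≤ |f0 (τ.t (h0 n) x)| * 1 :=
          mul_le_mul_of_nonneg_left h4 (abs_nonneg _)
      _ = |f0 (τ.t (h0 n) x)| := mul_one _

theorem memLp_ah {f0 : X → ℝ} (hf0 : Measurable f0) (hf2 : MemLp f0 2 μ) {f : κ → X → ℝ}
    (hf : ∀ i, Bd (f i)) (ν : Pr Γ) : MemLp (Ah τ h0 h f0 f ν) 2 μ := by
  unfold Ah Pr.E
  exact memLp_sum ν.s ν.w (fun n x => f0 (τ.t (h0 n) x) * ∏ i, f i (τ.t (h i n) x))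
    fun n _ => memLp_term τ h0 h hf0 hf2 hf n

theorem n2_ah_le {f0 : X → ℝ} (hf0 : Measurable f0) (hf2 : MemLp f0 2 μ) {f : κ → X → ℝ}
    (hf : ∀ i, Bd (f i)) (ν : Pr Γ) : n2 μ (Ah τ h0 h f0 f ν) ≤ n2 μ f0 := by
  have hm : ∀ n ∈ ν.s, MemLp (fun x => f0 (τ.t (h0 n) x) * ∏ i, f i (τ.t (h i n) x)) 2 μ :=
    fun n _ => memLp_term τ h0 h hf0 hf2 hf n
  have h1 := n2_sum_le ν.s ν.w ν.nn (fun n x => f0 (τ.t (h0 n) x) * ∏ i, f i (τ.t (h i n) x)) hm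
  have h2 : n2 μ (Ah τ h0 h f0 f ν) ≤
      ∑ n ∈ ν.s, ν.w n * n2 μ (fun x => f0 (τ.t (h0 n) x) * ∏ i, f i (τ.t (h i n) x)) := h1
  refine h2.trans ?_
  calc ∑ n ∈ ν.s, ν.w n * n2 μ (fun x => f0 (τ.t (h0 n) x) * ∏ i, f i (τ.t (h i n) x))
      ≤ ∑ n ∈ ν.s, ν.w n * n2 μ f0 := by
        refine Finset.sum_le_sum fun n _ => mul_le_mul_of_nonneg_left ?_ (ν.nn n)
        have h3 : n2 μ (fun x => f0 (τ.t (h0 n) x) * ∏ i, f i (τ.t (h i n) x)) ≤
            n2 μ (fun x => f0 (τ.t (h0 n) x)) := by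
          refine n2_mono (memLp_comp (τ.mp (h0 n)) hf2) fun x => ?_
          rw [abs_mul]
          have h4 := (bd_prod fun i => bd_comp τ (hf i) (h i n)).2 x
          calc |f0 (τ.t (h0 n) x)| * |∏ i, f i (τ.t (h i n) x)| ≤ |f0 (τ.t (h0 n) x)| * 1 :=
                mul_le_mul_of_nonneg_left h4 (abs_nonneg _)
            _ = |f0 (τ.t (h0 n) x)| := mul_one _
        exact h3.trans (n2_comp (τ.mp (h0 n)) hf0).le
    _ = n2 μ f0 := by rw [← Finset.sum_mul, ν.one, one_mul]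

end

theorem chain_shift {η : ℝ} {ν : ℕ → Pr Γ} {K : ℕ} (h : Chain η ν K) (a N : ℕ)
    (hN : a + N ≤ K) : Chain η (fun s => ν (a + s)) N := by
  intro s t hst ht
  exact h (a + s) (a + t) (by omega) (by omega)

theorem chain_mono {η η' : ℝ} (hη : η ≤ η') {ν : ℕ → Pr Γ} {K : ℕ} (h : Chain η ν K) :
    Chain η' ν K := by
  intro s t hst ht l hl Φ hΦ
  exact (h s t hst ht l hl Φ hΦ).trans hη

theorem chain_sub {η : ℝ} {ν : ℕ → Pr Γ} {N : ℕ} (h : Chain η ν N) (u : ℕ → ℕ) (K : ℕ)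
    (hu : ∀ k < K, u k < u (k + 1)) (hK : u K ≤ N) : Chain η (fun k => ν (u k)) K := by
  have key : ∀ t, t ≤ K → ∀ s, s < t → u s < u t := by
    intro t
    induction t with
    | zero => intro _ s hs; omega
    | succ t ih =>
      intro ht s hs
      have h1 := hu t (by omega)
      rcases Nat.lt_succ_iff_lt_or_eq.mp hs with h2 | h2
      · exact (ih (by omega) s h2).trans h1
      · rw [h2]; exact h1
  have hle : ∀ t, t ≤ K → u t ≤ u K := by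
    intro t ht
    rcases ht.lt_or_eq with h1 | h1
    · exact (key K le_rfl t h1).le
    · rw [h1]
  intro s t hst ht
  exact h (u s) (u t) (key t ht s hst) ((hle t ht).trans hK)

end Pool.Agent.MRS
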