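import Mathlib

/-!
# MRS / WaCnt: from existence to counting

PROOF.  Call `s < N` bad if `ε < D s (s+1)`.  If there were more than `2 K + 2` bad indices, choose
`K + 1` of them `t 0 < t 1 < ... < t K` with `t k + 2 ≤ t (k+1)` (every second element of the sorted
list of the bad indices: `Finset.orderEmbOfFin`, `t k` = the element number `2 k`).  Choose
`u K = t K` and, downwards, `u k ∈ {t k, t k + 1}` with `ε / 2 < D (u k) (u (k+1))`: possible, because
`ε < D (t k) (t k + 1) ≤ D (t k) (u (k+1)) + D (u (k+1)) (t k + 1)`.  Then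
`u k ≤ t k + 1 < t (k+1) ≤ u (k+1)` and `u K ≤ N`, against `hK`.
-/

set_option autoImplicit false

namespace Pool.Agent.MRS

theorem cnt (D : ℕ → ℕ → ℝ) (hs : ∀ a b, D a b = D b a) (ht : ∀ a b c, D a c ≤ D a b + D b c)
    (K N : ℕ) (ε : ℝ) (hK : ∀ u : ℕ → ℕ, (∀ k < K, u k < u (k + 1)) → u K ≤ N →
      ∃ k < K, D (u k) (u (k + 1)) ≤ ε / 2) :
    ((Finset.range N).filter fun s => ε < D s (s + 1)).card ≤ 2 * K + 2 := by
  by_contra hcon
  push_neg at hcon
  set B := (Finset.range N).filter fun s => ε < D s (s + 1) with hB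
  have hcard : 2 * K + 2 < B.card := hcon
  let e := B.orderEmbOfFin rfl
  have hbd : ∀ k : ℕ, k ≤ 2 * K + 2 → k < B.card := fun k hk => by omega
  let a : ℕ → ℕ := fun k => if h : k ≤ 2 * K + 2 then e ⟨k, hbd k h⟩ else 0
  have hae : ∀ (k : ℕ) (h : k ≤ 2 * K + 2), a k = e ⟨k, hbd k h⟩ := fun k h => by simp [a, h]
  have hamem : ∀ k, k ≤ 2 * K + 2 → a k ∈ B := by
    intro k h
    rw [hae k h]
    exact Finset.orderEmbOfFin_mem B rfl _
  have halt : ∀ k, k + 1 ≤ 2 * K + 2 → a k < a (k + 1) := by
    intro k h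
    rw [hae k (by omega), hae (k + 1) h]
    exact (e.lt_iff_lt).2 (by simp [Fin.lt_def])
  let t : ℕ → ℕ := fun k => a (2 * k)
  have htN : ∀ k ≤ K, t k < N := by
    intro k hk
    have := hamem (2 * k) (by omega)
    rw [hB, Finset.mem_filter, Finset.mem_range] at this
    exact this.1
  have htD : ∀ k ≤ K, ε < D (t k) (t k + 1) := by
    intro k hk
    have := hamem (2 * k) (by omega)
    rw [hB, Finset.mem_filter, Finset.mem_range] at this
    exact this.2
  have ht2 : ∀ k < K, t k + 2 ≤ t (k + 1) := by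
    intro k hk
    have h1 := halt (2 * k) (by omega)
    have h2 := halt (2 * k + 1) (by omega)
    have h3 : a (2 * k + 1 + 1) = t (k + 1) := by
      simp only [t]
      congr 1
    simp only [t] at *
    omega
  -- the choice, downwards
  let v : ℕ → ℕ := fun j => Nat.rec (t K)
    (fun j r => if ε / 2 < D (t (K - (j + 1))) r then t (K - (j + 1)) else t (K - (j + 1)) + 1) j
  have hv0 : v 0 = t K := rfl
  have hvs : ∀ j, v (j + 1) = if ε / 2 < D (t (K - (j + 1))) (v j) then t (K - (j + 1))
      else t (K - (j + 1)) + 1 := fun j => rfl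
  have hvr : ∀ j, t (K - j) ≤ v j ∧ v j ≤ t (K - j) + 1 := by
    intro j
    cases j with
    | zero => simp [hv0]
    | succ j =>
      rw [hvs]
      split_ifs <;> omega
  have hus : ∀ k < K, v (K - k) = if ε / 2 < D (t k) (v (K - (k + 1))) then t k else t k + 1 := by
    intro k hk
    have h1 : K - k = (K - (k + 1)) + 1 := by omega
    have h2 : K - (K - (k + 1) + 1) = k := by omega
    rw [h1, hvs, h2]
  have hlt : ∀ k < K, v (K - k) < v (K - (k + 1)) := by
    intro k hk
    have h1 := (hvr (K - k)).2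
    have h2 := (hvr (K - (k + 1))).1
    have h3 : K - (K - k) = k := by omega
    have h4 : K - (K - (k + 1)) = k + 1 := by omega
    rw [h3] at h1
    rw [h4] at h2
    have h5 := ht2 k hk
    omega
  have hbig : ∀ k < K, ε / 2 < D (v (K - k)) (v (K - (k + 1))) := by
    intro k hk
    rw [hus k hk]
    split_ifs with hc
    · exact hc
    · have h1 := htD k hk.le
      have h2 := ht (t k) (v (K - (k + 1))) (t k + 1)
      have h3 := hs (v (K - (k + 1))) (t k + 1)
      push_neg at hc
      linarith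
  obtain ⟨k, hk, hk2⟩ := hK (fun k => v (K - k)) hlt (by
    have h1 := (hvr (K - K)).2
    have h2 := htN K le_rfl
    simp only [Nat.sub_self, Nat.sub_zero] at h1 ⊢
    simp only [hv0] at *
    omega)
  exact absurd (hbig k hk) (not_lt.2 hk2)

end Pool.Agent.MRS
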