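import Pool.Agent.MRS.WaAh
import Pool.Agent.MRS.WaCnt

/-!
# MRS / WaAvg: counting form and averaged form of stability

PROOFS.  `stab_cnt`: let `K, η` be the numbers of `Stab` for `ε / 2`.  Apply `cnt` to
`D a b = n2 (Ag (ν a) - Ag (ν b))` (symmetric by `n2_sub_comm`, triangle by `n2_sub_le`, all functions
are bounded); for a strictly increasing `u` use `chain_sub` and `Stab` for `fun k => ν (u k)`.
`avgStab`: let `K, η` be the numbers of `stab_cnt` for `ε / 2` and `N > 4 K / ε`, `N > 0`.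
For every `o` at most `K` of the `s < N` are bad (`ε/2 < n2 ..`).  `∑ s < N, ∑ o, w o [bad] ≤ K`, so
for some `s < N` we have `∑ o, w o [bad o s] ≤ K / N ≤ ε / 4`; for this `s` the sum is at most
`∑ w (ε/2) + ∑ w [bad] 2 ≤ ε` (`n2 (..) ≤ 2`).
-/

set_option autoImplicit false

namespace Pool.Agent.MRS

open MeasureTheory

theorem stab_cnt {Γ G : Type} [AddCommGroup Γ] [AddCommGroup G] {d : ℕ} (h : Stab Γ G d) :
    ∀ ε : ℝ, 0 < ε → ∃ (K : ℕ) (η : ℝ), 0 < η ∧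
    ∀ (X : Type) (_ : MeasurableSpace X) (μ : Measure X) (_ : IsProbabilityMeasure μ)
      (τ : Act G μ) (S : Set (Γ → G)), Cx d S → ∀ (ι : Type) (_ : Fintype ι) (g : ι → Γ → G),
      (∀ i, g i ∈ S) → ∀ f : ι → X → ℝ, (∀ i, Bd (f i)) → ∀ (ν : ℕ → Pr Γ) (N : ℕ), Chain η ν N →
      ((Finset.range N).filter fun s =>
        ε < n2 μ (fun x => Ag τ g f (ν s) x - Ag τ g f (ν (s + 1)) x)).card ≤ K := by
  intro ε hε
  obtain ⟨K, η, hη, H⟩ := h (ε / 2) (half_pos hε)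
  refine ⟨2 * K + 2, η, hη, ?_⟩
  intro X mX μ hμ τ S hS ι hι g hg f hf ν N hν
  refine cnt (fun a b => n2 μ (fun x => Ag τ g f (ν a) x - Ag τ g f (ν b) x)) ?_ ?_ K N ε ?_
  · intro a b
    exact n2_sub_comm _ _
  · intro a b c
    have hm : ∀ k, MemLp (Ag τ g f (ν k)) 2 μ := fun k =>
      memLp_of_bound (bd_ag τ g hf (ν k)).1 (bd_ag τ g hf (ν k)).2
    exact n2_sub_le (hm a) (hm b) (hm c)
  · intro u hu hK
    obtain ⟨k, hk, hle⟩ := H X mX μ hμ τ S hS ι hι g hg f hf (fun k => ν (u k))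
      (chain_sub hν u K hu hK)
    exact ⟨k, hk, hle⟩

theorem avgStab {Γ G : Type} [AddCommGroup Γ] [AddCommGroup G] {d : ℕ} (h : Stab Γ G d) :
    ∀ ε : ℝ, 0 < ε → ∃ (N : ℕ) (η : ℝ), 0 < η ∧
    ∀ (X : Type) (_ : MeasurableSpace X) (μ : Measure X) (_ : IsProbabilityMeasure μ)
      (τ : Act G μ) (Ω : Type) (_ : Fintype Ω) (w : Ω → ℝ), (∀ o, 0 ≤ w o) → ∑ o, w o = 1 →
      ∀ S : Ω → Set (Γ → G), (∀ o, Cx d (S o)) →
      ∀ (ι : Type) (_ : Fintype ι) (g : Ω → ι → Γ → G), (∀ o i, g o i ∈ S o) →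
      ∀ f : Ω → ι → X → ℝ, (∀ o i, Bd (f o i)) → ∀ ν : ℕ → Pr Γ, Chain η ν N →
      ∃ s < N, ∑ o, w o *
        n2 μ (fun x => Ag τ (g o) (f o) (ν s) x - Ag τ (g o) (f o) (ν (s + 1)) x) ≤ ε := by
  classical
  intro ε hε
  obtain ⟨K, η, hη, H⟩ := stab_cnt h (ε / 2) (half_pos hε)
  obtain ⟨N0, hN0⟩ := exists_nat_gt (4 * (K : ℝ) / ε)
  refine ⟨N0 + 1, η, hη, ?_⟩
  have hKN : (K : ℝ) ≤ ((N0 + 1 : ℕ) : ℝ) * (ε / 4) := by
    rw [div_lt_iff₀ hε] at hN0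
    push_cast
    nlinarith
  intro X mX μ hμ τ Ω hΩ w hw hw1 S hS ι hι g hg f hf ν hν
  have hcnt : ∀ o, ((Finset.range (N0 + 1)).filter fun s =>
      ε / 2 < n2 μ (fun x => Ag τ (g o) (f o) (ν s) x - Ag τ (g o) (f o) (ν (s + 1)) x)).card ≤ K :=
    fun o => H X mX μ hμ τ (S o) (hS o) ι hι (g o) (hg o) (f o) (hf o) ν (N0 + 1) hν
  have hsum : ∑ s ∈ Finset.range (N0 + 1), ∑ o, w o * (if ε / 2 < n2 μ (fun x =>
      Ag τ (g o) (f o) (ν s) x - Ag τ (g o) (f o) (ν (s + 1)) x) then (1 : ℝ) else 0) ≤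
      ∑ s ∈ Finset.range (N0 + 1), ε / 4 := by
    rw [Finset.sum_comm]
    have e1 : ∀ o, ∑ s ∈ Finset.range (N0 + 1), w o * (if ε / 2 < n2 μ (fun x =>
        Ag τ (g o) (f o) (ν s) x - Ag τ (g o) (f o) (ν (s + 1)) x) then (1 : ℝ) else 0) ≤
        w o * K := by
      intro o
      rw [← Finset.mul_sum]
      refine mul_le_mul_of_nonneg_left ?_ (hw o)
      rw [← Finset.sum_filter, Finset.sum_const, nsmul_eq_mul, mul_one]
      exact_mod_cast hcnt o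
    refine (Finset.sum_le_sum fun o _ => e1 o).trans ?_
    rw [← Finset.sum_mul, hw1, one_mul, Finset.sum_const, Finset.card_range, nsmul_eq_mul]
    exact hKN
  obtain ⟨s, hs, hle⟩ := Finset.exists_le_of_sum_le (Finset.nonempty_range_iff.2 (Nat.succ_ne_zero N0)) hsum
  refine ⟨s, Finset.mem_range.1 hs, ?_⟩
  have h2 : ∀ o, w o * n2 μ (fun x =>
      Ag τ (g o) (f o) (ν s) x - Ag τ (g o) (f o) (ν (s + 1)) x) ≤
      w o * (ε / 2) + 2 * (w o * (if ε / 2 < n2 μ (fun x =>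
        Ag τ (g o) (f o) (ν s) x - Ag τ (g o) (f o) (ν (s + 1)) x) then (1 : ℝ) else 0)) := by
    intro o
    have hb : n2 μ (fun x => Ag τ (g o) (f o) (ν s) x - Ag τ (g o) (f o) (ν (s + 1)) x) ≤ 2 := by
      refine n2_le_of_bound (by norm_num) ?_
      intro x
      have a1 := (bd_ag τ (g o) (hf o) (ν s)).2 x
      have a2 := (bd_ag τ (g o) (hf o) (ν (s + 1))).2 x
      rw [abs_le] at a1 a2 ⊢
      constructor <;> linarith [a1.1, a1.2, a2.1, a2.2]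
    have hwo := hw o
    split_ifs with hc
    · nlinarith
    · nlinarith [not_lt.1 hc]
  refine (Finset.sum_le_sum fun o _ => h2 o).trans ?_
  rw [Finset.sum_add_distrib, ← Finset.sum_mul, ← Finset.mul_sum, hw1]
  linarith

end Pool.Agent.MRS
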