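import Pool.Agent.MRS.WaAh

/-!
# MRS / WaCorr: large averages correlate with reducible functions

PROOF.  `A = Ah τ h0 h v f ν`, `|A| ≤ B`, `b0 = A / B` is `Bd`.  Then
`∫ A² = B ∫ b0 A = B ∑ n, ν n ∫ b0(x) v(τ(h0 n) x) ∏ f_i(τ(h_i n) x)`; in the `n`-th integral replace
`x` by `τ(-h0 n) x` (measure preserving): it is `∫ v(x) b0(τ(-h0 n) x) ∏ f_i(τ(h_i n - h0 n) x)`
(`τ.add`, `τ.zero`).  So `∫ A² = B ∫ v σ` with
`σ(x) = ν.E (fun n => b0(τ(-h0 n) x) * ∏ f_i(τ(h_i n - h0 n) x))`, and `∫ A² = n2 A ^ 2`.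
`RC τ h h0 L δ σ`: `Bd σ` is clear; take `Ω = ν.s` (subtype), weights `ν.w`, `m n = n`,
`b0 n = b0`, `b n i = f i`.  For `l ∈ L` put `Φ n = b0(τ(h0 l - h0 n) x) ∏ f_i(τ(h0 l - h0 n + h_i n) x)`,
`|Φ| ≤ 1`; `σ(τ(h0 l) x) = ν.E Φ`, and the mixture is `ν.E (fun n => Φ (n + l))`
(`l + n = n + l`; `Finset.sum_coe_sort`).  The difference is at most `η ≤ δ` by `Inv`.
-/

set_option autoImplicit false

namespace Pool.Agent.MRS

open MeasureTheory

private theorem corr_shift {G : Type} [AddCommGroup G] {X : Type} [MeasurableSpace X]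
    {μ : Measure X} (τ : Act G μ) (a : G) {g : X → ℝ} (hg : Measurable g) :
    ∫ x, g x ∂μ = ∫ x, g (τ.t a x) ∂μ := by
  have h1 := integral_map (μ := μ) (τ.mp a).measurable.aemeasurable
    (f := g) hg.aestronglyMeasurable
  rw [(τ.mp a).map_eq] at h1
  exact h1

theorem corr {Γ G : Type} [AddCommGroup Γ] [AddCommGroup G] {X : Type} [MeasurableSpace X]
    {μ : Measure X} [IsProbabilityMeasure μ] (τ : Act G μ) {κ : Type} [Fintype κ]
    (h : κ → Γ → G) (h0 : Γ → G) {f : κ → X → ℝ} (hf : ∀ i, Bd (f i)) {v : X → ℝ}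
    (hv : Measurable v) {B : ℝ} (hB : 0 < B) (hvB : ∀ x, |v x| ≤ B) {L : Set Γ} {δ η : ℝ}
    (hηδ : η ≤ δ) {ν : Pr Γ} (hν : Inv η ν L) {θ : ℝ}
    (hθ : ∀ σ, RC τ h h0 L δ σ → |∫ x, v x * σ x ∂μ| ≤ θ) :
    n2 μ (Ah τ h0 h v f ν) ^ 2 ≤ B * θ := by
  classical
  set A : X → ℝ := Ah τ h0 h v f ν with hA
  have hAm : Measurable A := meas_ah τ h0 h hv (fun i => (hf i).1) ν
  have hAB : ∀ x, |A x| ≤ B := fun x => ah_abs_le τ h0 h hvB hf ν x
  set b0 : X → ℝ := fun x => A x / B with hb0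
  have hb0B : Bd b0 := by
    refine ⟨hAm.div_const B, fun x => ?_⟩
    show |A x / B| ≤ 1
    rw [abs_div, abs_of_pos hB, div_le_one hB]
    exact hAB x
  have hbm := hb0B.1
  set σ : X → ℝ := fun x => ν.E (fun n => b0 (τ.t (-h0 n) x) * ∏ i, f i (τ.t (h i n - h0 n) x))
    with hσ
  have hterm : ∀ n, Bd (fun x => b0 (τ.t (-h0 n) x) * ∏ i, f i (τ.t (h i n - h0 n) x)) := by
    intro n
    have h1 := bd_comp τ hb0B (-h0 n)
    have h2 := bd_prod fun i => bd_comp τ (hf i) (h i n - h0 n)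
    refine ⟨h1.1.mul h2.1, fun x => ?_⟩
    rw [abs_mul]
    exact mul_le_one₀ (h1.2 x) (abs_nonneg _) (h2.2 x)
  have hσB : Bd σ := by
    refine ⟨?_, fun x => ?_⟩
    · show Measurable fun x => ν.E _
      unfold Pr.E
      exact Finset.measurable_fun_sum _ fun n _ => (hterm n).1.const_mul _
    · exact pr_abs_le ν _ fun n _ => (hterm n).2 x
  -- the integral identity
  have hint : ∀ g : X → ℝ, Measurable g → ∀ C : ℝ, (∀ x, |g x| ≤ C) → Integrable g μ := by
    intro g hg C hC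
    exact Integrable.of_bound hg.aestronglyMeasurable C
      (Filter.Eventually.of_forall fun x => by rw [Real.norm_eq_abs]; exact hC x)
  have hP : ∀ (g : κ → G), Bd (fun x => ∏ i, f i (τ.t (g i) x)) := fun g =>
    bd_prod fun i => bd_comp τ (hf i) (g i)
  have hmain : ∫ x, A x ^ 2 ∂μ = B * ∫ x, v x * σ x ∂μ := by
    have e1 : (fun x => A x ^ 2) = fun x => B * (b0 x * A x) := by
      funext x
      show A x ^ 2 = B * (A x / B * A x)
      field_simp
    rw [e1, integral_const_mul]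
    congr 1
    have e2 : (fun x => b0 x * A x) = fun x => ∑ n ∈ ν.s, ν.w n *
        (b0 x * (v (τ.t (h0 n) x) * ∏ i, f i (τ.t (h i n) x))) := by
      funext x
      show b0 x * Ah τ h0 h v f ν x = _
      unfold Ah Pr.E
      rw [Finset.mul_sum]
      exact Finset.sum_congr rfl fun n _ => by ring
    have e3 : (fun x => v x * σ x) = fun x => ∑ n ∈ ν.s, ν.w n *
        (v x * (b0 (τ.t (-h0 n) x) * ∏ i, f i (τ.t (h i n - h0 n) x))) := by
      funext x
      show v x * ν.E _ = _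
      unfold Pr.E
      rw [Finset.mul_sum]
      exact Finset.sum_congr rfl fun n _ => by ring
    have m1 : ∀ n, Measurable fun x => b0 x * (v (τ.t (h0 n) x) * ∏ i, f i (τ.t (h i n) x)) :=
      fun n => hbm.mul ((hv.comp (τ.mp (h0 n)).measurable).mul (hP (fun i => h i n)).1)
    have i1 : ∀ n, Integrable (fun x => b0 x * (v (τ.t (h0 n) x) * ∏ i, f i (τ.t (h i n) x))) μ := by
      intro n
      refine hint _ (m1 n) B fun x => ?_
      rw [abs_mul, abs_mul]
      have q1 := hb0B.2 x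
      have q2 := hvB (τ.t (h0 n) x)
      have q3 := (hP (fun i => h i n)).2 x
      calc |b0 x| * (|v (τ.t (h0 n) x)| * |∏ i, f i (τ.t (h i n) x)|)
          ≤ 1 * (B * 1) := by
            refine mul_le_mul q1 (mul_le_mul q2 q3 (abs_nonneg _) hB.le) ?_ zero_le_one
            exact mul_nonneg (abs_nonneg _) (abs_nonneg _)
        _ = B := by ring
    have i2 : ∀ n, Integrable
        (fun x => v x * (b0 (τ.t (-h0 n) x) * ∏ i, f i (τ.t (h i n - h0 n) x))) μ := by
      intro n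
      refine hint _ (hv.mul (hterm n).1) B fun x => ?_
      rw [abs_mul]
      calc |v x| * |b0 (τ.t (-h0 n) x) * ∏ i, f i (τ.t (h i n - h0 n) x)| ≤ B * 1 :=
            mul_le_mul (hvB x) ((hterm n).2 x) (abs_nonneg _) hB.le
        _ = B := mul_one _
    rw [e2, e3, integral_finsetSum _ fun n _ => (i1 n).const_mul _,
      integral_finsetSum _ fun n _ => (i2 n).const_mul _]
    refine Finset.sum_congr rfl fun n _ => ?_
    rw [integral_const_mul, integral_const_mul]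
    congr 1
    rw [corr_shift τ (-h0 n) (m1 n)]
    refine integral_congr_ae (Filter.Eventually.of_forall fun x => ?_)
    show b0 (τ.t (-h0 n) x) * (v (τ.t (h0 n) (τ.t (-h0 n) x)) *
      ∏ i, f i (τ.t (h i n) (τ.t (-h0 n) x))) = _
    rw [← τ.add, add_neg_cancel, τ.zero]
    have e4 : ∀ i, τ.t (h i n) (τ.t (-h0 n) x) = τ.t (h i n - h0 n) x := by
      intro i
      rw [← τ.add, sub_eq_add_neg]
    simp only [e4]
    ring
  -- reducibility
  have hRC : RC τ h h0 L δ σ := by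
    refine ⟨hσB, {n // n ∈ ν.s}, inferInstance, fun o => ν.w o.1, fun o => o.1, fun _ => b0,
      fun _ i => f i, fun o => ν.nn o.1, ?_, fun _ => hb0B, fun _ i => hf i, ?_⟩
    · rw [Finset.sum_coe_sort ν.s (fun n => ν.w n)]
      exact ν.one
    · intro l hl x
      set Φ : Γ → ℝ := fun n => b0 (τ.t (h0 l - h0 n) x) *
        ∏ i, f i (τ.t (h0 l - h0 n + h i n) x) with hΦ
      have hΦ1 : ∀ n, |Φ n| ≤ 1 := by
        intro n
        show |b0 (τ.t (h0 l - h0 n) x) * ∏ i, f i (τ.t (h0 l - h0 n + h i n) x)| ≤ 1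
        rw [abs_mul]
        exact mul_le_one₀ (hb0B.2 _) (abs_nonneg _) ((hP (fun i => h0 l - h0 n + h i n)).2 x)
      have e1 : σ (τ.t (h0 l) x) = ν.E Φ := by
        show ν.E _ = ν.E Φ
        refine pr_congr ν fun n _ => ?_
        show b0 (τ.t (-h0 n) (τ.t (h0 l) x)) * ∏ i, f i (τ.t (h i n - h0 n) (τ.t (h0 l) x)) =
          b0 (τ.t (h0 l - h0 n) x) * ∏ i, f i (τ.t (h0 l - h0 n + h i n) x)
        have e2 : τ.t (-h0 n) (τ.t (h0 l) x) = τ.t (h0 l - h0 n) x := by
          rw [← τ.add]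
          congr 1
          abel
        have e3 : ∀ i, τ.t (h i n - h0 n) (τ.t (h0 l) x) = τ.t (h0 l - h0 n + h i n) x := by
          intro i
          rw [← τ.add]
          congr 1
          abel
        rw [e2]
        simp only [e3]
      have e2 : ∑ o : {n // n ∈ ν.s}, ν.w o.1 * (b0 (τ.t (h0 l - h0 (l + o.1)) x) *
          ∏ i, f i (τ.t (h0 l - h0 (l + o.1) + h i (l + o.1)) x)) =
          ν.E (fun n => Φ (n + l)) := by
        rw [Finset.sum_coe_sort ν.s (fun n => ν.w n * (b0 (τ.t (h0 l - h0 (l + n)) x) *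
          ∏ i, f i (τ.t (h0 l - h0 (l + n) + h i (l + n)) x)))]
        unfold Pr.E
        refine Finset.sum_congr rfl fun n _ => ?_
        show _ = ν.w n * (b0 (τ.t (h0 l - h0 (n + l)) x) *
          ∏ i, f i (τ.t (h0 l - h0 (n + l) + h i (n + l)) x))
        rw [add_comm n l]
      rw [e2, e1, abs_sub_comm]
      exact (hν l hl Φ hΦ1).trans hηδ
  have h1 := hθ σ hRC
  have h2 : n2 μ A ^ 2 = B * ∫ x, v x * σ x ∂μ := by
    rw [n2_sq, hmain]
  rw [h2]
  exact mul_le_mul_of_nonneg_left ((le_abs_self _).trans h1) hB.le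

end Pool.Agent.MRS
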