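import Mathlib

/-!
# MRS / WaHs: an energy decrement argument in a Hilbert space

PROOF.  For every `i` let `b i ∈ D i` be the nearest point to `f`
(`exists_norm_eq_iInf_of_complete_convex`), so `⟪f - b i, g - b i⟫ ≤ 0` for `g ∈ D i`
(`norm_eq_iInf_iff_real_inner_le_zero`).  Put `e i = ‖f - b i‖ ^ 2`.  `e 0 ≤ ‖f‖ ^ 2 ≤ 1` (`0 ∈ D 0`),
`e i ≥ 0`.  So `e i - e (i + 1) ≤ 1 / R` for some `i < R` (otherwise telescoping gives
`e 0 - e R > 1`).  As `b i ∈ D (i + 1)`: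
`e i = ‖(f - b (i+1)) - (b i - b (i+1))‖ ^ 2 = e (i+1) - 2 ⟪f - b (i+1), b i - b (i+1)⟫ + ‖b i - b (i+1)‖ ^ 2
≥ e (i+1) + ‖b (i+1) - b i‖ ^ 2`.  Take `a = b i`, `b = b (i+1)`.
-/

set_option autoImplicit false

namespace Pool.Agent.MRS

open scoped InnerProductSpace

theorem hs {H : Type*} [NormedAddCommGroup H] [InnerProductSpace ℝ H] [CompleteSpace H] (R : ℕ)
    (hR : 0 < R) (D : ℕ → Set H) (hc : ∀ i, IsClosed (D i)) (hv : ∀ i, Convex ℝ (D i))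
    (h0 : ∀ i, (0 : H) ∈ D i) (hm : ∀ i, D i ⊆ D (i + 1)) (f : H) (hf : ‖f‖ ≤ 1) :
    ∃ i < R, ∃ a ∈ D i, ∃ b ∈ D (i + 1), ‖b - a‖ ^ 2 ≤ 1 / (R : ℝ) ∧
      ∀ g ∈ D (i + 1), ⟪f - b, g - b⟫_ℝ ≤ 0 := by
  have key : ∀ i, ∃ v ∈ D i, ∀ w ∈ D i, ⟪f - v, w - v⟫_ℝ ≤ 0 := by
    intro i
    obtain ⟨v, hvD, hv1⟩ := exists_norm_eq_iInf_of_complete_convex ⟨0, h0 i⟩ (hc i).isComplete
      (hv i) f
    exact ⟨v, hvD, (norm_eq_iInf_iff_real_inner_le_zero (hv i) hvD).1 hv1⟩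
  choose b hb hbi using key
  have step : ∀ i, ‖f - b (i + 1)‖ ^ 2 + ‖b (i + 1) - b i‖ ^ 2 ≤ ‖f - b i‖ ^ 2 := by
    intro i
    have h1 := hbi (i + 1) (b i) (hm i (hb i))
    have h2 : f - b i = (f - b (i + 1)) - (b i - b (i + 1)) := by abel
    have h3 := norm_sub_sq_real (f - b (i + 1)) (b i - b (i + 1))
    rw [← h2] at h3
    have h4 : ‖b (i + 1) - b i‖ = ‖b i - b (i + 1)‖ := norm_sub_rev _ _
    rw [h4]
    linarith
  have hsum : ∀ n : ℕ, ∑ i ∈ Finset.range n, ‖b (i + 1) - b i‖ ^ 2 ≤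
      ‖f - b 0‖ ^ 2 - ‖f - b n‖ ^ 2 := by
    intro n
    induction n with
    | zero => simp
    | succ n ih =>
      rw [Finset.sum_range_succ]
      have := step n
      linarith
  have hb0 : ‖f - b 0‖ ^ 2 ≤ 1 := by
    have h1 := hbi 0 0 (h0 0)
    have h3 := norm_sub_sq_real (f - b 0) (0 - b 0)
    have h2 : f - b 0 - (0 - b 0) = f := by abel
    rw [h2] at h3
    have h5 : 0 ≤ ‖(0 : H) - b 0‖ ^ 2 := by positivity
    have h6 : ‖f‖ ^ 2 ≤ 1 := by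
      have := norm_nonneg f
      nlinarith
    linarith
  have hRpos : (0 : ℝ) < R := by exact_mod_cast hR
  obtain ⟨i, hi, hle⟩ : ∃ i ∈ Finset.range R, ‖b (i + 1) - b i‖ ^ 2 ≤ 1 / (R : ℝ) := by
    by_contra hcon
    push Not at hcon
    have hlt : ∑ _i ∈ Finset.range R, (1 / (R : ℝ)) <
        ∑ i ∈ Finset.range R, ‖b (i + 1) - b i‖ ^ 2 :=
      Finset.sum_lt_sum_of_nonempty (Finset.nonempty_range_iff.2 hR.ne') hcon
    have h1 : ∑ _i ∈ Finset.range R, (1 / (R : ℝ)) = 1 := by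
      rw [Finset.sum_const, Finset.card_range, nsmul_eq_mul]
      field_simp
    have h2 := hsum R
    have h3 : 0 ≤ ‖f - b R‖ ^ 2 := by positivity
    linarith
  exact ⟨i, Finset.mem_range.1 hi, b i, hb i, b (i + 1), hb (i + 1), hle, hbi (i + 1)⟩

end Pool.Agent.MRS
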