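import Pool.Agent.MRS.WaAh
import Pool.Agent.MRS.WaHs

/-!
# MRS / WaDec: decomposition in a structured, a small and an orthogonal part

PROOF.  `H = Lp ℝ 2 μ`; every `Bd` function `F` has the class `(memLp_of_bound ..).toLp`.
`D' i` = closure of the set of the classes of the functions `C i * F`, `F ∈ D i`: closed, convex
(`hcv`, `Convex.closure`), contains `0`, `D' i ⊆ D' (i+1)` (`C i F = C (i+1) ((C i / C (i+1)) F)`,
and `t F = t F + (1-t) 0 ∈ D i ⊆ D (i+1)`).  `hs` for the class `f'` of `f` gives `i`, `a ∈ D' i`,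
`b ∈ D' (i+1)` with `‖b - a‖ ≤ R^(-1/2) ≤ δ/2`.  Choose `F ∈ D i` with `‖[C i F] - a‖ ≤ δ/2`.  Let `r0` be a
measurable representative of `b - [C i F]` (`Lp.stronglyMeasurable`), so `n2 r0 = ‖b - [C i F]‖ ≤ δ`,
and `v0 x = f x - C i * F x - r0 x` (everywhere); the class of `v0` is `f' - b`.
For `σ ∈ D (i+1)`: with `g = [± C (i+1) σ]`, `± C (i+1) ⟪f' - b, σ⟫ ≤ ⟪f' - b, b⟫ =
⟪f', b⟫ - ‖b‖² ≤ ‖b‖ - ‖b‖² ≤ 1`, so `|∫ v0 σ| ≤ 1 / C (i+1)`.
TRUNCATION.  `E = {|r0| ≤ C i}`, `v = v0 1_E`, `r = r0 + v0 1_{E^c}`.  `|v| ≤ 1 + C i + C i ≤ 3 C i`.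
Outside of `E`: `|v0| ≤ 1 + C i + |r0| ≤ 3 |r0|`, so `|r| ≤ 4 |r0|` everywhere, `n2 r ≤ 4 δ`.
`|∫ v σ| ≤ |∫ v0 σ| + ∫_{E^c} 3 |r0| ≤ 1 / C (i+1) + 3 ∫ r0² / C i` (outside of `E`
`|r0| ≤ r0² / C i`).
-/

set_option autoImplicit false

namespace Pool.Agent.MRS

open MeasureTheory

open scoped InnerProductSpace

section

variable {X : Type} [MeasurableSpace X] {μ : Measure X}

private theorem inner_toLp {F G : X → ℝ} (hF : MemLp F 2 μ) (hG : MemLp G 2 μ) :
    ⟪hF.toLp F, hG.toLp G⟫_ℝ = ∫ x, F x * G x ∂μ := by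
  rw [L2.inner_def]
  refine integral_congr_ae ?_
  filter_upwards [hF.coeFn_toLp, hG.coeFn_toLp] with x h1 h2
  rw [h1, h2]
  simp [mul_comm]

private theorem norm_toLp {F : X → ℝ} (hF : MemLp F 2 μ) : ‖hF.toLp F‖ = n2 μ F := by
  have h1 : ‖hF.toLp F‖ ^ 2 = n2 μ F ^ 2 := by
    rw [← real_inner_self_eq_norm_sq, inner_toLp, n2_sq]
    exact integral_congr_ae (ae_of_all _ fun x => (sq (F x)).symm)
  exact (sq_eq_sq₀ (norm_nonneg _) (n2_nonneg _)).1 h1

/-- the classes of the functions `c F`, `F ∈ D` -/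
private def Ec (μ : Measure X) (c : ℝ) (D : Set (X → ℝ)) : Set (Lp ℝ 2 μ) :=
  {a | ∃ F ∈ D, ∃ h : MemLp (fun x => c * F x) 2 μ, a = h.toLp (fun x => c * F x)}

private theorem memLp_bd [IsProbabilityMeasure μ] {F : X → ℝ} (h : Bd F) (c : ℝ) :
    MemLp (fun x => c * F x) 2 μ :=
  memLp_of_bound (h.1.const_mul c) (C := |c|) fun x => by
    rw [abs_mul]
    exact mul_le_of_le_one_right (abs_nonneg c) (h.2 x)

private theorem ec_convex [IsProbabilityMeasure μ] {c : ℝ} {D : Set (X → ℝ)}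
    (hB : ∀ F ∈ D, Bd F) (hcv : ∀ F ∈ D, ∀ F' ∈ D, ∀ a b : ℝ, 0 ≤ a → 0 ≤ b → a + b = 1 →
      (fun x => a * F x + b * F' x) ∈ D) : Convex ℝ (Ec μ c D) := by
  rintro _ ⟨F, hF, h, rfl⟩ _ ⟨F', hF', h', rfl⟩ a b ha hb hab
  have h1 := hcv F hF F' hF' a b ha hb hab
  refine ⟨_, h1, memLp_bd (hB _ h1) c, ?_⟩
  rw [← MemLp.toLp_const_smul, ← MemLp.toLp_const_smul, ← MemLp.toLp_add]
  refine MemLp.toLp_congr _ _ (ae_of_all _ fun x => ?_)
  show a * (c * F x) + b * (c * F' x) = c * (a * F x + b * F' x)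
  ring

private theorem ec_zero [IsProbabilityMeasure μ] {c : ℝ} {D : Set (X → ℝ)}
    (h0 : (fun _ => (0 : ℝ)) ∈ D) (hB : ∀ F ∈ D, Bd F) : (0 : Lp ℝ 2 μ) ∈ Ec μ c D := by
  refine ⟨_, h0, memLp_bd (hB _ h0) c, ?_⟩
  have h1 : (memLp_bd (μ := μ) (hB _ h0) c).toLp (fun _ => c * (0 : ℝ)) =
      (MemLp.zero : MemLp (0 : X → ℝ) 2 μ).toLp 0 :=
    MemLp.toLp_congr _ _ (ae_of_all _ fun x => mul_zero c)
  rw [h1]
  exact (MemLp.toLp_zero _).symm

private theorem ec_mono [IsProbabilityMeasure μ] {c c' : ℝ} (hc : 1 ≤ c) (hcc : c ≤ c')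
    {D D' : Set (X → ℝ)} (hB : ∀ F ∈ D', Bd F) (h0 : (fun _ => (0 : ℝ)) ∈ D)
    (hcv : ∀ F ∈ D, ∀ F' ∈ D, ∀ a b : ℝ, 0 ≤ a → 0 ≤ b → a + b = 1 →
      (fun x => a * F x + b * F' x) ∈ D) (hm : D ⊆ D') : Ec μ c D ⊆ Ec μ c' D' := by
  rintro _ ⟨F, hF, h, rfl⟩
  have hc' : 0 < c' := by linarith
  have h1 : c / c' ≤ 1 := (div_le_one hc').2 hcc
  have h2 := hm (hcv F hF _ h0 (c / c') (1 - c / c') (by positivity) (by linarith) (by ring))
  refine ⟨_, h2, memLp_bd (hB _ h2) c', ?_⟩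
  refine MemLp.toLp_congr _ _ (ae_of_all _ fun x => ?_)
  show c * F x = c' * (c / c' * F x + (1 - c / c') * 0)
  field_simp
  ring

end

theorem dec {X : Type} [MeasurableSpace X] {μ : Measure X} [IsProbabilityMeasure μ] (R : ℕ)
    (hR : 0 < R) {δ : ℝ} (hδ : 0 < δ) (hRδ : 4 ≤ δ ^ 2 * (R : ℝ)) (D : ℕ → Set (X → ℝ))
    (hB : ∀ i, ∀ F ∈ D i, Bd F) (h0 : ∀ i, (fun _ => (0 : ℝ)) ∈ D i)
    (hn : ∀ i, ∀ F ∈ D i, (fun x => -F x) ∈ D i)
    (hcv : ∀ i, ∀ F ∈ D i, ∀ F' ∈ D i, ∀ a b : ℝ, 0 ≤ a → 0 ≤ b → a + b = 1 →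
      (fun x => a * F x + b * F' x) ∈ D i)
    (hm : ∀ i, D i ⊆ D (i + 1)) (C : ℕ → ℝ) (hC1 : ∀ i, 1 ≤ C i) (hCm : ∀ i, C i ≤ C (i + 1))
    {f : X → ℝ} (hf : Bd f) :
    ∃ i < R, ∃ F ∈ D i, ∃ v r : X → ℝ, Measurable v ∧ Measurable r ∧
      (∀ x, f x = C i * F x + v x + r x) ∧ (∀ x, |v x| ≤ 3 * C i) ∧ MemLp r 2 μ ∧
      n2 μ r ≤ 4 * δ ∧
      ∀ σ ∈ D (i + 1), |∫ x, v x * σ x ∂μ| ≤ 1 / C (i + 1) + 3 * δ ^ 2 / C i := by
  have hfL : MemLp f 2 μ := memLp_of_bound hf.1 hf.2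
  have hfn : ‖hfL.toLp f‖ ≤ 1 := by
    rw [norm_toLp]
    exact n2_le_of_bound zero_le_one hf.2
  obtain ⟨i, hi, a, ha, b, hb, hab, hop⟩ := hs R hR (fun i => closure (Ec μ (C i) (D i)))
    (fun i => isClosed_closure) (fun i => (ec_convex (hB i) (hcv i)).closure)
    (fun i => subset_closure (ec_zero (h0 i) (hB i)))
    (fun i => closure_mono (ec_mono (hC1 i) (hCm i) (hB (i + 1)) (h0 i) (hcv i) (hm i)))
    (hfL.toLp f) hfn
  have hR' : (0 : ℝ) < R := Nat.cast_pos.2 hR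
  have hba : ‖b - a‖ ≤ δ / 2 := by
    refine abs_le_of_sq_le_sq' ?_ (by positivity) |>.2
    refine hab.trans ?_
    rw [div_le_iff₀ hR']
    nlinarith
  obtain ⟨_, ⟨F, hF, hFL, rfl⟩, hFa⟩ := Metric.mem_closure_iff.1 ha (δ / 2) (by positivity)
  have hCi := hC1 i
  have hCi1 := hC1 (i + 1)
  set c : Lp ℝ 2 μ := b - hFL.toLp (fun x => C i * F x) with hc
  have hcn : ‖c‖ ≤ δ := by
    have h1 : c = (b - a) + (a - hFL.toLp (fun x => C i * F x)) := by
      rw [hc]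
      abel
    rw [h1]
    refine (norm_add_le _ _).trans ?_
    rw [dist_eq_norm] at hFa
    linarith
  have hr0L : MemLp (c : X → ℝ) 2 μ := Lp.memLp c
  have hr0t : hr0L.toLp (c : X → ℝ) = c := Lp.toLp_coeFn c hr0L
  obtain ⟨r0, hr0⟩ : ∃ r0 : X → ℝ, r0 = (c : X → ℝ) := ⟨_, rfl⟩
  rw [← hr0] at hr0L
  have hr0t : hr0L.toLp r0 = c := by
    subst hr0
    exact hr0t
  have hr0m : Measurable r0 := by
    rw [hr0]
    exact (Lp.stronglyMeasurable c).measurable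
  have hr0n : n2 μ r0 ≤ δ := by
    rw [← norm_toLp hr0L, hr0t]
    exact hcn
  have hFB := hB i F hF
  have hFabs : ∀ x, |C i * F x| ≤ C i := by
    intro x
    rw [abs_mul, abs_of_nonneg (by linarith : 0 ≤ C i)]
    exact mul_le_of_le_one_right (by linarith) (hFB.2 x)
  -- the function `v0`
  set v0 : X → ℝ := fun x => f x - C i * F x - r0 x with hv0
  have hv0m : Measurable v0 := (hf.1.sub (hFB.1.const_mul _)).sub hr0m
  have hv0L : MemLp v0 2 μ := (hfL.sub hFL).sub hr0L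
  have hv0t : hv0L.toLp v0 = hfL.toLp f - b := by
    have h1 : hv0L.toLp v0 = hfL.toLp f - hFL.toLp (fun x => C i * F x) - hr0L.toLp r0 := by
      rw [← MemLp.toLp_sub, ← MemLp.toLp_sub]
      rfl
    rw [h1, hr0t, hc]
    abel
  have key : ∀ σ ∈ D (i + 1), ∫ x, v0 x * σ x ∂μ ≤ 1 / C (i + 1) := by
    intro σ hσ
    have hσL := memLp_bd (μ := μ) (hB _ σ hσ) (C (i + 1))
    have h1 := hop _ (subset_closure ⟨σ, hσ, hσL, rfl⟩)
    have h2 : ⟪hfL.toLp f - b, hσL.toLp (fun x => C (i + 1) * σ x)⟫_ℝ =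
        C (i + 1) * ∫ x, v0 x * σ x ∂μ := by
      rw [← hv0t, inner_toLp, ← integral_const_mul]
      refine integral_congr_ae (ae_of_all _ fun x => ?_)
      show v0 x * (C (i + 1) * σ x) = C (i + 1) * (v0 x * σ x)
      ring
    rw [inner_sub_right, h2, inner_sub_left, real_inner_self_eq_norm_sq] at h1
    have h3 : ⟪hfL.toLp f, b⟫_ℝ ≤ ‖b‖ := (real_inner_le_norm _ _).trans
      (mul_le_of_le_one_left (norm_nonneg _) hfn)
    have h4 : C (i + 1) * ∫ x, v0 x * σ x ∂μ ≤ 1 := by nlinarith [sq_nonneg (‖b‖ - 1 / 2)]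
    rw [le_div_iff₀ (by linarith)]
    linarith
  have key2 : ∀ σ ∈ D (i + 1), |∫ x, v0 x * σ x ∂μ| ≤ 1 / C (i + 1) := by
    intro σ hσ
    rw [abs_le]
    refine ⟨?_, key σ hσ⟩
    have h1 := key _ (hn _ σ hσ)
    have h2 : ∫ x, v0 x * -σ x ∂μ = - ∫ x, v0 x * σ x ∂μ := by
      rw [← integral_neg]
      exact integral_congr_ae (ae_of_all _ fun x => by ring)
    rw [h2] at h1
    linarith
  -- truncation
  have hE : MeasurableSet {x | |r0 x| ≤ C i} := measurableSet_le hr0m.abs measurable_const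
  classical
  set v : X → ℝ := fun x => if |r0 x| ≤ C i then v0 x else 0 with hv
  set r : X → ℝ := fun x => if |r0 x| ≤ C i then r0 x else r0 x + v0 x with hr
  have hvm : Measurable v := Measurable.ite hE hv0m measurable_const
  have hrm : Measurable r := Measurable.ite hE hr0m (hr0m.add hv0m)
  have hfC : ∀ x, |f x - C i * F x| ≤ 2 * C i := by
    intro x
    have h1 := abs_sub (f x) (C i * F x)
    have h2 := hf.2 x
    have h3 := hFabs x
    linarith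
  have hrr : ∀ x, |r x| ≤ |4 * r0 x| := by
    intro x
    rw [abs_mul, abs_of_pos (by norm_num : (0 : ℝ) < 4)]
    show |if |r0 x| ≤ C i then r0 x else r0 x + v0 x| ≤ _
    by_cases h : |r0 x| ≤ C i
    · rw [if_pos h]
      linarith [abs_nonneg (r0 x)]
    · rw [if_neg h]
      have h1 : r0 x + v0 x = f x - C i * F x := by
        show r0 x + (f x - C i * F x - r0 x) = _
        ring
      rw [h1]
      have h2 := hfC x
      rw [not_le] at h
      linarith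
  have h4L : MemLp (fun x => 4 * r0 x) 2 μ := hr0L.const_mul 4
  have hrL : MemLp r 2 μ := h4L.mono hrm.aestronglyMeasurable
    (ae_of_all _ fun x => by rw [Real.norm_eq_abs, Real.norm_eq_abs]; exact hrr x)
  refine ⟨i, hi, F, hF, v, r, hvm, hrm, fun x => ?_, fun x => ?_, hrL, ?_, fun σ hσ => ?_⟩
  · show f x = C i * F x + (if |r0 x| ≤ C i then v0 x else 0) +
      (if |r0 x| ≤ C i then r0 x else r0 x + v0 x)
    by_cases h : |r0 x| ≤ C i
    · rw [if_pos h, if_pos h]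
      show f x = C i * F x + (f x - C i * F x - r0 x) + r0 x
      ring
    · rw [if_neg h, if_neg h]
      show f x = C i * F x + 0 + (r0 x + (f x - C i * F x - r0 x))
      ring
  · show |if |r0 x| ≤ C i then v0 x else 0| ≤ _
    by_cases h : |r0 x| ≤ C i
    · rw [if_pos h]
      have h1 := abs_sub (f x - C i * F x) (r0 x)
      have h2 := hfC x
      have h3 : v0 x = f x - C i * F x - r0 x := rfl
      rw [h3]
      linarith
    · rw [if_neg h, abs_zero]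
      linarith
  · refine (n2_mono h4L hrr).trans ?_
    rw [n2_const_mul, abs_of_pos (by norm_num : (0 : ℝ) < 4)]
    linarith
  · have hσB := hB _ σ hσ
    have hσL : MemLp σ 2 μ := memLp_of_bound hσB.1 hσB.2
    have hr2 : Integrable (fun x => r0 x ^ 2) μ := hr0L.integrable_sq
    have hv0σ : Integrable (fun x => v0 x * σ x) μ := hv0L.integrable_mul hσL
    have hpt : ∀ x, |(v x - v0 x) * σ x| ≤ 3 / C i * r0 x ^ 2 := by
      intro x
      rw [abs_mul]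
      have h1 : |v x - v0 x| * |σ x| ≤ |v x - v0 x| :=
        mul_le_of_le_one_right (abs_nonneg _) (hσB.2 x)
      refine h1.trans ?_
      show |(if |r0 x| ≤ C i then v0 x else 0) - v0 x| ≤ _
      by_cases h : |r0 x| ≤ C i
      · rw [if_pos h, sub_self, abs_zero]
        have : 0 < C i := by linarith
        positivity
      · rw [if_neg h, zero_sub, abs_neg]
        rw [not_le] at h
        have h1 := abs_sub (f x - C i * F x) (r0 x)
        have h2 := hfC x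
        have h3 : v0 x = f x - C i * F x - r0 x := rfl
        have h4 : |v0 x| ≤ 3 * |r0 x| := by
          rw [h3]
          linarith
        refine h4.trans ?_
        rw [div_mul_eq_mul_div, le_div_iff₀ (by linarith), ← sq_abs (r0 x)]
        nlinarith [abs_nonneg (r0 x)]
    have hdi : Integrable (fun x => (v x - v0 x) * σ x) μ := by
      refine (hr2.const_mul (3 / C i)).mono'
        ((hvm.sub hv0m).mul hσB.1).aestronglyMeasurable (ae_of_all _ fun x => ?_)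
      rw [Real.norm_eq_abs]
      exact hpt x
    have h1 : ∫ x, v x * σ x ∂μ = ∫ x, v0 x * σ x ∂μ + ∫ x, (v x - v0 x) * σ x ∂μ := by
      rw [← integral_add hv0σ hdi]
      exact integral_congr_ae (ae_of_all _ fun x => by ring)
    have h2 : |∫ x, (v x - v0 x) * σ x ∂μ| ≤ 3 / C i * ∫ x, r0 x ^ 2 ∂μ := by
      rw [← integral_const_mul]
      refine (abs_integral_le_integral_abs).trans ?_
      exact integral_mono hdi.abs (hr2.const_mul _) hpt
    have h3 : ∫ x, r0 x ^ 2 ∂μ ≤ δ ^ 2 := by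
      rw [← n2_sq]
      exact pow_le_pow_left₀ (n2_nonneg _) hr0n 2
    have h4 : 3 / C i * ∫ x, r0 x ^ 2 ∂μ ≤ 3 * δ ^ 2 / C i := by
      rw [div_mul_eq_mul_div]
      exact div_le_div_of_nonneg_right (by linarith) (by linarith)
    rw [h1]
    exact (abs_add_le _ _).trans (add_le_add (key2 σ hσ) (h2.trans h4))

end Pool.Agent.MRS
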