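import Mathlib

/-!
# MRS / WaDefs: definitions for the norm convergence theorem of Walsh in finite chain form

`Gamma` (`Γ`) is the additive commutative group of parameters, `G` the additive commutative group
which acts on the probability space `X` by measure preserving maps.

* `Act G μ`: a measure preserving action.
* `Pr Γ`: a finitely supported probability measure `ν` on `Γ`, `ν.E Φ` the mean of `Φ`.
* `Inv η ν L`: `ν` is invariant up to `η` under the translations by the elements of `L`.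
* `Chain η ν K`: each of `ν 0, ..., ν K` is `η`-invariant under the supports of the previous ones.
* `Ag τ g f ν`: the average of `∏ i, f i ∘ τ (g i n)` over `n` with respect to `ν`.
* `Ah τ h0 h f0 f ν`: the same with a distinguished function `f0` at `h0`.
* `red S h0 m`: the exponents which appear after the reduction with respect to `h0` and the shift
  `m`; `rg h h0 m` the same as a family.
* `Cx d S`: the set `S` of exponents has complexity at most `d`.
* `RC τ h h0 L δ F`: the function `F` is reducible on `L`, up to `δ`: on `L` the function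
  `F ∘ τ (h0 l)` is (up to `δ`, uniformly) a mixture of products with reduced exponents.
-/

set_option autoImplicit false

namespace Pool.Agent.MRS

open MeasureTheory

/-- A measure preserving action of the additive commutative group `G`. -/
structure Act (G : Type) [AddCommGroup G] {X : Type} [MeasurableSpace X] (μ : Measure X) where
  /-- the transformations -/
  t : G → X → X
  zero : ∀ x, t 0 x = x
  add : ∀ a b x, t (a + b) x = t a (t b x)
  mp : ∀ a, MeasurePreserving (t a) μ μ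

/-- A finitely supported probability measure. -/
structure Pr (Γ : Type) where
  /-- the support (or any finite set which contains it) -/
  s : Finset Γ
  /-- the weights -/
  w : Γ → ℝ
  nn : ∀ x, 0 ≤ w x
  one : ∑ x ∈ s, w x = 1

/-- The mean. -/
def Pr.E {Γ : Type} (ν : Pr Γ) (Φ : Γ → ℝ) : ℝ := ∑ x ∈ ν.s, ν.w x * Φ x

/-- `ν` is `η`-invariant under the translations by the elements of `L`. -/
def Inv {Γ : Type} [AddCommGroup Γ] (η : ℝ) (ν : Pr Γ) (L : Set Γ) : Prop :=
  ∀ l ∈ L, ∀ Φ : Γ → ℝ, (∀ x, |Φ x| ≤ 1) → |ν.E (fun x => Φ (x + l)) - ν.E Φ| ≤ η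

/-- A chain of measures of length `K + 1`. -/
def Chain {Γ : Type} [AddCommGroup Γ] (η : ℝ) (ν : ℕ → Pr Γ) (K : ℕ) : Prop :=
  ∀ s t, s < t → t ≤ K → Inv η (ν t) (ν s).s

/-- The `L²` norm. -/
noncomputable def n2 {X : Type} [MeasurableSpace X] (μ : Measure X) (f : X → ℝ) : ℝ :=
  Real.sqrt (∫ x, f x ^ 2 ∂μ)

/-- Measurable and bounded by one. -/
def Bd {X : Type} [MeasurableSpace X] (f : X → ℝ) : Prop := Measurable f ∧ ∀ x, |f x| ≤ 1

section

variable {Γ G : Type} [AddCommGroup Γ] [AddCommGroup G] {X : Type} [MeasurableSpace X]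
  {μ : Measure X}

/-- The multiple average. -/
noncomputable def Ag (τ : Act G μ) {ι : Type} [Fintype ι] (g : ι → Γ → G) (f : ι → X → ℝ)
    (ν : Pr Γ) (x : X) : ℝ :=
  ν.E fun n => ∏ i, f i (τ.t (g i n) x)

/-- The multiple average with a distinguished function. -/
noncomputable def Ah (τ : Act G μ) {κ : Type} [Fintype κ] (h0 : Γ → G) (h : κ → Γ → G)
    (f0 : X → ℝ) (f : κ → X → ℝ) (ν : Pr Γ) (x : X) : ℝ :=
  ν.E fun n => f0 (τ.t (h0 n) x) * ∏ i, f i (τ.t (h i n) x)

/-- The exponents after a reduction. -/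
def red (S : Set (Γ → G)) (h0 : Γ → G) (m : Γ) : Set (Γ → G) :=
  S ∪ {fun l => h0 l - h0 (l + m)} ∪ (fun k : Γ → G => fun l => h0 l - h0 (l + m) + k (l + m)) '' S

/-- The exponents after a reduction, as a family. -/
def rg {κ : Type} (h : κ → Γ → G) (h0 : Γ → G) (m : Γ) : κ ⊕ Option κ → Γ → G
  | Sum.inl i => h i
  | Sum.inr none => fun l => h0 l - h0 (l + m)
  | Sum.inr (some i) => fun l => h0 l - h0 (l + m) + h i (l + m)

/-- The set `S` of exponents has complexity at most `d`. -/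
def Cx : ℕ → Set (Γ → G) → Prop
  | 0, S => ∀ g ∈ S, ∃ c, ∀ n, g n = c
  | d + 1, S => ∃ (S' : Set (Γ → G)) (h0 : Γ → G),
      (∀ g ∈ S, (∃ c, ∀ n, g n = c) ∨ (∃ c, ∀ n, g n = h0 n + c) ∨
        ∃ h ∈ S', ∃ c, ∀ n, g n = h n + c) ∧
      ∀ m, Cx d (red S' h0 m)

/-- Reducible functions. -/
def RC (τ : Act G μ) {κ : Type} [Fintype κ] (h : κ → Γ → G) (h0 : Γ → G) (L : Set Γ) (δ : ℝ)
    (F : X → ℝ) : Prop :=
  Bd F ∧ ∃ (Ω : Type) (_ : Fintype Ω) (w : Ω → ℝ) (m : Ω → Γ) (b0 : Ω → X → ℝ)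
    (b : Ω → κ → X → ℝ), (∀ o, 0 ≤ w o) ∧ ∑ o, w o = 1 ∧ (∀ o, Bd (b0 o)) ∧
    (∀ o i, Bd (b o i)) ∧ ∀ l ∈ L, ∀ x,
      |F (τ.t (h0 l) x) - ∑ o, w o * (b0 o (τ.t (h0 l - h0 (l + m o)) x) *
        ∏ i, b o i (τ.t (h0 l - h0 (l + m o) + h i (l + m o)) x))| ≤ δ

end

/-- All systems of complexity at most `d` are stable: in every sufficiently long chain two
consecutive averages are close. -/
def Stab (Γ G : Type) [AddCommGroup Γ] [AddCommGroup G] (d : ℕ) : Prop :=
  ∀ ε : ℝ, 0 < ε → ∃ (K : ℕ) (η : ℝ), 0 < η ∧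
    ∀ (X : Type) (_ : MeasurableSpace X) (μ : Measure X) (_ : IsProbabilityMeasure μ)
      (τ : Act G μ) (S : Set (Γ → G)), Cx d S → ∀ (ι : Type) (_ : Fintype ι) (g : ι → Γ → G),
      (∀ i, g i ∈ S) → ∀ f : ι → X → ℝ, (∀ i, Bd (f i)) → ∀ ν : ℕ → Pr Γ, Chain η ν K →
      ∃ s < K, n2 μ (fun x => Ag τ g f (ν s) x - Ag τ g f (ν (s + 1)) x) ≤ ε

/-! ### Polynomial maps -/

/-- Polynomial maps of degree at most `e`: all the `(e+1)`-fold differences vanish. -/
def Pd {Γ G : Type} [AddCommGroup Γ] [AddCommGroup G] : ℕ → Set (Γ → G)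
  | 0 => {f | ∃ c, ∀ n, f n = c}
  | e + 1 => {f | ∀ m, (fun n => f (n + m) - f n) ∈ Pd e}

/-- `S` has at most `J` elements. -/
def Sz {α : Type} (J : ℕ) (S : Set α) : Prop := ∃ s : Finset α, s.card ≤ J ∧ S ⊆ s

/-- The set `V_m(R, r0) = {r - r0, r(· + m) - r0 : r ∈ R not constant}`. -/
def Vm {Γ G : Type} [AddCommGroup Γ] [AddCommGroup G] (R : Set (Γ → G)) (r0 : Γ → G) (m : Γ) :
    Set (Γ → G) :=
  {k | ∃ r ∈ R, r ∉ (Pd 0 : Set (Γ → G)) ∧ (k = (fun n => r n - r0 n) ∨
    k = fun n => r (n + m) - r0 n)}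

/-- The tree of the van der Corput operations: after `k` operations (with `r0` of degree at most
`D`) only constants are left. -/
def Tr {Γ G : Type} [AddCommGroup Γ] [AddCommGroup G] (D : ℕ) : ℕ → Set (Γ → G) → Prop
  | 0, R => R ⊆ Pd 0
  | k + 1, R => ∃ r0 ∈ (Pd D : Set (Γ → G)), ∀ m, Tr D k (Vm R r0 m)

/-- `S` meets at most the `c` classes of `p 0, ..., p (c - 1)` modulo `Pd D`. -/
def Cls {Γ G : Type} [AddCommGroup Γ] [AddCommGroup G] (D c : ℕ) (S : Set (Γ → G)) : Prop :=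
  ∃ p : Fin c → Γ → G, (∀ j, p j ∈ (Pd (D + 1) : Set (Γ → G))) ∧
    ∀ r ∈ S, ∃ j, (fun n => r n - p j n) ∈ (Pd D : Set (Γ → G))

end Pool.Agent.MRS
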