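import Pool.Agent.MRS.WaAh

/-!
# MRS / WaDom: putting an average in the form `Ah`

PROOF.  Classical choice: for every `i` fix one of the three cases.  `κ` = the subtype of the `i` in
the third case, `h i` the chosen element of `S'`, `c i` the constant, `f' i = f i ∘ τ (c i)`
(`f i (τ (h n + c) x) = f i (τ c (τ (h n) x))` by `τ.add` and commutativity).  `f0` = the product of
`f i ∘ τ (c i)` over the `i` in the second case, `P` = the product of `f i ∘ τ (c i)` over the `i` in
the first case.  The product over all `i` is the product of the three partial products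
(`Fintype.prod` split with `Finset.prod_filter_mul_prod_filter_not` twice or `Finset.prod_subtype`),
`P x` comes out of the mean.
-/

set_option autoImplicit false

namespace Pool.Agent.MRS

open MeasureTheory

private theorem bd_one_h75 {X : Type} [MeasurableSpace X] : Bd (fun _ : X => (1 : ℝ)) :=
  ⟨measurable_const, fun _ => by simp⟩

private theorem bd_ite_h75 {X : Type} [MeasurableSpace X] (p : Prop) [Decidable p] {f : X → ℝ}
    (h : Bd f) : Bd (fun x => if p then f x else 1) := by
  by_cases hp : p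
  · simpa [hp] using h
  · simpa [hp] using bd_one_h75

private theorem prod_split_h75 {ι : Type} [Fintype ι] (A B : ι → Prop) [DecidablePred A]
    [DecidablePred B] (F : ι → ℝ) :
    ∏ i, F i = (∏ i, if A i then F i else 1) * ((∏ i, if ¬ A i ∧ B i then F i else 1) *
      ∏ i : {i // ¬ A i ∧ ¬ B i}, F i) := by
  have h1 : ∏ i : {i // ¬ A i ∧ ¬ B i}, F i = ∏ i, if ¬ A i ∧ ¬ B i then F i else 1 := by
    rw [← Finset.prod_filter]
    exact (Finset.prod_subtype _ (by simp) F).symm
  rw [h1, ← Finset.prod_mul_distrib, ← Finset.prod_mul_distrib]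
  refine Finset.prod_congr rfl fun i _ => ?_
  by_cases hA : A i
  · simp [hA]
  · by_cases hB : B i
    · simp [hA, hB]
    · simp [hA, hB]

theorem dom {Γ G : Type} [AddCommGroup Γ] [AddCommGroup G] {X : Type} [MeasurableSpace X]
    {μ : Measure X} (τ : Act G μ) (S' : Set (Γ → G)) (h0 : Γ → G) {ι : Type} [Fintype ι]
    (g : ι → Γ → G)
    (hg : ∀ i, (∃ c, ∀ n, g i n = c) ∨ (∃ c, ∀ n, g i n = h0 n + c) ∨
      ∃ h ∈ S', ∃ c, ∀ n, g i n = h n + c)
    {f : ι → X → ℝ} (hf : ∀ i, Bd (f i)) :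
    ∃ (κ : Type) (_ : Fintype κ) (h : κ → Γ → G) (P f0 : X → ℝ) (f' : κ → X → ℝ),
      (∀ i, h i ∈ S') ∧ Bd P ∧ Bd f0 ∧ (∀ i, Bd (f' i)) ∧
      ∀ (ν : Pr Γ) (x : X), Ag τ g f ν x = P x * Ah τ h0 h f0 f' ν x := by
  classical
  set A : ι → Prop := fun i => ∃ c, ∀ n, g i n = c with hAdef
  set B : ι → Prop := fun i => ∃ c, ∀ n, g i n = h0 n + c with hBdef
  have hA : ∀ i, ∃ c, A i → ∀ n, g i n = c := fun i => by
    by_cases h : A i
    · obtain ⟨c, hc⟩ := h
      exact ⟨c, fun _ => hc⟩
    · exact ⟨0, fun h' => absurd h' h⟩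
  have hB : ∀ i, ∃ c, B i → ∀ n, g i n = h0 n + c := fun i => by
    by_cases h : B i
    · obtain ⟨c, hc⟩ := h
      exact ⟨c, fun _ => hc⟩
    · exact ⟨0, fun h' => absurd h' h⟩
  have hC : ∀ i : {i // ¬ A i ∧ ¬ B i}, ∃ h : Γ → G, ∃ c, h ∈ S' ∧ ∀ n, g i n = h n + c := by
    rintro ⟨i, h1, h2⟩
    rcases hg i with h | h | ⟨h, hh, c, hc⟩
    · exact absurd h h1
    · exact absurd h h2
    · exact ⟨h, c, hh, hc⟩
  choose cA hcA using hA
  choose cB hcB using hB
  choose h cC hhS hcC using hC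
  refine ⟨{i // ¬ A i ∧ ¬ B i}, inferInstance, h,
    fun x => ∏ i, if A i then f i (τ.t (cA i) x) else 1,
    fun x => ∏ i, if ¬ A i ∧ B i then f i (τ.t (cB i) x) else 1,
    fun i x => f i (τ.t (cC i) x), hhS, ?_, ?_, ?_, ?_⟩
  · exact bd_prod fun i => bd_ite_h75 _ (bd_comp τ (hf i) (cA i))
  · exact bd_prod fun i => bd_ite_h75 _ (bd_comp τ (hf i) (cB i))
  · exact fun i => bd_comp τ (hf i) (cC i)
  · intro ν x
    unfold Ag Ah
    rw [← pr_mul]
    refine pr_congr ν fun n _ => ?_
    rw [prod_split_h75 A B (fun i => f i (τ.t (g i n) x))]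
    congr 1
    · refine Finset.prod_congr rfl fun i _ => ?_
      by_cases hAi : A i
      · simp only [hAi, if_true]
        rw [hcA i hAi n]
      · simp only [hAi, if_false]
    · congr 1
      · refine Finset.prod_congr rfl fun i _ => ?_
        by_cases hi : ¬ A i ∧ B i
        · rw [if_pos hi, if_pos hi, hcB i hi.2 n, add_comm, τ.add]
        · rw [if_neg hi, if_neg hi]
      · refine Finset.prod_congr rfl fun i _ => ?_
        rw [hcC i n, add_comm, τ.add]

end Pool.Agent.MRS
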