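import Pool.Agent.MRS.WaStep

/-!
# MRS / WaMain: stability for all complexities

PROOF.  `d = 0`: all exponents are constant, so `Ag τ g f ν x = ∏ i, f i (τ (c i) x)` for all `ν`
(`pr_const`), the difference is `0`; `K = 1`, `η = 1`.  Induction with `step`.
-/

set_option autoImplicit false

namespace Pool.Agent.MRS

open MeasureTheory

theorem stab_zero (Γ G : Type) [AddCommGroup Γ] [AddCommGroup G] : Stab Γ G 0 := by
  intro ε hε
  refine ⟨1, 1, one_pos, ?_⟩
  intro X _ μ _ τ S hS ι _ g hg f _ ν _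
  refine ⟨0, Nat.zero_lt_one, ?_⟩
  choose c hc using fun i => hS (g i) (hg i)
  have h1 : ∀ (k : ℕ) (x : X), Ag τ g f (ν k) x = ∏ i, f i (τ.t (c i) x) := by
    intro k x
    unfold Ag
    have h2 : (fun n => ∏ i, f i (τ.t (g i n) x)) = fun _ : Γ => ∏ i, f i (τ.t (c i) x) := by
      funext n
      exact Finset.prod_congr rfl fun i _ => by rw [hc]
    rw [h2, pr_const]
  have h2 : (fun x => Ag τ g f (ν 0) x - Ag τ g f (ν (0 + 1)) x) = fun _ => (0 : ℝ) := by
    funext x
    rw [h1, h1, sub_self]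
  rw [h2]
  unfold n2
  simp only [ne_eq, OfNat.ofNat_ne_zero, not_false_eq_true, zero_pow, integral_zero,
    Real.sqrt_zero]
  exact hε.le

theorem stab (Γ G : Type) [AddCommGroup Γ] [AddCommGroup G] (d : ℕ) : Stab Γ G d := by
  induction d with
  | zero => exact stab_zero Γ G
  | succ d ih => exact step ih

end Pool.Agent.MRS
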