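import Pool.Agent.MRS.WaDefs

/-!
# MRS / WaN2: the `L²` norm

PROOFS.  `n2 μ f ^ 2 = ∫ f ^ 2` (`Real.sq_sqrt`, the integral is nonnegative).
`abs_integral_mul_le` is the Cauchy-Schwarz inequality (for instance
`MeasureTheory.L2.inner_def`, or Hölder `integral_mul_le_Lp_mul_Lq_of_nonneg` with `p = q = 2`; or
expand `0 ≤ ∫ (a f - b g) ^ 2` with `a = n2 g`, `b = n2 f`).  `n2_add_le`: square both sides and use
Cauchy-Schwarz.  `n2_sum_le`: induction on the finite set with `n2_add_le` and `n2_const_mul`.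
`n2_comp`: `MeasurePreserving.integral_comp'` or `(hT.integral_map ...)` for the measurable
function `f ^ 2` (`integral_map`).
-/

set_option autoImplicit false

namespace Pool.Agent.MRS

open MeasureTheory

variable {X : Type} [MeasurableSpace X] {μ : Measure X}

theorem n2_nonneg (f : X → ℝ) : 0 ≤ n2 μ f := by
  exact Real.sqrt_nonneg _

theorem n2_sq (f : X → ℝ) : n2 μ f ^ 2 = ∫ x, f x ^ 2 ∂μ := by
  exact Real.sq_sqrt (integral_nonneg fun x => sq_nonneg _)

theorem memLp_of_bound [IsProbabilityMeasure μ] {f : X → ℝ} (hf : Measurable f) {C : ℝ}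
    (h : ∀ x, |f x| ≤ C) : MemLp f 2 μ := by
  exact MemLp.of_bound hf.aestronglyMeasurable C (Filter.Eventually.of_forall fun x => by
    rw [Real.norm_eq_abs]; exact h x)

theorem n2_le_of_bound [IsProbabilityMeasure μ] {f : X → ℝ} {C : ℝ} (hC : 0 ≤ C)
    (h : ∀ x, |f x| ≤ C) : n2 μ f ≤ C := by
  refine Real.sqrt_le_iff.2 ⟨hC, ?_⟩
  have h1 : ∫ x, f x ^ 2 ∂μ ≤ ∫ _x, C ^ 2 ∂μ := by
    refine integral_mono_of_nonneg (Filter.Eventually.of_forall fun x => sq_nonneg _)
      (integrable_const _) (Filter.Eventually.of_forall fun x => ?_)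
    have h2 := h x
    have h3 : |f x| ^ 2 ≤ C ^ 2 := pow_le_pow_left₀ (abs_nonneg _) h2 2
    simpa [sq_abs] using h3
  simpa using h1

theorem abs_integral_mul_le {f g : X → ℝ} (hf : MemLp f 2 μ) (hg : MemLp g 2 μ) :
    |∫ x, f x * g x ∂μ| ≤ n2 μ f * n2 μ g := by
  have hfi := hf.integrable_sq
  have hgi := hg.integrable_sq
  have hfg : Integrable (fun x => f x * g x) μ := hf.integrable_mul hg
  have hd : ∀ t : ℝ, 0 ≤ (∫ x, g x ^ 2 ∂μ) * (t * t) + (2 * ∫ x, f x * g x ∂μ) * t
      + ∫ x, f x ^ 2 ∂μ := by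
    intro t
    have h1 : 0 ≤ ∫ x, (f x + t * g x) ^ 2 ∂μ := integral_nonneg fun x => sq_nonneg _
    have h2 : ∫ x, (f x + t * g x) ^ 2 ∂μ = (∫ x, g x ^ 2 ∂μ) * (t * t)
        + (2 * ∫ x, f x * g x ∂μ) * t + ∫ x, f x ^ 2 ∂μ := by
      have h3 : (fun x => (f x + t * g x) ^ 2)
          = fun x => (t * t) * g x ^ 2 + (2 * t) * (f x * g x) + f x ^ 2 := by
        funext x; ring
      have i1 : Integrable (fun x => (t * t) * g x ^ 2) μ := hgi.const_mul _
      have i2 : Integrable (fun x => (2 * t) * (f x * g x)) μ := hfg.const_mul _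
      have i12 : Integrable (fun x => (t * t) * g x ^ 2 + (2 * t) * (f x * g x)) μ := i1.add i2
      rw [h3, integral_add i12 hfi, integral_add i1 i2, integral_const_mul, integral_const_mul]
      ring
    rw [h2] at h1
    exact h1
  have hdisc := discrim_le_zero hd
  rw [discrim] at hdisc
  have h5 : (∫ x, f x * g x ∂μ) ^ 2 ≤ (n2 μ f * n2 μ g) ^ 2 := by
    rw [mul_pow, n2_sq, n2_sq]
    nlinarith
  exact abs_le_of_sq_le_sq h5 (mul_nonneg (n2_nonneg f) (n2_nonneg g))

theorem n2_add_le {f g : X → ℝ} (hf : MemLp f 2 μ) (hg : MemLp g 2 μ) :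
    n2 μ (fun x => f x + g x) ≤ n2 μ f + n2 μ g := by
  refine Real.sqrt_le_iff.2 ⟨add_nonneg (n2_nonneg f) (n2_nonneg g), ?_⟩
  have hfi := hf.integrable_sq
  have hgi := hg.integrable_sq
  have hfg : Integrable (fun x => f x * g x) μ := hf.integrable_mul hg
  have h3 : (fun x => (f x + g x) ^ 2) = fun x => f x ^ 2 + 2 * (f x * g x) + g x ^ 2 := by
    funext x; ring
  have i2 : Integrable (fun x => 2 * (f x * g x)) μ := hfg.const_mul _
  have i12 : Integrable (fun x => f x ^ 2 + 2 * (f x * g x)) μ := hfi.add i2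
  rw [h3, integral_add i12 hgi, integral_add hfi i2, integral_const_mul]
  have h4 := le_trans (le_abs_self _) (abs_integral_mul_le hf hg)
  have h5 := n2_sq (μ := μ) f
  have h6 := n2_sq (μ := μ) g
  nlinarith

theorem n2_const_mul (c : ℝ) (f : X → ℝ) : n2 μ (fun x => c * f x) = |c| * n2 μ f := by
  unfold n2
  have h1 : (fun x => (c * f x) ^ 2) = fun x => c ^ 2 * f x ^ 2 := by
    funext x; ring
  rw [h1, integral_const_mul, Real.sqrt_mul (sq_nonneg c), Real.sqrt_sq_eq_abs]

theorem n2_neg (f : X → ℝ) : n2 μ (fun x => -f x) = n2 μ f := by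
  unfold n2
  congr 1
  refine integral_congr_ae (Filter.Eventually.of_forall fun x => ?_)
  simp

theorem n2_sub_comm (f g : X → ℝ) : n2 μ (fun x => f x - g x) = n2 μ (fun x => g x - f x) := by
  unfold n2
  congr 1
  refine integral_congr_ae (Filter.Eventually.of_forall fun x => ?_)
  show (f x - g x) ^ 2 = (g x - f x) ^ 2
  ring

theorem n2_sub_le {f g h : X → ℝ} (hf : MemLp f 2 μ) (hg : MemLp g 2 μ) (hh : MemLp h 2 μ) :
    n2 μ (fun x => f x - h x) ≤ n2 μ (fun x => f x - g x) + n2 μ (fun x => g x - h x) := by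
  have h1 := n2_add_le (μ := μ) (f := fun x => f x - g x) (g := fun x => g x - h x)
    (hf.sub hg) (hg.sub hh)
  have h2 : (fun x => f x - g x + (g x - h x)) = fun x => f x - h x := by
    funext x; ring
  rw [h2] at h1
  exact h1

theorem n2_mono {f g : X → ℝ} (hg : MemLp g 2 μ) (h : ∀ x, |f x| ≤ |g x|) :
    n2 μ f ≤ n2 μ g := by
  refine Real.sqrt_le_sqrt ?_
  refine integral_mono_of_nonneg (Filter.Eventually.of_forall fun x => sq_nonneg _)
    hg.integrable_sq (Filter.Eventually.of_forall fun x => ?_)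
  exact sq_le_sq.2 (h x)

theorem n2_comp {T : X → X} (hT : MeasurePreserving T μ μ) {f : X → ℝ} (hf : Measurable f) :
    n2 μ (fun x => f (T x)) = n2 μ f := by
  unfold n2
  congr 1
  have h1 : AEStronglyMeasurable (fun y => f y ^ 2) (Measure.map T μ) :=
    (hf.pow_const 2).aestronglyMeasurable
  have h2 := integral_map hT.measurable.aemeasurable h1
  rw [hT.map_eq] at h2
  exact h2.symm

theorem memLp_comp {T : X → X} (hT : MeasurePreserving T μ μ) {f : X → ℝ} (hf : MemLp f 2 μ) :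
    MemLp (fun x => f (T x)) 2 μ := by
  exact hf.comp_measurePreserving hT

theorem memLp_sum {α : Type} (s : Finset α) (w : α → ℝ) (F : α → X → ℝ)
    (hF : ∀ i ∈ s, MemLp (F i) 2 μ) : MemLp (fun x => ∑ i ∈ s, w i * F i x) 2 μ := by
  exact memLp_finsetSum s fun i hi => (hF i hi).const_mul (w i)

theorem n2_sum_le {α : Type} (s : Finset α) (w : α → ℝ) (hw : ∀ i, 0 ≤ w i) (F : α → X → ℝ)
    (hF : ∀ i ∈ s, MemLp (F i) 2 μ) :
    n2 μ (fun x => ∑ i ∈ s, w i * F i x) ≤ ∑ i ∈ s, w i * n2 μ (F i) := by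
  classical
  induction s using Finset.induction_on with
  | empty =>
    simp [n2]
  | insert a s ha ih =>
    have hFs : ∀ i ∈ s, MemLp (F i) 2 μ := fun i hi => hF i (Finset.mem_insert_of_mem hi)
    have hFa : MemLp (F a) 2 μ := hF a (Finset.mem_insert_self a s)
    have h1 := n2_add_le (μ := μ) (f := fun x => w a * F a x)
      (g := fun x => ∑ i ∈ s, w i * F i x) (hFa.const_mul (w a)) (memLp_sum s w F hFs)
    have h2 : (fun x => ∑ i ∈ insert a s, w i * F i x)
        = fun x => w a * F a x + ∑ i ∈ s, w i * F i x := by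
      funext x
      exact Finset.sum_insert ha
    rw [h2, Finset.sum_insert ha]
    refine h1.trans (add_le_add ?_ (ih hFs))
    rw [n2_const_mul, abs_of_nonneg (hw a)]

end Pool.Agent.MRS
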