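import Pool.Agent.MRS.WaDefs

/-!
# MRS / WaPd: polynomial maps, sizes, monotonicity

PROOFS.  `pd_succ_iff` is the definition.  `pd_add`, `pd_neg`, `pd_sub`, `pd_addConst`: induction on
`e`.  `pd_mono`: a constant has difference `0`; induction.  `pd_shift`: induction (the difference of
the translate is the translate of the difference).  `pd_diff`: `f ∈ Pd e ⊆ Pd (e+1)`.
`sz_*`: unions and images of finsets.  `Vm` is contained in the union of two images of `R`
(`r ↦ r - r0`, `r ↦ r(· + m) - r0`), `red` in the union of `S`, one point and one image of `S`.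
`cx_subset`: for `d = 0` and `d + 1` directly from the definition (no induction needed).
`cx_succ : Cx d S → Cx (d+1) S`: induction on `d` for all `S`; `d = 0`: take `S' = ∅`, `h0 = 0`,
`red ∅ 0 m` consists of the constant `0 - 0`.
`tr_subset`: `Vm` is monotone in `R`; induction.  `tr_mono`: `Pd D ⊆ Pd (D+1)`; induction.
-/

set_option autoImplicit false

namespace Pool.Agent.MRS

variable {Γ G : Type} [AddCommGroup Γ] [AddCommGroup G]

theorem pd_zero_iff (f : Γ → G) : f ∈ (Pd 0 : Set (Γ → G)) ↔ ∃ c, ∀ n, f n = c := Iff.rfl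

theorem pd_succ_iff (e : ℕ) (f : Γ → G) : f ∈ (Pd (e + 1) : Set (Γ → G)) ↔
    ∀ m, (fun n => f (n + m) - f n) ∈ (Pd e : Set (Γ → G)) := Iff.rfl

theorem pd_const (e : ℕ) (c : G) : (fun _ => c) ∈ (Pd e : Set (Γ → G)) := by
  induction e generalizing c with
  | zero => exact ⟨c, fun _ => rfl⟩
  | succ e ih =>
    intro m
    exact ih (c - c)

theorem pd_add {e : ℕ} {f g : Γ → G} (hf : f ∈ (Pd e : Set (Γ → G)))
    (hg : g ∈ (Pd e : Set (Γ → G))) : (fun n => f n + g n) ∈ (Pd e : Set (Γ → G)) := by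
  induction e generalizing f g with
  | zero =>
    obtain ⟨c, hc⟩ := hf
    obtain ⟨d, hd⟩ := hg
    exact ⟨c + d, fun n => by simp only [hc, hd]⟩
  | succ e ih =>
    intro m
    have h := ih (hf m) (hg m)
    have e1 : (fun n => (f (n + m) + g (n + m)) - (f n + g n))
        = fun n => (f (n + m) - f n) + (g (n + m) - g n) := by
      funext n; abel
    show (fun n => (f (n + m) + g (n + m)) - (f n + g n)) ∈ (Pd e : Set (Γ → G))
    rw [e1]; exact h

theorem pd_neg {e : ℕ} {f : Γ → G} (hf : f ∈ (Pd e : Set (Γ → G))) :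
    (fun n => -f n) ∈ (Pd e : Set (Γ → G)) := by
  induction e generalizing f with
  | zero =>
    obtain ⟨c, hc⟩ := hf
    exact ⟨-c, fun n => by simp only [hc]⟩
  | succ e ih =>
    intro m
    have h := ih (hf m)
    have e1 : (fun n => -f (n + m) - -f n) = fun n => -(f (n + m) - f n) := by
      funext n; abel
    show (fun n => -f (n + m) - -f n) ∈ (Pd e : Set (Γ → G))
    rw [e1]; exact h

theorem pd_sub {e : ℕ} {f g : Γ → G} (hf : f ∈ (Pd e : Set (Γ → G)))
    (hg : g ∈ (Pd e : Set (Γ → G))) : (fun n => f n - g n) ∈ (Pd e : Set (Γ → G)) := by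
  have h := pd_add hf (pd_neg hg)
  have e1 : (fun n => f n - g n) = fun n => f n + -g n := by
    funext n; abel
  rw [e1]; exact h

theorem pd_succ (e : ℕ) : (Pd e : Set (Γ → G)) ⊆ Pd (e + 1) := by
  induction e with
  | zero =>
    rintro f ⟨c, hc⟩ m
    exact ⟨c - c, fun n => by simp only [hc]⟩
  | succ e ih =>
    intro f hf m
    exact ih (hf m)

theorem pd_mono {e e' : ℕ} (h : e ≤ e') : (Pd e : Set (Γ → G)) ⊆ Pd e' := by
  induction h with
  | refl => exact subset_rfl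
  | step _ ih => exact ih.trans (pd_succ _)

theorem pd_shift {e : ℕ} {f : Γ → G} (hf : f ∈ (Pd e : Set (Γ → G))) (m : Γ) :
    (fun n => f (n + m)) ∈ (Pd e : Set (Γ → G)) := by
  induction e generalizing f with
  | zero =>
    obtain ⟨c, hc⟩ := hf
    exact ⟨c, fun n => hc _⟩
  | succ e ih =>
    intro k
    have h := ih (hf k)
    have e1 : (fun n => f (n + k + m) - f (n + m)) = fun n => f (n + m + k) - f (n + m) := by
      funext n; rw [add_right_comm]
    show (fun n => f (n + k + m) - f (n + m)) ∈ (Pd e : Set (Γ → G))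
    rw [e1]; exact h

theorem pd_diff {e : ℕ} {f : Γ → G} (hf : f ∈ (Pd e : Set (Γ → G))) (m : Γ) :
    (fun n => f (n + m) - f n) ∈ (Pd e : Set (Γ → G)) :=
  pd_sub (pd_shift hf m) hf

theorem sz_mono {α : Type} {J J' : ℕ} (h : J ≤ J') {S S' : Set α} (hS : S' ⊆ S) (hJ : Sz J S) :
    Sz J' S' := by
  obtain ⟨s, hs, hs'⟩ := hJ
  exact ⟨s, hs.trans h, hS.trans hs'⟩

theorem sz_empty {α : Type} (J : ℕ) : Sz J (∅ : Set α) :=
  ⟨∅, by simp, Set.empty_subset _⟩

theorem sz_singleton {α : Type} (a : α) : Sz 1 ({a} : Set α) :=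
  ⟨{a}, by simp, by simp⟩

theorem sz_union {α : Type} {J J' : ℕ} {S S' : Set α} (h : Sz J S) (h' : Sz J' S') :
    Sz (J + J') (S ∪ S') := by
  classical
  obtain ⟨s, hs, hs'⟩ := h
  obtain ⟨t, ht, ht'⟩ := h'
  refine ⟨s ∪ t, (Finset.card_union_le s t).trans (add_le_add hs ht), ?_⟩
  rw [Finset.coe_union]
  exact Set.union_subset_union hs' ht' 

theorem sz_image {α β : Type} {J : ℕ} {S : Set α} (h : Sz J S) (φ : α → β) : Sz J (φ '' S) := by
  classical
  obtain ⟨s, hs, hs'⟩ := h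
  refine ⟨s.image φ, Finset.card_image_le.trans hs, ?_⟩
  rw [Finset.coe_image]
  exact Set.image_mono hs' 

theorem sz_vm {J : ℕ} {R : Set (Γ → G)} (h : Sz J R) (r0 : Γ → G) (m : Γ) :
    Sz (2 * J) (Vm R r0 m) := by
  have h1 := sz_union (sz_image h fun r : Γ → G => fun n => r n - r0 n)
    (sz_image h fun r : Γ → G => fun n => r (n + m) - r0 n)
  refine sz_mono (by omega) ?_ h1
  rintro k ⟨r, hr, -, rfl | rfl⟩
  · exact Or.inl ⟨r, hr, rfl⟩
  · exact Or.inr ⟨r, hr, rfl⟩

theorem cx_subset {d : ℕ} {S S' : Set (Γ → G)} (h : S' ⊆ S) (hS : Cx d S) : Cx d S' := by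
  cases d with
  | zero => exact fun g hg => hS g (h hg)
  | succ d =>
    obtain ⟨T, h0, h1, h2⟩ := hS
    exact ⟨T, h0, fun g hg => h1 g (h hg), h2⟩

theorem cx_succ {d : ℕ} {S : Set (Γ → G)} (hS : Cx d S) : Cx (d + 1) S := by
  induction d generalizing S with
  | zero =>
    refine ⟨∅, fun _ => 0, fun g hg => Or.inl (hS g hg), fun m => ?_⟩
    rintro g ((hg | hg) | hg)
    · exact hg.elim
    · rw [Set.mem_singleton_iff] at hg
      subst hg
      exact ⟨0 - 0, fun n => rfl⟩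
    · obtain ⟨k, hk, -⟩ := hg
      exact hk.elim
  | succ d ih =>
    obtain ⟨T, h0, h1, h2⟩ := hS
    exact ⟨T, h0, h1, fun m => ih (h2 m)⟩

theorem cx_mono {d d' : ℕ} (h : d ≤ d') {S : Set (Γ → G)} (hS : Cx d S) : Cx d' S := by
  induction h with
  | refl => exact hS
  | step _ ih => exact cx_succ ih

theorem vm_subset {R R' : Set (Γ → G)} (h : R' ⊆ R) (r0 : Γ → G) (m : Γ) :
    Vm R' r0 m ⊆ Vm R r0 m := by
  rintro k ⟨r, hr, hk⟩
  exact ⟨r, h hr, hk⟩

theorem vm_union (R R' : Set (Γ → G)) (r0 : Γ → G) (m : Γ) :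
    Vm (R ∪ R') r0 m = Vm R r0 m ∪ Vm R' r0 m := by
  refine Set.Subset.antisymm ?_ (Set.union_subset (vm_subset Set.subset_union_left r0 m)
    (vm_subset Set.subset_union_right r0 m))
  rintro k ⟨r, hr | hr, hk⟩
  · exact Or.inl ⟨r, hr, hk⟩
  · exact Or.inr ⟨r, hr, hk⟩

theorem vm_const {R : Set (Γ → G)} (h : R ⊆ Pd 0) (r0 : Γ → G) (m : Γ) : Vm R r0 m = ∅ := by
  refine Set.eq_empty_of_forall_notMem ?_
  rintro k ⟨r, hr, hr', -⟩
  exact hr' (h hr)

theorem tr_subset {D k : ℕ} {R R' : Set (Γ → G)} (h : R' ⊆ R) (hR : Tr D k R) : Tr D k R' := by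
  induction k generalizing R R' with
  | zero => exact h.trans hR
  | succ k ih =>
    obtain ⟨r0, h0, h1⟩ := hR
    exact ⟨r0, h0, fun m => ih (vm_subset h r0 m) (h1 m)⟩

theorem tr_mono {D k : ℕ} {R : Set (Γ → G)} (hR : Tr D k R) : Tr (D + 1) k R := by
  induction k generalizing R with
  | zero => exact hR
  | succ k ih =>
    obtain ⟨r0, h0, h1⟩ := hR
    exact ⟨r0, pd_succ D h0, fun m => ih (h1 m)⟩

end Pool.Agent.MRS
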