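import Pool.Agent.MRS.WaTr

/-!
# MRS / WaPet: finite sets of polynomial maps have bounded complexity

PROOFS.  `red_split`: put `S1' = S1 ∪ {−Δ} ∪ φ '' S1`, `S2' = S2 ∪ φ '' S2`, with
`−Δ = fun l => g0 l - g0 (l + m)` and `φ k = fun l => g0 l - g0 (l + m) + k (l + m)`.  `−Δ ∈ Pd D`
because `g0 ∈ Pd (D+1)`.  `k ∈ S1 ⊆ Pd D`: `φ k ∈ Pd D`.  `k ∈ S2`, `k - p j ∈ Pd D`: `k ∈ Pd (D+1)`,
`φ k - p j = −Δ + (k(· + m) - k) + (k - p j) ∈ Pd D`.  Sizes `2 J + 1`.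
`cx_top`: induction on `k` for all `J`.
`k = 0`: `R` consists of constants; use `S' = S1 ∪ S2`, `h0 = g0` in `Cx (d+1)` (the elements of
`sh g0 R` and `g0` are `g0` plus a constant); `red (S1 ∪ S2) g0 m` is contained in `S1' ∪ S2'` of
`red_split`, so `d` from `hP (2 J + 1)`.
`k + 1`: `r0 ∈ Pd D` from `Tr D (k+1) R`.  `S' = sh g0 Rn ∪ (S1 ∪ S2)`, `Rn` = the non constant
elements of `R`, `h0 = g0`.  `red S' g0 m ⊆ sh (g0 + r0) (Vm R r0 m) ∪ {g0 + r0} ∪ (S1' ∪ S2')`: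
`g0 + r = (g0 + r0) + (r - r0)`, `φ (g0 + r) = g0 + r(· + m) = (g0 + r0) + (r(· + m) - r0)`, the other
elements as in `red_split`.  `Vm R r0 m ⊆ Pd D`, size `2 J`.  `d` from the induction hypothesis with
`2 J + 1`, `g0 + r0 ∈ Pd (D+1)`.
`cx_two`: induction on `c` for all `J`.  `c = 0`: `S2 = ∅`.  `c + 1`: `g0 = p last`,
`R = {s - g0 : s ∈ S2} ∩ Pd D`, `k` from `tr_exists D J`,
`S2' = {s ∈ S2 | ∃ j : Fin c, s - p j.castSucc ∈ Pd D}`; `S2 ⊆ sh g0 R ∪ S2'`; `cx_top`.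
`cx_exists`: induction on `D`; `D + 1`: `cx_two` with `c = J`, `S1 = ∅`, `S2 = S` (`cls_self`).
-/

set_option autoImplicit false

namespace Pool.Agent.MRS

variable {Γ G : Type} [AddCommGroup Γ] [AddCommGroup G]

/-- the set `{g0 + r : r ∈ R}` -/
def sh (g0 : Γ → G) (R : Set (Γ → G)) : Set (Γ → G) := (fun r : Γ → G => fun n => g0 n + r n) '' R

theorem red_split {D c J : ℕ} {g0 : Γ → G} (hg0 : g0 ∈ (Pd (D + 1) : Set (Γ → G)))
    {S1 S2 : Set (Γ → G)} (h1 : Sz J S1) (h2 : Sz J S2) (h1D : S1 ⊆ Pd D) (h2c : Cls D c S2)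
    (m : Γ) : ∃ S1' S2' : Set (Γ → G), Sz (2 * J + 1) S1' ∧ Sz (2 * J + 1) S2' ∧ S1' ⊆ Pd D ∧
      Cls D c S2' ∧ red (S1 ∪ S2) g0 m ⊆ S1' ∪ S2' := by
  have hnd : (fun l => g0 l - g0 (l + m)) ∈ (Pd D : Set (Γ → G)) := by
    have h := pd_neg (hg0 m)
    have e1 : (fun n => -(g0 (n + m) - g0 n)) = fun l => g0 l - g0 (l + m) := by
      funext n
      rw [neg_sub]
    rwa [e1] at h
  have hphi : ∀ k : Γ → G, k ∈ (Pd D : Set (Γ → G)) →
      (fun l => g0 l - g0 (l + m) + k (l + m)) ∈ (Pd D : Set (Γ → G)) :=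
    fun k hk => pd_add hnd (pd_shift hk m)
  refine ⟨S1 ∪ {fun l => g0 l - g0 (l + m)} ∪
    (fun k : Γ → G => fun l => g0 l - g0 (l + m) + k (l + m)) '' S1,
    S2 ∪ (fun k : Γ → G => fun l => g0 l - g0 (l + m) + k (l + m)) '' S2, ?_, ?_, ?_, ?_, ?_⟩
  · exact sz_mono (by omega) subset_rfl
      (sz_union (sz_union h1 (sz_singleton _)) (sz_image h1 _))
  · exact sz_mono (by omega) subset_rfl (sz_union h2 (sz_image h2 _))
  · rintro f ((hf | hf) | ⟨k, hk, rfl⟩)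
    · exact h1D hf
    · rw [Set.mem_singleton_iff] at hf
      rw [hf]
      exact hnd
    · exact hphi k (h1D hk)
  · obtain ⟨p, hp, hr⟩ := h2c
    refine ⟨p, hp, ?_⟩
    rintro f (hf | ⟨k, hk, rfl⟩)
    · exact hr f hf
    · obtain ⟨j, hj⟩ := hr k hk
      refine ⟨j, ?_⟩
      have hkD : k ∈ (Pd (D + 1) : Set (Γ → G)) := by
        have h := pd_add (pd_succ D hj) (hp j)
        have e1 : (fun n => k n - p j n + p j n) = k := by
          funext n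
          rw [sub_add_cancel]
        rwa [e1] at h
      have h3 := pd_add (pd_add hnd (hkD m)) hj
      have e2 : (fun n => g0 n - g0 (n + m) + (k (n + m) - k n) + (k n - p j n)) =
          fun n => g0 n - g0 (n + m) + k (n + m) - p j n := by
        funext n
        abel
      rw [e2] at h3
      exact h3
  · rintro f ((hf | hf) | ⟨k, hk, rfl⟩)
    · rcases hf with hf | hf
      · exact Or.inl (Or.inl (Or.inl hf))
      · exact Or.inr (Or.inl hf)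
    · exact Or.inl (Or.inl (Or.inr hf))
    · rcases hk with hk | hk
      · exact Or.inl (Or.inr ⟨k, hk, rfl⟩)
      · exact Or.inr (Or.inr ⟨k, hk, rfl⟩)

theorem cx_top {D c : ℕ}
    (hP : ∀ J : ℕ, ∃ d : ℕ, ∀ S1 S2 : Set (Γ → G), Sz J S1 → Sz J S2 → S1 ⊆ Pd D → Cls D c S2 →
      Cx d (S1 ∪ S2)) :
    ∀ k J : ℕ, ∃ d : ℕ, ∀ (g0 : Γ → G) (R S1 S2 : Set (Γ → G)),
      g0 ∈ (Pd (D + 1) : Set (Γ → G)) → Sz J R → R ⊆ Pd D → Tr D k R → Sz J S1 → Sz J S2 →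
      S1 ⊆ Pd D → Cls D c S2 → Cx d (sh g0 R ∪ {g0} ∪ (S1 ∪ S2)) := by
  intro k
  induction k with
  | zero =>
    intro J
    obtain ⟨d, hd⟩ := hP (2 * J + 1)
    refine ⟨d + 1, fun g0 R S1 S2 hg0 hR hRD hT h1 h2 h1D h2c => ?_⟩
    refine ⟨S1 ∪ S2, g0, ?_, fun m => ?_⟩
    · rintro g ((⟨r, hr, rfl⟩ | hg) | hg)
      · obtain ⟨c', hc'⟩ := hT hr
        exact Or.inr (Or.inl ⟨c', fun n => by simp only [hc']⟩)
      · rw [Set.mem_singleton_iff] at hg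
        rw [hg]
        exact Or.inr (Or.inl ⟨0, fun n => (add_zero _).symm⟩)
      · exact Or.inr (Or.inr ⟨g, hg, 0, fun n => (add_zero _).symm⟩)
    · obtain ⟨S1', S2', a1, a2, a3, a4, a5⟩ := red_split hg0 h1 h2 h1D h2c m
      exact cx_subset a5 (hd S1' S2' a1 a2 a3 a4)
  | succ k ih =>
    intro J
    obtain ⟨d, hd⟩ := ih (2 * J + 1)
    refine ⟨d + 1, fun g0 R S1 S2 hg0 hR hRD hT h1 h2 h1D h2c => ?_⟩
    obtain ⟨r0, hr0, hT⟩ := hT
    refine ⟨sh g0 {r | r ∈ R ∧ r ∉ (Pd 0 : Set (Γ → G))} ∪ (S1 ∪ S2), g0, ?_, fun m => ?_⟩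
    · rintro g ((⟨r, hr, rfl⟩ | hg) | hg)
      · by_cases hc : r ∈ (Pd 0 : Set (Γ → G))
        · obtain ⟨c', hc'⟩ := hc
          exact Or.inr (Or.inl ⟨c', fun n => by simp only [hc']⟩)
        · exact Or.inr (Or.inr ⟨_, Or.inl ⟨r, ⟨hr, hc⟩, rfl⟩, 0, fun n => (add_zero _).symm⟩)
      · rw [Set.mem_singleton_iff] at hg
        rw [hg]
        exact Or.inr (Or.inl ⟨0, fun n => (add_zero _).symm⟩)
      · exact Or.inr (Or.inr ⟨g, Or.inr hg, 0, fun n => (add_zero _).symm⟩)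
    · obtain ⟨S1', S2', a1, a2, a3, a4, a5⟩ := red_split hg0 h1 h2 h1D h2c m
      refine cx_subset ?_ (hd (fun n => g0 n + r0 n) (Vm R r0 m) S1' S2'
        (pd_add hg0 (pd_succ D hr0)) (sz_mono (by omega) subset_rfl (sz_vm hR r0 m)) ?_ (hT m)
        a1 a2 a3 a4)
      · rintro f ((hf | hf) | ⟨q, hq, rfl⟩)
        · rcases hf with ⟨r, ⟨hr, hrc⟩, rfl⟩ | hf
          · refine Or.inl (Or.inl ⟨fun n => r n - r0 n, ⟨r, hr, hrc, Or.inl rfl⟩, ?_⟩)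
            funext n
            show g0 n + r0 n + (r n - r0 n) = g0 n + r n
            abel
          · exact Or.inr (a5 (Or.inl (Or.inl hf)))
        · exact Or.inr (a5 (Or.inl (Or.inr hf)))
        · rcases hq with ⟨r, ⟨hr, hrc⟩, rfl⟩ | hq
          · refine Or.inl (Or.inl ⟨fun n => r (n + m) - r0 n, ⟨r, hr, hrc, Or.inr rfl⟩, ?_⟩)
            funext n
            show g0 n + r0 n + (r (n + m) - r0 n) =
              g0 n - g0 (n + m) + (g0 (n + m) + r (n + m))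
            abel
          · exact Or.inr (a5 (Or.inr ⟨q, hq, rfl⟩))
      · rintro f ⟨r, hr, -, rfl | rfl⟩
        · exact pd_sub (hRD hr) hr0
        · exact pd_sub (pd_shift (hRD hr) m) hr0

theorem cx_two {D : ℕ}
    (hD : ∀ J : ℕ, ∃ d : ℕ, ∀ S : Set (Γ → G), Sz J S → S ⊆ Pd D → Cx d S) :
    ∀ c J : ℕ, ∃ d : ℕ, ∀ S1 S2 : Set (Γ → G), Sz J S1 → Sz J S2 → S1 ⊆ Pd D → Cls D c S2 →
      Cx d (S1 ∪ S2) := by
  intro c
  induction c with
  | zero =>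
    intro J
    obtain ⟨d, hd⟩ := hD J
    refine ⟨d, fun S1 S2 h1 h2 h1D h2c => ?_⟩
    refine cx_subset ?_ (hd S1 h1 h1D)
    rintro f (hf | hf)
    · exact hf
    · obtain ⟨p, hp, hr⟩ := h2c
      obtain ⟨j, -⟩ := hr f hf
      exact j.elim0
  | succ c ih =>
    intro J
    obtain ⟨k, hk⟩ := tr_exists (Γ := Γ) (G := G) D J
    obtain ⟨d, hd⟩ := cx_top ih k J
    refine ⟨d, fun S1 S2 h1 h2 h1D h2c => ?_⟩
    obtain ⟨p, hp, hr⟩ := h2c
    have hRs : Sz J {r : Γ → G | r ∈ (Pd D : Set (Γ → G)) ∧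
        ∃ s ∈ S2, r = fun n => s n - p (Fin.last c) n} := by
      refine sz_mono le_rfl ?_
        (sz_image h2 (fun s : Γ → G => fun n => s n - p (Fin.last c) n))
      rintro r ⟨-, s, hs, rfl⟩
      exact ⟨s, hs, rfl⟩
    have hRD : {r : Γ → G | r ∈ (Pd D : Set (Γ → G)) ∧
        ∃ s ∈ S2, r = fun n => s n - p (Fin.last c) n} ⊆ Pd D := fun r hr' => hr'.1
    refine cx_subset ?_ (hd (p (Fin.last c)) _ S1
      {s | s ∈ S2 ∧ ∃ j : Fin c, (fun n => s n - p j.castSucc n) ∈ (Pd D : Set (Γ → G))}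
      (hp _) hRs hRD (hk _ hRs hRD) h1 (sz_mono le_rfl (fun s hs => hs.1) h2) h1D
      ⟨fun j => p j.castSucc, fun j => hp _, fun s hs => hs.2⟩)
    rintro f (hf | hf)
    · exact Or.inr (Or.inl hf)
    · obtain ⟨j, hj⟩ := hr f hf
      rcases j.eq_castSucc_or_eq_last with ⟨i, rfl⟩ | rfl
      · exact Or.inr (Or.inr ⟨hf, i, hj⟩)
      · refine Or.inl (Or.inl ⟨fun n => f n - p (Fin.last c) n, ⟨hj, f, hf, rfl⟩, ?_⟩)
        funext n
        show p (Fin.last c) n + (f n - p (Fin.last c) n) = f n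
        abel

theorem cx_exists (D : ℕ) :
    ∀ J : ℕ, ∃ d : ℕ, ∀ S : Set (Γ → G), Sz J S → S ⊆ Pd D → Cx d S := by
  induction D with
  | zero => exact fun J => ⟨0, fun S _ hS => fun g hg => hS hg⟩
  | succ D ih =>
    intro J
    obtain ⟨d, hd⟩ := cx_two ih J J
    refine ⟨d, fun S hJ hS => ?_⟩
    have h := hd ∅ S (sz_empty J) hJ (Set.empty_subset _) (cls_self hJ hS)
    rwa [Set.empty_union] at h

end Pool.Agent.MRS
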