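import Pool.Agent.MRS.WaAh

/-!
# MRS / WaRc: the set of reducible functions is convex and symmetric

PROOFS.  `rc_zero`: `Ω = Unit`, `w = 1`, `m = 0`, `b0 = b = 0`.  `rc_neg`: replace `b0` by `-b0`.
`rc_convex`: `Ω ⊕ Ω'` with the weights `a w`, `b w'` (`Fintype.sum_sum_type`).  `rc_anti`: restrict
`l ∈ L`.
-/

set_option autoImplicit false

namespace Pool.Agent.MRS

open MeasureTheory

variable {Γ G : Type} [AddCommGroup Γ] [AddCommGroup G] {X : Type} [MeasurableSpace X]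
  {μ : Measure X} (τ : Act G μ) {κ : Type} [Fintype κ] (h : κ → Γ → G) (h0 : Γ → G)

theorem rc_zero (L : Set Γ) {δ : ℝ} (hδ : 0 ≤ δ) : RC τ h h0 L δ (fun _ => 0) := by
  refine ⟨⟨measurable_const, fun x => by simp⟩, Unit, inferInstance, fun _ => 1, fun _ => 0,
    fun _ _ => 0, fun _ _ _ => 0, fun _ => zero_le_one, by simp,
    fun _ => ⟨measurable_const, fun x => by simp⟩, fun _ _ => ⟨measurable_const, fun x => by simp⟩,
    fun l _ x => ?_⟩
  simpa using hδ

theorem rc_neg {L : Set Γ} {δ : ℝ} {F : X → ℝ} (hF : RC τ h h0 L δ F) :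
    RC τ h h0 L δ (fun x => -F x) := by
  obtain ⟨hB, Ω, hΩ, w, m, b0, b, hw, h1, hb0, hb, hm⟩ := hF
  refine ⟨bd_neg hB, Ω, hΩ, w, m, fun o x => -b0 o x, b, hw, h1, fun o => bd_neg (hb0 o), hb,
    fun l hl x => ?_⟩
  have h2 := hm l hl x
  rw [← abs_neg] at h2
  convert h2 using 2
  rw [neg_sub, sub_eq_add_neg, add_comm, ← Finset.sum_neg_distrib]
  congr 1
  exact Finset.sum_congr rfl fun o _ => by ring

theorem rc_convex {L : Set Γ} {δ : ℝ} {F F' : X → ℝ} (hF : RC τ h h0 L δ F)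
    (hF' : RC τ h h0 L δ F') {a b : ℝ} (ha : 0 ≤ a) (hb : 0 ≤ b) (hab : a + b = 1) :
    RC τ h h0 L δ (fun x => a * F x + b * F' x) := by
  obtain ⟨hB, Ω, hΩ, w, m, c0, c, hw, h1, hc0, hc, hm⟩ := hF
  obtain ⟨hB', Ω', hΩ', w', m', c0', c', hw', h1', hc0', hc', hm'⟩ := hF'
  refine ⟨⟨(hB.1.const_mul a).add (hB'.1.const_mul b), fun x => ?_⟩, Ω ⊕ Ω', inferInstance,
    Sum.elim (fun o => a * w o) (fun o => b * w' o), Sum.elim m m', Sum.elim c0 c0',
    Sum.elim c c', ?_, ?_, ?_, ?_, fun l hl x => ?_⟩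
  · have h2 := hB.2 x
    have h3 := hB'.2 x
    calc |a * F x + b * F' x| ≤ |a * F x| + |b * F' x| := abs_add_le _ _
      _ = a * |F x| + b * |F' x| := by rw [abs_mul, abs_mul, abs_of_nonneg ha, abs_of_nonneg hb]
      _ ≤ a * 1 + b * 1 := add_le_add (mul_le_mul_of_nonneg_left h2 ha)
          (mul_le_mul_of_nonneg_left h3 hb)
      _ = 1 := by rw [mul_one, mul_one, hab]
  · rintro (o | o)
    · exact mul_nonneg ha (hw o)
    · exact mul_nonneg hb (hw' o)
  · rw [Fintype.sum_sum_type]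
    simp only [Sum.elim_inl, Sum.elim_inr]
    rw [← Finset.mul_sum, ← Finset.mul_sum, h1, h1', mul_one, mul_one, hab]
  · rintro (o | o)
    · exact hc0 o
    · exact hc0' o
  · rintro (o | o) i
    · exact hc o i
    · exact hc' o i
  · have h2 := hm l hl x
    have h3 := hm' l hl x
    rw [Fintype.sum_sum_type]
    simp only [Sum.elim_inl, Sum.elim_inr]
    have h4 : ∀ y z : ℝ, |y| ≤ δ → |z| ≤ δ → |a * y + b * z| ≤ δ := by
      intro y z hy hz
      calc |a * y + b * z| ≤ |a * y| + |b * z| := abs_add_le _ _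
        _ = a * |y| + b * |z| := by rw [abs_mul, abs_mul, abs_of_nonneg ha, abs_of_nonneg hb]
        _ ≤ a * δ + b * δ := add_le_add (mul_le_mul_of_nonneg_left hy ha)
            (mul_le_mul_of_nonneg_left hz hb)
        _ = δ := by rw [← add_mul, hab, one_mul]
    have h5 := h4 _ _ h2 h3
    convert h5 using 2
    rw [mul_sub, mul_sub, Finset.mul_sum, Finset.mul_sum]
    have e1 : ∀ (P Q R S R' S' : ℝ), R = R' → S = S' →
        P + Q - (R + S) = P - R' + (Q - S') := by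
      intro P Q R S R' S' hR hS
      rw [hR, hS]
      ring
    exact e1 _ _ _ _ _ _ (Finset.sum_congr rfl fun o _ => by rw [mul_assoc])
      (Finset.sum_congr rfl fun o _ => by rw [mul_assoc])

theorem rc_anti {L L' : Set Γ} (hL : L' ⊆ L) {δ : ℝ} {F : X → ℝ} (hF : RC τ h h0 L δ F) :
    RC τ h h0 L' δ F := by
  obtain ⟨hB, Ω, hΩ, w, m, b0, b, hw, h1, hb0, hb, hm⟩ := hF
  exact ⟨hB, Ω, hΩ, w, m, b0, b, hw, h1, hb0, hb, fun l hl x => hm l (hL hl) x⟩

end Pool.Agent.MRS
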