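import Pool.Agent.MRS.WaAvg
import Pool.Agent.MRS.WaRc

/-!
# MRS / WaRed: averages with a reducible function are stable

PROOF.  `N, η` from `avgStab` for `ε`.  Let `Ω, w, m, b0, b` be the data of `RC`.  For `n` in the
support of `ν s` (`s ≤ N`, contained in `L`) and every `x`:
`F(τ(h0 n) x) = ∑ o, w o * (b0 o (..) * ∏ b o i (..)) + err`, `|err| ≤ δ`.  Multiply with
`∏ i, f i (τ(h i n) x)` (absolute value `≤ 1`) and take the mean:
`|Ah τ h0 h F f (ν s) x - ∑ o, w o * Ag τ (rg h h0 (m o)) (f' o) (ν s) x| ≤ δ` with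
`f' o (inl i) = f i`, `f' o (inr none) = b0 o`, `f' o (inr (some i)) = b o i`
(`Fintype.prod_sum_type`, `Fintype.prod_option`).  `rg h h0 m k ∈ red S' h0 m` for all `k`.
`avgStab` gives `s < N` with `∑ o, w o * n2 (..) ≤ ε`; then by the triangle inequality
`n2 (Ah (ν s) - Ah (ν (s+1))) ≤ 2 δ + n2 (∑ o, w o * (Ag.. - Ag..)) ≤ 2 δ + ε` (`n2_sum_le`,
`n2_le_of_bound`).
-/

set_option autoImplicit false

namespace Pool.Agent.MRS

open MeasureTheory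

theorem rg_mem {Γ G : Type} [AddCommGroup Γ] [AddCommGroup G] {κ : Type} {h : κ → Γ → G}
    {S' : Set (Γ → G)} (hS : ∀ i, h i ∈ S') (h0 : Γ → G) (m : Γ) (k : κ ⊕ Option κ) :
    rg h h0 m k ∈ red S' h0 m := by
  rcases k with i | _ | i
  · exact Or.inl (Or.inl (hS i))
  · exact Or.inl (Or.inr rfl)
  · exact Or.inr ⟨h i, hS i, rfl⟩

/-- the functions of the reduced average -/
private def fR {X κ : Type} (f : κ → X → ℝ) (b0 : X → ℝ) (b : κ → X → ℝ) : κ ⊕ Option κ → X → ℝ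
  | Sum.inl i => f i
  | Sum.inr none => b0
  | Sum.inr (some i) => b i

private theorem bd_fR {X κ : Type} [MeasurableSpace X] {f : κ → X → ℝ} {b0 : X → ℝ}
    {b : κ → X → ℝ} (hf : ∀ i, Bd (f i)) (h0 : Bd b0) (hb : ∀ i, Bd (b i))
    (k : κ ⊕ Option κ) : Bd (fR f b0 b k) := by
  rcases k with i | _ | i
  · exact hf i
  · exact h0
  · exact hb i

private theorem close_ah {Γ G : Type} [AddCommGroup Γ] [AddCommGroup G] {X : Type}
    [MeasurableSpace X] {μ : Measure X} (τ : Act G μ) {κ : Type} [Fintype κ]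
    (h : κ → Γ → G) (h0 : Γ → G) {f : κ → X → ℝ} (hf : ∀ i, Bd (f i)) {L : Set Γ} {δ : ℝ}
    {F : X → ℝ} {Ω : Type} [Fintype Ω] (w : Ω → ℝ) (m : Ω → Γ)
    (b0 : Ω → X → ℝ) (b : Ω → κ → X → ℝ)
    (hF : ∀ l ∈ L, ∀ x, |F (τ.t (h0 l) x) - ∑ o, w o * (b0 o (τ.t (h0 l - h0 (l + m o)) x) *
        ∏ i, b o i (τ.t (h0 l - h0 (l + m o) + h i (l + m o)) x))| ≤ δ)
    (ν : Pr Γ) (hν : (ν.s : Set Γ) ⊆ L) (x : X) :
    |Ah τ h0 h F f ν x - ∑ o, w o * Ag τ (rg h h0 (m o)) (fR f (b0 o) (b o)) ν x| ≤ δ := by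
  have e1 : ∑ o, w o * Ag τ (rg h h0 (m o)) (fR f (b0 o) (b o)) ν x =
      ν.E (fun n => ∑ o, w o * ∏ k, fR f (b0 o) (b o) k (τ.t (rg h h0 (m o) k n) x)) := by
    rw [pr_sum]
    refine Finset.sum_congr rfl fun o _ => ?_
    rw [pr_mul]
    rfl
  rw [e1]
  unfold Ah
  rw [← pr_sub]
  refine pr_abs_le ν _ fun n hn => ?_
  have e2 : ∀ o, ∏ k, fR f (b0 o) (b o) k (τ.t (rg h h0 (m o) k n) x) =
      (∏ i, f i (τ.t (h i n) x)) * (b0 o (τ.t (h0 n - h0 (n + m o)) x) *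
        ∏ i, b o i (τ.t (h0 n - h0 (n + m o) + h i (n + m o)) x)) := by
    intro o
    rw [Fintype.prod_sum_type, Fintype.prod_option]
    rfl
  have e3 : F (τ.t (h0 n) x) * ∏ i, f i (τ.t (h i n) x) -
      ∑ o, w o * ∏ k, fR f (b0 o) (b o) k (τ.t (rg h h0 (m o) k n) x) =
      (∏ i, f i (τ.t (h i n) x)) * (F (τ.t (h0 n) x) -
        ∑ o, w o * (b0 o (τ.t (h0 n - h0 (n + m o)) x) *
        ∏ i, b o i (τ.t (h0 n - h0 (n + m o) + h i (n + m o)) x))) := by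
    rw [mul_sub, Finset.mul_sum, mul_comm (F _)]
    congr 1
    refine Finset.sum_congr rfl fun o _ => ?_
    rw [e2 o]
    ring
  have hp : |∏ i, f i (τ.t (h i n) x)| ≤ 1 := by
    rw [Finset.abs_prod]
    exact Finset.prod_le_one (fun i _ => abs_nonneg _) fun i _ => (hf i).2 _
  rw [e3, abs_mul]
  have h1 := hF n (hν hn) x
  calc |∏ i, f i (τ.t (h i n) x)| * |F (τ.t (h0 n) x) -
        ∑ o, w o * (b0 o (τ.t (h0 n - h0 (n + m o)) x) *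
        ∏ i, b o i (τ.t (h0 n - h0 (n + m o) + h i (n + m o)) x))|
      ≤ 1 * δ := mul_le_mul hp h1 (abs_nonneg _) zero_le_one
    _ = δ := one_mul δ

theorem redStab {Γ G : Type} [AddCommGroup Γ] [AddCommGroup G] {d : ℕ} (hd : Stab Γ G d) :
    ∀ ε : ℝ, 0 < ε → ∃ (N : ℕ) (η : ℝ), 0 < η ∧
    ∀ (X : Type) (_ : MeasurableSpace X) (μ : Measure X) (_ : IsProbabilityMeasure μ)
      (τ : Act G μ) (κ : Type) (_ : Fintype κ) (h : κ → Γ → G) (h0 : Γ → G) (S' : Set (Γ → G)),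
      (∀ i, h i ∈ S') → (∀ m, Cx d (red S' h0 m)) → ∀ f : κ → X → ℝ, (∀ i, Bd (f i)) →
      ∀ (L : Set Γ) (δ : ℝ), 0 ≤ δ → ∀ F : X → ℝ, RC τ h h0 L δ F → ∀ ν : ℕ → Pr Γ,
      Chain η ν N → (∀ s ≤ N, ((ν s).s : Set Γ) ⊆ L) →
      ∃ s < N, n2 μ (fun x => Ah τ h0 h F f (ν s) x - Ah τ h0 h F f (ν (s + 1)) x) ≤
        ε + 2 * δ := by
  intro ε hε
  obtain ⟨N, η, hη, H⟩ := avgStab hd ε hε
  refine ⟨N, η, hη, ?_⟩
  intro X _ μ _ τ κ _ h h0 S' hS hC f hf L δ hδ F hRC ν hν hL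
  obtain ⟨hFb, Ω, _, w, m, b0, b, hw, hw1, hb0, hb, hF⟩ := hRC
  obtain ⟨s, hs, hle⟩ := H X _ μ inferInstance τ Ω inferInstance w hw hw1
    (fun o => red S' h0 (m o)) (fun o => hC (m o)) (κ ⊕ Option κ) inferInstance
    (fun o => rg h h0 (m o)) (fun o k => rg_mem hS h0 (m o) k)
    (fun o => fR f (b0 o) (b o)) (fun o k => bd_fR hf (hb0 o) (hb o) k) ν hν
  refine ⟨s, hs, ?_⟩
  have cl : ∀ t, t ≤ N → ∀ x, |Ah τ h0 h F f (ν t) x -
      ∑ o, w o * Ag τ (rg h h0 (m o)) (fR f (b0 o) (b o)) (ν t) x| ≤ δ := fun t ht x =>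
    close_ah τ h h0 hf w m b0 b hF (ν t) (hL t ht) x
  have hAg : ∀ t o, Bd (Ag τ (rg h h0 (m o)) (fR f (b0 o) (b o)) (ν t)) := fun t o =>
    bd_ag τ _ (fun k => bd_fR hf (hb0 o) (hb o) k) (ν t)
  have hM : ∀ t, Measurable (fun x =>
      ∑ o, w o * Ag τ (rg h h0 (m o)) (fR f (b0 o) (b o)) (ν t) x) := fun t =>
    Finset.measurable_sum _ fun o _ => ((hAg t o).1).const_mul _
  have hA : ∀ t, Bd (Ah τ h0 h F f (ν t)) := fun t => bd_ah τ h0 h hFb hf (ν t)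
  have hD : ∀ o, MemLp (fun x => Ag τ (rg h h0 (m o)) (fR f (b0 o) (b o)) (ν s) x -
      Ag τ (rg h h0 (m o)) (fR f (b0 o) (b o)) (ν (s + 1)) x) 2 μ := by
    intro o
    refine memLp_of_bound (C := 2) (((hAg s o).1).sub ((hAg (s + 1) o).1)) fun x => ?_
    have h1 := (hAg s o).2 x
    have h2 := (hAg (s + 1) o).2 x
    have h3 := abs_sub (Ag τ (rg h h0 (m o)) (fR f (b0 o) (b o)) (ν s) x)
      (Ag τ (rg h h0 (m o)) (fR f (b0 o) (b o)) (ν (s + 1)) x)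
    linarith
  have e1 : (fun x => Ah τ h0 h F f (ν s) x - Ah τ h0 h F f (ν (s + 1)) x) = fun x =>
      (((Ah τ h0 h F f (ν s) x -
        ∑ o, w o * Ag τ (rg h h0 (m o)) (fR f (b0 o) (b o)) (ν s) x) -
        (Ah τ h0 h F f (ν (s + 1)) x -
        ∑ o, w o * Ag τ (rg h h0 (m o)) (fR f (b0 o) (b o)) (ν (s + 1)) x)) +
      ∑ o, w o * (Ag τ (rg h h0 (m o)) (fR f (b0 o) (b o)) (ν s) x -
        Ag τ (rg h h0 (m o)) (fR f (b0 o) (b o)) (ν (s + 1)) x)) := by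
    funext x
    simp only [mul_sub, Finset.sum_sub_distrib]
    ring
  have b1 : ∀ x, |((Ah τ h0 h F f (ν s) x -
        ∑ o, w o * Ag τ (rg h h0 (m o)) (fR f (b0 o) (b o)) (ν s) x) -
        (Ah τ h0 h F f (ν (s + 1)) x -
        ∑ o, w o * Ag τ (rg h h0 (m o)) (fR f (b0 o) (b o)) (ν (s + 1)) x))| ≤ 2 * δ := by
    intro x
    have h1 := cl s hs.le x
    have h2 := cl (s + 1) hs x
    have h3 := abs_sub (Ah τ h0 h F f (ν s) x -
        ∑ o, w o * Ag τ (rg h h0 (m o)) (fR f (b0 o) (b o)) (ν s) x)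
        (Ah τ h0 h F f (ν (s + 1)) x -
        ∑ o, w o * Ag τ (rg h h0 (m o)) (fR f (b0 o) (b o)) (ν (s + 1)) x)
    linarith
  have m1 : Measurable (fun x => ((Ah τ h0 h F f (ν s) x -
        ∑ o, w o * Ag τ (rg h h0 (m o)) (fR f (b0 o) (b o)) (ν s) x) -
        (Ah τ h0 h F f (ν (s + 1)) x -
        ∑ o, w o * Ag τ (rg h h0 (m o)) (fR f (b0 o) (b o)) (ν (s + 1)) x))) :=
    (((hA s).1).sub (hM s)).sub (((hA (s + 1)).1).sub (hM (s + 1)))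
  rw [e1]
  refine (n2_add_le (memLp_of_bound m1 b1)
    (memLp_sum Finset.univ w _ fun o _ => hD o)).trans ?_
  have h1 := n2_le_of_bound (μ := μ) (mul_nonneg zero_le_two hδ) b1
  have h2 := n2_sum_le (μ := μ) Finset.univ w hw (fun o x =>
    Ag τ (rg h h0 (m o)) (fR f (b0 o) (b o)) (ν s) x -
        Ag τ (rg h h0 (m o)) (fR f (b0 o) (b o)) (ν (s + 1)) x) (fun o _ => hD o)
  linarith

end Pool.Agent.MRS
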