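import Pool.Agent.MRS.WaDec
import Pool.Agent.MRS.WaCorr
import Pool.Agent.MRS.WaRed
import Pool.Agent.MRS.WaDom

/-!
# MRS / WaStep: the induction step of the theorem of Walsh

PROOF.  Given `ε > 0` (w.l.o.g. `ε ≤ 1`).  `δ = ε / 64`; `R` with `4 ≤ δ² R`, `R > 0`; `M` real with
`M ≥ 1`, `3 / M ≤ δ²`; `C i = M ^ i`; `ε' = ε / (4 M ^ R)`, `δ₁ = ε / (16 M ^ R)`; `N, η₁` from
`redStab` for `ε'`; `η = min η₁ δ₁`; `K = R (N + 1)`.
Let `X, μ, τ, S, g, f, ν` be given, `S', h0` from `Cx (d+1) S` (unfold `Cx`), `κ, h, P, f0, f'` from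
`dom`.  It is enough to find `s < K` with `n2 (Ah (ν s) - Ah (ν (s+1))) ≤ ε` (`|P| ≤ 1`, `n2_mono`).
`L i = {l | ∃ s < (R - i) (N + 1), l ∈ (ν s).s}` (natural subtraction), decreasing in `i`.
`D i = {F | RC τ h h0 (L i) δ₁ F}`.  `dec` for `f0` gives `i < R` and `f0 = C i F + v + r`.
Block: `a = (R - 1 - i) (N + 1)`, indices `a, ..., a + N` (`a + N < (R - i) (N + 1) ≤ K`).
(1) `ν (a + s)`, `s ≤ N`, is a chain of length `N` (`chain_shift`, `chain_mono`) with supports in `L i`, so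
`redStab` gives `s < N` with `n2 (Ah F (ν (a+s)) - Ah F (ν (a+s+1))) ≤ ε' + 2 δ₁`; times `C i ≤ M ^ R`:
at most `ε / 4 + ε / 8`.
(2) For `t = a + s` or `a + s + 1`: `Inv η (ν t) (L (i+1))`, since `L (i+1)` is the union of the supports
of the `ν s'`, `s' < a ≤ t` (`(R - (i+1)) (N+1) = a`).  `corr` with `B = 3 C i`,
`θ = 1 / C (i+1) + 3 δ² / C i`: `n2 (Ah v (ν t)) ^ 2 ≤ 3 / M + 9 δ² ≤ 10 δ²`, so `n2 (Ah v (ν t)) ≤ 4 δ`.
(3) `n2 (Ah r (ν t)) ≤ n2 r ≤ 4 δ` (`n2_ah_le`).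
Sum (`ah_add`, `ah_mul`, `n2_add_le`): `n2 (Ah f0 (ν t) - Ah f0 (ν (t+1))) ≤ 3 ε / 8 + 8 δ + 8 δ ≤ ε`.
-/

set_option autoImplicit false

namespace Pool.Agent.MRS

open MeasureTheory

private theorem n2_sub_le2 {X : Type} [MeasurableSpace X] {μ : Measure X} {f g : X → ℝ}
    (hf : MemLp f 2 μ) (hg : MemLp g 2 μ) :
    n2 μ (fun x => f x - g x) ≤ n2 μ f + n2 μ g := by
  have h1 := n2_add_le hf hg.neg
  have h2 : n2 μ (-g) = n2 μ g := n2_neg g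
  have h3 : (fun x => f x + (-g) x) = fun x => f x - g x := by
    funext x
    simp [sub_eq_add_neg]
  rw [h3, h2] at h1
  exact h1

private theorem block {Γ G : Type} [AddCommGroup Γ] [AddCommGroup G] {X : Type}
    [MeasurableSpace X] {μ : Measure X} [IsProbabilityMeasure μ] (τ : Act G μ) {κ : Type}
    [Fintype κ] (h0 : Γ → G) (h : κ → Γ → G) {f : κ → X → ℝ} (hf : ∀ i, Bd (f i))
    {f0 F v r : X → ℝ} {C e δ : ℝ} (hC : 1 ≤ C) (hF : Bd F) (hv : Measurable v)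
    (hvC : ∀ x, |v x| ≤ 3 * C) (hr : Measurable r) (hr2 : MemLp r 2 μ) (hrδ : n2 μ r ≤ 4 * δ)
    (he : ∀ x, f0 x = C * F x + v x + r x) (ν ν' : Pr Γ)
    (h1 : n2 μ (fun x => Ah τ h0 h F f ν x - Ah τ h0 h F f ν' x) ≤ e)
    (h2 : n2 μ (Ah τ h0 h v f ν) ≤ 4 * δ) (h3 : n2 μ (Ah τ h0 h v f ν') ≤ 4 * δ) :
    n2 μ (fun x => Ah τ h0 h f0 f ν x - Ah τ h0 h f0 f ν' x) ≤ C * e + 16 * δ := by
  have hv2 : MemLp v 2 μ := memLp_of_bound hv hvC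
  have hF2 : MemLp F 2 μ := memLp_of_bound hF.1 hF.2
  have key : ∀ (ν : Pr Γ) (x : X), Ah τ h0 h f0 f ν x = C * Ah τ h0 h F f ν x +
      Ah τ h0 h v f ν x + Ah τ h0 h r f ν x := by
    intro ν x
    have e0 : f0 = fun y => (fun y => (fun y => C * F y) y + v y) y + r y := funext he
    rw [e0, ah_add, ah_add, ah_mul]
  have mF : ∀ ν : Pr Γ, MemLp (Ah τ h0 h F f ν) 2 μ := fun ν => memLp_ah τ h0 h hF.1 hF2 hf ν
  have mv : ∀ ν : Pr Γ, MemLp (Ah τ h0 h v f ν) 2 μ := fun ν => memLp_ah τ h0 h hv hv2 hf ν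
  have mr : ∀ ν : Pr Γ, MemLp (Ah τ h0 h r f ν) 2 μ := fun ν => memLp_ah τ h0 h hr hr2 hf ν
  have e1 : (fun x => Ah τ h0 h f0 f ν x - Ah τ h0 h f0 f ν' x) = fun x =>
      C * (Ah τ h0 h F f ν x - Ah τ h0 h F f ν' x) +
      ((Ah τ h0 h v f ν x - Ah τ h0 h v f ν' x) +
        (Ah τ h0 h r f ν x - Ah τ h0 h r f ν' x)) := by
    funext x
    rw [key, key]
    ring
  rw [e1]
  have a1 : MemLp (fun x => C * (Ah τ h0 h F f ν x - Ah τ h0 h F f ν' x)) 2 μ :=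
    ((mF ν).sub (mF ν')).const_mul C
  have a2 : MemLp (fun x => Ah τ h0 h v f ν x - Ah τ h0 h v f ν' x) 2 μ := (mv ν).sub (mv ν')
  have a3 : MemLp (fun x => Ah τ h0 h r f ν x - Ah τ h0 h r f ν' x) 2 μ := (mr ν).sub (mr ν')
  have b1 : n2 μ (fun x => C * (Ah τ h0 h F f ν x - Ah τ h0 h F f ν' x) +
      ((Ah τ h0 h v f ν x - Ah τ h0 h v f ν' x) +
        (Ah τ h0 h r f ν x - Ah τ h0 h r f ν' x))) ≤
      n2 μ (fun x => C * (Ah τ h0 h F f ν x - Ah τ h0 h F f ν' x)) +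
      n2 μ (fun x => (Ah τ h0 h v f ν x - Ah τ h0 h v f ν' x) +
        (Ah τ h0 h r f ν x - Ah τ h0 h r f ν' x)) := n2_add_le a1 (a2.add a3)
  have b2 : n2 μ (fun x => (Ah τ h0 h v f ν x - Ah τ h0 h v f ν' x) +
        (Ah τ h0 h r f ν x - Ah τ h0 h r f ν' x)) ≤
      n2 μ (fun x => Ah τ h0 h v f ν x - Ah τ h0 h v f ν' x) +
      n2 μ (fun x => Ah τ h0 h r f ν x - Ah τ h0 h r f ν' x) := n2_add_le a2 a3
  have b3 := n2_const_mul (μ := μ) C (fun x => Ah τ h0 h F f ν x - Ah τ h0 h F f ν' x)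
  rw [abs_of_nonneg (by linarith : (0 : ℝ) ≤ C)] at b3
  have b4 := n2_sub_le2 (mv ν) (mv ν')
  have b5 := n2_sub_le2 (mr ν) (mr ν')
  have b6 := n2_ah_le τ h0 h hr hr2 hf ν
  have b7 := n2_ah_le τ h0 h hr hr2 hf ν'
  have b8 : C * n2 μ (fun x => Ah τ h0 h F f ν x - Ah τ h0 h F f ν' x) ≤ C * e :=
    mul_le_mul_of_nonneg_left h1 (by linarith)
  linarith

theorem step {Γ G : Type} [AddCommGroup Γ] [AddCommGroup G] {d : ℕ} (hd : Stab Γ G d) :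
    Stab Γ G (d + 1) := by
  intro ε hε
  obtain ⟨δ, hδ⟩ : ∃ δ, δ = ε / 64 := ⟨_, rfl⟩
  have hδ0 : 0 < δ := by rw [hδ]; positivity
  obtain ⟨R0, hR0⟩ := exists_nat_gt (4 / δ ^ 2)
  have hRδ : 4 ≤ δ ^ 2 * ((R0 + 1 : ℕ) : ℝ) := by
    rw [div_lt_iff₀ (by positivity)] at hR0
    push_cast
    nlinarith [sq_nonneg δ]
  obtain ⟨R, hR⟩ : ∃ R, R = R0 + 1 := ⟨_, rfl⟩
  rw [← hR] at hRδ
  have hRpos : 0 < R := by omega
  obtain ⟨M, hM1, hM3⟩ : ∃ M : ℝ, 1 ≤ M ∧ 3 / M ≤ δ ^ 2 := by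
    refine ⟨max 1 (3 / δ ^ 2), le_max_left _ _, ?_⟩
    rw [div_le_iff₀ (lt_of_lt_of_le one_pos (le_max_left _ _))]
    have h1 : 3 / δ ^ 2 ≤ max 1 (3 / δ ^ 2) := le_max_right _ _
    rw [div_le_iff₀ (by positivity)] at h1
    linarith
  have hM0 : 0 < M := by linarith
  have hMR : 0 < M ^ R := by positivity
  obtain ⟨ε', hε'⟩ : ∃ e, e = ε / (4 * M ^ R) := ⟨_, rfl⟩
  obtain ⟨δ₁, hδ₁⟩ : ∃ e, e = ε / (16 * M ^ R) := ⟨_, rfl⟩
  have hε'0 : 0 < ε' := by rw [hε']; positivity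
  have hδ₁0 : 0 < δ₁ := by rw [hδ₁]; positivity
  have hsmall : M ^ R * (ε' + 2 * δ₁) = 3 * ε / 8 := by
    rw [hε', hδ₁]
    field_simp
    ring
  obtain ⟨N, η₁, hη₁, H⟩ := redStab hd ε' hε'0
  refine ⟨R * (N + 1), min η₁ δ₁, lt_min hη₁ hδ₁0, ?_⟩
  intro X mX μ hμ τ S hS ι hι g hg f hf ν hν
  obtain ⟨S', h0, hS', hCx⟩ := hS
  obtain ⟨κ, hκ, h, P, f0, f', hhS, hP, hf0, hf', hAg⟩ :=
    dom τ S' h0 g (fun i => hS' (g i) (hg i)) hf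
  obtain ⟨L, hL⟩ : ∃ L : ℕ → Set Γ, L = fun i =>
    {l | ∃ s < (R - i) * (N + 1), l ∈ (ν s).s} := ⟨_, rfl⟩
  have hLm : ∀ i, L (i + 1) ⊆ L i := by
    intro i l hl
    rw [hL] at hl ⊢
    obtain ⟨s, hs, hl⟩ := hl
    exact ⟨s, lt_of_lt_of_le hs (Nat.mul_le_mul_right _ (by omega)), hl⟩
  have hC1 : ∀ i : ℕ, (1 : ℝ) ≤ M ^ i := fun i => one_le_pow₀ hM1
  have hCm : ∀ i : ℕ, M ^ i ≤ M ^ (i + 1) := fun i => pow_le_pow_right₀ hM1 (Nat.le_succ i)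
  obtain ⟨i, hi, F, hF, v, r, hv, hr, he, hvC, hr2, hrδ, hσ⟩ :=
    dec (μ := μ) R hRpos hδ0 hRδ (fun i => {F | RC τ h h0 (L i) δ₁ F})
      (fun i F hF => hF.1) (fun i => rc_zero τ h h0 (L i) hδ₁0.le)
      (fun i F hF => rc_neg τ h h0 hF)
      (fun i F hF F' hF' a b ha hb hab => rc_convex τ h h0 hF hF' ha hb hab)
      (fun i F hF => rc_anti τ h h0 (hLm i) hF) (fun i => M ^ i) hC1 hCm hf0
  obtain ⟨q, hq⟩ : ∃ q, q = R - 1 - i := ⟨_, rfl⟩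
  have hq1 : R - i = q + 1 := by omega
  have hq2 : R - (i + 1) = q := by omega
  have hqR : (q + 1) * (N + 1) ≤ R * (N + 1) := Nat.mul_le_mul_right _ (by omega)
  have hq3 : (q + 1) * (N + 1) = q * (N + 1) + (N + 1) := by ring
  obtain ⟨a, ha⟩ : ∃ a, a = q * (N + 1) := ⟨_, rfl⟩
  rw [← ha] at hq3
  have haK : a + N + 1 ≤ R * (N + 1) := by omega
  obtain ⟨s, hs, hle⟩ := H X mX μ hμ τ κ hκ h h0 S' hhS hCx f' hf' (L i) δ₁ hδ₁0.le F hF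
    (fun s => ν (a + s)) (chain_mono (min_le_left _ _) (chain_shift hν a N (by omega)))
    (by
      intro s hs l hl
      rw [hL]
      refine ⟨a + s, ?_, hl⟩
      rw [hq1, hq3]
      omega)
  have hInv : ∀ t, a ≤ t → t ≤ R * (N + 1) → Inv (min η₁ δ₁) (ν t) (L (i + 1)) := by
    intro t hat htK l hl
    rw [hL] at hl
    obtain ⟨s', hs', hl⟩ := hl
    rw [hq2, ← ha] at hs'
    exact hν s' t (by omega) htK l hl
  have hBθ : 3 * M ^ i * (1 / M ^ (i + 1) + 3 * δ ^ 2 / M ^ i) = 3 / M + 9 * δ ^ 2 := by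
    have h1 : M ^ i ≠ 0 := by positivity
    have h2 : M ≠ 0 := hM0.ne'
    rw [pow_succ]
    field_simp
    ring
  have hAv : ∀ t, a ≤ t → t ≤ R * (N + 1) → n2 μ (Ah τ h0 h v f' (ν t)) ≤ 4 * δ := by
    intro t hat htK
    have h1 := corr τ h h0 hf' hv (B := 3 * M ^ i) (by positivity) hvC (L := L (i + 1))
      (δ := δ₁) (η := min η₁ δ₁) (min_le_right _ _) (hInv t hat htK)
      (θ := 1 / M ^ (i + 1) + 3 * δ ^ 2 / M ^ i) hσ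
    rw [hBθ] at h1
    refine abs_le_of_sq_le_sq' ?_ (by positivity) |>.2
    nlinarith [sq_nonneg δ]
  have hfin := block τ h0 h hf' (hC1 i) hF.1 hv hvC hr hr2 hrδ he (ν (a + s)) (ν (a + s + 1))
    hle (hAv (a + s) (by omega) (by omega)) (hAv (a + s + 1) (by omega) (by omega))
  have hCi : M ^ i * (ε' + 2 * δ₁) ≤ 3 * ε / 8 := by
    rw [← hsmall]
    exact mul_le_mul_of_nonneg_right (pow_le_pow_right₀ hM1 hi.le) (by positivity)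
  refine ⟨a + s, by omega, ?_⟩
  have hA : ∀ t, Bd (Ah τ h0 h f0 f' (ν t)) := fun t => bd_ah τ h0 h hf0 hf' (ν t)
  have hD : MemLp (fun x => Ah τ h0 h f0 f' (ν (a + s)) x -
      Ah τ h0 h f0 f' (ν (a + s + 1)) x) 2 μ :=
    (memLp_of_bound (hA (a + s)).1 (hA (a + s)).2).sub
      (memLp_of_bound (hA (a + s + 1)).1 (hA (a + s + 1)).2)
  have hmono : n2 μ (fun x => Ag τ g f (ν (a + s)) x - Ag τ g f (ν (a + s + 1)) x) ≤
      n2 μ (fun x => Ah τ h0 h f0 f' (ν (a + s)) x - Ah τ h0 h f0 f' (ν (a + s + 1)) x) := by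
    refine n2_mono hD fun x => ?_
    rw [hAg, hAg, ← mul_sub, abs_mul]
    calc |P x| * |Ah τ h0 h f0 f' (ν (a + s)) x - Ah τ h0 h f0 f' (ν (a + s + 1)) x|
        ≤ 1 * |Ah τ h0 h f0 f' (ν (a + s)) x - Ah τ h0 h f0 f' (ν (a + s + 1)) x| :=
          mul_le_mul_of_nonneg_right (hP.2 x) (abs_nonneg _)
      _ = _ := one_mul _
  refine hmono.trans (hfin.trans ?_)
  rw [hδ]
  linarith

end Pool.Agent.MRS
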