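import Pool.Agent.MRS.WaMain
import Pool.Agent.MRS.WaPet

/-!
# MRS / WaThm: the theorem of Walsh (finite chain form) for commuting polynomial actions

PROOFS.  `d` from `cx_exists D J`, `S = Set.range g` has `Sz J` (`Finset.image g univ`).
`walsh`: `stab Γ G d`.  `walsh_cnt`: `stab_cnt`.  `walsh_avg`: `avgStab` with `S o = Set.range (g o)`.
-/

set_option autoImplicit false

namespace Pool.Agent.MRS

open MeasureTheory

theorem sz_range {Γ G ι : Type} [Fintype ι] {J : ℕ} (h : Fintype.card ι ≤ J) (g : ι → Γ → G) :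
    Sz J (Set.range g) := by
  classical
  refine ⟨Finset.univ.image g, ?_, ?_⟩
  · exact Finset.card_image_le.trans (by simpa using h)
  · rintro _ ⟨i, rfl⟩
    exact Finset.mem_coe.2 (Finset.mem_image_of_mem g (Finset.mem_univ i))

/-- Walsh's theorem in finite chain form. -/
theorem walsh (Γ G : Type) [AddCommGroup Γ] [AddCommGroup G] (D J : ℕ) :
    ∀ ε : ℝ, 0 < ε → ∃ (K : ℕ) (η : ℝ), 0 < η ∧
    ∀ (X : Type) (_ : MeasurableSpace X) (μ : Measure X) (_ : IsProbabilityMeasure μ)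
      (τ : Act G μ) (ι : Type) (_ : Fintype ι) (g : ι → Γ → G), Fintype.card ι ≤ J →
      (∀ i, g i ∈ (Pd D : Set (Γ → G))) → ∀ f : ι → X → ℝ, (∀ i, Bd (f i)) →
      ∀ ν : ℕ → Pr Γ, Chain η ν K →
      ∃ s < K, n2 μ (fun x => Ag τ g f (ν s) x - Ag τ g f (ν (s + 1)) x) ≤ ε := by
  intro ε hε
  obtain ⟨d, hd⟩ := cx_exists (Γ := Γ) (G := G) D J
  obtain ⟨K, η, hη, h⟩ := stab Γ G d ε hε
  refine ⟨K, η, hη, ?_⟩
  intro X _ μ _ τ ι _ g hJ hg f hf ν hν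
  exact h X _ μ inferInstance τ (Set.range g) (hd _ (sz_range hJ g) (by rintro _ ⟨i, rfl⟩; exact hg i))
    ι _ g (fun i => ⟨i, rfl⟩) f hf ν hν

/-- The counting form. -/
theorem walsh_cnt (Γ G : Type) [AddCommGroup Γ] [AddCommGroup G] (D J : ℕ) :
    ∀ ε : ℝ, 0 < ε → ∃ (K : ℕ) (η : ℝ), 0 < η ∧
    ∀ (X : Type) (_ : MeasurableSpace X) (μ : Measure X) (_ : IsProbabilityMeasure μ)
      (τ : Act G μ) (ι : Type) (_ : Fintype ι) (g : ι → Γ → G), Fintype.card ι ≤ J →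
      (∀ i, g i ∈ (Pd D : Set (Γ → G))) → ∀ f : ι → X → ℝ, (∀ i, Bd (f i)) →
      ∀ (ν : ℕ → Pr Γ) (N : ℕ), Chain η ν N → ((Finset.range N).filter fun s =>
        ε < n2 μ (fun x => Ag τ g f (ν s) x - Ag τ g f (ν (s + 1)) x)).card ≤ K := by
  intro ε hε
  obtain ⟨d, hd⟩ := cx_exists (Γ := Γ) (G := G) D J
  obtain ⟨K, η, hη, h⟩ := stab_cnt (stab Γ G d) ε hε
  refine ⟨K, η, hη, ?_⟩
  intro X _ μ _ τ ι _ g hJ hg f hf ν N hν
  exact h X _ μ inferInstance τ (Set.range g) (hd _ (sz_range hJ g) (by rintro _ ⟨i, rfl⟩; exact hg i))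
    ι _ g (fun i => ⟨i, rfl⟩) f hf ν N hν

/-- The averaged form. -/
theorem walsh_avg (Γ G : Type) [AddCommGroup Γ] [AddCommGroup G] (D J : ℕ) :
    ∀ ε : ℝ, 0 < ε → ∃ (N : ℕ) (η : ℝ), 0 < η ∧
    ∀ (X : Type) (_ : MeasurableSpace X) (μ : Measure X) (_ : IsProbabilityMeasure μ)
      (τ : Act G μ) (Ω : Type) (_ : Fintype Ω) (w : Ω → ℝ), (∀ o, 0 ≤ w o) → ∑ o, w o = 1 →
      ∀ (ι : Type) (_ : Fintype ι) (g : Ω → ι → Γ → G), Fintype.card ι ≤ J →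
      (∀ o i, g o i ∈ (Pd D : Set (Γ → G))) → ∀ f : Ω → ι → X → ℝ, (∀ o i, Bd (f o i)) →
      ∀ ν : ℕ → Pr Γ, Chain η ν N → ∃ s < N, ∑ o, w o *
        n2 μ (fun x => Ag τ (g o) (f o) (ν s) x - Ag τ (g o) (f o) (ν (s + 1)) x) ≤ ε := by
  intro ε hε
  obtain ⟨d, hd⟩ := cx_exists (Γ := Γ) (G := G) D J
  obtain ⟨N, η, hη, h⟩ := avgStab (stab Γ G d) ε hε
  refine ⟨N, η, hη, ?_⟩
  intro X _ μ _ τ Ω _ w hw hw1 ι _ g hJ hg f hf ν hν
  exact h X _ μ inferInstance τ Ω _ w hw hw1 (fun o => Set.range (g o))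
    (fun o => hd _ (sz_range hJ (g o)) (by rintro _ ⟨i, rfl⟩; exact hg o i))
    ι _ g (fun o i => ⟨i, rfl⟩) f hf ν hν

end Pool.Agent.MRS
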