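import Pool.Agent.MRS.WaPd

/-!
# MRS / WaTr: the van der Corput operations end after boundedly many steps

PROOFS.  `tr_two`: assume `hT` (the theorem for `D`).  Induction on `c` (for all `J`, `k`).
`c = 0`: `R2 = ∅` (`Cls D 0` has no representative), `tr_mono`.
`c → c + 1`: induction on `k` (for all `J`).
`k = 0`: `R1` consists of constants.  `k1` from `hT (2 J)`, `k2` from the induction hypothesis for
`c`, with `2 J`, `k1`; `k' = k2 + 1`, `r0 = p (last)`.  Let `v ∈ Vm (R1 ∪ R2) r0 m = Vm R2 r0 m`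
(`vm_union`, `vm_const`) come from `r ∈ R2`, `r - p j ∈ Pd D`; `r ∈ Pd (D+1)` (`p j ∈ Pd (D+1)`), so
`r(· + m) - r ∈ Pd D` (definition of `Pd (D+1)`) and in both cases `v - (p j - p last) ∈ Pd D`.
If `j = last`, `v ∈ Pd D`.  So `Vm .. ⊆ V1 ∪ V2`, `V1 = {v ∈ Vm .. | v ∈ Pd D}`,
`V2 = {v ∈ Vm .. | ∃ j : Fin c, v - (p j.castSucc - p last) ∈ Pd D}`, both of size `≤ 2 J` (`sz_vm`),
`Tr D k1 V1` by `hT`, `Cls D c V2` with the representatives `p j.castSucc - p last`.
`k → k + 1`: `Tr D (k+1) R1` gives `r0 ∈ Pd D`.  `k' = k'' + 1`, `k''` from the induction hypothesis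
for `k` and `2 J`.  `Vm (R1 ∪ R2) = Vm R1 ∪ Vm R2`; `Vm R1 ⊆ Pd D` (`pd_sub`, `pd_shift`),
`Cls D (c+1) (Vm R2 r0 m)` with the same `p` (`r - r0 - p j`, `r(· + m) - r0 - p j ∈ Pd D`).
`tr_exists`: induction on `D`.  `D = 0`: `k = 0`.  `D + 1`: `tr_two` with `c = J`, `k = 0`, `R1 = ∅`,
`R2 = R`; the representatives are the elements of `R` (enumerate the finset `s` of `Sz J R` by
`Fin J`, replace elements outside of `R` by `0`).
-/

set_option autoImplicit false

namespace Pool.Agent.MRS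

variable {Γ G : Type} [AddCommGroup Γ] [AddCommGroup G]

private theorem pd_congr {e : ℕ} {f g : Γ → G} (hf : f ∈ (Pd e : Set (Γ → G)))
    (h : ∀ n, g n = f n) : g ∈ (Pd e : Set (Γ → G)) := by
  rw [show g = f from funext h]
  exact hf

theorem cls_self {D J : ℕ} {R : Set (Γ → G)} (hJ : Sz J R) (hR : R ⊆ Pd (D + 1)) :
    Cls D J R := by
  classical
  obtain ⟨s, hs, hRs⟩ := hJ
  let q : Fin J → Γ → G := fun j =>
    if h : (j : ℕ) < s.card then ((s.equivFin.symm ⟨j, h⟩ : s) : Γ → G) else fun _ => 0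
  refine ⟨fun j => if q j ∈ R then q j else fun _ => 0, fun j => ?_, fun r hr => ?_⟩
  · by_cases h : q j ∈ R
    · simp only [h, if_true]
      exact hR h
    · simp only [h, if_false]
      exact pd_const _ _
  · have hrs : r ∈ s := hRs hr
    let i : Fin s.card := s.equivFin ⟨r, hrs⟩
    have hq : q (Fin.castLE hs i) = r := by
      have h1 : ((Fin.castLE hs i : Fin J) : ℕ) < s.card := i.2
      simp only [q]
      rw [dif_pos h1]
      have h2 : (⟨((Fin.castLE hs i : Fin J) : ℕ), h1⟩ : Fin s.card) = i := rfl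
      rw [h2]
      simp [i]
    refine ⟨Fin.castLE hs i, ?_⟩
    have h3 : (if q (Fin.castLE hs i) ∈ R then q (Fin.castLE hs i) else fun _ => (0 : G)) = r := by
      rw [hq, if_pos hr]
    have h4 : ∀ n, (fun n => r n - (if q (Fin.castLE hs i) ∈ R then q (Fin.castLE hs i)
        else fun _ => (0 : G)) n) n = (fun _ => (0 : G)) n := by
      intro n
      simp only [h3]
      exact sub_self _
    exact pd_congr (pd_const D (0 : G)) h4

theorem tr_two {D : ℕ}
    (hT : ∀ J : ℕ, ∃ k : ℕ, ∀ R : Set (Γ → G), Sz J R → R ⊆ Pd D → Tr D k R) :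
    ∀ c J k : ℕ, ∃ k' : ℕ, ∀ R1 R2 : Set (Γ → G), Sz J R1 → Sz J R2 → R1 ⊆ Pd D → Tr D k R1 →
      Cls D c R2 → Tr (D + 1) k' (R1 ∪ R2) := by
  intro c
  induction c with
  | zero =>
    intro J k
    refine ⟨k, fun R1 R2 _ _ _ ht hc => ?_⟩
    obtain ⟨p, _, hcl⟩ := hc
    have h0 : R1 ∪ R2 ⊆ R1 := by
      rintro x (hx | hx)
      · exact hx
      · obtain ⟨j, _⟩ := hcl x hx
        exact j.elim0
    exact tr_mono (tr_subset h0 ht)
  | succ c ihc =>
    intro J k
    induction k generalizing J with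
    | zero =>
      obtain ⟨k1, h1⟩ := hT (2 * J)
      obtain ⟨k2, h2⟩ := ihc (2 * J) k1
      refine ⟨k2 + 1, fun R1 R2 hJ1 hJ2 hR1 hT1 hC => ?_⟩
      obtain ⟨p, hp, hcl⟩ := hC
      refine ⟨p (Fin.last c), hp _, fun m => ?_⟩
      rw [vm_union, vm_const hT1, Set.empty_union]
      have key : ∀ v ∈ Vm R2 (p (Fin.last c)) m, ∃ j : Fin (c + 1),
          (fun n => v n - (p j n - p (Fin.last c) n)) ∈ (Pd D : Set (Γ → G)) := by
        rintro v ⟨r, hr, _, hv⟩
        obtain ⟨j, hj⟩ := hcl r hr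
        have hr1 : r ∈ (Pd (D + 1) : Set (Γ → G)) :=
          pd_congr (pd_add (pd_succ D hj) (hp j)) (fun n => by simp)
        refine ⟨j, ?_⟩
        rcases hv with rfl | rfl
        · exact pd_congr hj (fun n => by dsimp only; abel)
        · exact pd_congr (pd_add (hr1 m) hj) (fun n => by dsimp only; abel)
      let V1 : Set (Γ → G) := {v | v ∈ Vm R2 (p (Fin.last c)) m ∧ v ∈ (Pd D : Set (Γ → G))}
      let V2 : Set (Γ → G) := {v | v ∈ Vm R2 (p (Fin.last c)) m ∧ ∃ j : Fin c,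
        (fun n => v n - (p j.castSucc n - p (Fin.last c) n)) ∈ (Pd D : Set (Γ → G))}
      have hsz := sz_vm hJ2 (p (Fin.last c)) m
      have hs1 : Sz (2 * J) V1 := sz_mono le_rfl (fun v hv => hv.1) hsz
      have hs2 : Sz (2 * J) V2 := sz_mono le_rfl (fun v hv => hv.1) hsz
      have hV1 : V1 ⊆ Pd D := fun v hv => hv.2
      have hsub : Vm R2 (p (Fin.last c)) m ⊆ V1 ∪ V2 := by
        intro v hv
        obtain ⟨j, hj⟩ := key v hv
        refine Fin.lastCases (motive := fun j => (fun n => v n - (p j n - p (Fin.last c) n)) ∈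
          (Pd D : Set (Γ → G)) → v ∈ V1 ∪ V2) ?_ ?_ j hj
        · intro h
          exact Or.inl ⟨hv, pd_congr h (fun n => by simp)⟩
        · intro i h
          exact Or.inr ⟨hv, i, h⟩
      refine tr_subset hsub (h2 V1 V2 hs1 hs2 hV1 (h1 V1 hs1 hV1) ?_)
      refine ⟨fun j n => p j.castSucc n - p (Fin.last c) n, fun j => pd_sub (hp _) (hp _),
        fun r hr => ?_⟩
      obtain ⟨_, j, hj⟩ := hr
      exact ⟨j, hj⟩
    | succ k ihk =>
      obtain ⟨k', h'⟩ := ihk (2 * J)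
      refine ⟨k' + 1, fun R1 R2 hJ1 hJ2 hR1 hT1 hC => ?_⟩
      obtain ⟨r0, hr0, ht⟩ := hT1
      obtain ⟨p, hp, hcl⟩ := hC
      refine ⟨r0, pd_succ D hr0, fun m => ?_⟩
      rw [vm_union]
      refine h' _ _ (sz_vm hJ1 r0 m) (sz_vm hJ2 r0 m) ?_ (ht m) ⟨p, hp, ?_⟩
      · rintro v ⟨r, hr, _, hv⟩
        rcases hv with rfl | rfl
        · exact pd_sub (hR1 hr) hr0
        · exact pd_sub (pd_shift (hR1 hr) m) hr0
      · rintro v ⟨r, hr, _, hv⟩
        obtain ⟨j, hj⟩ := hcl r hr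
        have hr1 : r ∈ (Pd (D + 1) : Set (Γ → G)) :=
          pd_congr (pd_add (pd_succ D hj) (hp j)) (fun n => by simp)
        refine ⟨j, ?_⟩
        rcases hv with rfl | rfl
        · exact pd_congr (pd_sub hj hr0) (fun n => by dsimp only; abel)
        · exact pd_congr (pd_sub (pd_add (hr1 m) hj) hr0) (fun n => by dsimp only; abel)

theorem tr_exists (D : ℕ) :
    ∀ J : ℕ, ∃ k : ℕ, ∀ R : Set (Γ → G), Sz J R → R ⊆ Pd D → Tr D k R := by
  induction D with
  | zero => exact fun J => ⟨0, fun R _ hR => hR⟩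
  | succ D ih =>
    intro J
    obtain ⟨k', hk'⟩ := tr_two ih J J 0
    refine ⟨k', fun R hJ hR => ?_⟩
    have h := hk' ∅ R (sz_empty J) hJ (Set.empty_subset _) (Set.empty_subset _) (cls_self hJ hR)
    rwa [Set.empty_union] at h

end Pool.Agent.MRS
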