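import Pool.Agent.MRS.WbDefs

/-!
# MRS / WbBox: boxes become invariant

PROOFS.  `card_bx`: `Fintype.card_piFinset`, `Int.card_Ico`.
`shift_sum`: for a finite set `B` of an additive commutative group and `|Φ| ≤ 1`,
`|∑ x ∈ B, Φ (x + l) - ∑ x ∈ B, Φ x| ≤ 2 * card {x ∈ B | x + l ∉ B}`: the points `x ∈ B` with `x + l ∈ B`
give (`x ↦ x + l`, injective) `∑ y ∈ B, y - l ∈ B, Φ y`; the remaining `y ∈ B` (`y - l ∉ B`) are as many as
the `x ∈ B` with `x + l ∉ B` (both are `card B` minus the same number).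
`card_bad`: `{x ∈ bx a N | x + l ∉ bx a N}` is contained in the union over `i` of
`{x ∈ bx a N | x i + l i ∉ Ico (a i) (a i + N i)}`, which is the `piFinset` with the `i`-th factor replaced
by a set of at most `|l i|` elements, so its card times `N i` is at most `|l i| * card (bx a N)`.
`inv_bx`: divide by the card: `|E Φ(· + l) - E Φ| ≤ 2 * ∑ i, |l i| / N i`.
`fam_bxF`: given `η, L` take `n` with `2 * (card ι) * M ≤ η * (n + 1)`, `M ≥ |l i|` for `l ∈ L`.
-/

set_option autoImplicit false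

namespace Pool.Agent.MRS

theorem card_bx {ι : Type} [Fintype ι] [DecidableEq ι] (a : ι → ℤ) (N : ι → ℕ) :
    (bx a N).card = ∏ i, N i := by
  rw [bx, Fintype.card_piFinset]
  exact Finset.prod_congr rfl fun i _ => by rw [Int.card_Ico]; omega

theorem shift_sum {Γ : Type} [AddCommGroup Γ] [DecidableEq Γ] (B : Finset Γ) (l : Γ) (Φ : Γ → ℝ)
    (hΦ : ∀ x, |Φ x| ≤ 1) : |∑ x ∈ B, Φ (x + l) - ∑ x ∈ B, Φ x| ≤
      2 * ((B.filter fun x => x + l ∉ B).card : ℝ) := by
  have hinj : ∀ x ∈ B.filter (fun x => x + l ∈ B), ∀ y ∈ B.filter (fun x => x + l ∈ B),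
      x + l = y + l → x = y := fun x _ y _ h => add_right_cancel h
  obtain ⟨C, hC⟩ : ∃ C, C = (B.filter fun x => x + l ∈ B).image (· + l) := ⟨_, rfl⟩
  have hCB : C ⊆ B := by
    intro y hy
    rw [hC] at hy
    obtain ⟨x, hx, rfl⟩ := Finset.mem_image.1 hy
    exact (Finset.mem_filter.1 hx).2
  have h1 : ∑ x ∈ B.filter (fun x => x + l ∈ B), Φ (x + l) = ∑ y ∈ C, Φ y := by
    rw [hC, Finset.sum_image hinj]
  have hc1 : C.card = (B.filter fun x => x + l ∈ B).card := by
    rw [hC, Finset.card_image_of_injOn fun x hx y hy h => hinj x hx y hy h]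
  have hc2 : (B \ C).card = (B.filter fun x => x + l ∉ B).card := by
    have h2 := Finset.card_filter_add_card_filter_not (s := B) (fun x => x + l ∈ B)
    have h3 := Finset.card_sdiff_add_card_eq_card hCB
    omega
  have h2 : ∑ x ∈ B, Φ (x + l) - ∑ x ∈ B, Φ x =
      ∑ x ∈ B.filter (fun x => x + l ∉ B), Φ (x + l) - ∑ x ∈ B \ C, Φ x := by
    rw [← Finset.sum_filter_add_sum_filter_not B (fun x => x + l ∈ B) (fun x => Φ (x + l)), h1,
      ← Finset.sum_sdiff hCB]
    ring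
  rw [h2]
  have h3 : |∑ x ∈ B.filter (fun x => x + l ∉ B), Φ (x + l)| ≤
      ((B.filter fun x => x + l ∉ B).card : ℝ) := by
    refine (Finset.abs_sum_le_sum_abs _ _).trans ?_
    refine (Finset.sum_le_sum fun x _ => hΦ (x + l)).trans ?_
    rw [Finset.sum_const, nsmul_eq_mul, mul_one]
  have h4 : |∑ x ∈ B \ C, Φ x| ≤ ((B.filter fun x => x + l ∉ B).card : ℝ) := by
    refine (Finset.abs_sum_le_sum_abs _ _).trans ?_
    refine (Finset.sum_le_sum fun x _ => hΦ x).trans ?_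
    rw [Finset.sum_const, nsmul_eq_mul, mul_one, hc2]
  have h5 := abs_sub (∑ x ∈ B.filter (fun x => x + l ∉ B), Φ (x + l)) (∑ x ∈ B \ C, Φ x)
  linarith

private theorem card_bad_one (a l : ℤ) (N : ℕ) :
    ((Finset.Ico a (a + N)).filter fun t => t + l ∉ Finset.Ico a (a + N)).card ≤ l.natAbs := by
  rcases le_total 0 l with h | h
  · have h1 : ((Finset.Ico a (a + N)).filter fun t => t + l ∉ Finset.Ico a (a + N)) ⊆
        Finset.Ico (a + N - l) (a + N) := by
      intro t ht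
      rw [Finset.mem_filter, Finset.mem_Ico, Finset.mem_Ico] at ht
      rw [Finset.mem_Ico]
      omega
    refine (Finset.card_le_card h1).trans ?_
    rw [Int.card_Ico]
    omega
  · have h1 : ((Finset.Ico a (a + N)).filter fun t => t + l ∉ Finset.Ico a (a + N)) ⊆
        Finset.Ico a (a - l) := by
      intro t ht
      rw [Finset.mem_filter, Finset.mem_Ico, Finset.mem_Ico] at ht
      rw [Finset.mem_Ico]
      omega
    refine (Finset.card_le_card h1).trans ?_
    rw [Int.card_Ico]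
    omega

private theorem card_bad_i {ι : Type} [Fintype ι] [DecidableEq ι] (a : ι → ℤ) (N : ι → ℕ)
    (hN : ∀ i, 0 < N i) (l : ι → ℤ) (i : ι) :
    (((bx a N).filter fun x => x i + l i ∉ Finset.Ico (a i) (a i + N i)).card : ℝ) ≤
      |(l i : ℝ)| / N i * ((bx a N).card : ℝ) := by
  obtain ⟨t, ht⟩ : ∃ t, t = (Finset.Ico (a i) (a i + N i)).filter
    fun t => t + l i ∉ Finset.Ico (a i) (a i + N i) := ⟨_, rfl⟩
  have hts : t ⊆ Finset.Ico (a i) (a i + N i) := by
    rw [ht]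
    exact Finset.filter_subset _ _
  have h1 : ((bx a N).filter fun x => x i + l i ∉ Finset.Ico (a i) (a i + N i)) =
      Fintype.piFinset (Function.update (fun i => Finset.Ico (a i) (a i + N i)) i t) := by
    rw [Fintype.piFinset_update_eq_filter_piFinset_mem _ _ hts]
    ext x
    rw [Finset.mem_filter, Finset.mem_filter, ht, Finset.mem_filter]
    constructor
    · rintro ⟨h2, h3⟩
      exact ⟨h2, (Fintype.mem_piFinset.1 h2) i, h3⟩
    · rintro ⟨h2, -, h3⟩
      exact ⟨h2, h3⟩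
  have hNi : (0 : ℝ) < N i := by exact_mod_cast hN i
  have h2 : t.card ≤ (l i).natAbs := by
    rw [ht]
    exact card_bad_one _ _ _
  have h3 : ((bx a N).filter fun x => x i + l i ∉ Finset.Ico (a i) (a i + N i)).card * N i =
      t.card * (bx a N).card := by
    rw [h1, Fintype.card_piFinset, card_bx, ← Finset.mul_prod_erase Finset.univ _ (Finset.mem_univ i),
      Function.update_self, ← Finset.mul_prod_erase Finset.univ N (Finset.mem_univ i)]
    have h4 : ∏ x ∈ Finset.univ.erase i,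
        (Function.update (fun i => Finset.Ico (a i) (a i + N i)) i t x).card =
        ∏ x ∈ Finset.univ.erase i, N x := by
      refine Finset.prod_congr rfl fun x hx => ?_
      rw [Function.update_of_ne (Finset.ne_of_mem_erase hx), Int.card_Ico]
      omega
    rw [h4]
    ring
  have h4 : (((bx a N).filter fun x => x i + l i ∉ Finset.Ico (a i) (a i + N i)).card : ℝ) * N i =
      (t.card : ℝ) * ((bx a N).card : ℝ) := by exact_mod_cast h3
  have h5 : (t.card : ℝ) ≤ |(l i : ℝ)| := by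
    have h6 : (t.card : ℝ) ≤ ((l i).natAbs : ℝ) := by exact_mod_cast h2
    rw [Nat.cast_natAbs, Int.cast_abs] at h6
    exact h6
  rw [div_mul_eq_mul_div, le_div_iff₀ hNi, h4]
  exact mul_le_mul_of_nonneg_right h5 (Nat.cast_nonneg _)

theorem card_bad {ι : Type} [Fintype ι] [DecidableEq ι] (a : ι → ℤ) (N : ι → ℕ)
    (hN : ∀ i, 0 < N i) (l : ι → ℤ) :
    (((bx a N).filter fun x => x + l ∉ bx a N).card : ℝ) ≤
      ∑ i, |(l i : ℝ)| / N i * ((bx a N).card : ℝ) := by
  have h1 : ((bx a N).filter fun x => x + l ∉ bx a N) ⊆ Finset.univ.biUnion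
      fun i => (bx a N).filter fun x => x i + l i ∉ Finset.Ico (a i) (a i + N i) := by
    intro x hx
    rw [Finset.mem_filter] at hx
    obtain ⟨h2, h3⟩ := hx
    rw [bx, Fintype.mem_piFinset] at h3
    push Not at h3
    obtain ⟨i, hi⟩ := h3
    exact Finset.mem_biUnion.2 ⟨i, Finset.mem_univ i, Finset.mem_filter.2 ⟨h2, hi⟩⟩
  have h2 := (Finset.card_le_card h1).trans Finset.card_biUnion_le
  have h3 : (((bx a N).filter fun x => x + l ∉ bx a N).card : ℝ) ≤ ∑ i,
      (((bx a N).filter fun x => x i + l i ∉ Finset.Ico (a i) (a i + N i)).card : ℝ) := by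
    exact_mod_cast h2
  exact h3.trans (Finset.sum_le_sum fun i _ => card_bad_i a N hN l i)

theorem inv_bx {ι : Type} [Fintype ι] [DecidableEq ι] (a : ι → ℤ) (N : ι → ℕ)
    (hN : ∀ i, 0 < N i) (l : ι → ℤ) (Φ : (ι → ℤ) → ℝ) (hΦ : ∀ x, |Φ x| ≤ 1) :
    |(bxm a N hN).E (fun x => Φ (x + l)) - (bxm a N hN).E Φ| ≤ 2 * ∑ i, |(l i : ℝ)| / N i := by
  have hc : (0 : ℝ) < ((bx a N).card : ℝ) := by
    exact_mod_cast (bx_nonempty a hN).card_pos
  have h1 : (bxm a N hN).E (fun x => Φ (x + l)) - (bxm a N hN).E Φ =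
      ((bx a N).card : ℝ)⁻¹ * (∑ x ∈ bx a N, Φ (x + l) - ∑ x ∈ bx a N, Φ x) := by
    show ∑ x ∈ bx a N, ((bx a N).card : ℝ)⁻¹ * Φ (x + l) -
      ∑ x ∈ bx a N, ((bx a N).card : ℝ)⁻¹ * Φ x = _
    rw [← Finset.mul_sum, ← Finset.mul_sum, mul_sub]
  rw [h1, abs_mul, abs_of_pos (inv_pos.2 hc), inv_mul_le_iff₀ hc]
  refine (shift_sum (bx a N) l Φ hΦ).trans ?_
  have h2 := card_bad a N hN l
  rw [← Finset.sum_mul] at h2
  linarith

theorem fam_bxF (ι : Type) [Fintype ι] [DecidableEq ι] : Fam (bxF ι) := by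
  refine ⟨fun n => ?_, fun η hη L => ?_⟩
  · rintro ν ⟨a, N, hN, h1, h2⟩
    exact ⟨a, N, hN, fun i => (Nat.lt_succ_self n).trans (h1 i), h2⟩
  · obtain ⟨M, hM⟩ : ∃ M : ℝ, M = ∑ l ∈ L, ∑ i, |(l i : ℝ)| := ⟨_, rfl⟩
    have hM0 : 0 ≤ M := by
      rw [hM]
      exact Finset.sum_nonneg fun l _ => Finset.sum_nonneg fun i _ => abs_nonneg _
    obtain ⟨n, hn⟩ := exists_nat_gt (2 * M / η)
    refine ⟨n, ?_⟩
    rintro ν ⟨a, N, hN, h1, rfl⟩ l hl Φ hΦ
    refine (inv_bx a N hN l Φ hΦ).trans ?_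
    have hn0 : (0 : ℝ) < (n : ℝ) + 1 := by positivity
    have h2 : ∑ i, |(l i : ℝ)| / N i ≤ ∑ i, |(l i : ℝ)| / ((n : ℝ) + 1) := by
      refine Finset.sum_le_sum fun i _ => ?_
      have h3 : (n : ℝ) + 1 ≤ N i := by exact_mod_cast h1 i
      exact div_le_div_of_nonneg_left (abs_nonneg _) hn0 h3
    have h4 : ∑ i, |(l i : ℝ)| ≤ M := by
      rw [hM]
      exact Finset.single_le_sum (f := fun l : ι → ℤ => ∑ i, |(l i : ℝ)|)
        (fun l _ => Finset.sum_nonneg fun i _ => abs_nonneg _) (Finset.mem_coe.1 hl)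
    rw [← Finset.sum_div] at h2
    have h5 : (∑ i, |(l i : ℝ)|) / ((n : ℝ) + 1) ≤ M / ((n : ℝ) + 1) :=
      div_le_div_of_nonneg_right h4 hn0.le
    have h6 : 2 * (M / ((n : ℝ) + 1)) ≤ η := by
      rw [← mul_div_assoc, div_le_iff₀ hn0]
      rw [div_lt_iff₀ hη] at hn
      nlinarith
    linarith

end Pool.Agent.MRS
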