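import Pool.Agent.MRS.WaDefs

/-!
# MRS / WbDefs: boxes, uniform measures, complex averages (corollaries of the theorem of Walsh)

* `unif s hs`: the uniform probability measure on the nonempty finite set `s`.
* `bx a N`: the box `∏ [a i, a i + N i)` in `ι → ℤ` (`ι` any finite index type).
* `bxm a N hN`: the uniform measure on it (all `0 < N i`).
* `EC ν Φ`: the mean of a complex function.
* `AgC τ g f ν x`: the multiple average of complex functions.
* `BdC f`: measurable and bounded by one.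
* `Fam 𝔉`: the decreasing sequence `𝔉` of sets of measures becomes invariant.
-/

set_option autoImplicit false

namespace Pool.Agent.MRS

open MeasureTheory

/-- The uniform measure on a nonempty finite set. -/
noncomputable def unif {Γ : Type} (s : Finset Γ) (hs : s.Nonempty) : Pr Γ where
  s := s
  w := fun _ => (s.card : ℝ)⁻¹
  nn := fun _ => by positivity
  one := by
    have : (s.card : ℝ) ≠ 0 := by exact_mod_cast hs.card_pos.ne'
    rw [Finset.sum_const, nsmul_eq_mul, mul_inv_cancel₀ this]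

/-- The box with corner `a` and sides `N`. -/
noncomputable def bx {ι : Type} [Fintype ι] [DecidableEq ι] (a : ι → ℤ) (N : ι → ℕ) : Finset (ι → ℤ) :=
  Fintype.piFinset fun i => Finset.Ico (a i) (a i + N i)

theorem bx_nonempty {ι : Type} [Fintype ι] [DecidableEq ι] (a : ι → ℤ) {N : ι → ℕ}
    (hN : ∀ i, 0 < N i) : (bx a N).Nonempty := by
  refine ⟨a, ?_⟩
  rw [bx, Fintype.mem_piFinset]
  intro i
  have := hN i
  rw [Finset.mem_Ico]
  omega

/-- The uniform measure on a box. -/
noncomputable def bxm {ι : Type} [Fintype ι] [DecidableEq ι] (a : ι → ℤ) (N : ι → ℕ)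
    (hN : ∀ i, 0 < N i) : Pr (ι → ℤ) := unif (bx a N) (bx_nonempty a hN)

/-- The mean of a complex function. -/
noncomputable def EC {Γ : Type} (ν : Pr Γ) (Φ : Γ → ℂ) : ℂ := ∑ x ∈ ν.s, (ν.w x : ℂ) * Φ x

/-- Measurable and bounded by one. -/
def BdC {X : Type} [MeasurableSpace X] (f : X → ℂ) : Prop := Measurable f ∧ ∀ x, ‖f x‖ ≤ 1

/-- The multiple average of complex functions. -/
noncomputable def AgC {Γ G : Type} [AddCommGroup G] {X : Type} [MeasurableSpace X]
    {μ : Measure X} (τ : Act G μ) {ι : Type} [Fintype ι] (g : ι → Γ → G) (f : ι → X → ℂ)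
    (ν : Pr Γ) (x : X) : ℂ :=
  EC ν fun n => ∏ i, f i (τ.t (g i n) x)

/-- The sets of measures `𝔉 n` decrease and become invariant. -/
def Fam {Γ : Type} [AddCommGroup Γ] (𝔉 : ℕ → Set (Pr Γ)) : Prop :=
  (∀ n, 𝔉 (n + 1) ⊆ 𝔉 n) ∧ ∀ η : ℝ, 0 < η → ∀ L : Finset Γ, ∃ n, ∀ ν ∈ 𝔉 n, Inv η ν (L : Set Γ)

/-- The measures on boxes with all sides at least `n + 1`. -/
def bxF (ι : Type) [Fintype ι] [DecidableEq ι] (n : ℕ) : Set (Pr (ι → ℤ)) :=
  {ν | ∃ (a : ι → ℤ) (N : ι → ℕ) (hN : ∀ i, 0 < N i), (∀ i, n < N i) ∧ ν = bxm a N hN}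

end Pool.Agent.MRS
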