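import Pool.Agent.MRS.WaThm
import Pool.Agent.MRS.WbDefs

/-!
# MRS / WbCx: complex averages through real averages

PROOFS.  For `t : Finset ι` put `rp f t i = fun x => if i ∈ t then (f i x).re else (f i x).im`.
`prod_split`: `f i y = (re : ℂ) + (im : ℂ) * I`, `Finset.prod_add` (over `Finset.univ.powerset`):
the product over `univ \ t` of `(im * I)` is `I ^ card * ∏ im`; `Finset.prod_ite`-type rewriting to get
the product of the real numbers `rp f t i (y i)`.
`agc_eq`: sum over `n`, exchange the two sums, `push_cast`.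
`int_agc_le`: by `agc_eq` the difference is `∑ t, I ^ _ * (d t : ℂ)` with
`d t x = Ag τ g (rp f t) ν x - Ag τ g (rp f t) ν' x`; the norm is at most `∑ t, |d t x|`, and
`(∑ t, |d t x|) ^ 2 ≤ 2 ^ card ι * ∑ t, d t x ^ 2` (`sq_sum_le_card_mul_sum_sq`, `Finset.card_powerset`).
Integrate (`d t` is measurable and bounded by `2`, `integral_finset_sum`), `∫ d t ^ 2 = n2 ^ 2 ≤ ε ^ 2`
(`n2_sq`), `2 ^ card ι` terms.
-/

set_option autoImplicit false

namespace Pool.Agent.MRS

open MeasureTheory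

/-- real or imaginary part, according to `i ∈ t` -/
noncomputable def rp {ι X : Type} [DecidableEq ι] (f : ι → X → ℂ) (t : Finset ι) (i : ι) (x : X) :
    ℝ := if i ∈ t then (f i x).re else (f i x).im

theorem bd_rp {ι X : Type} [DecidableEq ι] [MeasurableSpace X] {f : ι → X → ℂ}
    (hf : ∀ i, BdC (f i)) (t : Finset ι) (i : ι) : Bd (rp f t i) := by
  by_cases h : i ∈ t
  · have e : rp f t i = fun x => (f i x).re := by
      funext x
      unfold rp
      rw [if_pos h]
    rw [e]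
    exact ⟨Complex.measurable_re.comp (hf i).1,
      fun x => (Complex.abs_re_le_norm (f i x)).trans ((hf i).2 x)⟩
  · have e : rp f t i = fun x => (f i x).im := by
      funext x
      unfold rp
      rw [if_neg h]
    rw [e]
    exact ⟨Complex.measurable_im.comp (hf i).1,
      fun x => (Complex.abs_im_le_norm (f i x)).trans ((hf i).2 x)⟩

theorem prod_split {ι X : Type} [Fintype ι] [DecidableEq ι] (f : ι → X → ℂ) (y : ι → X) :
    ∏ i, f i (y i) = ∑ t : Finset ι, Complex.I ^ (Finset.univ \ t).card *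
      ((∏ i, rp f t i (y i) : ℝ) : ℂ) := by
  have h1 : ∀ i, f i (y i) = (((f i (y i)).re : ℝ) : ℂ) + (((f i (y i)).im : ℝ) : ℂ) * Complex.I :=
    fun i => (Complex.re_add_im (f i (y i))).symm
  rw [Finset.prod_congr rfl fun i _ => h1 i, Finset.prod_add, Finset.powerset_univ]
  refine Finset.sum_congr rfl fun t _ => ?_
  rw [Complex.ofReal_prod, ← Finset.prod_sdiff (Finset.subset_univ t), Finset.prod_mul_distrib,
    Finset.prod_const]
  have h2 : ∏ i ∈ Finset.univ \ t, ((rp f t i (y i) : ℝ) : ℂ) =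
      ∏ i ∈ Finset.univ \ t, (((f i (y i)).im : ℝ) : ℂ) := by
    refine Finset.prod_congr rfl fun i hi => ?_
    unfold rp
    rw [if_neg (Finset.mem_sdiff.1 hi).2]
  have h3 : ∏ i ∈ t, ((rp f t i (y i) : ℝ) : ℂ) = ∏ i ∈ t, (((f i (y i)).re : ℝ) : ℂ) := by
    refine Finset.prod_congr rfl fun i hi => ?_
    unfold rp
    rw [if_pos hi]
  rw [h2, h3]
  ring

theorem agc_eq {Γ G : Type} [AddCommGroup Γ] [AddCommGroup G] {X : Type} [MeasurableSpace X]
    {μ : Measure X} (τ : Act G μ) {ι : Type} [Fintype ι] [DecidableEq ι] (g : ι → Γ → G)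
    (f : ι → X → ℂ) (ν : Pr Γ) (x : X) :
    AgC τ g f ν x = ∑ t : Finset ι, Complex.I ^ (Finset.univ \ t).card *
      ((Ag τ g (rp f t) ν x : ℝ) : ℂ) := by
  have h1 : AgC τ g f ν x = ∑ n ∈ ν.s, ((ν.w n : ℝ) : ℂ) * ∑ t : Finset ι,
      Complex.I ^ (Finset.univ \ t).card * ((∏ i, rp f t i (τ.t (g i n) x) : ℝ) : ℂ) := by
    unfold AgC EC
    refine Finset.sum_congr rfl fun n _ => ?_
    exact congrArg (fun z => ((ν.w n : ℝ) : ℂ) * z) (prod_split f (fun i => τ.t (g i n) x))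
  rw [h1]
  simp only [Finset.mul_sum]
  rw [Finset.sum_comm]
  refine Finset.sum_congr rfl fun t _ => ?_
  unfold Ag Pr.E
  rw [Complex.ofReal_sum, Finset.mul_sum]
  refine Finset.sum_congr rfl fun n _ => ?_
  rw [Complex.ofReal_mul]
  ring

theorem int_agc_le {Γ G : Type} [AddCommGroup Γ] [AddCommGroup G] {X : Type} [MeasurableSpace X]
    {μ : Measure X} [IsProbabilityMeasure μ] (τ : Act G μ) {ι : Type} [Fintype ι] [DecidableEq ι]
    (g : ι → Γ → G) {f : ι → X → ℂ} (hf : ∀ i, BdC (f i)) (ν ν' : Pr Γ) {ε : ℝ} (hε : 0 ≤ ε)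
    (h : ∀ t : Finset ι, n2 μ (fun x => Ag τ g (rp f t) ν x - Ag τ g (rp f t) ν' x) ≤ ε) :
    ∫ x, ‖AgC τ g f ν x - AgC τ g f ν' x‖ ^ 2 ∂μ ≤ (2 : ℝ) ^ (2 * Fintype.card ι) * ε ^ 2 := by
  have hpt : ∀ x, ‖AgC τ g f ν x - AgC τ g f ν' x‖ ^ 2 ≤ (2 : ℝ) ^ (Fintype.card ι) *
      ∑ t : Finset ι, (Ag τ g (rp f t) ν x - Ag τ g (rp f t) ν' x) ^ 2 := by
    intro x
    have h1 : AgC τ g f ν x - AgC τ g f ν' x = ∑ t : Finset ι,
        Complex.I ^ (Finset.univ \ t).card *
          ((Ag τ g (rp f t) ν x - Ag τ g (rp f t) ν' x : ℝ) : ℂ) := by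
      rw [agc_eq, agc_eq, ← Finset.sum_sub_distrib]
      refine Finset.sum_congr rfl fun t _ => ?_
      rw [Complex.ofReal_sub]
      ring
    have h2 : ‖AgC τ g f ν x - AgC τ g f ν' x‖ ≤ ∑ t : Finset ι,
        |Ag τ g (rp f t) ν x - Ag τ g (rp f t) ν' x| := by
      rw [h1]
      refine (norm_sum_le _ _).trans (Finset.sum_le_sum fun t _ => ?_)
      rw [norm_mul, norm_pow, Complex.norm_I, one_pow, one_mul, Complex.norm_real,
        Real.norm_eq_abs]
    have h3 := sq_sum_le_card_mul_sum_sq (s := (Finset.univ : Finset (Finset ι)))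
      (f := fun t => |Ag τ g (rp f t) ν x - Ag τ g (rp f t) ν' x|)
    have h4 := pow_le_pow_left₀ (norm_nonneg _) h2 2
    refine h4.trans (h3.trans (le_of_eq ?_))
    rw [Finset.card_univ, Fintype.card_finset]
    push_cast
    congr 1
    exact Finset.sum_congr rfl fun t _ => sq_abs _
  have hmem : ∀ t : Finset ι, MemLp (fun x => Ag τ g (rp f t) ν x - Ag τ g (rp f t) ν' x) 2 μ := by
    intro t
    have h1 := bd_ag τ g (fun i => bd_rp hf t i) ν
    have h2 := bd_ag τ g (fun i => bd_rp hf t i) ν'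
    refine memLp_of_bound (C := 2) (h1.1.sub h2.1) fun x => ?_
    have h3 := h1.2 x
    have h4 := h2.2 x
    rw [abs_le] at h3 h4 ⊢
    constructor <;> linarith
  have hint : ∀ t ∈ (Finset.univ : Finset (Finset ι)),
      Integrable (fun x => (Ag τ g (rp f t) ν x - Ag τ g (rp f t) ν' x) ^ 2) μ :=
    fun t _ => (hmem t).integrable_sq
  have hle : ∫ x, ‖AgC τ g f ν x - AgC τ g f ν' x‖ ^ 2 ∂μ ≤ ∫ x, (2 : ℝ) ^ (Fintype.card ι) *
      ∑ t : Finset ι, (Ag τ g (rp f t) ν x - Ag τ g (rp f t) ν' x) ^ 2 ∂μ := by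
    refine integral_mono_of_nonneg (Filter.Eventually.of_forall fun x => sq_nonneg _)
      ((integrable_finsetSum _ hint).const_mul _) (Filter.Eventually.of_forall fun x => hpt x)
  refine hle.trans ?_
  rw [integral_const_mul, integral_finsetSum _ hint]
  have hsum : ∑ t : Finset ι, ∫ x, (Ag τ g (rp f t) ν x - Ag τ g (rp f t) ν' x) ^ 2 ∂μ ≤
      (2 : ℝ) ^ (Fintype.card ι) * ε ^ 2 := by
    refine (Finset.sum_le_sum (g := fun _ => ε ^ 2) fun t _ => ?_).trans (le_of_eq ?_)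
    · rw [← n2_sq (μ := μ)]
      exact pow_le_pow_left₀ (n2_nonneg _) (h t) 2
    · rw [Finset.sum_const, Finset.card_univ, Fintype.card_finset, nsmul_eq_mul]
      push_cast
      rfl
  refine (mul_le_mul_of_nonneg_left hsum (by positivity)).trans (le_of_eq ?_)
  rw [two_mul, pow_add]
  ring

end Pool.Agent.MRS
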