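import Pool.Agent.MRS.WbCx

/-!
# MRS / WbFam: a fixed system, uniform convergence along every invariant family

PROOFS.  `ext_chain`: suppose that for every `n` there are `ρ, ρ' ∈ 𝔉 n` with `ε < D ρ ρ'` (`D` symmetric
with the triangle inequality).  By induction on `K` there is `ν : ℕ → Pr Γ` with `Chain η ν K` and
`ε / 2 < D (ν s) (ν (s+1))` for all `s < K`.  `K = 0`: any `ν` (take `ρ` of the hypothesis for `0`);
`K → K + 1`: `L = ⋃ s ≤ K, (ν s).s` (`Finset.biUnion`, classical), `n` from `Fam` for `η, L`, `ρ, ρ' ∈ 𝔉 n`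
with `ε < D ρ ρ' ≤ D ρ (ν K) + D (ν K) ρ'`; one of them, `ρ₁`, has `ε / 2 < D (ν K) ρ₁`; the new
sequence is `fun s => if s ≤ K then ν s else ρ₁`.
`fam_real`: by contradiction, `ext_chain` with `D ν ν' = n2 μ (Ag ν - Ag ν')` (`n2_sub_comm`, `n2_sub_le`,
`memLp_of_bound`, `bd_ag`), against `walsh Γ G D (card ι) (ε / 2)`.
`fam_mono`: `𝔉 m ⊆ 𝔉 n` for `n ≤ m`.
`fam_cx`: `fam_real` for every `t : Finset ι` with `ε' > 0`, `2 ^ (2 card ι) ε' ^ 2 ≤ ε` (for instance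
`ε' = sqrt (ε / 2 ^ (2 card ι))`), the maximum of the finitely many `n` (`Finset.sup` or
`Finset.exists_le`), `fam_mono`, `int_agc_le`.
-/

set_option autoImplicit false

namespace Pool.Agent.MRS

open MeasureTheory

theorem fam_mono {Γ : Type} [AddCommGroup Γ] {𝔉 : ℕ → Set (Pr Γ)} (h𝔉 : Fam 𝔉) {n m : ℕ}
    (h : n ≤ m) : 𝔉 m ⊆ 𝔉 n := by
  have h1 : Antitone 𝔉 := antitone_nat_of_succ_le h𝔉.1
  exact h1 h

theorem ext_chain {Γ : Type} [AddCommGroup Γ] {𝔉 : ℕ → Set (Pr Γ)} (h𝔉 : Fam 𝔉)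
    (D : Pr Γ → Pr Γ → ℝ) (hs : ∀ a b, D a b = D b a) (ht : ∀ a b c, D a c ≤ D a b + D b c)
    {ε η : ℝ} (hη : 0 < η) (hbad : ∀ n, ∃ ρ ∈ 𝔉 n, ∃ ρ' ∈ 𝔉 n, ε < D ρ ρ') (K : ℕ) :
    ∃ ν : ℕ → Pr Γ, Chain η ν K ∧ ∀ s < K, ε / 2 < D (ν s) (ν (s + 1)) := by
  classical
  induction K with
  | zero =>
    obtain ⟨ρ, _, _⟩ := hbad 0
    refine ⟨fun _ => ρ, ?_, ?_⟩
    · intro s t h1 h2
      omega
    · intro s hs0
      omega
  | succ K ih =>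
    obtain ⟨ν, hc, hd⟩ := ih
    obtain ⟨n, hn⟩ := h𝔉.2 η hη ((Finset.range (K + 1)).biUnion fun s => (ν s).s)
    obtain ⟨ρ, hρ, ρ', hρ', hlt⟩ := hbad n
    have key : ∃ ρ₁ ∈ 𝔉 n, ε / 2 < D (ν K) ρ₁ := by
      by_contra hno
      push Not at hno
      have h1 := hno ρ hρ
      have h2 := hno ρ' hρ'
      have h3 := ht ρ (ν K) ρ'
      rw [hs ρ (ν K)] at h3
      linarith
    obtain ⟨ρ₁, hρ₁, hlt₁⟩ := key
    refine ⟨fun s => if s ≤ K then ν s else ρ₁, ?_, ?_⟩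
    · intro s t h1 h2
      have hsK : s ≤ K := by omega
      show Inv η (if t ≤ K then ν t else ρ₁) ((if s ≤ K then ν s else ρ₁).s : Set Γ)
      rw [if_pos hsK]
      by_cases htK : t ≤ K
      · rw [if_pos htK]
        exact hc s t h1 htK
      · rw [if_neg htK]
        intro l hl Φ hΦ
        refine hn ρ₁ hρ₁ l ?_ Φ hΦ
        rw [Finset.mem_coe, Finset.mem_biUnion]
        exact ⟨s, Finset.mem_range.2 (by omega), Finset.mem_coe.1 hl⟩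
    · intro s h1
      show ε / 2 < D (if s ≤ K then ν s else ρ₁) (if s + 1 ≤ K then ν (s + 1) else ρ₁)
      rw [if_pos (by omega : s ≤ K)]
      by_cases h2 : s + 1 ≤ K
      · rw [if_pos h2]
        exact hd s (by omega)
      · rw [if_neg h2]
        have h3 : s = K := by omega
        rw [h3]
        exact hlt₁

theorem fam_real {Γ G : Type} [AddCommGroup Γ] [AddCommGroup G] {𝔉 : ℕ → Set (Pr Γ)}
    (h𝔉 : Fam 𝔉) {X : Type} [MeasurableSpace X] {μ : Measure X} [IsProbabilityMeasure μ]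
    (τ : Act G μ) {D : ℕ} {ι : Type} [Fintype ι] {g : ι → Γ → G}
    (hg : ∀ i, g i ∈ (Pd D : Set (Γ → G))) {f : ι → X → ℝ} (hf : ∀ i, Bd (f i)) {ε : ℝ}
    (hε : 0 < ε) : ∃ n, ∀ ν ∈ 𝔉 n, ∀ ν' ∈ 𝔉 n,
      n2 μ (fun x => Ag τ g f ν x - Ag τ g f ν' x) ≤ ε := by
  by_contra hno
  push Not at hno
  obtain ⟨K, η, hη, h⟩ := walsh Γ G D (Fintype.card ι) (ε / 2) (half_pos hε)
  have hm : ∀ ρ : Pr Γ, MemLp (Ag τ g f ρ) 2 μ := fun ρ =>
    memLp_of_bound (bd_ag τ g hf ρ).1 (bd_ag τ g hf ρ).2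
  obtain ⟨ν, hc, hd⟩ := ext_chain h𝔉 (fun a b => n2 μ (fun x => Ag τ g f a x - Ag τ g f b x))
    (fun a b => n2_sub_comm (Ag τ g f a) (Ag τ g f b))
    (fun a b c => n2_sub_le (hm a) (hm b) (hm c)) hη hno K
  obtain ⟨s, hs, hle⟩ := h X inferInstance μ inferInstance τ ι inferInstance g le_rfl hg f hf ν hc
  exact absurd hle (not_le.2 (hd s hs))

/-- Walsh's theorem for a fixed system: the averages over the measures of an invariant family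
converge in `L²`, complex functions. -/
theorem fam_cx {Γ G : Type} [AddCommGroup Γ] [AddCommGroup G] {𝔉 : ℕ → Set (Pr Γ)}
    (h𝔉 : Fam 𝔉) {X : Type} [MeasurableSpace X] {μ : Measure X} [IsProbabilityMeasure μ]
    (τ : Act G μ) {D : ℕ} {ι : Type} [Fintype ι] {g : ι → Γ → G}
    (hg : ∀ i, g i ∈ (Pd D : Set (Γ → G))) {f : ι → X → ℂ} (hf : ∀ i, BdC (f i)) {ε : ℝ}
    (hε : 0 < ε) : ∃ n, ∀ ν ∈ 𝔉 n, ∀ ν' ∈ 𝔉 n,
      ∫ x, ‖AgC τ g f ν x - AgC τ g f ν' x‖ ^ 2 ∂μ ≤ ε := by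
  classical
  have hpos : (0 : ℝ) < 2 ^ (2 * Fintype.card ι) := by positivity
  have hε' : 0 < Real.sqrt (ε / 2 ^ (2 * Fintype.card ι)) := Real.sqrt_pos.2 (div_pos hε hpos)
  have h1 : ∀ t : Finset ι, ∃ n, ∀ ν ∈ 𝔉 n, ∀ ν' ∈ 𝔉 n,
      n2 μ (fun x => Ag τ g (rp f t) ν x - Ag τ g (rp f t) ν' x) ≤
        Real.sqrt (ε / 2 ^ (2 * Fintype.card ι)) := fun t =>
    fam_real h𝔉 τ hg (fun i => bd_rp hf t i) hε'
  choose n hn using h1
  refine ⟨Finset.univ.sup n, fun ν hν ν' hν' => ?_⟩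
  have h2 := int_agc_le τ g hf ν ν' hε'.le fun t =>
    hn t ν (fam_mono h𝔉 (Finset.le_sup (Finset.mem_univ t)) hν) ν'
      (fam_mono h𝔉 (Finset.le_sup (Finset.mem_univ t)) hν')
  refine h2.trans (le_of_eq ?_)
  rw [Real.sq_sqrt (div_pos hε hpos).le, mul_div_cancel₀ _ hpos.ne']

end Pool.Agent.MRS
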