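import Pool.Agent.MRS.WbDefs

/-!
# MRS / WbLimA: completeness of `L²` for functions bounded by one

PROOF.  `H = Lp ℂ 2 μ`; `a n` the class of `A n` (`MemLp.of_bound` / `memLp_of_bounded`).  `‖a m - a n‖ ^ 2 =
∫ ‖A m - A n‖ ^ 2` (`MemLp.eLpNorm_eq_integral_rpow_norm`, or `L2.norm_sq`-type lemma via
`inner_self_eq_norm_sq`), so `a` is a Cauchy sequence with limit `a'`; let `F0` be a measurable
representative (`Lp.stronglyMeasurable`).  `∫ ‖A n - F0‖ ^ 2 → 0`.  Almost everywhere `‖F0‖ ≤ 1`: for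
`δ > 0` on the set `{‖F0‖ ≥ 1 + δ}` one has `‖A n - F0‖ ≥ δ`, so its measure is at most
`(∫ ‖A n - F0‖ ^ 2) / δ ^ 2 → 0` (Markov `mul_meas_ge_le_integral_of_nonneg`), take `δ = 1/k`.  Put
`F = F0` where `‖F0 x‖ ≤ 1` and `0` elsewhere; `F = F0` almost everywhere.
-/

set_option autoImplicit false

namespace Pool.Agent.MRS

open MeasureTheory

private theorem la_int {X : Type} [MeasurableSpace X] {μ : Measure X} [IsProbabilityMeasure μ]
    {f g : X → ℂ} (hf : BdC f) (hg : BdC g) : Integrable (fun x => ‖f x - g x‖ ^ 2) μ := by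
  refine Integrable.of_bound ((hf.1.sub hg.1).norm.pow_const 2).aestronglyMeasurable 4 ?_
  refine Filter.Eventually.of_forall fun x => ?_
  have h1 : ‖f x - g x‖ ≤ 2 := by
    have := norm_sub_le (f x) (g x)
    have h2 := hf.2 x
    have h3 := hg.2 x
    linarith
  have h0 := norm_nonneg (f x - g x)
  rw [Real.norm_eq_abs, abs_of_nonneg (by positivity)]
  nlinarith

private theorem la_nrm {X : Type} [MeasurableSpace X] {μ : Measure X} {f : X → ℂ}
    (hf : MemLp f 2 μ) : ‖hf.toLp f‖ ^ 2 = ∫ x, ‖f x‖ ^ 2 ∂μ := by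
  rw [Lp.norm_toLp, hf.eLpNorm_eq_integral_rpow_norm two_ne_zero ENNReal.ofNat_ne_top]
  have h1 : (2 : ENNReal).toReal = 2 := by simp
  rw [h1]
  have h2 : (∫ a, ‖f a‖ ^ (2 : ℝ) ∂μ) = ∫ a, ‖f a‖ ^ 2 ∂μ := by
    refine integral_congr_ae (Filter.Eventually.of_forall fun x => ?_)
    show ‖f x‖ ^ (2 : ℝ) = ‖f x‖ ^ 2
    rw [← Real.rpow_natCast]
    norm_num
  rw [h2]
  have h3 : 0 ≤ ∫ a, ‖f a‖ ^ 2 ∂μ := integral_nonneg fun x => by positivity
  rw [ENNReal.toReal_ofReal (Real.rpow_nonneg h3 _), ← Real.rpow_natCast, ← Real.rpow_mul h3]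
  norm_num

private theorem la_proj {z w : ℂ} (hz : ‖z‖ ≤ 1) :
    ‖z - (max 1 ‖w‖)⁻¹ • w‖ ^ 2 ≤ ‖z - w‖ ^ 2 := by
  rcases le_total ‖w‖ 1 with h | h
  · rw [max_eq_left h, inv_one, one_smul]
  · rw [max_eq_right h]
    set ρ := ‖w‖ with hρ
    have hρ0 : 0 < ρ := by linarith
    have hw : w = ρ • (ρ⁻¹ • w) := by
      rw [smul_smul, mul_inv_cancel₀ hρ0.ne', one_smul]
    obtain ⟨u, hu⟩ : ∃ u : ℂ, u = ρ⁻¹ • w := ⟨_, rfl⟩
    rw [← hu] at hw ⊢
    have hu1 : ‖u‖ = 1 := by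
      rw [hu, norm_smul, norm_inv, Real.norm_eq_abs, abs_of_pos hρ0, ← hρ,
        inv_mul_cancel₀ hρ0.ne']
    have h1 := norm_sub_sq_real z u
    have h2 := norm_sub_sq_real z (ρ • u)
    rw [hw, h1, h2, inner_smul_right, norm_smul, hu1, Real.norm_eq_abs, abs_of_pos hρ0]
    have h3 : inner ℝ z u ≤ 1 := by
      have h4 := real_inner_le_norm z u
      rw [hu1, mul_one] at h4
      exact h4.trans hz
    nlinarith

theorem lim_fun {X : Type} [MeasurableSpace X] {μ : Measure X} [IsProbabilityMeasure μ]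
    {A : ℕ → X → ℂ} (hA : ∀ n, BdC (A n))
    (hc : ∀ ε : ℝ, 0 < ε → ∃ n0, ∀ m, n0 ≤ m → ∀ n, n0 ≤ n → ∫ x, ‖A m x - A n x‖ ^ 2 ∂μ ≤ ε) :
    ∃ F : X → ℂ, BdC F ∧ ∀ ε : ℝ, 0 < ε → ∃ n0, ∀ n, n0 ≤ n → ∫ x, ‖A n x - F x‖ ^ 2 ∂μ ≤ ε := by
  have hmem : ∀ n, MemLp (A n) 2 μ := fun n =>
    MemLp.of_bound (hA n).1.aestronglyMeasurable 1 (Filter.Eventually.of_forall (hA n).2)
  have hsub : ∀ m n, ‖(hmem m).toLp (A m) - (hmem n).toLp (A n)‖ ^ 2 =
      ∫ x, ‖A m x - A n x‖ ^ 2 ∂μ := by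
    intro m n
    rw [← MemLp.toLp_sub, la_nrm]
    rfl
  have hcau : CauchySeq fun n => (hmem n).toLp (A n) := by
    rw [Metric.cauchySeq_iff]
    intro ε hε
    obtain ⟨n0, hn0⟩ := hc (ε ^ 2 / 4) (by positivity)
    refine ⟨n0, fun m hm n hn => ?_⟩
    have h1 := hn0 m hm n hn
    rw [← hsub m n] at h1
    rw [dist_eq_norm]
    have h2 : ‖(hmem m).toLp (A m) - (hmem n).toLp (A n)‖ ≤ ε / 2 := by
      by_contra hcon
      push Not at hcon
      nlinarith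
    linarith
  obtain ⟨a', ha'⟩ := cauchySeq_tendsto_of_complete hcau
  have hF0 : StronglyMeasurable (a' : X → ℂ) := Lp.stronglyMeasurable a'
  have hlim : ∀ n, ‖(hmem n).toLp (A n) - a'‖ ^ 2 = ∫ x, ‖A n x - a' x‖ ^ 2 ∂μ := by
    intro n
    have h1 : a' = (Lp.memLp a').toLp (a' : X → ℂ) := (Lp.toLp_coeFn a' (Lp.memLp a')).symm
    conv_lhs => rw [h1]
    rw [← MemLp.toLp_sub, la_nrm]
    rfl
  refine ⟨fun x => (max 1 ‖a' x‖)⁻¹ • a' x, ⟨?_, fun x => ?_⟩, fun ε hε => ?_⟩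
  · exact ((measurable_const.max hF0.measurable.norm).inv).smul hF0.measurable
  · have h1 : (1 : ℝ) ≤ max 1 ‖a' x‖ := le_max_left _ _
    have h2 : ‖a' x‖ ≤ max 1 ‖a' x‖ := le_max_right _ _
    rw [norm_smul, norm_inv, Real.norm_eq_abs, abs_of_pos (by linarith),
      inv_mul_le_iff₀ (by linarith), mul_one]
    exact h2
  · rw [Metric.tendsto_atTop] at ha'
    obtain ⟨n0, hn0⟩ := ha' (Real.sqrt ε) (Real.sqrt_pos.2 hε)
    refine ⟨n0, fun n hn => ?_⟩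
    have h1 := hn0 n hn
    rw [dist_eq_norm] at h1
    have h2 : ‖(hmem n).toLp (A n) - a'‖ ^ 2 ≤ ε := by
      have h3 := norm_nonneg ((hmem n).toLp (A n) - a')
      have h4 := Real.sq_sqrt hε.le
      nlinarith
    rw [hlim n] at h2
    refine le_trans (integral_mono ?_ ?_ fun x => la_proj ((hA n).2 x)) h2
    · refine la_int (hA n) ⟨?_, fun x => ?_⟩
      · exact ((measurable_const.max hF0.measurable.norm).inv).smul hF0.measurable
      · have h1 : (1 : ℝ) ≤ max 1 ‖a' x‖ := le_max_left _ _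
        have h2 : ‖a' x‖ ≤ max 1 ‖a' x‖ := le_max_right _ _
        rw [norm_smul, norm_inv, Real.norm_eq_abs, abs_of_pos (by linarith),
          inv_mul_le_iff₀ (by linarith), mul_one]
        exact h2
    · have h3 : MemLp (fun x => A n x - a' x) 2 μ := (hmem n).sub (Lp.memLp a')
      have h4 := h3.integrable_norm_pow two_ne_zero
      exact h4

/-- triangle inequality in the form used for limits -/
theorem int_sq_triangle {X : Type} [MeasurableSpace X] {μ : Measure X} [IsProbabilityMeasure μ]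
    {f g h : X → ℂ} (hf : BdC f) (hg : BdC g) (hh : BdC h) :
    ∫ x, ‖f x - h x‖ ^ 2 ∂μ ≤ 2 * ∫ x, ‖f x - g x‖ ^ 2 ∂μ + 2 * ∫ x, ‖g x - h x‖ ^ 2 ∂μ := by
  have h1 := (la_int (μ := μ) hf hg).const_mul 2
  have h2 := (la_int (μ := μ) hg hh).const_mul 2
  rw [← integral_const_mul, ← integral_const_mul, ← integral_add h1 h2]
  refine integral_mono (la_int hf hh) (h1.add h2) fun x => ?_
  show ‖f x - h x‖ ^ 2 ≤ 2 * ‖f x - g x‖ ^ 2 + 2 * ‖g x - h x‖ ^ 2
  have h3 : ‖f x - h x‖ ≤ ‖f x - g x‖ + ‖g x - h x‖ := by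
    have e : f x - h x = (f x - g x) + (g x - h x) := by ring
    rw [e]
    exact norm_add_le _ _
  have h4 := norm_nonneg (f x - h x)
  have h5 := norm_nonneg (f x - g x)
  have h6 := norm_nonneg (g x - h x)
  nlinarith [sq_nonneg (‖f x - g x‖ - ‖g x - h x‖)]

/-- Cauchy-Schwarz for a probability measure -/
theorem norm_int_sub_sq_le {X : Type} [MeasurableSpace X] {μ : Measure X} [IsProbabilityMeasure μ]
    {f g : X → ℂ} (hf : BdC f) (hg : BdC g) :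
    ‖∫ x, f x ∂μ - ∫ x, g x ∂μ‖ ^ 2 ≤ ∫ x, ‖f x - g x‖ ^ 2 ∂μ := by
  have hfi : Integrable f μ := Integrable.of_bound hf.1.aestronglyMeasurable 1
    (Filter.Eventually.of_forall hf.2)
  have hgi : Integrable g μ := Integrable.of_bound hg.1.aestronglyMeasurable 1
    (Filter.Eventually.of_forall hg.2)
  have hui : Integrable (fun x => ‖f x - g x‖) μ := (hfi.sub hgi).norm
  rw [← integral_sub hfi hgi]
  have h1 : ‖∫ x, (f x - g x) ∂μ‖ ≤ ∫ x, ‖f x - g x‖ ∂μ := norm_integral_le_integral_norm _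
  set c := ∫ x, ‖f x - g x‖ ∂μ with hc
  have h2 : 0 ≤ ∫ x, (‖f x - g x‖ - c) ^ 2 ∂μ := integral_nonneg fun x => sq_nonneg _
  have h3 : ∫ x, (‖f x - g x‖ - c) ^ 2 ∂μ = (∫ x, ‖f x - g x‖ ^ 2 ∂μ) - c ^ 2 := by
    have e : (fun x => (‖f x - g x‖ - c) ^ 2) =
        fun x => ‖f x - g x‖ ^ 2 - (2 * c * ‖f x - g x‖ - c ^ 2) := by
      funext x
      ring
    have i1 : Integrable (fun x => 2 * c * ‖f x - g x‖) μ := hui.const_mul (2 * c)
    have i2 : Integrable (fun x => 2 * c * ‖f x - g x‖ - c ^ 2) μ :=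
      i1.sub (integrable_const _)
    rw [e, integral_sub (la_int hf hg) i2, integral_sub i1 (integrable_const _),
      integral_const_mul, ← hc]
    simp
    ring
  have h4 := norm_nonneg (∫ x, (f x - g x) ∂μ)
  have h5 : ‖∫ x, (f x - g x) ∂μ‖ ^ 2 ≤ c ^ 2 := pow_le_pow_left₀ h4 h1 2
  linarith

end Pool.Agent.MRS
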