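import Pool.Agent.MRS.WbW
import Pool.Agent.MRS.WbLimA

/-!
# MRS / WbLim: the limit function, the limits of the scalar averages

PROOFS.  `bd_prod_cx`, `bd_eb`: measurable (finite products and sums of compositions with the
measurable maps `τ.t _`), norm at most one (`Finset.prod_le_one`-type, `eb_norm_le`).
`box_lim_fun`: `A n x` = the average over the box `0, n + 1`; Cauchy by `walsh_box`; `F` from `lim_fun`; for an
arbitrary box with sides `≥ N0` (`N0` of `walsh_box` for `ε / 4`) compare with `A n`, `n` large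
(`int_sq_triangle`).
`int_eb`: the integral of a finite sum of bounded measurable functions.
`bl_system`: `c z = ∫ x, ∏ j, f j (..)`; by `int_eb` and `norm_int_sub_sq_le`
`‖EB a N c - EB a' N' c‖ ^ 2 ≤ ε`; take `L = ∫ F`, `F` of `box_lim_fun`.
-/

set_option autoImplicit false

namespace Pool.Agent.MRS

open MeasureTheory

theorem bd_prod_cx {G : Type} [AddCommGroup G] {X : Type} [MeasurableSpace X] {μ : Measure X}
    (τ : Act G μ) {J : Type} [Fintype J] (b : J → G) {f : J → X → ℂ} (hf : ∀ j, BdC (f j)) :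
    BdC (fun x => ∏ j, f j (τ.t (b j) x)) := by
  refine ⟨Finset.measurable_prod _ fun j _ => (hf j).1.comp (τ.mp (b j)).measurable, fun x => ?_⟩
  rw [norm_prod]
  exact Finset.prod_le_one (fun j _ => norm_nonneg _) fun j _ => (hf j).2 _

theorem bd_eb {ι : Type} [Fintype ι] [DecidableEq ι] {X : Type} [MeasurableSpace X]
    (a : ι → ℤ) (N : ι → ℕ) {P : (ι → ℤ) → X → ℂ} (hP : ∀ z, BdC (P z)) :
    BdC (fun x => EB a N (fun z => P z x)) := by
  refine ⟨?_, fun x => eb_norm_le a N zero_le_one fun z _ => (hP z).2 x⟩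
  unfold EB
  exact (Finset.measurable_sum _ fun z _ => (hP z).1).const_mul _

/-- The `L²` limit of the multiple averages over boxes. -/
theorem box_lim_fun {ι : Type} [Fintype ι] [DecidableEq ι] {G : Type} [AddCommGroup G] {X : Type}
    [MeasurableSpace X] {μ : Measure X} [IsProbabilityMeasure μ] (τ : Act G μ) {D : ℕ} {J : Type}
    [Fintype J] {g : J → (ι → ℤ) → G} (hg : ∀ j, g j ∈ (Pd D : Set ((ι → ℤ) → G)))
    {f : J → X → ℂ} (hf : ∀ j, BdC (f j)) :
    ∃ F : X → ℂ, BdC F ∧ ∀ ε : ℝ, 0 < ε → ∃ N0 : ℕ, ∀ (a : ι → ℤ) (N : ι → ℕ), (∀ i, N0 ≤ N i) →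
      ∫ x, ‖EB a N (fun z => ∏ j, f j (τ.t (g j z) x)) - F x‖ ^ 2 ∂μ ≤ ε := by
  have hP : ∀ (a : ι → ℤ) (N : ι → ℕ), BdC (fun x => EB a N (fun z => ∏ j, f j (τ.t (g j z) x))) :=
    fun a N => bd_eb a N (P := fun z x => ∏ j, f j (τ.t (g j z) x)) fun z => bd_prod_cx τ _ hf
  obtain ⟨F, hF1, hF2⟩ := lim_fun (μ := μ)
    (A := fun n x => EB 0 (fun _ => n + 1) (fun z => ∏ j, f j (τ.t (g j z) x)))
    (fun n => hP 0 _) (by
      intro ε hε
      obtain ⟨N0, -, hN0⟩ := walsh_box τ hg hf hε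
      exact ⟨N0, fun m hm n hn => hN0 0 0 _ _ (fun _ => by omega) fun _ => by omega⟩)
  refine ⟨F, hF1, fun ε hε => ?_⟩
  obtain ⟨N0, -, hN0⟩ := walsh_box τ hg hf (show (0 : ℝ) < ε / 4 by linarith)
  obtain ⟨n0, hn0⟩ := hF2 (ε / 4) (by linarith)
  refine ⟨N0, fun a N hN => ?_⟩
  have h1 := int_sq_triangle (μ := μ) (hP a N) (hP 0 fun _ => max n0 N0 + 1) hF1
  have h2 := hN0 a 0 N (fun _ => max n0 N0 + 1) hN fun _ => (le_max_right n0 N0).trans (Nat.le_succ _)
  have h3 := hn0 (max n0 N0) (le_max_left _ _)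
  linarith

/-- `L` is the limit of the means of `c` over boxes, uniformly in the location. -/
def BL {ι : Type} [Fintype ι] [DecidableEq ι] (c : (ι → ℤ) → ℂ) (L : ℂ) : Prop :=
  ∀ ε : ℝ, 0 < ε → ∃ N0 : ℕ, ∀ (a : ι → ℤ) (N : ι → ℕ), (∀ i, N0 ≤ N i) → ‖EB a N c - L‖ ≤ ε

theorem bl_unique {ι : Type} [Fintype ι] [DecidableEq ι] {c : (ι → ℤ) → ℂ} {L L' : ℂ}
    (h : BL c L) (h' : BL c L') : L = L' := by
  by_contra hne
  have hpos : 0 < ‖L - L'‖ := norm_pos_iff.2 (sub_ne_zero.2 hne)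
  obtain ⟨n, hn⟩ := h (‖L - L'‖ / 3) (by linarith)
  obtain ⟨n', hn'⟩ := h' (‖L - L'‖ / 3) (by linarith)
  have h1 := hn 0 (fun _ => max n n') fun _ => le_max_left _ _
  have h2 := hn' 0 (fun _ => max n n') fun _ => le_max_right _ _
  have h3 : ‖L - L'‖ ≤ ‖EB 0 (fun _ => max n n') c - L‖ + ‖EB 0 (fun _ => max n n') c - L'‖ := by
    have : L - L' = (EB 0 (fun _ => max n n') c - L') - (EB 0 (fun _ => max n n') c - L) := by ring
    rw [this]
    exact (norm_sub_le _ _).trans (by linarith)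
  linarith

theorem int_eb {ι : Type} [Fintype ι] [DecidableEq ι] {X : Type} [MeasurableSpace X]
    {μ : Measure X} [IsProbabilityMeasure μ] (a : ι → ℤ) (N : ι → ℕ) {P : (ι → ℤ) → X → ℂ}
    (hP : ∀ z, BdC (P z)) : ∫ x, EB a N (fun z => P z x) ∂μ = EB a N (fun z => ∫ x, P z x ∂μ) := by
  unfold EB
  rw [integral_const_mul, integral_finsetSum]
  intro z _
  exact Integrable.of_bound (hP z).1.aestronglyMeasurable 1 (Filter.Eventually.of_forall (hP z).2)

/-- The scalar averages of a system have a limit over boxes. -/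
theorem bl_system {ι : Type} [Fintype ι] [DecidableEq ι] {G : Type} [AddCommGroup G] {X : Type}
    [MeasurableSpace X] {μ : Measure X} [IsProbabilityMeasure μ] (τ : Act G μ) {D : ℕ} {J : Type}
    [Fintype J] {g : J → (ι → ℤ) → G} (hg : ∀ j, g j ∈ (Pd D : Set ((ι → ℤ) → G)))
    {f : J → X → ℂ} (hf : ∀ j, BdC (f j)) :
    ∃ L, BL (fun z => ∫ x, ∏ j, f j (τ.t (g j z) x) ∂μ) L := by
  obtain ⟨F, hF1, hF2⟩ := box_lim_fun (μ := μ) τ hg hf
  refine ⟨∫ x, F x ∂μ, fun ε hε => ?_⟩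
  obtain ⟨N0, hN0⟩ := hF2 (ε ^ 2) (by positivity)
  refine ⟨N0, fun a N hN => ?_⟩
  have hP : ∀ z, BdC (fun x => ∏ j, f j (τ.t (g j z) x)) := fun z => bd_prod_cx τ _ hf
  have h1 := int_eb (μ := μ) a N (P := fun z x => ∏ j, f j (τ.t (g j z) x)) hP
  rw [← h1]
  have h2 := norm_int_sub_sq_le (μ := μ)
    (bd_eb a N (P := fun z x => ∏ j, f j (τ.t (g j z) x)) hP) hF1
  have h3 := h2.trans (hN0 a N hN)
  exact (pow_le_pow_iff_left₀ (norm_nonneg _) hε.le two_ne_zero).1 h3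

end Pool.Agent.MRS
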