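import Pool.Agent.MRS.WaPd
import Pool.Agent.MRS.WbDefs

/-!
# MRS / WbPol: integer polynomials in several variables are polynomial maps

PROOFS.  `pd_hom`: an additive homomorphism has constant differences.
`pd_comp_hom`: `φ ∘ f` for an additive homomorphism `φ : G → G'`: induction on `e`.
`pd_mul` (values in a commutative ring `R`): induction on `a + b`; `a = 0` or `b = 0`: constant times
`Pd` (`pd_comp_hom` with the multiplication by a constant, `pd_mono`); otherwise
`(f g)(n + m) - (f g)(n) = (f (n + m) - f n) * g (n + m) + f n * (g (n + m) - g n)`, the two products are in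
`Pd (a - 1 + b)`, `Pd (a + b - 1)` (`pd_shift`), `pd_add`.
`pd_pi`: for a finite family `f : Γ → (κ → R)`: in `Pd e` iff all components are (only `←` needed):
induction on `e` (the constants form a function).
`pd_eval`: `MvPolynomial.induction_on`: constants, sums (`pd_add`, maximum of the degrees, `pd_mono`),
`p * X i`: `pd_mul` with `pd_hom` for the coordinate `n ↦ n i`.
`pd_eval_fam`: the maximum over `j` and `i` of the degrees of `pd_eval` and `pd_pi`.
-/

set_option autoImplicit false

namespace Pool.Agent.MRS

theorem pd_hom {Γ G : Type} [AddCommGroup Γ] [AddCommGroup G] (φ : Γ →+ G) :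
    (fun n => φ n) ∈ (Pd 1 : Set (Γ → G)) := by
  intro m
  refine ⟨φ m, fun n => ?_⟩
  show φ (n + m) - φ n = φ m
  rw [map_add]
  abel

theorem pd_comp_hom {Γ G G' : Type} [AddCommGroup Γ] [AddCommGroup G] [AddCommGroup G']
    (φ : G →+ G') {e : ℕ} {f : Γ → G} (hf : f ∈ (Pd e : Set (Γ → G))) :
    (fun n => φ (f n)) ∈ (Pd e : Set (Γ → G')) := by
  induction e generalizing f with
  | zero =>
    obtain ⟨c, hc⟩ := hf
    exact ⟨φ c, fun n => by simp only [hc]⟩
  | succ e ih =>
    intro m
    have h := ih (hf m)
    have e1 : (fun n => φ (f (n + m)) - φ (f n)) = fun n => φ (f (n + m) - f n) := by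
      funext n
      rw [map_sub]
    show (fun n => φ (f (n + m)) - φ (f n)) ∈ (Pd e : Set (Γ → G'))
    rw [e1]
    exact h

theorem pd_mul {Γ R : Type} [AddCommGroup Γ] [CommRing R] {a b : ℕ} {f g : Γ → R}
    (hf : f ∈ (Pd a : Set (Γ → R))) (hg : g ∈ (Pd b : Set (Γ → R))) :
    (fun n => f n * g n) ∈ (Pd (a + b) : Set (Γ → R)) := by
  induction hs : a + b using Nat.strong_induction_on generalizing a b f g with
  | _ s ih =>
    subst hs
    cases a with
    | zero =>
      obtain ⟨c, hc⟩ := hf
      have h := pd_comp_hom (AddMonoidHom.mulLeft c) hg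
      have e1 : (fun n => f n * g n) = fun n => AddMonoidHom.mulLeft c (g n) := by
        funext n
        rw [hc]
        rfl
      rw [e1]
      exact pd_mono (by omega) h
    | succ a =>
      cases b with
      | zero =>
        obtain ⟨c, hc⟩ := hg
        have h := pd_comp_hom (AddMonoidHom.mulRight c) hf
        have e1 : (fun n => f n * g n) = fun n => AddMonoidHom.mulRight c (f n) := by
          funext n
          rw [hc]
          rfl
        rw [e1]
        exact pd_mono (by omega) h
      | succ b =>
        have key : ∀ m, (fun n => f (n + m) * g (n + m) - f n * g n) ∈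
            (Pd (a + 1 + b) : Set (Γ → R)) := by
          intro m
          have h1 := ih (a + (b + 1)) (by omega) (hf m) (pd_shift hg m) rfl
          have h2 := ih (a + 1 + b) (by omega) hf (hg m) rfl
          have h3 : a + (b + 1) = a + 1 + b := by omega
          rw [h3] at h1
          have h4 := pd_add h1 h2
          have e1 : (fun n => f (n + m) * g (n + m) - f n * g n) =
              fun n => (f (n + m) - f n) * g (n + m) + f n * (g (n + m) - g n) := by
            funext n
            ring
          rw [e1]
          exact h4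
        exact fun m => key m

theorem pd_pi {Γ κ R : Type} [AddCommGroup Γ] [AddCommGroup R] {e : ℕ}
    {f : Γ → κ → R} (hf : ∀ k, (fun n => f n k) ∈ (Pd e : Set (Γ → R))) :
    f ∈ (Pd e : Set (Γ → κ → R)) := by
  induction e generalizing f with
  | zero =>
    choose c hc using hf
    exact ⟨c, fun n => funext fun k => hc k n⟩
  | succ e ih =>
    intro m
    exact ih fun k => hf k m

theorem pd_eval {ι : Type} [Fintype ι] (p : MvPolynomial ι ℤ) :
    ∃ e, (fun n : ι → ℤ => MvPolynomial.eval n p) ∈ (Pd e : Set ((ι → ℤ) → ℤ)) := by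
  induction p using MvPolynomial.induction_on with
  | C a =>
    refine ⟨0, a, fun n => ?_⟩
    simp
  | add p q hp hq =>
    obtain ⟨a, ha⟩ := hp
    obtain ⟨b, hb⟩ := hq
    refine ⟨max a b, ?_⟩
    have h := pd_add (pd_mono (le_max_left a b) ha) (pd_mono (le_max_right a b) hb)
    simpa only [map_add] using h
  | mul_X p i hp =>
    obtain ⟨a, ha⟩ := hp
    have h := pd_mul ha (pd_hom (Pi.evalAddMonoidHom (fun _ : ι => ℤ) i))
    refine ⟨a + 1, ?_⟩
    have e1 : (fun n : ι → ℤ => MvPolynomial.eval n (p * MvPolynomial.X i)) =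
        fun n => MvPolynomial.eval n p * Pi.evalAddMonoidHom (fun _ : ι => ℤ) i n := by
      funext n
      rw [map_mul, MvPolynomial.eval_X]
      rfl
    rw [e1]
    exact h

/-- A finite family of vectors of integer polynomials consists of polynomial maps of bounded
degree. -/
theorem pd_eval_fam {ι κ J : Type} [Fintype ι] [Fintype κ] [Fintype J]
    (p : J → κ → MvPolynomial ι ℤ) : ∃ e, ∀ j,
      (fun (n : ι → ℤ) (k : κ) => MvPolynomial.eval n (p j k)) ∈
        (Pd e : Set ((ι → ℤ) → κ → ℤ)) := by
  choose e he using fun j k => pd_eval (p j k)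
  refine ⟨∑ j, ∑ k, e j k, fun j => pd_pi fun k => ?_⟩
  refine pd_mono ?_ (he j k)
  refine le_trans (Finset.single_le_sum (f := fun k => e j k) (fun _ _ => Nat.zero_le _)
    (Finset.mem_univ k)) ?_
  exact Finset.single_le_sum (f := fun j => ∑ k, e j k) (fun _ _ => Nat.zero_le _)
    (Finset.mem_univ j)

end Pool.Agent.MRS
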