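import Pool.Agent.MRS.WbFam
import Pool.Agent.MRS.WbBox
import Pool.Agent.MRS.WbPol

/-!
# MRS / WbW: norm convergence over boxes, uniform in the location (INPUT W of the paper)

`EB a N Φ` is the mean of `Φ` over the box with corner `a` and sides `N`.

PROOFS.  `ec_bxm`: `card_bx`, `Finset.mul_sum`, casts.  `eb_norm_le`: triangle inequality and
`ec_bxm` / `card_bx`.  `walsh_box`: `fam_cx (fam_bxF ι)` gives `n`; `N0 = n + 1`; `ec_bxm`.
`walsh_pol`: `pd_eval_fam` and `walsh_box`.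
-/

set_option autoImplicit false

namespace Pool.Agent.MRS

open MeasureTheory

/-- The mean over a box. -/
noncomputable def EB {ι : Type} [Fintype ι] [DecidableEq ι] (a : ι → ℤ) (N : ι → ℕ)
    (Φ : (ι → ℤ) → ℂ) : ℂ := (∏ i, (N i : ℂ))⁻¹ * ∑ z ∈ bx a N, Φ z

theorem ec_bxm {ι : Type} [Fintype ι] [DecidableEq ι] (a : ι → ℤ) (N : ι → ℕ)
    (hN : ∀ i, 0 < N i) (Φ : (ι → ℤ) → ℂ) : EC (bxm a N hN) Φ = EB a N Φ := by
  unfold EC EB
  show ∑ x ∈ bx a N, ((((bx a N).card : ℝ)⁻¹ : ℝ) : ℂ) * Φ x = _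
  rw [card_bx, Finset.mul_sum]
  refine Finset.sum_congr rfl fun x _ => ?_
  push_cast
  rfl

theorem eb_norm_le {ι : Type} [Fintype ι] [DecidableEq ι] (a : ι → ℤ) (N : ι → ℕ)
    {Φ : (ι → ℤ) → ℂ} {C : ℝ} (hC : 0 ≤ C) (h : ∀ z ∈ bx a N, ‖Φ z‖ ≤ C) : ‖EB a N Φ‖ ≤ C := by
  have h1 : ‖∑ z ∈ bx a N, Φ z‖ ≤ (∏ i, (N i : ℝ)) * C := by
    refine (norm_sum_le _ _).trans ((Finset.sum_le_sum h).trans ?_)
    rw [Finset.sum_const, card_bx, nsmul_eq_mul]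
    push_cast
    exact le_rfl
  have h2 : ‖(∏ i, (N i : ℂ))⁻¹‖ = (∏ i, (N i : ℝ))⁻¹ := by
    rw [norm_inv, norm_prod]
    congr 1
    refine Finset.prod_congr rfl fun i _ => ?_
    rw [Complex.norm_natCast]
  have h3 : 0 ≤ ∏ i, (N i : ℝ) := Finset.prod_nonneg fun i _ => Nat.cast_nonneg _
  unfold EB
  rw [norm_mul, h2]
  refine (mul_le_mul_of_nonneg_left h1 (inv_nonneg.2 h3)).trans ?_
  rcases h3.eq_or_lt with h4 | h4
  · rw [← h4, zero_mul, mul_zero]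
    exact hC
  · rw [← mul_assoc, inv_mul_cancel₀ h4.ne', one_mul]

theorem eb_sub {ι : Type} [Fintype ι] [DecidableEq ι] (a : ι → ℤ) (N : ι → ℕ)
    (Φ Ψ : (ι → ℤ) → ℂ) : EB a N (fun z => Φ z - Ψ z) = EB a N Φ - EB a N Ψ := by
  unfold EB
  rw [Finset.sum_sub_distrib, mul_sub]

theorem eb_const {ι : Type} [Fintype ι] [DecidableEq ι] (a : ι → ℤ) (N : ι → ℕ)
    (hN : ∀ i, 0 < N i) (c : ℂ) : EB a N (fun _ => c) = c := by
  unfold EB
  have h1 : (∏ i, (N i : ℂ)) ≠ 0 :=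
    Finset.prod_ne_zero_iff.2 fun i _ => Nat.cast_ne_zero.2 (hN i).ne'
  rw [Finset.sum_const, card_bx, nsmul_eq_mul]
  push_cast
  rw [← mul_assoc, inv_mul_cancel₀ h1, one_mul]

/-- INPUT W: the multiple averages over boxes of a fixed system converge in `L²`, uniformly in the
location of the boxes.  `G` is any commutative group which acts, the exponents are polynomial maps. -/
theorem walsh_box {ι : Type} [Fintype ι] [DecidableEq ι] {G : Type} [AddCommGroup G] {X : Type}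
    [MeasurableSpace X] {μ : Measure X} [IsProbabilityMeasure μ] (τ : Act G μ) {D : ℕ} {J : Type}
    [Fintype J] {g : J → (ι → ℤ) → G} (hg : ∀ j, g j ∈ (Pd D : Set ((ι → ℤ) → G)))
    {f : J → X → ℂ} (hf : ∀ j, BdC (f j)) {ε : ℝ} (hε : 0 < ε) :
    ∃ N0 : ℕ, 0 < N0 ∧ ∀ (a a' : ι → ℤ) (N N' : ι → ℕ), (∀ i, N0 ≤ N i) → (∀ i, N0 ≤ N' i) →
      ∫ x, ‖EB a N (fun z => ∏ j, f j (τ.t (g j z) x)) -
        EB a' N' (fun z => ∏ j, f j (τ.t (g j z) x))‖ ^ 2 ∂μ ≤ ε := by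
  obtain ⟨n, hn⟩ := fam_cx (fam_bxF ι) τ hg hf hε
  refine ⟨n + 1, Nat.succ_pos n, fun a a' N N' hN hN' => ?_⟩
  have hP : ∀ i, 0 < N i := fun i => lt_of_lt_of_le (Nat.succ_pos n) (hN i)
  have hP' : ∀ i, 0 < N' i := fun i => lt_of_lt_of_le (Nat.succ_pos n) (hN' i)
  have h1 := hn (bxm a N hP) ⟨a, N, hP, fun i => hN i, rfl⟩ (bxm a' N' hP')
    ⟨a', N', hP', fun i => hN' i, rfl⟩
  have h2 : ∀ (b : ι → ℤ) (M : ι → ℕ) (hM : ∀ i, 0 < M i) (x : X),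
      AgC τ g f (bxm b M hM) x = EB b M (fun z => ∏ j, f j (τ.t (g j z) x)) :=
    fun b M hM x => ec_bxm b M hM _
  simp only [h2] at h1
  exact h1

/-- The same with vectors of integer polynomials as exponents of a `ℤ ^ κ` action. -/
theorem walsh_pol {ι κ : Type} [Fintype ι] [DecidableEq ι] [Fintype κ] {X : Type}
    [MeasurableSpace X] {μ : Measure X} [IsProbabilityMeasure μ] (τ : Act (κ → ℤ) μ) {J : Type}
    [Fintype J] (p : J → κ → MvPolynomial ι ℤ) {f : J → X → ℂ} (hf : ∀ j, BdC (f j)) {ε : ℝ}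
    (hε : 0 < ε) :
    ∃ N0 : ℕ, 0 < N0 ∧ ∀ (a a' : ι → ℤ) (N N' : ι → ℕ), (∀ i, N0 ≤ N i) → (∀ i, N0 ≤ N' i) →
      ∫ x, ‖EB a N (fun z => ∏ j, f j (τ.t (fun k => MvPolynomial.eval z (p j k)) x)) -
        EB a' N' (fun z => ∏ j, f j (τ.t (fun k => MvPolynomial.eval z (p j k)) x))‖ ^ 2 ∂μ ≤
          ε := by
  obtain ⟨e, he⟩ := pd_eval_fam p
  exact walsh_box τ (g := fun j n k => MvPolynomial.eval n (p j k)) he hf hε

end Pool.Agent.MRS
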